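import Pool.Agent.H94.FJ.M20

/-! The parts of this file: H95.WH.ArtKR, H95.WH.ArtP. -/

section

/-!
# Artin induction for `K₁(R[F]) ⊗ ℚ`

`R` is a commutative ring such that `R/nR` is finite for all `n ≥ 1`.
-/

set_option autoImplicit false

open Matrix
open scoped Classical

universe u v w

namespace Pool.Agent.H95.WH

open Pool.Agent.H71.FJ (lamR twR incl)
open Pool.Agent.H71.FJ (tw tw_single)

variable (R : Type u) [CommRing R] (F : Type v) [Group F]

/-- The power condition. -/
def PowMod (A : Type w) [Ring A] : Prop :=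
  ∀ n : ℕ, n ≠ 0 → ∀ (k : ℕ) (U : (Matrix (Fin k) (Fin k) A)ˣ),
    ∃ (m : ℕ) (Z : Matrix (Fin k) (Fin k) A), 0 < m ∧
      ((U ^ m : (Matrix (Fin k) (Fin k) A)ˣ) : Matrix (Fin k) (Fin k) A) = 1 + (n : ℤ) • Z

theorem twR_inter {X Y : Type v} [Fintype X] [Fintype Y] [DecidableEq X] [DecidableEq Y]
    [MulAction F X] [MulAction F Y]
    (a : Matrix X Y ℤ) (ha : ∀ (h : F) x y, a (h • x) (h • y) = a x y)
    (r : MonoidAlgebra R F) :
    twR R X r * a.map (Int.castRingHom (MonoidAlgebra R F)) =
      a.map (Int.castRingHom (MonoidAlgebra R F)) * twR R Y r := by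
  induction r using MonoidAlgebra.induction_linear with
  | zero => rw [map_zero, map_zero, Matrix.zero_mul, Matrix.mul_zero]
  | add s t hs ht => rw [map_add, map_add, Matrix.add_mul, Matrix.mul_add, hs, ht]
  | single h r =>
    refine Matrix.ext fun x y => ?_
    rw [Matrix.mul_apply, Matrix.mul_apply]
    have e1 : ∀ z : X, twR R X (MonoidAlgebra.single h r) x z =
        if x = h • z then MonoidAlgebra.single h r else 0 := fun z => tw_single R X h r x z
    have e2 : ∀ z : Y, twR R Y (MonoidAlgebra.single h r) z y =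
        if z = h • y then MonoidAlgebra.single h r else 0 := fun z => tw_single R Y h r z y
    rw [Finset.sum_eq_single (h⁻¹ • x), Finset.sum_eq_single (h • y)]
    · rw [e1, e2, if_pos rfl, if_pos (smul_inv_smul h x).symm, Matrix.map_apply, Matrix.map_apply,
        ← ha h (h⁻¹ • x) y, smul_inv_smul]
      change _ * ((a x (h • y) : ℤ) : MonoidAlgebra R F) =
        ((a x (h • y) : ℤ) : MonoidAlgebra R F) * _
      exact (Int.cast_commute _ _).symm.eq
    · intro z _ hz
      rw [e2, if_neg hz, mul_zero]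
    · intro hz
      exact absurd (Finset.mem_univ _) hz
    · intro z _ hz
      rw [e1, if_neg, zero_mul]
      intro e
      exact hz (by rw [e, inv_smul_smul])
    · intro hz
      exact absurd (Finset.mem_univ _) hz

/-- Families indexed by a finite type. -/
private theorem art_enum {K : Type} [Fintype K] (D : K → Subgroup F)
    (y : ∀ i, K1 (MonoidAlgebra R (D i))) (hD : ∀ i, IsCyclic (D i)) (z : K1 (MonoidAlgebra R F))
    (hz : z = ∑ i, K1.map (incl R (D i)) (y i)) :
    ∃ (r : ℕ) (D : Fin r → Subgroup F) (y : ∀ i, K1 (MonoidAlgebra R (D i))),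
      (∀ i, IsCyclic (D i)) ∧ z = ∑ i, K1.map (incl R (D i)) (y i) :=
  ⟨Fintype.card K, fun i => D ((Fintype.equivFin K).symm i),
    fun i => y ((Fintype.equivFin K).symm i), fun i => hD _, by
      rw [hz]
      exact (Equiv.sum_comp (Fintype.equivFin K).symm
        (fun i => K1.map (incl R (D i)) (y i))).symm⟩

private theorem inter_tw {X Y : Type v} [Fintype X] [Fintype Y] [DecidableEq X] [DecidableEq Y]
    [MulAction F X] [MulAction F Y]
    (hpow : PowMod (MonoidAlgebra R F)) (n : ℕ) (hn : n ≠ 0) (a : Matrix X Y ℤ) (b : Matrix Y X ℤ)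
    (hab : a * b = (n : ℤ) • (1 : Matrix X X ℤ)) (hba : b * a = (n : ℤ) • (1 : Matrix Y Y ℤ))
    (ha : ∀ (h : F) x y, a (h • x) (h • y) = a x y) (x : K1 (MonoidAlgebra R F)) :
    ∃ m : ℕ, 0 < m ∧ m • K1.push (twR R X) x = m • K1.push (twR R Y) x :=
  inter (R := MonoidAlgebra R F) (S := MonoidAlgebra R F) (twR R X) (twR R Y) (n : ℤ) a b hab hba
    (twR_inter R F a ha) (fun k U => hpow n hn k U) x

/-- Rationally isomorphic permutation lattices act in the same way up to torsion. -/
def InterP : Prop :=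
  ∀ {X Y : Type v} [Fintype X] [Fintype Y] [DecidableEq X] [DecidableEq Y]
    [MulAction F X] [MulAction F Y] (n : ℕ) (_ : n ≠ 0) (a : Matrix X Y ℤ) (b : Matrix Y X ℤ)
    (_ : a * b = (n : ℤ) • (1 : Matrix X X ℤ)) (_ : b * a = (n : ℤ) • (1 : Matrix Y Y ℤ))
    (_ : ∀ (h : F) x y, a (h • x) (h • y) = a x y) (x : K1 (MonoidAlgebra R F)),
    ∃ m : ℕ, 0 < m ∧ m • K1.push (twR R X) x = m • K1.push (twR R Y) x

/-- the relation for the permutation modules -/
private theorem art_rel [Finite F] (hint : InterP R F)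
    (x : K1 (MonoidAlgebra R F)) :
    ∃ (I J : Type) (_ : Fintype I) (_ : Fintype J) (D : I → Subgroup F) (E : J → Subgroup F)
      (_ : ∀ i, Fintype (F ⧸ D i)) (_ : ∀ j, Fintype (F ⧸ E j)) (m : ℕ),
      (∀ i, IsCyclic (D i)) ∧ (∀ j, IsCyclic (E j)) ∧ 0 < m ∧
      m • (Nat.card F • x + ∑ i : I, K1.push (twR R (F ⧸ D i)) x) =
        m • ∑ j : J, K1.push (twR R (F ⧸ E j)) x := by
  obtain ⟨I, J, hI, hJ, D, E, hf1, hf2, a, b, n, hD, hE, hn, hab, hba, ha⟩ := exists_artin_rel F
  have hfD : ∀ H : Subgroup F, Fintype (F ⧸ H) := fun H => Fintype.ofFinite _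
  obtain ⟨m, hm, key⟩ := hint n hn a b hab hba ha x
  refine ⟨I, J, hI, hJ, D, E, fun _ => hfD _, fun _ => hfD _, m, hD, hE, hm, ?_⟩
  rw [push_tw_sigmaR R (fun i : Fin (Nat.card F) ⊕ I => (Sum.elim (fun _ => ⊤) D i : Subgroup F)),
    push_tw_sigmaR R E, Fintype.sum_sum_type] at key
  have h1 : ∑ i : Fin (Nat.card F), K1.push (twR R (F ⧸ (⊤ : Subgroup F))) x = Nat.card F • x := by
    rw [Finset.sum_const, Finset.card_univ, Fintype.card_fin, push_tw_topR]
  rw [← h1]
  exact key

theorem artin_K1_of_inter [Finite F] (hint : InterP R F)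
    (x : K1 (MonoidAlgebra R F)) :
    ∃ (m r : ℕ) (D : Fin r → Subgroup F) (y : ∀ i, K1 (MonoidAlgebra R (D i))),
      0 < m ∧ (∀ i, IsCyclic (D i)) ∧ m • x = ∑ i, K1.map (incl R (D i)) (y i) := by
  obtain ⟨I, J, hI, hJ, D, E, hfD, hfE, m, hD, hE, hm, key⟩ := art_rel R F hint x
  obtain ⟨r, DD, y, h1, h2⟩ := art_enum R F (K := J ⊕ I) (Sum.elim E D)
    (fun i => match i with
      | Sum.inl j => m • K1.push (lamR R (E j)) x
      | Sum.inr i => -(m • K1.push (lamR R (D i)) x))
    (by
      rintro (i | i)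
      · exact hE i
      · exact hD i) ((m * Nat.card F) • x) (by
      rw [Fintype.sum_sum_type]
      have h4 : ∀ j : J, K1.map (incl R (E j)) (m • K1.push (lamR R (E j)) x) =
          m • K1.push (twR R (F ⧸ E j)) x := by
        intro j
        rw [map_nsmul, ind_res1R]
      have h5 : ∀ j : I, K1.map (incl R (D j)) (-(m • K1.push (lamR R (D j)) x)) =
          -(m • K1.push (twR R (F ⧸ D j)) x) := by
        intro j
        rw [map_neg, map_nsmul, ind_res1R]
      refine Eq.trans ?_ (congrArg₂ (· + ·) (Finset.sum_congr rfl (fun j _ => (h4 j).symm))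
        (Finset.sum_congr rfl (fun j _ => (h5 j).symm)))
      rw [Finset.sum_neg_distrib, ← Finset.smul_sum, ← Finset.smul_sum, ← key, smul_add, mul_smul]
      abel)
  exact ⟨m * Nat.card F, r, DD, y, Nat.mul_pos hm Nat.card_pos, h1, h2⟩

theorem artin_K1_of_pow [Finite F] (hpow : PowMod (MonoidAlgebra R F))
    (x : K1 (MonoidAlgebra R F)) :
    ∃ (m r : ℕ) (D : Fin r → Subgroup F) (y : ∀ i, K1 (MonoidAlgebra R (D i))),
      0 < m ∧ (∀ i, IsCyclic (D i)) ∧ m • x = ∑ i, K1.map (incl R (D i)) (y i) :=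
  artin_K1_of_inter R F
    (fun n hn a b hab hba ha x => inter_tw R F hpow n hn a b hab hba ha x) x

private theorem artR_div (n : ℕ) (r : MonoidAlgebra R F)
    (h : MonoidAlgebra.mapRingHom F (Ideal.Quotient.mk (Ideal.span {(n : R)})) r = 0) :
    ∃ z : MonoidAlgebra R F, r = (n : ℤ) • z := by
  have h0 : ∀ t : R, ∃ z : R, Ideal.Quotient.mk (Ideal.span {(n : R)}) t = 0 → t = (n : R) * z := by
    intro t
    by_cases ht : Ideal.Quotient.mk (Ideal.span {(n : R)}) t = 0
    · rw [Ideal.Quotient.eq_zero_iff_mem, Ideal.mem_span_singleton] at ht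
      obtain ⟨z, hz⟩ := ht
      exact ⟨z, fun _ => hz⟩
    · exact ⟨0, fun h => absurd h ht⟩
  choose f hf using h0
  let g : R → R := fun t => if t = 0 then 0 else f t
  refine ⟨MonoidAlgebra.ofCoeff (r.coeff.mapRange g (by simp [g])), ?_⟩
  ext x
  have h1 : (MonoidAlgebra.mapRingHom F (Ideal.Quotient.mk (Ideal.span {(n : R)})) r).coeff x = 0 := by
    rw [h]
    rfl
  rw [MonoidAlgebra.coeff_mapRingHom] at h1
  change r.coeff x = (n : ℤ) • (g (r.coeff x))
  by_cases h2 : r.coeff x = 0
  · simp [h2, g]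
  · simp only [g, if_neg h2, natCast_zsmul, nsmul_eq_mul]
    exact hf _ h1

theorem powMod_of_finite [Finite F] (hR : ∀ n : ℕ, n ≠ 0 → Finite (R ⧸ Ideal.span {(n : R)})) :
    PowMod (MonoidAlgebra R F) := by
  intro n hn k U
  have hfin := hR n hn
  let f := MonoidAlgebra.mapRingHom F (Ideal.Quotient.mk (Ideal.span {(n : R)}))
  have h1 : Finite (MonoidAlgebra (R ⧸ Ideal.span {(n : R)}) F) :=
    Finite.of_injective (fun x : MonoidAlgebra (R ⧸ Ideal.span {(n : R)}) F =>
      (⇑x.coeff : F → R ⧸ Ideal.span {(n : R)}))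
      (DFunLike.coe_injective.comp MonoidAlgebra.coeff_injective)
  have h2 : Finite (Matrix (Fin k) (Fin k) (MonoidAlgebra (R ⧸ Ideal.span {(n : R)}) F)) :=
    inferInstanceAs (Finite (Fin k → Fin k → MonoidAlgebra (R ⧸ Ideal.span {(n : R)}) F))
  let u := K1.mapU f U
  have hm : 0 < orderOf u := orderOf_pos u
  have hu : u ^ orderOf u = 1 := pow_orderOf_eq_one u
  have hu2 : K1.mapU f (U ^ orderOf u) = 1 := by
    rw [map_pow]
    exact hu
  have hu3 : ((U ^ orderOf u : (Matrix (Fin k) (Fin k) (MonoidAlgebra R F))ˣ) :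
      Matrix (Fin k) (Fin k) (MonoidAlgebra R F)).map f = 1 := congrArg Units.val hu2
  have hu4 : ∀ i j, ∃ z : MonoidAlgebra R F,
      (((U ^ orderOf u : (Matrix (Fin k) (Fin k) (MonoidAlgebra R F))ˣ) :
      Matrix (Fin k) (Fin k) (MonoidAlgebra R F)) - 1) i j = (n : ℤ) • z := by
    intro i j
    apply artR_div
    change f _ = 0
    have e := congrFun (congrFun hu3 i) j
    rw [Matrix.map_apply] at e
    rw [Matrix.sub_apply, map_sub, e, Matrix.one_apply, Matrix.one_apply]
    split_ifs
    · rw [map_one, sub_self]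
    · rw [map_zero, sub_zero]
  choose Z hZ using hu4
  refine ⟨orderOf u, Matrix.of Z, hm, ?_⟩
  rw [← sub_eq_iff_eq_add']
  refine Matrix.ext fun i j => ?_
  exact hZ i j

/-- **Artin induction** for `K₁(R[F]) ⊗ ℚ`, `R` commutative, `R/nR` finite for all `n ≥ 1`. -/
theorem artin_K1R [Finite F] (hR : ∀ n : ℕ, n ≠ 0 → Finite (R ⧸ Ideal.span {(n : R)}))
    (x : K1 (MonoidAlgebra R F)) :
    ∃ (m r : ℕ) (D : Fin r → Subgroup F) (y : ∀ i, K1 (MonoidAlgebra R (D i))),
      0 < m ∧ (∀ i, IsCyclic (D i)) ∧ m • x = ∑ i, K1.map (incl R (D i)) (y i) :=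
  artin_K1_of_pow R F (powMod_of_finite R F hR) x

/-- The case of a field of characteristic zero. -/
theorem artin_K1_field (k : Type u) [Field k] [CharZero k] [Finite F]
    (x : K1 (MonoidAlgebra k F)) :
    ∃ (m r : ℕ) (D : Fin r → Subgroup F) (y : ∀ i, K1 (MonoidAlgebra k (D i))),
      0 < m ∧ (∀ i, IsCyclic (D i)) ∧ m • x = ∑ i, K1.map (incl k (D i)) (y i) := by
  apply artin_K1R k F
  intro n hn
  have h : Ideal.span {(n : k)} = ⊤ := by
    rw [Ideal.span_singleton_eq_top]
    exact (Nat.cast_ne_zero.2 hn).isUnit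
  rw [h]
  have : Subsingleton (k ⧸ (⊤ : Ideal k)) := Ideal.Quotient.subsingleton_iff.2 rfl
  infer_instance

end Pool.Agent.H95.WH

end

section

/-!
# Artin induction for `K₁(k[F]) ⊗ ℚ`, `k` a commutative ring of characteristic `p`
-/

set_option autoImplicit false

open Matrix

universe u v w

namespace Pool.Agent.H95.WH

open Pool.Agent.H71.FJ (lamR twR incl)
open Pool.Agent.H71.FJ (tw tw_single)

section Conj

variable {R : Type u} [Ring R] {S : Type v} [Ring S] {J J' : Type*} [Fintype J] [DecidableEq J]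
  [Fintype J'] [DecidableEq J']

/-- The conjugate of a homomorphism to a matrix ring. -/
def conjRep (φ : R →+* Matrix J J S) (P : Matrix J J' S) (P' : Matrix J' J S) (h1 : P * P' = 1)
    (h2 : P' * P = 1) : R →+* Matrix J' J' S where
  toFun r := P' * φ r * P
  map_one' := by rw [map_one, Matrix.mul_one, h2]
  map_mul' r s := by
    have e : P' * φ r * P * (P' * φ s * P) = P' * φ r * (P * P') * φ s * P := by
      simp only [Matrix.mul_assoc]
    rw [e, h1, Matrix.mul_one, map_mul, ← Matrix.mul_assoc]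
  map_zero' := by rw [map_zero, Matrix.mul_zero, Matrix.zero_mul]
  map_add' r s := by rw [map_add, Matrix.mul_add, Matrix.add_mul]

theorem conjRep_apply (φ : R →+* Matrix J J S) (P : Matrix J J' S) (P' : Matrix J' J S)
    (h1 : P * P' = 1) (h2 : P' * P = 1) (r : R) :
    conjRep φ P P' h1 h2 r = P' * φ r * P := rfl

theorem push_conjRep (φ : R →+* Matrix J J S) (P : Matrix J J' S) (P' : Matrix J' J S)
    (h1 : P * P' = 1) (h2 : P' * P = 1) (x : K1 R) :
    K1.push (conjRep φ P P' h1 h2) x = K1.push φ x := by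
  symm
  apply K1.push_congr φ _ P P' h1 h2
  intro r
  rw [conjRep_apply, Matrix.mul_assoc P', ← Matrix.mul_assoc P, h1, Matrix.one_mul]

theorem push_eq_of_tri (φ ψ : R →+* Matrix J J S) (v : J → ℕ)
    (h1 : ∀ r i j, v j < v i → φ r i j = 0) (h2 : ∀ r i j, v i < v j → ψ r i j = 0)
    (h3 : ∀ r i j, v i = v j → φ r i j = ψ r i j) (x : K1 R) : K1.push φ x = K1.push ψ x := by
  have key : K1.push φ = K1.push ψ := by
    apply K1.hom_ext
    intro n U
    rw [K1.push_mk, K1.push_mk]
    exact cls_tri (fun q : Fin n × J => v q.2) (flatU φ U) (flatU ψ U)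
      (fun i j h => h1 _ _ _ h) (fun i j h => h1 _ _ _ h)
      (fun i j h => h2 _ _ _ h) (fun i j h => h2 _ _ _ h)
      (fun i j h => h3 _ _ _ h)
  rw [key]

end Conj

variable (k : Type u) [CommRing k] (F : Type v) [Group F]

/-- The integral permutation matrices. -/
private def permZ (X : Type v) [DecidableEq X] [MulAction F X] (h : F) : Matrix X X ℤ :=
  Matrix.of fun x y => if x = h • y then 1 else 0

private theorem permZ_apply (X : Type v) [DecidableEq X] [MulAction F X] (h : F) (x y : X) :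
    permZ F X h x y = if x = h • y then 1 else 0 := rfl

private theorem permZ_inter {X Y : Type v} [Fintype X] [Fintype Y] [DecidableEq X] [DecidableEq Y]
    [MulAction F X] [MulAction F Y] (a : Matrix X Y ℤ)
    (ha : ∀ (h : F) x y, a (h • x) (h • y) = a x y) (h : F) :
    permZ F X h * a = a * permZ F Y h := by
  ext x y
  rw [Matrix.mul_apply, Matrix.mul_apply, Finset.sum_eq_single (h⁻¹ • x),
    Finset.sum_eq_single (h • y)]
  · rw [permZ_apply, permZ_apply, if_pos rfl, if_pos (smul_inv_smul h x).symm,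
      ← ha h (h⁻¹ • x) y, smul_inv_smul, one_mul, mul_one]
  · intro z _ hz
    rw [permZ_apply, if_neg hz, mul_zero]
  · intro hz
    exact absurd (Finset.mem_univ _) hz
  · intro z _ hz
    rw [permZ_apply, if_neg, zero_mul]
    intro e
    exact hz (by rw [e, inv_smul_smul])
  · intro hz
    exact absurd (Finset.mem_univ _) hz

private theorem tw_eq (X : Type v) [Fintype X] [DecidableEq X] [MulAction F X] (h : F) (s : k) :
    twR k X (MonoidAlgebra.single h s) =
      (permZ F X h).map (fun z : ℤ => ((z : MonoidAlgebra k F) * MonoidAlgebra.single h s)) := by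
  refine Matrix.ext fun x y => ?_
  have e1 : twR k X (MonoidAlgebra.single h s) x y =
      if x = h • y then MonoidAlgebra.single h s else 0 := tw_single k X h s x y
  rw [e1, Matrix.map_apply, permZ_apply]
  split_ifs
  · rw [Int.cast_one, one_mul]
  · rw [Int.cast_zero, zero_mul]

private theorem conj_tw {X Y : Type v} [Fintype X] [Fintype Y] [DecidableEq X] [DecidableEq Y]
    [MulAction F X] (P : Matrix X Y ℤ) (P' : Matrix Y X ℤ) (h : F) (s : k) (i j : Y) :
    (P'.map (Int.castRingHom (MonoidAlgebra k F)) * twR k X (MonoidAlgebra.single h s) *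
      P.map (Int.castRingHom (MonoidAlgebra k F))) i j =
      (((P' * permZ F X h * P) i j : ℤ) : MonoidAlgebra k F) * MonoidAlgebra.single h s := by
  rw [tw_eq]
  simp only [Matrix.mul_apply, Matrix.map_apply, eq_intCast, Int.cast_sum, Int.cast_mul,
    Finset.sum_mul]
  refine Finset.sum_congr rfl fun y _ => Finset.sum_congr rfl fun x _ => ?_
  rw [← mul_assoc, mul_assoc _ (MonoidAlgebra.single h s) _,
    ← (Int.cast_commute (P y j) (MonoidAlgebra.single h s)).eq, ← mul_assoc]

variable (p : ℕ) [Fact p.Prime] [CharP k p]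

private theorem cast_zero_of_dvd (z : ℤ) (hz : (p : ℤ) ∣ z) : (z : MonoidAlgebra k F) = 0 := by
  obtain ⟨y, rfl⟩ := hz
  have h1 : ((p : ℕ) : MonoidAlgebra k F) = 0 := by
    have h2 : ((p : ℕ) : MonoidAlgebra k F) = algebraMap k (MonoidAlgebra k F) (p : k) := by
      rw [map_natCast]
    rw [h2, CharP.cast_eq_zero, map_zero]
  rw [Int.cast_mul, Int.cast_natCast, h1, zero_mul]

include p in
theorem inter_p {X Y : Type v} [Fintype X] [Fintype Y] [DecidableEq X] [DecidableEq Y]
    [MulAction F X] [MulAction F Y] (n : ℕ) (hn : n ≠ 0) (a : Matrix X Y ℤ) (b : Matrix Y X ℤ)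
    (hab : a * b = (n : ℤ) • (1 : Matrix X X ℤ)) (hba : b * a = (n : ℤ) • (1 : Matrix Y Y ℤ))
    (ha : ∀ (h : F) x y, a (h • x) (h • y) = a x y) (x : K1 (MonoidAlgebra k F)) :
    K1.push (twR k X) x = K1.push (twR k Y) x := by
  obtain ⟨v, P, P', Q, Q', u, u', hP, hP', hQ, hQ', hu, hup, hlo, hd⟩ :=
    exists_modp p n hn a b hab hba (permZ F X) (permZ F Y) (permZ_inter F a ha)
  let c := Int.castRingHom (MonoidAlgebra k F)
  have mapc : ∀ {I J K : Type v} [Fintype J] (M : Matrix I J ℤ) (N : Matrix J K ℤ),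
      M.map c * N.map c = (M * N).map c := fun M N => (Matrix.map_mul (f := c)).symm
  have onec : ∀ {I : Type v} [DecidableEq I], (1 : Matrix I I ℤ).map c = 1 := fun {I} _ => by
    refine Matrix.ext fun i j => ?_
    rw [Matrix.map_apply, Matrix.one_apply, Matrix.one_apply]
    split_ifs
    · exact map_one c
    · exact map_zero c
  have eP : P.map c * P'.map c = 1 := by rw [mapc, hP, onec]
  have eP' : P'.map c * P.map c = 1 := by rw [mapc, hP', onec]
  have eQ : Q.map c * Q'.map c = 1 := by rw [mapc, hQ, onec]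
  have eQ' : Q'.map c * Q.map c = 1 := by rw [mapc, hQ', onec]
  let D : Matrix X X (MonoidAlgebra k F) := diagonal fun i => (u i : MonoidAlgebra k F)
  let D' : Matrix X X (MonoidAlgebra k F) := diagonal fun i => (u' i : MonoidAlgebra k F)
  have huu : ∀ i, (u i : MonoidAlgebra k F) * (u' i : MonoidAlgebra k F) = 1 := by
    intro i
    have h1 := cast_zero_of_dvd k F p _ (hu i)
    rw [Int.cast_sub, Int.cast_mul, Int.cast_one, sub_eq_zero] at h1
    exact h1
  have eD : D * D' = 1 := by
    rw [diagonal_mul_diagonal, ← diagonal_one]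
    exact congrArg diagonal (funext huu)
  have eD' : D' * D = 1 := by
    rw [diagonal_mul_diagonal, ← diagonal_one]
    refine congrArg diagonal (funext fun i => ?_)
    rw [(Int.cast_commute (u' i) ((u i : ℤ) : MonoidAlgebra k F)).eq]
    exact huu i
  rw [← push_conjRep (twR k X) (P.map c) (P'.map c) eP eP' x,
    ← push_conjRep (twR k Y) (Q.map c) (Q'.map c) eQ eQ' x,
    ← push_conjRep (conjRep (twR k Y) (Q.map c) (Q'.map c) eQ eQ') D' D eD' eD x]
  apply push_eq_of_tri _ _ v
  · intro r i j hij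
    induction r using MonoidAlgebra.induction_linear with
    | zero => rw [map_zero, Matrix.zero_apply]
    | add s t hs ht => rw [map_add, Matrix.add_apply, hs, ht, add_zero]
    | single h s =>
      rw [conjRep_apply, conj_tw, cast_zero_of_dvd k F p _ (hup h i j hij), zero_mul]
  · intro r i j hij
    induction r using MonoidAlgebra.induction_linear with
    | zero => rw [map_zero, Matrix.zero_apply]
    | add s t hs ht => rw [map_add, Matrix.add_apply, hs, ht, add_zero]
    | single h s =>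
      rw [conjRep_apply, conjRep_apply, Matrix.mul_diagonal, Matrix.diagonal_mul, conj_tw,
        cast_zero_of_dvd k F p _ (hlo h i j hij), zero_mul, mul_zero, zero_mul]
  · intro r i j hij
    induction r using MonoidAlgebra.induction_linear with
    | zero => rw [map_zero, map_zero]
    | add s t hs ht => rw [map_add, map_add, Matrix.add_apply, Matrix.add_apply, hs, ht]
    | single h s =>
      rw [conjRep_apply, conjRep_apply, conjRep_apply, Matrix.mul_diagonal, Matrix.diagonal_mul,
        conj_tw, conj_tw]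
      have h1 := cast_zero_of_dvd k F p _ (hd h i j hij)
      rw [Int.cast_sub, sub_eq_zero] at h1
      rw [h1, Int.cast_mul, Int.cast_mul, ← mul_assoc, mul_assoc _ (MonoidAlgebra.single h s) _,
        ← (Int.cast_commute (u' j) (MonoidAlgebra.single h s)).eq, ← mul_assoc]

include p in
/-- **Artin induction** for `K₁(k[F]) ⊗ ℚ`, `k` a commutative ring of characteristic `p`. -/
theorem artin_K1_charP [Finite F] (x : K1 (MonoidAlgebra k F)) :
    ∃ (m r : ℕ) (D : Fin r → Subgroup F) (y : ∀ i, K1 (MonoidAlgebra k (D i))),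
      0 < m ∧ (∀ i, IsCyclic (D i)) ∧ m • x = ∑ i, K1.map (incl k (D i)) (y i) :=
  artin_K1_of_inter k F
    (fun n hn a b hab hba ha x => ⟨1, one_pos, by rw [inter_p k F p n hn a b hab hba ha x]⟩) x

/-- **Artin induction** for `K₁(k[F]) ⊗ ℚ`, `k` a field. -/
theorem artin_K1_anyField (k : Type u) [Field k] (F : Type v) [Group F] [Finite F]
    (x : K1 (MonoidAlgebra k F)) :
    ∃ (m r : ℕ) (D : Fin r → Subgroup F) (y : ∀ i, K1 (MonoidAlgebra k (D i))),
      0 < m ∧ (∀ i, IsCyclic (D i)) ∧ m • x = ∑ i, K1.map (incl k (D i)) (y i) := by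
  obtain ⟨q, hq⟩ := CharP.exists k
  rcases CharP.char_is_prime_or_zero k q with h | h
  · have : Fact q.Prime := ⟨h⟩
    exact artin_K1_charP k F q x
  · subst h
    have : CharZero k := CharP.charP_to_charZero k
    exact artin_K1_field F k x

end Pool.Agent.H95.WH

end
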