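import Pool.Agent.H94.FJ.M11
import Pool.Agent.H94.FJ.M16

/-! The parts of this file: H95.WH.K1B, H95.WH.Red, H95.WH.Semi, H71.WH.Prim, H71.WH.Main, H71.KP.AlgInd, H71.KP.FinGen, H71.KP.Schur, H71.KP.Cassels, H95.WH.Push, H95.WH.Inter, H95.WH.TriC. -/

section

/-!
# Basic facts on `K₁`

`K1.cls U` is the class of an invertible matrix `U` indexed by any finite type.

## Paper proofs

`cls_reindex`: two enumerations of the index type differ by a permutation `σ` of `Fin n`; the two
matrices are conjugate by a permutation matrix `P`, and `mk (P U P⁻¹) = mk U` by `mk_mul`.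
`cls_stab`: `cls (fromBlocks U 0 0 1) = cls U` by induction on the number of elements of the second
index type (`mk_stab`, `cls_reindex`).
`cls_unip`: `fromBlocks 1 X 0 1` has class `0`: after adding a third block `κ` (`cls_stab`) it is the
commutator of `e₁₃(X)` and `e₃₂(1)`.
`cls_upper`: `fromBlocks U B 0 W = fromBlocks U 0 0 1 * fromBlocks 1 0 0 W * fromBlocks 1 (U⁻¹ B) 0 1`
and `fromBlocks 1 0 0 W` is a reindexing of `fromBlocks W 0 0 1`. `cls_lower` likewise (or by
reindexing along `Sum.swap`).
`cls_vas` (Vaserstein): `fromBlocks (1+ab) a 0 1 * fromBlocks 1 0 (-b) 1 = fromBlocks 1 a (-b) 1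
= fromBlocks 1 0 (-b) 1 * fromBlocks 1 a 0 (1+ba)`.
`cls_conj`: `U = 1 + P ((U' - 1) Q)`, `U' = 1 + ((U' - 1) Q) P` and `cls_vas` (here `U = P U' Q`,
`P Q = 1`, `Q P = 1`).
`exists_mk`: the set of the elements `mk U` is closed under addition (blocks) and negation
(inverses), contains `0`, and generates.
-/

set_option autoImplicit false

open Matrix

universe u v

namespace Pool.Agent.H95.WH

variable {R : Type u} [Ring R] {S : Type v} [Ring S]
  {ι κ : Type*} [Fintype ι] [DecidableEq ι] [Fintype κ] [DecidableEq κ]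

/-- Reindexing of invertible matrices. -/
def reU (e : ι ≃ κ) : (Matrix ι ι R)ˣ →* (Matrix κ κ R)ˣ where
  toFun U :=
    { val := U.val.submatrix e.symm e.symm
      inv := U.inv.submatrix e.symm e.symm
      val_inv := by rw [Matrix.submatrix_mul_equiv, U.val_inv, Matrix.submatrix_one_equiv]
      inv_val := by rw [Matrix.submatrix_mul_equiv, U.inv_val, Matrix.submatrix_one_equiv] }
  map_one' := by
    apply Units.ext
    exact Matrix.submatrix_one_equiv e.symm
  map_mul' U V := by
    apply Units.ext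
    exact (Matrix.submatrix_mul_equiv _ _ _ _ _).symm

theorem reU_val (e : ι ≃ κ) (U : (Matrix ι ι R)ˣ) :
    (reU e U : Matrix κ κ R) = (U : Matrix ι ι R).submatrix e.symm e.symm := rfl

/-- The block diagonal matrix `diag(U, W)`. -/
private def diagU (U : (Matrix ι ι R)ˣ) (W : (Matrix κ κ R)ˣ) :
    (Matrix (ι ⊕ κ) (ι ⊕ κ) R)ˣ where
  val := Matrix.fromBlocks U.val 0 0 W.val
  inv := Matrix.fromBlocks U.inv 0 0 W.inv
  val_inv := by
    rw [Matrix.fromBlocks_multiply]
    simp only [add_zero, zero_add, Matrix.mul_zero, Matrix.zero_mul,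
      U.val_inv, W.val_inv, Matrix.fromBlocks_one]
  inv_val := by
    rw [Matrix.fromBlocks_multiply]
    simp only [add_zero, zero_add, Matrix.mul_zero, Matrix.zero_mul,
      U.inv_val, W.inv_val, Matrix.fromBlocks_one]

private theorem diagU_val (U : (Matrix ι ι R)ˣ) (W : (Matrix κ κ R)ˣ) :
    (diagU U W).val = Matrix.fromBlocks U.val 0 0 W.val := rfl

private theorem diagU_mul (U U' : (Matrix ι ι R)ˣ) (W W' : (Matrix κ κ R)ˣ) :
    diagU (U * U') (W * W') = diagU U W * diagU U' W' := by
  apply Units.ext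
  rw [Units.val_mul, diagU_val, diagU_val, diagU_val, Matrix.fromBlocks_multiply]
  simp only [Units.val_mul, Matrix.mul_zero, Matrix.zero_mul, add_zero, zero_add]

/-- The unipotent matrix `(1 X; 0 1)`. -/
private def unipU (X : Matrix ι κ R) : (Matrix (ι ⊕ κ) (ι ⊕ κ) R)ˣ where
  val := Matrix.fromBlocks 1 X 0 1
  inv := Matrix.fromBlocks 1 (-X) 0 1
  val_inv := by
    rw [Matrix.fromBlocks_multiply]
    simp only [Matrix.mul_zero, Matrix.zero_mul, Matrix.mul_one, Matrix.one_mul, add_zero,
      zero_add, neg_add_cancel, Matrix.fromBlocks_one]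
  inv_val := by
    rw [Matrix.fromBlocks_multiply]
    simp only [Matrix.mul_zero, Matrix.zero_mul, Matrix.mul_one, Matrix.one_mul, add_zero,
      zero_add, add_neg_cancel, Matrix.fromBlocks_one]

private theorem unipU_val (X : Matrix ι κ R) :
    (unipU X).val = Matrix.fromBlocks 1 X 0 1 := rfl

/-- The unipotent matrix `(1 0; X 1)`. -/
private def unilU (X : Matrix κ ι R) : (Matrix (ι ⊕ κ) (ι ⊕ κ) R)ˣ where
  val := Matrix.fromBlocks 1 0 X 1
  inv := Matrix.fromBlocks 1 0 (-X) 1
  val_inv := by
    rw [Matrix.fromBlocks_multiply]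
    simp only [Matrix.mul_zero, Matrix.zero_mul, Matrix.mul_one, Matrix.one_mul, add_zero,
      zero_add, add_neg_cancel, Matrix.fromBlocks_one]
  inv_val := by
    rw [Matrix.fromBlocks_multiply]
    simp only [Matrix.mul_zero, Matrix.zero_mul, Matrix.mul_one, Matrix.one_mul, add_zero,
      zero_add, neg_add_cancel, Matrix.fromBlocks_one]

private theorem unilU_val (X : Matrix κ ι R) :
    (unilU X).val = Matrix.fromBlocks 1 0 X 1 := rfl

/-- A permutation matrix. -/
private def permU {n : ℕ} (σ : Fin n ≃ Fin n) : (Matrix (Fin n) (Fin n) R)ˣ where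
  val := (1 : Matrix (Fin n) (Fin n) R).submatrix σ.symm id
  inv := (1 : Matrix (Fin n) (Fin n) R).submatrix id σ.symm
  val_inv := by
    rw [← Matrix.submatrix_mul _ _ _ id _ Function.bijective_id, Matrix.one_mul,
      Matrix.submatrix_one_equiv]
  inv_val := by
    rw [← Matrix.submatrix_mul _ _ _ _ _ σ.symm.bijective, Matrix.one_mul,
      Matrix.submatrix_id_id]

private theorem mk_perm {n : ℕ} (σ : Fin n ≃ Fin n) (U : (Matrix (Fin n) (Fin n) R)ˣ) :
    K1.mk (reU σ U) = K1.mk U := by
  have h1 : reU σ U = permU σ * U * (permU σ)⁻¹ := by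
    apply Units.ext
    change U.val.submatrix σ.symm σ.symm =
      (1 : Matrix (Fin n) (Fin n) R).submatrix σ.symm id * U.val *
        (1 : Matrix (Fin n) (Fin n) R).submatrix id σ.symm
    have h2 : (1 : Matrix (Fin n) (Fin n) R).submatrix σ.symm id * U.val =
        U.val.submatrix σ.symm id := by
      have h3 := Matrix.submatrix_mul (1 : Matrix (Fin n) (Fin n) R) U.val σ.symm id id
        Function.bijective_id
      rw [Matrix.one_mul, Matrix.submatrix_id_id] at h3
      exact h3.symm
    have h4 : U.val.submatrix σ.symm id * (1 : Matrix (Fin n) (Fin n) R).submatrix id σ.symm =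
        U.val.submatrix σ.symm σ.symm := by
      have h3 := Matrix.submatrix_mul U.val (1 : Matrix (Fin n) (Fin n) R) σ.symm id σ.symm
        Function.bijective_id
      rw [Matrix.mul_one] at h3
      exact h3.symm
    rw [h2, h4]
  have h2 : K1.mk (permU σ : (Matrix (Fin n) (Fin n) R)ˣ) +
      K1.mk (permU σ : (Matrix (Fin n) (Fin n) R)ˣ)⁻¹ = 0 := by
    rw [← K1.mk_mul, mul_inv_cancel]
    have h3 : (K1.mk (1 : (Matrix (Fin n) (Fin n) R)ˣ)) =
        K1.mk (1 : (Matrix (Fin n) (Fin n) R)ˣ) + K1.mk (1 : (Matrix (Fin n) (Fin n) R)ˣ) := by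
      rw [← K1.mk_mul, one_mul]
    exact left_eq_add.1 h3
  rw [h1, K1.mk_mul, K1.mk_mul, add_right_comm, h2, zero_add]

private theorem mk_equiv {m n : ℕ} (e : Fin m ≃ Fin n) (U : (Matrix (Fin m) (Fin m) R)ˣ) :
    K1.mk (reU e U) = K1.mk U := by
  obtain rfl : m = n := by simpa using Fintype.card_congr e
  exact mk_perm e U

private theorem reU_trans {μ : Type*} [Fintype μ] [DecidableEq μ] (e : ι ≃ κ) (f : κ ≃ μ)
    (U : (Matrix ι ι R)ˣ) : reU (e.trans f) U = reU f (reU e U) := by
  apply Units.ext
  rfl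

private theorem reU_trans_symm_aux (e : ι ≃ κ) (U : (Matrix κ κ R)ˣ) :
    reU e (reU e.symm U) = U := by
  apply Units.ext
  rw [reU_val, reU_val]
  ext i j
  simp

private theorem reU_diagU {ι' κ' : Type*} [Fintype ι'] [DecidableEq ι'] [Fintype κ']
    [DecidableEq κ'] (e : ι ≃ ι') (f : κ ≃ κ') (U : (Matrix ι ι R)ˣ) (W : (Matrix κ κ R)ˣ) :
    reU (Equiv.sumCongr e f) (diagU U W) = diagU (reU e U) (reU f W) := by
  apply Units.ext
  rw [reU_val, diagU_val, diagU_val]
  ext i j
  rcases i with i | i <;> rcases j with j | j <;> rfl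

private theorem reU_assoc {μ : Type*} [Fintype μ] [DecidableEq μ] (U : (Matrix ι ι R)ˣ)
    (V : (Matrix κ κ R)ˣ) (W : (Matrix μ μ R)ˣ) :
    reU (Equiv.sumAssoc ι κ μ) (diagU (diagU U V) W) = diagU U (diagU V W) := by
  apply Units.ext
  rw [reU_val, diagU_val, diagU_val]
  ext i j
  rcases i with i | i | i <;> rcases j with j | j | j <;> rfl

private theorem reU_comm (U : (Matrix ι ι R)ˣ) (V : (Matrix κ κ R)ˣ) :
    reU (Equiv.sumComm ι κ) (diagU U V) = diagU V U := by
  apply Units.ext
  rw [reU_val, diagU_val, diagU_val]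
  ext i j
  rcases i with i | i <;> rcases j with j | j <;> rfl

private theorem diagU_one_one : diagU (1 : (Matrix ι ι R)ˣ) (1 : (Matrix κ κ R)ˣ) = 1 := by
  apply Units.ext
  exact Matrix.fromBlocks_one

namespace K1

/-- The class of an invertible matrix. -/
noncomputable def cls (U : (Matrix ι ι R)ˣ) : K1 R := mk (reU (Fintype.equivFin ι) U)

theorem cls_mk {n : ℕ} (U : (Matrix (Fin n) (Fin n) R)ˣ) : cls U = mk U := by
  rw [cls]
  exact mk_equiv _ U

theorem cls_mul (U V : (Matrix ι ι R)ˣ) : cls (U * V) = cls U + cls V := by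
  rw [cls, map_mul, mk_mul]
  rfl

theorem cls_one : cls (1 : (Matrix ι ι R)ˣ) = 0 := by
  have h := cls_mul (1 : (Matrix ι ι R)ˣ) 1
  rw [one_mul] at h
  exact left_eq_add.1 h

theorem cls_inv (U : (Matrix ι ι R)ˣ) : cls U⁻¹ = - cls U := by
  have h := cls_mul U⁻¹ U
  rw [inv_mul_cancel, cls_one] at h
  exact eq_neg_of_add_eq_zero_left h.symm

theorem cls_pow (U : (Matrix ι ι R)ˣ) (m : ℕ) : cls (U ^ m) = m • cls U := by
  induction m with
  | zero => rw [pow_zero, cls_one, zero_smul]
  | succ m ih => rw [pow_succ, cls_mul, ih, succ_nsmul]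

theorem cls_reindex (e : ι ≃ κ) (U : (Matrix ι ι R)ˣ) : cls (reU e U) = cls U := by
  have h : (Fintype.equivFin ι).trans (((Fintype.equivFin ι).symm.trans e).trans
      (Fintype.equivFin κ)) = e.trans (Fintype.equivFin κ) := by
    apply Equiv.ext
    intro i
    simp
  rw [cls, cls, ← mk_equiv (((Fintype.equivFin ι).symm.trans e).trans (Fintype.equivFin κ))
    (reU (Fintype.equivFin ι) U), ← reU_trans, ← reU_trans, h]

private theorem cls_diagU_fin_one (U : (Matrix ι ι R)ˣ) :
    cls (diagU U (1 : (Matrix (Fin 1) (Fin 1) R)ˣ)) = cls U := by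
  have h1 : cls U = mk (stab (reU (Fintype.equivFin ι) U)) := by
    rw [mk_stab, cls]
  have h2 : stab (reU (Fintype.equivFin ι) U) =
      reU ((Equiv.sumCongr (Fintype.equivFin ι) (Equiv.refl (Fin 1))).trans finSumFinEquiv)
        (diagU U (1 : (Matrix (Fin 1) (Fin 1) R)ˣ)) := by
    rw [reU_trans, reU_diagU]
    apply Units.ext
    rfl
  rw [h1, h2, ← cls_mk, cls_reindex]

private theorem cls_diagU_fin (U : (Matrix ι ι R)ˣ) (k : ℕ) :
    cls (diagU U (1 : (Matrix (Fin k) (Fin k) R)ˣ)) = cls U := by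
  induction k with
  | zero =>
    have h : diagU U (1 : (Matrix (Fin 0) (Fin 0) R)ˣ) =
        reU (Equiv.sumEmpty ι (Fin 0)).symm U := by
      apply Units.ext
      rw [reU_val, diagU_val]
      ext i j
      rcases i with i | i
      · rcases j with j | j
        · rfl
        · exact j.elim0
      · exact i.elim0
    rw [h, cls_reindex]
  | succ k ih =>
    have h : diagU U (1 : (Matrix (Fin (k + 1)) (Fin (k + 1)) R)ˣ) =
        reU ((Equiv.sumAssoc ι (Fin k) (Fin 1)).trans
          (Equiv.sumCongr (Equiv.refl ι) finSumFinEquiv))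
          (diagU (diagU U (1 : (Matrix (Fin k) (Fin k) R)ˣ))
            (1 : (Matrix (Fin 1) (Fin 1) R)ˣ)) := by
      rw [reU_trans, reU_assoc, diagU_one_one, reU_diagU, map_one]
      rfl
    rw [h, cls_reindex, cls_diagU_fin_one, ih]

private theorem cls_diagU_one (U : (Matrix ι ι R)ˣ) :
    cls (diagU U (1 : (Matrix κ κ R)ˣ)) = cls U := by
  have h : reU (Equiv.sumCongr (Equiv.refl ι) (Fintype.equivFin κ))
      (diagU U (1 : (Matrix κ κ R)ˣ)) =
      diagU U (1 : (Matrix (Fin (Fintype.card κ)) (Fin (Fintype.card κ)) R)ˣ) := by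
    rw [reU_diagU, map_one]
    rfl
  rw [← cls_reindex (Equiv.sumCongr (Equiv.refl ι) (Fintype.equivFin κ)), h, cls_diagU_fin]

private theorem cls_diagU (U : (Matrix ι ι R)ˣ) (W : (Matrix κ κ R)ˣ) :
    cls (diagU U W) = cls U + cls W := by
  have h : diagU U W = diagU U 1 * diagU 1 W := by
    rw [← diagU_mul, mul_one, one_mul]
  rw [h, cls_mul, cls_diagU_one, ← reU_comm W 1, cls_reindex, cls_diagU_one]

private theorem cls_com {μ : Type*} [Fintype μ] [DecidableEq μ] (C : Matrix μ κ R)
    (D : Matrix κ μ R) (hDC : D * C = 0) (W : (Matrix μ μ R)ˣ) (hW : W.val = 1 + C * D) :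
    cls W = 0 := by
  have h : diagU W (1 : (Matrix κ κ R)ˣ) =
      unipU C * unilU D * (unipU C)⁻¹ * (unilU D)⁻¹ := by
    rw [eq_mul_inv_iff_mul_eq, eq_mul_inv_iff_mul_eq]
    apply Units.ext
    rw [Units.val_mul, Units.val_mul, Units.val_mul, diagU_val, unilU_val, unipU_val,
      Matrix.fromBlocks_multiply, Matrix.fromBlocks_multiply, Matrix.fromBlocks_multiply, hW]
    simp only [Units.val_one, Matrix.mul_zero, Matrix.zero_mul, Matrix.mul_one, Matrix.one_mul,
      add_zero, zero_add, Matrix.add_mul, Matrix.mul_assoc, hDC]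
  rw [← cls_diagU_one (κ := κ) W, h, cls_mul, cls_mul, cls_mul, cls_inv, cls_inv]
  abel

theorem cls_stab (U : (Matrix ι ι R)ˣ) (V : (Matrix (ι ⊕ κ) (ι ⊕ κ) R)ˣ)
    (hV : V.val = Matrix.fromBlocks U.val 0 0 1) : cls V = cls U := by
  have h : V = diagU U (1 : (Matrix κ κ R)ˣ) := Units.ext hV
  rw [h, cls_diagU_one]

theorem cls_unip (X : Matrix ι κ R) (V : (Matrix (ι ⊕ κ) (ι ⊕ κ) R)ˣ)
    (hV : V.val = Matrix.fromBlocks 1 X 0 1) : cls V = 0 := by
  refine cls_com (Matrix.fromRows X (0 : Matrix κ κ R)) (Matrix.fromCols (0 : Matrix κ ι R) 1)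
    ?_ V ?_
  · rw [Matrix.fromCols_mul_fromRows, Matrix.zero_mul, Matrix.mul_zero, add_zero]
  · rw [hV, Matrix.fromRows_mul_fromCols, ← Matrix.fromBlocks_one, Matrix.fromBlocks_add]
    simp only [Matrix.mul_zero, Matrix.mul_one, add_zero, zero_add]

theorem cls_upper (U : (Matrix ι ι R)ˣ) (W : (Matrix κ κ R)ˣ) (B : Matrix ι κ R)
    (V : (Matrix (ι ⊕ κ) (ι ⊕ κ) R)ˣ) (hV : V.val = Matrix.fromBlocks U.val B 0 W.val) :
    cls V = cls U + cls W := by
  have h : V = diagU U W * unipU ((U⁻¹).val * B) := by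
    apply Units.ext
    rw [Units.val_mul, hV, diagU_val, unipU_val, Matrix.fromBlocks_multiply]
    simp only [Matrix.mul_zero, Matrix.zero_mul, Matrix.mul_one, add_zero, zero_add]
    rw [← Matrix.mul_assoc, Units.mul_inv, Matrix.one_mul]
  rw [h, cls_mul, cls_diagU, cls_unip _ _ (unipU_val _), add_zero]

theorem cls_lower (U : (Matrix ι ι R)ˣ) (W : (Matrix κ κ R)ˣ) (B : Matrix κ ι R)
    (V : (Matrix (ι ⊕ κ) (ι ⊕ κ) R)ˣ) (hV : V.val = Matrix.fromBlocks U.val 0 B W.val) :
    cls V = cls U + cls W := by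
  rw [← cls_reindex (Equiv.sumComm ι κ) V, add_comm]
  refine cls_upper W U B _ ?_
  rw [reU_val, hV]
  ext i j
  rcases i with i | i <;> rcases j with j | j <;> rfl

/-- Vaserstein's identity. -/
theorem cls_vas (a : Matrix ι κ R) (b : Matrix κ ι R) (U : (Matrix ι ι R)ˣ)
    (V : (Matrix κ κ R)ˣ) (hU : U.val = 1 + a * b) (hV : V.val = 1 + b * a) :
    cls U = cls V := by
  have h1 : diagU U (1 : (Matrix κ κ R)ˣ) * unipU ((U⁻¹).val * a) * unilU (-b) =
      unilU (-b) * (diagU (1 : (Matrix ι ι R)ˣ) V * unipU a) := by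
    apply Units.ext
    simp only [Units.val_mul, diagU_val, unipU_val, unilU_val, Matrix.fromBlocks_multiply,
      Units.val_one, Matrix.mul_zero, Matrix.zero_mul, Matrix.mul_one, Matrix.one_mul, add_zero,
      zero_add, hV, Matrix.mul_neg, Matrix.neg_mul]
    rw [← Matrix.mul_assoc U.val, Units.mul_inv, Matrix.one_mul, hU, add_neg_cancel_right,
      ← add_assoc, neg_add_cancel_comm]
  have h2 := congrArg cls h1
  have h3 : cls (unipU ((U⁻¹).val * a)) = 0 := cls_unip _ _ (unipU_val _)
  have h4 : cls (unipU a) = 0 := cls_unip _ _ (unipU_val _)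
  have h5 : cls (unilU (-b)) = 0 := by
    have h6 := cls_lower (1 : (Matrix ι ι R)ˣ) (1 : (Matrix κ κ R)ˣ) (-b) (unilU (-b))
      (unilU_val _)
    rw [h6, cls_one, cls_one, add_zero]
  rw [cls_mul, cls_mul, cls_mul, cls_mul, cls_diagU, cls_diagU, cls_one, cls_one, h3, h4, h5] at h2
  simpa using h2

theorem cls_conj (P : Matrix ι κ R) (Q : Matrix κ ι R) (hPQ : P * Q = 1) (hQP : Q * P = 1)
    (U : (Matrix ι ι R)ˣ) (V : (Matrix κ κ R)ˣ) (h : U.val = P * V.val * Q) :
    cls U = cls V := by
  refine cls_vas P ((V.val - 1) * Q) U V ?_ ?_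
  · rw [h, Matrix.sub_mul, Matrix.mul_sub, Matrix.one_mul, hPQ, ← Matrix.mul_assoc]
    abel
  · rw [Matrix.mul_assoc, hQP, Matrix.mul_one]
    abel

theorem map_cls (f : R →+* S) (U : (Matrix ι ι R)ˣ) : map f (cls U) = cls (mapU f U) := by
  rw [cls, map_mk, cls]
  rfl

/-- The elementary matrix `1 + x E_{ij}`, `i ≠ j`, has class zero. -/
theorem cls_transvection {i j : ι} (hij : i ≠ j) (x : R) (U : (Matrix ι ι R)ˣ)
    (hU : U.val = 1 + Matrix.single i j x) : cls U = 0 := by
  refine cls_com (κ := Fin 1) (Matrix.single i 0 x) (Matrix.single 0 j 1) ?_ U ?_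
  · exact Matrix.single_mul_single_of_ne _ _ _ _ hij.symm _
  · rw [Matrix.single_mul_single_same, mul_one, hU]

/-- The class of a diagonal matrix. -/
theorem cls_diagonal (d : ι → Rˣ) (U : (Matrix ι ι R)ˣ)
    (hU : U.val = Matrix.diagonal fun i => (d i : R)) : cls U = ∑ i, unit (d i) := by
  have key : ∀ (n : ℕ) (d : Fin n → Rˣ) (U : (Matrix (Fin n) (Fin n) R)ˣ)
      (_ : U.val = Matrix.diagonal fun i => (d i : R)), cls U = ∑ i, unit (d i) := by
    intro n
    induction n with
    | zero =>
      intro d U _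
      have h : U = 1 := Units.ext (Subsingleton.elim _ _)
      rw [h, cls_one, Finset.univ_eq_empty, Finset.sum_empty]
    | succ n ih =>
      intro d U hU
      let U1 : (Matrix (Fin n) (Fin n) R)ˣ :=
        { val := Matrix.diagonal fun i => (d i.castSucc : R)
          inv := Matrix.diagonal fun i => ((d i.castSucc)⁻¹ : Rˣ)
          val_inv := by
            rw [Matrix.diagonal_mul_diagonal, ← Matrix.diagonal_one]
            congr 1
            funext i
            exact Units.mul_inv _
          inv_val := by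
            rw [Matrix.diagonal_mul_diagonal, ← Matrix.diagonal_one]
            congr 1
            funext i
            exact Units.inv_mul _ }
      let W : (Matrix (Fin 1) (Fin 1) R)ˣ :=
        Units.map (Matrix.scalar (Fin 1)).toMonoidHom (d (Fin.last n))
      have h1 : reU (finSumFinEquiv (m := n) (n := 1)) (diagU U1 W) = U := by
        rw [← reU_trans_symm_aux (finSumFinEquiv (m := n) (n := 1)) U]
        congr 1
        apply Units.ext
        rw [diagU_val, reU_val, hU]
        ext i j
        rcases i with i | i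
        · rcases j with j | j
          · change Matrix.diagonal (fun i => (d i.castSucc : R)) i j =
              Matrix.diagonal (fun i => (d i : R)) i.castSucc j.castSucc
            rw [Matrix.diagonal_apply, Matrix.diagonal_apply]
            simp only [Fin.castSucc_inj]
          · change (0 : R) = Matrix.diagonal (fun i => (d i : R)) i.castSucc (Fin.natAdd n j)
            rw [Matrix.diagonal_apply_ne]
            intro h
            have := congrArg Fin.val h
            simp at this
            omega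
        · rcases j with j | j
          · change (0 : R) = Matrix.diagonal (fun i => (d i : R)) (Fin.natAdd n i) j.castSucc
            rw [Matrix.diagonal_apply_ne]
            intro h
            have := congrArg Fin.val h
            simp at this
            omega
          · change Matrix.diagonal (fun _ => (d (Fin.last n) : R)) i j =
              Matrix.diagonal (fun i => (d i : R)) (Fin.natAdd n i) (Fin.natAdd n j)
            obtain rfl : i = 0 := Subsingleton.elim _ _
            obtain rfl : j = 0 := Subsingleton.elim _ _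
            rw [Matrix.diagonal_apply_eq, Matrix.diagonal_apply_eq]
            rfl
      rw [← h1, cls_reindex, cls_diagU, Fin.sum_univ_castSucc, ih _ U1 rfl, cls_mk]
      rfl
  rw [← cls_reindex (Fintype.equivFin ι) U,
    key _ (fun i => d ((Fintype.equivFin ι).symm i)) _ ?_]
  · exact Equiv.sum_comp (Fintype.equivFin ι).symm fun i => unit (d i)
  · rw [reU_val, hU]
    ext i j
    rw [Matrix.submatrix_apply, Matrix.diagonal_apply, Matrix.diagonal_apply]
    simp only [EmbeddingLike.apply_eq_iff_eq]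

theorem exists_mk (x : K1 R) : ∃ (n : ℕ) (U : (Matrix (Fin n) (Fin n) R)ˣ), x = mk U := by
  obtain ⟨y, rfl⟩ := QuotientAddGroup.mk'_surjective (K1Rel R) x
  induction y using FreeAbelianGroup.induction_on with
  | zero =>
    refine ⟨0, 1, ?_⟩
    rw [← cls_mk, cls_one, map_zero]
    rfl
  | of z => exact ⟨z.1, z.2, rfl⟩
  | neg z ih =>
    obtain ⟨n, U, hU⟩ := ih
    refine ⟨n, U⁻¹, ?_⟩
    rw [← cls_mk, cls_inv, cls_mk, ← hU, map_neg]
    rfl
  | add y z ihy ihz =>
    obtain ⟨n, U, hU⟩ := ihy
    obtain ⟨m, V, hV⟩ := ihz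
    refine ⟨_, reU (Fintype.equivFin _) (diagU U V), ?_⟩
    change _ = cls (diagU U V)
    rw [cls_diagU, cls_mk, cls_mk, ← hU, ← hV, map_add]
    rfl

end K1

end Pool.Agent.H95.WH

end

section

/-!
# `SK₁` is a torsion group

Let `A` be a commutative ring that is free and finitely generated as a `ℤ`-module (for example
`ℤ[C]`, `C` finite commutative). Then for every invertible matrix `U` over `A` there is an `m > 0`
with `m • [U] = m • [det U]` in `K₁(A)`.

## Paper proof

Induction on the size `n`. `n = 0`: `U = 1`. `n = 1`: `U` is the matrix of `det U`. Elementary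
operations (multiplication by transvections on either side) change neither the class nor the
determinant. Let `n ≥ 2` and let `(a₁, …, aₙ)` be the first row of `U`. It is unimodular
(`∑ aᵢ (U⁻¹)ᵢ₁ = 1`). Apply `sr_row` to its image in the finite ring `A/3A` (`fin_quot_nat`): after adding
multiples of the other columns to the first one, `a₁` is a unit modulo `3`, i.e. `a₁ a' = 1 + 3 z`. So
`A/a₁A` is finite (`fin_quot`).

`n = 2`: `U = diag(1, δ) * U'` with `δ = det U`, `U' ∈ SL₂(A)` with the same first row `(a₁, a₂)`; `a₂` is a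
unit modulo `a₁` so `a₁ ∣ a₂^m - 1` for some `m ≥ 1`, and `m • [U'] = 0` by `men_torsion`. So
`m • [U] = m • [δ]`.

`n ≥ 3`: the image of `(a₂, …, aₙ)` in the finite ring `A/a₁A` is unimodular; by `sr_row` we may add
multiples of the columns `3, …, n` to column `2` and achieve that `a₂` is a unit modulo `a₁`, i.e.
`x a₁ + y a₂ = 1`. Add `(1 - a₃) x` times column 1 and `(1 - a₃) y` times column 2 to column 3: now
`a₃ = 1`. Subtract multiples of column 3 from the other columns: the first row is `(0, 0, 1, 0, …, 0)`.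
Add column 3 to column 1 and subtract column 1 from column 3: the first row is `(1, 0, …, 0)`.
Now `U` is, up to reindexing `Fin n ≃ Fin 1 ⊕ Fin (n-1)`, the block matrix `fromBlocks 1 0 B V` and
`[U] = [V]` (`K1.cls_lower`), `det U = det V`. Apply the induction hypothesis to `V`.
-/

set_option autoImplicit false

open Matrix

universe u

namespace Pool.Agent.H95.WH

variable {A : Type u} [CommRing A]

/-- The determinant of an invertible matrix as a unit. -/
noncomputable def detU {ι : Type*} [Fintype ι] [DecidableEq ι] : (Matrix ι ι A)ˣ →* Aˣ :=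
  Units.map (Matrix.detMonoidHom : Matrix ι ι A →* A)

theorem detU_val {ι : Type*} [Fintype ι] [DecidableEq ι] (U : (Matrix ι ι A)ˣ) :
    (detU U : A) = (U : Matrix ι ι A).det := rfl

theorem red_unip {ι : Type*} [Fintype ι] [DecidableEq ι] (p : ι → Prop) [DecidablePred p]
    (M : Matrix ι ι A) (hM : ∀ i j, ¬ (p i ∧ ¬ p j) → M i j = 0) :
    ∃ E : (Matrix ι ι A)ˣ, E.val = 1 + M ∧ K1.cls E = 0 ∧ detU E = 1 := by
  let e : {i // p i} ⊕ {i // ¬ p i} ≃ ι := Equiv.sumCompl p
  let X : Matrix {i // p i} {i // ¬ p i} A := Matrix.of fun i j => M i.1 j.1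
  let F : (Matrix ({i // p i} ⊕ {i // ¬ p i}) ({i // p i} ⊕ {i // ¬ p i}) A)ˣ :=
    { val := Matrix.fromBlocks 1 X 0 1
      inv := Matrix.fromBlocks 1 (-X) 0 1
      val_inv := by
        rw [Matrix.fromBlocks_multiply]
        simp
      inv_val := by
        rw [Matrix.fromBlocks_multiply]
        simp }
  have hF : F.val = (1 + M).submatrix e e := by
    refine Matrix.ext fun i j => ?_
    rcases i with i | i <;> rcases j with j | j
    · have h0 : M i.1 j.1 = 0 := hM _ _ (fun h => h.2 j.2)
      change (1 : Matrix _ _ A) i j = (1 + M) i.1 j.1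
      rw [Matrix.add_apply, h0, add_zero, Matrix.one_apply, Matrix.one_apply]
      simp only [Subtype.ext_iff]
    · change M i.1 j.1 = (1 + M) i.1 j.1
      rw [Matrix.add_apply, Matrix.one_apply_ne, zero_add]
      intro h
      exact j.2 (h ▸ i.2)
    · have h0 : M i.1 j.1 = 0 := hM _ _ (fun h => i.2 h.1)
      change (0 : A) = (1 + M) i.1 j.1
      rw [Matrix.add_apply, h0, add_zero, Matrix.one_apply_ne]
      intro h
      exact i.2 (h ▸ j.2)
    · have h0 : M i.1 j.1 = 0 := hM _ _ (fun h => i.2 h.1)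
      change (1 : Matrix _ _ A) i j = (1 + M) i.1 j.1
      rw [Matrix.add_apply, h0, add_zero, Matrix.one_apply, Matrix.one_apply]
      simp only [Subtype.ext_iff]
  refine ⟨reU e F, ?_, ?_, ?_⟩
  · rw [reU_val, hF, Matrix.submatrix_submatrix]
    simp
  · rw [K1.cls_reindex]
    exact K1.cls_unip X F rfl
  · apply Units.ext
    rw [detU_val, reU_val, Matrix.det_submatrix_equiv_self]
    change (Matrix.fromBlocks 1 X 0 1).det = 1
    rw [Matrix.det_fromBlocks_zero₂₁, Matrix.det_one, Matrix.det_one, one_mul]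

/-- Column operations. -/
theorem red_op {ι : Type*} [Fintype ι] [DecidableEq ι] (U : (Matrix ι ι A)ˣ) (p : ι → Prop)
    [DecidablePred p] (M : ι → ι → A) (hM : ∀ i j, ¬ (p i ∧ ¬ p j) → M i j = 0) :
    ∃ V : (Matrix ι ι A)ˣ, K1.cls V = K1.cls U ∧ detU V = detU U ∧
      ∀ i j, V.val i j = U.val i j + ∑ k, U.val i k * M k j := by
  obtain ⟨E, h1, h2, h3⟩ := red_unip p (Matrix.of M) hM
  refine ⟨U * E, ?_, ?_, ?_⟩
  · rw [K1.cls_mul, h2, add_zero]
  · rw [map_mul, h3, mul_one]
  · intro i j
    rw [Units.val_mul, h1, mul_add, mul_one, Matrix.add_apply, Matrix.mul_apply]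
    rfl

theorem red_row {ι : Type*} [Fintype ι] [DecidableEq ι] (U : (Matrix ι ι A)ˣ) (i : ι) :
    ∑ j, U.inv j i * U.val i j = 1 := by
  have h := congrFun (congrFun U.val_inv i) i
  rw [Matrix.mul_apply, Matrix.one_apply_eq] at h
  rw [← h]
  exact Finset.sum_congr rfl fun j _ => mul_comm _ _

/-- The corner. -/
theorem red_corner {n : ℕ} (U : (Matrix (Fin (n + 1)) (Fin (n + 1)) A)ˣ) (h0 : U.val 0 0 = 1)
    (h1 : ∀ j : Fin n, U.val 0 j.succ = 0) :
    ∃ V : (Matrix (Fin n) (Fin n) A)ˣ, K1.mk U = K1.mk V ∧ detU U = detU V := by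
  let W : Matrix (Fin n) (Fin n) A := U.val.submatrix Fin.succ Fin.succ
  have hdet : U.val.det = W.det := by
    rw [Matrix.det_succ_row_zero, Fin.sum_univ_succ]
    simp [h0, h1, W]
  have hW : IsUnit W := by
    rw [Matrix.isUnit_iff_isUnit_det, ← hdet, ← Matrix.isUnit_iff_isUnit_det]
    exact U.isUnit
  obtain ⟨V, hV⟩ := hW
  let e : Fin 1 ⊕ Fin n ≃ Fin (n + 1) :=
    { toFun := Sum.elim (fun _ => 0) Fin.succ
      invFun := Fin.cases (Sum.inl 0) Sum.inr
      left_inv := by
        rintro (i | i)
        · simp [Subsingleton.elim i 0]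
        · simp
      right_inv := by
        intro i
        refine Fin.cases ?_ (fun i => ?_) i
        · simp
        · simp }
  refine ⟨V, ?_, ?_⟩
  · rw [← K1.cls_mk, ← K1.cls_mk, ← K1.cls_reindex e.symm U]
    have h := K1.cls_lower (1 : (Matrix (Fin 1) (Fin 1) A)ˣ) V
      (Matrix.of fun (i : Fin n) (_ : Fin 1) => U.val i.succ 0) (reU e.symm U) (by
        rw [reU_val]
        refine Matrix.ext fun i j => ?_
        rcases i with i | i <;> rcases j with j | j
        · change U.val 0 0 = (1 : Matrix (Fin 1) (Fin 1) A) i j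
          rw [h0, Subsingleton.elim i j, Matrix.one_apply_eq]
        · change U.val 0 j.succ = 0
          exact h1 j
        · rfl
        · change U.val i.succ j.succ = V.val i j
          rw [hV]
          rfl)
    rw [h, K1.cls_one, zero_add]
  · apply Units.ext
    rw [detU_val, detU_val, hV, hdet]

/-- Reduction when one entry of the first row is one. -/
theorem red_one {n : ℕ} (U : (Matrix (Fin (n + 1)) (Fin (n + 1)) A)ˣ) (j : Fin (n + 1))
    (hj : j ≠ 0) (h : U.val 0 j = 1) :
    ∃ V : (Matrix (Fin n) (Fin n) A)ˣ, K1.mk U = K1.mk V ∧ detU U = detU V := by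
  obtain ⟨V, hV1, hV2, hV3⟩ := red_op U (fun i => i = j)
    (fun i k => if i = j ∧ k = 0 then 1 - U.val 0 0 else 0) (by
      intro i k h'
      rw [if_neg]
      rintro ⟨rfl, rfl⟩
      exact h' ⟨rfl, hj.symm⟩)
  have hV0 : V.val 0 0 = 1 := by
    rw [hV3, Finset.sum_eq_single j]
    · simp [h]
    · intro k _ hk
      simp [hk]
    · intro hk
      exact absurd (Finset.mem_univ _) hk
  obtain ⟨W, hW1, hW2, hW3⟩ := red_op V (fun i => i = 0)
    (fun i k => if i = 0 ∧ k ≠ 0 then - V.val 0 k else 0) (by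
      intro i k h'
      rw [if_neg]
      exact h')
  have hWk : ∀ k, W.val 0 k = V.val 0 k + (if k ≠ 0 then - V.val 0 k else 0) := by
    intro k
    rw [hW3, Finset.sum_eq_single 0]
    · rw [hV0]
      simp
    · intro i _ hi
      simp [hi]
    · intro hk
      exact absurd (Finset.mem_univ _) hk
  obtain ⟨Z, hZ1, hZ2⟩ := red_corner W (by rw [hWk]; simp [hV0])
    (fun k => by rw [hWk]; simp [Fin.succ_ne_zero])
  refine ⟨Z, ?_, ?_⟩
  · rw [← hZ1, ← K1.cls_mk, ← K1.cls_mk, hW1, hV1]
  · rw [← hZ2, hW2, hV2]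

end Pool.Agent.H95.WH

end

section

/-!
# `K₁` of semilocal commutative rings

If `A` is a commutative ring with finitely many maximal ideals (for example a finite dimensional commutative
algebra over a field) then the class in `K₁(A)` of an invertible matrix is the class of its determinant.

## Paper proofs

`sr_semi`: for every maximal ideal `M` put `s_M = 0` if `x ∉ M` and `s_M = 1` if `x ∈ M` (then `y ∉ M`, since
`u x + v y = 1`). The maximal ideals are pairwise coprime and finite in number, so by the Chinese remainder theorem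
(`Ideal.exists_forall_sub_mem_ideal` or `Ideal.quotientInfRingEquivPiQuotient`) there is a `t` with
`t - s_M ∈ M` for all `M`. Then `x + t y` lies in no maximal ideal, so it is a unit
(`exists_max_ideal_of_mem_nonunits`).

`det_semi`: induction on the size `n`. `n = 0`: `U = 1`. `n = 1`: `U` is the scalar matrix of its determinant. Size
`n + 2`: as in the proof of `sr_row` (`FinQ.lean`) the row `(U 0 j)_j` is unimodular (`red_row`), so there are
`t_i` with `U 0 0 + ∑ t_i U 0 (i + 1)` a unit `w`. `red_op` (column operations: the class and the determinant do not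
change) gives the matrix with entry `(0, 0)` equal to `w`; another `red_op` (subtract multiples of column `0` from
the others) makes the rest of the row `0` zero. So we have a matrix `V` with first row `(w, 0, …, 0)`. Put
`W = V * diag(w⁻¹, 1, …, 1)`; its first row is `(1, 0, …, 0)` and `red_corner` and the induction hypothesis give
`[W] = [det W]`. Finally `[diag(w, 1, …, 1)] = [w] = K1.unit w` (`K1.cls_reindex`, `K1.cls_stab`), and `det` is
multiplicative. (Alternatively: for `n ≥ 1` first make the entry `(0, 1)` equal to `1` by adding multiples of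
column `0`, and use `red_one`: [U] = [V] with `V` of smaller size and the same determinant.)
-/

set_option autoImplicit false

open Matrix

universe u

namespace Pool.Agent.H95.WH

variable {A : Type u} [CommRing A]

theorem sr_semi [Finite (MaximalSpectrum A)] (x y u v : A) (h : u * x + v * y = 1) :
    ∃ t : A, IsUnit (x + t * y) := by
  classical
  obtain ⟨t, ht⟩ := Ideal.exists_forall_sub_mem_ideal (ι := MaximalSpectrum A)
    (I := fun M => M.asIdeal) (fun M N hMN => MaximalSpectrum.isCoprime_of_ne hMN)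
    (fun M => if x ∈ M.asIdeal then 1 else 0)
  refine ⟨t, ?_⟩
  by_contra hu
  obtain ⟨P, hP, hmem⟩ := exists_max_ideal_of_mem_nonunits hu
  have h1 : t - (if x ∈ P then 1 else 0) ∈ P := ht ⟨P, hP⟩
  by_cases hx : x ∈ P
  · rw [if_pos hx] at h1
    have h2 : t * y ∈ P := (Ideal.add_mem_iff_right P hx).1 hmem
    have h3 : y ∈ P := by
      have h4 : y = t * y - (t - 1) * y := by ring
      rw [h4]
      exact P.sub_mem h2 (P.mul_mem_right _ h1)
    apply hP.ne_top
    rw [Ideal.eq_top_iff_one, ← h]
    exact P.add_mem (P.mul_mem_left _ hx) (P.mul_mem_left _ h3)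
  · rw [if_neg hx, sub_zero] at h1
    exact hx ((Ideal.add_mem_iff_left P (P.mul_mem_right _ h1)).1 hmem)

private theorem semi_row [Finite (MaximalSpectrum A)] {n : ℕ} (x v : Fin (n + 1) → A)
    (h : ∑ i, v i * x i = 1) : ∃ t : Fin n → A, IsUnit (x 0 + ∑ i, t i * x i.succ) := by
  rw [Fin.sum_univ_succ] at h
  obtain ⟨t, ht⟩ := sr_semi (x 0) (∑ i : Fin n, v i.succ * x i.succ) (v 0) 1
    (by rw [one_mul]; exact h)
  refine ⟨fun i => t * v i.succ, ?_⟩
  have e : (∑ i : Fin n, t * v i.succ * x i.succ) = t * ∑ i : Fin n, v i.succ * x i.succ := by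
    rw [Finset.mul_sum]
    exact Finset.sum_congr rfl fun i _ => mul_assoc _ _ _
  rw [e]
  exact ht

private theorem semi_step [Finite (MaximalSpectrum A)] {n : ℕ}
    (U : (Matrix (Fin (n + 2)) (Fin (n + 2)) A)ˣ) :
    ∃ V : (Matrix (Fin (n + 1)) (Fin (n + 1)) A)ˣ, K1.mk U = K1.mk V ∧ detU U = detU V := by
  obtain ⟨t, ht⟩ := semi_row (fun j => U.val 0 j) (fun j => U.inv j 0) (red_row U 0)
  obtain ⟨V, hV1, hV2, hV3⟩ := red_op U (fun j => j ≠ 0)
    (fun i j => if j = 0 then (Fin.cases 0 t i : A) else 0) (by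
      intro i j h
      by_cases hj : j = 0
      · have hi : i = 0 := by
          by_contra hi
          exact h ⟨hi, fun h' => h' hj⟩
        simp [hi]
      · simp [hj])
  have h1 : V.val 0 0 = U.val 0 0 + ∑ i, t i * U.val 0 i.succ := by
    rw [hV3, Fin.sum_univ_succ]
    simp [mul_comm]
  rw [← h1] at ht
  obtain ⟨w, hw⟩ := ht
  have h10 : (1 : Fin (n + 2)) ≠ 0 := by
    intro h
    have := congrArg Fin.val h
    simp at this
  obtain ⟨W, hW1, hW2, hW3⟩ := red_op V (fun i => i = 0)
    (fun i k => if i = 0 ∧ k = 1 then ((w⁻¹ : Aˣ) : A) * (1 - V.val 0 1) else 0) (by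
      intro i k h'
      rw [if_neg]
      rintro ⟨hi, hk⟩
      exact h' ⟨hi, by rw [hk]; exact h10⟩)
  have hW : W.val 0 1 = 1 := by
    rw [hW3, Finset.sum_eq_single 0]
    · rw [if_pos ⟨rfl, rfl⟩, ← mul_assoc, ← hw, Units.mul_inv]
      ring
    · intro i _ hi
      rw [if_neg (fun h => hi h.1), mul_zero]
    · intro hk
      exact absurd (Finset.mem_univ _) hk
  obtain ⟨Z, hZ1, hZ2⟩ := red_one W 1 h10 hW
  refine ⟨Z, ?_, ?_⟩
  · rw [← hZ1, ← K1.cls_mk, ← K1.cls_mk, hW1, hV1]
  · rw [← hZ2, hW2, hV2]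

theorem det_semi [Finite (MaximalSpectrum A)] {n : ℕ} (U : (Matrix (Fin n) (Fin n) A)ˣ) :
    K1.mk U = K1.unit (detU U) := by
  have hu1 : K1.unit (1 : Aˣ) = 0 := by
    have h := K1.unit_mul (1 : Aˣ) 1
    rw [one_mul] at h
    exact left_eq_add.1 h
  match n, U with
  | 0, U =>
    have h1 : U = 1 := Units.ext (Subsingleton.elim _ _)
    rw [h1, map_one, hu1, ← K1.cls_mk, K1.cls_one]
  | 1, U =>
    rw [K1.unit]
    congr 1
    apply Units.ext
    refine Matrix.ext fun i j => ?_
    change U.val i j = (Matrix.scalar (Fin 1)) U.val.det i j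
    rw [Matrix.det_fin_one, Matrix.scalar_apply, Subsingleton.elim i 0, Subsingleton.elim j 0,
      Matrix.diagonal_apply_eq]
  | (n + 2), U =>
    obtain ⟨V, hV1, hV2⟩ := semi_step U
    rw [hV1, hV2]
    exact det_semi V

end Pool.Agent.H95.WH

end

section

/-!
# Primitive units and the decomposition into primitive classes
-/

set_option autoImplicit false
set_option linter.unusedSectionVars false
set_option linter.unusedSimpArgs false

open Matrix
open scoped Classical

universe u v w

namespace Pool.Agent.H71.WH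

/-- Möbius type coefficients on a finite partially ordered set. -/
theorem exists_nu {α : Type*} [PartialOrder α] (s : Finset α) (f : α → ℤ) :
    ∃ ν : α → ℤ, ∀ E ∈ s, ∑ D ∈ s.filter (fun D => E ≤ D), ν D = f E := by
  induction s using Finset.strongInduction with
  | H s ih =>
    by_cases hs : s.Nonempty
    · obtain ⟨E₀, hE₀⟩ := s.exists_minimal hs
      obtain ⟨ν, hν⟩ := ih (s.erase E₀) (Finset.erase_ssubset hE₀.1)
      have hmin : ∀ E ∈ s, E ≤ E₀ → E = E₀ := fun E hE hle => le_antisymm hle (hE₀.2 hE hle)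
      refine ⟨fun D => if D = E₀ then f E₀ - ∑ D ∈ (s.erase E₀).filter (fun D => E₀ ≤ D), ν D
        else ν D, ?_⟩
      intro E hE
      by_cases hEE : E = E₀
      · subst hEE
        have h1 : s.filter (fun D => E ≤ D) =
            insert E ((s.erase E).filter (fun D => E ≤ D)) := by
          ext D
          simp only [Finset.mem_filter, Finset.mem_insert, Finset.mem_erase]
          constructor
          · rintro ⟨h1, h2⟩
            by_cases h3 : D = E
            · exact Or.inl h3
            · exact Or.inr ⟨⟨h3, h1⟩, h2⟩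
          · rintro (rfl | ⟨⟨_, h1⟩, h2⟩)
            · exact ⟨hE, le_rfl⟩
            · exact ⟨h1, h2⟩
        rw [h1, Finset.sum_insert (by simp), if_pos rfl]
        have h2 : ∑ D ∈ (s.erase E).filter (fun D => E ≤ D), (if D = E then f E -
            ∑ D ∈ (s.erase E).filter (fun D => E ≤ D), ν D else ν D) =
            ∑ D ∈ (s.erase E).filter (fun D => E ≤ D), ν D := by
          apply Finset.sum_congr rfl
          intro D hD
          rw [Finset.mem_filter, Finset.mem_erase] at hD
          rw [if_neg hD.1.1]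
        rw [h2]
        ring
      · have h1 : s.filter (fun D => E ≤ D) = (s.erase E₀).filter (fun D => E ≤ D) := by
          ext D
          simp only [Finset.mem_filter, Finset.mem_erase]
          constructor
          · rintro ⟨h1, h2⟩
            refine ⟨⟨?_, h1⟩, h2⟩
            rintro rfl
            exact hEE (hmin E hE h2)
          · rintro ⟨⟨_, h1⟩, h2⟩
            exact ⟨h1, h2⟩
        rw [h1, ← hν E (Finset.mem_erase.2 ⟨hEE, hE⟩)]
        apply Finset.sum_congr rfl
        intro D hD
        rw [Finset.mem_filter, Finset.mem_erase] at hD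
        exact if_neg hD.1.1
    · rw [Finset.not_nonempty_iff_eq_empty] at hs
      subst hs
      exact ⟨fun _ => 0, by simp⟩

/-- Elements with a nonzero multiple in `A`. -/
def Sat {M : Type u} [AddCommGroup M] (A : AddSubgroup M) : AddSubgroup M where
  carrier := {z | ∃ m : ℤ, m ≠ 0 ∧ m • z ∈ A}
  zero_mem' := ⟨1, one_ne_zero, by rw [smul_zero]; exact A.zero_mem⟩
  add_mem' := by
    rintro a b ⟨m, hm, h1⟩ ⟨n, hn, h2⟩
    refine ⟨m * n, mul_ne_zero hm hn, ?_⟩
    rw [smul_add]
    refine A.add_mem ?_ ?_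
    · rw [mul_comm, mul_smul]
      exact A.zsmul_mem h1 n
    · rw [mul_smul]
      exact A.zsmul_mem h2 m
  neg_mem' := by
    rintro a ⟨m, hm, h1⟩
    exact ⟨m, hm, by rw [smul_neg]; exact A.neg_mem h1⟩

theorem Sat_of_smul {M : Type u} [AddCommGroup M] {A : AddSubgroup M} {m : ℤ} (hm : m ≠ 0) {z : M}
    (h : m • z ∈ Sat A) : z ∈ Sat A := by
  obtain ⟨n, hn, h⟩ := h
  exact ⟨n * m, mul_ne_zero hn hm, by rwa [mul_smul]⟩

theorem mem_Sat {M : Type u} [AddCommGroup M] {A : AddSubgroup M} {z : M} (h : z ∈ A) :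
    z ∈ Sat A := ⟨1, one_ne_zero, by rwa [one_smul]⟩

section Hom

variable {H : Type w} [CommGroup H] [Finite H]

end Hom

end Pool.Agent.H71.WH

end

section

/-!
# Rational injectivity of the assembly map to the Whitehead group
-/

set_option autoImplicit false
set_option linter.unusedSectionVars false
set_option linter.unusedSimpArgs false

open Matrix
open scoped Classical

universe u v w

namespace Pool.Agent.H71.WH

section Aux

variable {H : Type w} [Group H] [Finite H]

end Aux

variable {G : Type v} [Group G]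

theorem mulAut_finite (D : Type w) [Group D] [Finite D] : Finite (MulAut D) :=
  Finite.of_injective (fun f : MulAut D => (f : D → D)) (fun _ _ h => MulEquiv.ext (congrFun h))

/-- Automorphisms of `D₀` induced by conjugations of `G`. -/
def IsInd (D₀ : Subgroup G) (w : MulAut D₀) : Prop := ∃ g : G, ∀ d : D₀, (w d : G) = g * d * g⁻¹

theorem zpowers_aut {D : Type w} [Group D] (w : MulAut D) (c : D) (h : Subgroup.zpowers c ≠ ⊤) :
    Subgroup.zpowers (w c) ≠ ⊤ := by
  intro h'
  apply h
  rw [eq_top_iff]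
  intro d _
  have h2 : w d ∈ Subgroup.zpowers (w c) := by rw [h']; trivial
  obtain ⟨m, hm⟩ := Subgroup.mem_zpowers_iff.1 h2
  refine Subgroup.mem_zpowers_iff.2 ⟨m, ?_⟩
  apply w.injective
  rw [map_zpow, hm]

theorem sum_ind {M : Type*} [AddCommMonoid M] (D₀ : Subgroup G) [Fintype D₀] [Fintype (MulAut D₀)]
    (c : D₀) (hc : Subgroup.zpowers c = ⊤) (f : D₀ → M) :
    ∑ w ∈ Finset.univ.filter (fun w : MulAut D₀ => IsInd D₀ w), f (w.symm c) =
      ∑ d ∈ Finset.univ.filter (fun d : D₀ => IsConj (c : G) (d : G)), f d := by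
  apply Finset.sum_bij (fun w _ => w.symm c)
  · intro w hw
    obtain ⟨g, hg⟩ := (Finset.mem_filter.1 hw).2
    rw [Finset.mem_filter]
    refine ⟨Finset.mem_univ _, ?_⟩
    have := hg (w.symm c)
    rw [w.apply_symm_apply] at this
    rw [isConj_comm]
    exact isConj_iff.2 ⟨g, this.symm⟩
  · intro w1 _ w2 _ h
    have h' : w1.symm = w2.symm := by
      apply MulEquiv.ext
      intro d
      have : d ∈ Subgroup.zpowers c := by rw [hc]; trivial
      obtain ⟨m, rfl⟩ := Subgroup.mem_zpowers_iff.1 this
      rw [map_zpow, map_zpow]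
      exact congrArg (· ^ m) h
    have h2 := congrArg MulEquiv.symm h'
    rwa [MulEquiv.symm_symm, MulEquiv.symm_symm] at h2
  · intro d hd
    obtain ⟨g, hg⟩ := isConj_iff.1 (Finset.mem_filter.1 hd).2
    have h1 : ∀ x ∈ D₀, g * x * g⁻¹ ∈ D₀ := by
      intro x hx
      have : (⟨x, hx⟩ : D₀) ∈ Subgroup.zpowers c := by rw [hc]; trivial
      obtain ⟨m, hm⟩ := Subgroup.mem_zpowers_iff.1 this
      have hm' : (c : G) ^ m = x := by
        rw [← Subgroup.coe_zpow, hm]
      rw [← hm', ← conj_zpow, hg]
      exact D₀.zpow_mem d.2 m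
    have hinj : Function.Injective (conjHom g D₀ D₀ h1) := by
      intro a b hab
      have := congrArg (fun x : D₀ => (x : G)) hab
      change g * (a : G) * g⁻¹ = g * (b : G) * g⁻¹ at this
      exact Subtype.ext (mul_left_cancel (mul_right_cancel this))
    let e : MulAut D₀ := MulEquiv.ofBijective (conjHom g D₀ D₀ h1)
      (Finite.injective_iff_bijective.1 hinj)
    have he : ∀ x : D₀, ((e x : D₀) : G) = g * x * g⁻¹ := fun x => rfl
    refine ⟨e.symm, ?_, ?_⟩
    · rw [Finset.mem_filter]
      refine ⟨Finset.mem_univ _, g⁻¹, fun x => ?_⟩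
      have := he (e.symm x)
      rw [e.apply_symm_apply] at this
      rw [this]
      group
    · rw [MulEquiv.symm_symm]
      apply Subtype.ext
      rw [he, hg]
  · intro w _
    rfl

end Pool.Agent.H71.WH

end

section

/-!
# Algebraically independent `p`-adic integers with prescribed residues

PROOF. By induction on `r` (split off the last index, `Fin.snoc`). Suppose that `t₁, …, t_r` are
chosen. The subring `ℤ[t₁, …, t_r]` of `ℤ_[p]` is countable, so the set of elements of `ℤ_[p]` which
are algebraic over it is countable (`Algebraic.countable` / cardinality lemmas for algebraic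
elements), while `a_{r+1} + p ℤ_[p]` is uncountable (it is a translate of the image of `ℤ_[p]` under
the injective map `x ↦ p x`, and `ℤ_[p]` is uncountable, e.g. `ℕ → Fin 2` injects into `ℤ_[p]`, or
`ℤ_[p]` is a complete metric space without isolated points / Mathlib may know the cardinality).
Take `t_{r+1}` in it, transcendental over `ℤ[t₁, …, t_r]`, and use the lemmas on
`AlgebraicIndependent` (`AlgebraicIndependent` is by definition the injectivity of `MvPolynomial.aeval`;
see `algebraicIndependent_option`, `AlgebraicIndependent.option_iff`, `Transcendental`).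
-/

set_option autoImplicit false

namespace Pool.Agent.H71.KP

/-- A residue class modulo `p` is not contained in a countable set. -/
theorem AlgInd_exists_notMem (p : ℕ) [Fact p.Prime] (C : Set ℤ_[p]) (hC : C.Countable)
    (a : ℤ_[p]) : ∃ x : ℤ_[p], x ∉ C ∧ (p : ℤ_[p]) ∣ x - a := by
  have h1 : ((fun x : ℤ_[p] => (x : ℚ_[p])) '' C).Countable := hC.image _
  have h2 : Dense ((fun x : ℤ_[p] => (x : ℚ_[p])) '' C)ᶜ := h1.dense_compl ℚ_[p]
  obtain ⟨y, hyC, hy⟩ := Metric.dense_iff.mp h2 (a : ℚ_[p]) 1 one_pos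
  have hy1 : ‖y - (a : ℚ_[p])‖ < 1 := by
    have := hyC; rwa [Metric.mem_ball, dist_eq_norm] at this
  have hz : ‖y - (a : ℚ_[p])‖ ≤ 1 := hy1.le
  set z : ℤ_[p] := ⟨y - (a : ℚ_[p]), hz⟩ with hzdef
  refine ⟨z + a, ?_, ?_⟩
  · intro hmem
    apply hy
    refine ⟨z + a, hmem, ?_⟩
    show ((z + a : ℤ_[p]) : ℚ_[p]) = y
    rw [PadicInt.coe_add, hzdef]
    simp
  · rw [add_sub_cancel_right, ← PadicInt.norm_lt_one_iff_dvd]
    exact hy1

theorem AlgInd_aux (p : ℕ) [Fact p.Prime] : ∀ (r : ℕ) (a : Fin r → ℤ_[p]),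
    ∃ t : Fin r → ℤ_[p], (∀ i, (p : ℤ_[p]) ∣ t i - a i) ∧ AlgebraicIndependent ℤ t := by
  intro r
  induction r with
  | zero =>
    intro a
    refine ⟨a, fun i => i.elim0, ?_⟩
    rw [algebraicIndependent_empty_type_iff]
    exact Int.cast_injective
  | succ r ih =>
    intro a
    obtain ⟨t, ht, hind⟩ := ih (fun i => a i.castSucc)
    have hcount : Countable (Algebra.adjoin ℤ (Set.range t)) := by
      rw [Algebra.adjoin_range_eq_range_aeval]
      have : Countable (MvPolynomial (Fin r) ℤ) := by
        have h := MvPolynomial.cardinalMk_le_max (σ := Fin r) (R := ℤ)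
        rw [← Cardinal.mk_le_aleph0_iff]
        refine h.trans ?_
        simp
      exact (Set.countable_range _).to_subtype
    have hC : {x : ℤ_[p] | IsAlgebraic (Algebra.adjoin ℤ (Set.range t)) x}.Countable :=
      Algebraic.countable _ _
    obtain ⟨x, hx, hxa⟩ := AlgInd_exists_notMem p _ hC (a (Fin.last r))
    have hopt := (hind.option_iff_transcendental x).mpr hx
    refine ⟨fun i => (finSuccEquivLast i).elim x t, ?_, ?_⟩
    · intro i
      induction i using Fin.lastCases with
      | last => simpa using hxa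
      | cast i => simpa using ht i
    · exact hopt.comp finSuccEquivLast finSuccEquivLast.injective

/-- There are algebraically independent `p`-adic integers congruent to given ones modulo `p`. -/
theorem exists_algInd (p : ℕ) [Fact p.Prime] (r : ℕ) (a : Fin r → ℤ_[p]) :
    ∃ t : Fin r → ℤ_[p], (∀ i, (p : ℤ_[p]) ∣ t i - a i) ∧
      Function.Injective (MvPolynomial.aeval t : MvPolynomial (Fin r) ℤ →ₐ[ℤ] ℤ_[p]) := by
  obtain ⟨t, ht, hi⟩ := AlgInd_aux p r a
  exact ⟨t, ht, hi⟩

end Pool.Agent.H71.KP

end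

section

/-!
# Finitely generated domains of characteristic zero

PROOF. Let `K` be the fraction field of `R`, a finitely generated field extension of `ℚ`, let
`a₁, …, a_m` generate the ring `R`, and choose a transcendence basis `x₁, …, x_r` of `K` over `ℚ`
among the `a_i` (or by `exists_isTranscendenceBasis`...; it may be chosen inside `R`). Then
`A = MvPolynomial (Fin r) ℤ` embeds in `R` (`X i ↦ x_i`); `K` is a finite separable extension of
`Q = Frac A` (characteristic zero), so it has a primitive element `θ`, which we may multiply by a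
nonzero element of `A` so that it is integral over `A`. As `A` is integrally closed (it is a unique
factorisation domain) the minimal polynomial `F` of `θ` over `A` is monic and is also the minimal
polynomial over `Q` (`minpoly.isIntegrallyClosed_eq_field_fractions'`). It is separable over `Q`, so
`A₀ F + B₀ F' = 1` in `Q[X]`; clearing denominators gives `A`, `B`, `D`. Every `a_j` is of the form
`P_j(θ) / h_j` with `P_j` in `A[X]` and `h_j ≠ 0` in `A`; let `h` be the product of the `h_j`.

Let now `ψ : A → T` be injective, `ψ h` a unit, `y` a root of `F^ψ`. Let `L = Frac T`. Then `ψ`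
extends to `Q → L` and, as `F` is the minimal polynomial of `θ` over `Q`, to a field homomorphism
`K = Q(θ) → L`, `θ ↦ y`. It maps `a_j` to `P_j(y) / ψ(h_j)`, which is in (the image of) `T`, since
`ψ (h_j)` divides the unit `ψ h`. So it maps `R` to `T`, injectively.
-/

set_option autoImplicit false

universe u

open Polynomial

namespace Pool.Agent.H71.KP

/-- The presentation over an integrally closed domain over which `R` is algebraic. -/
theorem FinGen_core {A' R : Type*} [CommRing A'] [IsDomain A'] [IsIntegrallyClosed A']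
    [CharZero A'] [CommRing R] [IsDomain R] [Algebra A' R] [FaithfulSMul A' R]
    [Algebra.IsAlgebraic A' R] (s : Finset R) (hs : Algebra.adjoin ℤ (s : Set R) = ⊤) :
    ∃ (h D : A') (F A B : A'[X]),
      h ≠ 0 ∧ D ≠ 0 ∧ F.Monic ∧ 0 < F.natDegree ∧ A * F + B * derivative F = C D ∧
      ∀ (T : Type) [CommRing T] [IsDomain T] (ψ : A' →+* T) (y : T),
        Function.Injective ψ → IsUnit (ψ h) → eval₂ ψ y F = 0 →
          ∃ f : R →+* T, Function.Injective f := by
  classical
  let Q := FractionRing A'
  let K := FractionRing R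
  let _ : Algebra Q K := FractionRing.liftAlgebra A' K
  have : IsScalarTower A' Q K := FractionRing.isScalarTower_liftAlgebra A' K
  have : Algebra.IsAlgebraic A' K := (IsFractionRing.isAlgebraic_iff' A' R K).1 inferInstance
  have : Algebra.IsAlgebraic Q K :=
    (IsFractionRing.comap_isAlgebraic_iff (A := A') (K := Q) (C := K)).1 inferInstance
  have : Algebra.FiniteType ℤ R := ⟨⟨s, hs⟩⟩
  have : Algebra.EssFiniteType ℤ K := Algebra.EssFiniteType.comp ℤ R K
  have : Algebra.EssFiniteType Q K := Algebra.EssFiniteType.of_comp ℤ Q K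
  have : Module.Finite Q K := Algebra.finite_of_essFiniteType_of_isAlgebraic
  obtain ⟨θ, hθ⟩ := Field.exists_primitive_element Q K
  obtain ⟨c, hc0, hc⟩ := (Algebra.IsAlgebraic.isAlgebraic (R := A') θ).exists_integral_multiple
  have hinjQ : Function.Injective (algebraMap A' Q) := IsFractionRing.injective A' Q
  have hθ' : IntermediateField.adjoin Q {c • θ} = ⊤ := by
    rw [eq_top_iff, ← hθ, IntermediateField.adjoin_simple_le_iff]
    have h1 : θ = ((algebraMap A' Q c)⁻¹ : Q) • (c • θ) := by
      rw [← algebraMap_smul Q c θ, smul_smul, inv_mul_cancel₀, one_smul]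
      intro h0
      exact hc0 (hinjQ (by rw [h0, map_zero]))
    have h2 : ((algebraMap A' Q c)⁻¹ : Q) • (c • θ) ∈ IntermediateField.adjoin Q {c • θ} :=
      IntermediateField.smul_mem (IntermediateField.adjoin Q {c • θ})
        (IntermediateField.mem_adjoin_simple_self Q (c • θ))
    rw [← h1] at h2
    exact h2
  set θ' : K := c • θ with hθdef
  have hadj : Algebra.adjoin Q {θ'} = ⊤ :=
    Algebra.adjoin_eq_top_of_primitive_element (Algebra.IsAlgebraic.isAlgebraic θ') hθ'
  set F : A'[X] := minpoly A' θ' with hFdef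
  have hF : minpoly Q θ' = F.map (algebraMap A' Q) :=
    minpoly.isIntegrallyClosed_eq_field_fractions' Q hc
  obtain ⟨a, b, hab⟩ : IsCoprime (minpoly Q θ') (derivative (minpoly Q θ')) :=
    Algebra.IsSeparable.isSeparable Q θ'
  obtain ⟨d₁, hd₁, hA0⟩ := IsLocalization.integerNormalization_spec (nonZeroDivisors A') a
  obtain ⟨d₂, hd₂, hB0⟩ := IsLocalization.integerNormalization_spec (nonZeroDivisors A') b
  have hgen : ∀ z : R, ∃ (P : A'[X]) (h₀ : A'), h₀ ≠ 0 ∧
      aeval θ' P = h₀ • algebraMap R K z := by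
    intro z
    have h1 : algebraMap R K z ∈ Algebra.adjoin Q {θ'} := by rw [hadj]; trivial
    rw [Algebra.adjoin_singleton_eq_range_aeval] at h1
    obtain ⟨P, hP⟩ := h1
    obtain ⟨d, hd, hP0⟩ := IsLocalization.integerNormalization_spec (nonZeroDivisors A') P
    refine ⟨IsLocalization.integerNormalization (nonZeroDivisors A') P, d,
      nonZeroDivisors.ne_zero hd, ?_⟩
    have hP' : aeval θ' P = algebraMap R K z := hP
    rw [← aeval_map_algebraMap Q, hP0, ← algebraMap_smul Q d P, map_smul,
      algebraMap_smul, hP']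
  choose P h₀ hh₀ hP using hgen
  refine ⟨(∏ z ∈ s, h₀ z), d₁ * d₂, F,
    C d₂ * IsLocalization.integerNormalization (nonZeroDivisors A') a,
    C d₁ * IsLocalization.integerNormalization (nonZeroDivisors A') b, Finset.prod_ne_zero_iff.2 fun z _ => hh₀ z,
    mul_ne_zero (nonZeroDivisors.ne_zero hd₁) (nonZeroDivisors.ne_zero hd₂),
    minpoly.monic hc, minpoly.natDegree_pos hc, ?_, ?_⟩
  · apply Polynomial.map_injective (algebraMap A' Q) hinjQ
    simp only [Polynomial.map_add, Polynomial.map_mul, Polynomial.map_C, hA0, hB0,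
      ← Polynomial.derivative_map, ← hF]
    rw [← algebraMap_smul Q d₁ a, ← algebraMap_smul Q d₂ b, smul_eq_C_mul, smul_eq_C_mul,
      map_mul, C_mul]
    linear_combination (C (algebraMap A' Q d₁) * C (algebraMap A' Q d₂)) * hab
  · intro T _ _ ψ y hψ hu hy
    let L := FractionRing T
    have hinjL : Function.Injective (algebraMap T L) := IsFractionRing.injective T L
    have hg0 : Function.Injective ((algebraMap T L).comp ψ) := hinjL.comp hψ
    let ψ' : Q →+* L := IsFractionRing.lift hg0
    let _ : Algebra Q L := ψ'.toAlgebra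
    have hψ' : ∀ x : A', ψ' (algebraMap A' Q x) = algebraMap T L (ψ x) := fun x =>
      IsFractionRing.lift_algebraMap hg0 x
    have hcomp : ψ'.comp (algebraMap A' Q) = (algebraMap T L).comp ψ := RingHom.ext hψ'
    let pb : PowerBasis Q K :=
      PowerBasis.ofAdjoinEqTop (Algebra.IsIntegral.isIntegral (R := Q) θ') hadj
    have hpb : pb.gen = θ' := rfl
    have hroot : aeval (algebraMap T L y) (minpoly Q pb.gen) = 0 := by
      rw [hpb, hF, aeval_def, eval₂_map]
      show eval₂ (ψ'.comp (algebraMap A' Q)) _ _ = 0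
      rw [hcomp, ← Polynomial.hom_eval₂, hy, map_zero]
    let φ : K →ₐ[Q] L := pb.lift (algebraMap T L y) hroot
    have hφθ : φ θ' = algebraMap T L y := pb.lift_gen _ hroot
    have hφA : ∀ x : A', φ (algebraMap A' K x) = algebraMap T L (ψ x) := by
      intro x
      rw [IsScalarTower.algebraMap_apply A' Q K, AlgHom.commutes]
      exact hψ' x
    have hφP : ∀ p : A'[X], φ (aeval θ' p) = algebraMap T L (eval₂ ψ y p) := by
      intro p
      rw [aeval_def, ← RingHom.coe_coe φ, Polynomial.hom_eval₂, Polynomial.hom_eval₂]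
      congr 1
      exact RingHom.ext hφA
    let G : R →+* L := (φ : K →+* L).comp (algebraMap R K)
    have hGs : ∀ z ∈ s, G z ∈ (algebraMap T L).range := by
      intro z hz
      have h1 : φ (aeval θ' (P z)) = φ (h₀ z • algebraMap R K z) := by rw [hP]
      rw [hφP, Algebra.smul_def, map_mul, hφA] at h1
      have h2 : IsUnit (ψ (h₀ z)) := by
        rw [map_prod] at hu
        exact isUnit_of_dvd_unit (Finset.dvd_prod_of_mem (fun z => ψ (h₀ z)) hz) hu
      obtain ⟨v, hv⟩ := h2
      refine ⟨↑v⁻¹ * eval₂ ψ y (P z), ?_⟩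
      rw [map_mul, h1, ← mul_assoc, ← map_mul, ← hv, Units.inv_mul, map_one, one_mul]
      rfl
    have hG : ∀ z, G z ∈ (algebraMap T L).range := by
      intro z
      have hz : z ∈ Algebra.adjoin ℤ (s : Set R) := by rw [hs]; trivial
      induction hz using Algebra.adjoin_induction with
      | mem x hx => exact hGs x hx
      | algebraMap n =>
        refine ⟨(n : T), ?_⟩
        simp
      | add x y _ _ hx hy =>
        rw [map_add]
        exact add_mem hx hy
      | mul x y _ _ hx hy =>
        rw [map_mul]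
        exact mul_mem hx hy
    have hGinj : Function.Injective G :=
      (φ : K →+* L).injective.comp (IsFractionRing.injective R K)
    let e : T ≃+* (algebraMap T L).range := RingEquiv.ofBijective (algebraMap T L).rangeRestrict
      ⟨fun x y hxy => hinjL (congrArg Subtype.val hxy), (algebraMap T L).rangeRestrict_surjective⟩
    refine ⟨(e.symm : _ →+* T).comp (G.codRestrict _ hG), ?_⟩
    refine e.symm.injective.comp fun x y hxy => hGinj ?_
    exact congrArg Subtype.val hxy

/-- A generic presentation of a finitely generated domain of characteristic zero. -/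
theorem exists_presentation (R : Type u) [CommRing R] [IsDomain R] [CharZero R]
    [Algebra.FiniteType ℤ R] :
    ∃ (r : ℕ) (h D : MvPolynomial (Fin r) ℤ) (F A B : (MvPolynomial (Fin r) ℤ)[X]),
      h ≠ 0 ∧ D ≠ 0 ∧ F.Monic ∧ 0 < F.natDegree ∧ A * F + B * derivative F = C D ∧
      ∀ (T : Type) [CommRing T] [IsDomain T] (ψ : MvPolynomial (Fin r) ℤ →+* T) (y : T),
        Function.Injective ψ → IsUnit (ψ h) → eval₂ ψ y F = 0 →
          ∃ f : R →+* T, Function.Injective f := by
  classical
  obtain ⟨s, hs⟩ := (inferInstance : Algebra.FiniteType ℤ R).out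
  have : Algebra.IsAlgebraic (Algebra.adjoin ℤ (s : Set R)) R := by
    rw [hs]
    exact ⟨fun x => isAlgebraic_algebraMap (⟨x, trivial⟩ : (⊤ : Subalgebra ℤ R))⟩
  obtain ⟨t, hts, ht⟩ := exists_isTranscendenceBasis_subset (R := ℤ) (A := R) (s : Set R)
  have : Finite t := Set.Finite.subset s.finite_toSet hts
  let e : Fin (Nat.card t) ≃ t := (Finite.equivFin t).symm
  set x : Fin (Nat.card t) → R := fun i => (e i : R) with hx
  have hxb : IsTranscendenceBasis ℤ x := (isTranscendenceBasis_equiv e).2 ht
  let _ : Algebra (MvPolynomial (Fin (Nat.card t)) ℤ) R := (MvPolynomial.aeval x).toAlgebra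
  have hinj : Function.Injective (MvPolynomial.aeval x : MvPolynomial _ ℤ →ₐ[ℤ] R) := hxb.1
  have : FaithfulSMul (MvPolynomial (Fin (Nat.card t)) ℤ) R :=
    (faithfulSMul_iff_algebraMap_injective _ _).2 hinj
  have : Algebra.IsAlgebraic (MvPolynomial (Fin (Nat.card t)) ℤ) R := by
    have h1 := hxb.isAlgebraic
    exact Algebra.IsAlgebraic.of_ringHom_of_comp_eq
      (S := Algebra.adjoin ℤ (Set.range x)) (B := R)
      (f := hxb.1.aevalEquiv) (g := RingHom.id R) hxb.1.aevalEquiv.surjective
      Function.injective_id (RingHom.ext fun p => hxb.1.algebraMap_aevalEquiv p)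
  exact ⟨Nat.card t, FinGen_core s hs⟩

end Pool.Agent.H71.KP

end

section

/-!
# Primes modulo which a polynomial has a root (Schur)

PROOF. Let `f` be nonconstant in `ℤ[X]`. If `f.eval 0 = 0` take `a = 0` and any prime `p > N`.
Otherwise put `c = f.eval 0 ≠ 0`. Then `f.eval (c * M * t) = c * (1 + M * g(t))` for every integer
`M` and a polynomial `g` (all terms of positive degree of `f (c M t)` are divisible by `c M`),
e.g. via `Polynomial.sub_dvd_eval_sub`. Take `M = N !` and an integer `t` such that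
`f.eval (c * M * t) ≠ c, -c` (finitely many `t` are excluded, as `f` is nonconstant). Then
`1 + M g(t) ≠ 1, -1`, so (it is also nonzero or any prime works) it has a prime divisor `p`; `p`
does not divide `M = N !`, hence `p > N`, and `p ∣ f.eval (c * M * t)`.
-/

set_option autoImplicit false

open Polynomial

namespace Pool.Agent.H71.KP

/-- For every nonconstant integral polynomial there are arbitrarily large primes modulo which it
has a root. -/
theorem exists_prime_root (f : ℤ[X]) (hf : 0 < f.natDegree) (N : ℕ) :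
    ∃ p : ℕ, p.Prime ∧ N < p ∧ ∃ a : ℤ, (p : ℤ) ∣ f.eval a := by
  by_cases hc : f.eval 0 = 0
  · obtain ⟨p, hp, hprime⟩ := Nat.exists_infinite_primes (N + 1)
    refine ⟨p, hprime, by omega, 0, ?_⟩
    rw [hc]
    exact dvd_zero _
  set c := f.eval 0 with hcdef
  -- a good argument
  have hfin : ∀ e : ℤ, {x : ℤ | f.eval x = e}.Finite := by
    intro e
    have hne : f - C e ≠ 0 := by
      intro h0
      have h1 : f = C e := sub_eq_zero.1 h0
      rw [h1, natDegree_C] at hf
      exact absurd hf (lt_irrefl _)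
    refine Set.Finite.subset (f - C e).roots.toFinset.finite_toSet ?_
    intro x hx
    have hx' : f.eval x = e := hx
    simp only [Finset.mem_coe, Multiset.mem_toFinset, mem_roots hne, IsRoot.def, eval_sub, eval_C,
      hx', sub_self]
  have hM : ((N.factorial : ℕ) : ℤ) ≠ 0 := by exact_mod_cast N.factorial_ne_zero
  have hinj : Function.Injective fun t : ℤ => c * N.factorial * t := by
    intro t t' h
    exact mul_left_cancel₀ (mul_ne_zero hc hM) h
  have hbad : ({t : ℤ | f.eval (c * N.factorial * t) = c} ∪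
      {t : ℤ | f.eval (c * N.factorial * t) = -c}).Finite :=
    ((hfin c).preimage hinj.injOn).union ((hfin (-c)).preimage hinj.injOn)
  obtain ⟨t, ht⟩ := hbad.infinite_compl.nonempty
  have ht1 : f.eval (c * N.factorial * t) ≠ c := fun h => ht (Or.inl h)
  have ht2 : f.eval (c * N.factorial * t) ≠ -c := fun h => ht (Or.inr h)
  obtain ⟨k, hk⟩ := sub_dvd_eval_sub (c * N.factorial * t) 0 f
  rw [sub_zero, ← hcdef] at hk
  have hval : f.eval (c * N.factorial * t) = c * (1 + N.factorial * (t * k)) := by
    linear_combination hk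
  have hne : (1 + (N.factorial : ℤ) * (t * k)).natAbs ≠ 1 := by
    intro h
    rcases Int.natAbs_eq_iff.1 h with h | h
    · apply ht1
      rw [hval, h]
      simp
    · apply ht2
      rw [hval, h]
      simp
  obtain ⟨p, hp, hpd⟩ := Nat.exists_prime_and_dvd hne
  have hpd' : (p : ℤ) ∣ 1 + (N.factorial : ℤ) * (t * k) := Int.natCast_dvd.2 hpd
  refine ⟨p, hp, ?_, c * N.factorial * t, ?_⟩
  · by_contra hle
    rw [not_lt] at hle
    have h1 : (p : ℤ) ∣ (N.factorial : ℤ) := by
      exact_mod_cast (hp.dvd_factorial).2 hle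
    have h2 : (p : ℤ) ∣ 1 := (Int.dvd_iff_dvd_of_dvd_add hpd').2 (h1.mul_right _)
    have h3 : p ∣ 1 := by exact_mod_cast h2
    exact hp.one_lt.ne' (Nat.dvd_one.1 h3)
  · rw [hval]
    exact hpd'.mul_left c

end Pool.Agent.H71.KP

end

section

/-!
# Embedding of finitely generated domains of characteristic zero in the `p`-adic integers (Cassels)

PROOF. Take `r, h, D, F, A, B` from `exists_presentation`. As `h * D ≠ 0` there is a point
`a : Fin r → ℤ` with `(h * D)(a) ≠ 0` (`MvPolynomial.funext` or `MvPolynomial.exists_eval_ne_zero...`).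
Let `N` be the absolute value of `(h * D)(a)`. The polynomial `F_a = F.map (MvPolynomial.eval a)` in
`ℤ[X]` is monic of positive degree, so by `exists_prime_root` there are a prime `p > N` and an
integer `b` with `p ∣ F_a.eval b`. By `exists_algInd` there is `t : Fin r → ℤ_[p]`, `t ≡ a` modulo
`p`, with `ψ = MvPolynomial.aeval t` injective. Then `ψ h ≡ h(a)` is not divisible by `p`, hence a
unit of `ℤ_[p]`, and in the same way `ψ D` is a unit. For `F_t = F.map ψ` we have
`F_t.eval b ≡ F_a.eval b ≡ 0` modulo `p`, and `F_t.derivative.eval b` is a unit by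
`A F + B F' = C D`. By Hensel's lemma (`hensels_lemma`, with coefficients in `ℤ_[p]`, or the
Henselian local ring instance) `F_t` has a root `y` in `ℤ_[p]`. Now apply the last property of
`exists_presentation`.
-/

set_option autoImplicit false

universe u

open Polynomial

namespace Pool.Agent.H71.KP

/-- **Cassels embedding theorem.** Every finitely generated domain of characteristic zero embeds in
`ℤ_[p]` for some prime `p`. -/
theorem exists_padic_embedding (R : Type u) [CommRing R] [IsDomain R] [CharZero R]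
    [Algebra.FiniteType ℤ R] :
    ∃ (p : ℕ) (_ : Fact p.Prime) (f : R →+* ℤ_[p]), Function.Injective f := by
  obtain ⟨r, h, D, F, A, B, hh, hD, hmon, hdeg, hAB, hlast⟩ := exists_presentation R
  have hhD : h * D ≠ 0 := mul_ne_zero hh hD
  obtain ⟨a, ha⟩ : ∃ a : Fin r → ℤ, MvPolynomial.eval a (h * D) ≠ 0 := by
    by_contra hcon
    push Not at hcon
    exact hhD (MvPolynomial.funext fun x => by rw [hcon x, map_zero])
  set N := (MvPolynomial.eval a (h * D)).natAbs with hN
  set Fa : ℤ[X] := F.map (MvPolynomial.eval a) with hFa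
  have hFadeg : 0 < Fa.natDegree := by
    rw [hFa, hmon.natDegree_map]
    exact hdeg
  obtain ⟨p, hp, hNp, b, hb⟩ := exists_prime_root Fa hFadeg N
  have hpf : Fact p.Prime := ⟨hp⟩
  obtain ⟨t, ht, hinj⟩ := exists_algInd p r (fun i => (a i : ℤ_[p]))
  set ψ : MvPolynomial (Fin r) ℤ →+* ℤ_[p] :=
    (MvPolynomial.aeval t : MvPolynomial (Fin r) ℤ →ₐ[ℤ] ℤ_[p]).toRingHom with hψ
  set I : Ideal ℤ_[p] := Ideal.span {(p : ℤ_[p])} with hI
  set mk : ℤ_[p] →+* ℤ_[p] ⧸ I := Ideal.Quotient.mk I with hmk
  have hcomp : mk.comp ψ = (mk.comp (Int.castRingHom ℤ_[p])).comp (MvPolynomial.eval a) := by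
    refine MvPolynomial.ringHom_ext (fun n => ?_) (fun i => ?_)
    · simp [hψ]
    · have e1 : ψ (MvPolynomial.X i) = t i := by simp [hψ]
      have e2 : MvPolynomial.eval a (MvPolynomial.X i) = a i := MvPolynomial.eval_X i
      rw [RingHom.comp_apply, RingHom.comp_apply, RingHom.comp_apply, e1, e2]
      change Ideal.Quotient.mk I (t i) = Ideal.Quotient.mk I ((a i : ℤ) : ℤ_[p])
      rw [Ideal.Quotient.eq, hI, Ideal.mem_span_singleton]
      exact ht i
  have hdvd : ∀ x : ℤ_[p], mk x = 0 ↔ (p : ℤ_[p]) ∣ x := by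
    intro x
    rw [hmk, Ideal.Quotient.eq_zero_iff_mem, hI, Ideal.mem_span_singleton]
  have hunit : ∀ x : ℤ_[p], ¬ (p : ℤ_[p]) ∣ x → ‖x‖ = 1 := by
    intro x hx
    rcases (PadicInt.norm_le_one x).lt_or_eq with h1 | h1
    · exact absurd ((PadicInt.norm_lt_one_iff_dvd x).1 h1) hx
    · exact h1
  have hint : ∀ k : ℤ, (p : ℤ_[p]) ∣ (k : ℤ_[p]) ↔ (p : ℤ) ∣ k := by
    intro k
    rw [← PadicInt.norm_lt_one_iff_dvd, PadicInt.norm_int_lt_one_iff_dvd]
  have hprod : ¬ (p : ℤ) ∣ MvPolynomial.eval a (h * D) := by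
    intro hd
    have h1 := Int.natAbs_dvd_natAbs.2 hd
    rw [Int.natAbs_natCast] at h1
    have h2 := Nat.le_of_dvd (Int.natAbs_pos.2 ha) h1
    omega
  have hψP : ∀ P : MvPolynomial (Fin r) ℤ, ¬ (p : ℤ) ∣ MvPolynomial.eval a P →
      ¬ (p : ℤ_[p]) ∣ ψ P := by
    intro P hP hd
    apply hP
    rw [← hint, ← hdvd]
    rw [← hdvd] at hd
    have h1 : mk (ψ P) = mk ((MvPolynomial.eval a P : ℤ) : ℤ_[p]) := RingHom.congr_fun hcomp P
    rw [← h1]
    exact hd
  have hψh : ¬ (p : ℤ_[p]) ∣ ψ h := hψP h fun hd => hprod (by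
    rw [map_mul]
    exact dvd_mul_of_dvd_left hd _)
  have hψD : ¬ (p : ℤ_[p]) ∣ ψ D := hψP D fun hd => hprod (by
    rw [map_mul]
    exact dvd_mul_of_dvd_right hd _)
  set Ft : ℤ_[p][X] := F.map ψ with hFt
  have hroot : (p : ℤ_[p]) ∣ Ft.eval (b : ℤ_[p]) := by
    have e1 : mk (Ft.eval (b : ℤ_[p])) = mk ((Fa.eval b : ℤ) : ℤ_[p]) := by
      have e2 : mk ((Fa.eval b : ℤ) : ℤ_[p]) =
          (mk.comp (Int.castRingHom ℤ_[p])) (eval₂ (MvPolynomial.eval a) b F) := by
        rw [hFa, eval_map]
        rfl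
      rw [e2, hom_eval₂, ← hcomp, hFt, eval_map, hom_eval₂]
      rfl
    rw [← hdvd, e1, hdvd, hint]
    exact hb
  have hder : ¬ (p : ℤ_[p]) ∣ (derivative Ft).eval (b : ℤ_[p]) := by
    intro hd
    apply hψD
    have h1 := congrArg (fun G => eval (b : ℤ_[p]) (G.map ψ)) hAB
    simp only [Polynomial.map_add, Polynomial.map_mul, eval_add, eval_mul, map_C, eval_C] at h1
    rw [← h1]
    refine dvd_add (dvd_mul_of_dvd_right hroot _) (dvd_mul_of_dvd_right ?_ _)
    rw [← derivative_map]
    exact hd
  obtain ⟨y, hy, _⟩ := hensels_lemma (F := Ft) (a := (b : ℤ_[p])) (by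
    simp only [coe_aeval_eq_eval]
    rw [hunit _ hder, one_pow]
    exact (PadicInt.norm_lt_one_iff_dvd _).2 hroot)
  have hy2 : eval₂ ψ y F = 0 := by
    rw [← eval_map]
    simpa [coe_aeval_eq_eval] using hy
  obtain ⟨f, hf⟩ := hlast ℤ_[p] ψ y hinj (PadicInt.isUnit_iff.2 (hunit _ hψh)) hy2
  exact ⟨p, hpf, f, hf⟩

end Pool.Agent.H71.KP

end

section

/-!
# Push-forward along a homomorphism to a matrix ring

For `φ : R →+* Matrix J J S` the homomorphism `K1.push φ : K₁(R) → K₁(S)` sends `[U]` to the class of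
the matrix over `S` obtained by replacing every entry of `U` by its image (a `J × J` block).
`flat`, `flat_mul` are in `Pool/Agent/H71/FJ/K0.lean`, `lamR`, `twR`, `incl` in
`Pool/Agent/H71/FJ/Group.lean`.

## Paper proofs

`push`: additivity by `cls_mul` and `flat_mul`; stability: `flat φ (diag(U, 1))` is, after the
reindexing `(Fin n ⊕ Fin 1) × J ≃ (Fin n × J) ⊕ (Fin 1 × J)`, `fromBlocks (flat φ U) 0 0 1` (`cls_reindex`,
`cls_stab`).
`push_congr`: `flat φ U = (1 ⊗ P) (flat φ' U) (1 ⊗ Q)` (`cls_conj`).
`push_sigma`: block diagonal homomorphisms.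
`push_one`: a one-element index type.
`ind_res1`: same proof as `ind_res` in `Pool/Agent/H71/FJ/Group.lean`.
-/

set_option autoImplicit false

open Matrix
open scoped Classical

universe u v w

namespace Pool.Agent.H95.WH


variable {R : Type u} [Ring R] {S : Type v} [Ring S] {T : Type w} [Ring T]
  {J : Type*} [Fintype J] [DecidableEq J]

/-- Replace every entry by its image. -/
def flatM {ι κ : Type*} (φ : R →+* Matrix J J S) (U : Matrix ι κ R) : Matrix (ι × J) (κ × J) S :=
  Matrix.of fun p q => φ (U p.1 q.1) p.2 q.2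

theorem flatM_mul {ι κ l : Type*} [Fintype κ] (φ : R →+* Matrix J J S) (U : Matrix ι κ R)
    (V : Matrix κ l R) : flatM φ (U * V) = flatM φ U * flatM φ V := by
  ext ⟨i, a⟩ ⟨j, b⟩
  simp only [flatM, of_apply, mul_apply, map_sum, map_mul, Fintype.sum_prod_type, Matrix.sum_apply]

theorem flatM_one {ι : Type*} [DecidableEq ι] (φ : R →+* Matrix J J S) :
    flatM φ (1 : Matrix ι ι R) = 1 := by
  ext ⟨i, a⟩ ⟨j, b⟩
  by_cases h : i = j
  · subst h
    simp [flatM, Matrix.one_apply]
  · have h' : ((i, a) : ι × J) ≠ (j, b) := fun e => h (congrArg Prod.fst e)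
    rw [Matrix.one_apply_ne h', flatM, of_apply, Matrix.one_apply_ne h, map_zero]
    rfl

/-- `flatM` on invertible matrices. -/
def flatU {ι : Type*} [Fintype ι] [DecidableEq ι] (φ : R →+* Matrix J J S)
    (U : (Matrix ι ι R)ˣ) : (Matrix (ι × J) (ι × J) S)ˣ where
  val := flatM φ U.val
  inv := flatM φ U.inv
  val_inv := by rw [← flatM_mul, U.val_inv, flatM_one]
  inv_val := by rw [← flatM_mul, U.inv_val, flatM_one]

theorem flatU_mul {ι : Type*} [Fintype ι] [DecidableEq ι] (φ : R →+* Matrix J J S)
    (U V : (Matrix ι ι R)ˣ) : flatU φ (U * V) = flatU φ U * flatU φ V :=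
  Units.ext (flatM_mul φ U.val V.val)

theorem cls_flatU_stab {n : ℕ} (φ : R →+* Matrix J J S) (U : (Matrix (Fin n) (Fin n) R)ˣ) :
    K1.cls (flatU φ (stab U)) = K1.cls (flatU φ U) := by
  let e : Fin (n + 1) × J ≃ (Fin n × J) ⊕ (Fin 1 × J) :=
    (Equiv.prodCongr finSumFinEquiv.symm (Equiv.refl J)).trans (Equiv.sumProdDistrib (Fin n) (Fin 1) J)
  rw [← K1.cls_reindex e (flatU φ (stab U))]
  apply K1.cls_stab
  rw [reU_val]
  change (flatM φ (stabMat U.val)).submatrix e.symm e.symm = fromBlocks (flatM φ U.val) 0 0 1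
  ext x y
  rcases x with ⟨i, a⟩ | ⟨i, a⟩ <;> rcases y with ⟨j, b⟩ | ⟨j, b⟩
  · simp [e, flatM, stabMat]
  · simp [e, flatM, stabMat]
  · simp [e, flatM, stabMat]
  · have hij : i = j := Subsingleton.elim _ _
    subst hij
    simp [e, flatM, stabMat, Matrix.one_apply]

namespace K1

/-- Push-forward. -/
noncomputable def push (φ : R →+* Matrix J J S) : K1 R →+ K1 S :=
  lift (fun _ U => cls (flatU φ U)) (fun _ U V => by rw [flatU_mul, cls_mul])
    (fun _ U => cls_flatU_stab φ U)

theorem push_mk (φ : R →+* Matrix J J S) {n : ℕ} (U : (Matrix (Fin n) (Fin n) R)ˣ) :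
    push φ (mk U) = cls (flatU φ U) := lift_mk _ _ _ U

theorem map_push (f : S →+* T) (φ : R →+* Matrix J J S) (x : K1 R) :
    map f (push φ x) = push (f.mapMatrix.comp φ) x := by
  have h : (map f).comp (push φ) = push (f.mapMatrix.comp φ) := by
    apply hom_ext
    intro n U
    rw [AddMonoidHom.comp_apply, push_mk, push_mk, map_cls]
    congr 1
  rw [← h]
  rfl

theorem push_congr {J' : Type*} [Fintype J'] [DecidableEq J'] (φ : R →+* Matrix J J S)
    (φ' : R →+* Matrix J' J' S) (P : Matrix J J' S) (Q : Matrix J' J S) (hPQ : P * Q = 1)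
    (hQP : Q * P = 1) (h : ∀ r, φ r * P = P * φ' r) (x : K1 R) : push φ x = push φ' x := by
  have key : push φ = push φ' := by
    apply hom_ext
    intro n U
    rw [push_mk, push_mk]
    let UU : Matrix (Fin n × J) (Fin n × J') S :=
      Matrix.of fun p q => if p.1 = q.1 then P p.2 q.2 else 0
    let VV : Matrix (Fin n × J') (Fin n × J) S :=
      Matrix.of fun p q => if p.1 = q.1 then Q p.2 q.2 else 0
    have hU : ∀ M : Matrix (Fin n × J') (Fin n × J') S, ∀ i c j b, (UU * M) (i, c) (j, b) =
        ∑ d, P c d * M (i, d) (j, b) := by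
      intro M i c j b
      simp only [UU, mul_apply, of_apply, Fintype.sum_prod_type, ite_mul, zero_mul]
      rw [Finset.sum_comm]
      simp
    have hU' : ∀ M : Matrix (Fin n × J) (Fin n × J) S, ∀ i c j b, (M * UU) (i, c) (j, b) =
        ∑ d, M (i, c) (j, d) * P d b := by
      intro M i c j b
      simp only [UU, mul_apply, of_apply, Fintype.sum_prod_type, mul_ite, mul_zero]
      rw [Finset.sum_comm]
      simp
    have hcomm : UU * flatM φ' U.val = flatM φ U.val * UU := by
      ext ⟨i, c⟩ ⟨j, b⟩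
      rw [hU, hU']
      have := congrFun (congrFun (h (U.val i j)) c) b
      simp only [mul_apply] at this
      simpa [flatM] using this.symm
    have hUVU : UU * VV = 1 := by
      ext ⟨i, c⟩ ⟨j, b⟩
      simp only [UU, VV, mul_apply, of_apply, Fintype.sum_prod_type, ite_mul, zero_mul, mul_ite,
        mul_zero]
      rw [Finset.sum_comm]
      have := congrFun (congrFun hPQ c) b
      simp only [mul_apply] at this
      by_cases hij : i = j
      · subst hij
        simp [this, Matrix.one_apply]
      · simp [hij]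
    have hVUV : VV * UU = 1 := by
      ext ⟨i, c⟩ ⟨j, b⟩
      simp only [UU, VV, mul_apply, of_apply, Fintype.sum_prod_type, ite_mul, zero_mul, mul_ite,
        mul_zero]
      rw [Finset.sum_comm]
      have := congrFun (congrFun hQP c) b
      simp only [mul_apply] at this
      by_cases hij : i = j
      · subst hij
        simp [this, Matrix.one_apply]
      · simp [hij]
    apply cls_conj UU VV hUVU hVUV
    change flatM φ U.val = UU * flatM φ' U.val * VV
    rw [hcomm, Matrix.mul_assoc, hUVU, Matrix.mul_one]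
  rw [key]

section PushBlk

variable {I : Type*} [Fintype I] [DecidableEq I] {K : I → Type*} [∀ i, Fintype (K i)]
  [∀ i, DecidableEq (K i)]

/-- Block diagonal invertible matrices. -/
private def pushBd (S : Type v) [Ring S] : (∀ i, (Matrix (K i) (K i) S)ˣ) →*
    (Matrix (Σ i, K i) (Σ i, K i) S)ˣ :=
  (Units.map (Matrix.blockDiagonal'RingHom K S).toMonoidHom).comp
    (MulEquiv.piUnits (M := fun i => Matrix (K i) (K i) S)).symm.toMonoidHom

private theorem pushBd_val (u : ∀ i, (Matrix (K i) (K i) S)ˣ) :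
    (pushBd S u : Matrix (Σ i, K i) (Σ i, K i) S) =
      Matrix.blockDiagonal' (fun i => (u i : Matrix (K i) (K i) S)) := rfl

private theorem cls_pushBd_single (i : I) (u : (Matrix (K i) (K i) S)ˣ) :
    cls (pushBd S (Pi.mulSingle i u)) = cls u := by
  let p : (Σ j, K j) → Prop := fun x => x.1 = i
  let e1 : (Σ j, K j) ≃ {x : Σ j, K j // p x} ⊕ {x : Σ j, K j // ¬ p x} :=
    (Equiv.sumCompl p).symm
  let e2 : {x : Σ j, K j // p x} ≃ K i :=
    { toFun := fun x => cast (congrArg K x.2) x.1.2
      invFun := fun y => ⟨⟨i, y⟩, rfl⟩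
      left_inv := by
        rintro ⟨⟨j, y⟩, hj⟩
        have hj' : j = i := hj
        subst hj'
        rfl
      right_inv := fun y => rfl }
  rw [← cls_reindex e1 (pushBd S (Pi.mulSingle i u)), ← cls_reindex e2.symm u]
  apply cls_stab
  rw [reU_val, reU_val, pushBd_val]
  ext x y
  rcases x with ⟨⟨j, a⟩, hx⟩ | ⟨⟨j, a⟩, hx⟩ <;> rcases y with ⟨⟨k, b⟩, hy⟩ | ⟨⟨k, b⟩, hy⟩
  · have hj : j = i := hx
    subst hj
    have hk : k = j := hy
    subst hk
    simp [e1, e2, Matrix.blockDiagonal'_apply]
  · have hj : j = i := hx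
    have hk : k ≠ i := hy
    subst hj
    have hjk : j ≠ k := hk.symm
    simp [e1, Matrix.blockDiagonal'_apply, hjk]
  · have hj : j ≠ i := hx
    have hk : k = i := hy
    subst hk
    simp [e1, Matrix.blockDiagonal'_apply, hj]
  · have hj : j ≠ i := hx
    have hk : k ≠ i := hy
    by_cases hjk : j = k
    · subst hjk
      simp [e1, Matrix.blockDiagonal'_apply, Pi.mulSingle_eq_of_ne hj, Matrix.one_apply]
    · simp [e1, Matrix.blockDiagonal'_apply, hjk]

private theorem cls_pushBd (u : ∀ i, (Matrix (K i) (K i) S)ˣ) :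
    cls (pushBd S u) = ∑ i, cls (u i) := by
  let f : (∀ i, (Matrix (K i) (K i) S)ˣ) →* Multiplicative (K1 S) :=
    { toFun := fun u => Multiplicative.ofAdd (cls (pushBd S u))
      map_one' := by rw [map_one, cls_one]; rfl
      map_mul' := fun u v => by rw [map_mul, cls_mul]; rfl }
  let g : (∀ i, (Matrix (K i) (K i) S)ˣ) →* Multiplicative (K1 S) :=
    { toFun := fun u => Multiplicative.ofAdd (∑ i, cls (u i))
      map_one' := by
        simp only [Pi.one_apply, cls_one, Finset.sum_const_zero]
        rfl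
      map_mul' := fun u v => by
        simp only [Pi.mul_apply, cls_mul, Finset.sum_add_distrib]
        rfl }
  have hfg : f = g := by
    apply MonoidHom.pi_ext
    intro i u
    change Multiplicative.ofAdd (cls (pushBd S (Pi.mulSingle i u))) =
      Multiplicative.ofAdd (∑ j, cls ((Pi.mulSingle i u : ∀ i, (Matrix (K i) (K i) S)ˣ) j))
    rw [cls_pushBd_single, Finset.sum_eq_single i]
    · rw [Pi.mulSingle_eq_same]
    · intro j _ hj
      rw [Pi.mulSingle_eq_of_ne hj, cls_one]
    · intro h
      exact absurd (Finset.mem_univ _) h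
  exact Multiplicative.ofAdd.injective (DFunLike.congr_fun hfg u)

theorem push_blk [Fintype (Σ i, K i)] [DecidableEq (Σ i, K i)]
    (φ : ∀ i, R →+* Matrix (K i) (K i) S)
    (φ' : R →+* Matrix (Σ i, K i) (Σ i, K i) S)
    (h : ∀ r, φ' r = Matrix.blockDiagonal' (fun i => φ i r)) (x : K1 R) :
    push φ' x = ∑ i, push (φ i) x := by
  have key : push φ' = ∑ i, push (φ i) := by
    apply hom_ext
    intro n U
    rw [AddMonoidHom.finsetSum_apply, push_mk]
    simp only [push_mk]
    have h1 := cls_pushBd (S := S) (K := fun i => Fin n × K i) (fun i => flatU (φ i) U)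
    rw [← h1]
    let e : Fin n × (Σ i, K i) ≃ Σ i, Fin n × K i :=
      { toFun := fun x => ⟨x.2.1, (x.1, x.2.2)⟩
        invFun := fun y => (y.2.1, ⟨y.1, y.2.2⟩)
        left_inv := fun x => rfl
        right_inv := fun x => rfl }
    rw [← cls_reindex e]
    congr 1
    apply Units.ext
    rw [reU_val, pushBd_val]
    ext ⟨i, a, c⟩ ⟨j, b, d⟩
    change φ' (U.val a b) ⟨i, c⟩ ⟨j, d⟩ = _
    rw [h]
    by_cases hij : i = j
    · subst hij
      rw [Matrix.blockDiagonal'_apply_eq, Matrix.blockDiagonal'_apply_eq]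
      rfl
    · rw [Matrix.blockDiagonal'_apply_ne _ _ _ hij, Matrix.blockDiagonal'_apply_ne _ _ _ hij]
  rw [key, AddMonoidHom.finsetSum_apply]

end PushBlk

end K1

variable {F : Type v} [Group F]

end Pool.Agent.H95.WH

end

section

/-!
# Rationally isomorphic lattices act in the same way on `K₁ ⊗ ℚ`

## Paper proofs

`pow_mod`: the image of `U` in the finite monoid of matrices over `(ℤ/n)[F]` is a unit of finite order
`m`; a matrix over `ℤ[F]` that vanishes modulo `n` is `n` times a matrix.
`inter`: let `x = [U]` (`exists_mk`), `U^m = 1 + n Z`. Let `ã = 1 ⊗ a` (`Matrix (Fin k × X) (Fin k × Y)`,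
integer entries), `b̃ = 1 ⊗ b`. Then `ã b̃ = n`, `b̃ ã = n`, `flat φ (Z) ã = ã flat ψ (Z)`, so
`flat φ (U^m) = 1 + n flat φ Z = 1 + (flat φ Z * ã) b̃` and
`flat ψ (U^m) = 1 + n flat ψ Z = 1 + b̃ (ã * flat ψ Z) = 1 + b̃ (flat φ Z * ã)`, so the two have the
same class by Vaserstein's identity `cls_vas`.
-/

set_option autoImplicit false

open Matrix

universe u v w

namespace Pool.Agent.H95.WH

/-- Block diagonal matrices with equal blocks. -/
private def interBlk (ι : Type*) [DecidableEq ι] {S : Type v} [Ring S] {X Y : Type*}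
    (P : Matrix X Y S) : Matrix (ι × X) (ι × Y) S :=
  Matrix.of fun p q => if p.1 = q.1 then P p.2 q.2 else 0

private theorem interBlk_mul (ι : Type*) [Fintype ι] [DecidableEq ι] {S : Type v} [Ring S]
    {X Y W : Type*} [Fintype Y] (P : Matrix X Y S) (M : Matrix (ι × Y) W S) (i : ι) (c : X)
    (w : W) : (interBlk ι P * M) (i, c) w = ∑ d, P c d * M (i, d) w := by
  simp only [interBlk, mul_apply, of_apply, Fintype.sum_prod_type, ite_mul, zero_mul]
  rw [Finset.sum_comm]
  simp

private theorem mul_interBlk (ι : Type*) [Fintype ι] [DecidableEq ι] {S : Type v} [Ring S]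
    {X Y W : Type*} [Fintype X] (P : Matrix X Y S) (M : Matrix W (ι × X) S) (j : ι) (b : Y)
    (w : W) : (M * interBlk ι P) w (j, b) = ∑ d, M w (j, d) * P d b := by
  simp only [interBlk, mul_apply, of_apply, Fintype.sum_prod_type, mul_ite, mul_zero]
  rw [Finset.sum_comm]
  simp

private theorem interBlk_smul_one (ι : Type*) [Fintype ι] [DecidableEq ι] {S : Type v} [Ring S]
    {X Y : Type*} [Fintype X] [DecidableEq X] [Fintype Y] (a : Matrix X Y ℤ) (b : Matrix Y X ℤ)
    (n : ℤ) (hab : a * b = n • (1 : Matrix X X ℤ)) :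
    interBlk ι (a.map (Int.castRingHom S)) * interBlk ι (b.map (Int.castRingHom S)) =
      n • (1 : Matrix (ι × X) (ι × X) S) := by
  have h1 : a.map (Int.castRingHom S) * b.map (Int.castRingHom S) = n • (1 : Matrix X X S) := by
    rw [← Matrix.map_mul, hab]
    ext i j
    rw [Matrix.map_apply, Matrix.smul_apply, Matrix.smul_apply]
    by_cases hij : i = j
    · subst hij
      rw [Matrix.one_apply_eq, Matrix.one_apply_eq]
      simp
    · rw [Matrix.one_apply_ne hij, Matrix.one_apply_ne hij]
      simp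
  ext ⟨i, c⟩ ⟨j, d⟩
  rw [interBlk_mul]
  have h2 := congrFun (congrFun h1 c) d
  rw [Matrix.mul_apply] at h2
  by_cases hij : i = j
  · subst hij
    have e : ∀ t : Y, interBlk ι (b.map (Int.castRingHom S)) (i, t) (i, d) =
        (b.map (Int.castRingHom S)) t d := by
      intro t
      simp [interBlk]
    simp only [e]
    rw [h2, Matrix.smul_apply, Matrix.smul_apply, Matrix.one_apply, Matrix.one_apply]
    simp
  · have e : ∀ t : Y, interBlk ι (b.map (Int.castRingHom S)) (i, t) (j, d) = 0 := by
      intro t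
      simp [interBlk, hij]
    simp only [e]
    simp [hij]

private theorem flatM_smul {R : Type u} [Ring R] {S : Type v} [Ring S] {J : Type*} [Fintype J]
    [DecidableEq J] {ι κ : Type*} (φ : R →+* Matrix J J S) (n : ℤ) (U : Matrix ι κ R) :
    flatM φ (n • U) = n • flatM φ U := by
  ext ⟨i, a⟩ ⟨j, b⟩
  simp only [flatM, of_apply, Matrix.smul_apply, map_zsmul]

private theorem flatM_add {R : Type u} [Ring R] {S : Type v} [Ring S] {J : Type*} [Fintype J]
    [DecidableEq J] {ι κ : Type*} (φ : R →+* Matrix J J S) (U V : Matrix ι κ R) :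
    flatM φ (U + V) = flatM φ U + flatM φ V := by
  ext ⟨i, a⟩ ⟨j, b⟩
  simp only [flatM, of_apply, Matrix.add_apply, map_add]

theorem inter {R : Type u} [Ring R] {S : Type v} [Ring S] {X Y : Type*} [Fintype X]
    [DecidableEq X] [Fintype Y] [DecidableEq Y] (φ : R →+* Matrix X X S) (ψ : R →+* Matrix Y Y S)
    (n : ℤ) (a : Matrix X Y ℤ) (b : Matrix Y X ℤ)
    (hab : a * b = n • (1 : Matrix X X ℤ)) (hba : b * a = n • (1 : Matrix Y Y ℤ))
    (h : ∀ r, φ r * a.map (Int.castRingHom S) = a.map (Int.castRingHom S) * ψ r)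
    (hpow : ∀ (k : ℕ) (U : (Matrix (Fin k) (Fin k) R)ˣ),
      ∃ (m : ℕ) (Z : Matrix (Fin k) (Fin k) R), 0 < m ∧
        ((U ^ m : (Matrix (Fin k) (Fin k) R)ˣ) : Matrix (Fin k) (Fin k) R) = 1 + n • Z)
    (x : K1 R) : ∃ m : ℕ, 0 < m ∧ m • K1.push φ x = m • K1.push ψ x := by
  obtain ⟨k, U, rfl⟩ := K1.exists_mk x
  obtain ⟨m, Z, hm, hZ⟩ := hpow k U
  refine ⟨m, hm, ?_⟩
  have hmk : m • K1.mk U = K1.mk (U ^ m) := by
    rw [← K1.cls_mk, ← K1.cls_mk, K1.cls_pow]
  rw [← map_nsmul, ← map_nsmul, hmk, K1.push_mk, K1.push_mk]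
  set A := interBlk (Fin k) (a.map (Int.castRingHom S)) with hA
  set B := interBlk (Fin k) (b.map (Int.castRingHom S)) with hB
  have hAB : A * B = n • (1 : Matrix (Fin k × X) (Fin k × X) S) :=
    interBlk_smul_one (Fin k) a b n hab
  have hBA : B * A = n • (1 : Matrix (Fin k × Y) (Fin k × Y) S) :=
    interBlk_smul_one (Fin k) b a n hba
  have hcomm : flatM φ Z * A = A * flatM ψ Z := by
    ext ⟨i, c⟩ ⟨j, d⟩
    rw [hA, interBlk_mul, mul_interBlk]
    have := congrFun (congrFun (h (Z i j)) c) d
    simp only [mul_apply] at this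
    simpa [flatM] using this
  apply K1.cls_vas (flatM φ Z * A) B
  · change flatM φ (U ^ m : (Matrix (Fin k) (Fin k) R)ˣ).val = _
    rw [hZ, flatM_add, flatM_one, flatM_smul, Matrix.mul_assoc, hAB, Matrix.mul_smul,
      Matrix.mul_one]
  · change flatM ψ (U ^ m : (Matrix (Fin k) (Fin k) R)ˣ).val = _
    rw [hZ, flatM_add, flatM_one, flatM_smul, hcomm, ← Matrix.mul_assoc, hBA, Matrix.smul_mul,
      Matrix.one_mul]

end Pool.Agent.H95.WH

end

section

/-!
# Block triangular invertible matrices

Two invertible matrices over a (non commutative) ring, one block upper triangular and one block lower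
triangular with respect to a function `v`, with the same diagonal blocks, have the same class in `K₁`.

## Paper proof

It is enough to prove: (*) if `U` is invertible, `U` and `U⁻¹` block upper triangular with respect to `v`
(`U i j = 0` for `v j < v i`), then the matrix `D` with `D i j = U i j` for `v i = v j` and `0` otherwise is
invertible, with inverse the corresponding part of `U⁻¹`, and `cls U = cls D`. The lower triangular case is (*)
for `v' i = N - v i`, `N` a bound of `v`.

`D` is invertible: for `v i = v j`, `(U U⁻¹) i j = ∑_k U i k U⁻¹ k j` and the terms with `v k ≠ v i` vanish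
(`U i k = 0` for `v k < v i`, `U⁻¹ k j = 0` for `v k > v j`).

`E = D⁻¹ U` is unipotent: `E i j = 0` for `v j < v i`, and `E i j = δ i j` for `v i = v j`, and the same holds for
`E⁻¹`. Claim: `cls E = 0`, by induction on the cardinality of the index type (any finite type; statement for all
unipotent `E` with unipotent inverse). If the index type is empty, `E = 1`. Otherwise choose `i₀` with `v i₀`
maximal. The row `i₀` of `E` is `δ`, so after the reindexing `ι ≃ {i // i ≠ i₀} ⊕ {i // i = i₀}` (or
`Equiv.sumCompl`) `E = fromBlocks E' C 0 1`, and the inverse has the same shape. `E'` is invertible and unipotent,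
and `cls E = cls E'` by a lemma of `K1B` on block triangular matrices (`cls_stab`, `cls_upper`, `cls_lower`, ...)
or directly: `fromBlocks E' C 0 1 = fromBlocks 1 C 0 1 * fromBlocks E' 0 0 1`.
-/

set_option autoImplicit false

open Matrix

universe u

namespace Pool.Agent.H95.WH

variable {R : Type u} [Ring R]

/-- The block diagonal part of a matrix. -/
private def dpart {ι : Type*} (v : ι → ℕ) (M : Matrix ι ι R) : Matrix ι ι R :=
  Matrix.of fun i j => if v i = v j then M i j else 0

private theorem dpart_apply {ι : Type*} (v : ι → ℕ) (M : Matrix ι ι R) (i j : ι) :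
    dpart v M i j = if v i = v j then M i j else 0 := rfl

private theorem dpart_mul {ι : Type*} [Fintype ι] (v : ι → ℕ) (M N : Matrix ι ι R)
    (hM : ∀ i j, v j < v i → M i j = 0) (hN : ∀ i j, v j < v i → N i j = 0) :
    dpart v (M * N) = dpart v M * dpart v N := by
  ext i j
  rw [dpart_apply, Matrix.mul_apply, Matrix.mul_apply]
  by_cases hij : v i = v j
  · rw [if_pos hij]
    refine Finset.sum_congr rfl fun k _ => ?_
    rw [dpart_apply, dpart_apply]
    rcases lt_trichotomy (v k) (v i) with h | h | h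
    · rw [if_neg (ne_of_gt h), hM i k h, zero_mul, zero_mul]
    · rw [if_pos h.symm, if_pos (h.trans hij)]
    · rw [if_neg (ne_of_lt h), zero_mul, hN k j (hij ▸ h), mul_zero]
  · rw [if_neg hij]
    symm
    refine Finset.sum_eq_zero fun k _ => ?_
    rw [dpart_apply, dpart_apply]
    by_cases h : v i = v k
    · have h2 : ¬ v k = v j := fun h2 => hij (h.trans h2)
      rw [if_neg h2, mul_zero]
    · rw [if_neg h, zero_mul]

private theorem dpart_one {ι : Type*} [DecidableEq ι] (v : ι → ℕ) :
    dpart v (1 : Matrix ι ι R) = 1 := by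
  ext i j
  rw [dpart_apply]
  by_cases h : i = j
  · subst h
    rw [if_pos rfl]
  · rw [Matrix.one_apply_ne h, ite_self]

private theorem dpart_dpart {ι : Type*} (v : ι → ℕ) (M : Matrix ι ι R) :
    dpart v (dpart v M) = dpart v M := by
  ext i j
  rw [dpart_apply, dpart_apply]
  by_cases h : v i = v j
  · rw [if_pos h]
  · rw [if_neg h, if_neg h]

private theorem dpart_up {ι : Type*} (v : ι → ℕ) (M : Matrix ι ι R) (i j : ι) (h : v j < v i) :
    dpart v M i j = 0 := by
  rw [dpart_apply, if_neg (ne_of_gt h)]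

private theorem mul_up {ι : Type*} [Fintype ι] (v : ι → ℕ) (M N : Matrix ι ι R)
    (hM : ∀ i j, v j < v i → M i j = 0) (hN : ∀ i j, v j < v i → N i j = 0)
    (i j : ι) (h : v j < v i) : (M * N) i j = 0 := by
  rw [Matrix.mul_apply]
  refine Finset.sum_eq_zero fun k _ => ?_
  rcases lt_or_ge (v k) (v i) with h1 | h1
  · rw [hM i k h1, zero_mul]
  · rw [hN k j (lt_of_lt_of_le h h1), mul_zero]

/-- The block diagonal part of an invertible block triangular matrix, invertible. -/
private def dU {ι : Type*} [Fintype ι] [DecidableEq ι] (v : ι → ℕ) (U : (Matrix ι ι R)ˣ)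
    (hU : ∀ i j, v j < v i → U.val i j = 0) (hUi : ∀ i j, v j < v i → U.inv i j = 0) :
    (Matrix ι ι R)ˣ where
  val := dpart v U.val
  inv := dpart v U.inv
  val_inv := by rw [← dpart_mul v _ _ hU hUi, U.val_inv, dpart_one]
  inv_val := by rw [← dpart_mul v _ _ hUi hU, U.inv_val, dpart_one]

private theorem cls_unipotent (n : ℕ) : ∀ (ι : Type*) [Fintype ι] [DecidableEq ι]
    (_ : Fintype.card ι = n) (v : ι → ℕ) (E : (Matrix ι ι R)ˣ)
    (_ : ∀ i j, v j < v i → E.val i j = 0) (_ : ∀ i j, v j < v i → E.inv i j = 0)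
    (_ : ∀ i j, v i = v j → E.val i j = (1 : Matrix ι ι R) i j)
    (_ : ∀ i j, v i = v j → E.inv i j = (1 : Matrix ι ι R) i j), K1.cls E = 0 := by
  induction n with
  | zero =>
    intro ι _ _ hc v E _ _ _ _
    have : IsEmpty ι := Fintype.card_eq_zero_iff.1 hc
    have h : E = 1 := Units.ext (Subsingleton.elim _ _)
    rw [h, K1.cls_one]
  | succ n ih =>
    intro ι _ _ hc v E h1 h2 h3 h4
    have hne : Nonempty ι := Fintype.card_pos_iff.1 (by rw [hc]; exact Nat.succ_pos n)
    obtain ⟨i₀, hi₀⟩ : ∃ i₀ : ι, ∀ j, v j ≤ v i₀ := Finite.exists_max v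
    have hrow : ∀ j, j ≠ i₀ → E.val i₀ j = 0 := by
      intro j hj
      rcases lt_or_eq_of_le (hi₀ j) with h | h
      · exact h1 _ _ h
      · rw [h3 _ _ h.symm, Matrix.one_apply_ne hj.symm]
    have hrowi : ∀ j, j ≠ i₀ → E.inv i₀ j = 0 := by
      intro j hj
      rcases lt_or_eq_of_le (hi₀ j) with h | h
      · exact h2 _ _ h
      · rw [h4 _ _ h.symm, Matrix.one_apply_ne hj.symm]
    let e : ι ≃ {i : ι // i ≠ i₀} ⊕ {i : ι // ¬ i ≠ i₀} := (Equiv.sumCompl fun i => i ≠ i₀).symm
    have hA : (reU e E).val = Matrix.fromBlocks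
        (E.val.submatrix (fun i : {i : ι // i ≠ i₀} => i.1) (fun i : {i : ι // i ≠ i₀} => i.1))
        (E.val.submatrix (fun i : {i : ι // i ≠ i₀} => i.1) (fun i : {i : ι // ¬ i ≠ i₀} => i.1))
        0 1 := by
      rw [reU_val]
      ext i j
      rcases i with i | i
      · rcases j with j | j <;> rfl
      · have hi : i.1 = i₀ := not_not.1 i.2
        rcases j with j | j
        · change E.val i.1 j.1 = 0
          rw [hi]
          exact hrow _ j.2
        · change E.val i.1 j.1 = (1 : Matrix {i : ι // ¬ i ≠ i₀} {i : ι // ¬ i ≠ i₀} R) i j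
          have hj : j.1 = i₀ := not_not.1 j.2
          have hij : i = j := Subtype.ext (hi.trans hj.symm)
          subst hij
          rw [Matrix.one_apply_eq, h3 _ _ rfl, Matrix.one_apply_eq]
    have hB : (reU e E).inv = Matrix.fromBlocks
        (E.inv.submatrix (fun i : {i : ι // i ≠ i₀} => i.1) (fun i : {i : ι // i ≠ i₀} => i.1))
        (E.inv.submatrix (fun i : {i : ι // i ≠ i₀} => i.1) (fun i : {i : ι // ¬ i ≠ i₀} => i.1))
        0 1 := by
      change E.inv.submatrix e.symm e.symm = _
      ext i j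
      rcases i with i | i
      · rcases j with j | j <;> rfl
      · have hi : i.1 = i₀ := not_not.1 i.2
        rcases j with j | j
        · change E.inv i.1 j.1 = 0
          rw [hi]
          exact hrowi _ j.2
        · change E.inv i.1 j.1 = (1 : Matrix {i : ι // ¬ i ≠ i₀} {i : ι // ¬ i ≠ i₀} R) i j
          have hj : j.1 = i₀ := not_not.1 j.2
          have hij : i = j := Subtype.ext (hi.trans hj.symm)
          subst hij
          rw [Matrix.one_apply_eq, h4 _ _ rfl, Matrix.one_apply_eq]
    have hAB := (reU e E).val_inv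
    have hBA := (reU e E).inv_val
    rw [hA, hB, Matrix.fromBlocks_multiply, ← Matrix.fromBlocks_one, Matrix.fromBlocks_inj] at hAB
    rw [hA, hB, Matrix.fromBlocks_multiply, ← Matrix.fromBlocks_one, Matrix.fromBlocks_inj] at hBA
    have hAB1 := hAB.1
    have hBA1 := hBA.1
    rw [Matrix.mul_zero, add_zero] at hAB1 hBA1
    let E' : (Matrix {i : ι // i ≠ i₀} {i : ι // i ≠ i₀} R)ˣ :=
      { val := E.val.submatrix (fun i => i.1) (fun i => i.1)
        inv := E.inv.submatrix (fun i => i.1) (fun i => i.1)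
        val_inv := hAB1
        inv_val := hBA1 }
    have hcard : Fintype.card {i : ι // i ≠ i₀} = n := by
      have h := Fintype.card_subtype_compl (fun i : ι => i = i₀)
      rw [Fintype.card_subtype_eq, hc] at h
      exact h
    have hE' : K1.cls E' = 0 := by
      refine ih {i : ι // i ≠ i₀} hcard (fun i => v i.1) E' ?_ ?_ ?_ ?_
      · intro i j h
        exact h1 i.1 j.1 h
      · intro i j h
        exact h2 i.1 j.1 h
      · intro i j h
        change E.val i.1 j.1 = _
        rw [h3 i.1 j.1 h]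
        by_cases hij : i = j
        · subst hij
          rw [Matrix.one_apply_eq, Matrix.one_apply_eq]
        · rw [Matrix.one_apply_ne hij, Matrix.one_apply_ne (fun h => hij (Subtype.ext h))]
      · intro i j h
        change E.inv i.1 j.1 = _
        rw [h4 i.1 j.1 h]
        by_cases hij : i = j
        · subst hij
          rw [Matrix.one_apply_eq, Matrix.one_apply_eq]
        · rw [Matrix.one_apply_ne hij, Matrix.one_apply_ne (fun h => hij (Subtype.ext h))]
    rw [← K1.cls_reindex e E, K1.cls_upper E' 1 _ (reU e E) hA, hE', K1.cls_one, add_zero]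

private theorem cls_dU {ι : Type*} [Fintype ι] [DecidableEq ι] (v : ι → ℕ) (U : (Matrix ι ι R)ˣ)
    (hU : ∀ i j, v j < v i → U.val i j = 0) (hUi : ∀ i j, v j < v i → U.inv i j = 0) :
    K1.cls U = K1.cls (dU v U hU hUi) := by
  have hDi : (dU v U hU hUi)⁻¹.val = dpart v U.inv := rfl
  have hD : (dU v U hU hUi).val = dpart v U.val := rfl
  have h : K1.cls ((dU v U hU hUi)⁻¹ * U) = 0 := by
    have e1 : ((dU v U hU hUi)⁻¹ * U).val = dpart v U.inv * U.val := rfl
    have e2 : ((dU v U hU hUi)⁻¹ * U).inv = U.inv * dpart v U.val := rfl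
    refine cls_unipotent (Fintype.card ι) ι rfl v _ ?_ ?_ ?_ ?_
    · intro i j hij
      rw [e1]
      exact mul_up v _ _ (dpart_up v _) hU i j hij
    · intro i j hij
      rw [e2]
      exact mul_up v _ _ hUi (dpart_up v _) i j hij
    · intro i j hij
      have h5 := dpart_mul v (dpart v U.inv) U.val (dpart_up v _) hU
      rw [dpart_dpart, ← dpart_mul v _ _ hUi hU, U.inv_val, dpart_one] at h5
      have h6 := congrFun (congrFun h5 i) j
      rw [dpart_apply, if_pos hij] at h6
      rw [e1, h6]
    · intro i j hij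
      have h5 := dpart_mul v U.inv (dpart v U.val) hUi (dpart_up v _)
      rw [dpart_dpart, ← dpart_mul v _ _ hUi hU, U.inv_val, dpart_one] at h5
      have h6 := congrFun (congrFun h5 i) j
      rw [dpart_apply, if_pos hij] at h6
      rw [e2, h6]
  rw [K1.cls_mul, K1.cls_inv] at h
  exact (neg_add_eq_zero.1 h).symm

theorem cls_tri {ι : Type*} [Fintype ι] [DecidableEq ι] (v : ι → ℕ) (U V : (Matrix ι ι R)ˣ)
    (hU : ∀ i j, v j < v i → U.val i j = 0) (hUi : ∀ i j, v j < v i → U.inv i j = 0)
    (hV : ∀ i j, v i < v j → V.val i j = 0) (hVi : ∀ i j, v i < v j → V.inv i j = 0)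
    (hUV : ∀ i j, v i = v j → U.val i j = V.val i j) : K1.cls U = K1.cls V := by
  obtain ⟨N, hN⟩ : ∃ N, ∀ i, v i ≤ N := by
    refine ⟨∑ i, v i, fun i => ?_⟩
    exact Finset.single_le_sum (fun _ _ => Nat.zero_le _) (Finset.mem_univ i)
  have hlt : ∀ i j, N - v j < N - v i → v i < v j := by
    intro i j h
    have := hN i
    have := hN j
    omega
  have hV' : ∀ i j, N - v j < N - v i → V.val i j = 0 := fun i j h => hV i j (hlt i j h)
  have hVi' : ∀ i j, N - v j < N - v i → V.inv i j = 0 := fun i j h => hVi i j (hlt i j h)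
  rw [cls_dU v U hU hUi, cls_dU (fun i => N - v i) V hV' hVi']
  congr 1
  apply Units.ext
  ext i j
  change dpart v U.val i j = dpart (fun i => N - v i) V.val i j
  rw [dpart_apply, dpart_apply]
  have h1 := hN i
  have h2 := hN j
  by_cases h : v i = v j
  · rw [if_pos h, if_pos (by rw [h]), hUV i j h]
  · rw [if_neg h, if_neg (fun h3 => h (by omega))]

end Pool.Agent.H95.WH

end
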