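import Pool.Agent.H94.FJ.M12
import Pool.Agent.H94.FJ.M17

/-! The parts of this file: H71.KP.Res, H71.KP.Sys, H71.KP.ResK, H71.KP.Laur. -/

section

/-!
# Restriction of units to subgroups
-/

set_option autoImplicit false
set_option linter.unusedSectionVars false
set_option linter.unusedSimpArgs false

open Matrix
open scoped Classical

universe u v w t

namespace Pool.Agent.H71.KP

theorem out_mem_iff {F : Type v} [Group F] (D : Subgroup F) (h : F) (x y : F ⧸ D) :
    x.out⁻¹ * h * y.out ∈ D ↔ x = h • y := by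
  have h1 : h • y = ((h * y.out : F) : F ⧸ D) := by
    conv_lhs => rw [← QuotientGroup.out_eq' y]
    rfl
  rw [h1]
  conv_rhs => rw [← QuotientGroup.out_eq' x]
  rw [QuotientGroup.eq, mul_assoc]

section Lam

variable (R : Type u) [CommRing R] {F : Type v} [Group F]

/-- The monomial matrix over `R[D]` of left multiplication by `h` on the free right `R[D]`-module
`R[F]`. -/
noncomputable def resMat (D : Subgroup F) (h : F) :
    Matrix (F ⧸ D) (F ⧸ D) (MonoidAlgebra R D) :=
  Matrix.of fun x y => if hh : x.out⁻¹ * h * y.out ∈ D then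
    MonoidAlgebra.single (⟨x.out⁻¹ * h * y.out, hh⟩ : D) 1 else 0

/-- The restriction homomorphism `R[F] → Mat_{F/D}(R[D])`. -/
noncomputable def resA (D : Subgroup F) [Fintype (F ⧸ D)] :
    MonoidAlgebra R F →ₐ[R] Matrix (F ⧸ D) (F ⧸ D) (MonoidAlgebra R D) :=
  MonoidAlgebra.lift R _ F
    { toFun := resMat R D
      map_one' := by
        refine Matrix.ext fun x y => ?_
        rw [resMat, of_apply, Matrix.one_apply]
        by_cases hxy : x = y
        · subst hxy
          have : x.out⁻¹ * 1 * x.out ∈ D := by simp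
          rw [dif_pos this, if_pos rfl, MonoidAlgebra.one_def]
          refine congrArg (fun g : D => MonoidAlgebra.single g (1 : R)) (Subtype.ext ?_)
          simp
        · rw [dif_neg, if_neg hxy]
          rw [out_mem_iff, one_smul]
          exact hxy
      map_mul' := by
        intro h h'
        refine Matrix.ext fun x z => ?_
        rw [Matrix.mul_apply, Finset.sum_eq_single (h' • z)]
        · simp only [resMat, of_apply]
          have h1 : (h' • z).out⁻¹ * h' * z.out ∈ D := (out_mem_iff D h' _ z).2 rfl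
          rw [dif_pos h1]
          by_cases h2 : x.out⁻¹ * h * (h' • z).out ∈ D
          · have h3 : x.out⁻¹ * (h * h') * z.out ∈ D := by
              have := D.mul_mem h2 h1
              have e : x.out⁻¹ * h * (h' • z).out * ((h' • z).out⁻¹ * h' * z.out) =
                x.out⁻¹ * (h * h') * z.out := by group
              rwa [e] at this
            rw [dif_pos h2, dif_pos h3, MonoidAlgebra.single_mul_single, one_mul]
            refine congrArg (fun g : D => MonoidAlgebra.single g (1 : R)) (Subtype.ext ?_)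
            simp only [Subgroup.coe_mul]
            group
          · have h3 : ¬ x.out⁻¹ * (h * h') * z.out ∈ D := by
              intro h3
              apply h2
              rw [out_mem_iff] at h3 ⊢
              rw [h3, mul_smul]
            rw [dif_neg h2, dif_neg h3, zero_mul]
        · intro y _ hy
          simp only [resMat, of_apply]
          have : ¬ y.out⁻¹ * h' * z.out ∈ D := by
            rw [out_mem_iff]
            exact hy
          rw [dif_neg this, mul_zero]
        · intro h1
          exact absurd (Finset.mem_univ _) h1 }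

theorem resA_single (D : Subgroup F) [Fintype (F ⧸ D)] (h : F) (r : R) (x y : F ⧸ D) :
    resA R D (MonoidAlgebra.single h r) x y = if hh : x.out⁻¹ * h * y.out ∈ D then
      MonoidAlgebra.single (⟨x.out⁻¹ * h * y.out, hh⟩ : D) r else 0 := by
  rw [resA, MonoidAlgebra.lift_single]
  change r • (resMat R D h) x y = _
  rw [resMat, of_apply]
  split_ifs
  · rw [MonoidAlgebra.smul_single, smul_eq_mul, mul_one]
  · rw [smul_zero]

/-- the restriction as a ring homomorphism -/
noncomputable def resR (D : Subgroup F) [Fintype (F ⧸ D)] :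
    MonoidAlgebra R F →+* Matrix (F ⧸ D) (F ⧸ D) (MonoidAlgebra R D) := (resA R D).toRingHom

theorem resR_map {S : Type t} [CommRing S] (φ : R →+* S) (D : Subgroup F) [Fintype (F ⧸ D)]
    (x : MonoidAlgebra R F) : resR S D (MonoidAlgebra.mapRingHom F φ x) =
      (resR R D x).map (MonoidAlgebra.mapRingHom D φ) := by
  induction x using MonoidAlgebra.induction_linear with
  | zero =>
    rw [map_zero, map_zero, map_zero]
    exact (Matrix.map_zero _ (map_zero _)).symm
  | add x y hx hy =>
    rw [map_add, map_add, map_add, hx, hy, Matrix.map_add _ (map_add _)]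
  | single h r =>
    refine Matrix.ext fun a b => ?_
    rw [MonoidAlgebra.mapRingHom_single, Matrix.map_apply]
    change resA S D (MonoidAlgebra.single h (φ r)) a b =
      MonoidAlgebra.mapRingHom D φ (resA R D (MonoidAlgebra.single h r) a b)
    rw [resA_single, resA_single]
    split_ifs
    · rw [MonoidAlgebra.mapRingHom_single]
    · rw [map_zero]

end Lam

section Comm

variable {R : Type u} [CommRing R] {H : Type w} [CommGroup H]

/-- The restriction of units, given by the determinant. -/
noncomputable def resU (E : Subgroup H) [Fintype (H ⧸ E)] :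
    (MonoidAlgebra R H)ˣ →* (MonoidAlgebra R E)ˣ :=
  (Units.map (detMonoidHom : Matrix (H ⧸ E) (H ⧸ E) (MonoidAlgebra R E) →* MonoidAlgebra R E)).comp
    (Units.map (resR R E).toMonoidHom)

theorem resU_val (E : Subgroup H) [Fintype (H ⧸ E)] (x : (MonoidAlgebra R H)ˣ) :
    (resU E x : MonoidAlgebra R E) = det (resR R E (x : MonoidAlgebra R H)) := rfl

theorem uMap_resU {S : Type t} [CommRing S] (φ : R →+* S) (E : Subgroup H) [Fintype (H ⧸ E)]
    (x : (MonoidAlgebra R H)ˣ) : uMap φ E (resU E x) = resU E (uMap φ H x) := by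
  apply Units.ext
  rw [uMap_val, resU_val, resU_val, uMap_val, resR_map, RingHom.map_det]
  rfl

/-- the product of the restriction and the induction -/
noncomputable def ir (E : Subgroup H) [Fintype (H ⧸ E)] (x : (MonoidAlgebra R H)ˣ) :
    (MonoidAlgebra R H)ˣ := unitsMap E.subtype (resU E x)

end Comm

end Pool.Agent.H71.KP

end

section

/-!
# Systems of logarithms and the decomposition into primitive classes
-/

set_option autoImplicit false
set_option linter.unusedSectionVars false
set_option linter.unusedSimpArgs false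

open Matrix
open scoped Classical

universe u v w t

namespace Pool.Agent.H71.KP

open Pool.Agent.H71.WH (exists_nu Sat Sat_of_smul mem_Sat CycSub conjHom)

/-- A system of logarithms for the units of the group rings of finite cyclic groups of good
order. -/
structure LogSys (R : Type u) [CommRing R] (A : Type w) [AddCommGroup A] where
  /-- the good orders -/
  good : ℕ → Prop
  good_dvd : ∀ {m n : ℕ}, m ∣ n → good n → good m
  /-- the coefficient at an element of the logarithm of a unit -/
  ell : ∀ (H : Type v) [Group H] [Finite H] [IsCyclic H], H → (MonoidAlgebra R H)ˣ → A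
  ell_mul : ∀ (H : Type v) [Group H] [Finite H] [IsCyclic H] (c : H) (x y : (MonoidAlgebra R H)ˣ),
    good (Nat.card H) → ell H c (x * y) = ell H c x + ell H c y
  ell_map : ∀ (H H' : Type v) [Group H] [Finite H] [IsCyclic H] [Group H'] [Finite H']
    [IsCyclic H'] (φ : H →* H') (_ : Function.Injective φ) (c : H) (x : (MonoidAlgebra R H)ˣ),
    good (Nat.card H') → ell H' (φ c) (unitsMap φ x) = ell H c x
  ell_map_zero : ∀ (H H' : Type v) [Group H] [Finite H] [IsCyclic H] [Group H'] [Finite H']
    [IsCyclic H'] (φ : H →* H') (_ : Function.Injective φ) (c' : H') (_ : ∀ c, φ c ≠ c')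
    (x : (MonoidAlgebra R H)ˣ), good (Nat.card H') → ell H' c' (unitsMap φ x) = 0
  ell_res : ∀ (H : Type v) [CommGroup H] [Finite H] [IsCyclic H] (E : Subgroup H)
    [Fintype (H ⧸ E)] (c : E) (x : (MonoidAlgebra R H)ˣ), good (Nat.card H) →
    ell E c (resU E x) = (Nat.card (H ⧸ E) : ℤ) • ell H (c : H) x
  detect : ∀ (H : Type v) [Group H] [Finite H] [IsCyclic H] (x : (MonoidAlgebra R H)ˣ),
    good (Nat.card H) → (∀ c, ell H c x = 0) → ∃ m : ℕ, m ≠ 0 ∧ x ^ m = 1

theorem unitsMap_comp {R : Type t} [CommRing R] {A : Type u} {B : Type v} {C : Type w} [Group A]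
    [Group B] [Group C] (φ : A →* B) (ψ : B →* C) (x : (MonoidAlgebra R A)ˣ) :
    unitsMap ψ (unitsMap φ x) = unitsMap (ψ.comp φ) x := by
  have h : ((MonoidAlgebra.mapDomainRingHom R ψ).comp (MonoidAlgebra.mapDomainRingHom R φ))
      (x : MonoidAlgebra R A) = MonoidAlgebra.mapDomainRingHom R (ψ.comp φ)
      (x : MonoidAlgebra R A) := by
    rw [MonoidAlgebra.mapDomainRingHom_comp]
  exact Units.ext h

namespace LogSys

variable {R : Type u} [CommRing R] {A : Type w} [AddCommGroup A] (S : LogSys.{u, v, w} R A)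

section H

variable {H : Type v} [Group H] [Finite H] [IsCyclic H]

/-- the logarithm as a homomorphism -/
noncomputable def ellM (c : H) (hg : S.good (Nat.card H)) :
    (MonoidAlgebra R H)ˣ →* Multiplicative A :=
  MonoidHom.mk' (fun x => Multiplicative.ofAdd (S.ell H c x)) (fun x y => S.ell_mul H c x y hg)

theorem ell_one (c : H) (hg : S.good (Nat.card H)) : S.ell H c 1 = 0 := map_one (S.ellM c hg)

theorem ell_inv (c : H) (hg : S.good (Nat.card H)) (x : (MonoidAlgebra R H)ˣ) :
    S.ell H c x⁻¹ = -S.ell H c x := map_inv (S.ellM c hg) x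

theorem ell_zpow (c : H) (hg : S.good (Nat.card H)) (x : (MonoidAlgebra R H)ˣ) (n : ℤ) :
    S.ell H c (x ^ n) = n • S.ell H c x := map_zpow (S.ellM c hg) x n

theorem ell_list (c : H) (hg : S.good (Nat.card H)) (l : List (MonoidAlgebra R H)ˣ) :
    S.ell H c l.prod = (l.map (S.ell H c)).sum := by
  induction l with
  | nil => exact S.ell_one c hg
  | cons a l ih => rw [List.prod_cons, S.ell_mul H c _ _ hg, ih, List.map_cons, List.sum_cons]

end H

section C

variable {H : Type v} [CommGroup H] [Finite H] [IsCyclic H]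

theorem ell_prod (c : H) (hg : S.good (Nat.card H)) {ι : Type*} (s : Finset ι)
    (x : ι → (MonoidAlgebra R H)ˣ) :
    S.ell H c (∏ i ∈ s, x i) = ∑ i ∈ s, S.ell H c (x i) := by
  induction s using Finset.induction_on with
  | empty =>
    rw [Finset.prod_empty, Finset.sum_empty]
    exact S.ell_one c hg
  | insert a s ha ih =>
    rw [Finset.prod_insert ha, Finset.sum_insert ha, S.ell_mul H c _ _ hg, ih]

theorem ell_ir (E : Subgroup H) [Fintype (H ⧸ E)] (x : (MonoidAlgebra R H)ˣ) (c : H)
    (hg : S.good (Nat.card H)) :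
    S.ell H c (ir E x) = if c ∈ E then (Nat.card (H ⧸ E) : ℤ) • S.ell H c x else 0 := by
  split_ifs with hc
  · have h1 := S.ell_map E H E.subtype E.subtype_injective ⟨c, hc⟩ (resU E x) hg
    exact h1.trans (S.ell_res H E ⟨c, hc⟩ x hg)
  · exact S.ell_map_zero E H E.subtype E.subtype_injective c
      (fun e he => hc (he ▸ e.2)) (resU E x) hg

end C

/-- Units whose logarithm is supported at the generators of the cyclic group. -/
def IsPrim {D : Type v} [Group D] [Finite D] [IsCyclic D] (y : (MonoidAlgebra R D)ˣ) : Prop :=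
  ∀ c : D, Subgroup.zpowers c ≠ ⊤ → S.ell D c y = 0

theorem exists_prim (D : Type v) [CommGroup D] [Fintype D] [IsCyclic D]
    (hg : S.good (Nat.card D)) :
    ∃ κ : Subgroup D → ℤ, ∀ x : (MonoidAlgebra R D)ˣ,
      S.IsPrim (x ^ (Nat.card D : ℤ) *
        ∏ E ∈ (Finset.univ : Finset (Subgroup D)).erase ⊤, ir E x ^ (κ E * (Nat.card E : ℤ))) := by
  obtain ⟨κ, hκ⟩ := exists_nu ((Finset.univ : Finset (Subgroup D)).erase ⊤) (fun _ => -1)
  refine ⟨κ, fun x c hc => ?_⟩
  have h0 := hκ (Subgroup.zpowers c) (Finset.mem_erase.2 ⟨hc, Finset.mem_univ _⟩)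
  simp only [Subgroup.zpowers_le] at h0
  rw [S.ell_mul D c _ _ hg, S.ell_prod c hg, S.ell_zpow c hg]
  have h1 : ∀ E : Subgroup D, S.ell D c (ir E x ^ (κ E * (Nat.card E : ℤ))) =
      (if c ∈ E then κ E else 0 : ℤ) • ((Nat.card D : ℤ) • S.ell D c x) := by
    intro E
    rw [S.ell_zpow c hg, S.ell_ir E x c hg]
    split_ifs
    · have h2 : (Nat.card D : ℤ) = (Nat.card (D ⧸ E) : ℤ) * (Nat.card E : ℤ) := by
        rw [← Nat.cast_mul, ← Subgroup.card_eq_card_quotient_mul_card_subgroup]
      rw [h2, smul_smul, smul_smul]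
      congr 1
      ring
    · rw [smul_zero, zero_smul]
  rw [Finset.sum_congr rfl (fun E _ => h1 E), ← Finset.sum_smul, ← Finset.sum_filter, h0,
    neg_one_smul, add_neg_cancel]

end LogSys

section Clh

variable {R : Type u} [CommRing R] {G : Type v} [Group G]

/-- the range of a homomorphism from a finite cyclic group -/
def rangeSub {H : Type w} [Group H] [Finite H] [IsCyclic H] (ι : H →* G) : CycSub G :=
  ⟨ι.range, Set.finite_range ι, isCyclic_of_surjective ι.rangeRestrict ι.rangeRestrict_surjective⟩

/-- `ι` as a homomorphism onto its range -/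
def toRange {H : Type w} [Group H] [Finite H] [IsCyclic H] (ι : H →* G) : H →* (rangeSub ι).1 :=
  ι.rangeRestrict

/-- The class of a unit of `R[H]` for a homomorphism from a finite cyclic group `H` to `G`. -/
noncomputable def clh {H : Type w} [Group H] [Finite H] [IsCyclic H] (ι : H →* G)
    (x : (MonoidAlgebra R H)ˣ) : ColimU R G := cl (rangeSub ι) (unitsMap (toRange ι) x)

/-- `clh` as a homomorphism -/
noncomputable def clhM {H : Type w} [Group H] [Finite H] [IsCyclic H] (ι : H →* G) :
    (MonoidAlgebra R H)ˣ →* Multiplicative (ColimU R G) :=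
  (clM (rangeSub ι)).comp (unitsMap (toRange ι))

theorem clh_mul {H : Type w} [Group H] [Finite H] [IsCyclic H] (ι : H →* G)
    (x y : (MonoidAlgebra R H)ˣ) : clh ι (x * y) = clh ι x + clh ι y := map_mul (clhM ι) x y

theorem clh_zpow {H : Type w} [Group H] [Finite H] [IsCyclic H] (ι : H →* G)
    (x : (MonoidAlgebra R H)ˣ) (n : ℤ) : clh ι (x ^ n) = n • clh ι x := map_zpow (clhM ι) x n

theorem clh_prod {H : Type w} [CommGroup H] [Finite H] [IsCyclic H] (ι : H →* G)
    {κ : Type*} (s : Finset κ) (x : κ → (MonoidAlgebra R H)ˣ) :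
    clh ι (∏ i ∈ s, x i) = ∑ i ∈ s, clh ι (x i) := by
  induction s using Finset.induction_on with
  | empty =>
    rw [Finset.prod_empty, Finset.sum_empty]
    exact map_one (clhM ι)
  | insert a s ha ih => rw [Finset.prod_insert ha, Finset.sum_insert ha, clh_mul, ih]

theorem clh_map {H : Type w} {H' : Type t} [Group H] [Finite H] [IsCyclic H] [Group H']
    [Finite H'] [IsCyclic H'] (ι : H →* G) (ι' : H' →* G) (φ : H →* H')
    (h : ∀ a, ι' (φ a) = ι a) (x : (MonoidAlgebra R H)ˣ) :
    clh ι' (unitsMap φ x) = clh ι x := by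
  have hr : ∀ y ∈ (rangeSub ι).1, (1 : G) * y * 1⁻¹ ∈ (rangeSub ι').1 := by
    rintro y ⟨a, rfl⟩
    refine ⟨φ a, ?_⟩
    rw [h, one_mul, inv_one, mul_one]
  have h1 := cl_conj (rangeSub ι) (rangeSub ι') 1 hr (unitsMap (toRange ι) x)
  refine Eq.trans ?_ h1
  have h2 : (toRange ι').comp φ =
      (conjHom 1 (rangeSub ι).1 (rangeSub ι').1 hr).comp (toRange ι) := by
    apply MonoidHom.ext
    intro a
    apply Subtype.ext
    change ι' (φ a) = 1 * ι a * 1⁻¹
    rw [h, one_mul, inv_one, mul_one]
  rw [clh, unitsMap_comp, unitsMap_comp, h2]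

theorem clh_subtype (C : CycSub G) [Finite C.1] [IsCyclic C.1] (x : (MonoidAlgebra R C.1)ˣ) :
    clh C.1.subtype x = cl C x := by
  have hr : ∀ y ∈ C.1, (1 : G) * y * 1⁻¹ ∈ (rangeSub C.1.subtype).1 := by
    intro y hy
    refine ⟨⟨y, hy⟩, ?_⟩
    rw [one_mul, inv_one, mul_one]
    rfl
  have h2 : toRange C.1.subtype = conjHom 1 C.1 (rangeSub C.1.subtype).1 hr := by
    apply MonoidHom.ext
    intro a
    apply Subtype.ext
    change (a : G) = 1 * (a : G) * 1⁻¹
    rw [one_mul, inv_one, mul_one]
  have h3 := cl_conj C (rangeSub C.1.subtype) 1 hr x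
  rw [← h2] at h3
  exact h3

end Clh

namespace LogSys

variable {R : Type u} [CommRing R] {A : Type w} [AddCommGroup A] (S : LogSys.{u, v, w} R A)
  {G : Type v} [Group G]

theorem isPrim_map {D D' : Type v} [Group D] [Finite D] [IsCyclic D] [Group D'] [Finite D']
    [IsCyclic D'] (φ : D ≃* D') (hg : S.good (Nat.card D')) {y : (MonoidAlgebra R D)ˣ}
    (hy : S.IsPrim y) : S.IsPrim (unitsMap φ.toMonoidHom y) := by
  intro c hc
  have h1 := S.ell_map D D' φ.toMonoidHom φ.injective (φ.symm c) y hg
  have h0 : φ.toMonoidHom (φ.symm c) = c := φ.apply_symm_apply c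
  rw [h0] at h1
  rw [h1]
  apply hy
  intro htop
  apply hc
  rw [eq_top_iff]
  intro d _
  have h2 : φ.symm d ∈ Subgroup.zpowers (φ.symm c) := by rw [htop]; trivial
  obtain ⟨m, hm⟩ := Subgroup.mem_zpowers_iff.1 h2
  refine Subgroup.mem_zpowers_iff.2 ⟨m, ?_⟩
  apply φ.symm.injective
  rw [map_zpow, hm]

/-- The classes in the colimit represented by primitive units. -/
def PrimSet (G : Type v) [Group G] : Set (ColimU R G) :=
  {z | ∃ (D : CycSub G) (_ : Finite D.1) (_ : IsCyclic D.1) (y : (MonoidAlgebra R D.1)ˣ),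
    S.good (Nat.card D.1) ∧ S.IsPrim y ∧ z = cl D y}

theorem clh_prim {H : Type v} [Group H] [Finite H] [IsCyclic H] (ι : H →* G)
    (hι : Function.Injective ι) (hg : S.good (Nat.card H)) (y : (MonoidAlgebra R H)ˣ)
    (hy : S.IsPrim y) : clh ι y ∈ S.PrimSet G := by
  let e : H ≃* (rangeSub ι).1 := MonoidHom.ofInjective hι
  have he : e.toMonoidHom = toRange ι := rfl
  have i1 := (rangeSub ι).2.1
  have i2 := (rangeSub ι).2.2
  have hc : Nat.card (rangeSub ι).1 = Nat.card H := (Nat.card_congr e.toEquiv).symm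
  refine ⟨rangeSub ι, i1, i2, unitsMap (toRange ι) y, by rwa [hc], ?_, rfl⟩
  rw [← he]
  exact S.isPrim_map e (by rwa [hc]) hy

theorem prim_decomp (N : ℕ) : ∀ (H : Type v) [CommGroup H] [Finite H] [IsCyclic H],
    Nat.card H = N → S.good (Nat.card H) → ∀ ι : H →* G, Function.Injective ι →
    ∀ x : (MonoidAlgebra R H)ˣ, clh ι x ∈ Sat (AddSubgroup.closure (S.PrimSet G)) := by
  induction N using Nat.strong_induction_on with
  | _ N ih =>
    intro H _ _ _ hN hg ι hι x
    have : Fintype H := Fintype.ofFinite H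
    obtain ⟨κ, hκ⟩ := S.exists_prim H hg
    have h1 := S.clh_prim ι hι hg _ (hκ x)
    have h2 : ∀ E ∈ (Finset.univ : Finset (Subgroup H)).erase ⊤,
        clh ι (ir E x) ∈ Sat (AddSubgroup.closure (S.PrimSet G)) := by
      intro E hE
      have hE' : E ≠ ⊤ := (Finset.mem_erase.1 hE).1
      rw [ir, clh_map (ι.comp E.subtype) ι E.subtype (fun a => rfl)]
      refine ih (Nat.card E) ?_ E rfl (S.good_dvd (Subgroup.card_subgroup_dvd_card E) hg) _ ?_ _
      · rw [← hN]
        refine lt_of_le_of_ne (Nat.le_of_dvd Nat.card_pos (Subgroup.card_subgroup_dvd_card E)) ?_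
        intro h
        exact hE' (Subgroup.eq_top_of_card_eq E h)
      · exact hι.comp E.subtype_injective
    have hc : ((Nat.card H : ℕ) : ℤ) ≠ 0 := by exact_mod_cast Nat.card_pos.ne'
    refine Sat_of_smul hc ?_
    have h3 : (Nat.card H : ℤ) • clh ι x = clh ι (x ^ (Nat.card H : ℤ) *
        ∏ E ∈ (Finset.univ : Finset (Subgroup H)).erase ⊤, ir E x ^ (κ E * (Nat.card E : ℤ))) -
        ∑ E ∈ (Finset.univ : Finset (Subgroup H)).erase ⊤,
          (κ E * (Nat.card E : ℤ)) • clh ι (ir E x) := by
      rw [clh_mul, clh_prod, clh_zpow]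
      simp only [clh_zpow]
      abel
    rw [h3]
    refine AddSubgroup.sub_mem _ (mem_Sat (AddSubgroup.subset_closure h1)) ?_
    exact AddSubgroup.sum_mem _ fun E hE => AddSubgroup.zsmul_mem _ (h2 E hE) _

/-- Every class has a nonzero multiple which is a sum of primitive classes. -/
theorem mem_sat (C : CycSub G) (hg : S.good (Nat.card C.1)) (x : (MonoidAlgebra R C.1)ˣ) :
    cl C x ∈ Sat (AddSubgroup.closure (S.PrimSet G)) := by
  have := C.2.1
  have := C.2.2
  let e : ULift.{v} (Multiplicative (ZMod (Nat.card C.1))) ≃* C.1 :=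
    MulEquiv.ulift.trans (zmodCyclicMulEquiv C.2.2)
  have hfin : Finite (ULift.{v} (Multiplicative (ZMod (Nat.card C.1)))) :=
    Finite.of_equiv _ e.toEquiv.symm
  have hcyc : IsCyclic (ULift.{v} (Multiplicative (ZMod (Nat.card C.1)))) :=
    isCyclic_of_surjective e.symm e.symm.surjective
  rw [← clh_subtype, ← clh_map C.1.subtype (C.1.subtype.comp e.toMonoidHom) e.symm.toMonoidHom
    (by
      intro a
      change C.1.subtype (e (e.symm a)) = _
      rw [e.apply_symm_apply])]
  refine S.prim_decomp _ _ rfl ?_ _ (C.1.subtype_injective.comp e.injective) _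
  rw [Nat.card_congr e.toEquiv]
  exact hg

end LogSys

end Pool.Agent.H71.KP

end

section

/-!
# The residue functionals on `Wh` in positive characteristic
-/

set_option autoImplicit false
set_option linter.unusedSectionVars false
set_option linter.unusedSimpArgs false

open Matrix

universe u v w t

namespace Pool.Agent.H71.KP

open Pool.Agent.H71.WH (InvMat K1 K1.mk K1.unit K1Rel genK1 addOne oneByOne CycSub conjHom K1.mk_mul K1.unit_mul)

/-- Residue data for a commutative ring `k`: a lift `A` of `k` with a derivation `θ`, constants `B`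
and a residue `A → B` vanishing on `θ`. -/
structure ResDat (p : ℕ) (k : Type u) [CommRing k] where
  /-- the lift -/
  A : Type u
  instA : CommRing A
  /-- the constants -/
  B : Type u
  instB : CommRing B
  /-- the reduction -/
  π : A →+* k
  surj : Function.Surjective π
  ker : ∀ a, π a = 0 → ∃ b, a = (p : A) * b
  /-- the exponent -/
  n : ℕ
  nilA : (p : A) ^ n = 0
  nilB : ∀ b : B, p ^ n • b = 0
  /-- the derivation -/
  θ : A →+ A
  leib : ∀ a b, θ (a * b) = θ a * b + a * θ b
  /-- the inclusion of the constants -/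
  ι : B →+* A
  θι : ∀ b, θ (ι b) = 0
  /-- the residue -/
  res : A →+ B
  res_θ : ∀ a, res (θ a) = 0
  res_ι : ∀ b a, res (ι b * a) = b * res a

namespace ResDat

variable {p : ℕ} [hp : Fact p.Prime] {k : Type u} [CommRing k] (d : ResDat p k)

instance : CommRing d.A := d.instA
instance : CommRing d.B := d.instB

section Grp

variable {G : Type v} [Group G]

/-- the coefficientwise derivation -/
noncomputable def gD (G : Type v) [Group G] : MonoidAlgebra d.A G →+ MonoidAlgebra d.A G where
  toFun x := MonoidAlgebra.map d.θ x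
  map_zero' := MonoidAlgebra.map_zero _
  map_add' := MonoidAlgebra.map_add _

theorem gD_single (g : G) (a : d.A) :
    d.gD G (MonoidAlgebra.single g a) = MonoidAlgebra.single g (d.θ a) :=
  MonoidAlgebra.map_single _ _ _

/-- the residue of the value of a class function -/
noncomputable def gf (f : G → d.B) : MonoidAlgebra d.A G →+ d.B where
  toFun x := x.coeff.sum fun g a => f g * d.res a
  map_zero' := by simp
  map_add' x y := by
    classical
    rw [MonoidAlgebra.coeff_add, Finsupp.sum_add_index'] <;> simp [mul_add]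

theorem gf_single (f : G → d.B) (g : G) (a : d.A) :
    d.gf f (MonoidAlgebra.single g a) = f g * d.res a := by
  change (MonoidAlgebra.single g a).coeff.sum (fun g a => f g * d.res a) = _
  rw [MonoidAlgebra.coeff_single, Finsupp.sum_single_index (by simp)]

/-- the structure on the group ring -/
noncomputable def grp (f : G → d.B) (hf : ∀ x y, f (x * y) = f (y * x)) :
    DT (MonoidAlgebra d.A G) d.B where
  D := d.gD G
  leib x y := by
    induction x using MonoidAlgebra.induction_linear with
    | zero => simp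
    | add x x' hx hx' => rw [add_mul, map_add, hx, hx', map_add, add_mul, add_mul]; abel
    | single g a =>
      induction y using MonoidAlgebra.induction_linear with
      | zero => simp
      | add y y' hy hy' => rw [mul_add, map_add, hy, hy', map_add, mul_add, mul_add]; abel
      | single h b =>
        rw [MonoidAlgebra.single_mul_single, gD_single, gD_single, gD_single,
          MonoidAlgebra.single_mul_single, MonoidAlgebra.single_mul_single, d.leib,
          MonoidAlgebra.single_add]
  τ := d.gf f
  comm x y := by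
    induction x using MonoidAlgebra.induction_linear with
    | zero => simp
    | add x x' hx hx' => rw [add_mul, map_add, hx, hx', mul_add, map_add]
    | single g a =>
      induction y using MonoidAlgebra.induction_linear with
      | zero => simp
      | add y y' hy hy' => rw [mul_add, map_add, hy, hy', add_mul, map_add]
      | single h b =>
        rw [MonoidAlgebra.single_mul_single, MonoidAlgebra.single_mul_single, gf_single,
          gf_single, hf, mul_comm a b]
  τD x := by
    induction x using MonoidAlgebra.induction_linear with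
    | zero => simp
    | add x x' hx hx' => rw [map_add, map_add, hx, hx', add_zero]
    | single g a => rw [gD_single, gf_single, d.res_θ, mul_zero]

/-- reduction of group rings -/
noncomputable def red (G : Type v) [Group G] : MonoidAlgebra d.A G →+* MonoidAlgebra k G :=
  MonoidAlgebra.mapRingHom G d.π

theorem red_surjective : Function.Surjective (d.red G) := by
  intro x
  induction x using MonoidAlgebra.induction_linear with
  | zero => exact ⟨0, map_zero _⟩
  | add x y hx hy =>
    obtain ⟨x', rfl⟩ := hx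
    obtain ⟨y', rfl⟩ := hy
    exact ⟨x' + y', map_add _ _ _⟩
  | single g a =>
    obtain ⟨a', rfl⟩ := d.surj a
    exact ⟨MonoidAlgebra.single g a', MonoidAlgebra.mapRingHom_single _ _ _⟩

theorem red_ker (x : MonoidAlgebra d.A G) (hx : d.red G x = 0) :
    ∃ y, x = (p : MonoidAlgebra d.A G) * y := by
  classical
  have h1 : ∀ g, d.π (x.coeff g) = 0 := by
    intro g
    have h2 := congrArg (fun z : MonoidAlgebra k G => z.coeff g) hx
    have h3 : (d.red G x).coeff g = d.π (x.coeff g) := MonoidAlgebra.coeff_mapRingHom _ _ _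
    rw [← h3, hx]
    rfl
  choose y hy using fun g => d.ker _ (h1 g)
  refine ⟨MonoidAlgebra.ofCoeff (Finsupp.onFinset x.coeff.support
    (fun c => if x.coeff c = 0 then 0 else y c) ?_), ?_⟩
  · intro c hc
    rw [Finsupp.mem_support_iff]
    intro h0
    exact hc (if_pos h0)
  · rw [← nsmul_eq_mul]
    ext c
    rw [MonoidAlgebra.coeff_smul, Finsupp.smul_apply, MonoidAlgebra.coeff_ofCoeff,
      Finsupp.onFinset_apply, nsmul_eq_mul]
    split_ifs with h0
    · rw [h0, mul_zero]
    · exact hy c

/-- reduction of matrices -/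
noncomputable def redM (G : Type v) [Group G] (n : ℕ) :
    Matrix (Fin n) (Fin n) (MonoidAlgebra d.A G) →+* Matrix (Fin n) (Fin n) (MonoidAlgebra k G) :=
  RingHom.mapMatrix (d.red G)

theorem redM_surjective (n : ℕ) : Function.Surjective (d.redM G n) := by
  intro x
  choose y hy using fun i j => d.red_surjective (x i j)
  exact ⟨Matrix.of y, Matrix.ext fun i j => hy i j⟩

theorem redM_ker {n : ℕ} (x : Matrix (Fin n) (Fin n) (MonoidAlgebra d.A G))
    (hx : d.redM G n x = 0) : ∃ y, x = (p : Matrix (Fin n) (Fin n) (MonoidAlgebra d.A G)) * y := by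
  choose y hy using fun i j => d.red_ker (x i j) (congrFun (congrFun hx i) j)
  refine ⟨Matrix.of y, ?_⟩
  rw [← nsmul_eq_mul]
  refine Matrix.ext fun i j => ?_
  rw [Matrix.smul_apply, nsmul_eq_mul]
  exact hy i j

theorem p_pow_ga : (p : MonoidAlgebra d.A G) ^ d.n = 0 := by
  have h : (p : MonoidAlgebra d.A G) = MonoidAlgebra.singleOneRingHom (p : d.A) :=
    (map_natCast _ _).symm
  rw [h, ← map_pow, d.nilA, map_zero]

theorem p_pow_mat (n : ℕ) : (p : Matrix (Fin n) (Fin n) (MonoidAlgebra d.A G)) ^ d.n = 0 := by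
  have h : (p : Matrix (Fin n) (Fin n) (MonoidAlgebra d.A G)) =
      scalar (Fin n) (p : MonoidAlgebra d.A G) := (map_natCast _ _).symm
  rw [h, ← map_pow, d.p_pow_ga, map_zero]

theorem exists_lift {n : ℕ} (u : (Matrix (Fin n) (Fin n) (MonoidAlgebra k G))ˣ) :
    ∃ x : (Matrix (Fin n) (Fin n) (MonoidAlgebra d.A G))ˣ, mapGL (d.red G) n x = u := by
  refine exists_unit_lift_nil (d.redM G n) (d.redM_surjective n) ?_ u
  intro a ha
  obtain ⟨y, rfl⟩ := d.redM_ker a ha
  refine ⟨d.n, ?_⟩
  rw [(Nat.cast_commute p y).mul_pow, d.p_pow_mat, zero_mul]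

theorem exists_lift_unit (u : (MonoidAlgebra k G)ˣ) :
    ∃ x : (MonoidAlgebra d.A G)ˣ, uMap d.π G x = u := by
  refine exists_unit_lift_nil (d.red G) d.red_surjective ?_ u
  intro a ha
  obtain ⟨y, rfl⟩ := d.red_ker a ha
  refine ⟨d.n, ?_⟩
  rw [(Nat.cast_commute p y).mul_pow, d.p_pow_ga, zero_mul]

end Grp

section Lam

variable {G : Type v} [Group G] (f : G → d.B) (hf : ∀ x y, f (x * y) = f (y * x))

theorem dlog_ker {n : ℕ} (x : (Matrix (Fin n) (Fin n) (MonoidAlgebra d.A G))ˣ)
    (hx : mapGL (d.red G) n x = 1) : ((d.grp f hf).mat (Fin n)).dlog x = 0 := by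
  obtain ⟨y, hy⟩ := d.redM_ker ((x : Matrix (Fin n) (Fin n) (MonoidAlgebra d.A G)) - 1) (by
    rw [map_sub, map_one, sub_eq_zero]
    exact congrArg Units.val hx)
  exact DT.dlog_eq_zero _ d.nilB (d.p_pow_mat n) x y (by rw [← hy, add_sub_cancel])

/-- the functional on invertible matrices -/
noncomputable def lam {n : ℕ} (u : (Matrix (Fin n) (Fin n) (MonoidAlgebra k G))ˣ) : d.B :=
  ((d.grp f hf).mat (Fin n)).dlog (d.exists_lift u).choose

theorem lam_eq {n : ℕ} (x : (Matrix (Fin n) (Fin n) (MonoidAlgebra d.A G))ˣ) :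
    d.lam f hf (mapGL (d.red G) n x) = ((d.grp f hf).mat (Fin n)).dlog x := by
  have h1 := (d.exists_lift (mapGL (d.red G) n x)).choose_spec
  have h2 := d.dlog_ker f hf ((d.exists_lift (mapGL (d.red G) n x)).choose * x⁻¹) (by
    rw [map_mul, h1, map_inv, mul_inv_cancel])
  have h3 := DT.dlog_mul ((d.grp f hf).mat (Fin n))
    ((d.exists_lift (mapGL (d.red G) n x)).choose * x⁻¹) x
  rw [h2, zero_add, inv_mul_cancel_right] at h3
  exact h3

theorem lam_mul {n : ℕ} (u w : (Matrix (Fin n) (Fin n) (MonoidAlgebra k G))ˣ) :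
    d.lam f hf (u * w) = d.lam f hf u + d.lam f hf w := by
  obtain ⟨u, rfl⟩ := d.exists_lift u
  obtain ⟨w, rfl⟩ := d.exists_lift w
  rw [← map_mul, lam_eq, lam_eq, lam_eq, DT.dlog_mul]

theorem lam_addOne {n : ℕ} (u : (Matrix (Fin n) (Fin n) (MonoidAlgebra k G))ˣ) :
    d.lam f hf (addOne u) = d.lam f hf u := by
  obtain ⟨u, rfl⟩ := d.exists_lift u
  rw [← mapGL_addOne, lam_eq, lam_eq, dlog_addOne]

/-- the functional on units of the group ring -/
noncomputable def elp (x : (MonoidAlgebra k G)ˣ) : d.B := d.lam f hf (oneByOne x)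

theorem elp_eq (x : (MonoidAlgebra d.A G)ˣ) :
    d.elp f hf (uMap d.π G x) = (d.grp f hf).dlog x := by
  rw [elp]
  have h1 : oneByOne (uMap d.π G x) = mapGL (d.red G) 1 (oneByOne x) :=
    (mapGL_oneByOne _ x).symm
  rw [h1, lam_eq, dlog_oneByOne]

theorem elp_mul (x y : (MonoidAlgebra k G)ˣ) :
    d.elp f hf (x * y) = d.elp f hf x + d.elp f hf y := by
  obtain ⟨x, rfl⟩ := d.exists_lift_unit x
  obtain ⟨y, rfl⟩ := d.exists_lift_unit y
  rw [← map_mul, elp_eq, elp_eq, elp_eq, DT.dlog_mul]

theorem elp_trivial (x : (MonoidAlgebra k G)ˣ) (hx : x ∈ trivialUnits k G) :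
    d.elp f hf x = 0 := by
  obtain ⟨g, e, he, hx⟩ := hx
  have h1 : ∃ e' : d.A, d.π e' = e ∧ e' * e' = 1 ∧ d.θ e' = 0 := by
    have h0 : d.θ 1 = 0 := by
      rw [← map_one d.ι, d.θι]
    rcases he with rfl | rfl
    · exact ⟨1, map_one _, one_mul _, h0⟩
    · exact ⟨-1, by rw [map_neg, map_one], by ring, by rw [map_neg, h0, neg_zero]⟩
  obtain ⟨e', h2, h3, h4⟩ := h1
  let y : (MonoidAlgebra d.A G)ˣ := ⟨MonoidAlgebra.single g e', MonoidAlgebra.single g⁻¹ e',
    by rw [MonoidAlgebra.single_mul_single, mul_inv_cancel, h3]; rfl,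
    by rw [MonoidAlgebra.single_mul_single, inv_mul_cancel, h3]; rfl⟩
  have h5 : uMap d.π G y = x := by
    apply Units.ext
    rw [hx]
    change MonoidAlgebra.mapRingHom G d.π (MonoidAlgebra.single g e') = _
    rw [MonoidAlgebra.mapRingHom_single, h2]
  rw [← h5, elp_eq, DT.dlog]
  have h6 : (d.grp f hf).D (y : MonoidAlgebra d.A G) = 0 := by
    change d.gD G (MonoidAlgebra.single g e') = 0
    rw [gD_single, h4, MonoidAlgebra.single_zero]
  rw [h6, mul_zero, map_zero]

/-- the functional on the free abelian group -/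
noncomputable def lamFree : FreeAbelianGroup (InvMat (MonoidAlgebra k G)) →+ d.B :=
  FreeAbelianGroup.lift fun a => d.lam f hf a.mat

theorem lamFree_le : K1Rel (MonoidAlgebra k G) ≤ (d.lamFree f hf).ker := by
  rw [K1Rel, AddSubgroup.closure_le]
  rintro z (⟨n, x, y, rfl⟩ | ⟨n, x, rfl⟩)
  · change d.lamFree f hf (genK1 (x * y) - (genK1 x + genK1 y)) = 0
    rw [lamFree, map_sub, map_add, genK1, genK1, genK1, FreeAbelianGroup.lift_apply_of,
      FreeAbelianGroup.lift_apply_of, FreeAbelianGroup.lift_apply_of]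
    exact sub_eq_zero.2 (d.lam_mul f hf x y)
  · change d.lamFree f hf (genK1 (addOne x) - genK1 x) = 0
    rw [lamFree, map_sub, genK1, genK1, FreeAbelianGroup.lift_apply_of,
      FreeAbelianGroup.lift_apply_of]
    exact sub_eq_zero.2 (d.lam_addOne f hf x)

/-- the functional on `K₁` -/
noncomputable def lamK1 : K1 (MonoidAlgebra k G) →+ d.B :=
  QuotientAddGroup.lift (K1Rel _) (d.lamFree f hf) (d.lamFree_le f hf)

theorem lamK1_unit (x : (MonoidAlgebra k G)ˣ) : d.lamK1 f hf (K1.unit x) = d.elp f hf x :=
  FreeAbelianGroup.lift_apply_of _ _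

theorem lamK1_le : trivialK1 k G ≤ (d.lamK1 f hf).ker := by
  rw [trivialK1, AddSubgroup.closure_le]
  rintro z ⟨x, hx, rfl⟩
  change d.lamK1 f hf (K1.unit x) = 0
  rw [lamK1_unit, elp_trivial d f hf x hx]

/-- the functional on `Wh` -/
noncomputable def lamWh : Wh k G →+ d.B :=
  QuotientAddGroup.lift (trivialK1 k G) (d.lamK1 f hf) (d.lamK1_le f hf)

theorem lamWh_unit (x : (MonoidAlgebra k G)ˣ) : d.lamWh f hf (Wh.unit x) = d.elp f hf x :=
  d.lamK1_unit f hf x

end Lam

section Map

variable {G : Type v} [Group G] {H : Type w} [Group H] (ψ : H →* G)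

theorem gD_map (x : MonoidAlgebra d.A H) :
    d.gD G (MonoidAlgebra.mapDomainRingHom d.A ψ x) =
      MonoidAlgebra.mapDomainRingHom d.A ψ (d.gD H x) := by
  induction x using MonoidAlgebra.induction_linear with
  | zero => simp
  | add x y hx hy => rw [map_add, map_add, hx, hy, map_add, map_add]
  | single g a =>
    rw [gD_single]
    change d.gD G (MonoidAlgebra.mapDomain ψ (MonoidAlgebra.single g a)) =
      MonoidAlgebra.mapDomain ψ (MonoidAlgebra.single g (d.θ a))
    rw [MonoidAlgebra.mapDomain_single, MonoidAlgebra.mapDomain_single, gD_single]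

theorem gf_map (f : G → d.B) (x : MonoidAlgebra d.A H) :
    d.gf f (MonoidAlgebra.mapDomainRingHom d.A ψ x) = d.gf (fun h => f (ψ h)) x := by
  induction x using MonoidAlgebra.induction_linear with
  | zero => simp
  | add x y hx hy => rw [map_add, map_add, hx, hy, map_add]
  | single g a =>
    rw [gf_single]
    change d.gf f (MonoidAlgebra.mapDomain ψ (MonoidAlgebra.single g a)) = _
    rw [MonoidAlgebra.mapDomain_single, gf_single]

theorem elp_map (f : G → d.B) (hf : ∀ x y, f (x * y) = f (y * x)) (f' : H → d.B)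
    (hf' : ∀ x y, f' (x * y) = f' (y * x)) (h : ∀ x, f (ψ x) = f' x)
    (x : (MonoidAlgebra k H)ˣ) : d.elp f hf (unitsMap ψ x) = d.elp f' hf' x := by
  obtain ⟨x, rfl⟩ := d.exists_lift_unit x
  rw [← uMap_unitsMap, elp_eq, elp_eq]
  refine dlog_map (d.grp f' hf') (d.grp f hf) (MonoidAlgebra.mapDomainRingHom d.A ψ)
    (AddMonoidHom.id d.B) ?_ ?_ x
  · exact fun x => d.gD_map ψ x
  · intro x
    have h1 : (fun x => f (ψ x)) = f' := funext h
    change d.gf f (MonoidAlgebra.mapDomainRingHom d.A ψ x) = d.gf f' x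
    rw [gf_map, h1]

end Map

end ResDat

end Pool.Agent.H71.KP

end

section

/-!
# Residue data for fields of Laurent series
-/

set_option autoImplicit false
set_option linter.unusedSectionVars false
set_option linter.unusedSimpArgs false

open Matrix HahnSeries
open scoped Classical

universe u v w t

namespace Pool.Agent.H71.KP

section Map

variable {B : Type u} [CommRing B] {F : Type u} [CommRing F] (π : B →+* F)

/-- the coefficientwise map of Laurent series -/
noncomputable def mapL : LaurentSeries B →+* LaurentSeries F where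
  toFun x := HahnSeries.map x π
  map_zero' := by ext; simp
  map_one' := by
    ext a
    rw [HahnSeries.map_coeff, HahnSeries.coeff_one, HahnSeries.coeff_one]
    split_ifs
    · exact map_one π
    · exact map_zero π
  map_add' x y := by ext; simp
  map_mul' x y := HahnSeries.map_mul (π : B →ₙ+* F)

theorem mapL_coeff (x : LaurentSeries B) (a : ℤ) : (mapL π x).coeff a = π (x.coeff a) := rfl

theorem mapL_surjective (h : Function.Surjective π) : Function.Surjective (mapL π) := by
  intro x
  choose g hg using h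
  refine ⟨⟨fun a => if x.coeff a = 0 then 0 else g (x.coeff a), x.isPWO_support.mono ?_⟩, ?_⟩
  · intro a ha hx
    exact ha (if_pos hx)
  · ext a
    rw [mapL_coeff]
    change π (if x.coeff a = 0 then 0 else g (x.coeff a)) = _
    split_ifs with h0
    · rw [map_zero, h0]
    · exact hg _

theorem natCast_mul_coeff (p : ℕ) (x : LaurentSeries B) (a : ℤ) :
    ((p : LaurentSeries B) * x).coeff a = (p : B) * x.coeff a := by
  rw [← nsmul_eq_mul, HahnSeries.coeff_smul, nsmul_eq_mul]

theorem mapL_ker (p : ℕ) (h : ∀ b, π b = 0 → ∃ c, b = (p : B) * c) (x : LaurentSeries B)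
    (hx : mapL π x = 0) : ∃ y, x = (p : LaurentSeries B) * y := by
  have h1 : ∀ a, π (x.coeff a) = 0 := by
    intro a
    rw [← mapL_coeff, hx]
    rfl
  choose g hg using fun a => h _ (h1 a)
  refine ⟨⟨fun a => if x.coeff a = 0 then 0 else g a, x.isPWO_support.mono ?_⟩, ?_⟩
  · intro a ha hx
    exact ha (if_pos hx)
  · ext a
    rw [natCast_mul_coeff]
    change x.coeff a = (p : B) * (if x.coeff a = 0 then 0 else g a)
    split_ifs with h0
    · rw [mul_zero, h0]
    · exact hg a

end Map

section Theta

variable {B : Type u} [CommRing B]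

/-- the derivation `t d/dt` -/
noncomputable def theta (B : Type u) [CommRing B] : LaurentSeries B →+ LaurentSeries B where
  toFun x := ⟨fun a => (a : B) * x.coeff a, x.isPWO_support.mono fun a ha hx => ha (by
    change (a : B) * x.coeff a = 0
    have hx' : x.coeff a = 0 := hx
    rw [hx', mul_zero])⟩
  map_zero' := by
    ext a
    change (a : B) * (0 : LaurentSeries B).coeff a = 0
    rw [HahnSeries.coeff_zero, mul_zero]
  map_add' x y := by
    ext a
    change (a : B) * (x + y).coeff a = (a : B) * x.coeff a + (a : B) * y.coeff a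
    rw [HahnSeries.coeff_add, mul_add]

theorem theta_coeff (x : LaurentSeries B) (a : ℤ) : (theta B x).coeff a = (a : B) * x.coeff a := rfl

theorem theta_support (x : LaurentSeries B) : (theta B x).support ⊆ x.support := by
  intro a ha hx
  apply ha
  change (theta B x).coeff a = 0
  have hx' : x.coeff a = 0 := hx
  rw [theta_coeff, hx', mul_zero]

theorem theta_leib (x y : LaurentSeries B) :
    theta B (x * y) = theta B x * y + x * theta B y := by
  ext a
  rw [theta_coeff, HahnSeries.coeff_add, HahnSeries.coeff_mul,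
    HahnSeries.coeff_mul_left' x.isPWO_support (theta_support x),
    HahnSeries.coeff_mul_right' y.isPWO_support (theta_support y), ← Finset.sum_add_distrib,
    Finset.mul_sum]
  apply Finset.sum_congr rfl
  intro ij hij
  have h1 : ij.1 + ij.2 = a := by
    simp only [Finset.mem_antidiagonal, Finset.mem_addAntidiagonal] at hij
    exact hij.2.2
  rw [theta_coeff, theta_coeff, ← h1]
  push_cast
  ring

theorem theta_C (b : B) : theta B (HahnSeries.C b) = 0 := by
  ext a
  rw [theta_coeff, HahnSeries.coeff_zero, HahnSeries.C_apply, HahnSeries.coeff_single]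
  split_ifs with h
  · rw [h, Int.cast_zero, zero_mul]
  · rw [mul_zero]

end Theta

/-- Residue data for Laurent series. -/
noncomputable def laurDat (p : ℕ) {B : Type u} [CommRing B] {F : Type u} [CommRing F]
    (π : B →+* F) (hs : Function.Surjective π) (hk : ∀ b, π b = 0 → ∃ c, b = (p : B) * c) (n : ℕ)
    (hn : (p : B) ^ n = 0) : ResDat p (LaurentSeries F) where
  A := LaurentSeries B
  instA := inferInstance
  B := B
  instB := inferInstance
  π := mapL π
  surj := mapL_surjective π hs
  ker x hx := mapL_ker π p hk x hx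
  n := n
  nilA := by
    have h : (p : LaurentSeries B) = HahnSeries.C (p : B) := (map_natCast _ _).symm
    rw [h, ← map_pow, hn, map_zero]
  nilB b := by
    rw [nsmul_eq_mul, Nat.cast_pow, hn, zero_mul]
  θ := theta B
  leib := theta_leib
  ι := HahnSeries.C
  θι := theta_C
  res :=
    { toFun := fun x => x.coeff 0
      map_zero' := rfl
      map_add' := fun x y => HahnSeries.coeff_add }
  res_θ x := by
    change (theta B x).coeff 0 = 0
    rw [theta_coeff, Int.cast_zero, zero_mul]
  res_ι b x := by
    change (HahnSeries.C b * x).coeff 0 = b * x.coeff 0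
    rw [HahnSeries.C_mul_eq_smul, HahnSeries.coeff_smul, smul_eq_mul]

/-- the structure on the lift -/
noncomputable def ResDat.base {p : ℕ} {k : Type u} [CommRing k] (d : ResDat p k) : DT d.A d.B where
  D := d.θ
  leib := d.leib
  τ := d.res
  comm x y := by rw [mul_comm]
  τD := d.res_θ

section Value

variable (p : ℕ) [hp : Fact p.Prime] {B : Type u} [CommRing B] {F : Type u} [Field F]
  (π : B →+* F) (hs : Function.Surjective π) (hk : ∀ b, π b = 0 → ∃ c, b = (p : B) * c) (n : ℕ)
  (hn : (p : B) ^ n = 0)

include hs hk hn in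
theorem isUnit_of_map_ne_zero (b : B) (hb : π b ≠ 0) : IsUnit b := by
  obtain ⟨c, hc⟩ := hs (π b)⁻¹
  have h1 : π (b * c - 1) = 0 := by
    rw [map_sub, map_mul, hc, mul_inv_cancel₀ hb, map_one, sub_self]
  obtain ⟨y, hy⟩ := hk _ h1
  have h2 : IsNilpotent (b * c - 1) := ⟨n, by rw [hy, mul_pow, hn, zero_mul]⟩
  have h3 := h2.isUnit_one_add
  rw [add_sub_cancel] at h3
  exact isUnit_of_mul_isUnit_left h3

theorem coeff_ofPS {R : Type u} [CommRing R] (x : PowerSeries R) (a : ℤ) :
    (HahnSeries.ofPowerSeries ℤ R x).coeff a =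
      if a < 0 then 0 else PowerSeries.coeff a.natAbs x := PowerSeries.coeff_coe x a

omit hp in
theorem theta_ofPS (β : PowerSeries B) : theta B (HahnSeries.ofPowerSeries ℤ B β) =
    HahnSeries.ofPowerSeries ℤ B (PowerSeries.mk fun i => (i : B) * PowerSeries.coeff i β) := by
  ext a
  rw [theta_coeff, coeff_ofPS, coeff_ofPS]
  split_ifs with h
  · rw [mul_zero]
  · rw [PowerSeries.coeff_mk]
    congr 1
    have h1 : (a.natAbs : ℤ) = a := by omega
    rw [← Int.cast_natCast, h1]

theorem mapL_ofPowerSeries (β : PowerSeries B) :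
    mapL π (HahnSeries.ofPowerSeries ℤ B β) = HahnSeries.ofPowerSeries ℤ F (β.map π) := by
  ext a
  rw [mapL_coeff, coeff_ofPS, coeff_ofPS]
  split_ifs
  · exact map_zero π
  · rw [PowerSeries.coeff_map]

/-- The logarithmic derivative has residue the valuation. -/
theorem base_dlog (a : (LaurentSeries B)ˣ) :
    (laurDat p π hs hk n hn).base.dlog a = ((mapL π (a : LaurentSeries B)).order : B) := by
  set d := laurDat p π hs hk n hn with hd
  set x : LaurentSeries F := mapL π (a : LaurentSeries B) with hx
  have hx0 : x ≠ 0 := by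
    intro h0
    have h1 : mapL π (a : LaurentSeries B) * mapL π ((a⁻¹ : (LaurentSeries B)ˣ) :
      LaurentSeries B) = 1 := by rw [← map_mul, Units.mul_inv, map_one]
    rw [← hx, h0, zero_mul] at h1
    exact zero_ne_one h1
  set v : ℤ := x.order with hv
  obtain ⟨g, hg⟩ : ∃ g : F → B, ∀ x, π (g x) = x := ⟨fun x => (hs x).choose,
    fun x => (hs x).choose_spec⟩
  let β : PowerSeries B := PowerSeries.mk fun i => g (PowerSeries.coeff i x.powerSeriesPart)
  have hβ : β.map π = x.powerSeriesPart := by
    ext i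
    rw [PowerSeries.coeff_map, PowerSeries.coeff_mk, hg]
  have hβ0 : IsUnit β := by
    rw [PowerSeries.isUnit_iff_constantCoeff]
    apply isUnit_of_map_ne_zero p π hs hk n hn
    rw [← PowerSeries.coeff_zero_eq_constantCoeff_apply, PowerSeries.coeff_mk, hg,
      LaurentSeries.powerSeriesPart_coeff]
    intro h0
    rw [Nat.cast_zero, add_zero] at h0
    exact hx0 (HahnSeries.coeff_order_eq_zero.1 h0)
  let γ : (PowerSeries B)ˣ := hβ0.unit
  have hγ : (γ : PowerSeries B) = β := rfl
  let T : (LaurentSeries B)ˣ := ⟨HahnSeries.single v 1, HahnSeries.single (-v) 1,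
    by rw [HahnSeries.single_mul_single, add_neg_cancel, one_mul]; rfl,
    by rw [HahnSeries.single_mul_single, neg_add_cancel, one_mul]; rfl⟩
  let P : (LaurentSeries B)ˣ := Units.map (HahnSeries.ofPowerSeries ℤ B).toMonoidHom γ
  have hT : mapL π (T : LaurentSeries B) = HahnSeries.single v 1 := by
    ext i
    rw [mapL_coeff]
    change π ((HahnSeries.single v (1 : B)).coeff i) = _
    rw [HahnSeries.coeff_single, HahnSeries.coeff_single]
    split_ifs
    · exact map_one π
    · exact map_zero π
  have hP : mapL π (P : LaurentSeries B) = HahnSeries.ofPowerSeries ℤ F x.powerSeriesPart := by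
    change mapL π (HahnSeries.ofPowerSeries ℤ B β) = _
    rw [mapL_ofPowerSeries, hβ]
  have hTP : mapL π ((T * P : (LaurentSeries B)ˣ) : LaurentSeries B) = x := by
    rw [Units.val_mul, map_mul, hT, hP, hv]
    exact LaurentSeries.single_order_mul_powerSeriesPart x
  have h1 : d.base.dlog (a * (T * P)⁻¹) = 0 := by
    have h2 : mapL π (((a * (T * P)⁻¹ : (LaurentSeries B)ˣ) : LaurentSeries B) - 1) = 0 := by
      have h3 : mapL π ((((T * P)⁻¹ : (LaurentSeries B)ˣ) : LaurentSeries B)) * x = 1 := by
        rw [← hTP, ← map_mul, Units.inv_mul, map_one]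
      rw [map_sub, Units.val_mul, map_mul, ← hx, mul_comm, h3, map_one, sub_self]
    obtain ⟨y, hy⟩ := d.ker _ h2
    exact DT.dlog_eq_zero (p := p) d.base d.nilB d.nilA _ y (by
      rw [← hy]
      exact (add_sub_cancel _ _).symm)
  have h2 : d.base.dlog a = d.base.dlog (T * P) := by
    have h3 := d.base.dlog_mul (a * (T * P)⁻¹) (T * P)
    rw [h1, zero_add] at h3
    rw [← h3]
    congr 1
    exact (inv_mul_cancel_right a (T * P)).symm
  have h3 : d.base.dlog T = (v : B) := by
    change (HahnSeries.single (-v) (1 : B) * theta B (HahnSeries.single v 1)).coeff 0 = _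
    have h4 : theta B (HahnSeries.single v 1) = HahnSeries.single v (v : B) := by
      ext i
      rw [theta_coeff, HahnSeries.coeff_single, HahnSeries.coeff_single]
      split_ifs with h
      · rw [h, mul_one]
      · rw [mul_zero]
    rw [h4, HahnSeries.single_mul_single, neg_add_cancel, one_mul, HahnSeries.coeff_single_same]
  have h4 : d.base.dlog P = 0 := by
    change (((P⁻¹ : (LaurentSeries B)ˣ) : LaurentSeries B) *
      theta B (HahnSeries.ofPowerSeries ℤ B β)).coeff 0 = _
    have h5 : ((P⁻¹ : (LaurentSeries B)ˣ) : LaurentSeries B) =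
        HahnSeries.ofPowerSeries ℤ B ((γ⁻¹ : (PowerSeries B)ˣ) : PowerSeries B) := rfl
    rw [h5, theta_ofPS, ← map_mul, coeff_ofPS, if_neg (lt_irrefl _), Int.natAbs_zero,
      PowerSeries.coeff_zero_eq_constantCoeff_apply, map_mul,
      ← PowerSeries.coeff_zero_eq_constantCoeff_apply (PowerSeries.mk _), PowerSeries.coeff_mk,
      Nat.cast_zero, zero_mul, mul_zero]
    rfl
  have h5 := d.base.dlog_mul T P
  rw [h3, h4, add_zero] at h5
  exact h2.trans h5

end Value

end Pool.Agent.H71.KP

end
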