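import Pool.Agent.H94.FJ.M07

/-! The parts of this file: H95.KF.Win, H95.KF.FinB, H95.KF.PmK, H95.KF.El, H95.KF.Dia, H95.KF.Smi, H95.KF.PushF, H95.KF.Art, H95.KF.FinM. -/

section

/-!
# Project KF, module Win: `K₀(D) → K₀(D[t, t⁻¹])` is onto for a semisimple ring `D`

## Paper proof

This is the proof of `ded_main` in `Pool/Agent/H95/KM/Ded.lean` (sorry-free, commutative Dedekind domains, column
vectors); adapt it (copy that file and change it) to row vectors over the noncommutative ring `D`.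
Changes:
* use row vectors (`v ᵥ* E`), left modules, `LinearMap.toMatrixRight'` / `Matrix.toLinearMapRight'` instead of
  `toMatrix'`; all products of matrices are in the opposite order; `t = T 1` is central in `D[t, t⁻¹]`
  (`LaurentPolynomial.commute_T`), and it is convenient to write `u (n, i) * t ^ n` (right factor) in `dedB`, `dedA`,
  `dedC`, since these maps are then obviously left linear.
* `ded_exists_idem` is replaced by: `D` semisimple, `ι` finite, `L : (ι → D) →ₗ[D] W` linear, then there is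
  `f : Matrix ι ι D` with `f * f = f` and `∀ v, v ᵥ* f = v ↔ L v = 0`: the submodule `ker L` of `ι → D` has a complement
  (`IsSemisimpleModule D (ι → D)`, `ComplementedLattice`, `Submodule.exists_isCompl`), take the projection onto `ker L`
  along the complement (`Submodule.projection`/`Submodule.linearProjOfIsCompl` composed with the inclusion) and its
  matrix.
* `I₀ = Fin N × K`, `I₁ = Fin M × K`.
The idea: `P = {v : K → D[t,t⁻¹] | v E = v}`, for a window `I` of exponents `P_I = {v ∈ P | exponents in I}`;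
`0 → D[t,t⁻¹] ⊗ P_{I'} → D[t,t⁻¹] ⊗ P_I → P → 0` is split exact for `I = [-d, d]`, `I' = [-d, d - 1]`.
-/

set_option autoImplicit false

open Matrix
open scoped LaurentPolynomial

universe u v w

namespace Pool.Agent.H95.KF

open Pool.Agent.H71.FJ Pool.Agent.H95.KM

/-- Every idempotent matrix over `D[t, t⁻¹]` is stably equivalent to a constant one. -/
def StConst (D : Type u) [Ring D] : Prop :=
  ∀ (K : Type w) [Fintype K] [DecidableEq K] (E : Matrix K K D[T;T⁻¹]), E * E = E →
    ∃ (I₀ I₁ : Type w) (_ : Fintype I₀) (_ : Fintype I₁) (_ : DecidableEq I₀) (_ : DecidableEq I₁)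
      (f₀ : Matrix I₀ I₀ D) (f₁ : Matrix I₁ I₁ D), f₀ * f₀ = f₀ ∧ f₁ * f₁ = f₁ ∧
      MatEquiv (fromBlocks E 0 0 (f₁.map (cst D))) (f₀.map (cst D))

section WinWindow

variable {Λ : Type u} [Ring Λ] {K : Type v}

/-- extension by zero of a function on `Fin M × K` -/
private def winExt {M : ℕ} (w : Fin M × K → Λ) (i : K) (n : ℕ) : Λ :=
  if h : n < M then w (⟨n, h⟩, i) else 0

private theorem winExt_of_le {M : ℕ} (w : Fin M × K → Λ) (i : K) {n : ℕ} (h : M ≤ n) :
    winExt w i n = 0 := dif_neg (by omega)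

private theorem winExt_fin {M : ℕ} (w : Fin M × K → Λ) (i : K) (n : Fin M) :
    winExt w i n = w (n, i) := dif_pos n.2

private theorem winExt_add {M : ℕ} (w w' : Fin M × K → Λ) (i : K) (n : ℕ) :
    winExt (w + w') i n = winExt w i n + winExt w' i n := by
  unfold winExt
  split_ifs
  · rfl
  · rw [add_zero]

private theorem winExt_smul {M : ℕ} (c : Λ) (w : Fin M × K → Λ) (i : K) (n : ℕ) :
    winExt (c • w) i n = c * winExt w i n := by
  unfold winExt
  split_ifs
  · rfl
  · rw [mul_zero]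

/-- `v ↦ ∑ vₙ tⁿ` -/
private def winB (N : ℕ) (t : Λ) : (Fin N × K → Λ) →ₗ[Λ] (K → Λ) where
  toFun u i := ∑ n : Fin N, u (n, i) * t ^ (n : ℕ)
  map_add' u u' := by
    funext i
    simp only [Pi.add_apply, add_mul, Finset.sum_add_distrib]
  map_smul' c u := by
    funext i
    simp only [Pi.smul_apply, smul_eq_mul, RingHom.id_apply, Finset.mul_sum, mul_assoc]

private theorem winB_apply (N : ℕ) (t : Λ) (u : Fin N × K → Λ) (i : K) :
    winB N t u i = ∑ n : Fin N, u (n, i) * t ^ (n : ℕ) := rfl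

/-- multiplication by `t - s` -/
private def winA (M : ℕ) (t : Λ) : (Fin M × K → Λ) →ₗ[Λ] (Fin (M + 1) × K → Λ) where
  toFun w p := winExt w p.2 p.1 * t - if (p.1 : ℕ) = 0 then 0 else winExt w p.2 (p.1 - 1)
  map_add' w w' := by
    funext p
    simp only [Pi.add_apply, winExt_add, add_mul]
    split_ifs <;> abel
  map_smul' c w := by
    funext p
    simp only [Pi.smul_apply, winExt_smul, smul_eq_mul, RingHom.id_apply, mul_sub, mul_assoc]
    split_ifs
    · rw [mul_zero]
    · rfl

private theorem winA_apply (M : ℕ) (t : Λ) (w : Fin M × K → Λ) (p : Fin (M + 1) × K) :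
    winA M t w p = winExt w p.2 p.1 * t -
      if (p.1 : ℕ) = 0 then 0 else winExt w p.2 (p.1 - 1) := rfl

/-- division by `t - s` -/
private def winC (M : ℕ) (t : Λ) : (Fin (M + 1) × K → Λ) →ₗ[Λ] (Fin M × K → Λ) where
  toFun u p := -∑ l : Fin (M + 1), if (p.1 : ℕ) < l then u (l, p.2) * t ^ ((l : ℕ) - 1 - p.1) else 0
  map_add' u u' := by
    funext p
    simp only [Pi.add_apply]
    rw [← neg_add, ← Finset.sum_add_distrib]
    congr 1
    exact Finset.sum_congr rfl fun l _ => by
      split_ifs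
      · rw [add_mul]
      · rw [add_zero]
  map_smul' c u := by
    funext p
    simp only [Pi.smul_apply, smul_eq_mul, RingHom.id_apply]
    rw [mul_neg, Finset.mul_sum]
    congr 1
    exact Finset.sum_congr rfl fun l _ => by
      split_ifs
      · rw [mul_assoc]
      · rw [mul_zero]

private theorem winC_ext (M : ℕ) (t : Λ) (u : Fin (M + 1) × K → Λ) (i : K) (m : ℕ) :
    winExt (winC M t u) i m =
      -∑ l : Fin (M + 1), if m < l then u (l, i) * t ^ ((l : ℕ) - 1 - m) else 0 := by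
  unfold winExt
  split_ifs with h
  · rfl
  · rw [eq_comm, neg_eq_zero]
    apply Finset.sum_eq_zero
    intro l _
    rw [if_neg (by omega)]

private theorem win_AC (M : ℕ) (t : Λ) (u : Fin (M + 1) × K → Λ) (p : Fin (M + 1) × K) :
    winA M t (winC M t u) p = u p - if (p.1 : ℕ) = 0 then winB (M + 1) t u p.2 else 0 := by
  obtain ⟨n, i⟩ := p
  rw [winA_apply, winB_apply]
  simp only
  rw [winC_ext, winC_ext]
  by_cases hn : (n : ℕ) = 0
  · rw [if_pos hn, if_pos hn, sub_zero, neg_mul, Finset.sum_mul, eq_sub_iff_add_eq, neg_add_eq_sub,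
      ← Finset.sum_sub_distrib]
    rw [Finset.sum_eq_single n]
    · rw [hn]
      simp
    · intro l _ hl
      have hl' : (n : ℕ) < l := by
        have : (l : ℕ) ≠ n := fun h => hl (Fin.ext h)
        omega
      rw [if_pos hl', sub_eq_zero]
      rw [mul_assoc, ← pow_succ]
      congr 2
      omega
    · intro h
      exact absurd (Finset.mem_univ _) h
  · rw [if_neg hn, if_neg hn, sub_zero, neg_mul, Finset.sum_mul, sub_neg_eq_add, neg_add_eq_sub,
      ← Finset.sum_sub_distrib]
    rw [Finset.sum_eq_single n]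
    · rw [if_neg (lt_irrefl _), if_pos (by omega)]
      simp
    · intro l _ hl
      have hl' : (l : ℕ) ≠ n := fun h => hl (Fin.ext h)
      by_cases h1 : (n : ℕ) < l
      · rw [if_pos h1, if_pos (by omega), sub_eq_zero, mul_assoc, ← pow_succ]
        congr 2
        omega
      · rw [if_neg h1, if_neg (by omega), zero_mul, sub_zero]
    · intro h
      exact absurd (Finset.mem_univ _) h

private theorem win_sum (M : ℕ) (t : Λ) (x y : ℕ → Λ) (hx : x M = 0) :
    ∑ n : Fin (M + 1), (x n - if (n : ℕ) = 0 then 0 else y (n - 1)) * t ^ (n : ℕ) =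
      ∑ n : Fin M, x n * t ^ (n : ℕ) - (∑ n : Fin M, y n * t ^ (n : ℕ)) * t := by
  simp only [sub_mul, Finset.sum_sub_distrib]
  rw [Fin.sum_univ_castSucc, Fin.sum_univ_succ (fun n : Fin (M + 1) =>
    (if (n : ℕ) = 0 then 0 else y (n - 1)) * t ^ (n : ℕ))]
  simp [hx, pow_succ, Finset.sum_mul, mul_assoc]

private theorem win_BA (M : ℕ) (t : Λ) (w : Fin M × K → Λ) : winB (M + 1) t (winA M t w) = 0 := by
  funext i
  rw [winB_apply]
  simp only [winA_apply]
  rw [win_sum M t (fun n => winExt w i n * t) (fun n => winExt w i n)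
    (by rw [winExt_of_le w i le_rfl, zero_mul]), Finset.sum_mul, Pi.zero_apply, sub_eq_zero]
  exact Finset.sum_congr rfl fun n _ => by
    rw [mul_assoc, mul_assoc, ← pow_succ', ← pow_succ]

private theorem win_A_inj (M : ℕ) (t : Λ) (w : Fin M × K → Λ) (h : winA M t w = 0) : w = 0 := by
  have h1 : ∀ i, ∀ j n : ℕ, M ≤ n + j → winExt w i n = 0 := by
    intro i j
    induction j with
    | zero =>
      intro n hn
      exact winExt_of_le w i (by omega)
    | succ j ih =>
      intro n hn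
      by_cases hn' : M ≤ n
      · exact winExt_of_le w i hn'
      · have := congrFun h (⟨n + 1, by omega⟩, i)
        rw [winA_apply] at this
        simp only [Nat.add_eq_zero_iff, one_ne_zero, and_false, if_false, Nat.add_sub_cancel,
          Pi.zero_apply] at this
        rw [ih (n + 1) (by omega), zero_mul, zero_sub, neg_eq_zero] at this
        exact this
  funext p
  rw [← winExt_fin w p.2 p.1]
  exact h1 p.2 M p.1 (by omega)

private theorem win_CA (M : ℕ) (t : Λ) (w : Fin M × K → Λ) : winC M t (winA M t w) = w := by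
  rw [← sub_eq_zero]
  apply win_A_inj M t
  rw [map_sub, sub_eq_zero]
  funext p
  rw [win_AC, win_BA]
  simp

end WinWindow

section WinLau

variable {D : Type u} [Ring D] {K : Type v} [Fintype K]

private theorem win_coeff_mul_cst (a : D) (x : D[T;T⁻¹]) (j : ℤ) :
    (x * cst D a).coeff j = x.coeff j * a := by
  rw [cst_apply]
  exact AddMonoidAlgebra.coeff_mul_single_zero x a j

private theorem win_coeff_mul_T (m : ℤ) (x : D[T;T⁻¹]) (j : ℤ) :
    (x * (LaurentPolynomial.T m : D[T;T⁻¹])).coeff j = x.coeff (j - m) := by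
  rw [← LaurentPolynomial.T_mul]
  unfold LaurentPolynomial.T
  rw [AddMonoidAlgebra.coeff_single_mul_eq_mul_coeff (j - m) (fun a _ => by omega), one_mul]

/-- coefficient vector -/
private def winCf {ι : Type w} (j : ℤ) (u : ι → D[T;T⁻¹]) : ι → D := fun p => (u p).coeff j

/-- `v ↦ ∑ vₙ tⁿ` for constant vectors `vₙ` -/
private noncomputable def winPsi (N : ℕ) (v : Fin N × K → D) : K → D[T;T⁻¹] :=
  winB N (LaurentPolynomial.T 1) (fun p => cst D (v p))

/-- defect -/
private noncomputable def winL (E : Matrix K K D[T;T⁻¹]) (N : ℕ) :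
    (Fin N × K → D) →ₗ[D] (K → D[T;T⁻¹]) where
  toFun v := winPsi N v ᵥ* E - winPsi N v
  map_add' v v' := by
    have h : winPsi N (v + v') = winPsi N v + winPsi N v' := by
      unfold winPsi
      rw [← map_add]
      congr 1
      funext p
      exact map_add _ _ _
    rw [h, add_vecMul]
    abel
  map_smul' c v := by
    have h : winPsi N (c • v) = cst D c • winPsi N v := by
      unfold winPsi
      rw [← map_smul]
      congr 1
      funext p
      exact map_mul _ _ _
    have h2 : ∀ x : K → D[T;T⁻¹], c • x = cst D c • x := by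
      intro x
      funext p
      exact LaurentPolynomial.smul_eq_C_mul c (x p)
    rw [h, smul_vecMul, RingHom.id_apply, h2, smul_sub]

private theorem winL_apply (E : Matrix K K D[T;T⁻¹]) (N : ℕ) (v : Fin N × K → D) :
    winL E N v = winPsi N v ᵥ* E - winPsi N v := rfl

omit [Fintype K] in
private theorem winPsi_A (M : ℕ) (w : Fin M × K → D[T;T⁻¹]) (j : ℤ) :
    winPsi (M + 1) (winCf j (winA M (LaurentPolynomial.T 1) w)) =
      winPsi M (winCf (j - 1) w) - (LaurentPolynomial.T 1 : D[T;T⁻¹]) • winPsi M (winCf j w) := by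
  funext i
  rw [winPsi, winB_apply, Pi.sub_apply, Pi.smul_apply, smul_eq_mul, LaurentPolynomial.T_mul,
    winPsi, winPsi, winB_apply, winB_apply]
  have h1 := win_sum M (LaurentPolynomial.T 1 : D[T;T⁻¹])
    (fun n => cst D ((winExt w i n).coeff (j - 1))) (fun n => cst D ((winExt w i n).coeff j))
    (by simp only [winExt_of_le w i le_rfl]; simp)
  simp only [winExt_fin] at h1
  refine Eq.trans (Finset.sum_congr rfl fun n _ => ?_) h1
  congr 1
  change cst D ((winA M (LaurentPolynomial.T 1) w (n, i)).coeff j) = _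
  rw [winA_apply]
  simp only
  rw [AddMonoidAlgebra.coeff_sub, Finsupp.sub_apply, win_coeff_mul_T, map_sub]
  congr 1
  split_ifs
  · simp
  · rfl

private theorem winL_A (E : Matrix K K D[T;T⁻¹]) (M : ℕ) (w : Fin M × K → D[T;T⁻¹]) (j : ℤ) :
    winL E (M + 1) (winCf j (winA M (LaurentPolynomial.T 1) w)) =
      winL E M (winCf (j - 1) w) -
        (LaurentPolynomial.T 1 : D[T;T⁻¹]) • winL E M (winCf j w) := by
  rw [winL_apply, winL_apply, winL_apply, winPsi_A, sub_vecMul, smul_vecMul, smul_sub]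
  abel

private theorem win_cf_vecMul {ι κ : Type*} [Fintype κ] (f : Matrix κ ι D) (u : κ → D[T;T⁻¹])
    (j : ℤ) : winCf j (u ᵥ* (f.map (cst D))) = winCf j u ᵥ* f := by
  funext p
  simp only [winCf, vecMul, dotProduct, map_apply, AddMonoidAlgebra.coeff_sum,
    Finsupp.finsetSum_apply, win_coeff_mul_cst]

private theorem win_fix_iff {ι : Type w} [Fintype ι] (f : Matrix ι ι D) (u : ι → D[T;T⁻¹]) :
    u ᵥ* (f.map (cst D)) = u ↔ ∀ j, winCf j u ᵥ* f = winCf j u := by
  constructor
  · intro h j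
    rw [← win_cf_vecMul, h]
  · intro h
    funext p
    apply ext_coeff
    intro j
    exact congrFun ((win_cf_vecMul f u j).trans (h j)) p

/-- some bound for the degrees -/
private theorem win_bound {ι : Type w} [Finite ι] (u : ι → D[T;T⁻¹]) :
    ∃ d : ℕ, ∀ p, ∀ j : ℤ, (d : ℤ) < |j| → (u p).coeff j = 0 := by
  have h : ∀ p, ∃ d : ℕ, ∀ j : ℤ, (d : ℤ) < |j| → (u p).coeff j = 0 := by
    intro p
    refine ⟨∑ j ∈ (u p).coeff.support, j.natAbs, fun j hj => ?_⟩
    by_contra hne
    have h1 : j.natAbs ≤ ∑ j ∈ (u p).coeff.support, j.natAbs :=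
      Finset.single_le_sum (f := fun j : ℤ => j.natAbs) (fun _ _ => Nat.zero_le _)
        (Finsupp.mem_support_iff.2 hne)
    rw [Int.abs_eq_natAbs] at hj
    omega
  choose d hd using h
  cases nonempty_fintype ι
  refine ⟨∑ p, d p, fun p j hj => hd p j ?_⟩
  have h1 : d p ≤ ∑ p, d p := Finset.single_le_sum (fun _ _ => Nat.zero_le _) (Finset.mem_univ p)
  omega

/-- the key point: division by `t - s` stays in the module -/
private theorem win_good (E : Matrix K K D[T;T⁻¹]) (M : ℕ) (w : Fin M × K → D[T;T⁻¹])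
    (h : ∀ j, winL E (M + 1) (winCf j (winA M (LaurentPolynomial.T 1) w)) = 0) (j : ℤ) :
    winL E M (winCf j w) = 0 := by
  obtain ⟨d, hd⟩ := win_bound w
  have h1 : ∀ j : ℤ, (d : ℤ) < j → winL E M (winCf j w) = 0 := by
    intro j hj
    have h2 : winCf j w = 0 := by
      funext p
      exact hd p j (lt_of_lt_of_le hj (le_abs_self j))
    rw [h2, map_zero]
  have h2 : ∀ n : ℕ, ∀ j : ℤ, (d : ℤ) < j + n → winL E M (winCf j w) = 0 := by
    intro n
    induction n with
    | zero =>
      intro j hj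
      exact h1 j (by simpa using hj)
    | succ n ih =>
      intro j hj
      have h3 := h (j + 1)
      rw [winL_A, ih (j + 1) (by push_cast at hj; omega), smul_zero, sub_zero,
        add_sub_cancel_right] at h3
      exact h3
  exact h2 (d + j.natAbs + 1) j (by omega)

end WinLau

/-- The kernel of a linear map from a finite free module over a semisimple ring is the image of
an idempotent matrix. -/
private theorem win_exists_idem (D : Type u) [Ring D] [IsSemisimpleRing D] {ι : Type v}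
    [Fintype ι] [DecidableEq ι] {W : Type w} [AddCommGroup W] [Module D W]
    (L : (ι → D) →ₗ[D] W) :
    ∃ f : Matrix ι ι D, f * f = f ∧ ∀ v, v ᵥ* f = v ↔ L v = 0 := by
  obtain ⟨q, hq⟩ := exists_isCompl (LinearMap.ker L)
  set g : (ι → D) →ₗ[D] (ι → D) := (LinearMap.ker L).subtype ∘ₗ
    (Submodule.projectionOnto (LinearMap.ker L) q hq) with hg
  have h1 : ∀ v, L (g v) = 0 := fun v =>
    (Submodule.projectionOnto (LinearMap.ker L) q hq v).2
  have h3 : ∀ v, L v = 0 → g v = v := by
    intro v hv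
    have h4 := Submodule.projectionOnto_apply_left hq ⟨v, hv⟩
    exact congrArg Subtype.val h4
  have h5 : ∀ v, v ᵥ* LinearMap.toMatrixRight' g = g v := by
    intro v
    rw [← Matrix.toLinearMapRight'_apply]
    exact LinearMap.congr_fun (LinearEquiv.symm_apply_apply LinearMap.toMatrixRight' g) v
  refine ⟨LinearMap.toMatrixRight' g, ?_, ?_⟩
  · apply Matrix.ext_of_single_vecMul
    intro i
    rw [← vecMul_vecMul, h5, h5]
    exact h3 _ (h1 _)
  · intro v
    rw [h5]
    constructor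
    · intro h
      rw [← h]
      exact h1 v
    · exact h3 v

section WinMain

variable {D : Type u} [Ring D] {K : Type v} [Fintype K] [DecidableEq K]

omit [Fintype K] [DecidableEq K] in
private theorem win_matrix_map_row {ι κ : Type*} [Fintype κ] [DecidableEq κ] (f : Matrix κ ι D)
    (c : κ) : Pi.single c 1 ᵥ* (f.map (cst D)) = fun p => cst D ((Pi.single c 1 ᵥ* f) p) := by
  rw [single_one_vecMul, single_one_vecMul]
  rfl

private theorem win_main [IsSemisimpleRing D] (E : Matrix K K D[T;T⁻¹]) (hE : E * E = E) :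
    ∃ (N M : ℕ) (f₀ : Matrix (Fin N × K) (Fin N × K) D) (f₁ : Matrix (Fin M × K) (Fin M × K) D),
      f₀ * f₀ = f₀ ∧ f₁ * f₁ = f₁ ∧
      MatEquiv (fromBlocks E 0 0 (f₁.map (cst D))) (f₀.map (cst D)) := by
  obtain ⟨d, hd⟩ := win_bound (fun p : K × K => E p.1 p.2)
  obtain ⟨f₀, hf₀, hf₀'⟩ := win_exists_idem D (winL E (2 * d + 1))
  obtain ⟨f₁, hf₁, hf₁'⟩ := win_exists_idem D (winL E (2 * d))
  refine ⟨2 * d + 1, 2 * d, f₀, f₁, hf₀, hf₁, ?_⟩
  set F0 := f₀.map (cst D) with hF0
  set F1 := f₁.map (cst D) with hF1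
  have hF0F0 : F0 * F0 = F0 := by rw [hF0, ← Matrix.map_mul, hf₀]
  have hF1F1 : F1 * F1 = F1 := by rw [hF1, ← Matrix.map_mul, hf₁]
  have fix0 : ∀ u, u ᵥ* F0 = u ↔ ∀ j, winL E (2 * d + 1) (winCf j u) = 0 := by
    intro u
    rw [hF0, win_fix_iff]
    exact forall_congr' fun j => hf₀' _
  have fix1 : ∀ u, u ᵥ* F1 = u ↔ ∀ j, winL E (2 * d) (winCf j u) = 0 := by
    intro u
    rw [hF1, win_fix_iff]
    exact forall_congr' fun j => hf₁' _
  set t : D[T;T⁻¹] := LaurentPolynomial.T 1 with ht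
  set B := LinearMap.toMatrixRight' (winB (K := K) (2 * d + 1) t) with hB
  set A := LinearMap.toMatrixRight' (winA (K := K) (2 * d) t) with hA
  set C := LinearMap.toMatrixRight' (winC (K := K) (2 * d) t) with hC
  have hBv : ∀ u, u ᵥ* B = winB (2 * d + 1) t u := fun u =>
    LinearMap.congr_fun (LinearEquiv.symm_apply_apply LinearMap.toMatrixRight' _) u
  have hAv : ∀ u, u ᵥ* A = winA (2 * d) t u := fun u =>
    LinearMap.congr_fun (LinearEquiv.symm_apply_apply LinearMap.toMatrixRight' _) u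
  have hCv : ∀ u, u ᵥ* C = winC (2 * d) t u := fun u =>
    LinearMap.congr_fun (LinearEquiv.symm_apply_apply LinearMap.toMatrixRight' _) u
  have hBA : A * B = 0 := by
    apply Matrix.ext_of_single_vecMul
    intro i
    rw [← vecMul_vecMul, hAv, hBv, win_BA, vecMul_zero]
  have hCA : A * C = 1 := by
    apply Matrix.ext_of_single_vecMul
    intro i
    rw [← vecMul_vecMul, hAv, hCv, win_CA, vecMul_one]
  have hAC : ∀ u, u ᵥ* B = 0 → (u ᵥ* C) ᵥ* A = u := by
    intro u hu
    rw [hBv] at hu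
    rw [hCv, hAv]
    funext p
    rw [win_AC, hu]
    simp
  -- the section
  let c : K → Fin (2 * d + 1) × K → D := fun j p => (E j p.2).coeff ((p.1 : ℤ) - d)
  let s : Matrix K (Fin (2 * d + 1) × K) D[T;T⁻¹] :=
    Matrix.of fun j p => cst D (c j p) * LaurentPolynomial.T (-(d : ℤ))
  have hs : ∀ j, Pi.single j 1 ᵥ* s = fun p => cst D (c j p) * LaurentPolynomial.T (-(d : ℤ)) := by
    intro j
    rw [single_one_vecMul]
    rfl
  have key : ∀ j, winB (2 * d + 1) t (fun p => cst D (c j p) * LaurentPolynomial.T (-(d : ℤ))) =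
      fun i => E j i := by
    intro j
    funext i
    rw [winB_apply]
    apply ext_coeff
    intro m
    rw [AddMonoidAlgebra.coeff_sum, Finsupp.finsetSum_apply]
    simp only [ht, LaurentPolynomial.T_pow, win_coeff_mul_T, c]
    have h1 : ∀ (x : D) (k : ℤ), (cst D x).coeff k = if k = 0 then x else 0 := fun x k =>
      LaurentPolynomial.C_apply x k
    simp only [h1]
    by_cases hm : (d : ℤ) < |m|
    · rw [hd (j, i) m hm]
      apply Finset.sum_eq_zero
      intro n _
      rw [if_neg]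
      rw [Int.abs_eq_natAbs] at hm
      have := n.2
      omega
    · rw [Int.abs_eq_natAbs] at hm
      rw [Finset.sum_eq_single (⟨(m + d).toNat, by omega⟩ : Fin (2 * d + 1))]
      · simp only
        rw [if_pos (by omega), Int.toNat_of_nonneg (by omega), add_sub_cancel_right]
      · intro n _ hn
        rw [if_neg]
        intro h2
        apply hn
        apply Fin.ext
        simp only
        omega
      · intro h
        exact absurd (Finset.mem_univ _) h
  have hBs : s * B = E := by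
    apply Matrix.ext_of_single_vecMul
    intro j
    rw [← vecMul_vecMul, hs, hBv, key, single_one_vecMul]
    rfl
  have hF0s : s * F0 = s := by
    apply Matrix.ext_of_single_vecMul
    intro j
    rw [← vecMul_vecMul, fix0, hs]
    intro l
    by_cases hl : l = -(d : ℤ)
    · have h1 : winCf l (fun p => cst D (c j p) * LaurentPolynomial.T (-(d : ℤ))) = c j := by
        funext p
        change (cst D (c j p) * LaurentPolynomial.T (-(d : ℤ))).coeff l = _
        rw [win_coeff_mul_T, hl, sub_self]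
        exact (LaurentPolynomial.C_apply (c j p) 0).trans (if_pos rfl)
      have h2 : winPsi (2 * d + 1) (c j) = (LaurentPolynomial.T d : D[T;T⁻¹]) • fun i => E j i := by
        rw [← key, ← map_smul, winPsi]
        congr 1
        funext p
        rw [Pi.smul_apply, smul_eq_mul, LaurentPolynomial.T_mul, mul_assoc,
          ← LaurentPolynomial.T_add, neg_add_cancel, LaurentPolynomial.T_zero, mul_one]
      rw [h1, winL_apply, h2, smul_vecMul, ← smul_sub]
      have h3 : (fun i => E j i) ᵥ* E = fun i => E j i := by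
        conv_rhs => rw [← hE]
        rfl
      rw [h3, sub_self, smul_zero]
    · have h1 : winCf l (fun p => cst D (c j p) * LaurentPolynomial.T (-(d : ℤ))) = 0 := by
        funext p
        change (cst D (c j p) * LaurentPolynomial.T (-(d : ℤ))).coeff l = _
        rw [win_coeff_mul_T]
        exact (LaurentPolynomial.C_apply (c j p) _).trans (if_neg (by omega))
      rw [h1, map_zero]
  have hEB : F0 * B * E = F0 * B := by
    apply Matrix.ext_of_single_vecMul
    intro i
    rw [← vecMul_vecMul, ← vecMul_vecMul, hF0, win_matrix_map_row, hBv]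
    have h1 : (Pi.single i 1 ᵥ* f₀) ᵥ* f₀ = Pi.single i 1 ᵥ* f₀ := by rw [vecMul_vecMul, hf₀]
    have h2 := (hf₀' _).1 h1
    rw [winL_apply, sub_eq_zero] at h2
    exact h2
  have hFA : F1 * A * F0 = F1 * A := by
    apply Matrix.ext_of_single_vecMul
    intro i
    rw [← vecMul_vecMul, ← vecMul_vecMul]
    rw [fix0]
    have h1 : (Pi.single i 1 ᵥ* F1) ᵥ* F1 = Pi.single i 1 ᵥ* F1 := by rw [vecMul_vecMul, hF1F1]
    have h2 := (fix1 _).1 h1
    intro j
    rw [hAv, winL_A, h2, h2, smul_zero, sub_zero]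
  set q := F0 * B * s with hq
  have hBZ : (F0 - q) * B = 0 := by
    rw [hq, Matrix.sub_mul, Matrix.mul_assoc (F0 * B), hBs, hEB, sub_self]
  have hFZ : (F0 - q) * F0 = F0 - q := by
    rw [hq, Matrix.sub_mul, Matrix.mul_assoc (F0 * B), hF0s, hF0F0]
  have hFC : (F0 - q) * C * F1 = (F0 - q) * C := by
    apply Matrix.ext_of_single_vecMul
    intro i
    rw [← vecMul_vecMul, ← vecMul_vecMul, fix1]
    apply win_good
    rw [← ht, ← hAv, hAC _ (by rw [vecMul_vecMul, hBZ, vecMul_zero]), ← fix0, vecMul_vecMul, hFZ]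
  have hACZ : (F0 - q) * C * A = F0 - q := by
    apply Matrix.ext_of_single_vecMul
    intro i
    rw [← vecMul_vecMul, ← vecMul_vecMul]
    exact hAC _ (by rw [vecMul_vecMul, hBZ, vecMul_zero])
  have e1 : E * s * (F0 * B) = E := by
    rw [← Matrix.mul_assoc, Matrix.mul_assoc E, hF0s, Matrix.mul_assoc, hBs, hE]
  have e2 : E * s * ((F0 - q) * C * F1) = 0 := by
    have h1 : E * s * (F0 - q) = 0 := by
      rw [Matrix.mul_sub, Matrix.mul_assoc E s F0, hF0s, hq, ← Matrix.mul_assoc,
        e1, sub_self]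
    rw [Matrix.mul_assoc (F0 - q) C F1, ← Matrix.mul_assoc, h1, Matrix.zero_mul]
  have e3 : F1 * A * (F0 * B) = 0 := by
    rw [← Matrix.mul_assoc, hFA, Matrix.mul_assoc, hBA, Matrix.mul_zero]
  have e4 : F1 * A * ((F0 - q) * C * F1) = F1 := by
    have h1 : F1 * A * (F0 - q) = F1 * A := by
      rw [Matrix.mul_sub, hFA, hq, ← Matrix.mul_assoc, e3, Matrix.zero_mul, sub_zero]
    rw [Matrix.mul_assoc (F0 - q) C F1, ← Matrix.mul_assoc, h1, ← Matrix.mul_assoc,
      Matrix.mul_assoc F1 A C, hCA, Matrix.mul_one, hF1F1]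
  have e5 : F0 * B * (E * s) = q := by
    rw [← Matrix.mul_assoc, hEB]
  have e6 : (F0 - q) * C * F1 * (F1 * A) = F0 - q := by
    rw [← Matrix.mul_assoc, Matrix.mul_assoc _ F1 F1, hF1F1, hFC, hACZ]
  refine ⟨fromRows (E * s) (F1 * A), fromCols (F0 * B) ((F0 - q) * C * F1), ?_, ?_⟩
  · rw [fromRows_mul_fromCols, e1, e2, e3, e4]
  · rw [fromCols_mul_fromRows, e5, e6]
    abel

end WinMain

theorem stConst_semisimple (D : Type u) [Ring D] [IsSemisimpleRing D] : StConst.{u, w} D := by
  intro K _ _ E hE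
  obtain ⟨N, M, f₀, f₁, h₀, h₁, h⟩ := win_main E hE
  exact ⟨Fin N × K, Fin M × K, inferInstance, inferInstance, inferInstance, inferInstance, f₀, f₁,
    h₀, h₁, h⟩

end Pool.Agent.H95.KF

end

section

/-!
# Project KF, module FinB: stably constant idempotent matrices over finite rings

## Paper proofs

`stConst_of_nilKer`: let `E` be an idempotent matrix over `B[t, t⁻¹]`. `E.map (lau φ)` is idempotent over
`D[t, t⁻¹]`, so `h` gives idempotent `f₀, f₁` over `D` with
`MatEquiv (fromBlocks (E.map (lau φ)) 0 0 (f₁.map cst)) (f₀.map cst)`. Lift `f₀, f₁` to idempotent matrices `F₀, F₁` over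
`B` (`exists_lift_idem` in `Pool/Agent/H71/FJ/Nil.lean`). Then the matrices `fromBlocks E 0 0 (F₁.map cst)` and
`F₀.map cst` become equivalent under `lau φ` (`lau_cst`, `Matrix.fromBlocks_map`), and `matEquiv_of_map`
with `nilKer_lau` and `lau_surjective` (`Pool/Agent/H95/KM/Lau.lean`) gives the equivalence over `B[t, t⁻¹]`.

`exists_semisimple`: `D = B ⧸ Ring.jacobson B` (two-sided ideal), `φ` the quotient map. `B` Artinian implies
`IsSemiprimaryRing B` (instance in `Mathlib/RingTheory/Artinian/Module.lean`): `D` is semisimple and the Jacobson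
radical `J` is nilpotent, `J ^ N = 0`. `NilKer φ`: `J_j :=` the additive group of `Ring.jacobson B ^ j`:
`J_0 = ⊤`, `J_N = 0`, and `x ∈ J`, `y ∈ J ^ j` implies `x y ∈ J ^ (j + 1)` (`Ideal.mul_mem_mul`, `pow_succ'`).
-/

set_option autoImplicit false

open Matrix
open scoped LaurentPolynomial

universe u v w

namespace Pool.Agent.H95.KF

open Pool.Agent.H71.FJ Pool.Agent.H95.KM

theorem stConst_of_nilKer {B : Type u} [Ring B] {D : Type v} [Ring D] (φ : B →+* D)
    (hφ : Function.Surjective φ) (hn : NilKer φ) (h : StConst.{v, w} D) :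
    StConst.{u, w} B := by
  intro K _ _ E hE
  obtain ⟨I₀, I₁, i1, i2, i3, i4, f₀, f₁, hf₀, hf₁, heq⟩ :=
    h K (E.map (lau φ)) (by rw [← Matrix.map_mul, hE])
  obtain ⟨F₀, hF₀, rfl⟩ := exists_lift_idem hφ hn f₀ hf₀
  obtain ⟨F₁, hF₁, rfl⟩ := exists_lift_idem hφ hn f₁ hf₁
  refine ⟨I₀, I₁, i1, i2, i3, i4, F₀, F₁, hF₀, hF₁, ?_⟩
  have hc : ∀ (I : Type w) (F : Matrix I I B),
      (F.map (cst B)).map (lau φ) = (F.map φ).map (cst D) := by
    intro I F
    refine Matrix.ext (fun i j => ?_)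
    exact RingHom.congr_fun (lau_cst φ) (F i j)
  have hE1 : (F₁.map (cst B)) * (F₁.map (cst B)) = F₁.map (cst B) := by
    rw [← Matrix.map_mul, hF₁]
  have hE0 : (F₀.map (cst B)) * (F₀.map (cst B)) = F₀.map (cst B) := by
    rw [← Matrix.map_mul, hF₀]
  apply matEquiv_of_map (lau_surjective hφ) (nilKer_lau hn) _ hE0 _
  · rw [fromBlocks_multiply, hE, hE1]
    simp
  · rw [fromBlocks_map, hc, hc]
    rw [Matrix.map_zero _ (map_zero (lau φ)), Matrix.map_zero _ (map_zero (lau φ))]
    exact heq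

theorem exists_semisimple (B : Type u) [Ring B] [IsArtinianRing B] :
    ∃ (D : Type u) (_ : Ring D) (φ : B →+* D), IsSemisimpleRing D ∧ Function.Surjective φ ∧
      NilKer φ := by
  have hsp : IsSemiprimaryRing B := inferInstance
  obtain ⟨N, hN⟩ := hsp.isNilpotent
  refine ⟨B ⧸ Ring.jacobson B, inferInstance, Ideal.Quotient.mk (Ring.jacobson B),
    hsp.isSemisimpleRing, Ideal.Quotient.mk_surjective, N,
    fun j => (Ring.jacobson B ^ j : Ideal B).toAddSubgroup, ?_, ?_, ?_⟩
  · intro x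
    rw [Submodule.mem_toAddSubgroup, Submodule.pow_zero, Ideal.one_eq_top]
    exact Submodule.mem_top
  · intro x hx
    rw [Submodule.mem_toAddSubgroup, hN] at hx
    exact hx
  · intro j x y hx hy
    rw [Submodule.mem_toAddSubgroup] at hy ⊢
    rw [Ideal.IsTwoSided.pow_succ]
    exact Ideal.mul_mem_mul (Ideal.Quotient.eq_zero_iff_mem.1 hx) hy

theorem stConst_finite (B : Type u) [Ring B] [Finite B] : StConst.{u, w} B := by
  obtain ⟨D, _, φ, h1, h2, h3⟩ := exists_semisimple B
  exact stConst_of_nilKer φ h2 h3 (stConst_semisimple D)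

end Pool.Agent.H95.KF

end

section

/-!
# Project KF, module PmK: the class of `pmat` over `R[t, t⁻¹]` is constant

## Paper proofs

`IsQuo.lau`: coefficientwise (`lau_coeff`, `lau_surjective`; if `lau π x = 0` then every coefficient is divisible
by `ℓ`; choose the quotients, `0` for the zero coefficients, as in `exists_lau`: `KM.exists_lau`).
`lau_torsion`: coefficientwise.

`pmat_const`. Put `A = R[t, t⁻¹]`, `B' = B[t, t⁻¹]`, `λ = lau π : A → B'` (`IsQuo ℓ λ`, surjective). `ē := e.map λ` is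
idempotent (`ℓ δ ↦ 0`). `stConst_finite B` (reindexing is not needed, it is universe polymorphic) gives idempotent
matrices `f̄₀, f̄₁` over `B` and `x̄, ȳ` over `B'` with `x̄ ȳ = fromBlocks ē 0 0 (f̄₁.map cst)`, `ȳ x̄ = f̄₀.map cst`.
Lift entrywise `f̄ᵢ` to matrices `fᵢ` over `R` and `x̄, ȳ` to `x, y` over `A` (surjectivity). As the kernels are
`ℓ R` and `ℓ A`: `fᵢ - fᵢ fᵢ = ℓ δᵢ` for matrices `δᵢ` over `R`, and with `e' := fromBlocks e 0 0 (f₁.map cst)`:
`MCong ℓ (x y) e'`, `MCong ℓ (y x) (f₀.map cst)`, `MCong ℓ (e' e') e'`, `MCong ℓ (f₀ᶜ f₀ᶜ) f₀ᶜ`.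
`kerE_congr` and `kerE_blocks` (module Sch):
`(K(e) × K(f₁ᶜ)) × A^{I₀} ≃ K(e') × A^{I₀} ≃ K(f₀ᶜ) × A^{ι ⊕ I₁}`.
By `rep_pmat`, `Rep.prod`, `rep_one`, `Rep.matEquiv` (modules Pm, Rep):
`fromBlocks (fromBlocks (pmat ℓ e δ) 0 0 (pmat ℓ f₁ᶜ δ₁ᶜ)) 0 0 1` and `fromBlocks (pmat ℓ f₀ᶜ δ₀ᶜ) 0 0 1` are `MatEquiv`, so in
`K0 A` (`K0.cls_fromBlocks`, `K0.cls_congr`): `[pmat e] + [pmat f₁ᶜ] + [1] = [pmat f₀ᶜ] + [1]`.
`pmat ℓ fᵢᶜ δᵢᶜ = (pmat ℓ fᵢ δᵢ).map cst` (`pmat_map`) and `1 = 1.map cst`, so all classes other than `[pmat e]` are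
in the range of `K0.map cst` (`K0.map_cls`; `pmat ℓ fᵢ δᵢ` is idempotent over `R` by `(rep_pmat ..).idem` over `R`).
-/

set_option autoImplicit false

open Matrix
open scoped LaurentPolynomial

universe u v w

namespace Pool.Agent.H95.KF

open Pool.Agent.H71.FJ Pool.Agent.H95.KM

/-- `B` is the quotient of `R` by the (central) element `ℓ`. -/
def IsQuo (ℓ : ℕ) {R : Type u} [Ring R] {B : Type w} [Ring B] (π : R →+* B) : Prop :=
  Function.Surjective π ∧ ∀ x, π x = 0 ↔ ∃ y, x = (ℓ : ℤ) • y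

private theorem pmk_smul_coeff {R : Type u} [Ring R] (ℓ : ℕ) (x : R[T;T⁻¹]) (k : ℤ) :
    ((ℓ : ℤ) • x).coeff k = (ℓ : ℤ) • x.coeff k := by
  rw [AddMonoidAlgebra.coeff_smul, Finsupp.smul_apply]

theorem IsQuo.lau {ℓ : ℕ} {R : Type u} [Ring R] {B : Type w} [Ring B] {π : R →+* B}
    (h : IsQuo ℓ π) : IsQuo ℓ (KM.lau π) := by
  classical
  refine ⟨lau_surjective h.1, fun x => ⟨fun hx => ?_, ?_⟩⟩
  · have h1 : ∀ k, ∃ y, x.coeff k = (ℓ : ℤ) • y := by
      intro k
      rw [← h.2, ← lau_coeff, hx, AddMonoidAlgebra.coeff_zero, Finsupp.zero_apply]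
    choose g hg using h1
    refine ⟨∑ k ∈ x.coeff.support, AddMonoidAlgebra.single k (g k), ?_⟩
    apply ext_coeff
    intro k
    rw [pmk_smul_coeff, AddMonoidAlgebra.coeff_sum, Finsupp.finsetSum_apply]
    simp only [AddMonoidAlgebra.coeff_single, Finsupp.single_apply]
    rw [Finset.sum_ite_eq' x.coeff.support k]
    split_ifs with hk
    · exact hg k
    · rw [smul_zero]
      exact Finsupp.notMem_support_iff.1 hk
  · rintro ⟨y, rfl⟩
    apply ext_coeff
    intro k
    rw [lau_coeff, pmk_smul_coeff, AddMonoidAlgebra.coeff_zero, Finsupp.zero_apply]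
    exact (h.2 _).2 ⟨_, rfl⟩

theorem lau_torsion {ℓ : ℕ} {R : Type u} [Ring R] (hℓ : ∀ x : R, (ℓ : ℤ) • x = 0 → x = 0) :
    ∀ x : R[T;T⁻¹], (ℓ : ℤ) • x = 0 → x = 0 := by
  intro x hx
  apply ext_coeff
  intro k
  rw [AddMonoidAlgebra.coeff_zero, Finsupp.zero_apply]
  apply hℓ
  rw [← pmk_smul_coeff, hx, AddMonoidAlgebra.coeff_zero, Finsupp.zero_apply]

private theorem pmk_lift {A : Type u} [Ring A] {B : Type w} [Ring B] {f : A →+* B}
    (hf : Function.Surjective f) {m n : Type*} (X : Matrix m n B) :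
    ∃ Y : Matrix m n A, Y.map f = X := by
  choose g hg using hf
  refine ⟨X.map g, ?_⟩
  ext i j
  exact hg _

private theorem pmk_cong {ℓ : ℕ} {A : Type u} [Ring A] {B : Type w} [Ring B] {f : A →+* B}
    (hf : IsQuo ℓ f) {m n : Type*} {X Y : Matrix m n A} (h : X.map f = Y.map f) :
    MCong ℓ X Y := by
  have h1 : ∀ i j, ∃ z, X i j - Y i j = (ℓ : ℤ) • z := by
    intro i j
    rw [← hf.2, map_sub, sub_eq_zero]
    exact congrFun (congrFun h i) j
  choose Z hZ using h1
  refine ⟨Z, ?_⟩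
  ext i j
  exact hZ i j

private theorem pmk_cls_eq {A : Type u} [Ring A] {ι : Type*} [Fintype ι] [DecidableEq ι]
    {e f : Matrix ι ι A} (he : e * e = e) (hf : f * f = f) (h : e = f) :
    K0.cls e he = K0.cls f hf := by
  subst h
  rfl

private theorem pmk_one_idem {A : Type u} [Ring A] (ι : Type*) [Fintype ι] [DecidableEq ι] :
    (1 : Matrix ι ι A) * 1 = 1 := one_mul 1

private theorem pmk_cls_one {A : Type u} [Ring A] {B : Type w} [Ring B] (f : A →+* B)
    (ι : Type*) [Fintype ι] [DecidableEq ι] :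
    K0.map f (K0.cls (1 : Matrix ι ι A) (pmk_one_idem ι)) =
      K0.cls (1 : Matrix ι ι B) (pmk_one_idem ι) := by
  rw [K0.map_cls]
  exact pmk_cls_eq _ _ (Matrix.map_one f (map_zero f) (map_one f))

private theorem pmk_pmat {R : Type u} [Ring R] (ℓ : ℕ)
    {ι : Type v} [Fintype ι] [DecidableEq ι] (f δ : Matrix ι ι R)
    (hf : pmat ℓ f δ * pmat ℓ f δ = pmat ℓ f δ)
    (hf' : pmat ℓ (f.map (cst R)) (δ.map (cst R)) * pmat ℓ (f.map (cst R)) (δ.map (cst R)) =
      pmat ℓ (f.map (cst R)) (δ.map (cst R))) :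
    K0.cls _ hf' = K0.map (cst R) (K0.cls _ hf) := by
  rw [K0.map_cls]
  exact pmk_cls_eq _ _ (pmat_map (cst R) ℓ f δ).symm

private theorem pmk_cst {R : Type u} [Ring R] (ℓ : ℕ)
    {ι : Type v} [Fintype ι] (f δ : Matrix ι ι R) (h : f - f * f = (ℓ : ℤ) • δ) :
    f.map (cst R) - f.map (cst R) * f.map (cst R) = (ℓ : ℤ) • δ.map (cst R) := by
  rw [← Matrix.map_mul, ← Matrix.map_sub (cst R) (map_sub _), h]
  refine Matrix.ext fun i j => ?_
  rw [Matrix.map_apply, Matrix.smul_apply, Matrix.smul_apply, Matrix.map_apply, map_zsmul]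

theorem pmat_const {R : Type u} [Ring R] (ℓ : ℕ) (hℓ : ∀ x : R, (ℓ : ℤ) • x = 0 → x = 0)
    {B : Type w} [Ring B] [Finite B] (π : R →+* B) (hπ : IsQuo ℓ π)
    {ι : Type v} [Fintype ι] [DecidableEq ι] (e δ : Matrix ι ι R[T;T⁻¹])
    (h : e - e * e = (ℓ : ℤ) • δ) (hp : pmat ℓ e δ * pmat ℓ e δ = pmat ℓ e δ) :
    ∃ x : K0 R, K0.cls (pmat ℓ e δ) hp = K0.map (cst R) x := by
  have hL : IsQuo ℓ (KM.lau π) := hπ.lau
  have hE : e.map (KM.lau π) * e.map (KM.lau π) = e.map (KM.lau π) := by
    rw [← Matrix.map_mul]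
    refine Matrix.ext fun i j => ?_
    rw [Matrix.map_apply, Matrix.map_apply, ← sub_eq_zero, ← map_sub, hL.2]
    refine ⟨-δ i j, ?_⟩
    have h1 := congrFun (congrFun h i) j
    rw [Matrix.sub_apply, Matrix.smul_apply] at h1
    rw [smul_neg, ← h1]
    abel
  obtain ⟨I₀, I₁, _, _, _, _, g₀, g₁, hg₀, hg₁, xb, yb, hxy, hyx⟩ :=
    stConst_finite B ι (e.map (KM.lau π)) hE
  obtain ⟨f₀, hf₀⟩ := pmk_lift hπ.1 g₀
  obtain ⟨f₁, hf₁⟩ := pmk_lift hπ.1 g₁
  obtain ⟨x, hx⟩ := pmk_lift hL.1 xb
  obtain ⟨y, hy⟩ := pmk_lift hL.1 yb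
  obtain ⟨δ₀, hδ₀⟩ : MCong ℓ f₀ (f₀ * f₀) := pmk_cong hπ (by rw [Matrix.map_mul, hf₀, hg₀])
  obtain ⟨δ₁, hδ₁⟩ : MCong ℓ f₁ (f₁ * f₁) := pmk_cong hπ (by rw [Matrix.map_mul, hf₁, hg₁])
  have hc : ∀ {m : Type v} (g : Matrix m m R),
      (g.map (cst R)).map (KM.lau π) = (g.map π).map (cst B) := by
    intro m g
    refine Matrix.ext fun i j => ?_
    simp only [Matrix.map_apply]
    exact RingHom.congr_fun (lau_cst π) (g i j)
  have he' : (fromBlocks e 0 0 (f₁.map (cst R))).map (KM.lau π) =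
      fromBlocks (e.map (KM.lau π)) 0 0 (g₁.map (cst B)) := by
    rw [Matrix.fromBlocks_map, hc, hf₁, Matrix.map_zero _ (map_zero _),
      Matrix.map_zero _ (map_zero _)]
  have hf₀' : (f₀.map (cst R)).map (KM.lau π) = g₀.map (cst B) := by rw [hc, hf₀]
  have c1 : MCong ℓ (fromBlocks e 0 0 (f₁.map (cst R)) * fromBlocks e 0 0 (f₁.map (cst R)))
      (fromBlocks e 0 0 (f₁.map (cst R))) := by
    apply pmk_cong hL
    rw [Matrix.map_mul, he']
    apply K0.fromBlocks_idem hE
    rw [← Matrix.map_mul, hg₁]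
  have c2 : MCong ℓ (f₀.map (cst R) * f₀.map (cst R)) (f₀.map (cst R)) := by
    apply pmk_cong hL
    rw [Matrix.map_mul, hf₀', ← Matrix.map_mul, hg₀]
  have c3 : MCong ℓ (x * y) (fromBlocks e 0 0 (f₁.map (cst R))) := by
    apply pmk_cong hL
    rw [Matrix.map_mul, hx, hy, hxy, he']
  have c4 : MCong ℓ (y * x) (f₀.map (cst R)) := by
    apply pmk_cong hL
    rw [Matrix.map_mul, hx, hy, hyx, hf₀']
  obtain ⟨G1⟩ := kerE_congr ℓ _ _ x y c1 c2 c3 c4
  obtain ⟨G2⟩ := kerE_blocks ℓ e (f₁.map (cst R))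
  have t := lau_torsion (ℓ := ℓ) hℓ
  have d₀ := pmk_cst ℓ f₀ δ₀ hδ₀
  have d₁ := pmk_cst ℓ f₁ δ₁ hδ₁
  have r := rep_pmat ℓ t e δ h
  have r₁ := rep_pmat ℓ t _ _ d₁
  have r₀ := rep_pmat ℓ t _ _ d₀
  have s₁ := rep_pmat ℓ hℓ _ _ hδ₁
  have s₀ := rep_pmat ℓ hℓ _ _ hδ₀
  have m := ((r.prod r₁).prod (rep_one (A := R[T;T⁻¹]) (ι := I₀))).matEquiv
    (r₀.prod (rep_one (A := R[T;T⁻¹]) (ι := ι ⊕ I₁)))
    ((LinearEquiv.prodCongr G2.symm (LinearEquiv.refl R[T;T⁻¹] (I₀ → R[T;T⁻¹]))).trans G1)
  have m' := K0.cls_congr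
    (K0.fromBlocks_idem (K0.fromBlocks_idem hp r₁.idem) (pmk_one_idem I₀))
    (K0.fromBlocks_idem r₀.idem (pmk_one_idem (ι ⊕ I₁))) m
  rw [K0.cls_fromBlocks (K0.fromBlocks_idem hp r₁.idem) (pmk_one_idem I₀),
    K0.cls_fromBlocks hp r₁.idem, K0.cls_fromBlocks r₀.idem (pmk_one_idem (ι ⊕ I₁)),
    pmk_pmat ℓ f₁ δ₁ s₁.idem, pmk_pmat ℓ f₀ δ₀ s₀.idem, ← pmk_cls_one (cst R) I₀,
    ← pmk_cls_one (cst R) (ι ⊕ I₁)] at m'
  refine ⟨K0.cls _ s₀.idem + K0.cls _ (pmk_one_idem (ι ⊕ I₁)) - K0.cls _ (pmk_one_idem I₀) -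
    K0.cls _ s₁.idem, ?_⟩
  rw [map_sub, map_sub, map_add, ← m']
  abel

end Pool.Agent.H95.KF

end

section

/-!
# Project KF, module El: the elementary step in `K₋₁`

## Paper proof

`A = R[t, t⁻¹]`, `ℓ` is a nonzero divisor on `A` (`lau_torsion`). `D = {i // s i}`, `e := E.submatrix Subtype.val
Subtype.val` (`D × D`). `step_cong`: `e e ≡ e`, so there is `δ` with `e - e e = ℓ δ`. `step_equiv`:
`fixM E × (D → A) ≃ fixM E' × kerE ℓ e`. By `rep_fixM`, `rep_one`, `rep_pmat`, `Rep.prod`, `Rep.matEquiv`: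
`MatEquiv (fromBlocks E 0 0 1) (fromBlocks E' 0 0 (pmat ℓ e δ))`, so `[E] + [1] = [E'] + [pmat ℓ e δ]` in `K0 A`
(`K0.cls_fromBlocks`, `K0.cls_congr`). `Km1.mk` kills `[1] = K0.map cst [1]` and `[pmat ℓ e δ]` (`pmat_const`), by
`mk_cst` (`Pool/Agent/H95/KM/Lau.lean`).
-/

set_option autoImplicit false

open Matrix
open scoped LaurentPolynomial

universe u v w

namespace Pool.Agent.H95.KF

open Pool.Agent.H71.FJ Pool.Agent.H95.KM

theorem mk_step {R : Type u} [Ring R] (ℓ : ℕ) (hℓ : ∀ x : R, (ℓ : ℤ) • x = 0 → x = 0)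
    {B : Type w} [Ring B] [Finite B] (π : R →+* B) (hπ : IsQuo ℓ π)
    {ι : Type v} [Fintype ι] [DecidableEq ι] (s : ι → Prop) [DecidablePred s]
    (E E' : Matrix ι ι R[T;T⁻¹]) (hE : E * E = E) (hE' : E' * E' = E')
    (h : E * gmat R[T;T⁻¹] ℓ s = gmat R[T;T⁻¹] ℓ s * E') :
    Km1.mk (K0.cls E hE) = Km1.mk (K0.cls E' hE') := by
  have hA := lau_torsion hℓ
  set e := E.submatrix (fun i : {i // s i} => i.1) (fun i : {i // s i} => i.1) with he
  obtain ⟨Z, hZ⟩ := step_cong ℓ s E E' hE h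
  have hδ : e - e * e = (ℓ : ℤ) • (-Z) := by
    rw [smul_neg, ← hZ, neg_sub]
  obtain ⟨g⟩ := step_equiv ℓ hA s E E' hE hE' h
  have hp := rep_pmat ℓ hA e (-Z) hδ
  have hpp := hp.idem
  have key := ((rep_fixM hE).prod (rep_one (A := R[T;T⁻¹]) (ι := {i // s i}))).matEquiv
    ((rep_fixM hE').prod hp) g
  have h1 : (1 : Matrix {i // s i} {i // s i} R[T;T⁻¹]) * 1 = 1 := one_mul 1
  have h2 := K0.cls_congr (K0.fromBlocks_idem hE h1) (K0.fromBlocks_idem hE' hpp) key
  rw [K0.cls_fromBlocks hE h1, K0.cls_fromBlocks hE' hpp] at h2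
  obtain ⟨x, hx⟩ := pmat_const ℓ hℓ π hπ e (-Z) hδ hpp
  have h3 : K0.cls (1 : Matrix {i // s i} {i // s i} R[T;T⁻¹]) h1 =
      K0.map (cst R) (K0.cls (1 : Matrix {i // s i} {i // s i} R) (one_mul 1)) := by
    rw [K0.map_cls]
    apply K0.cls_congr
    rw [Matrix.map_one _ (map_zero _) (map_one _)]
    exact K0.matEquiv_refl h1
  have h4 := congrArg Km1.mk h2
  rw [map_add, map_add, hx, h3, mk_cst, mk_cst, add_zero, add_zero] at h4
  exact h4

end Pool.Agent.H95.KF

end

section

/-!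
# Project KF, module Dia: idempotent matrices intertwined by an integral diagonal matrix

## Paper proof

Induction on `∏ i, (d i).natAbs` (strong, or on a bound), for all `E`.
If all `|d i| = 1`: `g = diagonal d` satisfies `g g = 1`, `E' = g E g`, `MatEquiv E E'` (`x = E g`, `y = g E`:
`x y = E g g E = E`, `y x = g E E g = E'`), `K0.cls_congr`.
Otherwise let `ℓ` be a prime dividing some `d i`, `s i := (ℓ : ℤ) ∣ d i`, `g := gmat A ℓ s`, `A = R[t, t⁻¹]`.
Define `E'' i j`:= `E i j` if `s i ↔ s j`; `:= ℓ • E i j` if `¬ s i`, `s j`; and if `s i`, `¬ s j`: `E i j * d j =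
d i * E' i j` is divisible by `ℓ` and `d j` is prime to `ℓ`, so by Bezout (`u ℓ + v d j = 1`) `E i j` is divisible by `ℓ`:
`E i j = ℓ • z`, and `E'' i j := z`. Then `E g = g E''`. `E''` is idempotent: `g E'' E'' = E g E'' = E E g = E g = g E''`,
cancel `g` (`ℓ` is a nonzero divisor: `hR.1`, `lau_torsion`). Let `d' i = d i / ℓ` if `s i`, `d i` otherwise, so
`diagonal d = g * diagonal d'`. `g (E'' diag(d')) = E g diag(d') = E diag(d) = diag(d) E' = g (diag(d') E')`, cancel `g`:
`E'' diag(d') = diag(d') E'`. Induction: `mk [E''] = mk [E']`; and `mk_step` (with the quotient `R → R / ℓ` from `hR.2`)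
gives `mk [E] = mk [E'']`.
(The entries `(n : A)`, `n : ℤ`, are central: `Int.cast_commute`. `hR.1` is stated for `n : ℕ`, `n ≠ 0`.)
-/

set_option autoImplicit false

open Matrix
open scoped LaurentPolynomial

universe u v w

namespace Pool.Agent.H95.KF

open Pool.Agent.H71.FJ Pool.Agent.H95.KM

/-- `R` is torsion free and `R / n R` is finite for all `n ≠ 0`. -/
def FinMod (R : Type u) [Ring R] : Prop :=
  (∀ n : ℕ, n ≠ 0 → ∀ x : R, (n : ℤ) • x = 0 → x = 0) ∧
    ∀ n : ℕ, n ≠ 0 → ∃ (B : Type u) (_ : Ring B) (π : R →+* B), Finite B ∧ IsQuo n π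

section Aux

variable {A : Type u} [Ring A] {ι : Type v} [Fintype ι] [DecidableEq ι]

private theorem dia_gcancel (ℓ : ℕ) (hℓ : ∀ x : A, (ℓ : ℤ) • x = 0 → x = 0) (s : ι → Prop)
    [DecidablePred s] (X Y : Matrix ι ι A) (h : gmat A ℓ s * X = gmat A ℓ s * Y) : X = Y := by
  ext i j
  have h1 := congrFun (congrFun h i) j
  rw [gmat, diagonal_mul, diagonal_mul] at h1
  by_cases hs : s i
  · rw [if_pos hs] at h1
    have h2 : (ℓ : ℤ) • (X i j - Y i j) = 0 := by
      rw [zsmul_eq_mul, Int.cast_natCast, mul_sub, h1, sub_self]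
    exact sub_eq_zero.1 (hℓ _ h2)
  · rwa [if_neg hs, one_mul, one_mul] at h1

private theorem dia_entry (ℓ : ℕ) (d d' : ι → ℤ) (s : ι → Prop)
    [DecidablePred s] (hs : ∀ i, s i → d i = ℓ * d' i)
    (hns : ∀ i, ¬ s i → d i = d' i ∧ IsCoprime (ℓ : ℤ) (d i)) (E E' : Matrix ι ι A)
    (h : E * diagonal (fun i => (d i : A)) = diagonal (fun i => (d i : A)) * E') (i j : ι) :
    ∃ z : A, E i j * (if s j then (ℓ : A) else 1) = (if s i then (ℓ : A) else 1) * z := by
  by_cases hi : s i
  · by_cases hj : s j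
    · refine ⟨E i j, ?_⟩
      rw [if_pos hi, if_pos hj]
      exact ((Nat.cast_commute ℓ (E i j)).eq).symm
    · obtain ⟨u, v, huv⟩ := (hns j hj).2
      have h1 := congrFun (congrFun h i) j
      rw [mul_diagonal, diagonal_mul] at h1
      refine ⟨(u : A) * E i j + (v : A) * ((d' i : A) * E' i j), ?_⟩
      rw [if_pos hi, if_neg hj, mul_one]
      have h2 : (u : A) * (ℓ : A) + (v : A) * (d j : A) = 1 := by
        have := congrArg (Int.cast : ℤ → A) huv
        push_cast at this
        exact this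
      have h3 : (d i : A) = (ℓ : A) * (d' i : A) := by
        rw [hs i hi]
        push_cast
        rfl
      have c1 : (ℓ : A) * (u : A) = (u : A) * (ℓ : A) := (Nat.cast_commute ℓ (u : A)).eq
      have c2 : (ℓ : A) * (v : A) = (v : A) * (ℓ : A) := (Nat.cast_commute ℓ (v : A)).eq
      have c3 : (d j : A) * E i j = E i j * (d j : A) := (Int.cast_commute (d j) (E i j)).eq
      calc E i j = ((u : A) * (ℓ : A) + (v : A) * (d j : A)) * E i j := by rw [h2, one_mul]
        _ = (ℓ : A) * ((u : A) * E i j) + (v : A) * (E i j * (d j : A)) := by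
            rw [add_mul, ← c1, mul_assoc, mul_assoc, c3]
        _ = (ℓ : A) * ((u : A) * E i j) + (v : A) * ((ℓ : A) * (d' i : A) * E' i j) := by
            rw [h1, h3]
        _ = (ℓ : A) * ((u : A) * E i j + (v : A) * ((d' i : A) * E' i j)) := by
            rw [mul_add]
            congr 1
            rw [mul_assoc, ← mul_assoc (v : A), ← mul_assoc (ℓ : A), c2]
  · exact ⟨E i j * (if s j then (ℓ : A) else 1), by rw [if_neg hi, one_mul]⟩

private theorem dia_split (ℓ : ℕ) (hℓ : ∀ x : A, (ℓ : ℤ) • x = 0 → x = 0) (d d' : ι → ℤ)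
    (s : ι → Prop) [DecidablePred s] (hs : ∀ i, s i → d i = ℓ * d' i)
    (hns : ∀ i, ¬ s i → d i = d' i ∧ IsCoprime (ℓ : ℤ) (d i)) (E E' : Matrix ι ι A)
    (hE : E * E = E)
    (h : E * diagonal (fun i => (d i : A)) = diagonal (fun i => (d i : A)) * E') :
    ∃ E'' : Matrix ι ι A, E'' * E'' = E'' ∧ E * gmat A ℓ s = gmat A ℓ s * E'' ∧
      E'' * diagonal (fun i => (d' i : A)) = diagonal (fun i => (d' i : A)) * E' := by
  choose Z hZ using dia_entry ℓ d d' s hs hns E E' h
  have hg : E * gmat A ℓ s = gmat A ℓ s * Matrix.of Z := by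
    ext i j
    rw [gmat, mul_diagonal, diagonal_mul]
    exact hZ i j
  have hD : gmat A ℓ s * diagonal (fun i => (d' i : A)) = diagonal (fun i => (d i : A)) := by
    rw [gmat, diagonal_mul_diagonal]
    congr 1
    funext i
    by_cases hi : s i
    · rw [if_pos hi, hs i hi]
      push_cast
      rfl
    · rw [if_neg hi, one_mul, (hns i hi).1]
  refine ⟨Matrix.of Z, dia_gcancel ℓ hℓ s _ _ ?_, hg, dia_gcancel ℓ hℓ s _ _ ?_⟩
  · rw [← mul_assoc, ← hg, mul_assoc, ← hg, ← mul_assoc, hE]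
  · rw [← mul_assoc, ← hg, mul_assoc, hD, h, ← mul_assoc, hD]

private theorem dia_base (d : ι → ℤ) (hd : ∀ i, (d i).natAbs = 1) (E E' : Matrix ι ι A)
    (hE : E * E = E)
    (h : E * diagonal (fun i => (d i : A)) = diagonal (fun i => (d i : A)) * E') :
    MatEquiv E E' := by
  have hg : diagonal (fun i => (d i : A)) * diagonal (fun i => (d i : A)) = 1 := by
    rw [diagonal_mul_diagonal, ← diagonal_one]
    congr 1
    funext i
    have h1 : d i * d i = 1 := by
      rcases Int.natAbs_eq_iff.1 (hd i) with h2 | h2 <;> rw [h2] <;> rfl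
    rw [← Int.cast_mul, h1, Int.cast_one]
  refine ⟨E * diagonal (fun i => (d i : A)), diagonal (fun i => (d i : A)) * E, ?_, ?_⟩
  · rw [mul_assoc, ← mul_assoc (diagonal (fun i => (d i : A))), hg, one_mul, hE]
  · rw [mul_assoc, ← mul_assoc E E, hE, h, ← mul_assoc, hg, one_mul]

end Aux

theorem mk_diagonal {R : Type u} [Ring R] (hR : FinMod R) {ι : Type v} [Fintype ι]
    [DecidableEq ι] (d : ι → ℤ) (hd : ∀ i, d i ≠ 0) (E E' : Matrix ι ι R[T;T⁻¹])
    (hE : E * E = E) (hE' : E' * E' = E')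
    (h : E * diagonal (fun i => (d i : R[T;T⁻¹])) = diagonal (fun i => (d i : R[T;T⁻¹])) * E') :
    Km1.mk (K0.cls E hE) = Km1.mk (K0.cls E' hE') := by
  obtain ⟨N, hN⟩ : ∃ N : ℕ, ∏ i, (d i).natAbs = N := ⟨_, rfl⟩
  induction N using Nat.strong_induction_on generalizing d E with
  | _ N ih =>
    by_cases hall : ∀ i, (d i).natAbs = 1
    · rw [K0.cls_congr hE hE' (dia_base d hall E E' hE h)]
    · obtain ⟨i₀, hi₀⟩ := not_forall.1 hall
      obtain ⟨ℓ, hp, hdvd⟩ := Nat.exists_prime_and_dvd hi₀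
      have hdvd' : (ℓ : ℤ) ∣ d i₀ := Int.natCast_dvd.2 hdvd
      obtain ⟨B, _, π, hB, hπ⟩ := hR.2 ℓ hp.ne_zero
      have hℓR := hR.1 ℓ hp.ne_zero
      have hℓA : ∀ x : R[T;T⁻¹], (ℓ : ℤ) • x = 0 → x = 0 := lau_torsion hℓR
      have hs : ∀ i, (ℓ : ℤ) ∣ d i → d i = ℓ * (if (ℓ : ℤ) ∣ d i then d i / ℓ else d i) := by
        intro i hi
        rw [if_pos hi, Int.mul_ediv_cancel' hi]
      have hns : ∀ i, ¬ (ℓ : ℤ) ∣ d i →
          d i = (if (ℓ : ℤ) ∣ d i then d i / ℓ else d i) ∧ IsCoprime (ℓ : ℤ) (d i) := by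
        intro i hi
        refine ⟨by rw [if_neg hi], ?_⟩
        exact (Nat.prime_iff_prime_int.1 hp).coprime_iff_not_dvd.2 hi
      obtain ⟨E'', h1, h2, h3⟩ := dia_split ℓ hℓA d _ (fun i => (ℓ : ℤ) ∣ d i) hs hns E E' hE h
      rw [mk_step ℓ hℓR π hπ (fun i => (ℓ : ℤ) ∣ d i) E E'' hE h1 h2]
      have hpos : ∀ i, 0 < (if (ℓ : ℤ) ∣ d i then d i / ℓ else d i).natAbs := by
        intro i
        rw [Int.natAbs_pos]
        by_cases hi : (ℓ : ℤ) ∣ d i
        · intro h0
          have h4 := hs i hi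
          rw [h0, mul_zero] at h4
          exact hd i h4
        · rw [if_neg hi]
          exact hd i
      have hle : ∀ i, (ℓ : ℤ) ∣ d i →
          (if (ℓ : ℤ) ∣ d i then d i / ℓ else d i).natAbs < (d i).natAbs := by
        intro i hi
        have h4 := congrArg Int.natAbs (hs i hi)
        rw [Int.natAbs_mul, Int.natAbs_natCast] at h4
        have h5 := hpos i
        have h6 := hp.two_le
        nlinarith
      refine ih _ ?_ _ (fun i h0 => ?_) E'' h1 h3 rfl
      · rw [← hN]
        refine Finset.prod_lt_prod (fun i _ => hpos i) (fun i _ => ?_)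
          ⟨i₀, Finset.mem_univ _, hle i₀ hdvd'⟩
        by_cases hi : (ℓ : ℤ) ∣ d i
        · exact (hle i hi).le
        · rw [if_neg hi]
      · have := hpos i
        rw [h0] at this
        exact absurd this (lt_irrefl _)

end Pool.Agent.H95.KF

end

section

/-!
# Project KF, module Smi: idempotent matrices intertwined by an integral matrix

## Paper proof

`exists_smn` (`Pool/Agent/H95/WH/SmN.lean`): `P, P', Q, Q', d` with `P P' = 1 = P' P`, `Q Q' = 1`, `Q' Q = 1`, `a Q = P diag(d)`,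
`d i ≠ 0`. Denote images of the integral matrices in `A = R[t, t⁻¹]` by the same letters.
`E₁ := P' E P`, `E₁' := Q' E' Q`, both `X × X`; idempotent (`E₁ E₁ = P' E P P' E P = P' E P`), `MatEquiv E E₁`
(`E = (E P) (P' E)`, `(P' E) (E P) = E₁`), `MatEquiv E' E₁'`.
`E₁ diag(d) = P' E P diag(d) = P' E a Q = P' a E' Q = P' a Q Q' E' Q = P' P diag(d) Q' E' Q = diag(d) E₁'`.
`mk_diagonal` gives `mk [E₁] = mk [E₁']`.
(`Matrix.map_mul` for `Int.castRingHom A`; `diagonal d` maps to `diagonal (fun i => (d i : A))`.)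
-/

set_option autoImplicit false

open Matrix
open scoped LaurentPolynomial

universe u v w

namespace Pool.Agent.H95.KF

open Pool.Agent.H71.FJ Pool.Agent.H95.KM

theorem mk_inter {R : Type u} [Ring R] (hR : FinMod R) {X Y : Type v} [Fintype X] [Fintype Y]
    [DecidableEq X] [DecidableEq Y] (n : ℕ) (hn : n ≠ 0) (a : Matrix X Y ℤ) (b : Matrix Y X ℤ)
    (hab : a * b = (n : ℤ) • (1 : Matrix X X ℤ)) (hba : b * a = (n : ℤ) • (1 : Matrix Y Y ℤ))
    (E : Matrix X X R[T;T⁻¹]) (E' : Matrix Y Y R[T;T⁻¹]) (hE : E * E = E) (hE' : E' * E' = E')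
    (h : E * a.map (Int.castRingHom R[T;T⁻¹]) = a.map (Int.castRingHom R[T;T⁻¹]) * E') :
    Km1.mk (K0.cls E hE) = Km1.mk (K0.cls E' hE') := by
  obtain ⟨P, P', Q, Q', d, hPP', hP'P, hQQ', hQ'Q, haQ, hd⟩ :=
    Pool.Agent.H95.WH.exists_smn n hn a b hab hba
  let φ : ℤ →+* R[T;T⁻¹] := Int.castRingHom R[T;T⁻¹]
  have m1 : P.map φ * P'.map φ = 1 := by
    rw [← Matrix.map_mul, hPP', Matrix.map_one φ (map_zero φ) (map_one φ)]
  have m2 : P'.map φ * P.map φ = 1 := by
    rw [← Matrix.map_mul, hP'P, Matrix.map_one φ (map_zero φ) (map_one φ)]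
  have m3 : Q.map φ * Q'.map φ = 1 := by
    rw [← Matrix.map_mul, hQQ', Matrix.map_one φ (map_zero φ) (map_one φ)]
  have m5 : a.map φ * Q.map φ = P.map φ * diagonal (fun i => (d i : R[T;T⁻¹])) := by
    rw [← Matrix.map_mul, haQ, Matrix.map_mul, diagonal_map (map_zero φ)]
    rfl
  have h' : E * a.map φ = a.map φ * E' := h
  have e1 : (P'.map φ * E * P.map φ) * (P'.map φ * E * P.map φ) = P'.map φ * E * P.map φ := by
    calc (P'.map φ * E * P.map φ) * (P'.map φ * E * P.map φ)
        = P'.map φ * E * (P.map φ * P'.map φ) * E * P.map φ := by simp only [Matrix.mul_assoc]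
      _ = P'.map φ * (E * E) * P.map φ := by rw [m1, Matrix.mul_one]; simp only [Matrix.mul_assoc]
      _ = P'.map φ * E * P.map φ := by rw [hE]
  have e2 : (Q'.map φ * E' * Q.map φ) * (Q'.map φ * E' * Q.map φ) = Q'.map φ * E' * Q.map φ := by
    calc (Q'.map φ * E' * Q.map φ) * (Q'.map φ * E' * Q.map φ)
        = Q'.map φ * E' * (Q.map φ * Q'.map φ) * E' * Q.map φ := by simp only [Matrix.mul_assoc]
      _ = Q'.map φ * (E' * E') * Q.map φ := by rw [m3, Matrix.mul_one]; simp only [Matrix.mul_assoc]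
      _ = Q'.map φ * E' * Q.map φ := by rw [hE']
  have q1 : MatEquiv E (P'.map φ * E * P.map φ) := by
    refine ⟨E * P.map φ, P'.map φ * E, ?_, ?_⟩
    · calc E * P.map φ * (P'.map φ * E) = E * (P.map φ * P'.map φ) * E := by
            simp only [Matrix.mul_assoc]
        _ = E := by rw [m1, Matrix.mul_one, hE]
    · calc P'.map φ * E * (E * P.map φ) = P'.map φ * (E * E) * P.map φ := by
            simp only [Matrix.mul_assoc]
        _ = P'.map φ * E * P.map φ := by rw [hE]
  have q2 : MatEquiv E' (Q'.map φ * E' * Q.map φ) := by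
    refine ⟨E' * Q.map φ, Q'.map φ * E', ?_, ?_⟩
    · calc E' * Q.map φ * (Q'.map φ * E') = E' * (Q.map φ * Q'.map φ) * E' := by
            simp only [Matrix.mul_assoc]
        _ = E' := by rw [m3, Matrix.mul_one, hE']
    · calc Q'.map φ * E' * (E' * Q.map φ) = Q'.map φ * (E' * E') * Q.map φ := by
            simp only [Matrix.mul_assoc]
        _ = Q'.map φ * E' * Q.map φ := by rw [hE']
  have key : (P'.map φ * E * P.map φ) * diagonal (fun i => (d i : R[T;T⁻¹])) =
      diagonal (fun i => (d i : R[T;T⁻¹])) * (Q'.map φ * E' * Q.map φ) := by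
    calc (P'.map φ * E * P.map φ) * diagonal (fun i => (d i : R[T;T⁻¹]))
        = P'.map φ * E * (P.map φ * diagonal (fun i => (d i : R[T;T⁻¹]))) := by
          simp only [Matrix.mul_assoc]
      _ = P'.map φ * E * (a.map φ * Q.map φ) := by rw [m5]
      _ = P'.map φ * (E * a.map φ) * Q.map φ := by simp only [Matrix.mul_assoc]
      _ = P'.map φ * (a.map φ * E') * Q.map φ := by rw [h']
      _ = P'.map φ * (a.map φ * (Q.map φ * Q'.map φ) * E') * Q.map φ := by
          rw [m3, Matrix.mul_one]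
      _ = P'.map φ * (a.map φ * Q.map φ) * (Q'.map φ * E' * Q.map φ) := by
          simp only [Matrix.mul_assoc]
      _ = P'.map φ * (P.map φ * diagonal (fun i => (d i : R[T;T⁻¹]))) *
          (Q'.map φ * E' * Q.map φ) := by rw [m5]
      _ = (P'.map φ * P.map φ) * diagonal (fun i => (d i : R[T;T⁻¹])) *
          (Q'.map φ * E' * Q.map φ) := by simp only [Matrix.mul_assoc]
      _ = diagonal (fun i => (d i : R[T;T⁻¹])) * (Q'.map φ * E' * Q.map φ) := by
          rw [m2, Matrix.one_mul]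
  rw [K0.cls_congr hE e1 q1, K0.cls_congr hE' e2 q2]
  exact mk_diagonal hR d hd _ _ e1 e2 key

end Pool.Agent.H95.KF

end

section

/-!
# The permutation representations and `K₋₁` of group rings

## Paper proofs

`kpush_tw_top`: `F ⧸ ⊤` is a one-element type; see `push_tw_topR` in `Pool/Agent/H95/WH/PushR.lean` (the same for `K₁`).
Alternatively: `kpush_congr` to the homomorphism `R[F] → Mat_{Fin 1}` or directly: for `x = Km1.mk (K0.mk a)`
(`Km1.mk_surjective`, `K0.hom_ext` or `K0.exists_sub`), `flat (klm (twR ..)) a.mat` is the reindexed matrix `a.mat`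
(`klm_single`, all entries of `twR R (F ⧸ ⊤) r` are `r`), `K0.matEquiv_submatrix`.
`kpush_tw_inter`: `kpush φ - kpush ψ` is additive, so it suffices to treat `x = Km1.mk (K0.mk e)` (`Km1.hom_ext`, `K0.hom_ext`),
`e` an `n × n` idempotent matrix over `R[F][t, t⁻¹]`. `K0.push_mk`: the classes of `E = flat (klm (twR R X)) e` (index
`Fin n × X`) and `E' = flat (klm (twR R Y)) e` (index `Fin n × Y`). With `a' ((i, x), (j, y)) = if i = j then a x y else 0`
and `b'` likewise (`kroneckerMap`, or `Matrix.blockDiagonal`-like), `a' b' = n`, `b' a' = n`, and `E a' = a' E'`: entrywise this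
is `klm (twR R X) r * a = a * klm (twR R Y) r` for `r` in `R[F][t, t⁻¹]`, which may be checked on `single k (single h c)` and
is there `twR_inter` of `Pool/Agent/H95/WH/ArtKR.lean`. Apply `mk_inter` (module Smi). (The index types of `mk_inter` must be
in the same universe: `Fin n × X` and `Fin n × Y` are in `Type v`.)
-/

set_option autoImplicit false

open Matrix
open scoped LaurentPolynomial Classical

universe u v w

namespace Pool.Agent.H95.KF

open Pool.Agent.H71.FJ (lamR twR incl K0 tw lam tw_single lam_single out_mem_iff)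
open Pool.Agent.H95.KM

variable {F : Type v} [Group F] (R : Type u) [CommRing R]

theorem kpush_tw_sigma {I : Type} [Fintype I] (D : I → Subgroup F) [∀ i, Fintype (F ⧸ D i)]
    [Fintype (Σ i, F ⧸ D i)] [DecidableEq (Σ i, F ⧸ D i)] (x : Km1 (MonoidAlgebra R F)) :
    kpush (twR R (Σ i, F ⧸ D i)) x = ∑ i, kpush (twR R (F ⧸ D i)) x := by
  apply kpush_blk
  intro r
  induction r using MonoidAlgebra.induction_linear with
  | zero =>
    simp only [map_zero]
    exact (Matrix.blockDiagonal'_zero).symm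
  | add a b ha hb =>
    simp only [map_add]
    rw [ha, hb]
    exact (Matrix.blockDiagonal'_add _ _).symm
  | single h r =>
    ext ⟨i, x⟩ ⟨j, y⟩ : 1
    change tw R (Σ i, F ⧸ D i) (MonoidAlgebra.single h r) ⟨i, x⟩ ⟨j, y⟩ = _
    rw [tw_single]
    by_cases hij : i = j
    · subst hij
      rw [Matrix.blockDiagonal'_apply_eq]
      change _ = tw R (F ⧸ D i) (MonoidAlgebra.single h r) x y
      rw [tw_single]
      by_cases hxy : x = h • y
      · rw [if_pos hxy, if_pos]
        rw [hxy]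
        rfl
      · rw [if_neg hxy, if_neg]
        intro e
        apply hxy
        have e2 : (⟨i, x⟩ : Σ i, F ⧸ D i) = ⟨i, h • y⟩ := e
        exact eq_of_heq (Sigma.mk.inj e2).2
    · rw [Matrix.blockDiagonal'_apply_ne _ _ _ hij, if_neg]
      intro e
      exact hij (congrArg Sigma.fst e)

theorem ind_kres (D : Subgroup F) [Fintype (F ⧸ D)] (x : Km1 (MonoidAlgebra R F)) :
    Km1.map (incl R D) (kpush (lamR R D) x) = kpush (twR R (F ⧸ D)) x := by
  rw [map_kpush]
  symm
  refine kpush_congr _ _ (diagonal fun x : F ⧸ D => MonoidAlgebra.single x.out (1 : R))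
    (diagonal fun x : F ⧸ D => MonoidAlgebra.single x.out⁻¹ (1 : R)) ?_ ?_ ?_ x
  · rw [diagonal_mul_diagonal]
    simp only [MonoidAlgebra.single_mul_single, mul_inv_cancel, one_mul, ← MonoidAlgebra.one_def]
    exact diagonal_one
  · rw [diagonal_mul_diagonal]
    simp only [MonoidAlgebra.single_mul_single, inv_mul_cancel, one_mul, ← MonoidAlgebra.one_def]
    exact diagonal_one
  · intro r
    induction r using MonoidAlgebra.induction_linear with
    | zero => simp
    | add a b ha hb => rw [map_add, map_add, Matrix.mul_add, Matrix.add_mul, ha, hb]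
    | single h r =>
      ext x y : 1
      rw [Matrix.diagonal_mul, Matrix.mul_diagonal]
      change tw R (F ⧸ D) (MonoidAlgebra.single h r) x y * _ =
        _ * (incl R D) (lam R D (MonoidAlgebra.single h r) x y)
      rw [lam_single, tw_single]
      by_cases hh : x.out⁻¹ * h * y.out ∈ D
      · rw [dif_pos hh, if_pos ((out_mem_iff D h x y).1 hh)]
        simp only [incl, MonoidAlgebra.mapDomainRingHom_apply, MonoidAlgebra.mapDomain_single,
          MonoidAlgebra.single_mul_single, Subgroup.coe_subtype, one_mul, mul_one]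
        congr 1
        group
      · rw [dif_neg hh, if_neg (fun h' => hh ((out_mem_iff D h x y).2 h')), map_zero, mul_zero,
          zero_mul]

private theorem klm_tw_top_apply [Fintype (F ⧸ (⊤ : Subgroup F))]
    (z : (MonoidAlgebra R F)[T;T⁻¹]) (x y : F ⧸ (⊤ : Subgroup F)) :
    klm (twR R (F ⧸ (⊤ : Subgroup F))) z x y = z := by
  have hsub : Subsingleton (F ⧸ (⊤ : Subgroup F)) := QuotientGroup.subsingleton_quotient_top
  have hval : ∀ (r : MonoidAlgebra R F), twR R (F ⧸ (⊤ : Subgroup F)) r x y = r := by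
    intro r
    induction r using MonoidAlgebra.induction_linear with
    | zero => rw [map_zero]; rfl
    | add a b ha hb => rw [map_add, Matrix.add_apply, ha, hb]
    | single h r =>
      change tw R (F ⧸ (⊤ : Subgroup F)) (MonoidAlgebra.single h r) x y = _
      rw [tw_single, if_pos (Subsingleton.elim _ _)]
  induction z using AddMonoidAlgebra.induction_linear with
  | zero => rw [map_zero]; rfl
  | add a b ha hb => rw [map_add, Matrix.add_apply, ha, hb]
  | single k r => rw [klm_single, Matrix.of_apply, hval]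

/-- The permutation matrices are intertwined by the equivariant integral matrices. -/
private theorem twR_inter_kf {X Y : Type v} [Fintype X] [Fintype Y] [DecidableEq X]
    [DecidableEq Y] [MulAction F X] [MulAction F Y]
    (a : Matrix X Y ℤ) (ha : ∀ (h : F) x y, a (h • x) (h • y) = a x y)
    (r : MonoidAlgebra R F) :
    twR R X r * a.map (Int.castRingHom (MonoidAlgebra R F)) =
      a.map (Int.castRingHom (MonoidAlgebra R F)) * twR R Y r := by
  induction r using MonoidAlgebra.induction_linear with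
  | zero => rw [map_zero, map_zero, Matrix.zero_mul, Matrix.mul_zero]
  | add s t hs ht => rw [map_add, map_add, Matrix.add_mul, Matrix.mul_add, hs, ht]
  | single h r =>
    refine Matrix.ext fun x y => ?_
    rw [Matrix.mul_apply, Matrix.mul_apply]
    have e1 : ∀ z : X, twR R X (MonoidAlgebra.single h r) x z =
        if x = h • z then MonoidAlgebra.single h r else 0 := fun z => tw_single R X h r x z
    have e2 : ∀ z : Y, twR R Y (MonoidAlgebra.single h r) z y =
        if z = h • y then MonoidAlgebra.single h r else 0 := fun z => tw_single R Y h r z y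
    rw [Finset.sum_eq_single (h⁻¹ • x), Finset.sum_eq_single (h • y)]
    · rw [e1, e2, if_pos rfl, if_pos (smul_inv_smul h x).symm, Matrix.map_apply, Matrix.map_apply,
        ← ha h (h⁻¹ • x) y, smul_inv_smul]
      change _ * ((a x (h • y) : ℤ) : MonoidAlgebra R F) =
        ((a x (h • y) : ℤ) : MonoidAlgebra R F) * _
      exact (Int.cast_commute _ _).symm.eq
    · intro z _ hz
      rw [e2, if_neg hz, mul_zero]
    · intro hz
      exact absurd (Finset.mem_univ _) hz
    · intro z _ hz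
      rw [e1, if_neg, zero_mul]
      intro e
      exact hz (by rw [e, inv_smul_smul])
    · intro hz
      exact absurd (Finset.mem_univ _) hz

private theorem single_mul_int {A : Type*} [Ring A] (k : ℤ) (s : A) (m : ℤ) :
    (AddMonoidAlgebra.single k s : A[T;T⁻¹]) * (Int.castRingHom A[T;T⁻¹] m) =
      AddMonoidAlgebra.single k (s * Int.castRingHom A m) := by
  rw [eq_intCast, eq_intCast, ← zsmul_eq_mul', ← zsmul_eq_mul']
  exact (map_zsmul (AddMonoidAlgebra.singleAddHom k : A →+ A[T;T⁻¹]) m s).symm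

private theorem int_mul_single {A : Type*} [Ring A] (k : ℤ) (s : A) (m : ℤ) :
    (Int.castRingHom A[T;T⁻¹] m) * (AddMonoidAlgebra.single k s : A[T;T⁻¹]) =
      AddMonoidAlgebra.single k (Int.castRingHom A m * s) := by
  rw [eq_intCast, eq_intCast, ← zsmul_eq_mul, ← zsmul_eq_mul]
  exact (map_zsmul (AddMonoidAlgebra.singleAddHom k : A →+ A[T;T⁻¹]) m s).symm

private theorem klm_tw_inter {X Y : Type v} [Fintype X] [Fintype Y] [DecidableEq X]
    [DecidableEq Y] [MulAction F X] [MulAction F Y]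
    (a : Matrix X Y ℤ) (ha : ∀ (h : F) x y, a (h • x) (h • y) = a x y)
    (z : (MonoidAlgebra R F)[T;T⁻¹]) :
    klm (twR R X) z * a.map (Int.castRingHom (MonoidAlgebra R F)[T;T⁻¹]) =
      a.map (Int.castRingHom (MonoidAlgebra R F)[T;T⁻¹]) * klm (twR R Y) z := by
  induction z using AddMonoidAlgebra.induction_linear with
  | zero => rw [map_zero, map_zero, Matrix.zero_mul, Matrix.mul_zero]
  | add s t hs ht => rw [map_add, map_add, Matrix.add_mul, Matrix.mul_add, hs, ht]
  | single k r =>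
    rw [klm_single, klm_single]
    refine Matrix.ext fun x y => ?_
    have h := congrArg (fun M : Matrix X Y (MonoidAlgebra R F) => M x y) (twR_inter_kf R a ha r)
    simp only [Matrix.mul_apply, Matrix.map_apply] at h
    simp only [Matrix.mul_apply, Matrix.map_apply, Matrix.of_apply, single_mul_int,
      int_mul_single]
    have h3 := congrArg (AddMonoidAlgebra.singleAddHom k :
      MonoidAlgebra R F →+ (MonoidAlgebra R F)[T;T⁻¹]) h
    rw [map_sum, map_sum] at h3
    exact h3

/-- Block diagonal matrix with equal blocks. -/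
private def bdInt {X Y : Type v} (m : ℕ) (a : Matrix X Y ℤ) : Matrix (Fin m × X) (Fin m × Y) ℤ :=
  Matrix.of fun p q => if p.1 = q.1 then a p.2 q.2 else 0

private theorem bdInt_mul {X Y Z : Type v} [Fintype Y] (m : ℕ) (a : Matrix X Y ℤ)
    (b : Matrix Y Z ℤ) : bdInt m a * bdInt m b = bdInt m (a * b) := by
  refine Matrix.ext fun p q => ?_
  obtain ⟨i, x⟩ := p
  obtain ⟨j, y⟩ := q
  rw [Matrix.mul_apply, Fintype.sum_prod_type]
  simp only [bdInt, Matrix.of_apply]
  rw [Finset.sum_eq_single i]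
  · by_cases hij : i = j
    · simp only [hij, if_true, Matrix.mul_apply]
    · simp only [if_neg hij, mul_zero, Finset.sum_const_zero]
  · intro k _ hk
    simp only [if_neg (Ne.symm hk), zero_mul, Finset.sum_const_zero]
  · intro h
    exact absurd (Finset.mem_univ _) h

private theorem bdInt_smul_one {X : Type v} [DecidableEq X] (m : ℕ) (c : ℤ) :
    bdInt m (c • (1 : Matrix X X ℤ)) = c • (1 : Matrix (Fin m × X) (Fin m × X) ℤ) := by
  refine Matrix.ext fun p q => ?_
  obtain ⟨i, x⟩ := p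
  obtain ⟨j, y⟩ := q
  simp only [bdInt, Matrix.of_apply, Matrix.smul_apply]
  by_cases hij : i = j
  · subst hij
    rw [if_pos rfl]
    by_cases hxy : x = y
    · subst hxy
      rw [Matrix.one_apply_eq, Matrix.one_apply_eq]
    · rw [Matrix.one_apply_ne hxy, Matrix.one_apply_ne]
      intro h
      exact hxy (Prod.mk.inj h).2
  · rw [if_neg hij, Matrix.one_apply_ne, smul_zero]
    intro h
    exact hij (Prod.mk.inj h).1

private theorem flat_klm_tw_inter {X Y : Type v} [Fintype X] [Fintype Y] [DecidableEq X]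
    [DecidableEq Y] [MulAction F X] [MulAction F Y]
    (a : Matrix X Y ℤ) (ha : ∀ (h : F) x y, a (h • x) (h • y) = a x y) {m : ℕ}
    (e : Matrix (Fin m) (Fin m) (MonoidAlgebra R F)[T;T⁻¹]) :
    K0.flat (klm (twR R X)) e * (bdInt m a).map (Int.castRingHom (MonoidAlgebra R F)[T;T⁻¹]) =
      (bdInt m a).map (Int.castRingHom (MonoidAlgebra R F)[T;T⁻¹]) *
        K0.flat (klm (twR R Y)) e := by
  refine Matrix.ext fun p q => ?_
  obtain ⟨i, x⟩ := p
  obtain ⟨j, y⟩ := q
  have h := congrArg (fun M : Matrix X Y (MonoidAlgebra R F)[T;T⁻¹] => M x y)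
    (klm_tw_inter R a ha (e i j))
  simp only [Matrix.mul_apply, Matrix.map_apply] at h
  rw [Matrix.mul_apply, Matrix.mul_apply, Fintype.sum_prod_type, Fintype.sum_prod_type]
  simp only [K0.flat, bdInt, Matrix.map_apply, Matrix.of_apply]
  rw [Finset.sum_eq_single j, Finset.sum_eq_single i]
  · simp only [if_true]
    exact h
  · intro k _ hk
    simp only [if_neg (Ne.symm hk), map_zero, zero_mul, Finset.sum_const_zero]
  · intro h
    exact absurd (Finset.mem_univ _) h
  · intro k _ hk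
    simp only [if_neg hk, map_zero, mul_zero, Finset.sum_const_zero]
  · intro h
    exact absurd (Finset.mem_univ _) h

theorem kpush_tw_top [Fintype (F ⧸ (⊤ : Subgroup F))] (x : Km1 (MonoidAlgebra R F)) :
    kpush (twR R (F ⧸ (⊤ : Subgroup F))) x = x := by
  obtain ⟨y, rfl⟩ := Km1.mk_surjective x
  rw [kpush_mk]
  refine congrArg (fun z => Km1.mk z) ?_
  have key : (K0.push (klm (twR R (F ⧸ (⊤ : Subgroup F)))) :
      K0 (MonoidAlgebra R F)[T;T⁻¹] →+ K0 (MonoidAlgebra R F)[T;T⁻¹]) = AddMonoidHom.id _ := by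
    apply K0.hom_ext
    intro a
    rw [K0.push_mk, AddMonoidHom.id_apply, K0.mk_eq_cls]
    apply K0.cls_congr
    have hsub : Subsingleton (F ⧸ (⊤ : Subgroup F)) := QuotientGroup.subsingleton_quotient_top
    let u0 : F ⧸ (⊤ : Subgroup F) := ((1 : F) : F ⧸ (⊤ : Subgroup F))
    let e : Fin a.n × (F ⧸ (⊤ : Subgroup F)) ≃ Fin a.n :=
      { toFun := Prod.fst
        invFun := fun i => (i, u0)
        left_inv := fun x => Prod.ext rfl (Subsingleton.elim _ _)
        right_inv := fun i => rfl }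
    have h : K0.flat (klm (twR R (F ⧸ (⊤ : Subgroup F)))) a.mat = a.mat.submatrix e e := by
      refine Matrix.ext fun i j => ?_
      exact klm_tw_top_apply R _ _ _
    rw [h]
    exact K0.matEquiv_submatrix _ a.idem e
  rw [key]
  rfl

theorem kpush_tw_inter (hR : FinMod (MonoidAlgebra R F)) {X Y : Type v} [Fintype X] [Fintype Y] [DecidableEq X] [DecidableEq Y]
    [MulAction F X] [MulAction F Y] (n : ℕ) (hn : n ≠ 0) (a : Matrix X Y ℤ) (b : Matrix Y X ℤ)
    (hab : a * b = (n : ℤ) • (1 : Matrix X X ℤ)) (hba : b * a = (n : ℤ) • (1 : Matrix Y Y ℤ))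
    (ha : ∀ (h : F) x y, a (h • x) (h • y) = a x y) (x : Km1 (MonoidAlgebra R F)) :
    kpush (twR R X) x = kpush (twR R Y) x := by
  have key : (kpush (twR R X) : Km1 (MonoidAlgebra R F) →+ Km1 (MonoidAlgebra R F)) =
      kpush (twR R Y) := by
    apply Km1.hom_ext
    intro y
    rw [kpush_mk, kpush_mk]
    have h2 : (Km1.mk.comp (K0.push (klm (twR R X))) :
        K0 (MonoidAlgebra R F)[T;T⁻¹] →+ Km1 (MonoidAlgebra R F)) =
        Km1.mk.comp (K0.push (klm (twR R Y))) := by
      apply K0.hom_ext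
      intro e
      rw [AddMonoidHom.comp_apply, AddMonoidHom.comp_apply, K0.push_mk, K0.push_mk]
      refine mk_inter hR n hn (bdInt e.n a) (bdInt e.n b) ?_ ?_ _ _ _ _ ?_
      · rw [bdInt_mul, hab, bdInt_smul_one]
      · rw [bdInt_mul, hba, bdInt_smul_one]
      · exact flat_klm_tw_inter R a ha e.mat
    exact DFunLike.congr_fun h2 y
  rw [key]

end Pool.Agent.H95.KF

end

section

/-!
# Artin induction for `K₋₁(R[F])`
-/

set_option autoImplicit false

open Matrix
open scoped LaurentPolynomial Classical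

universe u v w

namespace Pool.Agent.H95.KF

open Pool.Agent.H71.FJ (lamR twR incl)
open Pool.Agent.H95.KM Pool.Agent.H95.WH

variable (R : Type u) [CommRing R] (F : Type v) [Group F]

/-- Families indexed by a finite type. -/
private theorem kart_enum {K : Type} [Fintype K] (D : K → Subgroup F)
    (y : ∀ i, Km1 (MonoidAlgebra R (D i))) (hD : ∀ i, IsCyclic (D i)) (z : Km1 (MonoidAlgebra R F))
    (hz : z = ∑ i, Km1.map (incl R (D i)) (y i)) :
    ∃ (r : ℕ) (D : Fin r → Subgroup F) (y : ∀ i, Km1 (MonoidAlgebra R (D i))),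
      (∀ i, IsCyclic (D i)) ∧ z = ∑ i, Km1.map (incl R (D i)) (y i) :=
  ⟨Fintype.card K, fun i => D ((Fintype.equivFin K).symm i),
    fun i => y ((Fintype.equivFin K).symm i), fun i => hD _, by
      rw [hz]
      exact (Equiv.sum_comp (Fintype.equivFin K).symm
        (fun i => Km1.map (incl R (D i)) (y i))).symm⟩

/-- the relation for the permutation modules -/
private theorem kart_rel [Finite F] (hR : FinMod (MonoidAlgebra R F))
    (x : Km1 (MonoidAlgebra R F)) :
    ∃ (I J : Type) (_ : Fintype I) (_ : Fintype J) (D : I → Subgroup F) (E : J → Subgroup F)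
      (_ : ∀ i, Fintype (F ⧸ D i)) (_ : ∀ j, Fintype (F ⧸ E j)),
      (∀ i, IsCyclic (D i)) ∧ (∀ j, IsCyclic (E j)) ∧
      Nat.card F • x + ∑ i : I, kpush (twR R (F ⧸ D i)) x =
        ∑ j : J, kpush (twR R (F ⧸ E j)) x := by
  obtain ⟨I, J, hI, hJ, D, E, hf1, hf2, a, b, n, hD, hE, hn, hab, hba, ha⟩ := exists_artin_rel F
  have hfD : ∀ H : Subgroup F, Fintype (F ⧸ H) := fun H => Fintype.ofFinite _
  have key := kpush_tw_inter R hR n hn a b hab hba ha x
  refine ⟨I, J, hI, hJ, D, E, fun _ => hfD _, fun _ => hfD _, hD, hE, ?_⟩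
  rw [kpush_tw_sigma R (fun i : Fin (Nat.card F) ⊕ I => (Sum.elim (fun _ => ⊤) D i : Subgroup F)),
    kpush_tw_sigma R E, Fintype.sum_sum_type] at key
  have h1 : ∑ i : Fin (Nat.card F), kpush (twR R (F ⧸ (⊤ : Subgroup F))) x = Nat.card F • x := by
    rw [Finset.sum_const, Finset.card_univ, Fintype.card_fin, kpush_tw_top]
  rw [← h1]
  exact key

/-- **Artin induction** for `K₋₁(R[F])`. -/
theorem artin_Km1 [Finite F] (hR : FinMod (MonoidAlgebra R F)) (x : Km1 (MonoidAlgebra R F)) :
    ∃ (m r : ℕ) (D : Fin r → Subgroup F) (y : ∀ i, Km1 (MonoidAlgebra R (D i))),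
      0 < m ∧ (∀ i, IsCyclic (D i)) ∧ m • x = ∑ i, Km1.map (incl R (D i)) (y i) := by
  obtain ⟨I, J, hI, hJ, D, E, hfD, hfE, hD, hE, key⟩ := kart_rel R F hR x
  obtain ⟨r, DD, y, h1, h2⟩ := kart_enum R F (K := J ⊕ I) (Sum.elim E D)
    (fun i => match i with
      | Sum.inl j => kpush (lamR R (E j)) x
      | Sum.inr i => -kpush (lamR R (D i)) x)
    (by
      rintro (i | i)
      · exact hE i
      · exact hD i) (Nat.card F • x) (by
      rw [Fintype.sum_sum_type]
      have h4 : ∀ j : J, Km1.map (incl R (E j)) (kpush (lamR R (E j)) x) =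
          kpush (twR R (F ⧸ E j)) x := fun j => ind_kres R _ x
      have h5 : ∀ j : I, Km1.map (incl R (D j)) (-kpush (lamR R (D j)) x) =
          -kpush (twR R (F ⧸ D j)) x := by
        intro j
        rw [map_neg, ind_kres]
      refine Eq.trans ?_ (congrArg₂ (· + ·) (Finset.sum_congr rfl (fun j _ => (h4 j).symm))
        (Finset.sum_congr rfl (fun j _ => (h5 j).symm)))
      rw [Finset.sum_neg_distrib, ← key]
      abel)
  exact ⟨Nat.card F, r, DD, y, Nat.card_pos, h1, h2⟩

end Pool.Agent.H95.KF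

end

section

/-!
# Project KF, module FinM: group rings of finite groups

## Paper proof

Torsion freeness: coefficientwise. `B = MonoidAlgebra (R ⧸ (n)) F`, `π = MonoidAlgebra.mapRingHom F (Ideal.Quotient.mk _)`;
see `artR_div` and `powMod_of_finite` in `Pool/Agent/H95/WH/ArtKR.lean` (copy the private lemma) for the kernel and for
finiteness. The universe: `B : Type (max u v)` if `MonoidAlgebra R F : Type (max u v)`; fine.
-/

set_option autoImplicit false

open Matrix

universe u v w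

namespace Pool.Agent.H95.KF

private theorem finM_div (R : Type u) [CommRing R] (F : Type v) [Group F] (n : ℕ)
    (r : MonoidAlgebra R F)
    (h : MonoidAlgebra.mapRingHom F (Ideal.Quotient.mk (Ideal.span {(n : R)})) r = 0) :
    ∃ z : MonoidAlgebra R F, r = (n : ℤ) • z := by
  have h0 : ∀ t : R, ∃ z : R, Ideal.Quotient.mk (Ideal.span {(n : R)}) t = 0 → t = (n : R) * z := by
    intro t
    by_cases ht : Ideal.Quotient.mk (Ideal.span {(n : R)}) t = 0
    · rw [Ideal.Quotient.eq_zero_iff_mem, Ideal.mem_span_singleton] at ht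
      obtain ⟨z, hz⟩ := ht
      exact ⟨z, fun _ => hz⟩
    · exact ⟨0, fun h => absurd h ht⟩
  choose f hf using h0
  classical
  let g : R → R := fun t => if t = 0 then 0 else f t
  refine ⟨MonoidAlgebra.ofCoeff (r.coeff.mapRange g (by simp [g])), ?_⟩
  ext x
  have h1 : (MonoidAlgebra.mapRingHom F (Ideal.Quotient.mk (Ideal.span {(n : R)})) r).coeff x = 0 := by
    rw [h]
    rfl
  rw [MonoidAlgebra.coeff_mapRingHom] at h1
  change r.coeff x = (n : ℤ) • (g (r.coeff x))
  by_cases h2 : r.coeff x = 0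
  · simp [h2, g]
  · simp only [g, if_neg h2, natCast_zsmul, nsmul_eq_mul]
    exact hf _ h1

theorem finMod_monoidAlgebra (R : Type u) [CommRing R] (F : Type v) [Group F] [Finite F]
    (h1 : ∀ n : ℕ, n ≠ 0 → ∀ x : R, (n : ℤ) • x = 0 → x = 0)
    (h2 : ∀ n : ℕ, n ≠ 0 → Finite (R ⧸ Ideal.span {(n : R)})) : FinMod (MonoidAlgebra R F) := by
  refine ⟨?_, ?_⟩
  · intro n hn x hx
    ext g
    refine h1 n hn (x.coeff g) ?_
    have h3 : ((n : ℤ) • x).coeff g = (0 : MonoidAlgebra R F).coeff g := by rw [hx]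
    exact h3
  · intro n hn
    have hfin := h2 n hn
    refine ⟨MonoidAlgebra (R ⧸ Ideal.span {(n : R)}) F, inferInstance,
      MonoidAlgebra.mapRingHom F (Ideal.Quotient.mk (Ideal.span {(n : R)})), ?_, ?_⟩
    · exact Finite.of_injective (fun x : MonoidAlgebra (R ⧸ Ideal.span {(n : R)}) F =>
        (⇑x.coeff : F → R ⧸ Ideal.span {(n : R)}))
        (DFunLike.coe_injective.comp MonoidAlgebra.coeff_injective)
    · refine ⟨?_, ?_⟩
      · intro y
        obtain ⟨s, hs⟩ := Function.Surjective.hasRightInverse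
          (Ideal.Quotient.mk_surjective (I := Ideal.span {(n : R)}))
        classical
        let g : R ⧸ Ideal.span {(n : R)} → R := fun t => if t = 0 then 0 else s t
        refine ⟨MonoidAlgebra.ofCoeff (y.coeff.mapRange g (by simp [g])), ?_⟩
        ext x
        rw [MonoidAlgebra.coeff_mapRingHom]
        change Ideal.Quotient.mk (Ideal.span {(n : R)}) (g (y.coeff x)) = y.coeff x
        by_cases h3 : y.coeff x = 0
        · simp [h3, g]
        · simp only [g, if_neg h3]
          exact hs _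
      · intro x
        refine ⟨fun h => finM_div R F n x h, ?_⟩
        rintro ⟨y, rfl⟩
        ext g
        rw [MonoidAlgebra.coeff_mapRingHom]
        change Ideal.Quotient.mk (Ideal.span {(n : R)}) ((n : ℤ) • (y.coeff g)) = 0
        rw [natCast_zsmul, nsmul_eq_mul, Ideal.Quotient.eq_zero_iff_mem, Ideal.mem_span_singleton]
        exact Dvd.intro _ rfl

end Pool.Agent.H95.KF

end
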