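import Pool.Agent.H94.FJ.H95.KM.Lau

/-! The parts of this file: H95.KM.FouDefs, H95.KM.Fou, H95.KM.FinRing, H95.KM.Words, H95.KM.Der, H95.KM.Window, H95.KF.Defs, H95.KF.Stp, H95.KF.Pm, H95.KF.Sch, H95.KF.Rep. -/

section

/-!
# Project KM: the Fourier transform of the group ring of a finite abelian group

`O` is a domain with enough roots of unity, `C` a finite commutative group (given as a `Group`
with a commutativity hypothesis, because it will be a subgroup of a noncommutative group),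
`C →* Oˣ` its dual, and `f : O → R` a homomorphism to a commutative ring.
`fou f : R[C] → ((C →* Oˣ) → R)` sends `c` to `(f (χ c))_χ`.
-/

set_option autoImplicit false

open Matrix
open scoped LaurentPolynomial

universe u v w

namespace Pool.Agent.H95.KM

section

variable {O : Type} [CommRing O] {R : Type} [CommRing R] (f : O →+* R) (C : Type v) [Group C]

/-- The Fourier transform `R[C] → ((C →* Oˣ) → R)`. -/
noncomputable def fou : MonoidAlgebra R C →+* ((C →* Oˣ) → R) :=
  RingHom.pi fun χ => (MonoidAlgebra.lift R R C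
    (((f : O →* R).comp (Units.coeHom O)).comp χ)).toRingHom

variable {C}

theorem fou_single (c : C) (r : R) (χ : C →* Oˣ) :
    fou f C (MonoidAlgebra.single c r) χ = r * f (χ c) := by
  change MonoidAlgebra.lift R R C _ (MonoidAlgebra.single c r) = _
  rw [MonoidAlgebra.lift_single]
  rfl

/-- naturality in the group -/
theorem fou_mapDomain {C' : Type v} [Group C'] (h : C →* C') (x : MonoidAlgebra R C)
    (χ : C' →* Oˣ) :
    fou f C' (MonoidAlgebra.mapDomainRingHom R h x) χ = fou f C x (χ.comp h) := by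
  induction x using MonoidAlgebra.induction_linear with
  | zero => simp
  | add a b ha hb => rw [map_add, map_add, Pi.add_apply, ha, hb, map_add, Pi.add_apply]
  | single g r =>
    change fou f C' (MonoidAlgebra.mapDomain h (MonoidAlgebra.single g r)) χ = _
    rw [MonoidAlgebra.mapDomain_single, fou_single, fou_single]
    rfl

/-- naturality in the coefficients -/
theorem fou_mapRing {R' : Type} [CommRing R'] (g : R →+* R') (x : MonoidAlgebra R C)
    (χ : C →* Oˣ) :
    fou (g.comp f) C (MonoidAlgebra.mapRingHom C g x) χ = g (fou f C x χ) := by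
  induction x using MonoidAlgebra.induction_linear with
  | zero => simp
  | add a b ha hb => rw [map_add, map_add, Pi.add_apply, ha, hb, map_add, Pi.add_apply, map_add]
  | single c r =>
    rw [MonoidAlgebra.mapRingHom_single, fou_single, fou_single, map_mul]
    rfl

end

/-- The idempotent-like element `∑_c χ(c)⁻¹ c = |C| 1_χ` of `R[C]`. -/
noncomputable def eChi {O : Type} [CommRing O] {R : Type} [CommRing R] (f : O →+* R)
    {C : Type v} [Group C] [Fintype C] (χ : C →* Oˣ) : MonoidAlgebra R C :=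
  ∑ c : C, MonoidAlgebra.single c (f (((χ c)⁻¹ : Oˣ) : O))

end Pool.Agent.H95.KM

end

section

/-!
# Project KM, module Fou: orthogonality relations and consequences

`fou`, `eChi` are in `Pool/Agent/H95/KM/FouDefs.lean`.

* `sum_chi`: `∑_c χ(c) = 0` for `χ ≠ 1` in the domain `O` (Mathlib `sum_hom_units`, applied to the
  composite `C →* O`).
* `card_dual`, `finite_dual`, `sum_dual`: with `let _ : CommGroup C := { ‹Group C› with mul_comm := hC }`
  use `CommGroup.card_monoidHom_of_hasEnoughRootsOfUnity`,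
  `CommGroup.exists_apply_ne_one_of_hasEnoughRootsOfUnity`,
  `HasEnoughRootsOfUnity.of_dvd` (`Monoid.exponent C ∣ Nat.card C ∣ N`).
  `∑_χ χ(c) = 0` for `c ≠ 1`: choose `ψ` with `ψ c ≠ 1`; multiplication by `ψ` permutes the dual, so
  `(ψ c) S = S` and `O` is a domain.
* `fou_eChi`: `fou f C (eChi f χ) = |C| · Pi.single χ 1` by `sum_chi` applied to `χ⁻¹ χ'`.
* `exists_fou`: `F = ∑_χ Pi.single χ (F χ)`, so `|C| F = fou (∑_χ single 1 (F χ) * eChi f χ)`.
* `fou_injective`: if `fou x = 0`, `x = ∑_c x_c c`, then for `d ∈ C`: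
  `0 = ∑_χ f (χ d⁻¹) (fou x χ) = ∑_c x_c ∑_χ f (χ (c d⁻¹)) = |C| x_d` by `sum_dual`, `card_dual`.
-/

set_option autoImplicit false

open Matrix
open scoped LaurentPolynomial

universe u v w

namespace Pool.Agent.H95.KM

variable {O : Type} [CommRing O] [IsDomain O] {C : Type v} [Group C]

theorem sum_chi [Fintype C] (χ : C →* Oˣ) (hχ : χ ≠ 1) : ∑ c : C, ((χ c : Oˣ) : O) = 0 := by
  apply sum_hom_units_eq_zero ((Units.coeHom O).comp χ)
  intro h
  apply hχ
  ext c
  exact congrArg (fun g : C →* O => g c) h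

theorem card_dual [Finite C] (N : ℕ) [NeZero N] [HasEnoughRootsOfUnity O N]
    (hC : ∀ a b : C, a * b = b * a) (hN : Nat.card C ∣ N) :
    Nat.card (C →* Oˣ) = Nat.card C := by
  let _ : CommGroup C := { ‹Group C› with mul_comm := hC }
  have h1 : Monoid.exponent C ∣ N := dvd_trans Group.exponent_dvd_nat_card hN
  have : HasEnoughRootsOfUnity O (Monoid.exponent C) := HasEnoughRootsOfUnity.of_dvd O h1
  exact CommGroup.card_monoidHom_of_hasEnoughRootsOfUnity C O

theorem finite_dual [Finite C] (N : ℕ) [NeZero N] [HasEnoughRootsOfUnity O N]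
    (hC : ∀ a b : C, a * b = b * a) (hN : Nat.card C ∣ N) : Finite (C →* Oˣ) := by
  apply Nat.finite_of_card_ne_zero
  rw [card_dual N hC hN]
  exact Nat.card_pos.ne'

theorem fou_exists_ne [Finite C] (N : ℕ) [NeZero N] [HasEnoughRootsOfUnity O N]
    (hC : ∀ a b : C, a * b = b * a) (hN : Nat.card C ∣ N) (c : C) (hc : c ≠ 1) :
    ∃ ψ : C →* Oˣ, ψ c ≠ 1 := by
  let _ : CommGroup C := { ‹Group C› with mul_comm := hC }
  have h1 : Monoid.exponent C ∣ N := dvd_trans Group.exponent_dvd_nat_card hN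
  have : HasEnoughRootsOfUnity O (Monoid.exponent C) := HasEnoughRootsOfUnity.of_dvd O h1
  exact CommGroup.exists_apply_ne_one_of_hasEnoughRootsOfUnity C O hc

theorem sum_dual [Finite C] (N : ℕ) [NeZero N] [HasEnoughRootsOfUnity O N]
    (hC : ∀ a b : C, a * b = b * a) (hN : Nat.card C ∣ N) [Fintype (C →* Oˣ)] (c : C)
    (hc : c ≠ 1) : ∑ χ : C →* Oˣ, ((χ c : Oˣ) : O) = 0 := by
  obtain ⟨ψ, hψ⟩ := fou_exists_ne (O := O) N hC hN c hc
  have h1 : ((ψ c : Oˣ) : O) * ∑ χ : C →* Oˣ, ((χ c : Oˣ) : O) =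
      ∑ χ : C →* Oˣ, ((χ c : Oˣ) : O) := by
    rw [Finset.mul_sum]
    apply Fintype.sum_equiv (Equiv.mulLeft ψ)
    intro χ
    rw [Equiv.coe_mulLeft, MonoidHom.mul_apply, Units.val_mul]
  have h2 : (((ψ c : Oˣ) : O) - 1) * ∑ χ : C →* Oˣ, ((χ c : Oˣ) : O) = 0 := by
    rw [sub_mul, one_mul, h1, sub_self]
  rcases mul_eq_zero.1 h2 with h | h
  · exact absurd (Units.ext (sub_eq_zero.1 h)) hψ
  · exact h

variable {R : Type} [CommRing R] (f : O →+* R)

theorem fou_eChi [Fintype C] [DecidableEq (C →* Oˣ)] (χ : C →* Oˣ) :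
    fou f C (eChi f χ) = Pi.single χ (Fintype.card C : R) := by
  ext χ'
  rw [eChi, map_sum, Finset.sum_apply]
  have h1 : ∀ c : C, fou f C (MonoidAlgebra.single c (f (((χ c)⁻¹ : Oˣ) : O))) χ' =
      f (((χ⁻¹ * χ') c : Oˣ) : O) := by
    intro c
    rw [fou_single, ← map_mul, MonoidHom.mul_apply, MonoidHom.inv_apply, Units.val_mul]
  rw [Finset.sum_congr rfl (fun c _ => h1 c), ← map_sum]
  by_cases h : χ' = χ
  · subst h
    have h3 : ∀ c : C, (((χ'⁻¹ * χ') c : Oˣ) : O) = 1 := by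
      intro c
      rw [MonoidHom.mul_apply, MonoidHom.inv_apply, inv_mul_cancel, Units.val_one]
    rw [Pi.single_eq_same, Finset.sum_congr rfl (fun c _ => h3 c)]
    simp
  · rw [Pi.single_eq_of_ne h, sum_chi, map_zero]
    intro h2
    exact h (inv_mul_eq_one.1 h2).symm

theorem exists_fou [Finite C] [Finite (C →* Oˣ)] (F : (C →* Oˣ) → R) :
    ∃ x, fou f C x = fun χ => (Nat.card C : R) * F χ := by
  classical
  cases nonempty_fintype C
  cases nonempty_fintype (C →* Oˣ)
  refine ⟨∑ χ : C →* Oˣ, MonoidAlgebra.single 1 (F χ) * eChi f χ, ?_⟩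
  ext χ'
  rw [map_sum, Finset.sum_apply]
  have h1 : ∀ χ : C →* Oˣ, fou f C (MonoidAlgebra.single 1 (F χ) * eChi f χ) χ' =
      F χ * (Pi.single χ (Fintype.card C : R) : (C →* Oˣ) → R) χ' := by
    intro χ
    rw [map_mul, fou_eChi, Pi.mul_apply, fou_single, map_one, Units.val_one, map_one, mul_one]
  rw [Finset.sum_congr rfl (fun c _ => h1 c), Finset.sum_eq_single χ']
  · rw [Pi.single_eq_same, Nat.card_eq_fintype_card, mul_comm]
  · intro χ _ hχ
    rw [Pi.single_eq_of_ne hχ.symm, mul_zero]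
  · intro h
    exact absurd (Finset.mem_univ _) h

theorem fou_apply_eq [Fintype C] (x : MonoidAlgebra R C) (χ : C →* Oˣ) :
    fou f C x χ = ∑ c : C, x.coeff c * f (χ c) := by
  classical
  induction x using MonoidAlgebra.induction_linear with
  | zero => simp
  | add a b ha hb =>
    rw [map_add, Pi.add_apply, ha, hb, ← Finset.sum_add_distrib]
    apply Finset.sum_congr rfl
    intro c _
    rw [MonoidAlgebra.coeff_add, Finsupp.add_apply, add_mul]
  | single c r =>
    rw [fou_single, Finset.sum_eq_single c]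
    · rw [MonoidAlgebra.coeff_single, Finsupp.single_eq_same]
    · intro b _ hb
      rw [MonoidAlgebra.coeff_single, Finsupp.single_eq_of_ne hb, zero_mul]
    · intro h
      exact absurd (Finset.mem_univ _) h

theorem fou_injective [Finite C] (N : ℕ) [NeZero N] [HasEnoughRootsOfUnity O N]
    (hC : ∀ a b : C, a * b = b * a) (hN : Nat.card C ∣ N)
    (hR : ∀ r : R, (Nat.card C : R) * r = 0 → r = 0) : Function.Injective (fou f C) := by
  classical
  cases nonempty_fintype C
  have := finite_dual (O := O) N hC hN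
  cases nonempty_fintype (C →* Oˣ)
  rw [injective_iff_map_eq_zero]
  intro x hx
  ext d
  rw [MonoidAlgebra.coeff_zero, Finsupp.zero_apply]
  apply hR
  have h1 : ∑ χ : C →* Oˣ, f (χ d⁻¹) * fou f C x χ = 0 := by
    rw [hx]
    simp
  rw [← h1]
  have h2 : ∀ χ : C →* Oˣ, f (χ d⁻¹) * fou f C x χ =
      ∑ c : C, x.coeff c * f (((χ (c * d⁻¹) : Oˣ)) : O) := by
    intro χ
    rw [fou_apply_eq, Finset.mul_sum]
    apply Finset.sum_congr rfl
    intro c _
    rw [map_mul χ, Units.val_mul, map_mul f]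
    ring
  rw [Finset.sum_congr rfl (fun χ _ => h2 χ), Finset.sum_comm, Finset.sum_eq_single d]
  · rw [← Finset.mul_sum, mul_inv_cancel, ← card_dual (O := O) N hC hN, mul_comm]
    congr 1
    simp
  · intro c _ hc
    rw [← Finset.mul_sum, ← map_sum, sum_dual N hC hN, map_zero, mul_zero]
    intro h
    exact hc (mul_inv_eq_one.1 h)
  · intro h
    exact absurd (Finset.mem_univ _) h

end Pool.Agent.H95.KM

end

section

/-!
# Project KM: finite commutative rings and their maximal ideals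
-/

set_option autoImplicit false

universe u v w

namespace Pool.Agent.H95.KM

open Pool.Agent.H71.FJ

variable (A : Type u) [CommRing A]

/-- The product of the residue maps. -/
def resPi : A →+* ∀ m : MaximalSpectrum A, A ⧸ m.asIdeal :=
  RingHom.pi fun m => Ideal.Quotient.mk m.asIdeal

variable [Finite A]

theorem resPi_surjective : Function.Surjective (resPi A) := by
  classical
  have h : Pairwise fun m m' : MaximalSpectrum A => IsCoprime m.asIdeal m'.asIdeal := by
    intro m m' hmm'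
    rw [Ideal.isCoprime_iff_sup_eq]
    exact Ideal.IsMaximal.coprime_of_ne m.isMaximal m'.isMaximal
      (fun h => hmm' (MaximalSpectrum.ext h))
  have := Ideal.quotientInfToPiQuotient_surj (I := fun m : MaximalSpectrum A => m.asIdeal) h
  intro y
  obtain ⟨x, hx⟩ := this y
  obtain ⟨a, rfl⟩ := Ideal.Quotient.mk_surjective x
  exact ⟨a, hx⟩

omit [Finite A] in
theorem mem_jacobson_of_resPi {x : A} (hx : resPi A x = 0) : x ∈ (⊥ : Ideal A).jacobson := by
  rw [Ideal.jacobson, Ideal.mem_sInf]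
  rintro J ⟨_, hJ⟩
  exact Ideal.Quotient.eq_zero_iff_mem.1 (congrFun hx ⟨J, hJ⟩)

theorem resPi_nilKer : NilKer (resPi A) := by
  obtain ⟨k, hk⟩ := IsArtinianRing.isNilpotent_jacobson_bot (R := A)
  refine ⟨k, fun j => ((Ideal.jacobson (⊥ : Ideal A)) ^ j).toAddSubgroup, ?_, ?_, ?_⟩
  · intro x
    change x ∈ (Ideal.jacobson (⊥ : Ideal A)) ^ 0
    rw [pow_zero, Ideal.one_eq_top]
    trivial
  · intro x hx
    change x ∈ (Ideal.jacobson (⊥ : Ideal A)) ^ k at hx
    rw [hk] at hx
    simpa using hx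
  · intro j x y hx hy
    change x * y ∈ (Ideal.jacobson (⊥ : Ideal A)) ^ (j + 1)
    rw [pow_succ']
    exact Ideal.mul_mem_mul (mem_jacobson_of_resPi A hx) hy

theorem exists_orth [Fintype (MaximalSpectrum A)] : ∃ κ : MaximalSpectrum A → A,
    CompleteOrthogonalIdempotents κ ∧ ∀ m, κ m ∉ m.asIdeal := by
  classical
  obtain ⟨κ, h1, h2⟩ := CompleteOrthogonalIdempotents.lift_of_isNilpotent_ker (resPi A)
    (fun x hx => (resPi_nilKer A).isNilpotent (RingHom.mem_ker.1 hx))
    (e := fun m => Pi.single m 1)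
    (CompleteOrthogonalIdempotents.single (fun m : MaximalSpectrum A => A ⧸ m.asIdeal))
    (fun m => resPi_surjective A _)
  refine ⟨κ, h1, fun m hm => ?_⟩
  have h3 := congrFun (congrFun h2 m) m
  have h4 : resPi A (κ m) m = 0 := Ideal.Quotient.eq_zero_iff_mem.2 hm
  rw [Function.comp_apply, h4, Pi.single_eq_same] at h3
  have := m.isMaximal
  exact zero_ne_one h3

omit [Finite A] in
theorem isUnit_of_forall_notMem (a : A) (h : ∀ m : MaximalSpectrum A, a ∉ m.asIdeal) :
    IsUnit a := by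
  by_contra ha
  obtain ⟨M, hM, haM⟩ := exists_max_ideal_of_mem_nonunits ha
  exact h ⟨M, hM⟩ haM

end Pool.Agent.H95.KM

end

section

/-!
# Project KM, module Words: traces of `p`-power powers of sums

PROOF of `card_orbits_congr`.  `C = ZMod (p ^ m)` (written multiplicatively or additively) acts on
the finite set `X` by powers of a permutation `ρ : Equiv.Perm X` with `ρ ^ (p ^ m) = 1`, and `F` is
invariant.  A point `x` not fixed by `ρ ^ (p ^ K)` has orbit size `p ^ j` with `j ≥ K + 1` (the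
orbit size is a power `p ^ j` with `j ≤ m`, and it is the least `n > 0` with `ρ ^ n x = x`; if
`j ≤ K` then `ρ ^ (p ^ K) x = x`).  The set of points not fixed by `ρ ^ (p ^ K)` is invariant and a
disjoint union of orbits, on each of which `F` is constant, so the sum of `F` over it is a
multiple of `p ^ (K + 1)`.  (One possibility: sum over the quotient of `X` by the orbit relation /
the cycles `Equiv.Perm.SameCycle`; the class of `x` has
`Function.minimalPeriod ρ x = p ^ j` elements `ρ ^ i x`, `i < p ^ j`.)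

PROOF of `words`.  Expand `(∑ s, x s) ^ (p ^ m) = ∑_{w : Fin (p ^ m) → S} ∏ x (w i)` (noncommutative,
ordered product over `List.ofFn`; e.g. `Finset.sum_pow'`-like lemma by induction, or use words
`w : Fin n → S` and `List.ofFn`).  Apply `card_orbits_congr` to `X = Fin (p ^ m) → S`, `ρ` = rotation
by one (`w ↦ fun i => w (i + 1)` cyclically, `finRotate`), `F w = τ (x_w)`, invariant by the trace
property `τ (a b) = τ (b a)`.  The words fixed by the rotation by `p ^ K` are exactly the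
`w = ω ω ⋯ ω` (`p ^ (m - K)` times), `ω : Fin (p ^ K) → S`, i.e. `w i = ω (i mod p ^ K)`, and
`x_w = (x_ω) ^ (p ^ (m - K))`.
-/

set_option autoImplicit false

namespace Pool.Agent.H95.KM

/-- a sum of an invariant function over an invariant set all of whose orbits have size divisible
by `q` is divisible by `q` -/
private theorem Words_orbit_sum {X : Type*} [DecidableEq X] {M : Type*} [AddCommGroup M]
    (q : ℕ) (ρ : Equiv.Perm X) (F : X → M) (hF : ∀ x, F (ρ x) = F x) :
    ∀ N : Finset X, (∀ x ∈ N, ρ x ∈ N) →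
      (∀ x ∈ N, q ∣ Function.minimalPeriod ρ x ∧ 0 < Function.minimalPeriod ρ x) →
      ∃ y : M, ∑ x ∈ N, F x = q • y := by
  intro N
  induction N using Finset.strongInduction with
  | H N ih =>
    intro hinv hper
    rcases N.eq_empty_or_nonempty with h | ⟨x, hx⟩
    · subst h
      exact ⟨0, by simp⟩
    · obtain ⟨⟨k, hk⟩, hpos⟩ := hper x hx
      set n := Function.minimalPeriod ρ x with hn
      set O : Finset X := (Finset.range n).image (fun i => ρ^[i] x) with hO
      have hiter : ∀ i, ρ^[i] x ∈ N := by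
        intro i
        induction i with
        | zero => simpa using hx
        | succ i ih =>
          rw [Function.iterate_succ_apply']
          exact hinv _ ih
      have hON : O ⊆ N := by
        intro y hy
        obtain ⟨i, _, rfl⟩ := Finset.mem_image.1 hy
        exact hiter i
      have hxO : x ∈ O := Finset.mem_image.2 ⟨0, Finset.mem_range.2 hpos, rfl⟩
      have hFi : ∀ i, F (ρ^[i] x) = F x := by
        intro i
        induction i with
        | zero => rfl
        | succ i ih => rw [Function.iterate_succ_apply', hF, ih]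
      have hsumO : ∑ y ∈ O, F y = n • F x := by
        rw [hO, Finset.sum_image]
        · rw [Finset.sum_congr rfl (fun i _ => hFi i), Finset.sum_const, Finset.card_range]
        · intro i hi j hj hij
          exact Function.iterate_injOn_Iio_minimalPeriod
            (by simpa [hn] using hi) (by simpa [hn] using hj) hij
      have hper0 : ρ^[n] x = x := Function.iterate_minimalPeriod
      have hback : ∀ y, ρ y ∈ O → y ∈ O := by
        intro y hy
        obtain ⟨i, hi, hiy⟩ := Finset.mem_image.1 hy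
        have hi' := Finset.mem_range.1 hi
        rcases Nat.eq_zero_or_pos i with h | h
        · subst h
          have h1 : ρ (ρ^[n - 1] x) = ρ y := by
            rw [← hiy, ← Function.iterate_succ_apply' ρ, Nat.sub_one, Nat.succ_pred_eq_of_pos hpos]
            exact hper0
          have h2 := ρ.injective h1
          rw [← h2]
          exact Finset.mem_image.2 ⟨n - 1, Finset.mem_range.2 (by omega), rfl⟩
        · obtain ⟨j, rfl⟩ : ∃ j, i = j + 1 := ⟨i - 1, by omega⟩
          simp only [Function.iterate_succ_apply'] at hiy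
          have h2 := ρ.injective hiy
          rw [← h2]
          exact Finset.mem_image.2 ⟨j, Finset.mem_range.2 (by omega), rfl⟩
      have hlt : N \ O ⊂ N := by
        refine Finset.ssubset_iff_subset_ne.2 ⟨Finset.sdiff_subset, fun h => ?_⟩
        rw [← h] at hx
        exact (Finset.mem_sdiff.1 hx).2 hxO
      obtain ⟨y, hy⟩ := ih (N \ O) hlt (by
        intro z hz
        obtain ⟨hz1, hz2⟩ := Finset.mem_sdiff.1 hz
        exact Finset.mem_sdiff.2 ⟨hinv z hz1, fun h => hz2 (hback z h)⟩) (by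
        intro z hz
        exact hper z (Finset.mem_sdiff.1 hz).1)
      refine ⟨y + k • F x, ?_⟩
      rw [← Finset.sum_sdiff hON, hy, hsumO, hk, nsmul_add, mul_nsmul']

theorem card_orbits_congr {X : Type*} [Fintype X] [DecidableEq X] {M : Type*} [AddCommGroup M]
    (p : ℕ) [Fact p.Prime] (m K : ℕ) (hK : K ≤ m) (ρ : Equiv.Perm X) (hρ : ρ ^ (p ^ m) = 1)
    (F : X → M) (hF : ∀ x, F (ρ x) = F x) :
    ∃ y : M, ∑ x, F x = ∑ x ∈ Finset.univ.filter (fun x => (ρ ^ (p ^ K)) x = x), F x +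
      (p ^ (K + 1)) • y := by
  have hp : p.Prime := Fact.out
  have hpow : ∀ (k : ℕ) (x : X), (ρ ^ k) x = ρ^[k] x := fun k x => by
    rw [Equiv.Perm.iterate_eq_pow]
  have hper : ∀ x, Function.IsPeriodicPt ρ (p ^ m) x := by
    intro x
    change ρ^[p ^ m] x = x
    rw [← hpow, hρ]; rfl
  obtain ⟨y, hy⟩ := Words_orbit_sum (p ^ (K + 1)) ρ F hF
    (Finset.univ.filter (fun x => ¬ (ρ ^ (p ^ K)) x = x)) (by
      intro x hx
      rw [Finset.mem_filter] at hx ⊢
      refine ⟨Finset.mem_univ _, fun h => hx.2 ?_⟩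
      have h1 : ρ ((ρ ^ (p ^ K)) x) = ρ x := by
        rw [← Equiv.Perm.mul_apply, ← pow_succ', pow_succ, Equiv.Perm.mul_apply]
        exact h
      exact ρ.injective h1) (by
      intro x hx
      have hx2 := (Finset.mem_filter.1 hx).2
      have hd := (hper x).minimalPeriod_dvd
      obtain ⟨j, hj, hj2⟩ := (Nat.dvd_prime_pow hp).1 hd
      have hjK : K + 1 ≤ j := by
        by_contra hlt
        apply hx2
        rw [hpow]
        have hdvd : Function.minimalPeriod ρ x ∣ p ^ K := by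
          rw [hj2]
          exact pow_dvd_pow p (by omega)
        exact (Function.isPeriodicPt_iff_minimalPeriod_dvd.2 hdvd)
      refine ⟨?_, ?_⟩
      · rw [hj2]
        exact pow_dvd_pow p hjK
      · rw [hj2]
        exact pow_pos hp.pos j)
  refine ⟨y, ?_⟩
  rw [← hy]
  exact (Finset.sum_filter_add_sum_filter_not Finset.univ (fun x => (ρ ^ (p ^ K)) x = x) F).symm

/-- expansion of a power of a sum -/
private theorem Words_expand {R : Type*} [Ring R] {S : Type*} [Fintype S] (x : S → R) :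
    ∀ n : ℕ, (∑ s, x s) ^ n = ∑ w : Fin n → S, (List.ofFn (fun i => x (w i))).prod := by
  intro n
  induction n with
  | zero => simp
  | succ n ih =>
    rw [pow_succ', ih, Finset.sum_mul_sum, ← Finset.sum_product', Finset.univ_product_univ]
    refine Fintype.sum_equiv (Fin.consEquiv (fun _ : Fin (n + 1) => S)) _ _ ?_
    rintro ⟨a, v⟩
    rw [List.ofFn_succ, List.prod_cons]
    rfl

/-- cyclic shift of positions -/
private def Words_sh (N : ℕ) (hN : 0 < N) (k : ℕ) (i : Fin N) : Fin N :=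
  ⟨((i : ℕ) + k) % N, Nat.mod_lt _ hN⟩

private theorem Words_sh_sh {N : ℕ} (hN : 0 < N) (k l : ℕ) (i : Fin N) :
    Words_sh N hN k (Words_sh N hN l i) = Words_sh N hN (l + k) i := by
  apply Fin.ext
  change (((i : ℕ) + l) % N + k) % N = ((i : ℕ) + (l + k)) % N
  rw [Nat.mod_add_mod, Nat.add_assoc]

private theorem Words_sh_zero {N : ℕ} (hN : 0 < N) (i : Fin N) : Words_sh N hN 0 i = i := by
  apply Fin.ext
  change ((i : ℕ) + 0) % N = (i : ℕ)
  rw [Nat.add_zero, Nat.mod_eq_of_lt i.2]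

private theorem Words_sh_self {N : ℕ} (hN : 0 < N) (i : Fin N) : Words_sh N hN N i = i := by
  apply Fin.ext
  change ((i : ℕ) + N) % N = (i : ℕ)
  rw [Nat.add_mod_right, Nat.mod_eq_of_lt i.2]

/-- rotation of words -/
private def Words_rot (N : ℕ) (hN : 0 < N) (S : Type*) : Equiv.Perm (Fin N → S) where
  toFun w i := w (Words_sh N hN 1 i)
  invFun w i := w (Words_sh N hN (N - 1) i)
  left_inv w := by
    funext i
    change w (Words_sh N hN 1 (Words_sh N hN (N - 1) i)) = w i
    rw [Words_sh_sh, Nat.sub_add_cancel hN, Words_sh_self]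
  right_inv w := by
    funext i
    change w (Words_sh N hN (N - 1) (Words_sh N hN 1 i)) = w i
    rw [Words_sh_sh, Nat.add_sub_cancel' hN, Words_sh_self]

private theorem Words_rot_apply {N : ℕ} (hN : 0 < N) {S : Type*} (w : Fin N → S) (i : Fin N) :
    Words_rot N hN S w i = w (Words_sh N hN 1 i) := rfl

private theorem Words_rot_pow {N : ℕ} (hN : 0 < N) {S : Type*} (k : ℕ) (w : Fin N → S) (i : Fin N) :
    ((Words_rot N hN S) ^ k) w i = w (Words_sh N hN k i) := by
  induction k generalizing i with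
  | zero => rw [Words_sh_zero, pow_zero]; rfl
  | succ k ih =>
    rw [pow_succ', Equiv.Perm.mul_apply, Words_rot_apply, ih, Words_sh_sh, Nat.add_comm 1 k]

private theorem Words_trace {R : Type*} [Ring R] {M : Type*} [AddCommGroup M] (τ : R →+ M)
    (hτ : ∀ a b, τ (a * b) = τ (b * a)) {S : Type*} (x : S → R) {N : ℕ} (hN : 0 < N)
    (w : Fin N → S) :
    τ (List.ofFn (fun i => x (Words_rot N hN S w i))).prod = τ (List.ofFn (fun i => x (w i))).prod := by
  obtain ⟨n, rfl⟩ : ∃ n, N = n + 1 := ⟨N - 1, by omega⟩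
  have h1 : Words_sh (n + 1) hN 1 (Fin.last n) = 0 := by
    apply Fin.ext
    change (n + 1) % (n + 1) = 0
    exact Nat.mod_self _
  have h2 : ∀ i : Fin n, Words_sh (n + 1) hN 1 i.castSucc = i.succ := by
    intro i
    apply Fin.ext
    change ((i : ℕ) + 1) % (n + 1) = (i : ℕ) + 1
    exact Nat.mod_eq_of_lt (by omega)
  rw [List.ofFn_succ', List.ofFn_succ, List.prod_concat, List.prod_cons, hτ]
  simp only [Words_rot_apply, h1, h2]

/-- the fixed words -/
private theorem Words_fixed {R : Type*} [Ring R] {M : Type*} [AddCommGroup M] (τ : R →+ M)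
    {S : Type*} [Fintype S] [DecidableEq S] (x : S → R) (a b N : ℕ) (hN0 : 0 < N)
    (hN : N = a * b) :
    ∑ w ∈ Finset.univ.filter (fun w : Fin N → S => ((Words_rot N hN0 S) ^ b) w = w),
        τ (List.ofFn (fun i => x (w i))).prod
      = ∑ ω : Fin b → S, τ ((List.ofFn (fun i => x (ω i))).prod ^ a) := by
  have hb0 : 0 < b := by
    rcases Nat.eq_zero_or_pos b with h | h
    · rw [h, mul_zero] at hN; omega
    · exact h
  have ha0 : 0 < a := by
    rcases Nat.eq_zero_or_pos a with h | h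
    · rw [h, zero_mul] at hN; omega
    · exact h
  have hbN : b ∣ N := ⟨a, by rw [hN, mul_comm]⟩
  have hbleN : b ≤ N := Nat.le_of_dvd hN0 hbN
  have hperk : ∀ w : Fin N → S, ((Words_rot N hN0 S) ^ b) w = w →
      ∀ (k : ℕ) (i : Fin N), w (Words_sh N hN0 (k * b) i) = w i := by
    intro w hw k
    have hper : ∀ i : Fin N, w (Words_sh N hN0 b i) = w i := by
      intro i
      have := congrFun hw i
      rwa [Words_rot_pow] at this
    induction k with
    | zero => intro i; rw [Nat.zero_mul, Words_sh_zero]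
    | succ k ih =>
      intro i
      have : Words_sh N hN0 ((k + 1) * b) i = Words_sh N hN0 (k * b) (Words_sh N hN0 b i) := by
        rw [Words_sh_sh]; congr 1; ring
      rw [this, ih, hper]
  refine Finset.sum_bij' (fun w _ => fun j : Fin b => w ⟨(j : ℕ), lt_of_lt_of_le j.2 hbleN⟩)
    (fun ω _ => fun i : Fin N => ω ⟨(i : ℕ) % b, Nat.mod_lt _ hb0⟩) ?_ ?_ ?_ ?_ ?_
  · intro w _
    exact Finset.mem_univ _
  · intro ω _
    refine Finset.mem_filter.2 ⟨Finset.mem_univ _, ?_⟩
    funext i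
    rw [Words_rot_pow]
    congr 1
    apply Fin.ext
    change (((i : ℕ) + b) % N) % b = (i : ℕ) % b
    rw [Nat.mod_mod_of_dvd _ hbN, Nat.add_mod_right]
  · intro w hw
    have hw2 := (Finset.mem_filter.1 hw).2
    funext i
    change w ⟨(i : ℕ) % b, _⟩ = w i
    have h2 := hperk w hw2 ((i : ℕ) / b) ⟨(i : ℕ) % b, lt_of_lt_of_le (Nat.mod_lt _ hb0) hbleN⟩
    have h1 : Words_sh N hN0 ((i : ℕ) / b * b) ⟨(i : ℕ) % b, lt_of_lt_of_le (Nat.mod_lt _ hb0) hbleN⟩
        = i := by
      apply Fin.ext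
      change ((i : ℕ) % b + (i : ℕ) / b * b) % N = (i : ℕ)
      rw [Nat.mod_add_div', Nat.mod_eq_of_lt i.2]
    rw [h1] at h2
    exact h2.symm
  · intro ω _
    funext j
    change ω ⟨(j : ℕ) % b, _⟩ = ω j
    congr 1
    apply Fin.ext
    exact Nat.mod_eq_of_lt j.2
  · intro w hw
    have hw2 := (Finset.mem_filter.1 hw).2
    congr 1
    have key : ∀ (N' : ℕ) (_ : N' = a * b) (f : Fin N' → R) (g : Fin b → R),
        (∀ (k : ℕ) (j : Fin b) (h : k * b + j < N'), f ⟨k * b + j, h⟩ = g j) →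
        (List.ofFn f).prod = (List.ofFn g).prod ^ a := by
      rintro N' rfl f g hfg
      rw [List.ofFn_mul, List.prod_flatten, List.map_ofFn]
      have : (List.prod ∘ fun i : Fin a => List.ofFn fun j : Fin b => f ⟨i * b + j, by
          calc (i : ℕ) * b + j < (i : ℕ) * b + b := Nat.add_lt_add_left j.2 _
            _ = (i + 1) * b := by ring
            _ ≤ a * b := Nat.mul_le_mul_right _ i.2⟩) = fun _ => (List.ofFn g).prod := by
        funext i
        simp only [Function.comp_apply]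
        congr 1
        congr 1
        funext j
        exact hfg i j _
      rw [this, List.ofFn_const, List.prod_replicate]
    refine key N hN _ _ ?_
    intro k j h
    congr 1
    have h1 : (⟨k * b + j, h⟩ : Fin N)
        = Words_sh N hN0 (k * b) ⟨(j : ℕ), lt_of_lt_of_le j.2 hbleN⟩ := by
      apply Fin.ext
      change k * b + (j : ℕ) = ((j : ℕ) + k * b) % N
      rw [Nat.mod_eq_of_lt (by omega)]
      ring
    rw [h1, hperk w hw2]

theorem words {R : Type*} [Ring R] {M : Type*} [AddCommGroup M] (τ : R →+ M)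
    (hτ : ∀ a b, τ (a * b) = τ (b * a)) (p : ℕ) [Fact p.Prime] {S : Type*} [Fintype S]
    [DecidableEq S] (x : S → R) (K m : ℕ) (hK : K ≤ m) :
    ∃ y : M, τ ((∑ s, x s) ^ (p ^ m)) =
      ∑ ω : Fin (p ^ K) → S, τ ((List.ofFn (fun i => x (ω i))).prod ^ (p ^ (m - K))) +
        (p ^ (K + 1)) • y := by
  have hp : p.Prime := Fact.out
  have hN : 0 < p ^ m := pow_pos hp.pos m
  rw [Words_expand, map_sum]
  obtain ⟨y, hy⟩ := card_orbits_congr p m K hK (Words_rot (p ^ m) hN S) (by
    apply Equiv.ext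
    intro w
    funext i
    rw [Words_rot_pow, Words_sh_self]
    rfl) (fun w => τ (List.ofFn (fun i => x (w i))).prod)
    (fun w => Words_trace τ hτ x hN w)
  refine ⟨y, ?_⟩
  rw [hy, Words_fixed τ x (p ^ (m - K)) (p ^ K) (p ^ m) hN (by rw [← pow_add]; congr 1; omega)]

end Pool.Agent.H95.KM

end

section

/-!
# The derivation `t d/dt` and the trace functional in degree zero
-/

set_option autoImplicit false

open Matrix
open scoped LaurentPolynomial

universe u v w

namespace Pool.Agent.H95.KM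

open Pool.Agent.H71.FJ

variable {R : Type u} [Ring R] {S : Type v} [Ring S]

/-- The derivation `t d/dt`. -/
noncomputable def der (R : Type u) [Ring R] : R[T;T⁻¹] →+ R[T;T⁻¹] where
  toFun x := ∑ k ∈ x.coeff.support, AddMonoidAlgebra.single k (k • x.coeff k)
  map_zero' := by simp
  map_add' x y := by
    classical
    have h : ∀ (x : R[T;T⁻¹]) (s : Finset ℤ), x.coeff.support ⊆ s →
        ∑ k ∈ x.coeff.support, AddMonoidAlgebra.single k (k • x.coeff k) =
        ∑ k ∈ s, (AddMonoidAlgebra.single k (k • x.coeff k) : R[T;T⁻¹]) := by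
      intro x s hs
      apply Finset.sum_subset hs
      intro k _ hk
      rw [Finsupp.notMem_support_iff.1 hk, smul_zero, AddMonoidAlgebra.single_zero]
    rw [h (x + y) (x.coeff.support ∪ y.coeff.support) (by
        rw [AddMonoidAlgebra.coeff_add]
        exact Finsupp.support_add),
      h x (x.coeff.support ∪ y.coeff.support) Finset.subset_union_left,
      h y (x.coeff.support ∪ y.coeff.support) Finset.subset_union_right,
      ← Finset.sum_add_distrib]
    apply Finset.sum_congr rfl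
    intro k _
    rw [AddMonoidAlgebra.coeff_add, Finsupp.add_apply, smul_add, AddMonoidAlgebra.single_add]

theorem der_single (k : ℤ) (r : R) :
    der R (AddMonoidAlgebra.single k r) = AddMonoidAlgebra.single k (k • r) := by
  classical
  change ∑ l ∈ (AddMonoidAlgebra.single k r : R[T;T⁻¹]).coeff.support,
    AddMonoidAlgebra.single l (l • (AddMonoidAlgebra.single k r : R[T;T⁻¹]).coeff l) = _
  rw [AddMonoidAlgebra.coeff_single]
  by_cases hr : r = 0
  · subst hr
    simp
  · rw [Finsupp.support_single _ hr, Finset.sum_singleton, Finsupp.single_eq_same]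

theorem der_cst (r : R) : der R (cst R r) = 0 := by
  rw [cst_apply, der_single, zero_smul, AddMonoidAlgebra.single_zero]

theorem der_one : der R 1 = 0 := by
  have := der_cst (1 : R)
  rwa [map_one] at this

theorem der_mul (x y : R[T;T⁻¹]) : der R (x * y) = der R x * y + x * der R y := by
  induction x using AddMonoidAlgebra.induction_linear with
  | zero => simp
  | add x x' hx hx' =>
    rw [add_mul, map_add, hx, hx', map_add, add_mul, add_mul]
    abel
  | single k r =>
    induction y using AddMonoidAlgebra.induction_linear with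
    | zero => simp
    | add y y' hy hy' =>
      rw [mul_add, map_add, hy, hy', map_add, mul_add, mul_add]
      abel
    | single l s =>
      rw [AddMonoidAlgebra.single_mul_single, der_single, der_single, der_single,
        AddMonoidAlgebra.single_mul_single, AddMonoidAlgebra.single_mul_single,
        ← AddMonoidAlgebra.single_add, add_smul, smul_mul_assoc, mul_smul_comm]

theorem lau_der (f : R →+* S) (x : R[T;T⁻¹]) : lau f (der R x) = der S (lau f x) := by
  induction x using AddMonoidAlgebra.induction_linear with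
  | zero => simp
  | add x y hx hy => rw [map_add, map_add, hx, hy, map_add, map_add]
  | single k r => rw [der_single, lau_single, lau_single, der_single, map_zsmul]

section MatDer

variable {l m n : Type*}

theorem map_der_mul [Fintype m] (X : Matrix l m R[T;T⁻¹]) (Y : Matrix m n R[T;T⁻¹]) :
    (X * Y).map (der R) = X.map (der R) * Y + X * Y.map (der R) := by
  ext i j : 1
  simp only [Matrix.map_apply, Matrix.mul_apply, Matrix.add_apply, map_sum, der_mul,
    Finset.sum_add_distrib]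

theorem map_der_one [DecidableEq m] : (1 : Matrix m m R[T;T⁻¹]).map (der R) = 0 := by
  ext i j : 1
  by_cases h : i = j
  · subst h
    simp [der_one]
  · simp [h]

theorem map_lau_der (f : R →+* S) (X : Matrix l m R[T;T⁻¹]) :
    (X.map (lau f)).map (der S) = (X.map (der R)).map (lau f) := by
  ext i j : 1
  simp only [Matrix.map_apply, lau_der]

end MatDer

section T0

variable {M : Type*} [AddCommGroup M] (τ : R →+ M) {m n : Type*} [Fintype m] [Fintype n]

/-- The trace functional `X ↦ ∑ τ(coefficient of t⁰ of X i i)`. -/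
noncomputable def T0 (X : Matrix n n R[T;T⁻¹]) : M := ∑ i, τ ((X i i).coeff 0)

theorem T0_add (X Y : Matrix n n R[T;T⁻¹]) : T0 τ (X + Y) = T0 τ X + T0 τ Y := by
  simp only [T0, Matrix.add_apply, AddMonoidAlgebra.coeff_add, Finsupp.add_apply, map_add,
    Finset.sum_add_distrib]

theorem T0_zero : T0 τ (0 : Matrix n n R[T;T⁻¹]) = 0 := by
  simp [T0]

/-- the coefficient of `t⁰` followed by a trace function is a trace function -/
theorem tau_coeff_mul_comm (hτ : ∀ x y, τ (x * y) = τ (y * x)) (x y : R[T;T⁻¹]) :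
    τ ((x * y).coeff 0) = τ ((y * x).coeff 0) := by
  induction x using AddMonoidAlgebra.induction_linear with
  | zero => simp
  | add x x' hx hx' =>
    rw [add_mul, mul_add, AddMonoidAlgebra.coeff_add, AddMonoidAlgebra.coeff_add,
      Finsupp.add_apply, Finsupp.add_apply, map_add, map_add, hx, hx']
  | single k r =>
    induction y using AddMonoidAlgebra.induction_linear with
    | zero => simp
    | add y y' hy hy' =>
      rw [add_mul, mul_add, AddMonoidAlgebra.coeff_add, AddMonoidAlgebra.coeff_add,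
        Finsupp.add_apply, Finsupp.add_apply, map_add, map_add, hy, hy']
    | single l s =>
      classical
      rw [AddMonoidAlgebra.single_mul_single, AddMonoidAlgebra.single_mul_single,
        AddMonoidAlgebra.coeff_single, AddMonoidAlgebra.coeff_single, Finsupp.single_apply,
        Finsupp.single_apply, add_comm l k]
      split_ifs
      · exact hτ _ _
      · rfl

theorem T0_mul (X : Matrix m n R[T;T⁻¹]) (Y : Matrix n m R[T;T⁻¹]) :
    T0 τ (X * Y) = ∑ i, ∑ j, τ ((X i j * Y j i).coeff 0) := by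
  simp only [T0, Matrix.mul_apply, AddMonoidAlgebra.coeff_sum, Finsupp.finsetSum_apply, map_sum]

theorem T0_mul_comm (hτ : ∀ x y, τ (x * y) = τ (y * x)) (X : Matrix m n R[T;T⁻¹])
    (Y : Matrix n m R[T;T⁻¹]) : T0 τ (X * Y) = T0 τ (Y * X) := by
  rw [T0_mul, T0_mul, Finset.sum_comm]
  apply Finset.sum_congr rfl
  intro j _
  apply Finset.sum_congr rfl
  intro i _
  exact tau_coeff_mul_comm τ hτ _ _

theorem T0_map_lau (τ' : S →+ M) (f : R →+* S) (X : Matrix n n R[T;T⁻¹]) :
    T0 τ' (X.map (lau f)) = T0 (τ'.comp f.toAddMonoidHom) X := by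
  simp only [T0, Matrix.map_apply, lau_coeff]
  rfl

theorem T0_fromBlocks (A : Matrix m m R[T;T⁻¹]) (B : Matrix m n R[T;T⁻¹])
    (C : Matrix n m R[T;T⁻¹]) (D : Matrix n n R[T;T⁻¹]) :
    T0 τ (fromBlocks A B C D) = T0 τ A + T0 τ D := by
  simp only [T0, Fintype.sum_sum_type, fromBlocks_apply₁₁, fromBlocks_apply₂₂]

end T0

end Pool.Agent.H95.KM

end

section

/-!
# Project KM, module Window: the window lemma

Let `x : m × (r₁ ⊕ r₂)`, `y : (r₁ ⊕ r₂) × m` be matrices over `R[t, t⁻¹]` with `x y = 1` and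
`y x = Xp ⊕ Xn`, `Xp` over `R[t]`, `Xn` over `R[t⁻¹]`.  Write `x = ∑ x_j t^j`, `y = ∑ y_j t^j`, with
`x_j, y_j` matrices over `R` (`x_j i k = (x i k).coeff j`).

PROOF.  Choose `d : ℕ` with `x_j = 0`, `y_j = 0` for `|j| > d` (finitely many finite supports).
For `k l : ℤ` put `q k l = ∑_{s ≥ 0} x_{k-s} y_{s-l}` (an `m × m` matrix over `R`; the sum is
finite, e.g. over `s ∈ [0, ∞) ∩ [k-d, k+d]`; nonzero terms need `|k-s| ≤ d` and `|s-l| ≤ d`).

(1) If `l ≥ d` (or `k ≥ d`) then all `s` with a nonzero term are `≥ 0`, so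
    `q k l = ∑_s x_{k-s} y_{s-l} = (x y)_{k-l} = δ_{kl} 1`.
(2) If `l < -d` (or `k < -d`) then there are no nonzero terms with `s ≥ 0`, so `q k l = 0`.
(3) `∑_j (q k j) (q j l) = q k l`, the sum over all `j : ℤ` (finite support).  Indeed put
    `X_n = (y x)_n = ∑_j y_{n-j} x_j`.  Then `∑_j q k j * q j l =
    ∑_{s ≥ 0} ∑_{s' ≥ 0} x_{k-s} (∑_j y_{s-j} x_{j-s'}) y_{s'-l} =
    ∑_{s ≥ 0} ∑_{s' ≥ 0} x_{k-s} X_{s-s'} y_{s'-l}`.  `X_n = Xp_n ⊕ Xn_n` (block diagonal), and
    `Xp_n = 0` for `n < 0`, `Xn_n = 0` for `n > 0`.  Write `x_j = (x¹_j, x²_j)` (columns) and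
    `y_j = (y¹_j; y²_j)` (rows) for the decomposition `r₁ ⊕ r₂`.  For the `Xp` part:
    `∑_{s ≥ 0} x¹_{k-s} Xp_{s-s'} = ∑_{s ∈ ℤ} x¹_{k-s} Xp_{s-s'}` for `s' ≥ 0` (terms with
    `s < 0 ≤ s'` vanish) `= (x (y x))¹_{k-s'} = x¹_{k-s'}` as `x y x = x`.  For the `Xn` part:
    `∑_{s' ≥ 0} Xn_{s-s'} y²_{s'-l} = ∑_{s' ∈ ℤ} = ((y x) y)²_{s-l} = y²_{s-l}` for `s ≥ 0`.
    Hence the total is `∑_{s ≥ 0} (x¹_{k-s} y¹_{s-l} + x²_{k-s} y²_{s-l}) = q k l`.
(4) So the matrix `q_W` over `R` with index set `W × m`, `W = [-d, d)`,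
    `q_W (k, i) (l, j) = q k l i j`, is idempotent: for `k, l ∈ W` the terms with `j ∉ W` in (3)
    vanish by (1), (2) (for `j ≥ d`: `q k j = δ_{kj} = 0`; for `j < -d`: `q k j = 0`).
(5) `τ(tr q_W) = ∑_{k ∈ W} ∑_{s ≥ 0} T(x_{k-s} y_{s-k})`, `T(Z) = ∑_i τ(Z i i)`; collecting by
    `j = k - s ∈ [-d, d]`: the number of `k ∈ [-d, d)` with `k ≥ j` is `d - j`.  So it equals
    `∑_j (d - j) T(x_j y_{-j}) = d T((x y)_0) - ∑_j j T(x_j y_{-j}) = d |m| τ(1) - T0 τ (∂x · y)`.

It may be convenient to work with functions `ℤ → Matrix m r R` vanishing outside `[-d, d]`; the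
coefficients of products are given by `AddMonoidAlgebra.coeff_mul` (or prove a convolution formula
`(a * b).coeff n = ∑ j ∈ Finset.Icc (-D) D, a.coeff j * b.coeff (n - j)` for `a` supported in
`[-D, D]`, by `eq_sum_single` or `induction_linear`).
-/

set_option autoImplicit false

open Matrix
open scoped LaurentPolynomial

universe u v w

namespace Pool.Agent.H95.KM

open Pool.Agent.H71.FJ

variable {R : Type u} [Ring R]

/-- the part in degrees `≥ 0` -/
private noncomputable def wTrn : R[T;T⁻¹] →+ R[T;T⁻¹] where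
  toFun z := AddMonoidAlgebra.ofCoeff (Finsupp.filter (fun k : ℤ => 0 ≤ k) z.coeff)
  map_zero' := by
    apply ext_coeff
    intro k
    have h : (Finsupp.filter (fun k : ℤ => 0 ≤ k) (0 : ℤ →₀ R)) k = 0 := by
      rw [Finsupp.filter_zero]
      rfl
    simpa using h
  map_add' a b := by
    apply ext_coeff
    intro k
    rw [AddMonoidAlgebra.coeff_add, AddMonoidAlgebra.coeff_add, Finsupp.filter_add]

private theorem wTrn_coeff (z : R[T;T⁻¹]) (k : ℤ) :
    (wTrn z).coeff k = if 0 ≤ k then z.coeff k else 0 :=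
  Finsupp.filter_apply _ _ _

private theorem wTrn_of_pos {z : R[T;T⁻¹]} (h : ∀ k < 0, z.coeff k = 0) : wTrn z = z := by
  apply ext_coeff
  intro k
  rw [wTrn_coeff]
  split_ifs with hk
  · rfl
  · exact (h k (by omega)).symm

private theorem wTrn_of_neg {z : R[T;T⁻¹]} (h : ∀ k ≥ 0, z.coeff k = 0) : wTrn z = 0 := by
  apply ext_coeff
  intro k
  rw [wTrn_coeff, AddMonoidAlgebra.coeff_zero, Finsupp.coe_zero, Pi.zero_apply]
  split_ifs with hk
  · exact h k hk
  · rfl

private theorem wTrn_mul_cst (z : R[T;T⁻¹]) (c : R) :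
    wTrn (z * AddMonoidAlgebra.single 0 c) = wTrn z * AddMonoidAlgebra.single 0 c := by
  apply ext_coeff
  intro k
  rw [wTrn_coeff, AddMonoidAlgebra.coeff_mul_single_zero, AddMonoidAlgebra.coeff_mul_single_zero,
    wTrn_coeff]
  split_ifs
  · rfl
  · rw [zero_mul]

private theorem w_coeff_mul_ge {u z : R[T;T⁻¹]} {a b : ℤ} (hu : ∀ j < a, u.coeff j = 0)
    (hz : ∀ j < b, z.coeff j = 0) : ∀ k < a + b, (u * z).coeff k = 0 := by
  classical
  intro k hk
  rw [AddMonoidAlgebra.coeff_mul]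
  rw [Finsupp.sum]
  apply Finset.sum_eq_zero
  intro j hj
  rw [Finsupp.sum]
  apply Finset.sum_eq_zero
  intro l hl
  rw [if_neg]
  intro h
  have h1 : ¬ j < a := fun h1 => Finsupp.mem_support_iff.1 hj (hu j h1)
  have h2 : ¬ l < b := fun h1 => Finsupp.mem_support_iff.1 hl (hz l h1)
  omega

private theorem w_coeff_mul_le {u z : R[T;T⁻¹]} {a b : ℤ} (hu : ∀ j > a, u.coeff j = 0)
    (hz : ∀ j > b, z.coeff j = 0) : ∀ k > a + b, (u * z).coeff k = 0 := by
  classical
  intro k hk
  rw [AddMonoidAlgebra.coeff_mul]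
  rw [Finsupp.sum]
  apply Finset.sum_eq_zero
  intro j hj
  rw [Finsupp.sum]
  apply Finset.sum_eq_zero
  intro l hl
  rw [if_neg]
  intro h
  have h1 : ¬ j > a := fun h1 => Finsupp.mem_support_iff.1 hj (hu j h1)
  have h2 : ¬ l > b := fun h1 => Finsupp.mem_support_iff.1 hl (hz l h1)
  omega

private theorem w_coeff_sum {ι : Type*} (s : Finset ι) (f : ι → R[T;T⁻¹]) (k : ℤ) :
    (∑ i ∈ s, f i).coeff k = ∑ i ∈ s, (f i).coeff k := by
  rw [AddMonoidAlgebra.coeff_sum, Finsupp.finsetSum_apply]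

/-- the trace computation for one pair of entries -/
private theorem w_trace_pair (d : ℕ) (u w : R[T;T⁻¹]) (hu : ∀ j, (d : ℤ) < |j| → u.coeff j = 0) :
    ∑ k : Fin (2 * d), (u * wTrn (w * AddMonoidAlgebra.single ((k : ℤ) - d) 1)).coeff
      ((k : ℤ) - d) = d • (u * w).coeff 0 - (der R u * w).coeff 0 := by
  classical
  suffices H : ∀ j : ℤ, |j| ≤ d → ∀ (r : R),
      ∑ k : Fin (2 * d), (AddMonoidAlgebra.single j r *
        wTrn (w * AddMonoidAlgebra.single ((k : ℤ) - d) 1)).coeff ((k : ℤ) - d) =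
      d • (AddMonoidAlgebra.single j r * w).coeff 0 -
        (der R (AddMonoidAlgebra.single j r) * w).coeff 0 by
    have hu' : ∀ j ∈ u.coeff.support, |j| ≤ d := by
      intro j hj
      by_contra h
      exact Finsupp.mem_support_iff.1 hj (hu j (by omega))
    rw [eq_sum_single u]
    simp only [Finset.sum_mul, w_coeff_sum, map_sum, Finset.smul_sum]
    rw [Finset.sum_comm, ← Finset.sum_sub_distrib]
    exact Finset.sum_congr rfl fun j hj => H j (hu' j hj) _
  intro j hj r
  induction w using AddMonoidAlgebra.induction_linear with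
  | zero => simp
  | add w w' hw hw' =>
    simp only [add_mul, map_add, mul_add, AddMonoidAlgebra.coeff_add, Finsupp.add_apply,
      Finset.sum_add_distrib, smul_add]
    rw [hw, hw']
    abel
  | single l s =>
    have h1 : ∀ k : Fin (2 * d), (AddMonoidAlgebra.single j r *
        wTrn (AddMonoidAlgebra.single l s * AddMonoidAlgebra.single ((k : ℤ) - d) 1)).coeff
          ((k : ℤ) - d) =
        if j + l = 0 ∧ j + d ≤ (k : ℤ) then r * s else 0 := by
      intro k
      rw [AddMonoidAlgebra.single_mul_single, mul_one]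
      have h2 : wTrn (AddMonoidAlgebra.single (l + ((k : ℤ) - d)) s : R[T;T⁻¹]) =
          if 0 ≤ l + ((k : ℤ) - d) then AddMonoidAlgebra.single (l + ((k : ℤ) - d)) s else 0 := by
        split_ifs with h
        · apply wTrn_of_pos
          intro n hn
          rw [AddMonoidAlgebra.coeff_single, Finsupp.single_eq_of_ne (by omega)]
        · apply wTrn_of_neg
          intro n hn
          rw [AddMonoidAlgebra.coeff_single, Finsupp.single_eq_of_ne (by omega)]
      rw [h2]
      by_cases h3 : 0 ≤ l + ((k : ℤ) - d)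
      · rw [if_pos h3, AddMonoidAlgebra.single_mul_single, AddMonoidAlgebra.coeff_single,
          Finsupp.single_apply]
        by_cases h4 : j + l = 0
        · rw [if_pos (by omega), if_pos ⟨h4, by omega⟩]
        · rw [if_neg (by omega), if_neg (fun h => h4 h.1)]
      · rw [if_neg h3, mul_zero, AddMonoidAlgebra.coeff_zero, Finsupp.coe_zero, Pi.zero_apply,
          if_neg]
        rintro ⟨h4, h5⟩
        omega
    rw [Finset.sum_congr rfl fun k _ => h1 k, der_single, AddMonoidAlgebra.single_mul_single,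
      AddMonoidAlgebra.single_mul_single, AddMonoidAlgebra.coeff_single,
      AddMonoidAlgebra.coeff_single, Finsupp.single_apply, Finsupp.single_apply]
    by_cases h4 : j + l = 0
    · rw [if_pos h4, if_pos h4]
      simp only [h4, true_and]
      rw [Finset.sum_ite, Finset.sum_const_zero, add_zero, Finset.sum_const]
      obtain ⟨e, he⟩ : ∃ e : ℕ, (e : ℤ) = j + d := ⟨(j + d).toNat, by
        rw [Int.toNat_of_nonneg]
        have := neg_abs_le j
        omega⟩
      have hjd : j ≤ d := (le_abs_self j).trans hj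
      have hcard : (Finset.univ.filter fun k : Fin (2 * d) => j + d ≤ (k : ℤ)).card =
          2 * d - e := by
        have h5 : (Finset.univ.filter fun k : Fin (2 * d) => j + d ≤ (k : ℤ)).card =
            (Finset.Ico e (2 * d)).card := by
          refine Finset.card_bij (fun k _ => (k : ℕ)) ?_ ?_ ?_
          · intro k hk
            have hk1 := (Finset.mem_filter.1 hk).2
            rw [Finset.mem_Ico]
            exact ⟨by omega, k.2⟩
          · intro k _ k' _ h
            exact Fin.ext h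
          · intro b hb
            rw [Finset.mem_Ico] at hb
            refine ⟨⟨b, hb.2⟩, ?_, rfl⟩
            rw [Finset.mem_filter]
            refine ⟨Finset.mem_univ _, ?_⟩
            show j + (d : ℤ) ≤ ((b : ℕ) : ℤ)
            omega
        rw [h5, Nat.card_Ico]
      rw [hcard]
      have h6 : (j • r) * s = j • (r * s) := smul_mul_assoc _ _ _
      rw [h6, ← natCast_zsmul, ← natCast_zsmul, ← sub_smul]
      congr 1
      rw [Nat.cast_sub (by omega)]
      push_cast
      omega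
    · rw [if_neg h4, if_neg h4, smul_zero, sub_zero]
      apply Finset.sum_eq_zero
      intro k _
      rw [if_neg (fun h => h4 h.1)]

section Op

variable {m r : Type} [Fintype m] [Fintype r]

/-- the operator `x ∘ (degrees ≥ 0) ∘ y` -/
private noncomputable def wQ (x : Matrix m r R[T;T⁻¹]) (y : Matrix r m R[T;T⁻¹])
    (v : m → R[T;T⁻¹]) : m → R[T;T⁻¹] := x *ᵥ fun b => wTrn ((y *ᵥ v) b)

private theorem wQ_sum (x : Matrix m r R[T;T⁻¹]) (y : Matrix r m R[T;T⁻¹]) {ι : Type*}
    (s : Finset ι) (v : ι → m → R[T;T⁻¹]) : wQ x y (∑ i ∈ s, v i) = ∑ i ∈ s, wQ x y (v i) := by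
  classical
  have h0 : wQ x y 0 = 0 := by
    unfold wQ
    have : (fun b => wTrn ((y *ᵥ (0 : m → R[T;T⁻¹])) b)) = 0 := by
      funext b
      rw [mulVec_zero, Pi.zero_apply, map_zero]
    rw [this, mulVec_zero]
  have ha : ∀ a b, wQ x y (a + b) = wQ x y a + wQ x y b := by
    intro a b
    unfold wQ
    rw [← mulVec_add]
    congr 1
    funext c
    rw [mulVec_add, Pi.add_apply, map_add, Pi.add_apply]
  induction s using Finset.induction_on with
  | empty => simp [h0]
  | insert i s hi ih => rw [Finset.sum_insert hi, Finset.sum_insert hi, ha, ih]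

private theorem wQ_mul_cst (x : Matrix m r R[T;T⁻¹]) (y : Matrix r m R[T;T⁻¹])
    (v : m → R[T;T⁻¹]) (c : R) :
    wQ x y (fun i => v i * AddMonoidAlgebra.single 0 c) =
      fun i => wQ x y v i * AddMonoidAlgebra.single 0 c := by
  have h : ∀ {p q : Type} [Fintype q] (z : Matrix p q R[T;T⁻¹]) (v : q → R[T;T⁻¹]),
      z *ᵥ (fun i => v i * AddMonoidAlgebra.single 0 c) =
        fun i => (z *ᵥ v) i * AddMonoidAlgebra.single 0 c := by
    intro p q _ z v
    funext i
    simp only [mulVec, dotProduct, Finset.sum_mul, mul_assoc]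
  unfold wQ
  rw [h]
  simp only [wTrn_mul_cst]
  rw [h]

end Op

theorem window {M : Type*} [AddCommGroup M] (τ : R →+ M)
    {m r₁ r₂ : Type} [Fintype m] [DecidableEq m] [Fintype r₁] [DecidableEq r₁] [Fintype r₂]
    [DecidableEq r₂] (x : Matrix m (r₁ ⊕ r₂) R[T;T⁻¹]) (y : Matrix (r₁ ⊕ r₂) m R[T;T⁻¹])
    (Xp : Matrix r₁ r₁ R[T;T⁻¹]) (Xn : Matrix r₂ r₂ R[T;T⁻¹]) (hxy : x * y = 1)
    (hyx : y * x = fromBlocks Xp 0 0 Xn) (hp : ∀ i j, IsPos (Xp i j))
    (hn : ∀ i j, IsNeg (Xn i j)) :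
    ∃ (d : ℕ) (q : IdemMat R),
      T0 τ (x.map (der R) * y) = (d * Fintype.card m) • τ 1 - τ (trace q.mat) := by
  classical
  -- a common bound for the degrees
  obtain ⟨d, hdx, hdy⟩ : ∃ d : ℕ, (∀ i a j, (d : ℤ) < |j| → (x i a).coeff j = 0) ∧
      (∀ a i j, (d : ℤ) < |j| → (y a i).coeff j = 0) := by
    have h1 : ∀ z : R[T;T⁻¹], ∃ d : ℕ, ∀ j, (d : ℤ) < |j| → z.coeff j = 0 := by
      intro z
      refine ⟨∑ j ∈ z.coeff.support, j.natAbs, ?_⟩
      intro j hj
      by_contra hne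
      have h2 : j ∈ z.coeff.support := Finsupp.mem_support_iff.2 hne
      have h3 := Finset.single_le_sum (f := fun j : ℤ => j.natAbs) (fun _ _ => Nat.zero_le _) h2
      have h4 : (j.natAbs : ℤ) = |j| := Int.natCast_natAbs j
      omega
    choose D hD using h1
    refine ⟨(∑ i, ∑ a, D (x i a)) + ∑ a, ∑ i, D (y a i), ?_, ?_⟩
    · intro i a j hj
      apply hD
      have h2 : D (x i a) ≤ ∑ a, D (x i a) :=
        Finset.single_le_sum (f := fun a => D (x i a)) (fun _ _ => Nat.zero_le _)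
          (Finset.mem_univ a)
      have h3 : ∑ a, D (x i a) ≤ ∑ i, ∑ a, D (x i a) :=
        Finset.single_le_sum (f := fun i => ∑ a, D (x i a)) (fun _ _ => Nat.zero_le _)
          (Finset.mem_univ i)
      omega
    · intro a i j hj
      apply hD
      have h2 : D (y a i) ≤ ∑ i, D (y a i) :=
        Finset.single_le_sum (f := fun i => D (y a i)) (fun _ _ => Nat.zero_le _)
          (Finset.mem_univ i)
      have h3 : ∑ i, D (y a i) ≤ ∑ a, ∑ i, D (y a i) :=
        Finset.single_le_sum (f := fun a => ∑ i, D (y a i)) (fun _ _ => Nat.zero_le _)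
          (Finset.mem_univ a)
      omega
  set Q : (m → R[T;T⁻¹]) → m → R[T;T⁻¹] := wQ x y with hQ
  -- `Q` is idempotent
  have hQQ : ∀ v, Q (Q v) = Q v := by
    intro v
    set w : r₁ ⊕ r₂ → R[T;T⁻¹] := y *ᵥ v with hw
    set Pw : r₁ ⊕ r₂ → R[T;T⁻¹] := fun b => wTrn (w b) with hPw
    have hQv : Q v = x *ᵥ Pw := rfl
    have hXw : (y * x) *ᵥ w = w := by
      rw [hw, mulVec_mulVec, Matrix.mul_assoc, hxy, Matrix.mul_one]
    set z : r₁ ⊕ r₂ → R[T;T⁻¹] := Sum.elim (fun b => Pw (Sum.inl b)) 0 with hz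
    have hkey : (fun b => wTrn ((y *ᵥ Q v) b)) = Pw + ((y * x) *ᵥ z - z) := by
      have h1 : y *ᵥ Q v = (y * x) *ᵥ Pw := by rw [hQv, mulVec_mulVec]
      rw [h1]
      funext b
      rcases b with b | b
      · have h2 : ((y * x) *ᵥ Pw) (Sum.inl b) = ∑ c, Xp b c * Pw (Sum.inl c) := by
          rw [hyx]
          simp [mulVec, dotProduct, Fintype.sum_sum_type]
        have h3 : ((y * x) *ᵥ z) (Sum.inl b) = ∑ c, Xp b c * Pw (Sum.inl c) := by
          rw [hyx]
          simp [mulVec, dotProduct, Fintype.sum_sum_type, hz]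
        have h4 : wTrn (((y * x) *ᵥ Pw) (Sum.inl b)) = ((y * x) *ᵥ Pw) (Sum.inl b) := by
          apply wTrn_of_pos
          intro k hk
          rw [h2, w_coeff_sum]
          apply Finset.sum_eq_zero
          intro c _
          refine w_coeff_mul_ge (a := 0) (b := 0) (hp b c) ?_ k (by omega)
          intro j hj
          rw [hPw]
          simp only
          rw [wTrn_coeff, if_neg (by omega)]
        rw [h4, Pi.add_apply, Pi.sub_apply, h2, h3, hz]
        simp
      · have h2 : ∀ v' : r₁ ⊕ r₂ → R[T;T⁻¹],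
            ((y * x) *ᵥ v') (Sum.inr b) = ∑ c, Xn b c * v' (Sum.inr c) := by
          intro v'
          rw [hyx]
          simp [mulVec, dotProduct, Fintype.sum_sum_type]
        have h3 : ((y * x) *ᵥ z) (Sum.inr b) = 0 := by
          rw [h2]
          simp [hz]
        have h4 : wTrn (((y * x) *ᵥ Pw) (Sum.inr b)) = Pw (Sum.inr b) := by
          have h5 : wTrn (((y * x) *ᵥ (w - Pw)) (Sum.inr b)) = 0 := by
            apply wTrn_of_neg
            intro k hk
            rw [h2, w_coeff_sum]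
            apply Finset.sum_eq_zero
            intro c _
            refine w_coeff_mul_le (a := 0) (b := -1) (hn b c) ?_ k (by omega)
            intro j hj
            rw [hPw, Pi.sub_apply, sub_eq_add_neg, AddMonoidAlgebra.coeff_add,
              AddMonoidAlgebra.coeff_neg, Finsupp.add_apply, Finsupp.neg_apply, wTrn_coeff,
              if_pos (by omega), add_neg_cancel]
          rw [mulVec_sub, Pi.sub_apply, map_sub, sub_eq_zero, hXw] at h5
          rw [← h5]
        rw [h4, Pi.add_apply, Pi.sub_apply, h3, hz]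
        simp
    show x *ᵥ (fun b => wTrn ((y *ᵥ Q v) b)) = Q v
    rw [hkey, mulVec_add, mulVec_sub, mulVec_mulVec, ← Matrix.mul_assoc, hxy, Matrix.one_mul,
      sub_self, add_zero, hQv]
  -- the degrees of `Q v`
  have hlow : ∀ v i k, k < -(d : ℤ) → (Q v i).coeff k = 0 := by
    intro v i k hk
    show ((x *ᵥ fun b => wTrn ((y *ᵥ v) b)) i).coeff k = 0
    rw [mulVec, dotProduct, w_coeff_sum]
    apply Finset.sum_eq_zero
    intro b _
    refine w_coeff_mul_ge (a := -(d : ℤ)) (b := 0) ?_ ?_ k (by omega)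
    · intro j hj
      exact hdx i b j (by have := neg_abs_le j; omega)
    · intro j hj
      rw [wTrn_coeff, if_neg (by omega)]
  have hhigh : ∀ v i k, (d : ℤ) ≤ k → (Q v i).coeff k = (v i).coeff k := by
    intro v i k hk
    set w : r₁ ⊕ r₂ → R[T;T⁻¹] := y *ᵥ v with hw
    have h1 : x *ᵥ w = v := by rw [hw, mulVec_mulVec, hxy, one_mulVec]
    have h2 : ((x *ᵥ (w - fun b => wTrn (w b))) i).coeff k = 0 := by
      rw [mulVec, dotProduct, w_coeff_sum]
      apply Finset.sum_eq_zero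
      intro b _
      refine w_coeff_mul_le (a := (d : ℤ)) (b := -1) ?_ ?_ k (by omega)
      · intro j hj
        exact hdx i b j (by have := le_abs_self j; omega)
      · intro j hj
        rw [Pi.sub_apply, sub_eq_add_neg, AddMonoidAlgebra.coeff_add,
          AddMonoidAlgebra.coeff_neg, Finsupp.add_apply, Finsupp.neg_apply, wTrn_coeff,
          if_pos (by omega), add_neg_cancel]
    rw [mulVec_sub, Pi.sub_apply, h1, sub_eq_add_neg, AddMonoidAlgebra.coeff_add,
      AddMonoidAlgebra.coeff_neg, Finsupp.add_apply, Finsupp.neg_apply, ← sub_eq_add_neg,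
      sub_eq_zero] at h2
    exact h2.symm
  -- the basis vectors
  set E : Fin (2 * d) × m → m → R[T;T⁻¹] := fun p i =>
    if i = p.2 then AddMonoidAlgebra.single ((p.1 : ℤ) - d) 1 else 0 with hE
  set q : Matrix (Fin (2 * d) × m) (Fin (2 * d) × m) R :=
    Matrix.of fun p p' => (Q (E p') p.2).coeff ((p.1 : ℤ) - d) with hq
  have hsupp : ∀ p' i k, (k < -(d : ℤ) ∨ (d : ℤ) ≤ k) → (Q (E p') i).coeff k = 0 := by
    intro p' i k hk
    rcases hk with hk | hk
    · exact hlow _ _ _ hk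
    · rw [hhigh _ _ _ hk, hE]
      simp only
      split_ifs
      · rw [AddMonoidAlgebra.coeff_single, Finsupp.single_eq_of_ne]
        have := p'.1.2
        omega
      · rw [AddMonoidAlgebra.coeff_zero, Finsupp.coe_zero, Pi.zero_apply]
  have hexp : ∀ p', Q (E p') = ∑ p : Fin (2 * d) × m,
      (fun i => E p i * AddMonoidAlgebra.single 0 (q p p')) := by
    intro p'
    funext i
    apply ext_coeff
    intro k
    rw [Finset.sum_apply, w_coeff_sum, Fintype.sum_prod_type]
    have h1 : ∀ (a : Fin (2 * d)) (b : m),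
        (E (a, b) i * AddMonoidAlgebra.single 0 (q (a, b) p')).coeff k =
        if b = i then (if (a : ℤ) - d = k then q (a, i) p' else 0) else 0 := by
      intro a b
      rw [hE, AddMonoidAlgebra.coeff_mul_single_zero]
      simp only
      by_cases hb : b = i
      · subst hb
        rw [if_pos rfl, if_pos rfl, AddMonoidAlgebra.coeff_single, Finsupp.single_apply]
        split_ifs
        · rw [one_mul]
        · rw [zero_mul]
      · rw [if_neg (Ne.symm hb), if_neg hb, AddMonoidAlgebra.coeff_zero, Finsupp.coe_zero,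
          Pi.zero_apply, zero_mul]
    simp only [h1, Finset.sum_ite_eq', Finset.mem_univ, if_true]
    by_cases hk : k < -(d : ℤ) ∨ (d : ℤ) ≤ k
    · rw [hsupp p' i k hk]
      symm
      apply Finset.sum_eq_zero
      intro a _
      rw [if_neg]
      have := a.2
      omega
    · rw [Finset.sum_eq_single (⟨(k + d).toNat, by omega⟩ : Fin (2 * d))]
      · have h2 : (((k + d).toNat : ℕ) : ℤ) - d = k := by omega
        simp only [h2, if_true]
        rw [hq, Matrix.of_apply]
        simp only [h2]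
      · intro a _ ha
        rw [if_neg]
        intro h
        apply ha
        apply Fin.ext
        show (a : ℕ) = (k + d).toNat
        omega
      · intro h
        exact absurd (Finset.mem_univ _) h
  have hqq : q * q = q := by
    refine Matrix.ext fun p p' => ?_
    have h1 := congrFun (hQQ (E p')) p.2
    rw [hexp p', hQ, wQ_sum] at h1
    simp only [wQ_mul_cst] at h1
    rw [← hQ] at h1
    have h2 := congrArg (fun z => AddMonoidAlgebra.coeff z ((p.1 : ℤ) - d)) h1
    simp only [Finset.sum_apply, w_coeff_sum, AddMonoidAlgebra.coeff_mul_single_zero] at h2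
    rw [Matrix.mul_apply]
    have h3 : ∀ p'', q p p'' = (Q (E p'') p.2).coeff ((p.1 : ℤ) - d) := fun p'' => rfl
    simp only [h3 _]
    refine h2.trans ?_
    have h4 := congrFun (hexp p') p.2
    rw [h4]
    simp only [Finset.sum_apply, w_coeff_sum, AddMonoidAlgebra.coeff_mul_single_zero]
  -- the idempotent matrix indexed by `Fin n`
  set e := Fintype.equivFin (Fin (2 * d) × m) with he
  refine ⟨d, ⟨_, q.submatrix e.symm e.symm, by rw [submatrix_mul_equiv, hqq]⟩, ?_⟩
  have htr : trace (q.submatrix e.symm e.symm) = ∑ p, q p p := by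
    simp only [trace, diag_apply, submatrix_apply]
    exact Equiv.sum_comp e.symm (fun p => q p p)
  show T0 τ (x.map (der R) * y) = (d * Fintype.card m) • τ 1 -
    τ (trace (q.submatrix e.symm e.symm))
  have hswap : ∑ p, q p p = ∑ i, ∑ k, q (k, i) (k, i) := by
    rw [Fintype.sum_prod_type, Finset.sum_comm]
  rw [htr, T0_mul, hswap]
  have hent : ∀ i : m, ∑ k : Fin (2 * d), q (k, i) (k, i) =
      ∑ a, (d • (x i a * y a i).coeff 0 - (der R (x i a) * y a i).coeff 0) := by
    intro i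
    have h1 : ∀ k : Fin (2 * d), q (k, i) (k, i) =
        ∑ a, (x i a * wTrn (y a i * AddMonoidAlgebra.single ((k : ℤ) - d) 1)).coeff
          ((k : ℤ) - d) := by
      intro k
      show (Q (E (k, i)) i).coeff ((k : ℤ) - d) = _
      have h2 : y *ᵥ E (k, i) = fun a => y a i * AddMonoidAlgebra.single ((k : ℤ) - d) 1 := by
        funext a
        simp only [mulVec, dotProduct, hE]
        simp
      show ((x *ᵥ fun b => wTrn ((y *ᵥ E (k, i)) b)) i).coeff ((k : ℤ) - d) = _
      rw [h2, mulVec, dotProduct, w_coeff_sum]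
    rw [Finset.sum_congr rfl fun k _ => h1 k, Finset.sum_comm]
    exact Finset.sum_congr rfl fun a _ => w_trace_pair d (x i a) (y a i) (hdx i a)
  rw [Finset.sum_congr rfl fun i _ => hent i]
  have hdiag : ∀ i : m, ∑ a, (x i a * y a i).coeff 0 = (1 : R) := by
    intro i
    have h1 := congrArg (fun z => AddMonoidAlgebra.coeff z 0) (congrFun (congrFun hxy i) i)
    simp only [Matrix.mul_apply, w_coeff_sum, Matrix.one_apply_eq] at h1
    rw [h1]
    show (AddMonoidAlgebra.single (0 : ℤ) (1 : R) : R[T;T⁻¹]).coeff 0 = 1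
    rw [AddMonoidAlgebra.coeff_single, Finsupp.single_eq_same]
  have hfin : ∀ i : m, ∑ a, (d • (x i a * y a i).coeff 0 - (der R (x i a) * y a i).coeff 0) =
      d • (1 : R) - ∑ a, (der R (x i a) * y a i).coeff 0 := by
    intro i
    rw [Finset.sum_sub_distrib, ← Finset.smul_sum, hdiag]
  rw [Finset.sum_congr rfl fun i _ => hfin i, Finset.sum_sub_distrib, map_sub, Finset.sum_const,
    Finset.card_univ, map_nsmul, map_nsmul, smul_smul, map_sum]
  simp only [map_sum, Matrix.map_apply]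
  rw [mul_comm (Fintype.card m) d]
  abel

end Pool.Agent.H95.KM

end

section

/-!
# Project KF: modules and idempotent matrices (row vectors, left modules)
-/

set_option autoImplicit false

open Matrix
open scoped LaurentPolynomial

universe u v w

namespace Pool.Agent.H95.KF

variable {A : Type u} [Ring A] {ι : Type v} [Fintype ι] {κ : Type w} [Fintype κ]

/-- The left module `P` is the image of the idempotent matrix `e` acting on row vectors. -/
def Rep (e : Matrix ι ι A) (P : Type w) [AddCommGroup P] [Module A P] : Prop :=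
  ∃ (i : P →ₗ[A] (ι → A)) (r : (ι → A) →ₗ[A] P), (∀ p, r (i p) = p) ∧ ∀ v, i (r v) = v ᵥ* e

/-- The row vectors fixed by `e`. -/
def fixM (e : Matrix ι ι A) : Submodule A (ι → A) where
  carrier := {v | v ᵥ* e = v}
  add_mem' := fun {a b} ha hb => by
    change (a + b) ᵥ* e = a + b
    rw [add_vecMul, show a ᵥ* e = a from ha, show b ᵥ* e = b from hb]
  zero_mem' := zero_vecMul e
  smul_mem' := fun c {x} hx => by
    change (c • x) ᵥ* e = c • x
    rw [smul_vecMul, show x ᵥ* e = x from hx]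

/-- Congruence modulo `ℓ`. -/
def MCong (ℓ : ℕ) {m n : Type*} (X Y : Matrix m n A) : Prop :=
  ∃ Z : Matrix m n A, X - Y = (ℓ : ℤ) • Z

/-- The row vectors `v` with `v e ≡ 0` modulo `ℓ`. -/
def kerE (ℓ : ℕ) (e : Matrix ι ι A) : Submodule A (ι → A) where
  carrier := {v | ∃ w : ι → A, v ᵥ* e = (ℓ : ℤ) • w}
  add_mem' := fun {a b} ha hb => by
    obtain ⟨w, hw⟩ := ha
    obtain ⟨w', hw'⟩ := hb
    exact ⟨w + w', by rw [add_vecMul, hw, hw', smul_add]⟩
  zero_mem' := ⟨0, by rw [zero_vecMul, smul_zero]⟩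
  smul_mem' := fun c {x} hx => by
    obtain ⟨w, hw⟩ := hx
    refine ⟨c • w, ?_⟩
    rw [smul_vecMul, hw]
    exact smul_comm _ _ _

/-- The idempotent matrix which represents `kerE ℓ e`, where `e - e ^ 2 = ℓ δ`. -/
def pmat [DecidableEq ι] (ℓ : ℕ) (e δ : Matrix ι ι A) : Matrix (ι ⊕ ι) (ι ⊕ ι) A :=
  fromBlocks ((1 - e) * (1 - e)) (δ * (1 + (1 - e))) ((ℓ : ℤ) • (1 - e)) (e * (1 + (1 - e)))

end Pool.Agent.H95.KF

end

section

/-!
# Project KF, module Stp: the elementary step

## Paper proofs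

Write `g = gmat A ℓ s = diagonal g_i`, `g_i ∈ {1, ℓ}`, `D = {i // s i}`, `E_D` the submatrix. `E g = g E'` says
`E i j g_j = g_i E' i j`; so
 (a) `s i`, `s j`: `E i j = E' i j` (cancel `ℓ`);
 (b) `¬ s i`, `s j`: `E' i j = ℓ E i j`;
 (c) `s i`, `¬ s j`: `E i j = ℓ E' i j`;
 (d) `¬ s i`, `¬ s j`: `E i j = E' i j`.
`step_cong`: for `i, j ∈ D`: `E i j = (E E) i j = ∑_{k ∈ D} E i k E k j + ∑_{k ∉ D} E i k E k j`, and the second sum
is divisible by `ℓ` by (c) (the first factor).
`step_equiv`: `P = fixM E`, `P' = fixM E'` (row vectors), `K = kerE ℓ E_D`. For `w ∈ A^D` let `w⁰ ∈ A^ι` be the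
extension by zero, for `v ∈ A^ι` let `v_D` be the restriction.
The map `P × A^D → P' × K`: `(p, w) ↦ (v', w - v'_D)` with `v' := p g + w⁰ E'`.
 * `v' E' = p g E' + w⁰ E' E' = p E g + w⁰ E' = p g + w⁰ E' = v'`.
 * `v'_D = (p g)_D + (w⁰ E')_D = ℓ p_D + w E_D` by (a). In general for `v' ∈ P'`: `v'_D = (v' E')_D ≡ v'_D E_D` modulo
   `ℓ` (by (a), (b)). So `(w - v'_D) E_D ≡ w E_D - v'_D ≡ - ℓ p_D ≡ 0`, i.e. `w - v'_D ∈ K`.
The inverse: `(v', k) ↦ (p, w)` with `w := k + v'_D` and `p` the unique vector with `p g = v' - w⁰ E'`. It exists: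
 the `i`-component, `i ∈ D`, of `v' - w⁰ E'` is that of `v'_D - w E_D = v'_D - k E_D - v'_D E_D ≡ 0` mod `ℓ`.
 It lies in `P`: `(p E) g = p g E' = v' E' - w⁰ E' E' = v' - w⁰ E' = p g`, and `g` can be cancelled (`ℓ` is a
 nonzero divisor).
(It may be easiest to prove that the map `(p, w) ↦ (v', w - v'_D)` is linear, injective and surjective and to use
`LinearEquiv.ofBijective`: injective: if `v' = 0` and `w = v'_D` then `w = 0`, `p g = 0`, `p = 0`.)
`(ℓ : A)` is central: `Nat.cast_commute`; `(ℓ : ℤ) • x = (ℓ : A) * x = x * (ℓ : A)`.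
-/

set_option autoImplicit false
set_option linter.unusedSectionVars false

open Matrix

universe u v w

namespace Pool.Agent.H95.KF

variable {A : Type u} [Ring A] {ι : Type*} [Fintype ι] [DecidableEq ι]

/-- the diagonal matrix with entries `ℓ` and `1` -/
def gmat (A : Type u) [Ring A] (ℓ : ℕ) (s : ι → Prop) [DecidablePred s] : Matrix ι ι A :=
  diagonal fun i => if s i then (ℓ : A) else 1

section aux

variable {ℓ : ℕ} {s : ι → Prop} [DecidablePred s] {E E' : Matrix ι ι A}

private theorem stp_smul (x : A) : (ℓ : ℤ) • x = (ℓ : A) * x := by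
  rw [zsmul_eq_mul, Int.cast_natCast]

private theorem stp_smul' (x : A) : (ℓ : ℤ) • x = x * (ℓ : A) := by
  rw [stp_smul, (Nat.cast_commute ℓ x).eq]

private theorem stp_entry (h : E * gmat A ℓ s = gmat A ℓ s * E') (i j : ι) :
    E i j * (if s j then (ℓ : A) else 1) = (if s i then (ℓ : A) else 1) * E' i j := by
  have h1 := congrFun (congrFun h i) j
  unfold gmat at h1
  rwa [mul_diagonal, diagonal_mul] at h1

private theorem stp_a (hℓ : ∀ x : A, (ℓ : ℤ) • x = 0 → x = 0)
    (h : E * gmat A ℓ s = gmat A ℓ s * E') {i j : ι} (hi : s i) (hj : s j) :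
    E' i j = E i j := by
  have h1 := stp_entry h i j
  rw [if_pos hi, if_pos hj, ← stp_smul, ← stp_smul'] at h1
  refine sub_eq_zero.1 (hℓ _ ?_)
  rw [smul_sub, h1, sub_self]

private theorem stp_b (h : E * gmat A ℓ s = gmat A ℓ s * E') {i j : ι} (hi : ¬ s i) (hj : s j) :
    E' i j = (ℓ : ℤ) • E i j := by
  have h1 := stp_entry h i j
  rw [if_neg hi, if_pos hj, one_mul, ← stp_smul'] at h1
  exact h1.symm

private theorem stp_c (h : E * gmat A ℓ s = gmat A ℓ s * E') {i j : ι} (hi : s i) (hj : ¬ s j) :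
    E i j = (ℓ : ℤ) • E' i j := by
  have h1 := stp_entry h i j
  rwa [if_pos hi, if_neg hj, mul_one, ← stp_smul] at h1

/-- extension by zero -/
private def stp_ext (s : ι → Prop) [DecidablePred s] : ({i // s i} → A) →ₗ[A] (ι → A) where
  toFun w i := if h : s i then w ⟨i, h⟩ else 0
  map_add' a b := by
    funext i
    by_cases h : s i <;> simp [h]
  map_smul' c a := by
    funext i
    by_cases h : s i <;> simp [h]

private theorem stp_ext_pos (w : {i // s i} → A) (i : {i // s i}) : stp_ext s w i.1 = w i := by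
  show (if h : s i.1 then w ⟨i.1, h⟩ else 0) = _
  rw [dif_pos i.2]

private theorem stp_ext_neg (w : {i // s i} → A) {i : ι} (h : ¬ s i) : stp_ext s w i = 0 := by
  show (if h : s i then w ⟨i, h⟩ else 0) = _
  rw [dif_neg h]

/-- restriction -/
private def stp_res (s : ι → Prop) : (ι → A) →ₗ[A] ({i // s i} → A) where
  toFun v i := v i.1
  map_add' _ _ := rfl
  map_smul' _ _ := rfl

private theorem stp_vecMul_apply {m n : Type*} [Fintype m] (v : m → A) (M : Matrix m n A)
    (j : n) : (v ᵥ* M) j = ∑ i, v i * M i j := rfl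

private theorem stp_gmat (p : ι → A) (i : ι) :
    (p ᵥ* gmat A ℓ s) i = p i * (if s i then (ℓ : A) else 1) := by
  unfold gmat
  exact vecMul_diagonal _ _ _

private theorem stp_gmat_pos (p : ι → A) {i : ι} (hi : s i) :
    (p ᵥ* gmat A ℓ s) i = (ℓ : ℤ) • p i := by
  rw [stp_gmat, if_pos hi, stp_smul']

private theorem stp_gmat_neg (p : ι → A) {i : ι} (hi : ¬ s i) :
    (p ᵥ* gmat A ℓ s) i = p i := by
  rw [stp_gmat, if_neg hi, mul_one]

private theorem stp_gmat_inj (hℓ : ∀ x : A, (ℓ : ℤ) • x = 0 → x = 0) {p q : ι → A}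
    (h : p ᵥ* gmat A ℓ s = q ᵥ* gmat A ℓ s) : p = q := by
  funext i
  have h1 := congrFun h i
  by_cases hi : s i
  · rw [stp_gmat_pos _ hi, stp_gmat_pos _ hi] at h1
    refine sub_eq_zero.1 (hℓ _ ?_)
    rw [smul_sub, h1, sub_self]
  · rwa [stp_gmat_neg _ hi, stp_gmat_neg _ hi] at h1

private theorem stp_ext_vecMul (hℓ : ∀ x : A, (ℓ : ℤ) • x = 0 → x = 0)
    (h : E * gmat A ℓ s = gmat A ℓ s * E') (w : {i // s i} → A) (i : {i // s i}) :
    (stp_ext s w ᵥ* E') i.1 =
      (w ᵥ* E.submatrix (fun i : {i // s i} => i.1) (fun i : {i // s i} => i.1)) i := by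
  rw [stp_vecMul_apply, stp_vecMul_apply,
    ← Fintype.sum_subtype_add_sum_subtype s (fun j => stp_ext s w j * E' j i.1)]
  have h2 : ∑ j : {j // ¬ s j}, stp_ext s w j.1 * E' j.1 i.1 = 0 :=
    Finset.sum_eq_zero fun j _ => by rw [stp_ext_neg w j.2, zero_mul]
  rw [h2, add_zero]
  refine Finset.sum_congr rfl fun j _ => ?_
  rw [stp_ext_pos, stp_a hℓ h j.2 i.2]
  rfl

private theorem stp_fix (hℓ : ∀ x : A, (ℓ : ℤ) • x = 0 → x = 0)
    (h : E * gmat A ℓ s = gmat A ℓ s * E') {v : ι → A} (hv : v ᵥ* E' = v) (i : {i // s i}) :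
    v i.1 = (stp_res s v ᵥ* E.submatrix (fun i : {i // s i} => i.1)
      (fun i : {i // s i} => i.1)) i + (ℓ : ℤ) • ∑ j : {j // ¬ s j}, v j.1 * E j.1 i.1 := by
  have h1 := congrFun hv i.1
  rw [stp_vecMul_apply, ← Fintype.sum_subtype_add_sum_subtype s (fun j => v j * E' j i.1)] at h1
  rw [← h1]
  congr 1
  · rw [stp_vecMul_apply]
    refine Finset.sum_congr rfl fun j _ => ?_
    rw [stp_a hℓ h j.2 i.2]
    rfl
  · rw [Finset.smul_sum]
    refine Finset.sum_congr rfl fun j _ => ?_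
    rw [stp_b h j.2 i.2, mul_smul_comm]

end aux

theorem step_equiv (ℓ : ℕ) (hℓ : ∀ x : A, (ℓ : ℤ) • x = 0 → x = 0) (s : ι → Prop)
    [DecidablePred s] (E E' : Matrix ι ι A) (hE : E * E = E) (hE' : E' * E' = E')
    (h : E * gmat A ℓ s = gmat A ℓ s * E') :
    Nonempty ((fixM E × ({i // s i} → A)) ≃ₗ[A]
      (fixM E' × kerE ℓ (E.submatrix (fun i : {i // s i} => i.1) (fun i : {i // s i} => i.1)))) := by
  classical
  set ED := E.submatrix (fun i : {i // s i} => i.1) (fun i : {i // s i} => i.1) with hED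
  have hv : ∀ x : fixM E × ({i // s i} → A),
      (x.1.1 ᵥ* gmat A ℓ s + stp_ext s x.2 ᵥ* E') ᵥ* E' =
        x.1.1 ᵥ* gmat A ℓ s + stp_ext s x.2 ᵥ* E' := by
    intro x
    rw [add_vecMul, vecMul_vecMul, vecMul_vecMul, hE', ← h, ← vecMul_vecMul,
      show x.1.1 ᵥ* E = x.1.1 from x.1.2]
  let F0 : (fixM E × ({i // s i} → A)) →ₗ[A] (ι → A) :=
    { toFun := fun x => x.1.1 ᵥ* gmat A ℓ s + stp_ext s x.2 ᵥ* E'
      map_add' := by
        intro x y
        show (x.1.1 + y.1.1) ᵥ* gmat A ℓ s + stp_ext s (x.2 + y.2) ᵥ* E' = _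
        rw [map_add, add_vecMul, add_vecMul]
        abel
      map_smul' := by
        intro c x
        show (c • x.1.1) ᵥ* gmat A ℓ s + stp_ext s (c • x.2) ᵥ* E' = _
        rw [map_smul, smul_vecMul, smul_vecMul, RingHom.id_apply, smul_add] }
  have F0_apply : ∀ x, F0 x = x.1.1 ᵥ* gmat A ℓ s + stp_ext s x.2 ᵥ* E' := fun x => rfl
  have hres : ∀ x : fixM E × ({i // s i} → A), ∀ i : {i // s i},
      F0 x i.1 = (ℓ : ℤ) • x.1.1 i.1 + (x.2 ᵥ* ED) i := by
    intro x i
    rw [F0_apply, Pi.add_apply, stp_gmat_pos _ i.2, stp_ext_vecMul hℓ h]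
  let f1 : (fixM E × ({i // s i} → A)) →ₗ[A] fixM E' :=
    F0.codRestrict (fixM E') fun x => hv x
  have hK : ∀ x : fixM E × ({i // s i} → A), x.2 - stp_res s (F0 x) ∈ kerE ℓ ED := by
    intro x
    refine ⟨fun i => (∑ j : {j // ¬ s j}, F0 x j.1 * E j.1 i.1) - x.1.1 i.1, ?_⟩
    funext i
    rw [sub_vecMul, Pi.sub_apply, Pi.smul_apply, smul_sub]
    have h1 := stp_fix hℓ h (hv x) i
    have h2 := hres x i
    rw [F0_apply] at h2
    rw [← hED] at h1
    rw [h2] at h1
    rw [F0_apply]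
    have h3 : (stp_res s (x.1.1 ᵥ* gmat A ℓ s + stp_ext s x.2 ᵥ* E') ᵥ* ED) i =
        (ℓ : ℤ) • x.1.1 i.1 + (x.2 ᵥ* ED) i -
        (ℓ : ℤ) • ∑ j : {j // ¬ s j}, (x.1.1 ᵥ* gmat A ℓ s + stp_ext s x.2 ᵥ* E') j.1 *
          E j.1 i.1 := by
      rw [h1, add_sub_cancel_right]
    rw [h3]
    abel
  let f2 : (fixM E × ({i // s i} → A)) →ₗ[A] kerE ℓ ED :=
    (LinearMap.snd A (fixM E) ({i // s i} → A) - (stp_res s).comp F0).codRestrict (kerE ℓ ED)
      fun x => hK x
  have e1 : ∀ x, ((f1 x : fixM E') : ι → A) = F0 x := fun x => rfl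
  have e2 : ∀ x, ((f2 x : kerE ℓ ED) : {i // s i} → A) = x.2 - stp_res s (F0 x) := fun x => rfl
  refine ⟨LinearEquiv.ofBijective (f1.prod f2) ⟨?_, ?_⟩⟩
  · rw [← LinearMap.ker_eq_bot, LinearMap.ker_eq_bot']
    intro x hx
    have hx1 : F0 x = 0 := by
      have := congrArg (fun y : fixM E' × kerE ℓ ED => (y.1 : ι → A)) hx
      exact this
    have hx2 : x.2 - stp_res s (F0 x) = 0 := by
      have := congrArg (fun y : fixM E' × kerE ℓ ED => (y.2 : {i // s i} → A)) hx
      exact this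
    rw [hx1, map_zero, sub_zero] at hx2
    have hx3 : x.1.1 = 0 := by
      refine stp_gmat_inj (s := s) hℓ ?_
      have := F0_apply x
      rw [hx1, hx2, map_zero, zero_vecMul, add_zero] at this
      rw [← this, zero_vecMul]
    exact Prod.ext (Subtype.ext hx3) hx2
  · rintro ⟨⟨v, hvf⟩, ⟨k, hk⟩⟩
    have hvf' : v ᵥ* E' = v := hvf
    obtain ⟨z, hz⟩ := hk
    set w : {i // s i} → A := k + stp_res s v with hw
    set X : ι → A := v - stp_ext s w ᵥ* E' with hX
    have hdiv : ∀ i : {i // s i}, X i.1 =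
        (ℓ : ℤ) • ((∑ j : {j // ¬ s j}, v j.1 * E j.1 i.1) - z i) := by
      intro i
      have h1 := stp_fix hℓ h hvf' i
      rw [← hED] at h1
      have h2 := congrFun hz i
      rw [Pi.smul_apply] at h2
      rw [hX, Pi.sub_apply, stp_ext_vecMul hℓ h, ← hED, hw, add_vecMul, Pi.add_apply, h2,
        smul_sub]
      nth_rewrite 1 [h1]
      abel
    have hXE : X ᵥ* E' = X := by
      rw [hX, sub_vecMul, vecMul_vecMul, hE', hvf']
    set p : ι → A := fun i => if hi : s i then (∑ j : {j // ¬ s j}, v j.1 * E j.1 i) - z ⟨i, hi⟩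
      else X i with hp
    have hpg : p ᵥ* gmat A ℓ s = X := by
      funext i
      by_cases hi : s i
      · rw [stp_gmat_pos _ hi, hdiv ⟨i, hi⟩]
        congr 1
        show (if hi : s i then (∑ j : {j // ¬ s j}, v j.1 * E j.1 i) - z ⟨i, hi⟩ else X i) = _
        rw [dif_pos hi]
      · rw [stp_gmat_neg _ hi]
        show (if hi : s i then (∑ j : {j // ¬ s j}, v j.1 * E j.1 i) - z ⟨i, hi⟩ else X i) = _
        rw [dif_neg hi]
    have hpE : p ᵥ* E = p := by
      refine stp_gmat_inj (s := s) hℓ ?_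
      rw [vecMul_vecMul, h, ← vecMul_vecMul, hpg, hXE]
    refine ⟨(⟨p, hpE⟩, w), ?_⟩
    have hF : F0 (⟨p, hpE⟩, w) = v := by
      rw [F0_apply]
      show p ᵥ* gmat A ℓ s + stp_ext s w ᵥ* E' = v
      rw [hpg, hX, sub_add_cancel]
    refine Prod.ext (Subtype.ext hF) (Subtype.ext ?_)
    show ((f2 (⟨p, hpE⟩, w) : kerE ℓ ED) : {i // s i} → A) = k
    rw [e2, hF]
    show w - stp_res s v = k
    rw [hw, add_sub_cancel_right]

theorem step_cong (ℓ : ℕ) (s : ι → Prop)
    [DecidablePred s] (E E' : Matrix ι ι A) (hE : E * E = E)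
    (h : E * gmat A ℓ s = gmat A ℓ s * E') :
    MCong ℓ (E.submatrix (fun i : {i // s i} => i.1) (fun i : {i // s i} => i.1) *
        E.submatrix (fun i : {i // s i} => i.1) (fun i : {i // s i} => i.1))
      (E.submatrix (fun i : {i // s i} => i.1) (fun i : {i // s i} => i.1)) := by
  refine ⟨fun i j => -∑ k : {k // ¬ s k}, E' i.1 k.1 * E k.1 j.1, ?_⟩
  funext i j
  show (E.submatrix (fun i : {i // s i} => i.1) (fun i : {i // s i} => i.1) *
        E.submatrix (fun i : {i // s i} => i.1) (fun i : {i // s i} => i.1)) i j - E i.1 j.1 =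
    (ℓ : ℤ) • -∑ k : {k // ¬ s k}, E' i.1 k.1 * E k.1 j.1
  have h1 := congrFun (congrFun hE i.1) j.1
  rw [mul_apply, ← Fintype.sum_subtype_add_sum_subtype s (fun k => E i.1 k * E k j.1)] at h1
  rw [mul_apply, ← h1, smul_neg, Finset.smul_sum]
  have h2 : ∑ k : {k // ¬ s k}, E i.1 k.1 * E k.1 j.1 =
      ∑ k : {k // ¬ s k}, (ℓ : ℤ) • (E' i.1 k.1 * E k.1 j.1) := by
    refine Finset.sum_congr rfl fun k _ => ?_
    rw [stp_c h i.2 k.2, smul_mul_assoc]
  rw [← h2]
  show ∑ k : {k // s k}, E i.1 k.1 * E k.1 j.1 - _ = _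
  abel

end Pool.Agent.H95.KF

end

section

/-!
# Project KF, module Pm: the idempotent matrix of the module `kerE ℓ e`

## Paper proofs

`pmat_map`: a ring homomorphism commutes with everything (`Matrix.fromBlocks_map`, `Matrix.map_mul`, ...).

`rep_pmat`: here `e - e e = ℓ δ` and `ℓ` is a nonzero divisor. `δ` commutes with `e` (multiply by `ℓ`).
`2 - e` is written as `1 + (1 - e)`.
`K = kerE ℓ e = {v | v e ∈ ℓ A^ι}`. For `v ∈ K` let `ν v` be the unique `w` with `v e = ℓ w`; `ν : K → A^ι` is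
`A`-linear (uniqueness). Put
`i v = Sum.elim (v (1 - e)) (ν v + v δ)`, `r (Sum.elim u w) = u (1 - e) + ℓ w`.
* `r` has values in `K`: `(u (1 - e) + ℓ w) e = ℓ (u δ + w e)`, so `ν (r (u, w)) = u δ + w e`.
* `r (i v) = v (1 - e) (1 - e) + ℓ (ν v) + ℓ (v δ) = v (1 - 2 e + e e + e + e - e e) = v`.
* `i (r (u, w))`, with `v = r (u, w) = u (1 - e) + ℓ w`: the first component is
  `u (1 - e)(1 - e) + ℓ w (1 - e)`; the second one is `ν v + v δ = u δ + w e + u (1 - e) δ + ℓ w δ
  = u δ (1 + (1 - e)) + w (e + (e - e e)) = u δ (1 + (1 - e)) + w (e (1 + (1 - e)))`.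
  This is `(u, w) ᵥ* pmat ℓ e δ`.
-/

set_option autoImplicit false

open Matrix

universe u v w

namespace Pool.Agent.H95.KF

variable {A : Type u} [Ring A] {ι : Type*} [Fintype ι] [DecidableEq ι]

theorem pmat_map {A' : Type w} [Ring A'] (f : A →+* A') (ℓ : ℕ) (e δ : Matrix ι ι A) :
    (pmat ℓ e δ).map f = pmat ℓ (e.map f) (δ.map f) := by
  have hm : ∀ M : Matrix ι ι A, M.map f = f.mapMatrix M := fun _ => rfl
  unfold pmat
  rw [Matrix.fromBlocks_map]
  simp only [hm, map_mul, map_sub, map_add, map_one, map_zsmul]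

theorem rep_pmat (ℓ : ℕ) (hℓ : ∀ x : A, (ℓ : ℤ) • x = 0 → x = 0) (e δ : Matrix ι ι A)
    (h : e - e * e = (ℓ : ℤ) • δ) : Rep (pmat ℓ e δ) (kerE ℓ e) := by
  have hinj : ∀ v w : ι → A, (ℓ : ℤ) • v = (ℓ : ℤ) • w → v = w := by
    intro v w hvw
    funext i
    have h1 : (ℓ : ℤ) • v i = (ℓ : ℤ) • w i := congrFun hvw i
    exact sub_eq_zero.mp (hℓ (v i - w i) (by rw [smul_sub, h1, sub_self]))
  have hcomm : e * δ = δ * e := by
    have h1 : (ℓ : ℤ) • (e * δ - δ * e) = 0 := by
      rw [smul_sub, ← Matrix.mul_smul, ← Matrix.smul_mul, ← h]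
      noncomm_ring
    apply sub_eq_zero.mp
    ext i j
    exact hℓ _ (congrFun (congrFun h1 i) j)
  let nf : kerE ℓ e → (ι → A) := fun v => Classical.choose v.2
  have hν : ∀ v : kerE ℓ e, (v : ι → A) ᵥ* e = (ℓ : ℤ) • nf v :=
    fun v => Classical.choose_spec v.2
  have hνu : ∀ (v : kerE ℓ e) (w : ι → A), (v : ι → A) ᵥ* e = (ℓ : ℤ) • w → nf v = w :=
    fun v w hw => hinj _ _ ((hν v).symm.trans hw)
  have hνadd : ∀ v w : kerE ℓ e, nf (v + w) = nf v + nf w := by
    intro v w
    apply hνu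
    rw [Submodule.coe_add, add_vecMul, hν, hν, smul_add]
  have hνsmul : ∀ (c : A) (v : kerE ℓ e), nf (c • v) = c • nf v := by
    intro c v
    apply hνu
    rw [Submodule.coe_smul, smul_vecMul, hν]
    exact smul_comm _ _ _
  have hmem : ∀ u w : ι → A, (u ᵥ* (1 - e) + (ℓ : ℤ) • w) ᵥ* e =
      (ℓ : ℤ) • (u ᵥ* δ + w ᵥ* e) := by
    intro u w
    have h1 : (1 - e) * e = (ℓ : ℤ) • δ := by rw [← h]; noncomm_ring
    rw [add_vecMul, vecMul_vecMul, h1, vecMul_smul, smul_vecMul, smul_add]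
  have hadd : ∀ v w : kerE ℓ e,
      Sum.elim (((v + w : kerE ℓ e) : ι → A) ᵥ* (1 - e))
        (nf (v + w) + ((v + w : kerE ℓ e) : ι → A) ᵥ* δ) =
      Sum.elim ((v : ι → A) ᵥ* (1 - e)) (nf v + (v : ι → A) ᵥ* δ) +
        Sum.elim ((w : ι → A) ᵥ* (1 - e)) (nf w + (w : ι → A) ᵥ* δ) := by
    intro v w
    rw [hνadd, Submodule.coe_add, add_vecMul, add_vecMul]
    funext x
    rcases x with x | x
    · simp only [Sum.elim_inl, Pi.add_apply]
    · simp only [Sum.elim_inr, Pi.add_apply]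
      abel
  have hsm : ∀ (c : A) (v : kerE ℓ e),
      Sum.elim (((c • v : kerE ℓ e) : ι → A) ᵥ* (1 - e))
        (nf (c • v) + ((c • v : kerE ℓ e) : ι → A) ᵥ* δ) =
      c • Sum.elim ((v : ι → A) ᵥ* (1 - e)) (nf v + (v : ι → A) ᵥ* δ) := by
    intro c v
    rw [hνsmul, Submodule.coe_smul, smul_vecMul, smul_vecMul]
    funext x
    rcases x with x | x
    · simp only [Sum.elim_inl, Pi.smul_apply]
    · simp only [Sum.elim_inr, Pi.smul_apply, Pi.add_apply, smul_add]
  let i : kerE ℓ e →ₗ[A] (ι ⊕ ι → A) :=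
    { toFun := fun v => Sum.elim ((v : ι → A) ᵥ* (1 - e)) (nf v + (v : ι → A) ᵥ* δ)
      map_add' := hadd
      map_smul' := hsm }
  let r : (ι ⊕ ι → A) →ₗ[A] kerE ℓ e :=
    { toFun := fun x => ⟨(x ∘ Sum.inl) ᵥ* (1 - e) + (ℓ : ℤ) • (x ∘ Sum.inr),
        ⟨_, hmem (x ∘ Sum.inl) (x ∘ Sum.inr)⟩⟩
      map_add' := fun x y => by
        apply Subtype.ext
        change ((x + y) ∘ Sum.inl) ᵥ* (1 - e) + (ℓ : ℤ) • ((x + y) ∘ Sum.inr) =
          ((x ∘ Sum.inl) ᵥ* (1 - e) + (ℓ : ℤ) • (x ∘ Sum.inr)) +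
            ((y ∘ Sum.inl) ᵥ* (1 - e) + (ℓ : ℤ) • (y ∘ Sum.inr))
        rw [show (x + y) ∘ Sum.inl = x ∘ Sum.inl + y ∘ Sum.inl from rfl,
          show (x + y) ∘ Sum.inr = x ∘ Sum.inr + y ∘ Sum.inr from rfl, add_vecMul, smul_add]
        abel
      map_smul' := fun c x => by
        apply Subtype.ext
        change ((c • x) ∘ Sum.inl) ᵥ* (1 - e) + (ℓ : ℤ) • ((c • x) ∘ Sum.inr) =
          c • ((x ∘ Sum.inl) ᵥ* (1 - e) + (ℓ : ℤ) • (x ∘ Sum.inr))
        rw [show (c • x) ∘ Sum.inl = c • (x ∘ Sum.inl) from rfl,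
          show (c • x) ∘ Sum.inr = c • (x ∘ Sum.inr) from rfl, smul_vecMul, smul_add,
          smul_comm (ℓ : ℤ) c] }
  refine ⟨i, r, fun v => ?_, fun x => ?_⟩
  · apply Subtype.ext
    change ((v : ι → A) ᵥ* (1 - e)) ᵥ* (1 - e) + (ℓ : ℤ) • (nf v + (v : ι → A) ᵥ* δ) = (v : ι → A)
    rw [smul_add, ← hν, ← vecMul_smul, ← h, vecMul_vecMul, ← vecMul_add, ← vecMul_add]
    have h1 : (1 - e) * (1 - e) + (e + (e - e * e)) = 1 := by noncomm_ring
    rw [h1, vecMul_one]
  · have h2 : nf (r x) = (x ∘ Sum.inl) ᵥ* δ + (x ∘ Sum.inr) ᵥ* e :=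
      hνu _ _ (hmem (x ∘ Sum.inl) (x ∘ Sum.inr))
    change Sum.elim (((x ∘ Sum.inl) ᵥ* (1 - e) + (ℓ : ℤ) • (x ∘ Sum.inr)) ᵥ* (1 - e))
      (nf (r x) + ((x ∘ Sum.inl) ᵥ* (1 - e) + (ℓ : ℤ) • (x ∘ Sum.inr)) ᵥ* δ) = _
    rw [h2]
    unfold pmat
    rw [vecMul_fromBlocks]
    congr 1
    · rw [add_vecMul, vecMul_vecMul, smul_vecMul, ← vecMul_smul]
    · have h3 : (1 - e) * δ = δ * (1 - e) := by
        rw [sub_mul, mul_sub, one_mul, mul_one, hcomm]
      rw [add_vecMul, vecMul_vecMul, smul_vecMul, ← vecMul_smul, ← h, h3, mul_add, mul_add,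
        mul_one, mul_one, vecMul_add, vecMul_add]
      have h4 : e * (1 - e) = e - e * e := by noncomm_ring
      rw [h4]
      abel

end Pool.Agent.H95.KF

end

section

/-!
# Project KF, module Sch: the modules `kerE` and equivalence modulo `ℓ`

## Paper proofs

`kerE_congr` (Schanuel): `K(e) = {v | v e ≡ 0}`, congruences modulo `ℓ`; `x y ≡ e`, `y x ≡ f`, `e e ≡ e`, `f f ≡ f`.
The map `K(e) × A^κ → K(f) × A^ι`, `(k, w) ↦ (w - v x, v)` with `v := k + w y`. It is well defined:
`(w - v x) f ≡ w f - k x f - w y x f ≡ w f - k x f - w f f ≡ - k x f ≡ - k x y x ≡ - (k e) x ≡ 0`.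
The inverse: `(k', v) ↦ (v - w y, w)` with `w := k' + v x`; `(v - w y) e ≡ v e - k' y e - v x y e ≡ - k' y e
≡ - k' y x y ≡ - (k' f) y ≡ 0`. These maps are mutually inverse: starting with `(k, w)`:
`w' = (w - v x) + v x = w`, `v - w y = k`.
(Congruence of vectors: `∃ z, a - b = (ℓ : ℤ) • z`; if `X ≡ Y` (`MCong`) then `v X ≡ v Y`; products of congruent
matrices are congruent. `LinearEquiv` can be built from two linear maps, `LinearEquiv.ofLinear`, or from
`toFun`/`invFun`.)

`kerE_blocks`: `v ↦ (v ∘ inl, v ∘ inr)`; `v (fromBlocks e 0 0 f) = Sum.elim ((v ∘ inl) e) ((v ∘ inr) f)`.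
-/

set_option autoImplicit false

open Matrix

universe u v w

namespace Pool.Agent.H95.KF

variable {A : Type u} [Ring A] {ι : Type*} [Fintype ι] [DecidableEq ι] {κ : Type*} [Fintype κ]
  [DecidableEq κ]

/-- divisibility of a vector by `ℓ` -/
private def DvS (ℓ : ℕ) {ι : Type*} (v : ι → A) : Prop := ∃ w : ι → A, v = (ℓ : ℤ) • w

private theorem DvS.add {ℓ : ℕ} {ι : Type*} {v w : ι → A} (hv : DvS ℓ v) (hw : DvS ℓ w) :
    DvS ℓ (v + w) := by
  obtain ⟨a, rfl⟩ := hv
  obtain ⟨b, rfl⟩ := hw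
  exact ⟨a + b, (smul_add _ _ _).symm⟩

private theorem DvS.sub {ℓ : ℕ} {ι : Type*} {v w : ι → A} (hv : DvS ℓ v) (hw : DvS ℓ w) :
    DvS ℓ (v - w) := by
  obtain ⟨a, rfl⟩ := hv
  obtain ⟨b, rfl⟩ := hw
  exact ⟨a - b, (smul_sub _ _ _).symm⟩

private theorem zsmul_vecMulS {ι κ : Type*} [Fintype ι] (n : ℤ) (v : ι → A) (M : Matrix ι κ A) :
    (n • v) ᵥ* M = n • (v ᵥ* M) := by
  funext j
  simp only [vecMul, dotProduct, Pi.smul_apply, Finset.smul_sum]
  exact Finset.sum_congr rfl fun i _ => smul_mul_assoc n (v i) (M i j)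

private theorem vecMul_zsmulS {ι κ : Type*} [Fintype ι] (n : ℤ) (v : ι → A) (M : Matrix ι κ A) :
    v ᵥ* (n • M) = n • (v ᵥ* M) := by
  funext j
  simp only [vecMul, dotProduct, Pi.smul_apply, Matrix.smul_apply, Finset.smul_sum]
  exact Finset.sum_congr rfl fun i _ => mul_smul_comm n (v i) (M i j)

private theorem DvS.vecMul {ℓ : ℕ} {ι κ : Type*} [Fintype ι] {v : ι → A} (hv : DvS ℓ v)
    (M : Matrix ι κ A) : DvS ℓ (v ᵥ* M) := by
  obtain ⟨a, rfl⟩ := hv
  exact ⟨a ᵥ* M, zsmul_vecMulS _ _ _⟩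

private theorem DvS.of_cong {ℓ : ℕ} {ι κ : Type*} [Fintype ι] {X Y : Matrix ι κ A}
    (h : MCong ℓ X Y) (v : ι → A) : DvS ℓ (v ᵥ* X - v ᵥ* Y) := by
  obtain ⟨Z, hZ⟩ := h
  refine ⟨v ᵥ* Z, ?_⟩
  rw [← vecMul_sub, hZ, vecMul_zsmulS]

private theorem sch_mem {ι κ : Type*} [Fintype ι] [Fintype κ] {ℓ : ℕ} {e : Matrix ι ι A}
    {f : Matrix κ κ A} {x : Matrix ι κ A} {y : Matrix κ ι A} (hf : MCong ℓ (f * f) f)
    (hxy : MCong ℓ (x * y) e) (hyx : MCong ℓ (y * x) f) (k : kerE ℓ e) (w : κ → A) :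
    w - (k.1 + w ᵥ* y) ᵥ* x ∈ kerE ℓ f := by
  have hk : DvS ℓ (k.1 ᵥ* e) := k.2
  have h1 : DvS ℓ (w ᵥ* (f * f) - w ᵥ* f) := DvS.of_cong hf w
  have h2 : DvS ℓ ((w ᵥ* (y * x) - w ᵥ* f) ᵥ* f) := (DvS.of_cong hyx w).vecMul f
  have h3 : DvS ℓ ((k.1 ᵥ* x) ᵥ* (y * x) - (k.1 ᵥ* x) ᵥ* f) := DvS.of_cong hyx _
  have h4 : DvS ℓ ((k.1 ᵥ* (x * y) - k.1 ᵥ* e) ᵥ* x) := (DvS.of_cong hxy k.1).vecMul x
  have h5 : DvS ℓ ((k.1 ᵥ* e) ᵥ* x) := hk.vecMul x
  have h : DvS ℓ (((k.1 ᵥ* x) ᵥ* (y * x) - (k.1 ᵥ* x) ᵥ* f) -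
      ((k.1 ᵥ* (x * y) - k.1 ᵥ* e) ᵥ* x + (k.1 ᵥ* e) ᵥ* x) -
      ((w ᵥ* (y * x) - w ᵥ* f) ᵥ* f + (w ᵥ* (f * f) - w ᵥ* f))) :=
    (h3.sub (h4.add h5)).sub (h2.add h1)
  obtain ⟨z, hz⟩ := h
  refine ⟨z, ?_⟩
  rw [← hz]
  simp only [sub_vecMul, add_vecMul, vecMul_vecMul, Matrix.mul_assoc]
  abel

theorem kerE_congr (ℓ : ℕ) (e : Matrix ι ι A) (f : Matrix κ κ A) (x : Matrix ι κ A)
    (y : Matrix κ ι A) (he : MCong ℓ (e * e) e) (hf : MCong ℓ (f * f) f)
    (hxy : MCong ℓ (x * y) e) (hyx : MCong ℓ (y * x) f) :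
    Nonempty ((kerE ℓ e × (κ → A)) ≃ₗ[A] (kerE ℓ f × (ι → A))) := by
  refine ⟨{
    toFun := fun p => (⟨p.2 - (p.1.1 + p.2 ᵥ* y) ᵥ* x, sch_mem hf hxy hyx p.1 p.2⟩,
      p.1.1 + p.2 ᵥ* y)
    map_add' := fun p q => ?_
    map_smul' := fun c p => ?_
    invFun := fun p => (⟨p.2 - (p.1.1 + p.2 ᵥ* x) ᵥ* y, sch_mem he hyx hxy p.1 p.2⟩,
      p.1.1 + p.2 ᵥ* x)
    left_inv := fun p => ?_
    right_inv := fun p => ?_ }⟩
  · refine Prod.ext (Subtype.ext ?_) ?_
    · change (p.2 + q.2) - ((p.1.1 + q.1.1) + (p.2 + q.2) ᵥ* y) ᵥ* x =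
        (p.2 - (p.1.1 + p.2 ᵥ* y) ᵥ* x) + (q.2 - (q.1.1 + q.2 ᵥ* y) ᵥ* x)
      simp only [add_vecMul]
      abel
    · change (p.1.1 + q.1.1) + (p.2 + q.2) ᵥ* y = (p.1.1 + p.2 ᵥ* y) + (q.1.1 + q.2 ᵥ* y)
      simp only [add_vecMul]
      abel
  · refine Prod.ext (Subtype.ext ?_) ?_
    · change c • p.2 - (c • p.1.1 + (c • p.2) ᵥ* y) ᵥ* x = c • (p.2 - (p.1.1 + p.2 ᵥ* y) ᵥ* x)
      simp only [add_vecMul, smul_vecMul, smul_sub, smul_add]
    · change c • p.1.1 + (c • p.2) ᵥ* y = c • (p.1.1 + p.2 ᵥ* y)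
      simp only [smul_vecMul, smul_add]
  · refine Prod.ext (Subtype.ext ?_) ?_
    · change (p.1.1 + p.2 ᵥ* y) - ((p.2 - (p.1.1 + p.2 ᵥ* y) ᵥ* x) +
        (p.1.1 + p.2 ᵥ* y) ᵥ* x) ᵥ* y = p.1.1
      rw [sub_add_cancel, add_sub_cancel_right]
    · change (p.2 - (p.1.1 + p.2 ᵥ* y) ᵥ* x) + (p.1.1 + p.2 ᵥ* y) ᵥ* x = p.2
      rw [sub_add_cancel]
  · refine Prod.ext (Subtype.ext ?_) ?_
    · change (p.1.1 + p.2 ᵥ* x) - ((p.2 - (p.1.1 + p.2 ᵥ* x) ᵥ* y) +
        (p.1.1 + p.2 ᵥ* x) ᵥ* y) ᵥ* x = p.1.1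
      rw [sub_add_cancel, add_sub_cancel_right]
    · change (p.2 - (p.1.1 + p.2 ᵥ* x) ᵥ* y) + (p.1.1 + p.2 ᵥ* x) ᵥ* y = p.2
      rw [sub_add_cancel]

theorem kerE_blocks (ℓ : ℕ) (e : Matrix ι ι A) (f : Matrix κ κ A) :
    Nonempty (kerE ℓ (fromBlocks e 0 0 f) ≃ₗ[A] (kerE ℓ e × kerE ℓ f)) := by
  have key : ∀ (a : ι → A) (b : κ → A), (Sum.elim a b) ᵥ* (fromBlocks e 0 0 f) =
      Sum.elim (a ᵥ* e) (b ᵥ* f) := by
    intro a b
    rw [vecMul_fromBlocks]
    simp only [Sum.elim_comp_inl, Sum.elim_comp_inr, vecMul_zero, add_zero, zero_add]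
  have hin : ∀ v : ι ⊕ κ → A, v ∈ kerE ℓ (fromBlocks e 0 0 f) →
      (v ∘ Sum.inl) ∈ kerE ℓ e ∧ (v ∘ Sum.inr) ∈ kerE ℓ f := by
    rintro v ⟨w, hw⟩
    rw [← Sum.elim_comp_inl_inr v, key] at hw
    refine ⟨⟨w ∘ Sum.inl, ?_⟩, ⟨w ∘ Sum.inr, ?_⟩⟩
    · funext i
      exact congrFun hw (Sum.inl i)
    · funext i
      exact congrFun hw (Sum.inr i)
  refine ⟨{
    toFun := fun v => (⟨v.1 ∘ Sum.inl, (hin v.1 v.2).1⟩, ⟨v.1 ∘ Sum.inr, (hin v.1 v.2).2⟩)
    map_add' := fun p q => rfl
    map_smul' := fun c p => rfl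
    invFun := fun p => ⟨Sum.elim p.1.1 p.2.1, ?_⟩
    left_inv := fun v => Subtype.ext (Sum.elim_comp_inl_inr v.1)
    right_inv := fun p => rfl }⟩
  obtain ⟨w, hw⟩ := p.1.2
  obtain ⟨w', hw'⟩ := p.2.2
  refine ⟨Sum.elim w w', ?_⟩
  rw [key, hw, hw']
  funext i
  cases i <;> rfl

end Pool.Agent.H95.KF

end

section

/-!
# Project KF, module Rep: idempotent matrices representing modules

## Paper proofs

`Rep e P`: maps `i : P → A^ι`, `r : A^ι → P` with `r i = 1` and `i r = (· e)` (row vectors, left modules).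
* `Rep.idem`: `(v e) e = i (r (i (r v))) = i (r v) = v e` for all `v`; take `v = Pi.single j 1` (or use
  `Matrix.toLinearMapRight'`/`LinearMap.toMatrixRight'`, which exist for noncommutative rings).
* `rep_fixM`: `i` the inclusion, `r v = v e`.
* `rep_one`: identities.
* `Rep.prod`: `i (p, q) = Sum.elim (i p) (i' q)`, `r w = (r (w ∘ inl), r' (w ∘ inr))`
  (`Matrix.vecMul_fromBlocks` or by hand).
* `Rep.equiv`: `i ∘ g.symm`, `g ∘ r`.
* `Rep.matEquiv`: with `Q = P` (by `Rep.equiv`): `x := toMatrixRight' (i' ∘ r) : Matrix ι κ A` (i.e. row `j` of `x`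
  is `i' (r (Pi.single j 1))`), `y := toMatrixRight' (i ∘ r')`. Acting on row vectors `v x = i' (r v)`,
  `v (x y) = i (r' (i' (r v))) = i (r v) = v e`, so `x y = e`; in the same way `y x = f`.
-/

set_option autoImplicit false

open Matrix

universe u v w

namespace Pool.Agent.H95.KF

open Pool.Agent.H71.FJ

variable {A : Type u} [Ring A] {ι : Type*} [Fintype ι] [DecidableEq ι] {κ : Type*} [Fintype κ]
  [DecidableEq κ]

private theorem rep_ext_row {m n : Type*} [Fintype m] [DecidableEq m] {M N : Matrix m n A}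
    (h : ∀ v : m → A, v ᵥ* M = v ᵥ* N) : M = N :=
  Matrix.toLinearMapRight'.injective (LinearMap.ext h)

private theorem rep_exists_mat {m n : Type*} [Fintype m] [DecidableEq m]
    (f : (m → A) →ₗ[A] (n → A)) : ∃ M : Matrix m n A, ∀ v, v ᵥ* M = f v :=
  ⟨LinearMap.toMatrixRight' f, fun v =>
    LinearMap.congr_fun (LinearMap.toMatrixRight'.symm_apply_apply f) v⟩

theorem Rep.idem {e : Matrix ι ι A} {P : Type*} [AddCommGroup P] [Module A P] (h : Rep e P) :
    e * e = e := by
  obtain ⟨i, r, hr, hi⟩ := h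
  apply rep_ext_row
  intro v
  rw [← vecMul_vecMul, ← hi, ← hi, hr]

theorem rep_fixM {e : Matrix ι ι A} (he : e * e = e) : Rep e (fixM e) := by
  refine ⟨(fixM e).subtype, (Matrix.toLinearMapRight' e).codRestrict (fixM e) (fun v => ?_),
    fun p => ?_, fun v => ?_⟩
  · change (v ᵥ* e) ᵥ* e = v ᵥ* e
    rw [vecMul_vecMul, he]
  · apply Subtype.ext
    exact p.2
  · rfl

theorem rep_one : Rep (1 : Matrix ι ι A) (ι → A) :=
  ⟨LinearMap.id, LinearMap.id, fun _ => rfl, fun v => (vecMul_one v).symm⟩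

theorem Rep.prod {e : Matrix ι ι A} {f : Matrix κ κ A} {P : Type*} [AddCommGroup P] [Module A P]
    {Q : Type*} [AddCommGroup Q] [Module A Q] (h : Rep e P) (h' : Rep f Q) :
    Rep (fromBlocks e 0 0 f) (P × Q) := by
  obtain ⟨i, r, hr, hi⟩ := h
  obtain ⟨i', r', hr', hi'⟩ := h'
  let I : P × Q →ₗ[A] (ι ⊕ κ → A) :=
    { toFun := fun p => Sum.elim (i p.1) (i' p.2)
      map_add' := fun p q => by
        funext j
        rcases j with j | j
        · change i (p.1 + q.1) j = i p.1 j + i q.1 j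
          rw [map_add]
          rfl
        · change i' (p.2 + q.2) j = i' p.2 j + i' q.2 j
          rw [map_add]
          rfl
      map_smul' := fun c p => by
        funext j
        rcases j with j | j
        · change i (c • p.1) j = c • i p.1 j
          rw [map_smul]
          rfl
        · change i' (c • p.2) j = c • i' p.2 j
          rw [map_smul]
          rfl }
  let J : (ι ⊕ κ → A) →ₗ[A] P × Q :=
    { toFun := fun w => (r (w ∘ Sum.inl), r' (w ∘ Sum.inr))
      map_add' := fun w w' => by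
        change (r (w ∘ Sum.inl + w' ∘ Sum.inl), r' (w ∘ Sum.inr + w' ∘ Sum.inr)) = _
        rw [map_add, map_add]
        rfl
      map_smul' := fun c w => by
        change (r (c • (w ∘ Sum.inl)), r' (c • (w ∘ Sum.inr))) = _
        rw [map_smul, map_smul]
        rfl }
  refine ⟨I, J, fun p => ?_, fun w => ?_⟩
  · change (r (Sum.elim (i p.1) (i' p.2) ∘ Sum.inl), r' (Sum.elim (i p.1) (i' p.2) ∘ Sum.inr)) = p
    rw [Sum.elim_comp_inl, Sum.elim_comp_inr, hr, hr']
  · change Sum.elim (i (r (w ∘ Sum.inl))) (i' (r' (w ∘ Sum.inr))) = _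
    rw [vecMul_fromBlocks, vecMul_zero, vecMul_zero, add_zero, zero_add, hi, hi']

theorem Rep.equiv {e : Matrix ι ι A} {P : Type*} [AddCommGroup P] [Module A P]
    {Q : Type*} [AddCommGroup Q] [Module A Q] (h : Rep e P) (g : P ≃ₗ[A] Q) : Rep e Q := by
  obtain ⟨i, r, hr, hi⟩ := h
  refine ⟨i.comp g.symm.toLinearMap, g.toLinearMap.comp r, fun p => ?_, fun v => ?_⟩
  · change g (r (i (g.symm p))) = p
    rw [hr, LinearEquiv.apply_symm_apply]
  · change i (g.symm (g (r v))) = v ᵥ* e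
    rw [LinearEquiv.symm_apply_apply, hi]

theorem Rep.matEquiv {e : Matrix ι ι A} {f : Matrix κ κ A} {P : Type*} [AddCommGroup P]
    [Module A P] {Q : Type*} [AddCommGroup Q] [Module A Q] (h : Rep e P) (h' : Rep f Q)
    (g : P ≃ₗ[A] Q) : MatEquiv e f := by
  obtain ⟨i, r, hr, hi⟩ := h.equiv g
  obtain ⟨i', r', hr', hi'⟩ := h'
  obtain ⟨x, hx⟩ := rep_exists_mat (i'.comp r)
  obtain ⟨y, hy⟩ := rep_exists_mat (i.comp r')
  refine ⟨x, y, rep_ext_row fun v => ?_, rep_ext_row fun v => ?_⟩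
  · rw [← vecMul_vecMul, hx, hy]
    change i (r' (i' (r v))) = v ᵥ* e
    rw [hr', hi]
  · rw [← vecMul_vecMul, hy, hx]
    change i' (r (i (r' v))) = v ᵥ* f
    rw [hr, hi']

end Pool.Agent.H95.KF

end
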