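import Pool.Agent.H94.FJ.H95.KM.Lau

/-! The parts of this file: H95.KM.SqDefs, H95.KM.SqProp, H95.KM.SqLau. -/

section

/-!
# Project KM: Milnor squares, definitions

A square `Q : Sq Γ 𝓜 B` consists of an injective ring homomorphism `φ : Γ → 𝓜` and a surjective ring
homomorphism `π : 𝓜 → B` with `ker π ⊆ φ(Γ)`.  The connecting homomorphism attaches to a unit `g` of
`Mat_m(B)` a class `dl g ∈ K₀(Γ)`.
-/

set_option autoImplicit false

open Matrix
open scoped LaurentPolynomial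

universe u v w u' v' w'

namespace Pool.Agent.H95.KM

open Pool.Agent.H71.FJ

/-- Milnor square data. -/
structure Sq (Γ : Type u) (𝓜 : Type v) (B : Type w) [Ring Γ] [Ring 𝓜] [Ring B] where
  /-- the inclusion -/
  φ : Γ →+* 𝓜
  /-- the projection -/
  π : 𝓜 →+* B
  inj : Function.Injective φ
  surj : Function.Surjective π
  ker : ∀ z, π z = 0 → ∃ g, φ g = z

/-- image of a unit matrix under a ring homomorphism -/
def mapU {B : Type u} [Ring B] {B' : Type v} [Ring B'] (c : B →+* B') {m : Type} [Fintype m]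
    [DecidableEq m] (g : (Matrix m m B)ˣ) : (Matrix m m B')ˣ where
  val := (g : Matrix m m B).map c
  inv := ((g⁻¹ : (Matrix m m B)ˣ) : Matrix m m B).map c
  val_inv := by rw [← Matrix.map_mul, Units.mul_inv, Matrix.map_one _ (map_zero c) (map_one c)]
  inv_val := by rw [← Matrix.map_mul, Units.inv_mul, Matrix.map_one _ (map_zero c) (map_one c)]

/-- block sum of units -/
def blk {B : Type u} [Ring B] {m n : Type} [Fintype m] [DecidableEq m] [Fintype n]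
    [DecidableEq n] (g : (Matrix m m B)ˣ) (h : (Matrix n n B)ˣ) :
    (Matrix (m ⊕ n) (m ⊕ n) B)ˣ where
  val := fromBlocks g 0 0 h
  inv := fromBlocks (g⁻¹ : (Matrix m m B)ˣ) 0 0 (h⁻¹ : (Matrix n n B)ˣ)
  val_inv := by simp [fromBlocks_multiply]
  inv_val := by simp [fromBlocks_multiply]

/-- reindexing of a unit -/
def rei {B : Type u} [Ring B] {m n : Type} [Fintype m] [DecidableEq m] [Fintype n]
    [DecidableEq n] (σ : n ≃ m) (g : (Matrix m m B)ˣ) : (Matrix n n B)ˣ where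
  val := (g : Matrix m m B).submatrix σ σ
  inv := ((g⁻¹ : (Matrix m m B)ˣ) : Matrix m m B).submatrix σ σ
  val_inv := by rw [submatrix_mul_equiv, Units.mul_inv, submatrix_one_equiv]
  inv_val := by rw [submatrix_mul_equiv, Units.inv_mul, submatrix_one_equiv]

/-- A family of homomorphisms `GL_m(Λ) → M` compatible with block sums and reindexing. -/
structure StabHom (Λ : Type u) [Ring Λ] (M : Type v) [AddCommGroup M] where
  /-- the homomorphisms -/
  D : ∀ {m : Type} [Fintype m] [DecidableEq m], (Matrix m m Λ)ˣ → M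
  map_mul : ∀ {m : Type} [Fintype m] [DecidableEq m] (g h : (Matrix m m Λ)ˣ),
    D (g * h) = D g + D h
  map_blk : ∀ {m n : Type} [Fintype m] [DecidableEq m] [Fintype n] [DecidableEq n]
    (g : (Matrix m m Λ)ˣ) (h : (Matrix n n Λ)ˣ), D (blk g h) = D g + D h
  map_rei : ∀ {m n : Type} [Fintype m] [DecidableEq m] [Fintype n] [DecidableEq n]
    (σ : n ≃ m) (g : (Matrix m m Λ)ˣ), D (rei σ g) = D g

namespace StabHom

variable {Λ : Type u} [Ring Λ] {M : Type v} [AddCommGroup M] (Δ : StabHom Λ M)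

theorem map_one {m : Type} [Fintype m] [DecidableEq m] : Δ.D (1 : (Matrix m m Λ)ˣ) = 0 := by
  have := Δ.map_mul (1 : (Matrix m m Λ)ˣ) 1
  rw [one_mul] at this
  simpa using this

theorem map_inv {m : Type} [Fintype m] [DecidableEq m] (g : (Matrix m m Λ)ˣ) :
    Δ.D g⁻¹ = - Δ.D g := by
  rw [eq_neg_iff_add_eq_zero, ← Δ.map_mul, inv_mul_cancel, Δ.map_one]

end StabHom

namespace Sq

variable {Γ : Type u} {𝓜 : Type v} {B : Type w} [Ring Γ] [Ring 𝓜] [Ring B] (Q : Sq Γ 𝓜 B)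

/-- `(x, y, H)` represents the unit `g`: `x y = 1`, `y x = φ(H)`, `π(x) = g · πφ(u)`,
`π(y) = πφ(v) · g⁻¹`. -/
def IsRep {m n : Type} [Fintype m] [DecidableEq m] [Fintype n] (g : (Matrix m m B)ˣ)
    (x : Matrix m n 𝓜) (y : Matrix n m 𝓜) (H : Matrix n n Γ) : Prop :=
  x * y = 1 ∧ y * x = H.map Q.φ ∧
  (∃ u : Matrix m n Γ, x.map Q.π = (g : Matrix m m B) * u.map (Q.π.comp Q.φ)) ∧
  (∃ v : Matrix n m Γ, y.map Q.π = v.map (Q.π.comp Q.φ) * ((g⁻¹ : (Matrix m m B)ˣ) :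
    Matrix m m B))

variable {Q}

theorem IsRep.idem {m n : Type} [Fintype m] [DecidableEq m] [Fintype n] [DecidableEq n]
    {g : (Matrix m m B)ˣ} {x : Matrix m n 𝓜} {y : Matrix n m 𝓜} {H : Matrix n n Γ}
    (h : Q.IsRep g x y H) : H * H = H := by
  apply matrix_map_injective Q.inj
  rw [Matrix.map_mul, ← h.2.1, Matrix.mul_assoc, ← Matrix.mul_assoc x, h.1, Matrix.one_mul]

theorem exists_map_of_pi {m n : Type*} (X : Matrix m n 𝓜)
    (h : ∃ Z : Matrix m n Γ, X.map Q.π = Z.map (Q.π.comp Q.φ)) :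
    ∃ Y : Matrix m n Γ, Y.map Q.φ = X := by
  obtain ⟨Z, hZ⟩ := h
  apply exists_matrix_lift Q.φ X
  intro i j
  have h1 : Q.π (X i j - Q.φ (Z i j)) = 0 := by
    rw [map_sub, sub_eq_zero]
    exact congrFun (congrFun hZ i) j
  obtain ⟨g, hg⟩ := Q.ker _ h1
  exact ⟨g + Z i j, by rw [map_add, hg, sub_add_cancel]⟩

/-- Two representations of the same unit give equivalent idempotent matrices. -/
theorem IsRep.matEquiv {m n₁ n₂ : Type} [Fintype m] [DecidableEq m] [Fintype n₁]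
    [DecidableEq n₁] [Fintype n₂] [DecidableEq n₂] {g : (Matrix m m B)ˣ}
    {x₁ : Matrix m n₁ 𝓜} {y₁ : Matrix n₁ m 𝓜} {H₁ : Matrix n₁ n₁ Γ}
    {x₂ : Matrix m n₂ 𝓜} {y₂ : Matrix n₂ m 𝓜} {H₂ : Matrix n₂ n₂ Γ}
    (h₁ : Q.IsRep g x₁ y₁ H₁) (h₂ : Q.IsRep g x₂ y₂ H₂) : MatEquiv H₁ H₂ := by
  obtain ⟨a1, b1, ⟨u1, c1⟩, ⟨v1, d1⟩⟩ := h₁
  obtain ⟨a2, b2, ⟨u2, c2⟩, ⟨v2, d2⟩⟩ := h₂
  obtain ⟨X, hX⟩ := exists_map_of_pi (Q := Q) (y₁ * x₂) ⟨v1 * u2, by
    rw [Matrix.map_mul, d1, c2, Matrix.map_mul, Matrix.mul_assoc, ← Matrix.mul_assoc _ (g : Matrix m m B),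
      Units.inv_mul, Matrix.one_mul]⟩
  obtain ⟨Y, hY⟩ := exists_map_of_pi (Q := Q) (y₂ * x₁) ⟨v2 * u1, by
    rw [Matrix.map_mul, d2, c1, Matrix.map_mul, Matrix.mul_assoc, ← Matrix.mul_assoc _ (g : Matrix m m B),
      Units.inv_mul, Matrix.one_mul]⟩
  refine ⟨X, Y, ?_, ?_⟩
  · apply matrix_map_injective Q.inj
    rw [Matrix.map_mul, hX, hY, ← b1, Matrix.mul_assoc, ← Matrix.mul_assoc x₂, a2, Matrix.one_mul]
  · apply matrix_map_injective Q.inj
    rw [Matrix.map_mul, hX, hY, ← b2, Matrix.mul_assoc, ← Matrix.mul_assoc x₁, a1, Matrix.one_mul]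

variable (Q)

theorem exists_isRep_aux {m : Type} [Fintype m] [DecidableEq m] (g : Matrix m m B)
    (A₁ A₂ : Matrix m m 𝓜) (h₁ : A₁.map Q.π = g) (h₂ : A₂.map Q.π = 0) :
    (fromCols A₁ A₂).map Q.π =
      g * (fromCols (1 : Matrix m m Γ) 0).map (Q.π.comp Q.φ) := by
  ext i j
  rcases j with j | j
  · have := congrFun (congrFun h₁ i) j
    simp only [Matrix.map_apply] at this
    simp [Matrix.mul_apply, Matrix.one_apply, this]
  · have := congrFun (congrFun h₂ i) j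
    simp only [Matrix.map_apply] at this
    simp [Matrix.mul_apply, this]

theorem exists_isRep_aux' {m : Type} [Fintype m] [DecidableEq m] (g : Matrix m m B)
    (A₁ A₂ : Matrix m m 𝓜) (h₁ : A₁.map Q.π = g) (h₂ : A₂.map Q.π = 0) :
    (fromRows A₁ A₂).map Q.π =
      (fromRows (1 : Matrix m m Γ) 0).map (Q.π.comp Q.φ) * g := by
  ext i j
  rcases i with i | i
  · have := congrFun (congrFun h₁ i) j
    simp only [Matrix.map_apply] at this
    simp [Matrix.mul_apply, Matrix.one_apply, this]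
  · have := congrFun (congrFun h₂ i) j
    simp only [Matrix.map_apply] at this
    simp [Matrix.mul_apply, this]

theorem exists_isRep {m : Type} [Fintype m] [DecidableEq m] (g : (Matrix m m B)ˣ) :
    ∃ (x : Matrix m (m ⊕ m) 𝓜) (y : Matrix (m ⊕ m) m 𝓜) (H : Matrix (m ⊕ m) (m ⊕ m) Γ),
      Q.IsRep g x y H := by
  obtain ⟨a, ha⟩ := exists_matrix_lift Q.π (g : Matrix m m B) (fun i j => Q.surj _)
  obtain ⟨b, hb⟩ := exists_matrix_lift Q.π ((g⁻¹ : (Matrix m m B)ˣ) : Matrix m m B)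
    (fun i j => Q.surj _)
  have hab : (a * b).map Q.π = 1 := by rw [Matrix.map_mul, ha, hb, Units.mul_inv]
  have e1 : (2 * a - a * b * a).map Q.π = (g : Matrix m m B) := by
    have h1 := map_sub (Q.π.mapMatrix) (2 * a) (a * b * a)
    rw [map_mul, map_mul (Q.π.mapMatrix) (a * b) a, map_ofNat] at h1
    have h2 : (2 * a - a * b * a).map Q.π = 2 * a.map Q.π - (a * b).map Q.π * a.map Q.π := h1
    rw [h2, hab, ha, one_mul, two_mul, add_sub_cancel_right]
  have e2 : (a * b - 1).map Q.π = 0 := by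
    have h1 := map_sub (Q.π.mapMatrix) (a * b) 1
    rw [map_one] at h1
    have h2 : (a * b - 1).map Q.π = (a * b).map Q.π - 1 := h1
    rw [h2, hab, sub_self]
  have hx := Q.exists_isRep_aux (g : Matrix m m B) _ _ e1 e2
  have hy := Q.exists_isRep_aux' ((g⁻¹ : (Matrix m m B)ˣ) : Matrix m m B) _ _ hb e2
  obtain ⟨H, hH⟩ := exists_map_of_pi (Q := Q)
    (fromRows b (a * b - 1) * fromCols (2 * a - a * b * a) (a * b - 1))
    ⟨fromRows (1 : Matrix m m Γ) 0 * fromCols (1 : Matrix m m Γ) 0, by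
      rw [Matrix.map_mul, hx, hy, Matrix.map_mul, Matrix.mul_assoc,
        ← Matrix.mul_assoc _ (g : Matrix m m B), Units.inv_mul, Matrix.one_mul]⟩
  refine ⟨_, _, H, ?_, hH.symm, ⟨_, hx⟩, ⟨_, hy⟩⟩
  rw [fromCols_mul_fromRows]
  noncomm_ring

/-- the chosen idempotent matrix representing `g` -/
noncomputable def repH {m : Type} [Fintype m] [DecidableEq m] (g : (Matrix m m B)ˣ) :
    Matrix (m ⊕ m) (m ⊕ m) Γ :=
  (Q.exists_isRep g).choose_spec.choose_spec.choose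

theorem exists_isRep_repH {m : Type} [Fintype m] [DecidableEq m] (g : (Matrix m m B)ˣ) :
    ∃ x y, Q.IsRep g x y (Q.repH g) :=
  ⟨_, _, (Q.exists_isRep g).choose_spec.choose_spec.choose_spec⟩

theorem repH_idem {m : Type} [Fintype m] [DecidableEq m] (g : (Matrix m m B)ˣ) :
    Q.repH g * Q.repH g = Q.repH g := by
  obtain ⟨x, y, h⟩ := Q.exists_isRep_repH g
  exact h.idem

/-- The connecting homomorphism. -/
noncomputable def dl {m : Type} [Fintype m] [DecidableEq m] (g : (Matrix m m B)ˣ) : K0 Γ :=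
  K0.cls (Q.repH g) (Q.repH_idem g) - K0.cls (1 : Matrix m m Γ) one_idem

variable {Q}

theorem dl_eq {m n : Type} [Fintype m] [DecidableEq m] [Fintype n] [DecidableEq n]
    {g : (Matrix m m B)ˣ} {x : Matrix m n 𝓜} {y : Matrix n m 𝓜} {H : Matrix n n Γ}
    (h : Q.IsRep g x y H) :
    Q.dl g = K0.cls H h.idem - K0.cls (1 : Matrix m m Γ) one_idem := by
  obtain ⟨x', y', h'⟩ := Q.exists_isRep_repH g
  rw [dl, K0.cls_congr _ _ (h'.matEquiv h)]

variable (Q)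

/-- The square of Laurent polynomial rings. -/
noncomputable def lauSq : Sq Γ[T;T⁻¹] 𝓜[T;T⁻¹] B[T;T⁻¹] where
  φ := lau Q.φ
  π := lau Q.π
  inj := lau_injective Q.inj
  surj := lau_surjective Q.surj
  ker z hz := by
    apply exists_lau z
    intro k
    apply Q.ker
    rw [← lau_coeff, hz]
    simp

/-- The square of polynomial rings. -/
noncomputable def polySq : Sq (Polynomial Γ) (Polynomial 𝓜) (Polynomial B) where
  φ := Polynomial.mapRingHom Q.φ
  π := Polynomial.mapRingHom Q.π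
  inj := Polynomial.map_injective Q.φ Q.inj
  surj := Polynomial.map_surjective Q.π Q.surj
  ker z hz := by
    have h : ∀ k, ∃ g, Q.φ g = z.coeff k := by
      intro k
      apply Q.ker
      have := congrArg (fun p => Polynomial.coeff p k) hz
      simpa using this
    choose g hg using h
    refine ⟨∑ k ∈ z.support, Polynomial.monomial k (g k), ?_⟩
    rw [map_sum]
    conv_rhs => rw [Polynomial.as_sum_support z]
    apply Finset.sum_congr rfl
    intro k _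
    rw [Polynomial.coe_mapRingHom, Polynomial.map_monomial, hg]

end Sq

/-- A morphism of squares. -/
structure SqHom {Γ : Type u} {𝓜 : Type v} {B : Type w} [Ring Γ] [Ring 𝓜] [Ring B]
    (Q : Sq Γ 𝓜 B) {Γ' : Type u'} {𝓜' : Type v'} {B' : Type w'} [Ring Γ'] [Ring 𝓜'] [Ring B']
    (Q' : Sq Γ' 𝓜' B') where
  /-- component -/
  a : Γ →+* Γ'
  /-- component -/
  b : 𝓜 →+* 𝓜'
  /-- component -/
  c : B →+* B'
  hφ : ∀ x, b (Q.φ x) = Q'.φ (a x)
  hπ : ∀ x, c (Q.π x) = Q'.π (b x)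

end Pool.Agent.H95.KM

end

section

/-!
# Project KM, module SqProp: properties of the connecting homomorphism

All definitions are in `Pool/Agent/H95/KM/SqDefs.lean`.  `Q.dl g = [H] - [1_m]` for any
representation `IsRep g x y H` (`Sq.dl_eq`).  Let `r = πφ : Γ → B` below.

* `dl_lift` (`h = π(U) g`, `U ∈ GL_m(𝓜)`): if `(x, y, H)` represents `g` (`exists_isRep`) then
  `(U x, y U⁻¹, H)` represents `h` (same `u`, `v`): `π(U x) = π(U) g r(u) = h r(u)`,
  `π(y U⁻¹) = r(v) g⁻¹ π(U)⁻¹ = r(v) h⁻¹`.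
* `dl_base` (`h = g r(V)`, `r(V) r(V') = r(V') r(V) = 1`): the same `(x, y, H)` represents `h` with
  `u' = V' u`, `v' = v V`.
* `dl_one`: `(1, 1, 1)` represents `1` (`u = v = 1`).
* `dl_blk`: if `(x, y, H)` represents `g` and `(x', y', H')` represents `g'` then
  `(x ⊕ x', y ⊕ y', H ⊕ H')` (block diagonal, `fromBlocks x 0 0 x'` etc.) represents `blk g g'`;
  `K0.cls_fromBlocks`, and `[1_{m ⊕ n}] = [1_m] + [1_n]`.
* `dl_rei`: reindexing `m`: `(x.submatrix σ id, y.submatrix id σ, H)` represents `rei σ g`; and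
  `[1_m] = [1_n]` (`K0.matEquiv_one_one`).
* `dl_mul`: by `dl_blk`, `dl_one` it suffices that `dl (blk (g g') 1) = dl (blk g g')`.
  Let `a, b` be matrices over `𝓜` with `π(a) = g`, `π(b) = g⁻¹`.  Let
  `E₁₂(z) = [[1, z], [0, 1]]`, `E₂₁(z) = [[1, 0], [z, 1]]` (invertible over `𝓜`) and
  `U = E₁₂(a) E₂₁(-b) E₁₂(a) ∈ GL_{m ⊕ m}(𝓜)`; then `π(U) = [[0, g], [-g⁻¹, 0]]`.
  Let `S = [[0, 1], [-1, 0]]`, `S⁻¹ = [[0, -1], [1, 0]]` over `Γ`.
  `π(U) · diag(g, g') · r(S⁻¹) = [[0, g g'], [-1, 0]] · [[0, -1], [1, 0]] = diag(g g', 1)`.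
  Now use `dl_lift` and `dl_base`.
* `dl_map`: if `(x, y, H)` represents `g` then `(b x, b y, a H)` represents `c g`.
-/

set_option autoImplicit false

open Matrix
open scoped LaurentPolynomial

universe u v w u' v' w'

namespace Pool.Agent.H95.KM

open Pool.Agent.H71.FJ

namespace Sq

variable {Γ : Type u} {𝓜 : Type v} {B : Type w} [Ring Γ] [Ring 𝓜] [Ring B] (Q : Sq Γ 𝓜 B)

/-- Lifting step, on representations. -/
theorem IsRep.lift {Q : Sq Γ 𝓜 B} {m n : Type} [Fintype m] [DecidableEq m] [Fintype n]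
    {g : (Matrix m m B)ˣ} {x : Matrix m n 𝓜} {y : Matrix n m 𝓜} {H : Matrix n n Γ}
    (hr : Q.IsRep g x y H) (U : (Matrix m m 𝓜)ˣ) :
    Q.IsRep (mapU Q.π U * g) ((U : Matrix m m 𝓜) * x)
      (y * ((U⁻¹ : (Matrix m m 𝓜)ˣ) : Matrix m m 𝓜)) H := by
  obtain ⟨h1, h2, ⟨u, h3⟩, ⟨v, h4⟩⟩ := hr
  refine ⟨?_, ?_, ⟨u, ?_⟩, ⟨v, ?_⟩⟩
  · rw [Matrix.mul_assoc, ← Matrix.mul_assoc x, h1, Matrix.one_mul, Units.mul_inv]
  · rw [Matrix.mul_assoc, ← Matrix.mul_assoc _ (U : Matrix m m 𝓜), Units.inv_mul,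
      Matrix.one_mul, h2]
  · rw [Matrix.map_mul, h3, ← Matrix.mul_assoc]
    rfl
  · rw [Matrix.map_mul, h4, Matrix.mul_assoc, _root_.mul_inv_rev]
    rfl

theorem dl_lift {m : Type} [Fintype m] [DecidableEq m] (U : (Matrix m m 𝓜)ˣ)
    (g h : (Matrix m m B)ˣ)
    (hU : (h : Matrix m m B) = (U : Matrix m m 𝓜).map Q.π * (g : Matrix m m B)) :
    Q.dl h = Q.dl g := by
  obtain ⟨x, y, H, hr⟩ := Q.exists_isRep g
  have hh : h = mapU Q.π U * g := Units.ext hU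
  subst hh
  rw [dl_eq (hr.lift U), dl_eq hr]

theorem dl_base {m : Type} [Fintype m] [DecidableEq m] (V V' : Matrix m m Γ)
    (g h : (Matrix m m B)ˣ)
    (h1 : V.map (Q.π.comp Q.φ) * V'.map (Q.π.comp Q.φ) = 1)
    (h2 : V'.map (Q.π.comp Q.φ) * V.map (Q.π.comp Q.φ) = 1)
    (hV : (h : Matrix m m B) = (g : Matrix m m B) * V.map (Q.π.comp Q.φ)) :
    Q.dl h = Q.dl g := by
  obtain ⟨x, y, H, hr⟩ := Q.exists_isRep g
  have hh : h = g * (⟨V.map (Q.π.comp Q.φ), V'.map (Q.π.comp Q.φ), h1, h2⟩ :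
      (Matrix m m B)ˣ) := Units.ext hV
  have hr' : Q.IsRep h x y H := by
    obtain ⟨a1, a2, ⟨u, a3⟩, ⟨v, a4⟩⟩ := hr
    refine ⟨a1, a2, ⟨V' * u, ?_⟩, ⟨v * V, ?_⟩⟩
    · rw [a3, hV, Matrix.map_mul, Matrix.mul_assoc, ← Matrix.mul_assoc (V.map _), h1,
        Matrix.one_mul]
    · rw [a4, hh, _root_.mul_inv_rev, Matrix.map_mul]
      change _ = v.map _ * V.map _ * (V'.map (Q.π.comp Q.φ) *
        ((g⁻¹ : (Matrix m m B)ˣ) : Matrix m m B))
      rw [Matrix.mul_assoc, ← Matrix.mul_assoc (V.map _), h1, Matrix.one_mul]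
  rw [dl_eq hr', dl_eq hr]

theorem isRep_one {m : Type} [Fintype m] [DecidableEq m] :
    Q.IsRep (1 : (Matrix m m B)ˣ) (1 : Matrix m m 𝓜) 1 1 := by
  refine ⟨Matrix.mul_one _, ?_, ⟨1, ?_⟩, ⟨1, ?_⟩⟩
  · rw [Matrix.mul_one, Matrix.map_one _ (map_zero _) (map_one _)]
  · rw [Matrix.map_one _ (map_zero _) (map_one _), Matrix.map_one _ (map_zero _) (map_one _)]
    simp
  · rw [Matrix.map_one _ (map_zero _) (map_one _), Matrix.map_one _ (map_zero _) (map_one _)]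
    simp

theorem dl_one {m : Type} [Fintype m] [DecidableEq m] :
    Q.dl (1 : (Matrix m m B)ˣ) = 0 := by
  rw [dl_eq (Q.isRep_one (m := m)), sub_self]

theorem IsRep.blk {Q : Sq Γ 𝓜 B} {m n m' n' : Type} [Fintype m] [DecidableEq m] [Fintype n]
    [Fintype m'] [DecidableEq m'] [Fintype n']
    {g : (Matrix m m B)ˣ} {x : Matrix m n 𝓜} {y : Matrix n m 𝓜} {H : Matrix n n Γ}
    (hr : Q.IsRep g x y H)
    {g' : (Matrix m' m' B)ˣ} {x' : Matrix m' n' 𝓜} {y' : Matrix n' m' 𝓜} {H' : Matrix n' n' Γ}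
    (hr' : Q.IsRep g' x' y' H') :
    Q.IsRep (Pool.Agent.H95.KM.blk g g') (fromBlocks x 0 0 x') (fromBlocks y 0 0 y')
      (fromBlocks H 0 0 H') := by
  obtain ⟨h1, h2, ⟨u, h3⟩, ⟨v, h4⟩⟩ := hr
  obtain ⟨h1', h2', ⟨u', h3'⟩, ⟨v', h4'⟩⟩ := hr'
  refine ⟨?_, ?_, ⟨fromBlocks u 0 0 u', ?_⟩, ⟨fromBlocks v 0 0 v', ?_⟩⟩
  · rw [fromBlocks_multiply]
    simp [h1, h1']
  · rw [fromBlocks_multiply, fromBlocks_map]
    simp [h2, h2', Matrix.map_zero]
  · have e0 : ((Pool.Agent.H95.KM.blk g g' : (Matrix (m ⊕ m') (m ⊕ m') B)ˣ) :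
        Matrix (m ⊕ m') (m ⊕ m') B) = fromBlocks (g : Matrix m m B) 0 0 (g' : Matrix m' m' B) := rfl
    rw [e0, fromBlocks_map, fromBlocks_map, fromBlocks_multiply, h3, h3']
    simp [Matrix.map_zero]
  · have e0 : (((Pool.Agent.H95.KM.blk g g')⁻¹ : (Matrix (m ⊕ m') (m ⊕ m') B)ˣ) :
        Matrix (m ⊕ m') (m ⊕ m') B) = fromBlocks ((g⁻¹ : (Matrix m m B)ˣ) : Matrix m m B) 0 0
          ((g'⁻¹ : (Matrix m' m' B)ˣ) : Matrix m' m' B) := rfl
    rw [e0, fromBlocks_map, fromBlocks_map, fromBlocks_multiply, h4, h4']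
    simp [Matrix.map_zero]

theorem cls_one_sum {m n : Type} [Fintype m] [DecidableEq m] [Fintype n] [DecidableEq n] :
    K0.cls (1 : Matrix (m ⊕ n) (m ⊕ n) Γ) one_idem =
      K0.cls (1 : Matrix m m Γ) one_idem + K0.cls (1 : Matrix n n Γ) one_idem := by
  rw [← K0.cls_fromBlocks]
  congr 1
  exact fromBlocks_one.symm

theorem dl_blk {m n : Type} [Fintype m] [DecidableEq m] [Fintype n] [DecidableEq n]
    (g : (Matrix m m B)ˣ) (h : (Matrix n n B)ˣ) : Q.dl (blk g h) = Q.dl g + Q.dl h := by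
  obtain ⟨x, y, H, hr⟩ := Q.exists_isRep g
  obtain ⟨x', y', H', hr'⟩ := Q.exists_isRep h
  rw [dl_eq (hr.blk hr'), dl_eq hr, dl_eq hr', cls_one_sum]
  have := K0.cls_fromBlocks hr.idem hr'.idem
  rw [this]
  abel

theorem dl_rei {m n : Type} [Fintype m] [DecidableEq m] [Fintype n] [DecidableEq n]
    (σ : n ≃ m) (g : (Matrix m m B)ˣ) : Q.dl (rei σ g) = Q.dl g := by
  obtain ⟨x, y, H, hr⟩ := Q.exists_isRep g
  have hr' : Q.IsRep (rei σ g) (x.submatrix σ id) (y.submatrix id σ) H := by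
    obtain ⟨h1, h2, ⟨u, h3⟩, ⟨v, h4⟩⟩ := hr
    refine ⟨?_, ?_, ⟨u.submatrix σ id, ?_⟩, ⟨v.submatrix id σ, ?_⟩⟩
    · have := submatrix_mul_equiv x y (⇑σ) (Equiv.refl _) (⇑σ)
      rw [h1] at this
      simpa using this
    · rw [submatrix_mul_equiv, h2, submatrix_id_id]
    · have e0 : ((rei σ g : (Matrix n n B)ˣ) : Matrix n n B)
          = (g : Matrix m m B).submatrix σ σ := rfl
      have e1 : (x.submatrix σ id).map Q.π = (x.map Q.π).submatrix σ id := rfl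
      have e2 : (u.submatrix σ id).map (Q.π.comp Q.φ)
        = (u.map (Q.π.comp Q.φ)).submatrix σ id := rfl
      rw [e0, e1, e2, h3, submatrix_mul_equiv]
    · have e0 : (((rei σ g)⁻¹ : (Matrix n n B)ˣ) : Matrix n n B)
          = ((g⁻¹ : (Matrix m m B)ˣ) : Matrix m m B).submatrix σ σ := rfl
      have e1 : (y.submatrix id σ).map Q.π = (y.map Q.π).submatrix id σ := rfl
      have e2 : (v.submatrix id σ).map (Q.π.comp Q.φ)
        = (v.map (Q.π.comp Q.φ)).submatrix id σ := rfl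
      rw [e0, e1, e2, h4, submatrix_mul_equiv]
  rw [dl_eq hr', dl_eq hr]
  congr 1
  apply K0.cls_congr
  have := K0.matEquiv_submatrix (1 : Matrix m m Γ) one_idem σ
  rwa [submatrix_one_equiv] at this

theorem dl_mul {m : Type} [Fintype m] [DecidableEq m] (g h : (Matrix m m B)ˣ) :
    Q.dl (g * h) = Q.dl g + Q.dl h := by
  suffices hs : Q.dl (blk (g * h) (1 : (Matrix m m B)ˣ)) = Q.dl (blk g h) by
    rw [dl_blk, dl_blk, dl_one, add_zero] at hs
    exact hs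
  obtain ⟨a, ha⟩ := exists_matrix_lift Q.π (g : Matrix m m B) (fun i j => Q.surj _)
  obtain ⟨b, hb⟩ := exists_matrix_lift Q.π ((g⁻¹ : (Matrix m m B)ˣ) : Matrix m m B)
    (fun i j => Q.surj _)
  let E12 : (Matrix (m ⊕ m) (m ⊕ m) 𝓜)ˣ :=
    { val := fromBlocks 1 a 0 1
      inv := fromBlocks 1 (-a) 0 1
      val_inv := by rw [fromBlocks_multiply]; simp
      inv_val := by rw [fromBlocks_multiply]; simp }
  let E21 : (Matrix (m ⊕ m) (m ⊕ m) 𝓜)ˣ :=
    { val := fromBlocks 1 0 (-b) 1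
      inv := fromBlocks 1 0 b 1
      val_inv := by rw [fromBlocks_multiply]; simp
      inv_val := by rw [fromBlocks_multiply]; simp }
  let U := E12 * E21 * E12
  have hU : (U : Matrix (m ⊕ m) (m ⊕ m) 𝓜).map Q.π
      = fromBlocks 0 (g : Matrix m m B) (-((g⁻¹ : (Matrix m m B)ˣ) : Matrix m m B)) 0 := by
    have e1 : (fromBlocks 1 a 0 1 : Matrix (m ⊕ m) (m ⊕ m) 𝓜).map Q.π
        = fromBlocks 1 (g : Matrix m m B) 0 1 := by
      rw [fromBlocks_map, ha]
      simp [Matrix.map_zero, Matrix.map_one]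
    have e2 : (fromBlocks 1 0 (-b) 1 : Matrix (m ⊕ m) (m ⊕ m) 𝓜).map Q.π
        = fromBlocks 1 0 (-((g⁻¹ : (Matrix m m B)ˣ) : Matrix m m B)) 1 := by
      rw [fromBlocks_map]
      have e3 : (-b).map Q.π = -(b.map Q.π) := by
        ext i j
        simp
      rw [e3, hb]
      simp [Matrix.map_zero, Matrix.map_one]
    change (fromBlocks 1 a 0 1 * fromBlocks 1 0 (-b) 1 * fromBlocks 1 a 0 1 :
      Matrix (m ⊕ m) (m ⊕ m) 𝓜).map Q.π = _
    rw [Matrix.map_mul, Matrix.map_mul, e1, e2, fromBlocks_multiply, fromBlocks_multiply]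
    simp
  let S : Matrix (m ⊕ m) (m ⊕ m) Γ := fromBlocks 0 (-1) 1 0
  let S' : Matrix (m ⊕ m) (m ⊕ m) Γ := fromBlocks 0 1 (-1) 0
  have hneg : ((-1 : Matrix m m Γ)).map (Q.π.comp Q.φ) = -1 := by
    ext i j
    by_cases hij : i = j
    · subst hij; simp
    · simp [hij]
  have hone : ((1 : Matrix m m Γ)).map (Q.π.comp Q.φ) = 1 :=
    Matrix.map_one _ (map_zero _) (map_one _)
  have hzero : ((0 : Matrix m m Γ)).map (Q.π.comp Q.φ) = 0 := Matrix.map_zero _ (map_zero _)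
  have hS : S.map (Q.π.comp Q.φ) = fromBlocks 0 (-1) 1 0 := by
    rw [fromBlocks_map, hneg, hone, hzero]
  have hS' : S'.map (Q.π.comp Q.φ) = fromBlocks 0 1 (-1) 0 := by
    rw [fromBlocks_map, hneg, hone, hzero]
  have hSS' : S.map (Q.π.comp Q.φ) * S'.map (Q.π.comp Q.φ) = 1 := by
    rw [hS, hS', fromBlocks_multiply]
    simp
  have hS'S : S'.map (Q.π.comp Q.φ) * S.map (Q.π.comp Q.φ) = 1 := by
    rw [hS, hS', fromBlocks_multiply]
    simp
  have h1 := Q.dl_lift U (blk g h) (mapU Q.π U * blk g h) rfl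
  rw [← h1]
  refine Q.dl_base S S' (mapU Q.π U * blk g h) (blk (g * h) 1) hSS' hS'S ?_
  change fromBlocks ((g * h : (Matrix m m B)ˣ) : Matrix m m B) 0 0 ((1 : (Matrix m m B)ˣ) :
    Matrix m m B) = (U : Matrix (m ⊕ m) (m ⊕ m) 𝓜).map Q.π *
      fromBlocks (g : Matrix m m B) 0 0 (h : Matrix m m B) * S.map (Q.π.comp Q.φ)
  rw [hU, hS, fromBlocks_multiply, fromBlocks_multiply]
  simp

variable {Q}
variable {Γ' : Type u'} {𝓜' : Type v'} {B' : Type w'} [Ring Γ'] [Ring 𝓜'] [Ring B']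
  {Q' : Sq Γ' 𝓜' B'}

theorem IsRep.map (F : SqHom Q Q') {m n : Type} [Fintype m] [DecidableEq m] [Fintype n]
    {g : (Matrix m m B)ˣ} {x : Matrix m n 𝓜} {y : Matrix n m 𝓜} {H : Matrix n n Γ}
    (h : Q.IsRep g x y H) :
    Q'.IsRep (mapU F.c g) (x.map F.b) (y.map F.b) (H.map F.a) := by
  obtain ⟨h1, h2, ⟨u, h3⟩, ⟨v, h4⟩⟩ := h
  have e1 : ∀ {k l : Type} (z : Matrix k l 𝓜), (z.map F.b).map Q'.π = (z.map Q.π).map F.c := by
    intro k l z
    ext i j
    exact (F.hπ _).symm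
  have e2 : ∀ {k l : Type} (z : Matrix k l Γ),
      (z.map F.a).map (Q'.π.comp Q'.φ) = (z.map (Q.π.comp Q.φ)).map F.c := by
    intro k l z
    ext i j
    simp only [Matrix.map_apply, RingHom.comp_apply]
    rw [F.hπ, F.hφ]
  refine ⟨?_, ?_, ⟨u.map F.a, ?_⟩, ⟨v.map F.a, ?_⟩⟩
  · rw [← Matrix.map_mul, h1, Matrix.map_one _ (map_zero _) (map_one _)]
  · rw [← Matrix.map_mul, h2]
    ext i j
    exact F.hφ _
  · rw [e1, e2, h3, Matrix.map_mul]
    rfl
  · rw [e1, e2, h4, Matrix.map_mul]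
    rfl

theorem dl_map (F : SqHom Q Q') {m : Type} [Fintype m] [DecidableEq m]
    (g : (Matrix m m B)ˣ) : Q'.dl (mapU F.c g) = K0.map F.a (Q.dl g) := by
  obtain ⟨x, y, H, hr⟩ := Q.exists_isRep g
  rw [dl_eq (hr.map F), dl_eq hr, map_sub, K0.map_cls, K0.map_cls]
  congr 2
  exact (Matrix.map_one _ (map_zero _) (map_one _)).symm

end Sq

end Pool.Agent.H95.KM

end

section

/-!
# Project KM, module SqLau: the connecting homomorphism `GL(B[t, t⁻¹]) → K₋₁(Γ)`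

`Q.lauSq`, `Q.polySq` are in `Pool/Agent/H95/KM/SqDefs.lean`; `IsPos`, `IsNeg`, `posHom`, `negHom`,
`IsPos.exists_posHom`, ... in `Pool/Agent/H95/KM/Lau.lean`.

PROOF.  `Q.DD` is the composite of `Q.lauSq.dl` with `Km1.mk`; the axioms of `StabHom` are
`dl_mul`, `dl_blk`, `dl_rei`.
`DD_pos`: the entries of `g` and `g⁻¹` come from `B[X]` under the injective `posHom`, so
`g = mapU (posHom B) g₀` with `g₀ ∈ GL_m(B[X])`.  `posHom` is a morphism of squares
`Q.polySq → Q.lauSq` (`lau_posHom`), so `dl_map` gives `Q.lauSq.dl g = K0.map (posHom Γ) (..)`, which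
is killed by `Km1.mk` (`Km1.mk_pos`).  `DD_neg` is the same with `negHom`.
`DD_lift`: from `dl_lift` with `g = 1` and `dl_one`.  `DD_base`: from `dl_base` with `g = 1`.
`DD_map`: morphisms of squares `F : Q → Q'` induce morphisms `lauSq → lauSq`
(components `lau F.a`, `lau F.b`, `lau F.c`); use `dl_map` and `Km1.map_mk`.
-/

set_option autoImplicit false

open Matrix
open scoped LaurentPolynomial

universe u v w u' v' w'

namespace Pool.Agent.H95.KM

open Pool.Agent.H71.FJ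

namespace Sq

variable {Γ : Type u} {𝓜 : Type v} {B : Type w} [Ring Γ] [Ring 𝓜] [Ring B] (Q : Sq Γ 𝓜 B)

/-- The connecting homomorphism `GL(B[t, t⁻¹]) → K₋₁(Γ)`. -/
noncomputable def DD : StabHom B[T;T⁻¹] (Km1 Γ) where
  D g := Km1.mk (Q.lauSq.dl g)
  map_mul g h := by rw [dl_mul, map_add]
  map_blk g h := by rw [dl_blk, map_add]
  map_rei σ g := by rw [dl_rei]

theorem DD_eq {m : Type} [Fintype m] [DecidableEq m] (g : (Matrix m m B[T;T⁻¹])ˣ) :
    Q.DD.D g = Km1.mk (Q.lauSq.dl g) := rfl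

theorem exists_mapU {B₀ : Type u} [Ring B₀] {B₁ : Type v} [Ring B₁] (f : B₀ →+* B₁)
    (hf : Function.Injective f) {m : Type} [Fintype m] [DecidableEq m] (g : (Matrix m m B₁)ˣ)
    (h1 : ∀ i j, ∃ p, f p = (g : Matrix m m B₁) i j)
    (h2 : ∀ i j, ∃ p, f p = ((g⁻¹ : (Matrix m m B₁)ˣ) : Matrix m m B₁) i j) :
    ∃ g₀ : (Matrix m m B₀)ˣ, mapU f g₀ = g := by
  obtain ⟨X, hX⟩ := exists_matrix_lift f (g : Matrix m m B₁) h1
  obtain ⟨Y, hY⟩ := exists_matrix_lift f ((g⁻¹ : (Matrix m m B₁)ˣ) : Matrix m m B₁) h2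
  have hXY : X * Y = 1 := by
    apply matrix_map_injective hf
    rw [Matrix.map_mul, hX, hY, Units.mul_inv, Matrix.map_one _ (map_zero f) (map_one f)]
  have hYX : Y * X = 1 := by
    apply matrix_map_injective hf
    rw [Matrix.map_mul, hX, hY, Units.inv_mul, Matrix.map_one _ (map_zero f) (map_one f)]
  exact ⟨⟨X, Y, hXY, hYX⟩, Units.ext hX⟩

/-- `posHom` as a morphism of squares -/
noncomputable def posSqHom : SqHom Q.polySq Q.lauSq where
  a := posHom Γ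
  b := posHom 𝓜
  c := posHom B
  hφ x := (RingHom.congr_fun (lau_posHom Q.φ) x).symm
  hπ x := (RingHom.congr_fun (lau_posHom Q.π) x).symm

/-- `negHom` as a morphism of squares -/
noncomputable def negSqHom : SqHom Q.polySq Q.lauSq where
  a := negHom Γ
  b := negHom 𝓜
  c := negHom B
  hφ x := (RingHom.congr_fun (lau_negHom Q.φ) x).symm
  hπ x := (RingHom.congr_fun (lau_negHom Q.π) x).symm

theorem DD_pos {m : Type} [Fintype m] [DecidableEq m] (g : (Matrix m m B[T;T⁻¹])ˣ)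
    (h1 : ∀ i j, IsPos ((g : Matrix m m B[T;T⁻¹]) i j))
    (h2 : ∀ i j, IsPos (((g⁻¹ : (Matrix m m B[T;T⁻¹])ˣ) : Matrix m m B[T;T⁻¹]) i j)) :
    Q.DD.D g = 0 := by
  obtain ⟨g₀, rfl⟩ := exists_mapU (posHom B) posHom_injective g
    (fun i j => (h1 i j).exists_posHom) (fun i j => (h2 i j).exists_posHom)
  rw [DD_eq]
  have := dl_map Q.posSqHom g₀
  change Km1.mk (Q.lauSq.dl (mapU Q.posSqHom.c g₀)) = 0
  rw [this]
  exact Km1.mk_pos _

theorem DD_neg {m : Type} [Fintype m] [DecidableEq m] (g : (Matrix m m B[T;T⁻¹])ˣ)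
    (h1 : ∀ i j, IsNeg ((g : Matrix m m B[T;T⁻¹]) i j))
    (h2 : ∀ i j, IsNeg (((g⁻¹ : (Matrix m m B[T;T⁻¹])ˣ) : Matrix m m B[T;T⁻¹]) i j)) :
    Q.DD.D g = 0 := by
  obtain ⟨g₀, rfl⟩ := exists_mapU (negHom B) negHom_injective g
    (fun i j => (h1 i j).exists_negHom) (fun i j => (h2 i j).exists_negHom)
  rw [DD_eq]
  have := dl_map Q.negSqHom g₀
  change Km1.mk (Q.lauSq.dl (mapU Q.negSqHom.c g₀)) = 0
  rw [this]
  exact Km1.mk_neg _

theorem DD_lift {m : Type} [Fintype m] [DecidableEq m] (U : (Matrix m m 𝓜[T;T⁻¹])ˣ)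
    (g : (Matrix m m B[T;T⁻¹])ˣ)
    (hU : (g : Matrix m m B[T;T⁻¹]) = (U : Matrix m m 𝓜[T;T⁻¹]).map (lau Q.π)) :
    Q.DD.D g = 0 := by
  rw [DD_eq, Q.lauSq.dl_lift U 1 g (by rw [Units.val_one, Matrix.mul_one]; exact hU), dl_one,
    map_zero]

theorem DD_base {m : Type} [Fintype m] [DecidableEq m] (V V' : Matrix m m Γ[T;T⁻¹])
    (g : (Matrix m m B[T;T⁻¹])ˣ)
    (h1 : (g : Matrix m m B[T;T⁻¹]) = V.map ((lau Q.π).comp (lau Q.φ)))
    (h2 : ((g⁻¹ : (Matrix m m B[T;T⁻¹])ˣ) : Matrix m m B[T;T⁻¹]) =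
      V'.map ((lau Q.π).comp (lau Q.φ))) :
    Q.DD.D g = 0 := by
  rw [DD_eq, Q.lauSq.dl_base V V' 1 g
    (by
      change V.map ((lau Q.π).comp (lau Q.φ)) * V'.map ((lau Q.π).comp (lau Q.φ)) = 1
      rw [← h1, ← h2, Units.mul_inv])
    (by
      change V'.map ((lau Q.π).comp (lau Q.φ)) * V.map ((lau Q.π).comp (lau Q.φ)) = 1
      rw [← h1, ← h2, Units.inv_mul])
    (by rw [Units.val_one, Matrix.one_mul]; exact h1), dl_one, map_zero]

variable {Q}
variable {Γ' : Type u'} {𝓜' : Type v'} {B' : Type w'} [Ring Γ'] [Ring 𝓜'] [Ring B']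
  {Q' : Sq Γ' 𝓜' B'}

/-- Laurent polynomials over a morphism of squares -/
noncomputable def lauSqHom (F : SqHom Q Q') : SqHom Q.lauSq Q'.lauSq where
  a := lau F.a
  b := lau F.b
  c := lau F.c
  hφ x := by
    have h : (lau F.b).comp (lau Q.φ) = (lau Q'.φ).comp (lau F.a) := by
      rw [← lau_comp, ← lau_comp]
      congr 1
      exact RingHom.ext F.hφ
    exact RingHom.congr_fun h x
  hπ x := by
    have h : (lau F.c).comp (lau Q.π) = (lau Q'.π).comp (lau F.b) := by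
      rw [← lau_comp, ← lau_comp]
      congr 1
      exact RingHom.ext F.hπ
    exact RingHom.congr_fun h x

theorem DD_map (F : SqHom Q Q') {m : Type} [Fintype m] [DecidableEq m]
    (g : (Matrix m m B[T;T⁻¹])ˣ) :
    Q'.DD.D (mapU (lau F.c) g) = Km1.map F.a (Q.DD.D g) := by
  rw [DD_eq, DD_eq, Km1.map_mk]
  exact congrArg Km1.mk (dl_map (lauSqHom F) g)

end Sq

end Pool.Agent.H95.KM

end
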