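import Pool.Agent.H94.FJ.M03
import Pool.Agent.H94.FJ.M04

/-! The parts of this file: H95.KM.Joint, H95.KM.Const, H95.KM.Ded, H95.KM.SqEx, H95.KM.LinDefs, H95.KM.Kap, H95.KM.Lin. -/

section

/-!
# Project KM, module Joint: `K₀` and finite products; principal ideal domains

`NilKer`, `K0.map_injective` are in `Pool/Agent/H71/FJ/Nil.lean`; `exists_stab`,
`matEquiv_stab_mono`, `exists_sub_one` in `Pool/Agent/H95/KM/Stab.lean`.

PROOF of `K0_pi`.  `x = [H] - [1_m]` by `exists_sub_one`.  For each `i` the image in `K₀(Λ' i)` is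
zero, so by `exists_stab` the images of `H` and `1_m` over `Λ' i` become equivalent after adding
`1_{k i}`; by `matEquiv_stab_mono` one `k` works for all `i` (`ι` finite).  The matrices `X i`,
`Y i` realizing the equivalences over `Λ' i` combine to matrices over `∀ i, Λ' i`.
(`fromBlocks_map`; `K0.map_cls`; `K0.cls_fromBlocks`.)
PROOF of `K0_joint`.  `RingHom.pi p : Λ → ∀ i, Λ' i` is surjective with nilpotent kernel, so
`K0.map (RingHom.pi p)` is injective; its value at `x` vanishes by `K0_pi`.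
PROOF of `K0_pid`.  As `K0.exists_matEquiv_one` in `Pool/Agent/H71/FJ/Rank.lean` (there for division
rings): for an idempotent matrix `e` over a principal ideal domain `P` the range of
`e.toLinearMapRight'` (or `Matrix.toLin'`) is a submodule of a free module of finite rank, hence
free of finite rank (`Submodule.nonempty_basis_of_pid`, `Module.free_of_finite_type_torsion_free'`,
...), and a basis gives `MatEquiv e (1 : Matrix (Fin r) (Fin r) P)`.  Then use `K0.exists_sub`,
`K0.cls_one_fin`, `K0.mk_eq_cls`.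
PROOF of `laurent_pid`.  `LaurentPolynomial.isLocalization` and: a localization of a principal
ideal ring is a principal ideal ring (search Mathlib; or directly: for an ideal `I` of `k[t,t⁻¹]`
let `J = comap toLaurent I = (f)`; every element of `I` is `t^{-n}` times an element of `J`).
-/

set_option autoImplicit false

open Matrix
open scoped LaurentPolynomial

universe u v w

namespace Pool.Agent.H95.KM

open Pool.Agent.H71.FJ

theorem K0_pi {ι : Type w} [Finite ι] {Λ' : ι → Type v} [∀ i, Ring (Λ' i)]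
    (x : K0 (∀ i, Λ' i)) (hx : ∀ i, K0.map (Pi.evalRingHom Λ' i) x = 0) : x = 0 := by
  classical
  cases nonempty_fintype ι
  obtain ⟨n, m, H, hH, rfl⟩ := exists_sub_one x
  have h1 : ∀ i, (1 : Matrix (Fin m) (Fin m) (∀ i, Λ' i)).map (Pi.evalRingHom Λ' i) = 1 :=
    fun i => Matrix.map_one _ (map_zero _) (map_one _)
  have hH' : ∀ i, H.map (Pi.evalRingHom Λ' i) * H.map (Pi.evalRingHom Λ' i) =
      H.map (Pi.evalRingHom Λ' i) := fun i => K0.map_idem _ hH
  have hst : ∀ i, ∃ k : ℕ, MatEquiv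
      (fromBlocks (H.map (Pi.evalRingHom Λ' i)) 0 0 (1 : Matrix (Fin k) (Fin k) (Λ' i)))
      (fromBlocks (1 : Matrix (Fin m) (Fin m) (Λ' i)) 0 0
        (1 : Matrix (Fin k) (Fin k) (Λ' i))) := by
    intro i
    apply exists_stab _ _ (hH' i) one_idem
    have h2 := hx i
    rw [map_sub, sub_eq_zero, K0.map_cls, K0.map_cls] at h2
    rw [h2]
    apply K0.cls_congr
    rw [h1]
    exact K0.matEquiv_refl one_idem
  choose k hk using hst
  obtain ⟨K, hK⟩ : ∃ K, ∀ i, k i ≤ K := ⟨Finset.univ.sup k, fun i =>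
    Finset.le_sup (f := k) (Finset.mem_univ i)⟩
  have hk' := fun i => matEquiv_stab_mono _ _ (hH' i) one_idem (hK i) (hk i)
  choose X Y hXY hYX using hk'
  have hF : MatEquiv (fromBlocks H 0 0 (1 : Matrix (Fin K) (Fin K) (∀ i, Λ' i)))
      (fromBlocks (1 : Matrix (Fin m) (Fin m) (∀ i, Λ' i)) 0 0
        (1 : Matrix (Fin K) (Fin K) (∀ i, Λ' i))) := by
    have hmap : ∀ {a b : Type} [Fintype a] [Fintype b] {A B : Matrix a b (∀ i, Λ' i)},
        (∀ i, A.map (Pi.evalRingHom Λ' i) = B.map (Pi.evalRingHom Λ' i)) → A = B := by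
      intro a b _ _ A B h
      ext p q i
      exact congrFun (congrFun (h i) p) q
    refine ⟨Matrix.of fun p q i => X i p q, Matrix.of fun p q i => Y i p q, ?_, ?_⟩
    · apply hmap
      intro i
      rw [Matrix.map_mul, fromBlocks_map, Matrix.map_zero _ (map_zero _),
        Matrix.map_zero _ (map_zero _), Matrix.map_one _ (map_zero _) (map_one _)]
      exact hXY i
    · apply hmap
      intro i
      rw [Matrix.map_mul, fromBlocks_map, Matrix.map_zero _ (map_zero _),
        Matrix.map_zero _ (map_zero _), Matrix.map_one _ (map_zero _) (map_one _),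
        Matrix.map_one _ (map_zero _) (map_one _)]
      exact hYX i
  have h3 := K0.cls_congr (K0.fromBlocks_idem hH one_idem)
    (K0.fromBlocks_idem one_idem one_idem) hF
  rw [K0.cls_fromBlocks hH one_idem, K0.cls_fromBlocks one_idem one_idem] at h3
  rw [sub_eq_zero]
  exact add_right_cancel h3

theorem K0_joint {Λ : Type u} [Ring Λ] {ι : Type w} [Finite ι] {Λ' : ι → Type v}
    [∀ i, Ring (Λ' i)] (p : ∀ i, Λ →+* Λ' i)
    (hs : Function.Surjective (RingHom.pi p : Λ →+* ∀ i, Λ' i)) (hn : NilKer (RingHom.pi p))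
    (x : K0 Λ) (hx : ∀ i, K0.map (p i) x = 0) : x = 0 := by
  apply K0.map_injective hs hn
  rw [map_zero]
  apply K0_pi
  intro i
  rw [K0.map_map]
  exact hx i

theorem joint_exists_one {P : Type u} [CommRing P] [IsDomain P] [IsPrincipalIdealRing P]
    {ι : Type*} [Fintype ι] [DecidableEq ι] (e : Matrix ι ι P) (he : e * e = e) :
    ∃ r : ℕ, MatEquiv e (1 : Matrix (Fin r) (Fin r) P) := by
  set f : (ι → P) →ₗ[P] (ι → P) := e.toLinearMapRight' with hf
  have hff : ∀ v, f (f v) = f v := by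
    intro v
    rw [hf, ← Matrix.toLinearMapRight'_mul_apply, he]
  have hM : LinearMap.toMatrixRight' f = e := by
    rw [hf]
    exact LinearMap.toMatrixRight'.apply_symm_apply e
  obtain ⟨r, ⟨b⟩⟩ := Submodule.nonempty_basis_of_pid (Pi.basisFun P ι) (LinearMap.range f)
  let ψ : LinearMap.range f ≃ₗ[P] (Fin r → P) := b.equivFun
  let X : (ι → P) →ₗ[P] (Fin r → P) := ψ.toLinearMap ∘ₗ f.rangeRestrict
  let Y : (Fin r → P) →ₗ[P] (ι → P) := (LinearMap.range f).subtype ∘ₗ ψ.symm.toLinearMap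
  have hYX : Y ∘ₗ X = f := by
    refine LinearMap.ext fun v => ?_
    simp only [X, Y, LinearMap.comp_apply, LinearEquiv.coe_coe, LinearEquiv.symm_apply_apply]
    rfl
  have hXY : X ∘ₗ Y = LinearMap.id := by
    refine LinearMap.ext fun v => ?_
    simp only [X, Y, LinearMap.comp_apply, LinearEquiv.coe_coe, LinearMap.id_apply]
    obtain ⟨w, hw⟩ : ∃ w, ψ w = v := ψ.surjective v
    rw [← hw, LinearEquiv.symm_apply_apply]
    congr 1
    obtain ⟨z, t, rfl⟩ := w
    apply Subtype.ext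
    exact hff t
  refine ⟨r, LinearMap.toMatrixRight' X, LinearMap.toMatrixRight' Y, ?_, ?_⟩
  · rw [← LinearMap.toMatrixRight'_comp, hYX, hM]
  · rw [← LinearMap.toMatrixRight'_comp, hXY, LinearMap.toMatrixRight'_id]

theorem K0_pid {P : Type u} [CommRing P] [IsDomain P] [IsPrincipalIdealRing P] (x : K0 P) :
    ∃ r : ℤ, x = r • K0.one P := by
  obtain ⟨a, b, rfl⟩ := K0.exists_sub x
  obtain ⟨r, hr⟩ := joint_exists_one a.mat a.idem
  obtain ⟨s, hs⟩ := joint_exists_one b.mat b.idem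
  refine ⟨(r : ℤ) - s, ?_⟩
  rw [sub_smul, natCast_zsmul, natCast_zsmul, ← K0.cls_one_fin, ← K0.cls_one_fin, K0.mk_eq_cls,
    K0.mk_eq_cls, K0.cls_congr a.idem one_idem hr, K0.cls_congr b.idem one_idem hs]

theorem laurent_pid (k : Type u) [Field k] :
    IsDomain k[T;T⁻¹] ∧ IsPrincipalIdealRing k[T;T⁻¹] := by
  refine ⟨IsLocalization.isDomain_of_le_nonZeroDivisors (M := Submonoid.powers
    (Polynomial.X : Polynomial k)) k[T;T⁻¹]
    (powers_le_nonZeroDivisors_of_noZeroDivisors Polynomial.X_ne_zero), ⟨fun I => ?_⟩⟩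
  obtain ⟨⟨f, hf⟩⟩ := IsPrincipalIdealRing.principal
    (I.comap (algebraMap (Polynomial k) k[T;T⁻¹]))
  have h : Ideal.map (algebraMap (Polynomial k) k[T;T⁻¹])
      (I.comap (algebraMap (Polynomial k) k[T;T⁻¹])) = I :=
    IsLocalization.map_under (Submonoid.powers (Polynomial.X : Polynomial k)) k[T;T⁻¹] I
  refine ⟨⟨algebraMap (Polynomial k) k[T;T⁻¹] f, ?_⟩⟩
  rw [← h, hf]
  change Ideal.map _ (Ideal.span {f}) = Ideal.span _
  rw [Ideal.map_span, Set.image_singleton]

end Pool.Agent.H95.KM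

end

section

/-!
# Project KM, module Const: rings with `K₀(R) = K₀(R[t, t⁻¹])`

`cst R : R → R[t, t⁻¹]`, `ev1 R : R[t, t⁻¹] → R` (`t ↦ 1`), `nilKer_lau`, `lau_surjective`, ... are in
`Pool/Agent/H95/KM/Lau.lean`; `K0_joint`, `K0_pid`, `laurent_pid` in
`Pool/Agent/H95/KM/Joint.lean`.

PROOF of `const_field`.  `y = r • [1]` by `K0_pid`, `laurent_pid`, and `K0.map_one'` gives
`K0.map (cst k) (K0.map (ev1 k) y) = r • [1]`.
PROOF of `const_joint`.  For `y ∈ K₀(R[t,t⁻¹])` put `z = y - K0.map (cst R) (K0.map (ev1 R) y)`.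
For each `i` the image of `z` under `K0.map (lau (p i))` is `y_i - K0.map cst (K0.map ev1 y_i) = 0`
with `y_i` the image of `y` (`lau_cst`, `ev1_lau`, `K0.map_map`).  Apply `K0_joint` to the maps
`lau (p i) : R[t,t⁻¹] → (R' i)[t,t⁻¹]`: joint surjectivity coefficientwise (build preimages with
`eq_sum_single` / `exists_lau`; e.g. compare `(∀ i, R' i)[t,t⁻¹]` with `∀ i, (R' i)[t,t⁻¹]`: given
`y i ∈ (R' i)[t,t⁻¹]` choose `r k ∈ R` with `p i (r k) = (y i).coeff k` for all `i` and sum
`single k (r k)` over the union of the supports), nilpotent kernel from that of `RingHom.pi p` by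
`nilKer_lau` and `NilKer.mono` (an element killed by all `lau (p i)` is killed by
`lau (RingHom.pi p)`, coefficientwise).
PROOF of `const_finite`.  A finite commutative ring `R` is artinian; the maximal ideals `m` are
finitely many, `p m : R → R / m` are jointly surjective (Chinese remainder,
`Ideal.quotientInfRingEquivPiQuotient` or `IsArtinianRing...`), and the joint kernel is the
Jacobson radical, a nilpotent ideal (`IsArtinianRing.isNilpotent_jacobson_bot` or so), which gives
`NilKer`: with `J j = (jacobson ⊥) ^ j` as additive subgroups.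
-/

set_option autoImplicit false

open Matrix
open scoped LaurentPolynomial

universe u v w

namespace Pool.Agent.H95.KM

open Pool.Agent.H71.FJ

/-- `K₀(R) = K₀(R[t, t⁻¹])`. -/
def Const (R : Type u) [Ring R] : Prop :=
  ∀ y : K0 R[T;T⁻¹], y = K0.map (cst R) (K0.map (ev1 R) y)

theorem const_field (k : Type u) [Field k] : Const k := by
  intro y
  obtain ⟨h1, h2⟩ := laurent_pid k
  obtain ⟨r, hr⟩ := K0_pid y
  rw [hr, map_zsmul, map_zsmul, K0.map_one', K0.map_one']

/-- Joint surjectivity passes to Laurent polynomials. -/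
theorem lau_pi_surjective {R : Type u} [Ring R] {ι : Type w} [Finite ι] {R' : ι → Type v}
    [∀ i, Ring (R' i)] (p : ∀ i, R →+* R' i)
    (hs : Function.Surjective (RingHom.pi p : R →+* ∀ i, R' i)) :
    Function.Surjective (RingHom.pi (fun i => lau (p i)) : R[T;T⁻¹] →+* ∀ i, (R' i)[T;T⁻¹]) := by
  classical
  have : Fintype ι := Fintype.ofFinite ι
  intro y
  choose g hg using fun k : ℤ => hs (fun i => (y i).coeff k)
  refine ⟨∑ k ∈ Finset.univ.biUnion (fun i => (y i).coeff.support),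
    AddMonoidAlgebra.single k (g k), ?_⟩
  funext i
  change lau (p i) _ = y i
  rw [map_sum]
  have h1 : ∀ k, lau (p i) (AddMonoidAlgebra.single k (g k)) =
      AddMonoidAlgebra.single k ((y i).coeff k) := by
    intro k
    rw [lau_single]
    congr 1
    exact congrFun (hg k) i
  simp only [h1]
  conv_rhs => rw [eq_sum_single (y i)]
  symm
  apply Finset.sum_subset
  · intro k hk
    exact Finset.mem_biUnion.2 ⟨i, Finset.mem_univ _, hk⟩
  · intro k _ hk
    rw [Finsupp.notMem_support_iff.1 hk, AddMonoidAlgebra.single_zero]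

theorem lau_pi_nilKer {R : Type u} [Ring R] {ι : Type w} {R' : ι → Type v}
    [∀ i, Ring (R' i)] (p : ∀ i, R →+* R' i) (hn : NilKer (RingHom.pi p)) :
    NilKer (RingHom.pi (fun i => lau (p i)) : R[T;T⁻¹] →+* ∀ i, (R' i)[T;T⁻¹]) := by
  apply (nilKer_lau hn).mono
  intro x hx
  apply ext_coeff
  intro k
  rw [lau_coeff]
  funext i
  have h1 : lau (p i) x = 0 := congrFun hx i
  have h2 := lau_coeff (p i) x k
  rw [h1] at h2
  change p i (x.coeff k) = _
  rw [← h2]
  simp

theorem const_joint {R : Type u} [Ring R] {ι : Type w} [Finite ι] {R' : ι → Type v}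
    [∀ i, Ring (R' i)] (p : ∀ i, R →+* R' i)
    (hs : Function.Surjective (RingHom.pi p : R →+* ∀ i, R' i)) (hn : NilKer (RingHom.pi p))
    (h : ∀ i, Const (R' i)) : Const R := by
  intro y
  rw [← sub_eq_zero]
  apply K0_joint (fun i => lau (p i)) (lau_pi_surjective p hs) (lau_pi_nilKer p hn)
  intro i
  rw [map_sub, K0.map_map, lau_cst, ← K0.map_map, K0.map_map (p i), ← ev1_lau, ← K0.map_map,
    ← h i, sub_self]

theorem const_pi {ι : Type w} [Finite ι] {R' : ι → Type v} [∀ i, Ring (R' i)]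
    (h : ∀ i, Const (R' i)) : Const (∀ i, R' i) := by
  apply const_joint (fun i => Pi.evalRingHom R' i) _ _ h
  · intro y
    exact ⟨y, rfl⟩
  · refine ⟨1, fun j => if j = 0 then ⊤ else ⊥, ?_, ?_, ?_⟩
    · intro x
      simp
    · intro x hx
      simpa using hx
    · intro j x y hx hy
      have : x = 0 := hx
      rw [this, zero_mul]
      exact AddSubgroup.zero_mem _

theorem const_finite (R : Type u) [CommRing R] [Finite R] : Const R := by
  apply const_joint (fun m : MaximalSpectrum R => Ideal.Quotient.mk m.asIdeal)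
    (resPi_surjective R) (resPi_nilKer R)
  intro m
  have := m.isMaximal
  let _ : Field (R ⧸ m.asIdeal) := Ideal.Quotient.field m.asIdeal
  exact const_field (R ⧸ m.asIdeal)

end Pool.Agent.H95.KM

end

section

/-!
# Project KM, module Ded: `K₀(D) = K₀(D[t, t⁻¹])` for a Dedekind domain `D`

PROOF.  By `K0.exists_sub` it suffices to treat the class of one idempotent matrix `E` over
`D' = D[t, t⁻¹]` (index `Fin k`); it even suffices to find idempotent matrices `f₀, f₁` over `D` with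
`MatEquiv (fromBlocks E 0 0 (f₁.map (cst D))) (f₀.map (cst D))`, since then
`[E] = K0.map (cst D) ([f₀] - [f₁])` and `ev1 ∘ cst = id`.

For a finite set `I` of consecutive integers let `D^k_I` be the module of vectors `v ∈ D'^k` whose
components have support in `I` (a free `D`-module of finite rank, e.g. `I × Fin k → D`) and
`P_I = {v ∈ D^k_I : E v = v}`, the kernel of a `D`-linear map between finite free `D`-modules.
As `D` is a Dedekind domain, `D^k_I / P_I` embeds into a finite free module, so it is finitely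
generated and torsion free, hence projective (Mathlib: torsion free over a Dedekind domain is
flat, and flat + finitely presented is projective: `Module.Flat.projective_of_finitePresentation`).
So `P_I` is a direct summand of `D^k_I`, i.e. `P_I` is the image of an idempotent matrix `f_I` over
`D` with index set `I × Fin k`.
Let all entries of `E` be supported in `[-d, d]`, `a = -d - 1`, `b = d + 1` (or any `a ≤ -d`,
`b ≥ d`), `I = [a, b]`, `I' = [a, b - 1]`, `f₀ = f_I`, `f₁ = f_{I'}`.  (`P = {v ∈ D'^k : E v = v}`.)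

  `β : D' ⊗ P_I → P`, `∑ t^i ⊗ v_i ↦ ∑ t^i v_i` is onto, with the `D'`-linear section
  `s(v) = ∑_j v_j ⊗ E e_j` (`v = ∑_j v_j e_j`, `E v = v`, `E e_j ∈ P_I`).
  `α : D' ⊗ P_{I'} → D' ⊗ P_I`, `α (t^i ⊗ v) = t^{i+1} ⊗ v - t^i ⊗ t v` is injective with image
  `ker β`: if `∑_i t^i v_i = 0` with `v_i ∈ P_I` (finitely many nonzero) then
  `w_j = ∑_{i > j} t^{i-j-1} v_i = - ∑_{i ≤ j} t^{i-j-1} v_i` has degrees `≥ a` by the first
  expression and `≤ b - 1` by the second, so `w_j ∈ P_{I'}`; it is zero for `j` large and for `j`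
  very negative; and `α (∑ t^j ⊗ w_j) = ∑_j t^j ⊗ (w_{j-1} - t w_j) = ∑_j t^j ⊗ v_j`.
  Injectivity: if `w_{j-1} = t w_j` for all `j` with finitely many `w_j ≠ 0` then all `w_j = 0`.

So `D' ⊗ P_I ≅ P ⊕ D' ⊗ P_{I'}`, which gives the matrix equivalence.  (A general lemma: if `e : n × n`
and `f : m × m` are idempotent matrices over a commutative ring `Λ` and the ranges of
`Matrix.toLin' e` and `Matrix.toLin' f` are isomorphic as `Λ`-modules then `MatEquiv e f`.  The
range of `toLin' (f_I.map (cst D))` on `(I × Fin k → D')` consists of the vectors all of whose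
coefficient vectors (coefficient of `t^i`) are in `P_I`; so it can be thought of as
`{v : ℤ →₀ P_I}`.  `D' ⊗ P_I` may also be replaced by `LaurentPolynomial`-like functions
`ℤ →₀ (Fin k → D')` with values in `P_I`.)
-/

set_option autoImplicit false

open Matrix
open scoped LaurentPolynomial

universe u v w

namespace Pool.Agent.H95.KM

open Pool.Agent.H71.FJ

section DedWindow

variable {Λ : Type u} [CommRing Λ] {K : Type v}

/-- extension by zero of a function on `Fin M × K` -/
private def dedExt {M : ℕ} (w : Fin M × K → Λ) (i : K) (n : ℕ) : Λ :=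
  if h : n < M then w (⟨n, h⟩, i) else 0

private theorem dedExt_of_le {M : ℕ} (w : Fin M × K → Λ) (i : K) {n : ℕ} (h : M ≤ n) :
    dedExt w i n = 0 := dif_neg (by omega)

private theorem dedExt_fin {M : ℕ} (w : Fin M × K → Λ) (i : K) (n : Fin M) :
    dedExt w i n = w (n, i) := dif_pos n.2

private theorem dedExt_add {M : ℕ} (w w' : Fin M × K → Λ) (i : K) (n : ℕ) :
    dedExt (w + w') i n = dedExt w i n + dedExt w' i n := by
  unfold dedExt
  split_ifs
  · rfl
  · rw [add_zero]

private theorem dedExt_smul {M : ℕ} (c : Λ) (w : Fin M × K → Λ) (i : K) (n : ℕ) :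
    dedExt (c • w) i n = c * dedExt w i n := by
  unfold dedExt
  split_ifs
  · rfl
  · rw [mul_zero]

/-- `v ↦ ∑ tⁿ vₙ` -/
private def dedB (N : ℕ) (t : Λ) : (Fin N × K → Λ) →ₗ[Λ] (K → Λ) where
  toFun u i := ∑ n : Fin N, t ^ (n : ℕ) * u (n, i)
  map_add' u u' := by
    funext i
    simp only [Pi.add_apply, mul_add, Finset.sum_add_distrib]
  map_smul' c u := by
    funext i
    simp only [Pi.smul_apply, smul_eq_mul, RingHom.id_apply, Finset.mul_sum]
    exact Finset.sum_congr rfl fun n _ => by ring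

private theorem dedB_apply (N : ℕ) (t : Λ) (u : Fin N × K → Λ) (i : K) :
    dedB N t u i = ∑ n : Fin N, t ^ (n : ℕ) * u (n, i) := rfl

/-- multiplication by `t - s` -/
private def dedA (M : ℕ) (t : Λ) : (Fin M × K → Λ) →ₗ[Λ] (Fin (M + 1) × K → Λ) where
  toFun w p := t * dedExt w p.2 p.1 - if (p.1 : ℕ) = 0 then 0 else dedExt w p.2 (p.1 - 1)
  map_add' w w' := by
    funext p
    simp only [Pi.add_apply, dedExt_add]
    split_ifs <;> ring
  map_smul' c w := by
    funext p
    simp only [Pi.smul_apply, dedExt_smul, smul_eq_mul, RingHom.id_apply]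
    split_ifs <;> ring

private theorem dedA_apply (M : ℕ) (t : Λ) (w : Fin M × K → Λ) (p : Fin (M + 1) × K) :
    dedA M t w p = t * dedExt w p.2 p.1 -
      if (p.1 : ℕ) = 0 then 0 else dedExt w p.2 (p.1 - 1) := rfl

/-- division by `t - s` -/
private def dedC (M : ℕ) (t : Λ) : (Fin (M + 1) × K → Λ) →ₗ[Λ] (Fin M × K → Λ) where
  toFun u p := -∑ l : Fin (M + 1), if (p.1 : ℕ) < l then t ^ ((l : ℕ) - 1 - p.1) * u (l, p.2) else 0
  map_add' u u' := by
    funext p
    simp only [Pi.add_apply]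
    rw [← neg_add, ← Finset.sum_add_distrib]
    congr 1
    exact Finset.sum_congr rfl fun l _ => by split_ifs <;> ring
  map_smul' c u := by
    funext p
    simp only [Pi.smul_apply, smul_eq_mul, RingHom.id_apply]
    rw [mul_neg, Finset.mul_sum]
    congr 1
    exact Finset.sum_congr rfl fun l _ => by split_ifs <;> ring

private theorem dedC_ext (M : ℕ) (t : Λ) (u : Fin (M + 1) × K → Λ) (i : K) (m : ℕ) :
    dedExt (dedC M t u) i m =
      -∑ l : Fin (M + 1), if m < l then t ^ ((l : ℕ) - 1 - m) * u (l, i) else 0 := by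
  unfold dedExt
  split_ifs with h
  · rfl
  · rw [eq_comm, neg_eq_zero]
    apply Finset.sum_eq_zero
    intro l _
    rw [if_neg (by omega)]

private theorem ded_AC (M : ℕ) (t : Λ) (u : Fin (M + 1) × K → Λ) (p : Fin (M + 1) × K) :
    dedA M t (dedC M t u) p = u p - if (p.1 : ℕ) = 0 then dedB (M + 1) t u p.2 else 0 := by
  obtain ⟨n, i⟩ := p
  rw [dedA_apply, dedB_apply]
  simp only
  rw [dedC_ext, dedC_ext]
  by_cases hn : (n : ℕ) = 0
  · rw [if_pos hn, if_pos hn, sub_zero, mul_neg, Finset.mul_sum, eq_sub_iff_add_eq, neg_add_eq_sub,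
      ← Finset.sum_sub_distrib]
    rw [Finset.sum_eq_single n]
    · rw [hn]
      simp
    · intro l _ hl
      have hl' : (n : ℕ) < l := by
        have : (l : ℕ) ≠ n := fun h => hl (Fin.ext h)
        omega
      rw [if_pos hl', sub_eq_zero]
      rw [← mul_assoc, ← pow_succ']
      congr 2
      omega
    · intro h
      exact absurd (Finset.mem_univ _) h
  · rw [if_neg hn, if_neg hn, sub_zero, mul_neg, Finset.mul_sum, sub_neg_eq_add, neg_add_eq_sub,
      ← Finset.sum_sub_distrib]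
    rw [Finset.sum_eq_single n]
    · rw [if_neg (lt_irrefl _), if_pos (by omega)]
      simp
    · intro l _ hl
      have hl' : (l : ℕ) ≠ n := fun h => hl (Fin.ext h)
      by_cases h1 : (n : ℕ) < l
      · rw [if_pos h1, if_pos (by omega), sub_eq_zero, ← mul_assoc, ← pow_succ']
        congr 2
        omega
      · rw [if_neg h1, if_neg (by omega), mul_zero, sub_zero]
    · intro h
      exact absurd (Finset.mem_univ _) h

private theorem ded_sum (M : ℕ) (t : Λ) (x y : ℕ → Λ) (hx : x M = 0) :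
    ∑ n : Fin (M + 1), t ^ (n : ℕ) * (x n - if (n : ℕ) = 0 then 0 else y (n - 1)) =
      ∑ n : Fin M, t ^ (n : ℕ) * x n - t * ∑ n : Fin M, t ^ (n : ℕ) * y n := by
  simp only [mul_sub, Finset.sum_sub_distrib]
  rw [Fin.sum_univ_castSucc, Fin.sum_univ_succ (fun n : Fin (M + 1) => t ^ (n : ℕ) *
    if (n : ℕ) = 0 then 0 else y (n - 1))]
  simp [hx, pow_succ', Finset.mul_sum, mul_assoc]

private theorem ded_BA (M : ℕ) (t : Λ) (w : Fin M × K → Λ) : dedB (M + 1) t (dedA M t w) = 0 := by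
  funext i
  rw [dedB_apply]
  simp only [dedA_apply]
  rw [ded_sum M t (fun n => t * dedExt w i n) (fun n => dedExt w i n)
    (by rw [dedExt_of_le w i le_rfl, mul_zero]), Finset.mul_sum, Pi.zero_apply, sub_eq_zero]
  exact Finset.sum_congr rfl fun n _ => by ring

private theorem ded_A_inj (M : ℕ) (t : Λ) (w : Fin M × K → Λ) (h : dedA M t w = 0) : w = 0 := by
  have h1 : ∀ i, ∀ j n : ℕ, M ≤ n + j → dedExt w i n = 0 := by
    intro i j
    induction j with
    | zero =>
      intro n hn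
      exact dedExt_of_le w i (by omega)
    | succ j ih =>
      intro n hn
      by_cases hn' : M ≤ n
      · exact dedExt_of_le w i hn'
      · have := congrFun h (⟨n + 1, by omega⟩, i)
        rw [dedA_apply] at this
        simp only [Nat.add_eq_zero_iff, one_ne_zero, and_false, if_false, Nat.add_sub_cancel,
          Pi.zero_apply] at this
        rw [ih (n + 1) (by omega), mul_zero, zero_sub, neg_eq_zero] at this
        exact this
  funext p
  rw [← dedExt_fin w p.2 p.1]
  exact h1 p.2 M p.1 (by omega)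

private theorem ded_CA (M : ℕ) (t : Λ) (w : Fin M × K → Λ) : dedC M t (dedA M t w) = w := by
  rw [← sub_eq_zero]
  apply ded_A_inj M t
  rw [map_sub, sub_eq_zero]
  funext p
  rw [ded_AC, ded_BA]
  simp

end DedWindow

section DedLau

variable {D : Type u} [CommRing D] {K : Type v} [Fintype K]

private theorem ded_coeff_cst_mul (a : D) (x : D[T;T⁻¹]) (j : ℤ) :
    (cst D a * x).coeff j = a * x.coeff j := by
  rw [cst_apply]
  exact AddMonoidAlgebra.coeff_single_zero_mul x a j

private theorem ded_coeff_T_mul (m : ℤ) (x : D[T;T⁻¹]) (j : ℤ) :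
    ((LaurentPolynomial.T m : D[T;T⁻¹]) * x).coeff j = x.coeff (j - m) := by
  unfold LaurentPolynomial.T
  rw [AddMonoidAlgebra.coeff_single_mul_eq_mul_coeff (j - m) (fun a _ => by omega), one_mul]

/-- coefficient vector -/
private def dedCf {ι : Type w} (j : ℤ) (u : ι → D[T;T⁻¹]) : ι → D := fun p => (u p).coeff j

/-- `v ↦ ∑ tⁿ vₙ` for constant vectors `vₙ` -/
private noncomputable def dedPsi (N : ℕ) (v : Fin N × K → D) : K → D[T;T⁻¹] :=
  dedB N (LaurentPolynomial.T 1) (fun p => cst D (v p))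

/-- defect -/
private noncomputable def dedL (E : Matrix K K D[T;T⁻¹]) (N : ℕ) :
    (Fin N × K → D) →ₗ[D] (K → D[T;T⁻¹]) where
  toFun v := E *ᵥ dedPsi N v - dedPsi N v
  map_add' v v' := by
    have h : dedPsi N (v + v') = dedPsi N v + dedPsi N v' := by
      unfold dedPsi
      rw [← map_add]
      congr 1
      funext p
      exact map_add _ _ _
    rw [h, mulVec_add]
    abel
  map_smul' c v := by
    have h : dedPsi N (c • v) = cst D c • dedPsi N v := by
      unfold dedPsi
      rw [← map_smul]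
      congr 1
      funext p
      exact map_mul _ _ _
    have h2 : ∀ x : K → D[T;T⁻¹], c • x = cst D c • x := by
      intro x
      funext p
      exact LaurentPolynomial.smul_eq_C_mul c (x p)
    rw [h, mulVec_smul, RingHom.id_apply, h2, smul_sub]

private theorem dedL_apply (E : Matrix K K D[T;T⁻¹]) (N : ℕ) (v : Fin N × K → D) :
    dedL E N v = E *ᵥ dedPsi N v - dedPsi N v := rfl

omit [Fintype K] in
private theorem dedPsi_A (M : ℕ) (w : Fin M × K → D[T;T⁻¹]) (j : ℤ) :
    dedPsi (M + 1) (dedCf j (dedA M (LaurentPolynomial.T 1) w)) =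
      dedPsi M (dedCf (j - 1) w) - (LaurentPolynomial.T 1 : D[T;T⁻¹]) • dedPsi M (dedCf j w) := by
  funext i
  rw [dedPsi, dedB_apply, Pi.sub_apply, Pi.smul_apply, smul_eq_mul, dedPsi, dedPsi, dedB_apply,
    dedB_apply]
  have h1 := ded_sum M (LaurentPolynomial.T 1 : D[T;T⁻¹])
    (fun n => cst D ((dedExt w i n).coeff (j - 1))) (fun n => cst D ((dedExt w i n).coeff j))
    (by simp only [dedExt_of_le w i le_rfl]; simp)
  simp only [dedExt_fin] at h1
  refine Eq.trans (Finset.sum_congr rfl fun n _ => ?_) h1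
  congr 1
  change cst D ((dedA M (LaurentPolynomial.T 1) w (n, i)).coeff j) = _
  rw [dedA_apply]
  simp only
  rw [AddMonoidAlgebra.coeff_sub, Finsupp.sub_apply, ded_coeff_T_mul, map_sub]
  congr 1
  split_ifs
  · simp
  · rfl

private theorem dedL_A (E : Matrix K K D[T;T⁻¹]) (M : ℕ) (w : Fin M × K → D[T;T⁻¹]) (j : ℤ) :
    dedL E (M + 1) (dedCf j (dedA M (LaurentPolynomial.T 1) w)) =
      dedL E M (dedCf (j - 1) w) -
        (LaurentPolynomial.T 1 : D[T;T⁻¹]) • dedL E M (dedCf j w) := by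
  rw [dedL_apply, dedL_apply, dedL_apply, dedPsi_A, mulVec_sub, mulVec_smul, smul_sub]
  abel

private theorem ded_cf_mulVec {ι κ : Type*} [Fintype κ] (f : Matrix ι κ D) (u : κ → D[T;T⁻¹])
    (j : ℤ) : dedCf j ((f.map (cst D)) *ᵥ u) = f *ᵥ dedCf j u := by
  funext p
  simp only [dedCf, mulVec, dotProduct, map_apply, AddMonoidAlgebra.coeff_sum,
    Finsupp.finsetSum_apply, ded_coeff_cst_mul]

private theorem ded_fix_iff {ι : Type w} [Fintype ι] (f : Matrix ι ι D) (u : ι → D[T;T⁻¹]) :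
    (f.map (cst D)) *ᵥ u = u ↔ ∀ j, f *ᵥ dedCf j u = dedCf j u := by
  constructor
  · intro h j
    rw [← ded_cf_mulVec, h]
  · intro h
    funext p
    apply ext_coeff
    intro j
    exact congrFun ((ded_cf_mulVec f u j).trans (h j)) p

/-- some bound for the degrees -/
private theorem ded_bound {ι : Type w} [Finite ι] (u : ι → D[T;T⁻¹]) :
    ∃ d : ℕ, ∀ p, ∀ j : ℤ, (d : ℤ) < |j| → (u p).coeff j = 0 := by
  have h : ∀ p, ∃ d : ℕ, ∀ j : ℤ, (d : ℤ) < |j| → (u p).coeff j = 0 := by
    intro p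
    refine ⟨∑ j ∈ (u p).coeff.support, j.natAbs, fun j hj => ?_⟩
    by_contra hne
    have h1 : j.natAbs ≤ ∑ j ∈ (u p).coeff.support, j.natAbs :=
      Finset.single_le_sum (f := fun j : ℤ => j.natAbs) (fun _ _ => Nat.zero_le _)
        (Finsupp.mem_support_iff.2 hne)
    rw [Int.abs_eq_natAbs] at hj
    omega
  choose d hd using h
  cases nonempty_fintype ι
  refine ⟨∑ p, d p, fun p j hj => hd p j ?_⟩
  have h1 : d p ≤ ∑ p, d p := Finset.single_le_sum (fun _ _ => Nat.zero_le _) (Finset.mem_univ p)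
  omega

/-- the key point: division by `t - s` stays in the module -/
private theorem ded_good (E : Matrix K K D[T;T⁻¹]) (M : ℕ) (w : Fin M × K → D[T;T⁻¹])
    (h : ∀ j, dedL E (M + 1) (dedCf j (dedA M (LaurentPolynomial.T 1) w)) = 0) (j : ℤ) :
    dedL E M (dedCf j w) = 0 := by
  obtain ⟨d, hd⟩ := ded_bound w
  have h1 : ∀ j : ℤ, (d : ℤ) < j → dedL E M (dedCf j w) = 0 := by
    intro j hj
    have h2 : dedCf j w = 0 := by
      funext p
      exact hd p j (lt_of_lt_of_le hj (le_abs_self j))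
    rw [h2, map_zero]
  have h2 : ∀ n : ℕ, ∀ j : ℤ, (d : ℤ) < j + n → dedL E M (dedCf j w) = 0 := by
    intro n
    induction n with
    | zero =>
      intro j hj
      exact h1 j (by simpa using hj)
    | succ n ih =>
      intro j hj
      have h3 := h (j + 1)
      rw [dedL_A, ih (j + 1) (by push_cast at hj; omega), smul_zero, sub_zero,
        add_sub_cancel_right] at h3
      exact h3
  exact h2 (d + j.natAbs + 1) j (by omega)

end DedLau

/-- The kernel of a `D`-linear map from a finite free module to a torsion free module is the image of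
an idempotent matrix. -/
private theorem ded_exists_idem (D : Type u) [CommRing D] [IsDedekindDomain D] {ι : Type v}
    [Fintype ι] [DecidableEq ι] {W : Type w} [AddCommGroup W] [Module D W]
    [Module.IsTorsionFree D W] (L : (ι → D) →ₗ[D] W) :
    ∃ f : Matrix ι ι D, f * f = f ∧ ∀ v, f *ᵥ v = v ↔ L v = 0 := by
  have : Module.IsTorsionFree D (LinearMap.range L) := inferInstance
  have : Module.Flat D (LinearMap.range L) := inferInstance
  have : Module.Finite D (LinearMap.range L) := inferInstance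
  have : Module.FinitePresentation D (LinearMap.range L) :=
    Module.finitePresentation_of_finite D _
  have : Module.Projective D (LinearMap.range L) := Module.Flat.projective_of_finitePresentation
  obtain ⟨s, hs⟩ := Module.projective_lifting_property L.rangeRestrict LinearMap.id
    L.surjective_rangeRestrict
  set g : (ι → D) →ₗ[D] (ι → D) := LinearMap.id - s.comp L.rangeRestrict with hg
  have h1 : ∀ v, L (g v) = 0 := by
    intro v
    have : L.rangeRestrict (s (L.rangeRestrict v)) = L.rangeRestrict v :=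
      LinearMap.congr_fun hs (L.rangeRestrict v)
    have h2 : L (s (L.rangeRestrict v)) = L v := congrArg Subtype.val this
    rw [hg, LinearMap.sub_apply, LinearMap.id_apply, LinearMap.comp_apply, map_sub, h2, sub_self]
  have h3 : ∀ v, L v = 0 → g v = v := by
    intro v hv
    have h4 : L.rangeRestrict v = 0 := Subtype.ext hv
    rw [hg, LinearMap.sub_apply, LinearMap.id_apply, LinearMap.comp_apply, h4, map_zero, sub_zero]
  refine ⟨LinearMap.toMatrix' g, ?_, ?_⟩
  · rw [← LinearMap.toMatrix'_comp]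
    congr 1
    ext1 i
    ext1
    exact h3 _ (h1 _)
  · intro v
    rw [LinearMap.toMatrix'_mulVec]
    constructor
    · intro h
      rw [← h]
      exact h1 v
    · exact h3 v

section DedMain

variable {D : Type u} [CommRing D] [IsDedekindDomain D] {K : Type v} [Fintype K] [DecidableEq K]

omit [IsDedekindDomain D] [Fintype K] [DecidableEq K] in
private theorem ded_matrix_map_col {ι κ : Type*} [Fintype κ] [DecidableEq κ] (f : Matrix ι κ D)
    (c : κ) : (f.map (cst D)) *ᵥ Pi.single c 1 = fun p => cst D ((f *ᵥ Pi.single c 1) p) := by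
  rw [mulVec_single_one, mulVec_single_one]
  rfl

private theorem ded_main (E : Matrix K K D[T;T⁻¹]) (hE : E * E = E) :
    ∃ (N M : ℕ) (f₀ : Matrix (Fin N × K) (Fin N × K) D) (f₁ : Matrix (Fin M × K) (Fin M × K) D),
      f₀ * f₀ = f₀ ∧ f₁ * f₁ = f₁ ∧
      MatEquiv (fromBlocks E 0 0 (f₁.map (cst D))) (f₀.map (cst D)) := by
  obtain ⟨d, hd⟩ := ded_bound (fun p : K × K => E p.1 p.2)
  obtain ⟨f₀, hf₀, hf₀'⟩ := ded_exists_idem D (dedL E (2 * d + 1))
  obtain ⟨f₁, hf₁, hf₁'⟩ := ded_exists_idem D (dedL E (2 * d))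
  refine ⟨2 * d + 1, 2 * d, f₀, f₁, hf₀, hf₁, ?_⟩
  set F0 := f₀.map (cst D) with hF0
  set F1 := f₁.map (cst D) with hF1
  have hF0F0 : F0 * F0 = F0 := by rw [hF0, ← Matrix.map_mul, hf₀]
  have hF1F1 : F1 * F1 = F1 := by rw [hF1, ← Matrix.map_mul, hf₁]
  have fix0 : ∀ u, F0 *ᵥ u = u ↔ ∀ j, dedL E (2 * d + 1) (dedCf j u) = 0 := by
    intro u
    rw [hF0, ded_fix_iff]
    exact forall_congr' fun j => hf₀' _
  have fix1 : ∀ u, F1 *ᵥ u = u ↔ ∀ j, dedL E (2 * d) (dedCf j u) = 0 := by
    intro u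
    rw [hF1, ded_fix_iff]
    exact forall_congr' fun j => hf₁' _
  set t : D[T;T⁻¹] := LaurentPolynomial.T 1 with ht
  set B := LinearMap.toMatrix' (dedB (K := K) (2 * d + 1) t) with hB
  set A := LinearMap.toMatrix' (dedA (K := K) (2 * d) t) with hA
  set C := LinearMap.toMatrix' (dedC (K := K) (2 * d) t) with hC
  have hBv : ∀ u, B *ᵥ u = dedB (2 * d + 1) t u := fun u => LinearMap.toMatrix'_mulVec _ u
  have hAv : ∀ u, A *ᵥ u = dedA (2 * d) t u := fun u => LinearMap.toMatrix'_mulVec _ u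
  have hCv : ∀ u, C *ᵥ u = dedC (2 * d) t u := fun u => LinearMap.toMatrix'_mulVec _ u
  have hBA : B * A = 0 := by
    apply Matrix.ext_of_mulVec_single
    intro i
    rw [← mulVec_mulVec, hAv, hBv, ded_BA, zero_mulVec]
  have hCA : C * A = 1 := by
    apply Matrix.ext_of_mulVec_single
    intro i
    rw [← mulVec_mulVec, hAv, hCv, ded_CA, one_mulVec]
  have hAC : ∀ u, B *ᵥ u = 0 → A *ᵥ (C *ᵥ u) = u := by
    intro u hu
    rw [hBv] at hu
    rw [hCv, hAv]
    funext p
    rw [ded_AC, hu]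
    simp
  -- the section
  let c : K → Fin (2 * d + 1) × K → D := fun j p => (E p.2 j).coeff ((p.1 : ℤ) - d)
  let s : Matrix (Fin (2 * d + 1) × K) K D[T;T⁻¹] :=
    Matrix.of fun p j => LaurentPolynomial.T (-(d : ℤ)) * cst D (c j p)
  have hs : ∀ j, s *ᵥ Pi.single j 1 = fun p => LaurentPolynomial.T (-(d : ℤ)) * cst D (c j p) := by
    intro j
    rw [mulVec_single_one]
    rfl
  have key : ∀ j, dedB (2 * d + 1) t (fun p => LaurentPolynomial.T (-(d : ℤ)) * cst D (c j p)) =
      fun i => E i j := by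
    intro j
    funext i
    rw [dedB_apply]
    apply ext_coeff
    intro m
    rw [AddMonoidAlgebra.coeff_sum, Finsupp.finsetSum_apply]
    simp only [ht, LaurentPolynomial.T_pow, ded_coeff_T_mul, c]
    have h1 : ∀ (x : D) (k : ℤ), (cst D x).coeff k = if k = 0 then x else 0 := fun x k =>
      LaurentPolynomial.C_apply x k
    simp only [h1]
    by_cases hm : (d : ℤ) < |m|
    · rw [hd (i, j) m hm]
      apply Finset.sum_eq_zero
      intro n _
      rw [if_neg]
      rw [Int.abs_eq_natAbs] at hm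
      have := n.2
      omega
    · rw [Int.abs_eq_natAbs] at hm
      rw [Finset.sum_eq_single (⟨(m + d).toNat, by omega⟩ : Fin (2 * d + 1))]
      · simp only
        rw [if_pos (by omega), Int.toNat_of_nonneg (by omega), add_sub_cancel_right]
      · intro n _ hn
        rw [if_neg]
        intro h2
        apply hn
        apply Fin.ext
        simp only
        omega
      · intro h
        exact absurd (Finset.mem_univ _) h
  have hBs : B * s = E := by
    apply Matrix.ext_of_mulVec_single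
    intro j
    rw [← mulVec_mulVec, hs, hBv, key, mulVec_single_one]
    rfl
  have hF0s : F0 * s = s := by
    apply Matrix.ext_of_mulVec_single
    intro j
    rw [← mulVec_mulVec, fix0, hs]
    intro l
    by_cases hl : l = -(d : ℤ)
    · have h1 : dedCf l (fun p => LaurentPolynomial.T (-(d : ℤ)) * cst D (c j p)) = c j := by
        funext p
        change (LaurentPolynomial.T (-(d : ℤ)) * cst D (c j p)).coeff l = _
        rw [ded_coeff_T_mul, hl, sub_self]
        exact (LaurentPolynomial.C_apply (c j p) 0).trans (if_pos rfl)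
      have h2 : dedPsi (2 * d + 1) (c j) = (LaurentPolynomial.T d : D[T;T⁻¹]) • fun i => E i j := by
        rw [← key, ← map_smul, dedPsi]
        congr 1
        funext p
        rw [Pi.smul_apply, smul_eq_mul, ← mul_assoc, ← LaurentPolynomial.T_add, add_neg_cancel,
          LaurentPolynomial.T_zero, one_mul]
      rw [h1, dedL_apply, h2, mulVec_smul, ← smul_sub]
      have h3 : E *ᵥ (fun i => E i j) = fun i => E i j := by
        conv_rhs => rw [← hE]
        rfl
      rw [h3, sub_self, smul_zero]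
    · have h1 : dedCf l (fun p => LaurentPolynomial.T (-(d : ℤ)) * cst D (c j p)) = 0 := by
        funext p
        change (LaurentPolynomial.T (-(d : ℤ)) * cst D (c j p)).coeff l = _
        rw [ded_coeff_T_mul]
        exact (LaurentPolynomial.C_apply (c j p) _).trans (if_neg (by omega))
      rw [h1, map_zero]
  have hEB : E * B * F0 = B * F0 := by
    apply Matrix.ext_of_mulVec_single
    intro i
    rw [← mulVec_mulVec, ← mulVec_mulVec, ← mulVec_mulVec, hF0, ded_matrix_map_col, hBv]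
    have h1 : f₀ *ᵥ (f₀ *ᵥ Pi.single i 1) = f₀ *ᵥ Pi.single i 1 := by rw [mulVec_mulVec, hf₀]
    have h2 := (hf₀' _).1 h1
    rw [dedL_apply, sub_eq_zero] at h2
    exact h2
  have hFA : F0 * A * F1 = A * F1 := by
    apply Matrix.ext_of_mulVec_single
    intro i
    rw [← mulVec_mulVec, ← mulVec_mulVec, ← mulVec_mulVec]
    rw [fix0]
    have h1 : F1 *ᵥ (F1 *ᵥ Pi.single i 1) = F1 *ᵥ Pi.single i 1 := by rw [mulVec_mulVec, hF1F1]
    have h2 := (fix1 _).1 h1
    intro j
    rw [hAv, dedL_A, h2, h2, smul_zero, sub_zero]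
  set q := s * B * F0 with hq
  have hBZ : B * (F0 - q) = 0 := by
    rw [hq, Matrix.mul_sub, ← Matrix.mul_assoc, ← Matrix.mul_assoc, hBs, hEB, sub_self]
  have hFZ : F0 * (F0 - q) = F0 - q := by
    rw [hq, Matrix.mul_sub, ← Matrix.mul_assoc, ← Matrix.mul_assoc, hF0s, hF0F0]
  have hFC : F1 * (C * (F0 - q)) = C * (F0 - q) := by
    apply Matrix.ext_of_mulVec_single
    intro i
    rw [← mulVec_mulVec, ← mulVec_mulVec, fix1]
    apply ded_good
    rw [← ht, ← hAv, hAC _ (by rw [mulVec_mulVec, hBZ, zero_mulVec]), ← fix0, mulVec_mulVec, hFZ]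
  have hACZ : A * (C * (F0 - q)) = F0 - q := by
    apply Matrix.ext_of_mulVec_single
    intro i
    rw [← mulVec_mulVec, ← mulVec_mulVec]
    exact hAC _ (by rw [mulVec_mulVec, hBZ, zero_mulVec])
  have e1 : B * F0 * (s * E) = E := by
    rw [← Matrix.mul_assoc, Matrix.mul_assoc B, hF0s, hBs, hE]
  have e2 : B * F0 * (A * F1) = 0 := by
    rw [Matrix.mul_assoc B, ← Matrix.mul_assoc F0, hFA, ← Matrix.mul_assoc, hBA, Matrix.zero_mul]
  have e3 : F1 * (C * (F0 - q)) * (s * E) = 0 := by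
    have h1 : (F0 - q) * (s * E) = 0 := by
      rw [Matrix.sub_mul, hq]
      simp only [Matrix.mul_assoc]
      rw [← Matrix.mul_assoc F0 s, hF0s, ← Matrix.mul_assoc B s, hBs, hE, sub_self]
    rw [Matrix.mul_assoc F1, Matrix.mul_assoc C, h1, Matrix.mul_zero, Matrix.mul_zero]
  have e4 : F1 * (C * (F0 - q)) * (A * F1) = F1 := by
    have h1 : (F0 - q) * (A * F1) = A * F1 := by
      rw [Matrix.sub_mul, hq]
      simp only [Matrix.mul_assoc]
      rw [← Matrix.mul_assoc F0 A, hFA, ← Matrix.mul_assoc B A, hBA, Matrix.zero_mul,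
        Matrix.mul_zero, sub_zero]
    rw [Matrix.mul_assoc F1, Matrix.mul_assoc C, h1, ← Matrix.mul_assoc C, hCA, Matrix.one_mul,
      hF1F1]
  have e5 : s * E * (B * F0) = q := by
    rw [Matrix.mul_assoc s, ← Matrix.mul_assoc E, hEB, ← Matrix.mul_assoc s]
  have e6 : A * F1 * (F1 * (C * (F0 - q))) = F0 - q := by
    rw [Matrix.mul_assoc A, ← Matrix.mul_assoc F1 F1, hF1F1, hFC, hACZ]
  refine ⟨fromRows (B * F0) (F1 * (C * (F0 - q))), fromCols (s * E) (A * F1), ?_, ?_⟩
  · rw [fromRows_mul_fromCols, e1, e2, e3, e4]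
  · rw [fromCols_mul_fromRows, e5, e6]
    abel

end DedMain

theorem const_dedekind (D : Type u) [CommRing D] [IsDedekindDomain D] : Const D := by
  have main : ∀ a : IdemMat D[T;T⁻¹], ∃ x : K0 D, K0.mk a = K0.map (cst D) x := by
    intro a
    obtain ⟨N, M, f₀, f₁, h₀, h₁, h⟩ := ded_main a.mat a.idem
    refine ⟨K0.cls f₀ h₀ - K0.cls f₁ h₁, ?_⟩
    rw [map_sub, K0.map_cls, K0.map_cls, eq_sub_iff_add_eq, K0.mk_eq_cls, ← K0.cls_fromBlocks]
    exact K0.cls_congr _ _ h
  intro y
  obtain ⟨a, b, rfl⟩ := K0.exists_sub y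
  obtain ⟨x, hx⟩ := main a
  obtain ⟨z, hz⟩ := main b
  rw [hx, hz, ← map_sub, K0.map_map (ev1 D) (cst D), ev1_cst, K0.map_id]
  rfl

end Pool.Agent.H95.KM

end

section

/-!
# Project KM, module SqEx: exactness at `K₀(Γ)`

Definitions in `Pool/Agent/H95/KM/SqDefs.lean`; `exists_stab`, `matEquiv_stab_mono`,
`exists_sub_one` in `Pool/Agent/H95/KM/Stab.lean`.

Besides the square `Q` there is a ring `Gb` with a surjection `s : Γ → Gb` and a homomorphism
`ι : Gb → B` with `ι s = π φ` (think of `Gb = Γ / φ⁻¹(ker π)`).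

PROOF of `exists_dl_of_matEquiv`.  `H` an idempotent matrix over `Γ` (index `n`); `x y = 1`,
`y x = φ(H)` over `𝓜` (`x : m × n`, `y : n × m`), `u v = 1`, `v u = s(H)` over `Gb`.
Choose `u₀ : m × n`, `v₀ : n × m` over `Γ` with `s(u₀) = u`, `s(v₀) = v` and put `ũ = u₀ H`,
`ṽ = H v₀`.  `s(ũ) = u v u = u`, `s(ṽ) = v u v = v`.
Put `a = x φ(ṽ)`, `b = φ(ũ) y` (`m × m` over `𝓜`).  Then (with `r = π φ = ι s`)
`π(a) π(b) = π(x) r(ṽ) r(ũ) π(y) = π(x) ι(v u) π(y) = π(x) r(H) π(y) = π(x y x y) = 1` and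
`π(b) π(a) = r(ũ) π(y x) r(ṽ) = r(ũ H ṽ) = ι(u (v u) v) = 1`.  So `g = π(a)` is a unit with inverse
`π(b)`.  `(x, y, H)` represents `g`:
`π(x) = π(x y x) = π(x) r(H) = π(x) ι(v u) = π(x) r(ṽ) r(ũ) = g r(ũ)` and
`π(y) = r(H) π(y) = ι(v u) π(y) = r(ṽ) r(ũ) π(y) = r(ṽ) g⁻¹`.
Hence `dl g = [H] - [1_m]` by `Sq.dl_eq`.

PROOF of `exact`.  By `exists_sub_one` `z = [H] - [1_m]`.  The hypotheses give
`[φ(H)] = [1_m]` in `K₀(𝓜)` and `[s(H)] = [1_m]` in `K₀(Gb)`, so for some common `k`
`φ(H) ⊕ 1_k ≈ 1_m ⊕ 1_k` over `𝓜` and `s(H) ⊕ 1_k ≈ 1_m ⊕ 1_k` over `Gb`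
(`exists_stab`, `matEquiv_stab_mono`; `fromBlocks 1 0 0 1 = 1`).
Apply `exists_dl_of_matEquiv` to `H ⊕ 1_k`.
-/

set_option autoImplicit false

open Matrix
open scoped LaurentPolynomial

universe u v w t

namespace Pool.Agent.H95.KM

open Pool.Agent.H71.FJ

namespace Sq

variable {Γ : Type u} {𝓜 : Type v} {B : Type w} [Ring Γ] [Ring 𝓜] [Ring B] (Q : Sq Γ 𝓜 B)
  {Gb : Type t} [Ring Gb] (s : Γ →+* Gb) (ι : Gb →+* B)

theorem exists_dl_of_matEquiv (hs : Function.Surjective s) (hι : ι.comp s = Q.π.comp Q.φ)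
    {m n : Type} [Fintype m] [DecidableEq m] [Fintype n] [DecidableEq n]
    (H : Matrix n n Γ) (hH : H * H = H)
    (h1 : MatEquiv (H.map Q.φ) (1 : Matrix m m 𝓜))
    (h2 : MatEquiv (H.map s) (1 : Matrix m m Gb)) :
    ∃ g : (Matrix m m B)ˣ,
      Q.dl g = K0.cls H hH - K0.cls (1 : Matrix m m Γ) one_idem := by
  obtain ⟨y, x, hyx, hxy⟩ := h1
  obtain ⟨v, u, hvu, huv⟩ := h2
  obtain ⟨u₀, hu₀⟩ := exists_matrix_lift s u (fun i j => hs _)
  obtain ⟨v₀, hv₀⟩ := exists_matrix_lift s v (fun i j => hs _)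
  set r : Γ →+* B := Q.π.comp Q.φ with hr
  have hcomp : ∀ {a b : Type} (Z : Matrix a b Γ), (Z.map Q.φ).map Q.π = Z.map r := by
    intro a b Z; ext i j; rfl
  have hcomp' : ∀ {a b : Type} (Z : Matrix a b Γ), (Z.map s).map ι = Z.map r := by
    intro a b Z
    ext i j
    exact congrArg (fun f : Γ →+* B => f (Z i j)) hι
  -- products
  have hU : (u₀ * H).map s = u := by
    rw [Matrix.map_mul, hu₀, ← hvu, ← Matrix.mul_assoc, huv, Matrix.one_mul]
  have hV : (H * v₀).map s = v := by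
    rw [Matrix.map_mul, hv₀, ← hvu, Matrix.mul_assoc, huv, Matrix.mul_one]
  have hVU : (H * v₀).map r * (u₀ * H).map r = H.map r := by
    rw [← hcomp', ← hcomp', hU, hV, ← Matrix.map_mul, hvu, hcomp']
  have hUV : (u₀ * H).map r * (H * v₀).map r = 1 := by
    rw [← hcomp', ← hcomp', hU, hV, ← Matrix.map_mul, huv,
      Matrix.map_one _ (map_zero ι) (map_one ι)]
  have hyxr : y.map Q.π * x.map Q.π = H.map r := by
    rw [← Matrix.map_mul, hyx, hcomp]
  have hxyr : x.map Q.π * y.map Q.π = 1 := by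
    rw [← Matrix.map_mul, hxy, Matrix.map_one _ (map_zero Q.π) (map_one Q.π)]
  have hHH : H.map r * H.map r = H.map r := by rw [← Matrix.map_mul, hH]
  have hxH : x.map Q.π * H.map r = x.map Q.π := by
    rw [← hyxr, ← Matrix.mul_assoc, hxyr, Matrix.one_mul]
  have hHy : H.map r * y.map Q.π = y.map Q.π := by
    rw [← hyxr, Matrix.mul_assoc, hxyr, Matrix.mul_one]
  have hgg : x.map Q.π * (H * v₀).map r * ((u₀ * H).map r * y.map Q.π) = 1 := by
    rw [Matrix.mul_assoc, ← Matrix.mul_assoc ((H * v₀).map r), hVU, hHy, hxyr]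
  have hgg' : (u₀ * H).map r * y.map Q.π * (x.map Q.π * (H * v₀).map r) = 1 := by
    rw [Matrix.mul_assoc, ← Matrix.mul_assoc (y.map Q.π), hyxr, ← Matrix.map_mul,
      ← Matrix.mul_assoc, hH, hUV]
  let g : (Matrix m m B)ˣ := ⟨x.map Q.π * (H * v₀).map r, (u₀ * H).map r * y.map Q.π, hgg, hgg'⟩
  refine ⟨g, ?_⟩
  have hrep : Q.IsRep g x y H := by
    refine ⟨hxy, hyx, ⟨u₀ * H, ?_⟩, ⟨H * v₀, ?_⟩⟩
    · change x.map Q.π = x.map Q.π * (H * v₀).map r * (u₀ * H).map r
      rw [Matrix.mul_assoc, hVU, hxH]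
    · change y.map Q.π = (H * v₀).map r * ((u₀ * H).map r * y.map Q.π)
      rw [← Matrix.mul_assoc, hVU, hHy]
  rw [dl_eq hrep]

private theorem sqex_stab {R : Type*} [Ring R] {m n : Type} [Fintype m] [DecidableEq m]
    [Fintype n] [DecidableEq n] (E : Matrix n n R) (hE : E * E = E)
    (h : K0.cls E hE = K0.cls (1 : Matrix m m R) one_idem) :
    ∃ k : ℕ, ∀ l, k ≤ l → MatEquiv (fromBlocks E 0 0 (1 : Matrix (Fin l) (Fin l) R))
      (1 : Matrix (m ⊕ Fin l) (m ⊕ Fin l) R) := by
  obtain ⟨k, hk⟩ := exists_stab E (1 : Matrix m m R) hE one_idem h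
  refine ⟨k, fun l hl => ?_⟩
  have := matEquiv_stab_mono E (1 : Matrix m m R) hE one_idem hl hk
  rwa [fromBlocks_one] at this

theorem exact (hs : Function.Surjective s) (hι : ι.comp s = Q.π.comp Q.φ) (z : K0 Γ)
    (h1 : K0.map Q.φ z = 0) (h2 : K0.map s z = 0) :
    ∃ (m : ℕ) (g : (Matrix (Fin m) (Fin m) B)ˣ), z = Q.dl g := by
  obtain ⟨n, m, H, hH, rfl⟩ := exists_sub_one z
  rw [map_sub, sub_eq_zero, K0.map_cls, K0.map_cls] at h1 h2
  have h1' : K0.cls (H.map Q.φ) (K0.map_idem Q.φ hH) =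
      K0.cls (1 : Matrix (Fin m) (Fin m) 𝓜) one_idem := by
    rw [h1]
    congr 1
    exact Matrix.map_one _ (map_zero Q.φ) (map_one Q.φ)
  have h2' : K0.cls (H.map s) (K0.map_idem s hH) =
      K0.cls (1 : Matrix (Fin m) (Fin m) Gb) one_idem := by
    rw [h2]
    congr 1
    exact Matrix.map_one _ (map_zero s) (map_one s)
  obtain ⟨k1, hk1⟩ := sqex_stab _ _ h1'
  obtain ⟨k2, hk2⟩ := sqex_stab _ _ h2'
  set k := max k1 k2 with hk
  have e1 := hk1 k (le_max_left _ _)
  have e2 := hk2 k (le_max_right _ _)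
  have f1 : MatEquiv ((fromBlocks H 0 0 (1 : Matrix (Fin k) (Fin k) Γ)).map Q.φ)
      (1 : Matrix (Fin (m + k)) (Fin (m + k)) 𝓜) := by
    rw [fromBlocks_map, Matrix.map_one _ (map_zero Q.φ) (map_one Q.φ),
      Matrix.map_zero _ (map_zero Q.φ), Matrix.map_zero _ (map_zero Q.φ)]
    refine K0.matEquiv_trans (K0.fromBlocks_idem (K0.map_idem Q.φ hH) one_idem) one_idem e1 ?_
    have := K0.matEquiv_submatrix (1 : Matrix (Fin m ⊕ Fin k) (Fin m ⊕ Fin k) 𝓜) one_idem
      finSumFinEquiv.symm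
    rw [submatrix_one_equiv] at this
    exact K0.matEquiv_symm this
  have f2 : MatEquiv ((fromBlocks H 0 0 (1 : Matrix (Fin k) (Fin k) Γ)).map s)
      (1 : Matrix (Fin (m + k)) (Fin (m + k)) Gb) := by
    rw [fromBlocks_map, Matrix.map_one _ (map_zero s) (map_one s),
      Matrix.map_zero _ (map_zero s), Matrix.map_zero _ (map_zero s)]
    refine K0.matEquiv_trans (K0.fromBlocks_idem (K0.map_idem s hH) one_idem) one_idem e2 ?_
    have := K0.matEquiv_submatrix (1 : Matrix (Fin m ⊕ Fin k) (Fin m ⊕ Fin k) Gb) one_idem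
      finSumFinEquiv.symm
    rw [submatrix_one_equiv] at this
    exact K0.matEquiv_symm this
  obtain ⟨g, hg⟩ := Q.exists_dl_of_matEquiv s ι hs hι (fromBlocks H 0 0 1)
    (K0.fromBlocks_idem hH one_idem) f1 f2
  refine ⟨m + k, g, ?_⟩
  rw [hg, K0.cls_fromBlocks hH one_idem]
  have h3 : K0.cls (1 : Matrix (Fin (m + k)) (Fin (m + k)) Γ) one_idem =
      K0.cls (1 : Matrix (Fin m) (Fin m) Γ) one_idem +
        K0.cls (1 : Matrix (Fin k) (Fin k) Γ) one_idem := by
    rw [← K0.cls_fromBlocks]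
    apply K0.cls_congr
    rw [fromBlocks_one]
    have := K0.matEquiv_submatrix (1 : Matrix (Fin m ⊕ Fin k) (Fin m ⊕ Fin k) Γ) one_idem
      finSumFinEquiv.symm
    rwa [submatrix_one_equiv] at this
  rw [h3]
  abel

end Sq

end Pool.Agent.H95.KM

end

section

/-!
# Project KM: monomial matrices and the units `t e + 1 - e`
-/

set_option autoImplicit false

open Matrix
open scoped LaurentPolynomial

universe u v w

namespace Pool.Agent.H95.KM

open Pool.Agent.H71.FJ

variable {B : Type u} [Ring B]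

/-- The matrix `X t^k`. -/
noncomputable def mono (k : ℤ) {m n : Type*} (X : Matrix m n B) : Matrix m n B[T;T⁻¹] :=
  X.map (AddMonoidAlgebra.single k)

theorem mono_add (k : ℤ) {m n : Type*} (X Y : Matrix m n B) :
    mono k (X + Y) = mono k X + mono k Y := by
  ext i j : 1
  exact AddMonoidAlgebra.single_add _ _ _

theorem mono_zero (k : ℤ) {m n : Type*} : mono k (0 : Matrix m n B) = 0 := by
  ext i j : 1
  exact AddMonoidAlgebra.single_zero _

theorem mono_sub (k : ℤ) {m n : Type*} (X Y : Matrix m n B) :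
    mono k (X - Y) = mono k X - mono k Y := by
  rw [eq_sub_iff_add_eq, ← mono_add, sub_add_cancel]

theorem mono_mul (k l : ℤ) {m n p : Type*} [Fintype n] (X : Matrix m n B) (Y : Matrix n p B) :
    mono k X * mono l Y = mono (k + l) (X * Y) := by
  ext i j : 1
  simp only [mono, Matrix.mul_apply, Matrix.map_apply, AddMonoidAlgebra.single_mul_single]
  exact (map_sum (AddMonoidAlgebra.singleAddHom (k + l)) _ _).symm

theorem mono_one {m : Type*} [Fintype m] [DecidableEq m] :
    mono 0 (1 : Matrix m m B) = 1 := by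
  have : mono 0 (1 : Matrix m m B) = (1 : Matrix m m B).map (cst B) := rfl
  rw [this, Matrix.map_one _ (map_zero _) (map_one _)]

/-- The unit `t^k e + (1 - e)` for an idempotent matrix `e`. -/
noncomputable def tU (k : ℤ) {m : Type} [Fintype m] [DecidableEq m] (e : Matrix m m B)
    (he : e * e = e) : (Matrix m m B[T;T⁻¹])ˣ where
  val := mono k e + mono 0 (1 - e)
  inv := mono (-k) e + mono 0 (1 - e)
  val_inv := by
    rw [add_mul, mul_add, mul_add, mono_mul, mono_mul, mono_mul, mono_mul, he, sub_idem he,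
      mul_sub, sub_mul, he, mul_one, one_mul, sub_self, mono_zero, mono_zero, add_zero, zero_add,
      add_neg_cancel, add_zero, ← mono_add, add_sub_cancel, mono_one]
  inv_val := by
    rw [add_mul, mul_add, mul_add, mono_mul, mono_mul, mono_mul, mono_mul, he, sub_idem he,
      mul_sub, sub_mul, he, mul_one, one_mul, sub_self, mono_zero, mono_zero, add_zero, zero_add,
      neg_add_cancel, add_zero, ← mono_add, add_sub_cancel, mono_one]

theorem tU_val (k : ℤ) {m : Type} [Fintype m] [DecidableEq m] (e : Matrix m m B)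
    (he : e * e = e) : ((tU k e he : (Matrix m m B[T;T⁻¹])ˣ) : Matrix m m B[T;T⁻¹]) =
      mono k e + mono 0 (1 - e) := rfl

end Pool.Agent.H95.KM

end

section

/-!
# Project KM, module Kap: the homomorphism `K₀(B) → M`, `[e] ↦ Δ(t e + 1 - e)`

`StabHom`, `blk`, `rei`, `mapU` are in `Pool/Agent/H95/KM/SqDefs.lean`, `mono`, `tU` in
`Pool/Agent/H95/KM/LinDefs.lean`; `K0.lift` in `Pool/Agent/H71/FJ/K0.lean`.
`Δ : StabHom B[T;T⁻¹] M` kills constant units (`hc`).

PROOF of `D_tU_congr`.  Let `x y = e`, `y x = f` (`e : m × m`, `f : n × n`); replacing `x` by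
`e x f` and `y` by `f y e` we may assume `e x = x = x f`, `f y = y = y e` (still `x y = e`,
`y x = f`).  Put `w = [[1 - e, x], [y, 1 - f]]` (size `m ⊕ n`, over `B`).  `w w = 1`, and
`w · diag(e, 0) · w = diag(0, f)`.  Hence `w (t diag(e, 0) + 1 - diag(e, 0)) w
= t diag(0, f) + 1 - diag(0, f)`, i.e. `blk (tU e) 1` and `blk 1 (tU f)` differ by conjugation with
the constant unit `w`; so `Δ.D (tU e) = Δ.D (blk (tU e) 1) = 2 Δ.D w + .. = Δ.D (blk 1 (tU f))
= Δ.D (tU f)` by `map_mul`, `hc`, `map_blk`, `map_one`.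
-/

set_option autoImplicit false

open Matrix
open scoped LaurentPolynomial

universe u v w

namespace Pool.Agent.H95.KM

open Pool.Agent.H71.FJ

variable {B : Type u} [Ring B] {M : Type v} [AddCommGroup M] (Δ : StabHom B[T;T⁻¹] M)
  (hc : ∀ {m : Type} [Fintype m] [DecidableEq m] (g : (Matrix m m B)ˣ),
    Δ.D (mapU (cst B) g) = 0)

theorem mono_fromBlocks (k : ℤ) {l m n o : Type*} (P : Matrix l n B) (Q : Matrix l o B)
    (R : Matrix m n B) (S : Matrix m o B) :
    mono k (fromBlocks P Q R S) = fromBlocks (mono k P) (mono k Q) (mono k R) (mono k S) :=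
  fromBlocks_map _ _ _ _ _

theorem blk_tU_one {m n : Type} [Fintype m] [DecidableEq m] [Fintype n] [DecidableEq n]
    {e : Matrix m m B} {f : Matrix n n B} (he : e * e = e) (hf : f * f = f) :
    blk (tU 1 e he) (tU 1 f hf) =
      tU 1 (fromBlocks e 0 0 f) (K0.fromBlocks_idem he hf) := by
  apply Units.ext
  change fromBlocks (mono 1 e + mono 0 (1 - e)) 0 0 (mono 1 f + mono 0 (1 - f)) =
    mono 1 (fromBlocks e 0 0 f) + mono 0 (1 - fromBlocks e 0 0 f)
  have h : (1 : Matrix (m ⊕ n) (m ⊕ n) B) - fromBlocks e 0 0 f =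
      fromBlocks (1 - e) 0 0 (1 - f) := by
    rw [sub_eq_iff_eq_add, fromBlocks_add, ← fromBlocks_one]
    simp
  rw [h, mono_fromBlocks, mono_fromBlocks, fromBlocks_add]
  simp [mono_zero]

theorem zero_idem {m : Type} [Fintype m] : (0 : Matrix m m B) * 0 = 0 := mul_zero _

theorem tU_zero {m : Type} [Fintype m] [DecidableEq m] :
    tU 1 (0 : Matrix m m B) zero_idem = 1 := by
  apply Units.ext
  change mono 1 (0 : Matrix m m B) + mono 0 (1 - 0) = 1
  rw [mono_zero, sub_zero, mono_one, zero_add]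

theorem D_tU_blk {m n : Type} [Fintype m] [DecidableEq m] [Fintype n] [DecidableEq n]
    {e : Matrix m m B} {f : Matrix n n B} (he : e * e = e) (hf : f * f = f) :
    Δ.D (tU 1 (fromBlocks e 0 0 f) (K0.fromBlocks_idem he hf)) =
      Δ.D (tU 1 e he) + Δ.D (tU 1 f hf) := by
  rw [← blk_tU_one he hf, Δ.map_blk]

include hc in
/-- conjugation by a constant involution -/
theorem D_tU_conj {m : Type} [Fintype m] [DecidableEq m] {e f : Matrix m m B}
    (he : e * e = e) (hf : f * f = f) (w : Matrix m m B) (hw : w * w = 1)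
    (h : w * e * w = f) : Δ.D (tU 1 e he) = Δ.D (tU 1 f hf) := by
  let W : (Matrix m m B)ˣ := ⟨w, w, hw, hw⟩
  have h1 : mapU (cst B) W * tU 1 e he * mapU (cst B) W = tU 1 f hf := by
    apply Units.ext
    have h2 : w.map (cst B) = mono 0 w := rfl
    change w.map (cst B) * (mono 1 e + mono 0 (1 - e)) * w.map (cst B) =
      mono 1 f + mono 0 (1 - f)
    rw [h2, mul_add, add_mul, mono_mul, mono_mul, mono_mul, mono_mul, zero_add, add_zero, add_zero,
      add_zero, h, mul_sub, mul_one, sub_mul, hw, h]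
  rw [← h1, Δ.map_mul, Δ.map_mul, hc, zero_add, add_zero]

include hc in
theorem D_tU_congr {m n : Type} [Fintype m] [DecidableEq m] [Fintype n] [DecidableEq n]
    {e : Matrix m m B} {f : Matrix n n B} (he : e * e = e) (hf : f * f = f) (h : MatEquiv e f) :
    Δ.D (tU 1 e he) = Δ.D (tU 1 f hf) := by
  obtain ⟨x₀, y₀, h1, h2⟩ := h
  obtain ⟨x, hx⟩ : ∃ x, x = e * x₀ * f := ⟨_, rfl⟩
  obtain ⟨y, hy⟩ : ∃ y, y = f * y₀ * e := ⟨_, rfl⟩
  have hex : e * x = x := by rw [hx, ← Matrix.mul_assoc, ← Matrix.mul_assoc, he]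
  have hxf : x * f = x := by rw [hx, Matrix.mul_assoc, hf]
  have hfy : f * y = y := by rw [hy, ← Matrix.mul_assoc, ← Matrix.mul_assoc, hf]
  have hye : y * e = y := by rw [hy, Matrix.mul_assoc, he]
  have hxy : x * y = e := by
    calc x * y = e * x₀ * (f * f) * y₀ * e := by rw [hx, hy]; simp only [Matrix.mul_assoc]
      _ = e * (x₀ * y₀) * (x₀ * y₀) * e := by rw [hf, ← h2]; simp only [Matrix.mul_assoc]
      _ = e := by rw [h1, he, he, he]
  have hyx : y * x = f := by
    calc y * x = f * y₀ * (e * e) * x₀ * f := by rw [hx, hy]; simp only [Matrix.mul_assoc]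
      _ = f * (y₀ * x₀) * (y₀ * x₀) * f := by rw [he, ← h1]; simp only [Matrix.mul_assoc]
      _ = f := by rw [h2, hf, hf, hf]
  have key := D_tU_conj Δ hc (K0.fromBlocks_idem he (zero_idem (m := n)))
    (K0.fromBlocks_idem (zero_idem (m := m)) hf) (fromBlocks (1 - e) x y (1 - f))
    (by
      rw [fromBlocks_multiply, sub_idem he, sub_idem hf, hxy, hyx, ← fromBlocks_one,
        Matrix.sub_mul, Matrix.one_mul, hex, Matrix.mul_sub, Matrix.mul_one, hxf, Matrix.mul_sub,
        Matrix.mul_one, hye, Matrix.sub_mul, Matrix.one_mul, hfy]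
      simp)
    (by
      rw [fromBlocks_multiply, fromBlocks_multiply]
      have e1 : (1 - e) * e = 0 := by rw [sub_mul, one_mul, he, sub_self]
      have e2 : y * (1 - e) = 0 := by rw [Matrix.mul_sub, Matrix.mul_one, hye, sub_self]
      simp [e1, hye, e2, hyx])
  rw [D_tU_blk Δ he (zero_idem (m := n)), D_tU_blk Δ (zero_idem (m := m)) hf, tU_zero, tU_zero,
    Δ.map_one, Δ.map_one, add_zero, zero_add] at key
  exact key

include hc in
/-- There is a homomorphism `K₀(B) → M` with `[e] ↦ Δ(t e + 1 - e)`. -/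
theorem exists_kap : ∃ κ : K0 B →+ M, ∀ {m : Type} [Fintype m] [DecidableEq m]
    (e : Matrix m m B) (he : e * e = e), κ (K0.cls e he) = Δ.D (tU 1 e he) := by
  refine ⟨K0.lift (fun a => Δ.D (tU 1 a.mat a.idem))
    (fun a b h => D_tU_congr Δ hc a.idem b.idem h) (fun a b => ?_), ?_⟩
  · rw [← D_tU_blk Δ a.idem b.idem]
    exact D_tU_congr Δ hc (a.sum b).idem _
      (K0.matEquiv_submatrix _ (K0.fromBlocks_idem a.idem b.idem) _)
  · intro m _ _ e he
    rw [K0.cls, K0.lift_mk]
    exact D_tU_congr Δ hc _ he (K0.toFin_equiv e he)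

end Pool.Agent.H95.KM

end

section

/-!
# Project KM, module Lin: linearization over the Laurent polynomials of a finite ring

`StabHom`, `blk`, `rei`, `mapU` are in `Pool/Agent/H95/KM/SqDefs.lean`, `mono`, `tU` in
`Pool/Agent/H95/KM/LinDefs.lean`.

`B` is a finite (noncommutative) ring, `Δ : StabHom B[T;T⁻¹] M` kills the units `g` with `g, g⁻¹`
over `B[t]` (`hpos`), those with `g, g⁻¹` over `B[t⁻¹]` (`hneg`) and the scalar matrices `t`
(`hT`).  Claim: `Δ.D g = Δ.D (tU 1 e)` for some idempotent matrix `e` over `B`.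

PROOF.
(a) Scalar: multiplying `g` by a power of the scalar matrix `t = tU 1 1` (central, killed by `hT`)
    we may assume that `g` has entries in `B[t]` (but not necessarily `g⁻¹`).
(b) Higman's trick: let `g = ∑_{j ≤ d} g_j t^j`, `d ≥ 2`, put `g' = g - g_d t^d`.  In size `m ⊕ m`
    `[[g, 0], [0, 1]] · ` elementary matrices over `B[t]` (killed by `hpos`):
    `[[1, g_d t^{d-1}], [0, 1]] · [[g, 0], [0, 1]] · [[1, 0], [-t, 1]]
      = [[g - g_d t^d, g_d t^{d-1}], [-t, 1]] = [[g', g_d t^{d-1}], [-t, 1]]`,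
    a polynomial matrix of degree `≤ d - 1`, invertible over `B[t, t⁻¹]`, with the same `Δ.D`
    (`map_blk`, `map_mul`, `map_one`).  By induction on `d` we reach `d ≤ 1`: `g = g_0 + g_1 t`.
(c) `c = g_0 + g_1` is invertible over `B` (apply the ring homomorphism `ev1` to `g` and `g⁻¹`).
    `c` as a constant unit is killed by `hpos`.  Replacing `g` by `c⁻¹ g` we get
    `g = (1 - ν) + ν t`, `ν = c⁻¹ g_1 ∈ A := Mat_m(B)`, a finite ring.
(d) Let `L > 0` be such that `e = ν ^ L` and `f = (1 - ν) ^ L` are idempotent (in a finite monoid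
    every element has an idempotent positive power, e.g. `exists_pow_idempotent`-type argument;
    take a common multiple for `ν` and `1 - ν`).  `e, f, ν` commute.
    Claim: `e f = 0`.  Put `h = e f` (idempotent, commutes with `ν`).  There are `ν', μ'` in
    `h A h` (e.g. `ν' = ν ^ (L - 1) h`, as `ν ν' = e h = h`; similarly `μ'` for `1 - ν`) with
    `ν ν' = ν' ν = h`, `(1 - ν) μ' = μ' (1 - ν) = h`.  Let `k = g⁻¹ = ∑_j k_j t^j` and
    suppose `h ≠ 0`.  `((1 - ν) + ν t) k = 1` gives `(1 - ν) k_j + ν k_{j-1} = δ_{j0}`.  Multiply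
    by `h` on the left: with `κ_j = h k_j`: `(1 - ν) κ_j + ν κ_{j-1} = δ_{j0} h`.
    As `(1 - ν)` and `ν` are invertible on `h A`: going up from `j = -∞` (where `κ_j = 0`) for
    `j < 0`: `κ_j = 0`; going down from `j = +∞` for `j > 0`: `ν κ_{j-1} = -(1-ν) κ_j`, so
    `κ_{j-1} = 0` for all `j ≥ 1`, in particular `κ_0 = 0`.  Then the equation for `j = 0` gives
    `h = (1 - ν) κ_0 + ν κ_{-1} = 0`.
(e) So `e f = 0`.  Write `g = g₊ · (t e + 1 - e) · g₋` with
    `g₊ = e + (1 - e)((1 - ν) + ν t)` over `B[t]` and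
    `g₋ = (1 - e) + e (ν + (1 - ν) t⁻¹)` over `B[t⁻¹]`
    (all coefficients commute; `e · e t (ν + (1-ν) t⁻¹) = e (ν t + (1 - ν))`).
    `g₊⁻¹` is over `B[t]`: on the part `1 - e`: `ν^L (1 - e) = 0`, so `ν (1 - e)` is nilpotent;
    hence `(1 - ν)(1 - e) + e` is invertible in `A` and
    `g₊ = (e + (1 - e)(1 - ν)) (1 + N t)` with `N` nilpotent commuting, inverse
    `∑ (-N)^i t^i`.  `g₋⁻¹` is over `B[t⁻¹]`: on `e`, `ν` is invertible (`ν ν^{L-1} e = e`) and
    `(1 - ν)^L e = f e = 0`, so `(1 - ν) e` is nilpotent; `g₋ = ((1 - e) + e ν)(1 + N' t⁻¹)`.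
    So `hpos g₊` and `hneg g₋` give `Δ.D g = Δ.D (tU 1 e)`.
-/

set_option autoImplicit false

open Matrix
open scoped LaurentPolynomial

universe u v w

namespace Pool.Agent.H95.KM

open Pool.Agent.H71.FJ

section LinAux

variable {B : Type u} [Ring B]

/-! ### positive and negative matrices -/

theorem lin_isPos_mul {x y : B[T;T⁻¹]} (hx : IsPos x) (hy : IsPos y) : IsPos (x * y) := by
  obtain ⟨p, rfl⟩ := hx.exists_posHom
  obtain ⟨q, rfl⟩ := hy.exists_posHom
  rw [← map_mul]
  exact isPos_posHom _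

theorem lin_isNeg_mul {x y : B[T;T⁻¹]} (hx : IsNeg x) (hy : IsNeg y) : IsNeg (x * y) := by
  obtain ⟨p, rfl⟩ := hx.exists_negHom
  obtain ⟨q, rfl⟩ := hy.exists_negHom
  rw [← map_mul]
  exact isNeg_negHom _

theorem lin_isPos_neg {x : B[T;T⁻¹]} (hx : IsPos x) : IsPos (-x) := by
  intro k hk
  rw [AddMonoidAlgebra.coeff_neg, Finsupp.neg_apply, hx k hk, neg_zero]

theorem lin_isNeg_neg {x : B[T;T⁻¹]} (hx : IsNeg x) : IsNeg (-x) := by
  intro k hk
  rw [AddMonoidAlgebra.coeff_neg, Finsupp.neg_apply, hx k hk, neg_zero]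

/-- matrices over `B[t]` -/
def MPos {m n : Type*} (X : Matrix m n B[T;T⁻¹]) : Prop := ∀ i j, IsPos (X i j)

/-- matrices over `B[t⁻¹]` -/
def MNeg {m n : Type*} (X : Matrix m n B[T;T⁻¹]) : Prop := ∀ i j, IsNeg (X i j)

theorem lin_isPos_sum {ι : Type*} (s : Finset ι) (f : ι → B[T;T⁻¹]) (h : ∀ i ∈ s, IsPos (f i)) :
    IsPos (∑ i ∈ s, f i) := by
  classical
  induction s using Finset.induction_on with
  | empty => simpa using isPos_zero
  | insert a s ha ih =>
    rw [Finset.sum_insert ha]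
    exact (h a (Finset.mem_insert_self _ _)).add
      (ih (fun i hi => h i (Finset.mem_insert_of_mem hi)))

theorem lin_isNeg_sum {ι : Type*} (s : Finset ι) (f : ι → B[T;T⁻¹]) (h : ∀ i ∈ s, IsNeg (f i)) :
    IsNeg (∑ i ∈ s, f i) := by
  classical
  induction s using Finset.induction_on with
  | empty => simpa using isNeg_zero
  | insert a s ha ih =>
    rw [Finset.sum_insert ha]
    exact (h a (Finset.mem_insert_self _ _)).add
      (ih (fun i hi => h i (Finset.mem_insert_of_mem hi)))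

theorem MPos.mul {l m n : Type*} [Fintype m] {X : Matrix l m B[T;T⁻¹]}
    {Y : Matrix m n B[T;T⁻¹]} (hX : MPos X) (hY : MPos Y) : MPos (X * Y) := by
  intro i j
  rw [Matrix.mul_apply]
  exact lin_isPos_sum _ _ (fun k _ => lin_isPos_mul (hX i k) (hY k j))

theorem MNeg.mul {l m n : Type*} [Fintype m] {X : Matrix l m B[T;T⁻¹]}
    {Y : Matrix m n B[T;T⁻¹]} (hX : MNeg X) (hY : MNeg Y) : MNeg (X * Y) := by
  intro i j
  rw [Matrix.mul_apply]
  exact lin_isNeg_sum _ _ (fun k _ => lin_isNeg_mul (hX i k) (hY k j))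

theorem MPos.add {m n : Type*} {X Y : Matrix m n B[T;T⁻¹]} (hX : MPos X) (hY : MPos Y) :
    MPos (X + Y) := fun i j => (hX i j).add (hY i j)

theorem MNeg.add {m n : Type*} {X Y : Matrix m n B[T;T⁻¹]} (hX : MNeg X) (hY : MNeg Y) :
    MNeg (X + Y) := fun i j => (hX i j).add (hY i j)

theorem MPos.neg {m n : Type*} {X : Matrix m n B[T;T⁻¹]} (hX : MPos X) :
    MPos (-X) := fun i j => lin_isPos_neg (hX i j)

theorem MNeg.neg {m n : Type*} {X : Matrix m n B[T;T⁻¹]} (hX : MNeg X) :
    MNeg (-X) := fun i j => lin_isNeg_neg (hX i j)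

theorem MPos.sub {m n : Type*} {X Y : Matrix m n B[T;T⁻¹]} (hX : MPos X) (hY : MPos Y) :
    MPos (X - Y) := by
  rw [sub_eq_add_neg]
  exact hX.add hY.neg

theorem MNeg.sub {m n : Type*} {X Y : Matrix m n B[T;T⁻¹]} (hX : MNeg X) (hY : MNeg Y) :
    MNeg (X - Y) := by
  rw [sub_eq_add_neg]
  exact hX.add hY.neg

theorem MPos.zero {m n : Type*} : MPos (0 : Matrix m n B[T;T⁻¹]) := fun _ _ => isPos_zero

theorem MNeg.zero {m n : Type*} : MNeg (0 : Matrix m n B[T;T⁻¹]) := fun _ _ => isNeg_zero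

theorem mono_pos {m n : Type*} {k : ℤ} (hk : 0 ≤ k) (X : Matrix m n B) : MPos (mono k X) :=
  fun i j => isPos_single hk (X i j)

theorem mono_neg {m n : Type*} {k : ℤ} (hk : k ≤ 0) (X : Matrix m n B) : MNeg (mono k X) :=
  fun i j => isNeg_single hk (X i j)

theorem MPos.one {m : Type*} [Fintype m] [DecidableEq m] : MPos (1 : Matrix m m B[T;T⁻¹]) := by
  rw [← mono_one]
  exact mono_pos le_rfl _

theorem MNeg.one {m : Type*} [Fintype m] [DecidableEq m] : MNeg (1 : Matrix m m B[T;T⁻¹]) := by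
  rw [← mono_one]
  exact mono_neg le_rfl _

theorem MPos.geom {m : Type*} [Fintype m] [DecidableEq m] {X : Matrix m m B[T;T⁻¹]}
    (hX : MPos X) (L : ℕ) : MPos (∑ i ∈ Finset.range L, X ^ i) := by
  have hp : ∀ i : ℕ, MPos (X ^ i) := by
    intro i
    induction i with
    | zero => rw [pow_zero]; exact MPos.one
    | succ i ih => rw [pow_succ]; exact ih.mul hX
  induction L with
  | zero => simpa using MPos.zero
  | succ L ih =>
    rw [Finset.sum_range_succ]
    exact ih.add (hp L)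

theorem MNeg.geom {m : Type*} [Fintype m] [DecidableEq m] {X : Matrix m m B[T;T⁻¹]}
    (hX : MNeg X) (L : ℕ) : MNeg (∑ i ∈ Finset.range L, X ^ i) := by
  have hp : ∀ i : ℕ, MNeg (X ^ i) := by
    intro i
    induction i with
    | zero => rw [pow_zero]; exact MNeg.one
    | succ i ih => rw [pow_succ]; exact ih.mul hX
  induction L with
  | zero => simpa using MNeg.zero
  | succ L ih =>
    rw [Finset.sum_range_succ]
    exact ih.add (hp L)

theorem MPos.fromBlocks {l m n o : Type*} {X : Matrix n l B[T;T⁻¹]} {Y : Matrix n m B[T;T⁻¹]}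
    {Z : Matrix o l B[T;T⁻¹]} {W : Matrix o m B[T;T⁻¹]} (hX : MPos X) (hY : MPos Y)
    (hZ : MPos Z) (hW : MPos W) : MPos (fromBlocks X Y Z W) := by
  rintro (i | i) (j | j)
  · exact hX i j
  · exact hY i j
  · exact hZ i j
  · exact hW i j

/-! ### coefficients -/

/-- the coefficient matrix of `t^k` -/
def cf (k : ℤ) {m n : Type*} (X : Matrix m n B[T;T⁻¹]) : Matrix m n B :=
  X.map (fun z => z.coeff k)

theorem lin_coeff_single_mul (k l : ℤ) (r : B) (y : B[T;T⁻¹]) :
    (AddMonoidAlgebra.single k r * y).coeff l = r * y.coeff (l - k) := by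
  apply AddMonoidAlgebra.coeff_single_mul_eq_mul_coeff
  intro a _
  constructor
  · intro h
    omega
  · intro h
    omega

theorem cf_mono_mul (k l : ℤ) {m n p : Type*} [Fintype n] (X : Matrix m n B)
    (Y : Matrix n p B[T;T⁻¹]) : cf l (mono k X * Y) = X * cf (l - k) Y := by
  ext i j : 2
  simp only [cf, mono, Matrix.map_apply, Matrix.mul_apply, AddMonoidAlgebra.coeff_sum,
    Finsupp.finsetSum_apply, lin_coeff_single_mul]

theorem cf_add (l : ℤ) {m n : Type*} (X Y : Matrix m n B[T;T⁻¹]) :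
    cf l (X + Y) = cf l X + cf l Y := by
  ext i j : 2
  simp only [cf, Matrix.map_apply, Matrix.add_apply, AddMonoidAlgebra.coeff_add,
    Finsupp.add_apply]

theorem cf_mono (k l : ℤ) {m n : Type*} (X : Matrix m n B) :
    cf l (mono k X) = if k = l then X else 0 := by
  classical
  ext i j : 2
  simp only [cf, mono, Matrix.map_apply, AddMonoidAlgebra.coeff_single, Finsupp.single_apply]
  split_ifs <;> rfl

theorem cf_ext {m n : Type*} {X Y : Matrix m n B[T;T⁻¹]} (h : ∀ l, cf l X = cf l Y) : X = Y := by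
  ext i j : 1
  apply ext_coeff
  intro k
  exact congrFun (congrFun (h k) i) j

/-- degrees in `[0, d]` -/
def Bd (d : ℤ) {m n : Type*} (X : Matrix m n B[T;T⁻¹]) : Prop :=
  ∀ l, (l < 0 ∨ d < l) → cf l X = 0

theorem lin_exists_bound {m n : Type*} [Finite m] [Finite n] (X : Matrix m n B[T;T⁻¹]) :
    ∃ N : ℕ, ∀ l : ℤ, (l < -N ∨ (N : ℤ) < l) → cf l X = 0 := by
  classical
  have := Fintype.ofFinite m
  have := Fintype.ofFinite n
  refine ⟨∑ i, ∑ j, ∑ k ∈ (X i j).coeff.support, k.natAbs, ?_⟩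
  intro l hl
  ext i j : 2
  change (X i j).coeff l = 0
  by_contra hne
  have h1 : l ∈ (X i j).coeff.support := Finsupp.mem_support_iff.2 hne
  have h2 : l.natAbs ≤ ∑ k ∈ (X i j).coeff.support, k.natAbs :=
    Finset.single_le_sum (f := fun k : ℤ => k.natAbs) (fun _ _ => Nat.zero_le _) h1
  have h3 : ∑ k ∈ (X i j).coeff.support, k.natAbs ≤
      ∑ j, ∑ k ∈ (X i j).coeff.support, k.natAbs :=
    Finset.single_le_sum (f := fun j => ∑ k ∈ (X i j).coeff.support, k.natAbs)
      (fun _ _ => Nat.zero_le _) (Finset.mem_univ j)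
  have h4 : ∑ j, ∑ k ∈ (X i j).coeff.support, k.natAbs ≤
      ∑ i, ∑ j, ∑ k ∈ (X i j).coeff.support, k.natAbs :=
    Finset.single_le_sum (f := fun i => ∑ j, ∑ k ∈ (X i j).coeff.support, k.natAbs)
      (fun _ _ => Nat.zero_le _) (Finset.mem_univ i)
  omega

/-! ### idempotent powers in finite rings -/

theorem lin_pow_of_idem {A : Type*} [Monoid A] {x : A} (hx : x * x = x) (n : ℕ) (hn : 0 < n) :
    x ^ n = x := by
  induction n with
  | zero => omega
  | succ n ih =>
    rcases Nat.eq_zero_or_pos n with rfl | h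
    · simp
    · rw [pow_succ, ih h, hx]

theorem lin_exists_idem {A : Type*} [Monoid A] [Finite A] (x : A) :
    ∃ L : ℕ, 0 < L ∧ x ^ L * x ^ L = x ^ L := by
  obtain ⟨a, b, hab, h⟩ := Finite.exists_ne_map_eq_of_infinite (fun n : ℕ => x ^ n)
  wlog hlt : a < b generalizing a b
  · exact this b a hab.symm h.symm (by omega)
  have h : x ^ a = x ^ b := h
  have key : ∀ n, a ≤ n → x ^ (n + (b - a)) = x ^ n := by
    intro n hn
    obtain ⟨c, rfl⟩ := Nat.exists_eq_add_of_le hn
    have h1 : a + c + (b - a) = b + c := by omega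
    rw [h1, pow_add, pow_add, h]
  have key2 : ∀ k n, a ≤ n → x ^ (n + k * (b - a)) = x ^ n := by
    intro k
    induction k with
    | zero => intro n _; simp
    | succ k ih =>
      intro n hn
      rw [show n + (k + 1) * (b - a) = (n + k * (b - a)) + (b - a) by ring, key _ (by omega),
        ih n hn]
  refine ⟨(a + 1) * (b - a), Nat.mul_pos (by omega) (by omega), ?_⟩
  rw [← pow_add]
  apply key2
  nlinarith [Nat.sub_pos_of_lt hlt]

theorem lin_exists_idem_two {A : Type*} [Monoid A] [Finite A] (x y : A) :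
    ∃ L : ℕ, 0 < L ∧ x ^ L * x ^ L = x ^ L ∧ y ^ L * y ^ L = y ^ L := by
  obtain ⟨L, hL, h⟩ := lin_exists_idem x
  obtain ⟨M, hM, h'⟩ := lin_exists_idem y
  refine ⟨L * M, Nat.mul_pos hL hM, ?_, ?_⟩
  · rw [pow_mul, lin_pow_of_idem h M hM, h]
  · rw [mul_comm, pow_mul, lin_pow_of_idem h' L hL, h']

/-! ### unipotent units -/

/-- `1 - X` for nilpotent `X` -/
def nilU {A : Type*} [Ring A] (X : A) (L : ℕ) (h : X ^ L = 0) : Aˣ where
  val := 1 - X
  inv := ∑ i ∈ Finset.range L, X ^ i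
  val_inv := by rw [mul_neg_geom_sum, h, sub_zero]
  inv_val := by rw [geom_sum_mul_neg, h, sub_zero]

theorem mono_zero_pow {m : Type*} [Fintype m] [DecidableEq m] (X : Matrix m m B) (L : ℕ) :
    (mono 0 X) ^ L = mono 0 (X ^ L) := by
  induction L with
  | zero => rw [pow_zero, pow_zero, mono_one]
  | succ L ih => rw [pow_succ, ih, mono_mul, add_zero, pow_succ]

theorem lin_nil {m : Type*} [Fintype m] [DecidableEq m] (X : Matrix m m B) (k : ℤ) (L : ℕ)
    (h : X ^ L = 0) : (mono 0 X - mono k X) ^ L = 0 := by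
  have h1 : mono 0 X - mono k X = mono 0 X * (mono 0 1 - mono k 1) := by
    rw [mul_sub, mono_mul, mono_mul, mul_one, add_zero, zero_add]
  have h2 : Commute (mono 0 X) (mono 0 (1 : Matrix m m B) - mono k 1) := by
    change mono 0 X * _ = _ * mono 0 X
    rw [mul_sub, sub_mul, mono_mul, mono_mul, mono_mul, mono_mul, mul_one, one_mul, add_zero,
      zero_add, add_zero]
  rw [h1, h2.mul_pow, mono_zero_pow, h, mono_zero, zero_mul]

theorem cf_fromBlocks (l : ℤ) {a b c d : Type*} (X : Matrix a b B[T;T⁻¹])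
    (Y : Matrix a d B[T;T⁻¹]) (Z : Matrix c b B[T;T⁻¹]) (W : Matrix c d B[T;T⁻¹]) :
    cf l (fromBlocks X Y Z W) = fromBlocks (cf l X) (cf l Y) (cf l Z) (cf l W) :=
  fromBlocks_map _ _ _ _ _

theorem cf_neg (l : ℤ) {m n : Type*} (X : Matrix m n B[T;T⁻¹]) : cf l (-X) = - cf l X := by
  ext i j : 2
  simp only [cf, Matrix.map_apply, Matrix.neg_apply, AddMonoidAlgebra.coeff_neg,
    Finsupp.neg_apply]

theorem cf_sub (l : ℤ) {m n : Type*} (X Y : Matrix m n B[T;T⁻¹]) :
    cf l (X - Y) = cf l X - cf l Y := by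
  rw [sub_eq_add_neg, cf_add, cf_neg, sub_eq_add_neg]

theorem cf_one (l : ℤ) {m : Type*} [Fintype m] [DecidableEq m] :
    cf l (1 : Matrix m m B[T;T⁻¹]) = if 0 = l then 1 else 0 := by
  rw [← mono_one, cf_mono]

/-- upper elementary block matrix -/
def upU {Λ : Type*} [Ring Λ] {m : Type} [Fintype m] [DecidableEq m] (X : Matrix m m Λ) :
    (Matrix (m ⊕ m) (m ⊕ m) Λ)ˣ where
  val := fromBlocks 1 X 0 1
  inv := fromBlocks 1 (-X) 0 1
  val_inv := by simp [fromBlocks_multiply]
  inv_val := by simp [fromBlocks_multiply]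

/-- lower elementary block matrix -/
def loU {Λ : Type*} [Ring Λ] {m : Type} [Fintype m] [DecidableEq m] (X : Matrix m m Λ) :
    (Matrix (m ⊕ m) (m ⊕ m) Λ)ˣ where
  val := fromBlocks 1 0 X 1
  inv := fromBlocks 1 0 (-X) 1
  val_inv := by simp [fromBlocks_multiply]
  inv_val := by simp [fromBlocks_multiply]

/-- Higman's reduction to degree one -/
theorem lin_reduce {M : Type v} [AddCommGroup M] (Δ : StabHom B[T;T⁻¹] M)
    (hpos : ∀ {m : Type} [Fintype m] [DecidableEq m] (g : (Matrix m m B[T;T⁻¹])ˣ),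
      MPos (g : Matrix m m B[T;T⁻¹]) →
      MPos ((g⁻¹ : (Matrix m m B[T;T⁻¹])ˣ) : Matrix m m B[T;T⁻¹]) → Δ.D g = 0) (d : ℕ) :
    ∀ {m : Type} [Fintype m] [DecidableEq m] (g : (Matrix m m B[T;T⁻¹])ˣ),
      Bd ((d : ℤ) + 1) (g : Matrix m m B[T;T⁻¹]) →
      ∃ (n : Type) (_ : Fintype n) (_ : DecidableEq n) (h : (Matrix n n B[T;T⁻¹])ˣ),
        Bd 1 (h : Matrix n n B[T;T⁻¹]) ∧ Δ.D g = Δ.D h := by
  induction d with
  | zero =>
    intro m _ _ g hg
    refine ⟨m, inferInstance, inferInstance, g, ?_, rfl⟩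
    simpa using hg
  | succ d ih =>
    intro m _ _ g hg
    set c : Matrix m m B := cf ((d : ℤ) + 2) (g : Matrix m m B[T;T⁻¹]) with hc
    set G := upU (mono ((d : ℤ) + 1) c) * blk g (1 : (Matrix m m B[T;T⁻¹])ˣ) *
      loU (- mono 1 (1 : Matrix m m B)) with hG
    have hval : (G : Matrix (m ⊕ m) (m ⊕ m) B[T;T⁻¹]) =
        fromBlocks ((g : Matrix m m B[T;T⁻¹]) - mono ((d : ℤ) + 2) c) (mono ((d : ℤ) + 1) c)
          (- mono 1 (1 : Matrix m m B)) 1 := by
      change fromBlocks 1 (mono ((d : ℤ) + 1) c) 0 1 *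
        fromBlocks (g : Matrix m m B[T;T⁻¹]) 0 0 ((1 : (Matrix m m B[T;T⁻¹])ˣ) :
          Matrix m m B[T;T⁻¹]) * fromBlocks 1 0 (- mono 1 (1 : Matrix m m B)) 1 = _
      rw [fromBlocks_multiply, fromBlocks_multiply]
      congr 1
      · simp only [one_mul, mul_zero, add_zero, Units.val_one, mul_one, zero_add, mul_neg,
          mono_mul]
        rw [← sub_eq_add_neg]
        congr 2
      · simp
      · simp
      · simp
    have hD : Δ.D G = Δ.D g := by
      rw [hG, Δ.map_mul, Δ.map_mul, Δ.map_blk, Δ.map_one, add_zero]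
      have h1 : Δ.D (upU (mono ((d : ℤ) + 1) c)) = 0 := by
        apply hpos
        · exact MPos.fromBlocks MPos.one (mono_pos (by omega) _) MPos.zero MPos.one
        · exact MPos.fromBlocks MPos.one (mono_pos (by omega) _).neg MPos.zero MPos.one
      have h2 : Δ.D (loU (- mono 1 (1 : Matrix m m B))) = 0 := by
        apply hpos
        · exact MPos.fromBlocks MPos.one MPos.zero (mono_pos (by omega) _).neg MPos.one
        · exact MPos.fromBlocks MPos.one MPos.zero (mono_pos (by omega) _).neg.neg MPos.one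
      rw [h1, h2, zero_add, add_zero]
    have hB : Bd ((d : ℤ) + 1) (G : Matrix (m ⊕ m) (m ⊕ m) B[T;T⁻¹]) := by
      intro l hl
      rw [hval, cf_fromBlocks, cf_sub, cf_mono, cf_mono, cf_neg, cf_mono, cf_one]
      rw [if_neg (by omega : ¬ (d : ℤ) + 1 = l), if_neg (by omega : ¬ (1 : ℤ) = l),
        if_neg (by omega : ¬ (0 : ℤ) = l), neg_zero]
      by_cases h : (d : ℤ) + 2 = l
      · rw [if_pos h, ← h, ← hc, sub_self, fromBlocks_zero]
      · rw [if_neg h, hg l (by push_cast; omega), sub_zero, fromBlocks_zero]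
    obtain ⟨n, i1, i2, h, hh1, hh2⟩ := ih G hB
    exact ⟨n, i1, i2, h, hh1, by rw [← hD]; exact hh2⟩

/-- the two Fitting idempotents are orthogonal -/
theorem lin_orth {m : Type} [Fintype m] [DecidableEq m] (g : (Matrix m m B[T;T⁻¹])ˣ)
    (ν : Matrix m m B) (hg : (g : Matrix m m B[T;T⁻¹]) = mono 0 (1 - ν) + mono 1 ν) (L : ℕ)
    (hL : 0 < L) (he : ν ^ L * ν ^ L = ν ^ L)
    (hf : (1 - ν) ^ L * (1 - ν) ^ L = (1 - ν) ^ L) : ν ^ L * (1 - ν) ^ L = 0 := by
  have hcomm : Commute ν (1 - ν) := (Commute.one_right ν).sub_right (Commute.refl ν)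
  set k : Matrix m m B[T;T⁻¹] := ((g⁻¹ : (Matrix m m B[T;T⁻¹])ˣ) : Matrix m m B[T;T⁻¹]) with hk
  obtain ⟨h, hh⟩ : ∃ h, h = ν ^ L * (1 - ν) ^ L := ⟨_, rfl⟩
  rw [← hh]
  have hν : Commute h ν := by
    rw [hh]
    exact ((Commute.refl ν).pow_left L).mul_left (hcomm.symm.pow_left L)
  have hμ : Commute h (1 - ν) := by
    rw [hh]
    exact (hcomm.pow_left L).mul_left ((Commute.refl (1 - ν)).pow_left L)
  have hef : Commute (ν ^ L) ((1 - ν) ^ L) := hcomm.pow_pow L L
  have heh : ν ^ L * h = h := by rw [hh, ← mul_assoc, he]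
  have hfh : (1 - ν) ^ L * h = h := by rw [hh, hef.eq, ← mul_assoc, hf]
  have hgk : (g : Matrix m m B[T;T⁻¹]) * k = 1 := by rw [hk, Units.mul_inv]
  obtain ⟨N, hN⟩ := lin_exists_bound k
  have eqn : ∀ l : ℤ, (1 - ν) * (h * cf l k) + ν * (h * cf (l - 1) k) =
      if 0 = l then h else 0 := by
    intro l
    have h1 := congrArg (cf l) hgk
    rw [hg, add_mul, cf_add, cf_mono_mul, cf_mono_mul, cf_one, sub_zero] at h1
    have e1 : (1 - ν) * (h * cf l k) = h * ((1 - ν) * cf l k) := by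
      rw [← mul_assoc, ← hμ.eq, mul_assoc]
    have e2 : ν * (h * cf (l - 1) k) = h * (ν * cf (l - 1) k) := by
      rw [← mul_assoc, ← hν.eq, mul_assoc]
    rw [e1, e2, ← mul_add, h1]
    split_ifs <;> simp
  obtain ⟨L', rfl⟩ : ∃ L', L = L' + 1 := ⟨L - 1, by omega⟩
  have cancel1 : ∀ X, (1 - ν) * (h * X) = 0 → h * X = 0 := by
    intro X hX
    rw [← hfh, mul_assoc, pow_succ, mul_assoc, hX, mul_zero]
  have cancel2 : ∀ X, ν * (h * X) = 0 → h * X = 0 := by
    intro X hX
    rw [← heh, mul_assoc, pow_succ, mul_assoc, hX, mul_zero]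
  have up : ∀ n : ℕ, ∀ l : ℤ, l ≤ -(N : ℤ) - 1 + n → l < 0 → h * cf l k = 0 := by
    intro n
    induction n with
    | zero =>
      intro l hl _
      rw [hN l (by omega), mul_zero]
    | succ n ih =>
      intro l hl hl0
      by_cases hl' : l ≤ -(N : ℤ) - 1 + n
      · exact ih l hl' hl0
      · have h1 := eqn l
        rw [ih (l - 1) (by push_cast at hl; omega) (by omega), mul_zero, add_zero,
          if_neg (by omega)] at h1
        exact cancel1 _ h1
  have down : ∀ n : ℕ, ∀ l : ℤ, (N : ℤ) + 1 - n ≤ l → 0 ≤ l → h * cf l k = 0 := by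
    intro n
    induction n with
    | zero =>
      intro l hl _
      rw [hN l (by push_cast at hl; omega), mul_zero]
    | succ n ih =>
      intro l hl hl0
      by_cases hl' : (N : ℤ) + 1 - n ≤ l
      · exact ih l hl' hl0
      · have h1 := eqn (l + 1)
        rw [ih (l + 1) (by push_cast at hl; omega) (by omega), mul_zero, zero_add,
          if_neg (by omega), add_sub_cancel_right] at h1
        exact cancel2 _ h1
  have h0 := eqn 0
  rw [down (N + 1) 0 (by push_cast; omega) le_rfl,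
    up (N + 1) (0 - 1) (by push_cast; omega) (by omega), mul_zero, mul_zero, add_zero,
    if_pos rfl] at h0
  exact h0.symm

theorem lin_fac {m : Type*} [Fintype m] [DecidableEq m] (e q x y : Matrix m m B)
    (hxe : x * e = 0) (hxq : x * q = x) (hey : e * y = y) (hqy : q * y = 0) (hxy : x * y = 0) :
    (1 - (mono 0 x - mono 1 x)) * (mono 1 e + mono 0 q) * (1 - (mono 0 y - mono (-1) y)) =
      mono 0 (q - x + y) + mono 1 (e + x - y) := by
  have s1 : (1 - (mono 0 x - mono 1 x)) * (mono 1 e + mono 0 q) =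
      mono 1 e + mono 0 q - mono 0 x + mono 1 x := by
    simp only [sub_mul, mul_add, one_mul, mono_mul, hxe, hxq, mono_zero, add_zero, zero_add]
    abel
  have s2 : (mono 1 e + mono 0 q - mono 0 x + mono 1 x) * (mono 0 y - mono (-1) y) =
      mono 1 y - mono 0 y := by
    simp only [mul_sub, sub_mul, add_mul, mono_mul, hey, hqy, hxy, mono_zero, add_zero,
      sub_zero, add_neg_cancel]
  rw [s1, mul_sub, s2, mul_one, mono_add, mono_sub, mono_sub 1, mono_add]
  abel

end LinAux

theorem linearize {B : Type u} [Ring B] [Finite B] {M : Type v} [AddCommGroup M]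
    (Δ : StabHom B[T;T⁻¹] M)
    (hpos : ∀ {m : Type} [Fintype m] [DecidableEq m] (g : (Matrix m m B[T;T⁻¹])ˣ),
      (∀ i j, IsPos ((g : Matrix m m B[T;T⁻¹]) i j)) →
      (∀ i j, IsPos (((g⁻¹ : (Matrix m m B[T;T⁻¹])ˣ) : Matrix m m B[T;T⁻¹]) i j)) → Δ.D g = 0)
    (hneg : ∀ {m : Type} [Fintype m] [DecidableEq m] (g : (Matrix m m B[T;T⁻¹])ˣ),
      (∀ i j, IsNeg ((g : Matrix m m B[T;T⁻¹]) i j)) →
      (∀ i j, IsNeg (((g⁻¹ : (Matrix m m B[T;T⁻¹])ˣ) : Matrix m m B[T;T⁻¹]) i j)) → Δ.D g = 0)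
    (hT : ∀ {m : Type} [Fintype m] [DecidableEq m],
      Δ.D (tU 1 (1 : Matrix m m B) one_idem) = 0)
    {m : Type} [Fintype m] [DecidableEq m] (g : (Matrix m m B[T;T⁻¹])ˣ) :
    ∃ (n : Type) (_ : Fintype n) (_ : DecidableEq n) (e : Matrix n n B) (he : e * e = e),
      Δ.D g = Δ.D (tU 1 e he) := by
  have hpos' : ∀ {m : Type} [Fintype m] [DecidableEq m] (g : (Matrix m m B[T;T⁻¹])ˣ),
      MPos (g : Matrix m m B[T;T⁻¹]) →
      MPos ((g⁻¹ : (Matrix m m B[T;T⁻¹])ˣ) : Matrix m m B[T;T⁻¹]) → Δ.D g = 0 :=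
    fun g h1 h2 => hpos g h1 h2
  -- (a)
  obtain ⟨N, hN⟩ := lin_exists_bound (g : Matrix m m B[T;T⁻¹])
  set τ : (Matrix m m B[T;T⁻¹])ˣ := tU 1 (1 : Matrix m m B) one_idem with hτ
  have hτp : ∀ n : ℕ, ((τ ^ n : (Matrix m m B[T;T⁻¹])ˣ) : Matrix m m B[T;T⁻¹]) =
      mono (n : ℤ) 1 := by
    intro n
    induction n with
    | zero => simp [mono_one]
    | succ n ih =>
      rw [pow_succ, Units.val_mul, ih, hτ, tU_val, sub_self, mono_zero, add_zero, mono_mul,
        mul_one]
      push_cast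
      rfl
  have hτD : ∀ n : ℕ, Δ.D (τ ^ n) = 0 := by
    intro n
    induction n with
    | zero => rw [pow_zero, Δ.map_one]
    | succ n ih => rw [pow_succ, Δ.map_mul, ih, hT, add_zero]
  have hB1 : Bd (((2 * N : ℕ) : ℤ) + 1) ((τ ^ N * g : (Matrix m m B[T;T⁻¹])ˣ) :
      Matrix m m B[T;T⁻¹]) := by
    intro l hl
    rw [Units.val_mul, hτp, cf_mono_mul, one_mul]
    apply hN
    push_cast at hl
    omega
  obtain ⟨n, i1, i2, g1, hg1, hD1⟩ := lin_reduce Δ hpos' (2 * N) _ hB1
  rw [Δ.map_mul, hτD, zero_add] at hD1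
  rw [hD1]
  clear hD1 hB1 hτD hτp hτ τ hN N g
  -- (c)
  set g₀ := cf 0 (g1 : Matrix n n B[T;T⁻¹]) with hg₀
  set g₁ := cf 1 (g1 : Matrix n n B[T;T⁻¹]) with hg₁
  have hval : (g1 : Matrix n n B[T;T⁻¹]) = mono 0 g₀ + mono 1 g₁ := by
    apply cf_ext
    intro l
    rw [cf_add, cf_mono, cf_mono]
    by_cases h0 : (0 : ℤ) = l
    · rw [if_pos h0, if_neg (by omega), add_zero, ← h0]
    · by_cases h1 : (1 : ℤ) = l
      · rw [if_neg h0, if_pos h1, zero_add, ← h1]
      · rw [if_neg h0, if_neg h1, add_zero]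
        exact hg1 l (by omega)
  have hev : ∀ (k : ℤ) (X : Matrix n n B), (mono k X).map (ev1 B) = X := by
    intro k X
    ext i j : 2
    exact ev1_single k _
  set cU : (Matrix n n B)ˣ := mapU (ev1 B) g1 with hcU
  have hcv : (cU : Matrix n n B) = g₀ + g₁ := by
    change (g1 : Matrix n n B[T;T⁻¹]).map (ev1 B) = _
    rw [hval, Matrix.map_add _ (map_add _), hev, hev]
  set ν : Matrix n n B := ((cU⁻¹ : (Matrix n n B)ˣ) : Matrix n n B) * g₁ with hν
  have hcst : ∀ X : Matrix n n B, X.map (cst B) = mono 0 X := fun X => rfl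
  have hg0 : ((cU⁻¹ : (Matrix n n B)ˣ) : Matrix n n B) * g₀ = 1 - ν := by
    rw [hν, eq_sub_iff_add_eq, ← mul_add, ← hcv, Units.inv_mul]
  obtain ⟨g2, hg2⟩ : ∃ g2 : (Matrix n n B[T;T⁻¹])ˣ, g2 = (mapU (cst B) cU)⁻¹ * g1 := ⟨_, rfl⟩
  have hD2 : Δ.D g2 = Δ.D g1 := by
    rw [hg2, Δ.map_mul, Δ.map_inv, hpos', neg_zero, zero_add]
    · exact mono_pos le_rfl _
    · exact mono_pos le_rfl _
  have hval2 : (g2 : Matrix n n B[T;T⁻¹]) = mono 0 (1 - ν) + mono 1 ν := by
    rw [hg2, Units.val_mul]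
    change (((cU⁻¹ : (Matrix n n B)ˣ) : Matrix n n B)).map (cst B) * _ = _
    rw [hcst, hval, mul_add, mono_mul, mono_mul, hg0, ← hν, add_zero, zero_add]
  rw [← hD2]
  -- (d)
  obtain ⟨L, hL, he, hf⟩ := lin_exists_idem_two ν (1 - ν)
  have horth := lin_orth g2 ν hval2 L hL he hf
  have hcomm : Commute ν (1 - ν) := (Commute.one_right ν).sub_right (Commute.refl ν)
  set e : Matrix n n B := ν ^ L with hedef
  have heν : Commute e ν := (Commute.refl ν).pow_left L
  have heμ : Commute e (1 - ν) := hcomm.pow_left L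
  -- (e)
  have hx : ((1 - e) * ν) ^ L = 0 := by
    have h1 : Commute (1 - e) ν := (Commute.one_left ν).sub_left heν
    rw [h1.mul_pow, ← hedef]
    obtain ⟨L', rfl⟩ : ∃ L', L = L' + 1 := ⟨L - 1, by omega⟩
    rw [pow_succ, mul_assoc, sub_mul, one_mul, he, sub_self, mul_zero]
  have hy : (e * (1 - ν)) ^ L = 0 := by
    rw [heμ.mul_pow]
    rw [lin_pow_of_idem he L hL, horth]
  refine ⟨n, i1, i2, e, he, ?_⟩
  have hX := lin_nil ((1 - e) * ν) 1 L hx
  have hY := lin_nil (e * (1 - ν)) (-1) L hy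
  have hfac : g2 = nilU _ L hX * tU 1 e he * nilU _ L hY := by
    apply Units.ext
    rw [Units.val_mul, Units.val_mul, hval2]
    change _ = (1 - (mono 0 ((1 - e) * ν) - mono 1 ((1 - e) * ν))) *
      (mono 1 e + mono 0 (1 - e)) * (1 - (mono 0 (e * (1 - ν)) - mono (-1) (e * (1 - ν))))
    have a1 : (1 - e) * ν * e = 0 := by
      rw [mul_assoc, ← heν.eq, ← mul_assoc, sub_mul, one_mul, he, sub_self, zero_mul]
    have a2 : (1 - e) * ν * (1 - e) = (1 - e) * ν := by rw [mul_sub, mul_one, a1, sub_zero]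
    have a3 : e * (e * (1 - ν)) = e * (1 - ν) := by rw [← mul_assoc, he]
    have a4 : (1 - e) * (e * (1 - ν)) = 0 := by
      rw [← mul_assoc, sub_mul, one_mul, he, sub_self, zero_mul]
    have a5 : (1 - e) * ν * (e * (1 - ν)) = 0 := by rw [← mul_assoc, a1, zero_mul]
    rw [lin_fac e (1 - e) _ _ a1 a2 a3 a4 a5]
    have t1 : ν = e + (1 - e) * ν - e * (1 - ν) := by noncomm_ring
    have t2 : 1 - ν = 1 - e - (1 - e) * ν + e * (1 - ν) := by noncomm_ring
    rw [← t1, ← t2]
  rw [hfac, Δ.map_mul, Δ.map_mul]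
  have hp : Δ.D (nilU _ L hX) = 0 := by
    apply hpos'
    · exact MPos.one.sub ((mono_pos le_rfl _).sub (mono_pos (by omega) _))
    · exact MPos.geom ((mono_pos le_rfl _).sub (mono_pos (by omega) _)) L
  have hn : Δ.D (nilU _ L hY) = 0 := by
    apply hneg
    · exact MNeg.one.sub ((mono_neg le_rfl _).sub (mono_neg (by omega) _))
    · exact MNeg.geom ((mono_neg le_rfl _).sub (mono_neg (by omega) _)) L
  rw [hp, hn, zero_add, add_zero]

end Pool.Agent.H95.KM

end
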