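import Pool.Agent.H94.FJ.M02

/-! The parts of this file: H71.FJ.Cyc, H71.FJ.Group, H71.FJ.Coeff, H71.FJ.Artin, H71.FJ.Detect, H95.WH.ArtRel, H95.WH.SmN. -/

section

/-!
# Trace functionals on group rings; vanishing of traces at `p`-singular elements (abelian case)
-/

set_option autoImplicit false

open Matrix

universe u v w

namespace Pool.Agent.H71.FJ

section ClsFun

variable {B : Type u} [CommRing B] {G : Type v} [Group G]

/-- The functional `∑ a_g g ↦ ∑ a_g f(g)` on a group ring. -/
noncomputable def clsFun (f : G → B) : MonoidAlgebra B G →+ B where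
  toFun a := a.coeff.sum fun g b => b * f g
  map_zero' := by simp
  map_add' x y := by
    classical
    rw [MonoidAlgebra.coeff_add, Finsupp.sum_add_index'] <;> simp [add_mul]

theorem clsFun_single (f : G → B) (g : G) (b : B) :
    clsFun f (MonoidAlgebra.single g b) = b * f g := by
  change (MonoidAlgebra.single g b).coeff.sum (fun g b => b * f g) = _
  rw [MonoidAlgebra.coeff_single, Finsupp.sum_single_index (by simp)]

theorem clsFun_comm (f : G → B) (hf : ∀ x y, f (x * y) = f (y * x)) (x y : MonoidAlgebra B G) :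
    clsFun f (x * y) = clsFun f (y * x) := by
  induction x using MonoidAlgebra.induction_linear with
  | zero => rw [zero_mul, mul_zero]
  | add x x' hx hx' => rw [add_mul, mul_add, map_add, map_add, hx, hx']
  | single g b =>
    induction y using MonoidAlgebra.induction_linear with
    | zero => rw [zero_mul, mul_zero]
    | add y y' hy hy' => rw [add_mul, mul_add, map_add, map_add, hy, hy']
    | single h c =>
      rw [MonoidAlgebra.single_mul_single, MonoidAlgebra.single_mul_single, clsFun_single,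
        clsFun_single, hf, mul_comm b c]

theorem clsFun_add (f g : G → B) (x : MonoidAlgebra B G) :
    clsFun (fun a => f a + g a) x = clsFun f x + clsFun g x := by
  induction x using MonoidAlgebra.induction_linear with
  | zero => simp
  | add x x' hx hx' => rw [map_add, map_add, map_add, hx, hx']; ring
  | single h c => rw [clsFun_single, clsFun_single, clsFun_single]; ring

theorem clsFun_mul (m : B) (f : G → B) (x : MonoidAlgebra B G) :
    clsFun (fun a => m * f a) x = m * clsFun f x := by
  induction x using MonoidAlgebra.induction_linear with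
  | zero => simp
  | add x x' hx hx' => rw [map_add, map_add, hx, hx']; ring
  | single h c => rw [clsFun_single, clsFun_single]; ring

/-- The functional on `K₀` of a group ring defined by a class function. -/
noncomputable def T (f : G → B) (hf : ∀ x y, f (x * y) = f (y * x)) :
    K0 (MonoidAlgebra B G) →+ B := K0.tr (clsFun f) (clsFun_comm f hf)

theorem T_congr {f g : G → B} (hf : ∀ x y, f (x * y) = f (y * x))
    (hg : ∀ x y, g (x * y) = g (y * x)) (h : ∀ a, f a = g a) (x : K0 (MonoidAlgebra B G)) :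
    T f hf x = T g hg x := by
  have : f = g := funext h
  subst this
  rfl

theorem T_sum {ι : Type*} (s : Finset ι) (m : ι → B) (f : ι → G → B)
    (hf : ∀ i x y, f i (x * y) = f i (y * x))
    (hs : ∀ x y, (∑ i ∈ s, m i * f i (x * y)) = ∑ i ∈ s, m i * f i (y * x))
    (x : K0 (MonoidAlgebra B G)) :
    T (fun a => ∑ i ∈ s, m i * f i a) hs x = ∑ i ∈ s, m i * T (f i) (hf i) x := by
  have key : T (fun a => ∑ i ∈ s, m i * f i a) hs =
      ∑ i ∈ s, (AddMonoidHom.mulLeft (m i)).comp (T (f i) (hf i)) := by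
    apply K0.hom_ext
    intro a
    rw [AddMonoidHom.finsetSum_apply]
    simp only [AddMonoidHom.comp_apply, AddMonoidHom.coe_mulLeft, T, K0.tr_mk]
    induction trace a.mat using MonoidAlgebra.induction_linear with
    | zero => simp
    | add x x' hx hx' =>
      rw [map_add, hx, hx', ← Finset.sum_add_distrib]
      exact Finset.sum_congr rfl (fun i _ => by rw [map_add, mul_add])
    | single h c =>
      rw [clsFun_single, Finset.mul_sum]
      exact Finset.sum_congr rfl (fun i _ => by rw [clsFun_single]; ring)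
  rw [key, AddMonoidHom.finsetSum_apply]
  rfl

theorem T_zero (x : K0 (MonoidAlgebra B G)) (h : ∀ x y : G, (fun _ => (0 : B)) (x * y) =
    (fun _ => (0 : B)) (y * x)) : T (fun _ => 0) h x = 0 := by
  have : T (fun _ : G => (0 : B)) h = 0 := by
    apply K0.hom_ext
    intro a
    simp only [T, K0.tr_mk, AddMonoidHom.zero_apply]
    induction trace a.mat using MonoidAlgebra.induction_linear with
    | zero => simp
    | add x x' hx hx' => rw [map_add, hx, hx', add_zero]
    | single h c => rw [clsFun_single, mul_zero]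
  rw [this]
  rfl

/-- compatibility with homomorphisms of groups -/
theorem T_mapDomain {H : Type w} [Group H] (ι : H →* G) (f : G → B)
    (hf : ∀ x y, f (x * y) = f (y * x)) (x : K0 (MonoidAlgebra B H)) :
    T f hf (K0.map (MonoidAlgebra.mapDomainRingHom B ι) x) =
      T (fun h => f (ι h)) (fun x y => by simp only [map_mul]; exact hf _ _) x := by
  rw [T, K0.tr_map]
  refine K0.tr_congr _ _ ?_ x
  ext a b
  simp [clsFun_single]

end ClsFun

open Classical in
/-- the indicator function of the element `c` -/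
noncomputable def dlt {G : Type v} (B : Type u) [CommRing B] (c g : G) : B :=
  if g = c then 1 else 0

theorem dlt_self {G : Type v} (B : Type u) [CommRing B] (c : G) : dlt B c c = 1 := if_pos rfl

theorem dlt_ne {G : Type v} (B : Type u) [CommRing B] {c g : G} (h : g ≠ c) : dlt B c g = 0 :=
  if_neg h

section Abelian

variable {B : Type u} [CommRing B] {K : Type v} [Field K] {C : Type w} [CommGroup C]

theorem charP_monoidAlgebra (p : ℕ) [CharP K p] : CharP (MonoidAlgebra K C) p :=
  charP_of_injective_algebraMap (R := K) (FaithfulSMul.algebraMap_injective K (MonoidAlgebra K C)) p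

/-- a differing pair of commuting group elements whose `q`-th powers agree, `q` a power of `p` -/
theorem single_sub_nilpotent (p : ℕ) [Fact p.Prime] [CharP K p] {φ : B →+* K} (hn : NilKer φ)
    {c d : C} {a : ℕ} (h : c ^ p ^ a = d ^ p ^ a) :
    IsNilpotent (MonoidAlgebra.single c (1 : B) - MonoidAlgebra.single d 1) := by
  have := charP_monoidAlgebra (K := K) (C := C) p
  have h1 : MonoidAlgebra.mapRingHom C φ
      ((MonoidAlgebra.single c (1 : B) - MonoidAlgebra.single d 1) ^ p ^ a) = 0 := by
    rw [map_pow, map_sub, MonoidAlgebra.mapRingHom_single, MonoidAlgebra.mapRingHom_single,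
      map_one, sub_pow_char_pow, MonoidAlgebra.single_pow, MonoidAlgebra.single_pow, h, sub_self]
  have h2 := (hn.monoidAlgebra C).isNilpotent h1
  exact IsNilpotent.of_pow h2

theorem abelian_nilKer {φ : B →+* K} (hn : NilKer φ) (p : ℕ) [Fact p.Prime] [CharP K p]
    [Finite C] (ψ : C →* C) (a : ℕ) (hψ : ∀ c, c ^ p ^ a = (ψ c) ^ p ^ a) :
    NilKer (MonoidAlgebra.mapDomainRingHom B ψ) := by
  set J : Ideal (MonoidAlgebra B C) := Ideal.span (Set.range fun c : C =>
    MonoidAlgebra.single c (1 : B) - MonoidAlgebra.single (ψ c) 1) with hJ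
  have hfg : J.FG := by
    have hfin : (Set.range fun c : C =>
      MonoidAlgebra.single c (1 : B) - MonoidAlgebra.single (ψ c) 1).Finite := Set.finite_range _
    exact ⟨hfin.toFinset, by rw [hfin.coe_toFinset]⟩
  have hnil : IsNilpotent J := by
    rw [hfg.isNilpotent_iff_le_nilradical, hJ, Ideal.span_le]
    rintro _ ⟨c, rfl⟩
    exact single_sub_nilpotent (K := K) p hn (hψ c)
  have hmem : ∀ x : MonoidAlgebra B C, x - MonoidAlgebra.mapDomainRingHom B ψ x ∈ J := by
    intro x
    induction x using MonoidAlgebra.induction_linear with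
    | zero => simp
    | add x y hx hy =>
      rw [map_add]
      have : x + y - (MonoidAlgebra.mapDomainRingHom B ψ x + MonoidAlgebra.mapDomainRingHom B ψ y) =
        (x - MonoidAlgebra.mapDomainRingHom B ψ x) + (y - MonoidAlgebra.mapDomainRingHom B ψ y) := by
        ring
      rw [this]
      exact J.add_mem hx hy
    | single c b =>
      have : MonoidAlgebra.single c b - MonoidAlgebra.mapDomainRingHom B ψ
          (MonoidAlgebra.single c b) = MonoidAlgebra.single 1 b *
          (MonoidAlgebra.single c (1 : B) - MonoidAlgebra.single (ψ c) 1) := by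
        rw [mul_sub, MonoidAlgebra.single_mul_single, MonoidAlgebra.single_mul_single]
        simp
      rw [this]
      exact J.mul_mem_left _ (Ideal.subset_span ⟨c, rfl⟩)
  obtain ⟨N, hN⟩ := hnil
  refine ⟨N, fun j => (J ^ j).toAddSubgroup, ?_, ?_, ?_⟩
  · intro x
    change x ∈ J ^ 0
    simp
  · intro x hx
    change x ∈ J ^ N at hx
    rw [hN] at hx
    simpa using hx
  · intro j x y hx hy
    change y ∈ J ^ j at hy
    change x * y ∈ J ^ (j + 1)
    have hxJ : x ∈ J := by
      have := hmem x
      rwa [hx, sub_zero] at this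
    rw [pow_succ']
    exact Ideal.mul_mem_mul hxJ hy

/-- If the order of `c` vanishes in the field `K`, `c` an element of the finite abelian group `C`,
and `B → K` has nilpotent kernel, then the coefficient at `c` of the trace of
an idempotent matrix over `B[C]` vanishes. -/
theorem abelian_vanish [Finite C] {φ : B →+* K} (hn : NilKer φ) (c : C)
    (hc : (orderOf c : K) = 0) (y : K0 (MonoidAlgebra B C))
    (hf : ∀ x y : C, dlt B c (x * y) = dlt B c (y * x)) :
    T (dlt B c) hf y = 0 := by
  obtain ⟨p, hp⟩ := CharP.exists K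
  have hpos : 0 < orderOf c := orderOf_pos c
  have hp0 : p ≠ 0 := by
    rintro rfl
    have : CharZero K := CharP.charP_to_charZero K
    exact hpos.ne' (by exact_mod_cast hc)
  have : Fact p.Prime := ⟨(CharP.char_is_prime_or_zero K p).resolve_right hp0⟩
  have hprime : p.Prime := Fact.out
  have hpc : p ∣ orderOf c := (CharP.cast_eq_zero_iff K p _).1 hc
  obtain ⟨a, m, hm, hN⟩ := Nat.exists_eq_pow_mul_and_not_dvd (Nat.card_pos (α := C)).ne' p
    hprime.one_lt.ne'
  have hcop : Nat.Coprime (p ^ a) m :=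
    Nat.Coprime.pow_left a ((Nat.Prime.coprime_iff_not_dvd hprime).2 hm)
  obtain ⟨s, hs1, hs2⟩ := Nat.chineseRemainder hcop 0 1
  have hpow : ∀ g : C, g ^ (Nat.card C) = 1 := fun g => pow_card_eq_one'
  have hmod : ∀ (g : C) {i j : ℕ}, i ≡ j [MOD Nat.card C] → g ^ i = g ^ j := by
    intro g i j hij
    rw [pow_eq_pow_iff_modEq]
    exact hij.of_dvd (orderOf_dvd_natCard g)
  let ψ : C →* C := powMonoidHom s
  have hψψ : ψ.comp ψ = ψ := by
    ext g
    simp only [ψ, MonoidHom.comp_apply, powMonoidHom_apply]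
    rw [← pow_mul]
    apply hmod
    rw [hN]
    refine (Nat.modEq_and_modEq_iff_modEq_mul hcop).1 ⟨?_, ?_⟩
    · calc s * s ≡ 0 * 0 [MOD p ^ a] := hs1.mul hs1
        _ = 0 := rfl
        _ ≡ s [MOD p ^ a] := hs1.symm
    · calc s * s ≡ 1 * s [MOD m] := hs2.mul_right s
        _ = s := one_mul s
  have hψa : ∀ g, g ^ p ^ a = (ψ g) ^ p ^ a := by
    intro g
    simp only [ψ, powMonoidHom_apply]
    rw [← pow_mul]
    apply hmod
    rw [hN]
    refine (Nat.modEq_and_modEq_iff_modEq_mul hcop).1 ⟨?_, ?_⟩
    · calc p ^ a ≡ 0 [MOD p ^ a] := (Nat.modEq_zero_iff_dvd.2 dvd_rfl)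
        _ ≡ s * p ^ a [MOD p ^ a] := (Nat.modEq_zero_iff_dvd.2 (Dvd.intro_left s rfl)).symm
    · calc p ^ a = 1 * p ^ a := (one_mul _).symm
        _ ≡ s * p ^ a [MOD m] := (hs2.symm).mul_right _
  have hnk := abelian_nilKer (K := K) hn p ψ a hψa
  let θ := MonoidAlgebra.mapDomainRingHom B ψ
  have hq : K0.map θ.rangeRestrict (K0.map θ y) = K0.map θ.rangeRestrict y := by
    rw [K0.map_map]
    have heq : θ.rangeRestrict.comp θ = θ.rangeRestrict := by
      refine RingHom.ext fun x => Subtype.ext ?_
      change θ (θ x) = θ x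
      have : (θ.comp θ) x = θ x := by
        rw [← MonoidAlgebra.mapDomainRingHom_comp, hψψ]
      exact this
    rw [heq]
  have hnk' : NilKer θ.rangeRestrict := hnk.mono (fun x hx => by
    have := congrArg Subtype.val hx
    exact this)
  have hθ : K0.map θ y = y := K0.map_injective θ.rangeRestrict_surjective hnk' hq
  rw [← hθ, T_mapDomain]
  have hzero : ∀ g, dlt B c (ψ g) = 0 := by
    intro g
    apply dlt_ne
    intro hg
    have h1 : orderOf c ∣ m := by
      apply orderOf_dvd_of_pow_eq_one
      rw [← hg]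
      simp only [ψ, powMonoidHom_apply]
      rw [← pow_mul]
      have h2 : s * m ≡ 0 [MOD Nat.card C] := by
        rw [hN]
        refine (Nat.modEq_and_modEq_iff_modEq_mul hcop).1 ⟨?_, ?_⟩
        · calc s * m ≡ 0 * m [MOD p ^ a] := hs1.mul_right m
            _ = 0 := zero_mul m
        · exact (Nat.modEq_zero_iff_dvd.2 (Dvd.intro_left s rfl))
      have := hmod g h2
      rwa [pow_zero] at this
    exact hm (hpc.trans h1)
  rw [T_congr _ (fun _ _ => rfl) hzero]
  exact T_zero _ _

end Abelian

end Pool.Agent.H71.FJ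

end

section

/-!
# Restriction and twisted permutation representations
-/

set_option autoImplicit false

open Matrix
open scoped Classical

universe u v w

namespace Pool.Agent.H71.FJ

section Perm

variable (R : Type u) [CommRing R] {F : Type v} [Group F]

theorem out_mem_iff (D : Subgroup F) (h : F) (x y : F ⧸ D) :
    x.out⁻¹ * h * y.out ∈ D ↔ x = h • y := by
  have h1 : h • y = ((h * y.out : F) : F ⧸ D) := by
    conv_lhs => rw [← QuotientGroup.out_eq' y]
    rfl
  rw [h1]
  conv_rhs => rw [← QuotientGroup.out_eq' x]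
  rw [QuotientGroup.eq, mul_assoc]

/-- The monomial matrix over `R[D]` of left multiplication by `h` on the free right `R[D]`-module
`R[F]`. -/
noncomputable def lamMat (D : Subgroup F) (h : F) :
    Matrix (F ⧸ D) (F ⧸ D) (MonoidAlgebra R D) :=
  Matrix.of fun x y => if hh : x.out⁻¹ * h * y.out ∈ D then
    MonoidAlgebra.single (⟨x.out⁻¹ * h * y.out, hh⟩ : D) 1 else 0

/-- The restriction homomorphism `R[F] → Mat_{F/D}(R[D])`. -/
noncomputable def lam (D : Subgroup F) [Fintype (F ⧸ D)] :
    MonoidAlgebra R F →ₐ[R] Matrix (F ⧸ D) (F ⧸ D) (MonoidAlgebra R D) :=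
  MonoidAlgebra.lift R _ F
    { toFun := lamMat R D
      map_one' := by
        ext x y : 1
        rw [lamMat, of_apply, Matrix.one_apply]
        by_cases hxy : x = y
        · subst hxy
          have : x.out⁻¹ * 1 * x.out ∈ D := by simp
          rw [dif_pos this, if_pos rfl, MonoidAlgebra.one_def]
          refine congrArg (fun g : D => MonoidAlgebra.single g (1 : R)) (Subtype.ext ?_)
          simp
        · rw [dif_neg, if_neg hxy]
          rw [out_mem_iff, one_smul]
          exact hxy
      map_mul' := by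
        intro h h'
        ext x z : 1
        rw [Matrix.mul_apply, Finset.sum_eq_single (h' • z)]
        · simp only [lamMat, of_apply]
          have h1 : (h' • z).out⁻¹ * h' * z.out ∈ D := (out_mem_iff D h' _ z).2 rfl
          rw [dif_pos h1]
          by_cases h2 : x.out⁻¹ * h * (h' • z).out ∈ D
          · have h3 : x.out⁻¹ * (h * h') * z.out ∈ D := by
              have := D.mul_mem h2 h1
              have e : x.out⁻¹ * h * (h' • z).out * ((h' • z).out⁻¹ * h' * z.out) =
                x.out⁻¹ * (h * h') * z.out := by group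
              rwa [e] at this
            rw [dif_pos h2, dif_pos h3, MonoidAlgebra.single_mul_single, one_mul]
            refine congrArg (fun g : D => MonoidAlgebra.single g (1 : R)) (Subtype.ext ?_)
            simp only [Subgroup.coe_mul]
            group
          · have h3 : ¬ x.out⁻¹ * (h * h') * z.out ∈ D := by
              intro h3
              apply h2
              rw [out_mem_iff] at h3 ⊢
              rw [h3, mul_smul]
            rw [dif_neg h2, dif_neg h3, zero_mul]
        · intro y _ hy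
          simp only [lamMat, of_apply]
          have : ¬ y.out⁻¹ * h' * z.out ∈ D := by
            rw [out_mem_iff]
            exact hy
          rw [dif_neg this, mul_zero]
        · intro h1
          exact absurd (Finset.mem_univ _) h1 }

theorem lam_single (D : Subgroup F) [Fintype (F ⧸ D)] (h : F) (r : R) (x y : F ⧸ D) :
    lam R D (MonoidAlgebra.single h r) x y = if hh : x.out⁻¹ * h * y.out ∈ D then
      MonoidAlgebra.single (⟨x.out⁻¹ * h * y.out, hh⟩ : D) r else 0 := by
  rw [lam, MonoidAlgebra.lift_single]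
  change r • (lamMat R D h) x y = _
  rw [lamMat, of_apply]
  split_ifs
  · rw [MonoidAlgebra.smul_single, smul_eq_mul, mul_one]
  · rw [smul_zero]

/-- The twisted permutation representation `R[F] → Mat_X(R[F])`. -/
noncomputable def tw (X : Type w) [Fintype X] [DecidableEq X] [MulAction F X] :
    MonoidAlgebra R F →ₐ[R] Matrix X X (MonoidAlgebra R F) :=
  MonoidAlgebra.lift R _ F
    { toFun := fun h => Matrix.of fun x y => if x = h • y then MonoidAlgebra.single h 1 else 0
      map_one' := by
        ext x y : 1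
        rw [of_apply, Matrix.one_apply, one_smul, MonoidAlgebra.one_def]
      map_mul' := by
        intro h h'
        ext x z : 1
        rw [Matrix.mul_apply, Finset.sum_eq_single (h' • z)]
        · simp only [of_apply, if_true]
          by_cases h2 : x = h • h' • z
          · rw [if_pos h2, if_pos (by rw [h2, mul_smul]), MonoidAlgebra.single_mul_single, one_mul]
          · rw [if_neg h2, if_neg (by rw [mul_smul]; exact h2), zero_mul]
        · intro y _ hy
          simp only [of_apply]
          rw [if_neg hy, mul_zero]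
        · intro h1
          exact absurd (Finset.mem_univ _) h1 }

theorem tw_single (X : Type w) [Fintype X] [DecidableEq X] [MulAction F X] (h : F) (r : R) (x y : X) :
    tw R X (MonoidAlgebra.single h r) x y = if x = h • y then MonoidAlgebra.single h r else 0 := by
  rw [tw, MonoidAlgebra.lift_single]
  change r • (if x = h • y then MonoidAlgebra.single h (1 : R) else 0) = _
  split_ifs
  · rw [MonoidAlgebra.smul_single, smul_eq_mul, mul_one]
  · rw [smul_zero]

/-- The permutation representation `R[F] → Mat_X(R)`. -/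
noncomputable def perm (X : Type w) [Fintype X] [DecidableEq X] [MulAction F X] :
    MonoidAlgebra R F →ₐ[R] Matrix X X R :=
  MonoidAlgebra.lift R _ F
    { toFun := fun h => Matrix.of fun x y => if x = h • y then 1 else 0
      map_one' := by
        ext x y : 1
        rw [of_apply, Matrix.one_apply, one_smul]
      map_mul' := by
        intro h h'
        ext x z : 1
        rw [Matrix.mul_apply, Finset.sum_eq_single (h' • z)]
        · simp only [of_apply, if_true]
          by_cases h2 : x = h • h' • z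
          · rw [if_pos h2, if_pos (by rw [h2, mul_smul]), one_mul]
          · rw [if_neg h2, if_neg (by rw [mul_smul]; exact h2), zero_mul]
        · intro y _ hy
          simp only [of_apply]
          rw [if_neg hy, mul_zero]
        · intro h1
          exact absurd (Finset.mem_univ _) h1 }

theorem perm_single (X : Type w) [Fintype X] [DecidableEq X] [MulAction F X] (h : F) (r : R) (x y : X) :
    perm R X (MonoidAlgebra.single h r) x y = if x = h • y then r else 0 := by
  rw [perm, MonoidAlgebra.lift_single]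
  change r • (if x = h • y then (1 : R) else 0) = _
  split_ifs <;> simp

/-- `lam` as a ring homomorphism -/
noncomputable abbrev lamR (D : Subgroup F) [Fintype (F ⧸ D)] :
    MonoidAlgebra R F →+* Matrix (F ⧸ D) (F ⧸ D) (MonoidAlgebra R D) := (lam R D).toRingHom

/-- `tw` as a ring homomorphism -/
noncomputable abbrev twR (X : Type w) [Fintype X] [DecidableEq X] [MulAction F X] :
    MonoidAlgebra R F →+* Matrix X X (MonoidAlgebra R F) := (tw R X).toRingHom

/-- `perm` as a ring homomorphism -/
noncomputable abbrev permR (X : Type w) [Fintype X] [DecidableEq X] [MulAction F X] :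
    MonoidAlgebra R F →+* Matrix X X R := (perm R X).toRingHom

/-- Inclusion of group rings of subgroups. -/
noncomputable abbrev incl (D : Subgroup F) : MonoidAlgebra R D →+* MonoidAlgebra R F :=
  MonoidAlgebra.mapDomainRingHom R D.subtype

/-- Restriction followed by induction is the twist by the permutation representation. -/
theorem ind_res (D : Subgroup F) [Fintype (F ⧸ D)] (x : K0 (MonoidAlgebra R F)) :
    K0.map (incl R D) (K0.push (lamR R D) x) = K0.push (twR R (F ⧸ D)) x := by
  rw [K0.map_push]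
  symm
  refine K0.push_congr _ _ (diagonal fun x : F ⧸ D => MonoidAlgebra.single x.out (1 : R))
    (diagonal fun x : F ⧸ D => MonoidAlgebra.single x.out⁻¹ (1 : R)) ?_ ?_ ?_ x
  · rw [diagonal_mul_diagonal]
    simp only [MonoidAlgebra.single_mul_single, mul_inv_cancel, one_mul, ← MonoidAlgebra.one_def]
    exact diagonal_one
  · rw [diagonal_mul_diagonal]
    simp only [MonoidAlgebra.single_mul_single, inv_mul_cancel, one_mul, ← MonoidAlgebra.one_def]
    exact diagonal_one
  · intro r
    induction r using MonoidAlgebra.induction_linear with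
    | zero => simp
    | add a b ha hb => rw [map_add, map_add, Matrix.mul_add, Matrix.add_mul, ha, hb]
    | single h r =>
      ext x y : 1
      rw [Matrix.diagonal_mul, Matrix.mul_diagonal]
      change _ * (incl R D) (lam R D (MonoidAlgebra.single h r) x y) =
        tw R (F ⧸ D) (MonoidAlgebra.single h r) x y * _
      rw [lam_single, tw_single]
      by_cases hh : x.out⁻¹ * h * y.out ∈ D
      · rw [dif_pos hh, if_pos ((out_mem_iff D h x y).1 hh)]
        simp only [incl, MonoidAlgebra.mapDomainRingHom_apply, MonoidAlgebra.mapDomain_single,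
          MonoidAlgebra.single_mul_single, Subgroup.coe_subtype, one_mul, mul_one]
        congr 1
        group
      · rw [dif_neg hh, if_neg (fun h' => hh ((out_mem_iff D h x y).2 h')), map_zero, mul_zero,
          zero_mul]

/-- the trace of an idempotent matrix under a representation -/
theorem tr_push_rep {J : Type*} [Fintype J] [DecidableEq J]
    (ρ : MonoidAlgebra R F →ₐ[R] Matrix J J R)
    (hf : ∀ x y : F, trace (ρ (MonoidAlgebra.single (x * y) 1)) =
      trace (ρ (MonoidAlgebra.single (y * x) 1)))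
    (x : K0 (MonoidAlgebra R F)) :
    K0.tr (AddMonoidHom.id R) (fun x y => mul_comm x y)
      (K0.push (ρ : MonoidAlgebra R F →+* Matrix J J R) x) =
      T (fun h => trace (ρ (MonoidAlgebra.single h 1))) hf x := by
  rw [K0.tr_push]
  refine K0.tr_congr _ _ ?_ x
  ext h r
  simp only [AddMonoidHom.comp_apply, MonoidAlgebra.singleAddHom_apply]
  rw [clsFun_single]
  change trace (ρ (MonoidAlgebra.single h r)) = _
  have : MonoidAlgebra.single h r = r • MonoidAlgebra.single h (1 : R) := by
    rw [MonoidAlgebra.smul_single, smul_eq_mul, mul_one]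
  rw [this, map_smul, trace_smul, smul_eq_mul]

theorem trace_rep_comm {J : Type*} [Fintype J] [DecidableEq J]
    (ρ : MonoidAlgebra R F →ₐ[R] Matrix J J R) (x y : F) :
    trace (ρ (MonoidAlgebra.single (x * y) 1)) = trace (ρ (MonoidAlgebra.single (y * x) 1)) := by
  have h1 : MonoidAlgebra.single (x * y) (1 : R) = MonoidAlgebra.single x 1 *
    MonoidAlgebra.single y 1 := by rw [MonoidAlgebra.single_mul_single, one_mul]
  have h2 : MonoidAlgebra.single (y * x) (1 : R) = MonoidAlgebra.single y 1 *
    MonoidAlgebra.single x 1 := by rw [MonoidAlgebra.single_mul_single, one_mul]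
  rw [h1, h2, map_mul, map_mul, trace_mul_comm]

theorem trace_perm (X : Type w) [Fintype X] [DecidableEq X] [MulAction F X] (h : F) :
    trace (perm R X (MonoidAlgebra.single h 1)) =
      ((Finset.univ.filter fun x : X => x = h • x).card : R) := by
  simp only [trace, diag, perm_single]
  rw [Finset.sum_boole]

end Perm

end Pool.Agent.H71.FJ

end

section

/-!
# Coefficient rings for lifting idempotents to characteristic zero
-/

set_option autoImplicit false

open Matrix

universe u v w

namespace Pool.Agent.H71.FJ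

/-- A family of commutative rings with nilpotent surjections onto the field `K` that together
detect integers. -/
structure LiftSys (K : Type u) [Field K] where
  /-- the rings -/
  B : ℕ → Type u
  inst : ∀ n, CommRing (B n)
  /-- the projections -/
  π : ∀ n, B n →+* K
  surj : ∀ n, Function.Surjective (π n)
  nil : ∀ n, NilKer (π n)
  int : ∀ m : ℤ, (∀ n, (m : B n) = 0) → m = 0

instance {K : Type u} [Field K] (L : LiftSys K) (n : ℕ) : CommRing (L.B n) := L.inst n

/-- In characteristic zero nothing has to be lifted. -/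
noncomputable def liftSysZero (K : Type u) [Field K] [CharZero K] : LiftSys K where
  B _ := K
  inst _ := inferInstance
  π _ := RingHom.id K
  surj _ := Function.surjective_id
  nil _ := by
    refine ⟨1, fun j => if j = 0 then ⊤ else ⊥, ?_, ?_, ?_⟩
    · intro x
      simp
    · intro x hx
      simpa using hx
    · intro j x y hx hy
      have : x = 0 := hx
      rw [this, zero_mul]
      exact AddSubgroup.zero_mem _
  int m h := by exact_mod_cast h 0

section CharP

variable (p : ℕ) [hp : Fact p.Prime] (K : Type u) [Field K] [CharP K p] [PerfectRing K p]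

theorem witt_int (m : ℤ) (h : ∀ n : ℕ, ((p : WittVector p K) ^ (n + 1)) ∣ (m : WittVector p K)) :
    m = 0 := by
  have hp0 : (p : WittVector p K) ≠ 0 := WittVector.p_nonzero p K
  induction hN : m.natAbs using Nat.strong_induction_on generalizing m with
  | _ N ih =>
    by_contra hm
    have h1 := h 0
    rw [zero_add, pow_one] at h1
    have h2 : WittVector.constantCoeff (m : WittVector p K) = 0 := by
      obtain ⟨c, hc⟩ := h1
      rw [hc, map_mul, map_natCast, CharP.cast_eq_zero, zero_mul]
    rw [map_intCast] at h2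
    have h3 : (p : ℤ) ∣ m := (CharP.intCast_eq_zero_iff K p m).1 h2
    obtain ⟨m', rfl⟩ := h3
    have hm' : m' = 0 := by
      refine ih m'.natAbs ?_ m' ?_ rfl
      · rw [← hN, Int.natAbs_mul, Int.natAbs_natCast]
        have h4 : 0 < m'.natAbs := by
          rw [Int.natAbs_pos]
          rintro rfl
          simp at hm
        have h5 := hp.out.two_le
        nlinarith
      · intro n
        obtain ⟨c, hc⟩ := h (n + 1)
        refine ⟨c, ?_⟩
        apply mul_left_cancel₀ hp0
        rw [Int.cast_mul, Int.cast_natCast] at hc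
        rw [hc]
        ring
    rw [hm', mul_zero] at hm
    exact hm rfl

/-- In characteristic `p` we use the Witt vectors modulo powers of `p`. -/
noncomputable def liftSysP : LiftSys K where
  B n := WittVector p K ⧸ Ideal.span {(p : WittVector p K) ^ (n + 1)}
  inst n := inferInstance
  π n := Ideal.Quotient.lift _ (WittVector.constantCoeff : WittVector p K →+* K) (by
    intro a ha
    obtain ⟨c, rfl⟩ := Ideal.mem_span_singleton'.1 ha
    rw [map_mul, map_pow, map_natCast, CharP.cast_eq_zero, zero_pow (Nat.succ_ne_zero n), mul_zero])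
  surj n := by
    intro x
    refine ⟨Ideal.Quotient.mk _ (WittVector.teichmuller p x), ?_⟩
    rw [Ideal.Quotient.lift_mk]
    exact WittVector.teichmuller_coeff_zero p x
  nil n := by
    refine ⟨n + 1, fun j => (Ideal.span
      {((p : WittVector p K ⧸ Ideal.span {(p : WittVector p K) ^ (n + 1)})) ^ j}).toAddSubgroup,
      ?_, ?_, ?_⟩
    · intro x
      change x ∈ Ideal.span _
      rw [pow_zero, Ideal.span_singleton_one]
      trivial
    · intro x hx
      change x ∈ Ideal.span _ at hx
      obtain ⟨c, rfl⟩ := Ideal.mem_span_singleton'.1 hx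
      have : (p : WittVector p K ⧸ Ideal.span {(p : WittVector p K) ^ (n + 1)}) ^ (n + 1) = 0 := by
        rw [← map_natCast (Ideal.Quotient.mk (Ideal.span {(p : WittVector p K) ^ (n + 1)})) p,
          ← map_pow]
        exact Ideal.Quotient.eq_zero_iff_mem.2 (Ideal.mem_span_singleton_self _)
      rw [this, mul_zero]
    · intro j x y hx hy
      change y ∈ Ideal.span _ at hy
      change x * y ∈ Ideal.span _
      obtain ⟨d, rfl⟩ := Ideal.mem_span_singleton'.1 hy
      obtain ⟨w, rfl⟩ := Ideal.Quotient.mk_surjective x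
      rw [Ideal.Quotient.lift_mk] at hx
      have hw : w ∈ RingHom.ker (WittVector.constantCoeff : WittVector p K →+* K) := hx
      rw [WittVector.ker_constantCoeff] at hw
      obtain ⟨c, rfl⟩ := Ideal.mem_span_singleton'.1 hw
      refine Ideal.mem_span_singleton'.2 ⟨Ideal.Quotient.mk _ c * d, ?_⟩
      rw [map_mul, map_natCast]
      ring
  int m h := by
    apply witt_int p K m
    intro n
    have h1 := h n
    rw [← map_intCast (Ideal.Quotient.mk (Ideal.span {(p : WittVector p K) ^ (n + 1)})) m] at h1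
    exact Ideal.mem_span_singleton.1 (Ideal.Quotient.eq_zero_iff_mem.1 h1)

end CharP

theorem exists_liftSys (K : Type u) [Field K] [IsAlgClosed K] : Nonempty (LiftSys K) := by
  obtain ⟨p, hp⟩ := CharP.exists K
  rcases CharP.char_is_prime_or_zero K p with h | h
  · have : Fact p.Prime := ⟨h⟩
    have : PerfectRing K p := PerfectField.toPerfectRing p
    exact ⟨liftSysP p K⟩
  · subst h
    have : CharZero K := CharP.charP_to_charZero K
    exact ⟨liftSysZero K⟩

end Pool.Agent.H71.FJ

end

section

/-!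
# Artin type induction theorem for `K₀(k[F]) ⊗ ℚ`, `F` finite
-/

set_option autoImplicit false

open Matrix
open scoped Classical

universe u v w

namespace Pool.Agent.H71.FJ

/-- Möbius type coefficients on a finite partially ordered set. -/
theorem exists_nu {α : Type*} [PartialOrder α] (s : Finset α) (f : α → ℤ) :
    ∃ ν : α → ℤ, ∀ E ∈ s, ∑ D ∈ s.filter (fun D => E ≤ D), ν D = f E := by
  induction s using Finset.strongInduction with
  | H s ih =>
    by_cases hs : s.Nonempty
    · obtain ⟨E₀, hE₀⟩ := s.exists_minimal hs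
      obtain ⟨ν, hν⟩ := ih (s.erase E₀) (Finset.erase_ssubset hE₀.1)
      have hmin : ∀ E ∈ s, E ≤ E₀ → E = E₀ := fun E hE hle => le_antisymm hle (hE₀.2 hE hle)
      refine ⟨fun D => if D = E₀ then f E₀ - ∑ D ∈ (s.erase E₀).filter (fun D => E₀ ≤ D), ν D
        else ν D, ?_⟩
      intro E hE
      by_cases hEE : E = E₀
      · subst hEE
        have h1 : s.filter (fun D => E ≤ D) =
            insert E ((s.erase E).filter (fun D => E ≤ D)) := by
          ext D
          simp only [Finset.mem_filter, Finset.mem_insert, Finset.mem_erase]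
          constructor
          · rintro ⟨h1, h2⟩
            by_cases h3 : D = E
            · exact Or.inl h3
            · exact Or.inr ⟨⟨h3, h1⟩, h2⟩
          · rintro (rfl | ⟨⟨_, h1⟩, h2⟩)
            · exact ⟨hE, le_rfl⟩
            · exact ⟨h1, h2⟩
        rw [h1, Finset.sum_insert (by simp), if_pos rfl]
        have h2 : ∑ D ∈ (s.erase E).filter (fun D => E ≤ D), (if D = E then f E -
            ∑ D ∈ (s.erase E).filter (fun D => E ≤ D), ν D else ν D) =
            ∑ D ∈ (s.erase E).filter (fun D => E ≤ D), ν D := by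
          apply Finset.sum_congr rfl
          intro D hD
          rw [Finset.mem_filter, Finset.mem_erase] at hD
          rw [if_neg hD.1.1]
        rw [h2]
        ring
      · have h1 : s.filter (fun D => E ≤ D) = (s.erase E₀).filter (fun D => E ≤ D) := by
          ext D
          simp only [Finset.mem_filter, Finset.mem_erase]
          constructor
          · rintro ⟨h1, h2⟩
            refine ⟨⟨?_, h1⟩, h2⟩
            rintro rfl
            exact hEE (hmin E hE h2)
          · rintro ⟨⟨_, h1⟩, h2⟩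
            exact ⟨h1, h2⟩
        rw [h1, ← hν E (Finset.mem_erase.2 ⟨hEE, hE⟩)]
        apply Finset.sum_congr rfl
        intro D hD
        rw [Finset.mem_filter, Finset.mem_erase] at hD
        exact if_neg hD.1.1
    · rw [Finset.not_nonempty_iff_eq_empty] at hs
      subst hs
      exact ⟨fun _ => 0, by simp⟩

section Sum

variable {F : Type v} [Group F] [Fintype F]

theorem sum_out {M : Type*} [AddCommMonoid M] (D : Subgroup F) (g : F → M)
    (hg : ∀ y, ∀ d ∈ D, g (y * d) = g y) :
    ∑ y : F, g y = Nat.card D • ∑ x : F ⧸ D, g x.out := by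
  let E : (F ⧸ D) × D → F := fun p => p.1.out * p.2
  have hE : Function.Bijective E := by
    constructor
    · rintro ⟨x, d⟩ ⟨x', d'⟩ h
      simp only [E] at h
      have h1 : x = x' := by
        have := congrArg (fun z : F => (z : F ⧸ D)) h
        change ((x.out * (d : F) : F) : F ⧸ D) = ((x'.out * (d' : F) : F) : F ⧸ D) at this
        rw [QuotientGroup.mk_mul_of_mem _ d.2, QuotientGroup.mk_mul_of_mem _ d'.2,
          QuotientGroup.out_eq', QuotientGroup.out_eq'] at this
        exact this
      subst h1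
      rw [mul_right_inj] at h
      rw [Subtype.ext h]
    · intro y
      refine ⟨⟨(y : F ⧸ D), ⟨(y : F ⧸ D).out⁻¹ * y, ?_⟩⟩, ?_⟩
      · rw [← QuotientGroup.eq, QuotientGroup.out_eq']
      · simp [E]
  rw [← (Equiv.ofBijective E hE).sum_comp g, Fintype.sum_prod_type, Finset.smul_sum]
  apply Finset.sum_congr rfl
  intro x _
  have : ∀ d : D, g ((Equiv.ofBijective E hE) (x, d)) = g x.out := fun d => hg _ _ d.2
  simp only [this, Finset.sum_const, Finset.card_univ, Nat.card_eq_fintype_card]

end Sum

section Vanish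

variable {B : Type u} [CommRing B] {K : Type w} [Field K] {F : Type v} [Group F] [Fintype F]

/-- indicator function of the elements of order zero in `K` -/
noncomputable def sing (B : Type u) [CommRing B] (K : Type w) [Field K] {F : Type v} [Group F]
    (h : F) : B := if (orderOf h : K) = 0 then 1 else 0

omit [Fintype F] in
theorem orderOf_conj' (y h : F) : orderOf (y⁻¹ * h * y) = orderOf h := by
  have h1 : y⁻¹ * h * y = MulAut.conj y⁻¹ h := by simp
  rw [h1]
  exact orderOf_injective (MulAut.conj y⁻¹).toMonoidHom (MulAut.conj y⁻¹).injective h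

omit [Fintype F] in
theorem sing_comm (x y : F) : sing B K (x * y) = sing B K (y * x) := by
  unfold sing
  have : orderOf (x * y) = orderOf (y * x) := by
    rw [← orderOf_conj' x (x * y)]
    congr 1
    group
  rw [this]

/-- the induced function of the indicator function of `c` -/
noncomputable def psi (B : Type u) [CommRing B] {F : Type v} [Group F] [Fintype F] (c h : F) : B :=
  ∑ x : F ⧸ Subgroup.zpowers c, if x.out⁻¹ * h * x.out = c then 1 else 0

theorem card_mul_psi (c h : F) : (Nat.card (Subgroup.zpowers c) : B) * psi B c h =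
    ∑ y : F, if y⁻¹ * h * y = c then 1 else 0 := by
  rw [sum_out (Subgroup.zpowers c) (fun y => if y⁻¹ * h * y = c then (1 : B) else 0), nsmul_eq_mul]
  · rfl
  · intro y d hd
    obtain ⟨n, rfl⟩ := Subgroup.mem_zpowers_iff.1 hd
    have : (y * c ^ n)⁻¹ * h * (y * c ^ n) = c ↔ y⁻¹ * h * y = c := by
      have e : (y * c ^ n)⁻¹ * h * (y * c ^ n) = (c ^ n)⁻¹ * (y⁻¹ * h * y) * c ^ n := by group
      rw [e]
      constructor
      · intro h1
        have h2 : y⁻¹ * h * y = c ^ n * ((c ^ n)⁻¹ * (y⁻¹ * h * y) * c ^ n) * (c ^ n)⁻¹ := by group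
        rw [h2, h1]
        group
      · intro h1
        rw [h1]
        group
    simp only [this]

theorem psi_functional (c : F) (h : F) (r : B) :
    ((clsFun (dlt B (⟨c, Subgroup.mem_zpowers c⟩ : Subgroup.zpowers c))).comp
      ((traceAddMonoidHom _ _).comp (lamR B (Subgroup.zpowers c)).toAddMonoidHom))
      (MonoidAlgebra.single h r) = r * psi B c h := by
  simp only [AddMonoidHom.comp_apply, traceAddMonoidHom_apply]
  change clsFun _ (trace (lam B (Subgroup.zpowers c) (MonoidAlgebra.single h r))) = _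
  simp only [trace, diag, lam_single, map_sum, psi, Finset.mul_sum]
  apply Finset.sum_congr rfl
  intro x _
  by_cases hx : x.out⁻¹ * h * x.out = c
  · have hm : x.out⁻¹ * h * x.out ∈ Subgroup.zpowers c := by
      rw [hx]
      exact Subgroup.mem_zpowers c
    rw [dif_pos hm, clsFun_single, if_pos hx]
    congr 1
    have : (⟨x.out⁻¹ * h * x.out, hm⟩ : Subgroup.zpowers c) = ⟨c, Subgroup.mem_zpowers c⟩ :=
      Subtype.ext hx
    rw [this, dlt_self]
  · rw [if_neg hx, mul_zero]
    by_cases hm : x.out⁻¹ * h * x.out ∈ Subgroup.zpowers c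
    · rw [dif_pos hm, clsFun_single, dlt_ne, mul_zero]
      intro h1
      exact hx (congrArg Subtype.val h1)
    · rw [dif_neg hm, map_zero]

omit [Fintype F] in
theorem zc_comm (c : F) (a b : Subgroup.zpowers c) : a * b = b * a := by
  obtain ⟨a, ha⟩ := a
  obtain ⟨b, hb⟩ := b
  obtain ⟨m, rfl⟩ := Subgroup.mem_zpowers_iff.1 ha
  obtain ⟨n, rfl⟩ := Subgroup.mem_zpowers_iff.1 hb
  apply Subtype.ext
  exact ((Commute.refl c).zpow_zpow m n)

/-- cyclic subgroups as commutative groups -/
abbrev zcComm (c : F) : CommGroup (Subgroup.zpowers c) :=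
  { (inferInstance : Group (Subgroup.zpowers c)) with mul_comm := zc_comm c }

theorem psi_comm (c x y : F) : psi B c (x * y) = psi B c (y * x) := by
  have h1 := psi_functional (B := B) c (x * y) 1
  have h2 := psi_functional (B := B) c (y * x) 1
  rw [one_mul] at h1 h2
  rw [← h1, ← h2]
  have e1 : MonoidAlgebra.single (x * y) (1 : B) = MonoidAlgebra.single x 1 *
    MonoidAlgebra.single y 1 := by rw [MonoidAlgebra.single_mul_single, one_mul]
  have e2 : MonoidAlgebra.single (y * x) (1 : B) = MonoidAlgebra.single y 1 *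
    MonoidAlgebra.single x 1 := by rw [MonoidAlgebra.single_mul_single, one_mul]
  rw [e1, e2]
  exact K0.trace_push_aux _ (clsFun_comm _ (fun a b => by rw [zc_comm c a b])) _ _ _

theorem T_psi {φ : B →+* K} (hn : NilKer φ) (c : F) (hc : (orderOf c : K) = 0)
    (x : K0 (MonoidAlgebra B F)) : T (psi B c) (psi_comm c) x = 0 := by
  have hcomm : ∀ a b : Subgroup.zpowers c,
      dlt B (⟨c, Subgroup.mem_zpowers c⟩ : Subgroup.zpowers c) (a * b) =
      dlt B (⟨c, Subgroup.mem_zpowers c⟩ : Subgroup.zpowers c) (b * a) :=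
    fun a b => by rw [zc_comm c a b]
  have h1 : T (dlt B (⟨c, Subgroup.mem_zpowers c⟩ : Subgroup.zpowers c)) hcomm
      (K0.push (lamR B (Subgroup.zpowers c)) x) = T (psi B c) (psi_comm c) x := by
    rw [T, K0.tr_push]
    refine K0.tr_congr _ _ ?_ x
    ext h r
    simp only [AddMonoidHom.comp_apply, MonoidAlgebra.singleAddHom_apply]
    rw [clsFun_single, ← psi_functional]
    rfl
  rw [← h1]
  let _ := zcComm c
  have h2 : (orderOf (⟨c, Subgroup.mem_zpowers c⟩ : Subgroup.zpowers c) : K) = 0 := by
    rw [Subgroup.orderOf_mk]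
    exact hc
  exact @abelian_vanish B _ K _ (Subgroup.zpowers c) (zcComm c) _ φ hn _ h2 _ hcomm

theorem sing_vanish {φ : B →+* K} (hn : NilKer φ) (x : K0 (MonoidAlgebra B F)) :
    T (fun h => (Nat.card F : B) * sing B K h) (fun x y => by rw [sing_comm]) x = 0 := by
  have hid : ∀ h : F, (Nat.card F : B) * sing B K h =
      ∑ c ∈ Finset.univ.filter (fun c : F => (orderOf c : K) = 0),
        (Nat.card (Subgroup.zpowers c) : B) * psi B c h := by
    intro h
    simp only [card_mul_psi]
    rw [Finset.sum_comm]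
    have : ∀ y : F, ∑ c ∈ Finset.univ.filter (fun c : F => (orderOf c : K) = 0),
        (if y⁻¹ * h * y = c then (1 : B) else 0) = sing B K h := by
      intro y
      rw [Finset.sum_ite_eq]
      unfold sing
      simp only [Finset.mem_filter, Finset.mem_univ, true_and, orderOf_conj']
    simp only [this, Finset.sum_const, Finset.card_univ, nsmul_eq_mul, Nat.card_eq_fintype_card]
  rw [T_congr _ (fun x y => by simp only [psi_comm]) hid,
    T_sum _ _ (fun c => psi B c) (fun c => psi_comm c)]
  apply Finset.sum_eq_zero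
  intro c hc
  rw [T_psi hn c (Finset.mem_filter.1 hc).2, mul_zero]

end Vanish

section Rank

theorem T_add {B : Type u} [CommRing B] {G : Type v} [Group G] (f g : G → B)
    (hf : ∀ x y, f (x * y) = f (y * x)) (hg : ∀ x y, g (x * y) = g (y * x))
    (hfg : ∀ x y, f (x * y) + g (x * y) = f (y * x) + g (y * x)) (x : K0 (MonoidAlgebra B G)) :
    T (fun a => f a + g a) hfg x = T f hf x + T g hg x := by
  have : T (fun a => f a + g a) hfg = T f hf + T g hg := by
    apply K0.hom_ext
    intro a
    simp only [T, K0.tr_mk, AddMonoidHom.add_apply]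
    exact clsFun_add f g _
  rw [this]
  rfl

theorem T_mul {B : Type u} [CommRing B] {G : Type v} [Group G] (m : B) (f : G → B)
    (hf : ∀ x y, f (x * y) = f (y * x)) (hf' : ∀ x y, m * f (x * y) = m * f (y * x))
    (x : K0 (MonoidAlgebra B G)) : T (fun a => m * f a) hf' x = m * T f hf x := by
  have : T (fun a => m * f a) hf' = (AddMonoidHom.mulLeft m).comp (T f hf) := by
    apply K0.hom_ext
    intro a
    simp only [T, K0.tr_mk, AddMonoidHom.comp_apply, AddMonoidHom.coe_mulLeft]
    exact clsFun_mul m f _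
  rw [this]
  rfl

/-- The augmentation. -/
noncomputable def aug (R : Type u) [CommRing R] (F : Type v) [Group F] :
    MonoidAlgebra R F →ₐ[R] R := MonoidAlgebra.lift R R F 1

theorem aug_single (R : Type u) [CommRing R] {F : Type v} [Group F] (h : F) (r : R) :
    aug R F (MonoidAlgebra.single h r) = r := by
  rw [aug, MonoidAlgebra.lift_single]
  simp

theorem tr_aug (R : Type u) [CommRing R] {F : Type v} [Group F] (x : K0 (MonoidAlgebra R F)) :
    K0.tr (AddMonoidHom.id R) (fun x y => mul_comm x y) (K0.map (aug R F).toRingHom x) =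
      T (fun _ => 1) (fun _ _ => rfl) x := by
  rw [K0.tr_map]
  refine K0.tr_congr _ _ ?_ x
  ext h r
  simp only [AddMonoidHom.comp_apply, MonoidAlgebra.singleAddHom_apply]
  rw [clsFun_single, mul_one]
  exact aug_single R h r

variable {F : Type v} [Group F] [Fintype F]

/-- number of fixed points of `h` on `F/D` -/
noncomputable def fixN (D : Subgroup F) (h : F) : ℕ :=
  (Finset.univ.filter fun x : F ⧸ D => x = h • x).card

theorem card_mul_fixN (D : Subgroup F) (h : F) : Nat.card D * fixN D h =
    ∑ y : F, if y⁻¹ * h * y ∈ D then 1 else 0 := by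
  rw [sum_out D (fun y => if y⁻¹ * h * y ∈ D then 1 else 0), smul_eq_mul, fixN,
    Finset.card_filter]
  · congr 1
    apply Finset.sum_congr rfl
    intro x _
    by_cases hx : x = h • x
    · rw [if_pos hx, if_pos ((out_mem_iff D h x x).2 hx)]
    · rw [if_neg hx, if_neg (fun hh => hx ((out_mem_iff D h x x).1 hh))]
  · intro y d hd
    have : (y * d)⁻¹ * h * (y * d) ∈ D ↔ y⁻¹ * h * y ∈ D := by
      have e : (y * d)⁻¹ * h * (y * d) = d⁻¹ * (y⁻¹ * h * y) * d := by group
      rw [e]
      constructor
      · intro h1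
        have h2 : y⁻¹ * h * y = d * (d⁻¹ * (y⁻¹ * h * y) * d) * d⁻¹ := by group
        rw [h2]
        exact D.mul_mem (D.mul_mem hd h1) (D.inv_mem hd)
      · intro h1
        exact D.mul_mem (D.mul_mem (D.inv_mem hd) h1) hd
    simp only [this]

theorem perm_comm {R : Type u} [CommRing R] (D : Subgroup F) (x y : F) :
    (fixN D (x * y) : R) = fixN D (y * x) := by
  have := trace_rep_comm R (perm R (F ⧸ D)) x y
  rw [trace_perm, trace_perm] at this
  exact this

theorem tr_perm {R : Type u} [CommRing R] (D : Subgroup F) (x : K0 (MonoidAlgebra R F)) :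
    K0.tr (AddMonoidHom.id R) (fun x y => mul_comm x y) (K0.push (permR R (F ⧸ D)) x) =
      T (fun h => (fixN D h : R)) (perm_comm D) x := by
  rw [show K0.push (permR R (F ⧸ D)) x = K0.push ((perm R (F ⧸ D) :
    MonoidAlgebra R F →ₐ[R] Matrix (F ⧸ D) (F ⧸ D) R) :
    MonoidAlgebra R F →+* Matrix (F ⧸ D) (F ⧸ D) R) x from rfl,
    tr_push_rep R (perm R (F ⧸ D)) (trace_rep_comm R _) x]
  apply T_congr
  intro h
  rw [trace_perm]
  rfl

theorem fix_identity {B : Type u} [CommRing B] {K : Type w} [Field K]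
    (s : Finset (Subgroup F)) (ν : Subgroup F → ℤ)
    (h1 : ∀ D ∈ s, ∀ h ∈ D, (orderOf h : K) ≠ 0)
    (h2 : ∀ h : F, (orderOf h : K) ≠ 0 → ∑ D ∈ s.filter (fun D => h ∈ D), ν D = 1) (h : F) :
    (Nat.card F : B) * 1 = (Nat.card F : B) * sing B K h +
      ∑ D ∈ s, ((ν D : B) * Nat.card D) * fixN D h := by
  have e1 : ∀ D ∈ s, ((ν D : B) * Nat.card D) * fixN D h =
      ∑ y : F, if y⁻¹ * h * y ∈ D then (ν D : B) else 0 := by
    intro D _
    have := card_mul_fixN D h
    rw [mul_assoc, ← Nat.cast_mul, this, Nat.cast_sum, Finset.mul_sum]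
    apply Finset.sum_congr rfl
    intro y _
    split_ifs <;> simp
  rw [Finset.sum_congr rfl e1, Finset.sum_comm]
  have e2 : ∀ y : F, ∑ D ∈ s, (if y⁻¹ * h * y ∈ D then (ν D : B) else 0) =
      1 - sing B K h := by
    intro y
    rw [← Finset.sum_filter]
    by_cases hy : (orderOf h : K) = 0
    · have : s.filter (fun D => y⁻¹ * h * y ∈ D) = ∅ := by
        rw [Finset.filter_eq_empty_iff]
        intro D hD hmem
        apply h1 D hD _ hmem
        rw [orderOf_conj']
        exact hy
      rw [this, Finset.sum_empty, sing, if_pos hy, sub_self]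
    · have := h2 (y⁻¹ * h * y) (by rw [orderOf_conj']; exact hy)
      rw [sing, if_neg hy, sub_zero]
      have h3 : ((∑ D ∈ s.filter (fun D => y⁻¹ * h * y ∈ D), ν D : ℤ) : B) = 1 := by
        rw [this, Int.cast_one]
      rw [← h3, Int.cast_sum]
  simp only [e2, Finset.sum_const, Finset.card_univ, nsmul_eq_mul, Nat.card_eq_fintype_card]
  ring

theorem rank_identity {K : Type w} [Field K] (L : LiftSys K)
    (s : Finset (Subgroup F)) (ν : Subgroup F → ℤ)
    (h1 : ∀ D ∈ s, ∀ h ∈ D, (orderOf h : K) ≠ 0)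
    (h2 : ∀ h : F, (orderOf h : K) ≠ 0 → ∑ D ∈ s.filter (fun D => h ∈ D), ν D = 1)
    (x : K0 (MonoidAlgebra K F)) :
    (Nat.card F : ℤ) * K0.rk (K0.map (aug K F).toRingHom x) =
      ∑ D ∈ s, ν D * Nat.card D * K0.rk (K0.push (permR K (F ⧸ D)) x) := by
  rw [← sub_eq_zero]
  apply L.int
  intro n
  have hs : Function.Surjective (MonoidAlgebra.mapRingHom F (L.π n)) := by
    intro a
    induction a using MonoidAlgebra.induction_linear with
    | zero => exact ⟨0, map_zero _⟩
    | add a b ha hb =>
      obtain ⟨a', rfl⟩ := ha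
      obtain ⟨b', rfl⟩ := hb
      exact ⟨a' + b', map_add _ _ _⟩
    | single g r =>
      obtain ⟨r', rfl⟩ := L.surj n r
      exact ⟨MonoidAlgebra.single g r', MonoidAlgebra.mapRingHom_single _ _ _⟩
  have hnil := (L.nil n).monoidAlgebra F
  obtain ⟨y, hy⟩ : ∃ y, y = K0.nilLift hs hnil x := ⟨_, rfl⟩
  have hyx : K0.map (MonoidAlgebra.mapRingHom F (L.π n)) y = x := by
    rw [hy, K0.map_nilLift]
  have e1 : (K0.rk (K0.map (aug K F).toRingHom x) : L.B n) = T (fun _ => 1) (fun _ _ => rfl) y := by
    rw [← tr_aug, K0.tr_eq_rk (L.surj n) (L.nil n), K0.map_map, ← hyx, K0.map_map]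
    congr 3
    have : (aug K F).toRingHom.comp (MonoidAlgebra.mapRingHom F (L.π n)) =
        (L.π n).comp (aug (L.B n) F).toRingHom := by
      apply RingHom.ext
      intro a
      induction a using MonoidAlgebra.induction_linear with
      | zero => simp
      | add a b ha hb => rw [map_add, map_add, ha, hb]
      | single g r =>
        change aug K F (MonoidAlgebra.mapRingHom F (L.π n) (MonoidAlgebra.single g r)) =
          L.π n (aug (L.B n) F (MonoidAlgebra.single g r))
        rw [MonoidAlgebra.mapRingHom_single, aug_single, aug_single]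
    rw [this]
  have e2 : ∀ D : Subgroup F, (K0.rk (K0.push (permR K (F ⧸ D)) x) : L.B n) =
      T (fun h => (fixN D h : L.B n)) (perm_comm D) y := by
    intro D
    rw [← tr_perm, K0.tr_eq_rk (L.surj n) (L.nil n), K0.map_push, ← hyx, K0.push_map]
    congr 3
    have : (permR K (F ⧸ D)).comp (MonoidAlgebra.mapRingHom F (L.π n)) =
        (L.π n).mapMatrix.comp (permR (L.B n) (F ⧸ D)) := by
      apply RingHom.ext
      intro a
      induction a using MonoidAlgebra.induction_linear with
      | zero => simp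
      | add a b ha hb => rw [map_add, map_add, ha, hb]
      | single g r =>
        ext p q : 1
        change perm K (F ⧸ D) (MonoidAlgebra.mapRingHom F (L.π n) (MonoidAlgebra.single g r)) p q =
          L.π n (perm (L.B n) (F ⧸ D) (MonoidAlgebra.single g r) p q)
        rw [MonoidAlgebra.mapRingHom_single, perm_single, perm_single]
        split_ifs <;> simp
    rw [this]
  push_cast
  rw [e1]
  simp only [e2]
  have hcomm1 : ∀ a b : F, (Nat.card F : L.B n) * sing (L.B n) K (a * b) =
    (Nat.card F : L.B n) * sing (L.B n) K (b * a) := fun a b => by rw [sing_comm]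
  have hcomm2 : ∀ a b : F, ∑ D ∈ s, ((ν D : L.B n) * Nat.card D) * fixN D (a * b) =
      ∑ D ∈ s, ((ν D : L.B n) * Nat.card D) * fixN D (b * a) :=
    fun a b => Finset.sum_congr rfl (fun D _ => by rw [perm_comm])
  rw [← T_mul (Nat.card F : L.B n) (fun _ => 1) (fun _ _ => rfl) (fun _ _ => rfl),
    T_congr (g := fun h => (Nat.card F : L.B n) * sing (L.B n) K h +
      ∑ D ∈ s, ((ν D : L.B n) * Nat.card D) * fixN D h) (fun _ _ => rfl)
      (fun a b => by rw [hcomm1, hcomm2]) (fix_identity (K := K) s ν h1 h2),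
    T_add _ _ hcomm1 hcomm2, sing_vanish (L.nil n),
    T_sum s (fun D => (ν D : L.B n) * Nat.card D) (fun D h => (fixN D h : L.B n))
      (fun D => perm_comm D) hcomm2, zero_add, sub_self]

end Rank

end Pool.Agent.H71.FJ

end

section

/-!
# Classes in `K₀` of a finite-dimensional algebra are detected by ranks
-/

set_option autoImplicit false

open Matrix

universe u v w

namespace Pool.Agent.H71.FJ

namespace K0

theorem rkNat_eq_of_rk {D : Type u} [DivisionRing D] {ι κ : Type*} [Fintype ι] [DecidableEq ι]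
    [Fintype κ] [DecidableEq κ] {e : Matrix ι ι D} {f : Matrix κ κ D} (he : e * e = e)
    (hf : f * f = f) (h : rk (cls e he) = rk (cls f hf)) : MatEquiv e f := by
  obtain ⟨r, hr⟩ := exists_matEquiv_one e he
  obtain ⟨s, hs⟩ := exists_matEquiv_one f hf
  rw [rk_cls_of_matEquiv he hr, rk_cls_of_matEquiv hf hs] at h
  simp only [Fintype.card_fin, Nat.cast_inj] at h
  subst h
  exact matEquiv_trans he hf hr (matEquiv_symm hs)

theorem eq_zero_of_semisimple {k : Type v} [Field k] {Λ : Type u} [Ring Λ] [Algebra k Λ]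
    [Module.Finite k Λ] [IsSemisimpleRing Λ] (x : K0 Λ)
    (h : ∀ (J : Type) [Fintype J] [DecidableEq J] (ρ : Λ →ₐ[k] Matrix J J k),
      rk (push (ρ : Λ →+* Matrix J J k) x) = 0) : x = 0 := by
  obtain ⟨a, b, rfl⟩ := exists_sub x
  obtain ⟨n, D, d, _, _, _, hd, ⟨e⟩⟩ :=
    IsSemisimpleRing.exists_algEquiv_pi_matrix_divisionRing_finite k Λ
  -- the projections
  let π : ∀ i, Λ →ₐ[k] Matrix (Fin (d i)) (Fin (d i)) (D i) := fun i =>
    (Pi.evalAlgHom k (fun i => Matrix (Fin (d i)) (Fin (d i)) (D i)) i).comp e.toAlgHom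
  have hπ : ∀ i r, π i r = e r i := fun i r => rfl
  have key : ∀ i, MatEquiv (flat (π i : Λ →+* Matrix (Fin (d i)) (Fin (d i)) (D i)) a.mat)
      (flat (π i : Λ →+* Matrix (Fin (d i)) (Fin (d i)) (D i)) b.mat) := by
    intro i
    apply rkNat_eq_of_rk (flat_idem _ a.idem) (flat_idem _ b.idem)
    rw [← push_mk, ← push_mk, ← sub_eq_zero, ← map_sub, ← map_sub]
    let bs := Module.finBasis k (D i)
    let χ : D i →ₐ[k] Matrix (Fin (Module.finrank k (D i))) (Fin (Module.finrank k (D i))) k :=
      Algebra.leftMulMatrix bs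
    let ρ : Λ →ₐ[k] Matrix (Fin (d i) × Fin (Module.finrank k (D i)))
        (Fin (d i) × Fin (Module.finrank k (D i))) k :=
      { flatComp (χ : D i →+* _) (π i : Λ →+* _) with
        commutes' := by
          intro r
          have h1 : π i (algebraMap k Λ r) = algebraMap k _ r := (π i).commutes r
          ext ⟨p, s⟩ ⟨q, t⟩
          change χ ((π i (algebraMap k Λ r)) p q) s t = _
          rw [h1]
          simp only [Matrix.algebraMap_matrix_apply, Prod.mk.injEq]
          by_cases hpq : p = q
          · subst hpq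
            simp [Matrix.algebraMap_matrix_apply]
          · simp [hpq] }
    have h1 := h (Fin (d i) × Fin (Module.finrank k (D i))) ρ
    have h2 : (ρ : Λ →+* Matrix (Fin (d i) × Fin (Module.finrank k (D i)))
        (Fin (d i) × Fin (Module.finrank k (D i))) k) =
        flatComp (χ : D i →+* _) (π i : Λ →+* _) := rfl
    rw [h2, ← push_push, rk_push] at h1
    have h3 : (Fintype.card (Fin (Module.finrank k (D i))) : ℤ) ≠ 0 := by
      rw [Fintype.card_fin]
      have : 0 < Module.finrank k (D i) := Module.finrank_pos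
      exact_mod_cast this.ne'
    exact (mul_eq_zero.1 h1).resolve_right h3
  choose X Y hXY hYX using key
  have hab : MatEquiv a.mat b.mat := by
    refine ⟨Matrix.of fun s t => e.symm (fun i => Matrix.of fun p q => X i (s, p) (t, q)),
      Matrix.of fun s t => e.symm (fun i => Matrix.of fun p q => Y i (s, p) (t, q)), ?_, ?_⟩
    · ext s t
      apply e.injective
      funext i
      ext p q
      rw [Matrix.mul_apply, map_sum]
      have h1 := congrFun (congrFun (hXY i) (s, p)) (t, q)
      have h2 : flat (π i : Λ →+* Matrix (Fin (d i)) (Fin (d i)) (D i)) a.mat (s, p) (t, q) =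
        e (a.mat s t) i p q := rfl
      rw [h2] at h1
      rw [← h1, Matrix.mul_apply, Fintype.sum_prod_type]
      simp only [of_apply, map_mul, AlgEquiv.apply_symm_apply, Finset.sum_apply, Pi.mul_apply,
        Matrix.sum_apply, Matrix.mul_apply]
    · ext s t
      apply e.injective
      funext i
      ext p q
      rw [Matrix.mul_apply, map_sum]
      have h1 := congrFun (congrFun (hYX i) (s, p)) (t, q)
      have h2 : flat (π i : Λ →+* Matrix (Fin (d i)) (Fin (d i)) (D i)) b.mat (s, p) (t, q) =
        e (b.mat s t) i p q := rfl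
      rw [h2] at h1
      rw [← h1, Matrix.mul_apply, Fintype.sum_prod_type]
      simp only [of_apply, map_mul, AlgEquiv.apply_symm_apply, Finset.sum_apply, Pi.mul_apply,
        Matrix.sum_apply, Matrix.mul_apply]
  rw [mk_eq_of_equiv hab, sub_self]

/-- Classes in `K₀` of a finite-dimensional algebra are detected by the ranks of their images
under all finite-dimensional representations. -/
theorem eq_zero_of_rk_push {k : Type v} [Field k] {Λ : Type u} [Ring Λ] [Algebra k Λ]
    [Module.Finite k Λ] (x : K0 Λ)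
    (h : ∀ (J : Type) [Fintype J] [DecidableEq J] (ρ : Λ →ₐ[k] Matrix J J k),
      rk (push (ρ : Λ →+* Matrix J J k) x) = 0) : x = 0 := by
  have : IsArtinianRing Λ := IsArtinianRing.of_finite k Λ
  let q : Λ →ₐ[k] Λ ⧸ Ring.jacobson Λ := Ideal.Quotient.mkₐ k (Ring.jacobson Λ)
  have hq : Function.Surjective (q : Λ →+* Λ ⧸ Ring.jacobson Λ) := Ideal.Quotient.mk_surjective
  have hnil : NilKer (q : Λ →+* Λ ⧸ Ring.jacobson Λ) := by
    obtain ⟨N, hN⟩ := IsSemiprimaryRing.isNilpotent (R := Λ)
    refine ⟨N, fun j => ((Ring.jacobson Λ) ^ j).toAddSubgroup, ?_, ?_, ?_⟩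
    · intro x
      change x ∈ (Ring.jacobson Λ) ^ 0
      rw [Submodule.pow_zero, Ideal.one_eq_top]
      trivial
    · intro x hx
      change x ∈ (Ring.jacobson Λ) ^ N at hx
      rw [hN] at hx
      simpa using hx
    · intro j x y hx hy
      have hx' : x ∈ Ring.jacobson Λ := Ideal.Quotient.eq_zero_iff_mem.1 hx
      have : x * y ∈ Ring.jacobson Λ * (Ring.jacobson Λ) ^ j := Ideal.mul_mem_mul hx' hy
      rw [← Ideal.IsTwoSided.pow_succ] at this
      exact this
  apply map_injective hq hnil
  rw [map_zero]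
  have : Module.Finite k (Λ ⧸ Ring.jacobson Λ) := Module.Finite.of_surjective q.toLinearMap hq
  apply eq_zero_of_semisimple (k := k)
  intro J _ _ ρ
  rw [push_map]
  exact h J (ρ.comp q)

end K0

end Pool.Agent.H71.FJ

end

section

/-!
# Artin's relation between permutation lattices

For a finite group `F` there are cyclic subgroups `D i`, `E j` (two finite families) such that the
permutation lattices `ℤ^{|F|} ⊕ ⨁ᵢ ℤ[F/D i]` and `⨁ⱼ ℤ[F/E j]` are rationally isomorphic: there are
equivariant integral matrices `a`, `b` with `a b = n`, `b a = n`, `n ≠ 0`. (The trivial lattices are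
written as `ℤ[F/⊤]`.)

## Paper proof

Let `s` be the set of the cyclic subgroups of `F`. `exists_nu s (fun _ => 1)` gives `ν : Subgroup F → ℤ`
with `∑_{D ∈ s, C ≤ D} ν D = 1` for all `C ∈ s`; with `C = zpowers h`: `∑_{D ∈ s, h ∈ D} ν D = 1` for all
`h : F`.

For a subgroup `D` let `e_D = (1/|D|) ∑_{h ∈ D} h ∈ ℚ[F]`, an idempotent, and `[e_D] = K0.cls` of the
`1 × 1` matrix. Claim: `|F| • [e_⊤] = ∑_{D ∈ s} (ν D |D|) • [e_D]` in `K0 (ℚ[F])`. By
`K0.eq_zero_of_rk_push` it is enough to compare the ranks of the images under a homomorphism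
`ρ : ℚ[F] → Mat_J(ℚ)`. The rank of an idempotent matrix over `ℚ` is its trace (`tr_eq_rk`, or
directly), so `rk ρ(e_D) = (1/|D|) ∑_{h ∈ D} tr ρ(h)` and the right side is
`∑_D ν D ∑_{h ∈ D} tr ρ(h) = ∑_h tr ρ(h) ∑_{D ∋ h} ν D = ∑_h tr ρ(h)`, the left side.

Bring the negative coefficients to the other side and apply `Pool.Agent.H95.KM.exists_stab`: there are
families `D'` (`|F|` times `⊤`, cyclic subgroups with multiplicities `|ν D| |D|` for `ν D < 0`, and `k` times
the trivial subgroup `⊥`, `e_⊥ = 1`) and `E` (cyclic subgroups: `ν D |D|` times `D` for `ν D > 0`, `k` times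
`⊥`) with `MatEquiv (diagonal e_{D' i}) (diagonal e_{E j})` over `ℚ[F]`: matrices `x`, `y` with
`x y = diag(e_{D' i})`, `y x = diag(e_{E j})`, and, replacing `x` by `diag(e_{D'}) x diag(e_E)` and `y` by
`diag(e_E) y diag(e_{D'})`, `x i j ∈ e_{D' i} ℚ[F] e_{E j}`, `y j i ∈ e_{E j} ℚ[F] e_{D' i}`.

Define `A (i, g D'_i) (j, h E_j) = |E_j| (x i j)(g⁻¹ h)` and
`B (j, h E_j) (i, g D'_i) = |D'_i| (y j i)(h⁻¹ g)`. These are well defined, since the coefficient function
of `x i j` is left `D'_i`-invariant and right `E_j`-invariant, and they are equivariant.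
`(A B) (i, g) (i', g') = ∑_j ∑_{h ∈ F/E_j} |E_j| (x i j)(g⁻¹ h) |D'_{i'}| (y j i')(h⁻¹ g')
= |D'_{i'}| ∑_j ∑_{h ∈ F} (x i j)(g⁻¹ h) (y j i')(h⁻¹ g') = |D'_{i'}| (x y)_{i i'} (g⁻¹ g')
= [i = i'] |D'_i| e_{D'_i}(g⁻¹ g') = [(i, g) = (i', g')]`. In the same way `B A = 1`. Multiply by a common
denominator `d` of the entries of `A` and of `B`: `a = d A`, `b = d B`, `n = d²`.
-/

set_option autoImplicit false

open Matrix
open scoped Classical

universe v

namespace Pool.Agent.H95.WH

open Pool.Agent.H71.FJ

section ArtRelAlg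

variable {F : Type v} [Group F] [Fintype F]

/-- The idempotent of a subgroup. -/
private noncomputable def artE (D : Subgroup F) : MonoidAlgebra ℚ F :=
  ∑ h : F, if h ∈ D then MonoidAlgebra.single h ((Nat.card D : ℚ)⁻¹) else 0

private theorem artE_coeff (D : Subgroup F) (g : F) :
    (artE D).coeff g = if g ∈ D then (Nat.card D : ℚ)⁻¹ else 0 := by
  rw [artE, MonoidAlgebra.coeff_sum, Finsupp.finsetSum_apply, Finset.sum_eq_single g]
  · split_ifs
    · rw [MonoidAlgebra.coeff_single, Finsupp.single_eq_same]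
    · rfl
  · intro b _ hb
    split_ifs
    · rw [MonoidAlgebra.coeff_single, Finsupp.single_eq_of_ne (by tauto)]
    · rfl
  · intro h
    exact absurd (Finset.mem_univ _) h

private theorem single_mul_artE (D : Subgroup F) (d : F) (hd : d ∈ D) :
    MonoidAlgebra.single d (1 : ℚ) * artE D = artE D := by
  apply MonoidAlgebra.ext
  ext g
  rw [MonoidAlgebra.coeff_single_mul_apply, one_mul, artE_coeff, artE_coeff,
    D.mul_mem_cancel_left (D.inv_mem hd)]

private theorem artE_mul_single (D : Subgroup F) (d : F) (hd : d ∈ D) :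
    artE D * MonoidAlgebra.single d (1 : ℚ) = artE D := by
  apply MonoidAlgebra.ext
  ext g
  rw [MonoidAlgebra.coeff_mul_single_apply, mul_one, artE_coeff, artE_coeff,
    D.mul_mem_cancel_right (D.inv_mem hd)]

private theorem artE_idem (D : Subgroup F) : artE D * artE D = artE D := by
  nth_rewrite 1 [artE]
  rw [Finset.sum_mul]
  have h1 : ∀ h : F, (if h ∈ D then MonoidAlgebra.single h ((Nat.card D : ℚ)⁻¹) else 0) * artE D =
      if h ∈ D then (Nat.card D : ℚ)⁻¹ • artE D else 0 := by
    intro h
    split_ifs with hh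
    · have : MonoidAlgebra.single h ((Nat.card D : ℚ)⁻¹) =
          (Nat.card D : ℚ)⁻¹ • MonoidAlgebra.single h (1 : ℚ) := by
        rw [MonoidAlgebra.smul_single, smul_eq_mul, mul_one]
      rw [this, smul_mul_assoc, single_mul_artE D h hh]
    · rw [zero_mul]
  simp only [h1]
  rw [← Finset.sum_filter, Finset.sum_const]
  have h2 : (Finset.univ.filter fun h : F => h ∈ D).card = Nat.card D := by
    rw [← Fintype.card_subtype, Nat.card_eq_fintype_card]
  rw [h2, ← Nat.cast_smul_eq_nsmul ℚ, smul_smul, mul_inv_cancel₀, one_smul]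
  exact_mod_cast Nat.card_pos.ne'

private theorem artE_bot : artE (⊥ : Subgroup F) = 1 := by
  apply MonoidAlgebra.ext
  ext g
  rw [artE_coeff, MonoidAlgebra.one_def, MonoidAlgebra.coeff_single, Subgroup.mem_bot]
  by_cases hg : g = 1
  · subst hg
    rw [if_pos rfl, Finsupp.single_eq_same]
    simp
  · rw [if_neg hg, Finsupp.single_eq_of_ne (by tauto)]

/-- The diagonal matrix of the idempotents of a family of subgroups. -/
private noncomputable def artM {I : Type} [Fintype I] (D : I → Subgroup F) :
    Matrix I I (MonoidAlgebra ℚ F) := diagonal fun i => artE (D i)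

private theorem artM_idem {I : Type} [Fintype I] (D : I → Subgroup F) :
    artM D * artM D = artM D := by
  rw [artM, diagonal_mul_diagonal]
  simp only [artE_idem]

/-- The averages of a function over the subgroups. -/
private noncomputable def artA (D : Subgroup F) (χ : F → ℚ) : ℚ :=
  (Nat.card D : ℚ)⁻¹ * ∑ h : F, if h ∈ D then χ h else 0

private theorem artE_trace {J : Type} [Fintype J] [DecidableEq J]
    (ρ : MonoidAlgebra ℚ F →ₐ[ℚ] Matrix J J ℚ) (D : Subgroup F) :
    trace (ρ (artE D)) = artA D (fun h => trace (ρ (MonoidAlgebra.single h 1))) := by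
  rw [artE, artA, map_sum, trace_sum, Finset.mul_sum]
  apply Finset.sum_congr rfl
  intro h _
  split_ifs
  · have : MonoidAlgebra.single h ((Nat.card D : ℚ)⁻¹) =
        (Nat.card D : ℚ)⁻¹ • MonoidAlgebra.single h (1 : ℚ) := by
      rw [MonoidAlgebra.smul_single, smul_eq_mul, mul_one]
    rw [this, map_smul, trace_smul, smul_eq_mul]
  · rw [map_zero, trace_zero, mul_zero]

private theorem nilKer_id : NilKer (RingHom.id ℚ) := by
  refine ⟨1, fun j => if j = 0 then ⊤ else ⊥, fun _ => ?_, fun x hx => ?_, fun j x y hx _ => ?_⟩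
  · simp
  · simpa using hx
  · have : x = 0 := hx
    subst this
    simp

private theorem rk_eq_tr (x : K0 ℚ) :
    (K0.rk x : ℚ) = K0.tr (AddMonoidHom.id ℚ) (fun x y => mul_comm x y) x := by
  rw [K0.tr_eq_rk (φ := RingHom.id ℚ) Function.surjective_id nilKer_id, K0.map_id]
  rfl

private theorem tr_push_artM {J : Type} [Fintype J] [DecidableEq J]
    (ρ : MonoidAlgebra ℚ F →ₐ[ℚ] Matrix J J ℚ) {I : Type} [Fintype I] (D : I → Subgroup F) :
    (K0.rk (K0.push (ρ : MonoidAlgebra ℚ F →+* Matrix J J ℚ) (K0.cls (artM D) (artM_idem D))) : ℚ) =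
      ∑ i, artA (D i) (fun h => trace (ρ (MonoidAlgebra.single h 1))) := by
  rw [rk_eq_tr, K0.tr_push, K0.tr_cls]
  rw [artM, trace_diagonal, map_sum]
  apply Finset.sum_congr rfl
  intro i _
  rw [← artE_trace]
  rfl

private theorem cls_artM_eq {I J : Type} [Fintype I] [Fintype J] (D : I → Subgroup F)
    (E : J → Subgroup F) (h : ∀ χ : F → ℚ, ∑ i, artA (D i) χ = ∑ j, artA (E j) χ) :
    K0.cls (artM D) (artM_idem D) = K0.cls (artM E) (artM_idem E) := by
  rw [← sub_eq_zero]
  apply K0.eq_zero_of_rk_push (k := ℚ)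
  intro L _ _ ρ
  have h1 := tr_push_artM ρ D
  have h2 := tr_push_artM ρ E
  rw [map_sub, map_sub, sub_eq_zero]
  have h3 := h fun h => trace (ρ (MonoidAlgebra.single h 1))
  rw [← h1, ← h2] at h3
  exact_mod_cast h3

private theorem artM_equiv {I J : Type} [Fintype I] [Fintype J] (D : I → Subgroup F)
    (E : J → Subgroup F) (h : ∀ χ : F → ℚ, ∑ i, artA (D i) χ = ∑ j, artA (E j) χ) :
    ∃ k : ℕ, MatEquiv (artM (Sum.elim D (fun _ : Fin k => ⊥)))
      (artM (Sum.elim E (fun _ : Fin k => ⊥))) := by
  obtain ⟨k, hk⟩ := Pool.Agent.H95.KM.exists_stab (artM D) (artM E) (artM_idem D) (artM_idem E)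
    (cls_artM_eq D E h)
  refine ⟨k, ?_⟩
  have key : ∀ {I : Type} [Fintype I] (D : I → Subgroup F),
      artM (Sum.elim D (fun _ : Fin k => ⊥)) =
        fromBlocks (artM D) 0 0 (1 : Matrix (Fin k) (Fin k) (MonoidAlgebra ℚ F)) := by
    intro I _ D
    ext a b : 1
    rcases a with a | a <;> rcases b with b | b
    · simp only [artM, diagonal_apply, fromBlocks_apply₁₁, Sum.inl.injEq, Sum.elim_inl]
    · simp only [artM, diagonal_apply, fromBlocks_apply₁₂, reduceCtorEq, if_false, Matrix.zero_apply]
    · simp only [artM, diagonal_apply, fromBlocks_apply₂₁, reduceCtorEq, if_false, Matrix.zero_apply]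
    · simp only [artM, diagonal_apply, fromBlocks_apply₂₂, Sum.inr.injEq, Sum.elim_inr, artE_bot,
        Matrix.one_apply]
  rw [key, key]
  exact hk

/-- Convolution data. -/
private theorem art_conv {I J : Type} [Fintype I] [Fintype J] (D : I → Subgroup F)
    (E : J → Subgroup F) (h : MatEquiv (artM D) (artM E)) :
    ∃ (u : I → J → F → ℚ) (v : J → I → F → ℚ),
      (∀ i j, ∀ d ∈ D i, ∀ e ∈ E j, ∀ t, u i j (d * t * e) = u i j t) ∧
      (∀ j i, ∀ e ∈ E j, ∀ d ∈ D i, ∀ t, v j i (e * t * d) = v j i t) ∧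
      (∀ i i' g, ∑ j, ∑ y : F, u i j y * v j i' (y⁻¹ * g) =
        if i = i' ∧ g ∈ D i then (Nat.card (D i) : ℚ)⁻¹ else 0) ∧
      (∀ j j' g, ∑ i, ∑ y : F, v j i y * u i j' (y⁻¹ * g) =
        if j = j' ∧ g ∈ E j then (Nat.card (E j) : ℚ)⁻¹ else 0) := by
  obtain ⟨x, y, hxy, hyx⟩ := h
  have inv : ∀ {I J : Type} [Fintype I] [Fintype J] (D : I → Subgroup F) (E : J → Subgroup F)
      (x : Matrix I J (MonoidAlgebra ℚ F)) (i : I) (j : J), ∀ d ∈ D i, ∀ e ∈ E j, ∀ t,
      ((artM D * x * artM E) i j).coeff (d * t * e) = ((artM D * x * artM E) i j).coeff t := by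
    intro I J _ _ D E x i j d hd e he t
    have h1 : (artM D * x * artM E) i j = artE (D i) * x i j * artE (E j) := by
      rw [artM, artM, mul_diagonal, diagonal_mul]
    rw [h1]
    have h2 : artE (D i) * x i j * artE (E j) =
        MonoidAlgebra.single d⁻¹ (1 : ℚ) * (artE (D i) * x i j * artE (E j)) *
          MonoidAlgebra.single e⁻¹ (1 : ℚ) := by
      calc artE (D i) * x i j * artE (E j)
          = (MonoidAlgebra.single d⁻¹ (1 : ℚ) * artE (D i)) * x i j *
            (artE (E j) * MonoidAlgebra.single e⁻¹ (1 : ℚ)) := by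
            rw [artE_mul_single _ _ ((E j).inv_mem he), single_mul_artE _ _ ((D i).inv_mem hd)]
        _ = _ := by simp only [mul_assoc]
    conv_rhs => rw [h2]
    rw [MonoidAlgebra.coeff_mul_single_apply, MonoidAlgebra.coeff_single_mul_apply, mul_one,
      one_mul, inv_inv, inv_inv, ← mul_assoc]
  have prod : ∀ {I J : Type} [Fintype I] [Fintype J] (D : I → Subgroup F) (E : J → Subgroup F)
      (x : Matrix I J (MonoidAlgebra ℚ F)) (y : Matrix J I (MonoidAlgebra ℚ F)),
      x * y = artM D → y * x = artM E →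
      (artM D * x * artM E) * (artM E * y * artM D) = artM D := by
    intro I J _ _ D E x y hxy hyx
    have hE := artM_idem E
    calc (artM D * x * artM E) * (artM E * y * artM D)
        = artM D * x * (artM E * artM E) * y * artM D := by simp only [Matrix.mul_assoc]
      _ = artM D * x * (y * x) * y * artM D := by rw [hE, hyx]
      _ = artM D * (x * y) * (x * y) * artM D := by simp only [Matrix.mul_assoc]
      _ = artM D := by rw [hxy, artM_idem, artM_idem, artM_idem]
  have coef : ∀ {I J : Type} [Fintype I] [Fintype J] (D : I → Subgroup F)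
      (x : Matrix I J (MonoidAlgebra ℚ F)) (y : Matrix J I (MonoidAlgebra ℚ F)),
      x * y = artM D → ∀ i i' g, ∑ j, ∑ z : F, (x i j).coeff z * (y j i').coeff (z⁻¹ * g) =
        if i = i' ∧ g ∈ D i then (Nat.card (D i) : ℚ)⁻¹ else 0 := by
    intro I J _ _ D x y hxy i i' g
    have h1 : ∀ j, ∑ z : F, (x i j).coeff z * (y j i').coeff (z⁻¹ * g) =
        (x i j * y j i').coeff g := by
      intro j
      rw [MonoidAlgebra.coeff_mul_apply_left, Finsupp.sum_fintype]
      intro z
      rw [zero_mul]
    simp only [h1]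
    rw [← Finsupp.finsetSum_apply, ← MonoidAlgebra.coeff_sum, ← Matrix.mul_apply, hxy, artM,
      diagonal_apply]
    by_cases hi : i = i'
    · subst hi
      rw [if_pos rfl, artE_coeff]
      simp
    · rw [if_neg hi, if_neg (fun hh => hi hh.1)]
      rfl
  refine ⟨fun i j t => ((artM D * x * artM E) i j).coeff t,
    fun j i t => ((artM E * y * artM D) j i).coeff t, ?_, ?_, ?_, ?_⟩
  · exact fun i j d hd e he t => inv D E x i j d hd e he t
  · exact fun j i e he d hd t => inv E D y j i e he d hd t
  · exact coef D _ _ (prod D E x y hxy hyx)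
  · exact coef E _ _ (prod E D y x hyx hxy)

/-- The matrix of a family of functions on the group. -/
private noncomputable def artN {I J : Type} (D : I → Subgroup F) (E : J → Subgroup F)
    (u : I → J → F → ℚ) : Matrix (Σ i, F ⧸ D i) (Σ j, F ⧸ E j) ℚ :=
  Matrix.of fun x y => (Nat.card (E y.1) : ℚ) * u x.1 y.1 (x.2.out⁻¹ * y.2.out)

private theorem artN_mul {I J : Type} [Fintype I] [Fintype J] (D : I → Subgroup F)
    (E : J → Subgroup F) [Fintype (Σ i, F ⧸ D i)] [Fintype (Σ j, F ⧸ E j)]
    (u : I → J → F → ℚ) (v : J → I → F → ℚ)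
    (hu : ∀ i j, ∀ e ∈ E j, ∀ t, u i j (t * e) = u i j t)
    (hv : ∀ j i, ∀ e ∈ E j, ∀ t, v j i (e * t) = v j i t)
    (huv : ∀ i i' g, ∑ j, ∑ y : F, u i j y * v j i' (y⁻¹ * g) =
        if i = i' ∧ g ∈ D i then (Nat.card (D i) : ℚ)⁻¹ else 0) :
    artN D E u * artN E D v = 1 := by
  ext ⟨i, q⟩ ⟨i', q'⟩
  rw [Matrix.mul_apply]
  have e0 : ∀ f : (Σ j, F ⧸ E j) → ℚ, ∑ x, f x = ∑ j, ∑ r : F ⧸ E j, f ⟨j, r⟩ := by
    intro f
    have h1 := Fintype.sum_sigma f
    rw [← h1]
    exact Finset.sum_congr (by ext; simp) (fun _ _ => rfl)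
  rw [e0]
  have e1 : ∀ j, ∑ r : F ⧸ E j, artN D E u ⟨i, q⟩ ⟨j, r⟩ * artN E D v ⟨j, r⟩ ⟨i', q'⟩ =
      (Nat.card (D i') : ℚ) * ∑ y : F, u i j y * v j i' (y⁻¹ * (q.out⁻¹ * q'.out)) := by
    intro j
    have h1 : ∑ y : F, u i j y * v j i' (y⁻¹ * (q.out⁻¹ * q'.out)) =
        ∑ y : F, u i j (q.out⁻¹ * y) * v j i' (y⁻¹ * q'.out) := by
      rw [← Equiv.sum_comp (Equiv.mulLeft q.out⁻¹)
        (fun y => u i j y * v j i' (y⁻¹ * (q.out⁻¹ * q'.out)))]
      apply Finset.sum_congr rfl
      intro y _
      simp only [Equiv.coe_mulLeft]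
      congr 2
      group
    rw [h1, sum_out (E j) (fun y => u i j (q.out⁻¹ * y) * v j i' (y⁻¹ * q'.out))]
    · rw [nsmul_eq_mul, Finset.mul_sum, Finset.mul_sum]
      apply Finset.sum_congr rfl
      intro r _
      simp only [artN, of_apply]
      ring
    · intro y d hd
      rw [← mul_assoc, hu i j d hd, _root_.mul_inv_rev, mul_assoc, hv j i' d⁻¹ ((E j).inv_mem hd)]
  simp only [e1]
  rw [← Finset.mul_sum, huv, Matrix.one_apply]
  by_cases hi : i = i'
  · subst hi
    have h2 : q.out⁻¹ * q'.out ∈ D i ↔ q = q' := by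
      rw [← QuotientGroup.eq, QuotientGroup.out_eq', QuotientGroup.out_eq']
    by_cases hq : q = q'
    · rw [if_pos ⟨rfl, h2.2 hq⟩, if_pos (by rw [hq]), mul_inv_cancel₀]
      exact_mod_cast Nat.card_pos.ne'
    · rw [if_neg (fun hh => hq (h2.1 hh.2)), if_neg, mul_zero]
      intro hh
      apply hq
      simpa using hh
  · rw [if_neg (fun hh => hi hh.1), if_neg, mul_zero]
    intro hh
    exact hi (congrArg Sigma.fst hh)

omit [Fintype F] in
private theorem out_smul (D : Subgroup F) (h : F) (q : F ⧸ D) :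
    ∃ d ∈ D, (h • q).out = h * q.out * d := by
  obtain ⟨d, hd⟩ := QuotientGroup.mk_out_eq_mul D (h * q.out)
  refine ⟨d, d.2, ?_⟩
  rw [← hd]
  congr 1
  conv_lhs => rw [← QuotientGroup.out_eq' q]
  rfl

omit [Fintype F] in
private theorem artN_smul {I J : Type} (D : I → Subgroup F) (E : J → Subgroup F)
    (u : I → J → F → ℚ)
    (hu : ∀ i j, ∀ d ∈ D i, ∀ e ∈ E j, ∀ t, u i j (d * t * e) = u i j t) (h : F) (x y) :
    artN D E u (h • x) (h • y) = artN D E u x y := by
  obtain ⟨i, q⟩ := x
  obtain ⟨j, r⟩ := y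
  obtain ⟨d, hd, hd'⟩ := out_smul (D i) h q
  obtain ⟨e, he, he'⟩ := out_smul (E j) h r
  change (Nat.card (E j) : ℚ) * u i j ((h • q).out⁻¹ * (h • r).out) =
    (Nat.card (E j) : ℚ) * u i j (q.out⁻¹ * r.out)
  rw [hd', he']
  congr 1
  have : (h * q.out * d)⁻¹ * (h * r.out * e) = d⁻¹ * (q.out⁻¹ * r.out) * e := by group
  rw [this]
  exact hu i j d⁻¹ ((D i).inv_mem hd) e he _

/-- Clearing denominators. -/
private theorem art_clear {m n : Type*} [Fintype m] [Fintype n] (A : Matrix m n ℚ) :
    ∃ (d : ℕ) (a : Matrix m n ℤ), d ≠ 0 ∧ ∀ x y, (a x y : ℚ) = d * A x y := by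
  refine ⟨∏ p : m × n, (A p.1 p.2).den, Matrix.of fun x y =>
    ((∏ p : m × n, (A p.1 p.2).den) / (A x y).den : ℕ) * (A x y).num, ?_, ?_⟩
  · rw [Finset.prod_ne_zero_iff]
    exact fun p _ => (A p.1 p.2).den_ne_zero
  · intro x y
    have hdvd : (A x y).den ∣ ∏ p : m × n, (A p.1 p.2).den :=
      Finset.dvd_prod_of_mem (fun p : m × n => (A p.1 p.2).den) (Finset.mem_univ (x, y))
    obtain ⟨c, hc⟩ := hdvd
    rw [Matrix.of_apply, hc, Nat.mul_div_cancel_left _ (A x y).den_pos]
    push_cast
    have h1 : ((A x y).num : ℚ) = A x y * (A x y).den := (Rat.mul_den_eq_num _).symm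
    rw [h1]
    ring

private theorem art_int {I J : Type} [Fintype I] [Fintype J] (D : I → Subgroup F)
    (E : J → Subgroup F) [Fintype (Σ i, F ⧸ D i)] [Fintype (Σ j, F ⧸ E j)]
    (h : MatEquiv (artM D) (artM E)) :
    ∃ (a : Matrix (Σ i, F ⧸ D i) (Σ j, F ⧸ E j) ℤ) (b : Matrix (Σ j, F ⧸ E j) (Σ i, F ⧸ D i) ℤ)
      (n : ℕ), n ≠ 0 ∧ a * b = (n : ℤ) • 1 ∧ b * a = (n : ℤ) • 1 ∧
        ∀ (h : F) x y, a (h • x) (h • y) = a x y := by
  obtain ⟨u, v, hu, hv, huv, hvu⟩ := art_conv D E h
  have hAB : artN D E u * artN E D v = 1 := artN_mul D E u v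
    (fun i j e he t => by simpa using hu i j 1 (D i).one_mem e he t)
    (fun j i e he t => by simpa using hv j i e he 1 (D i).one_mem t) huv
  have hBA : artN E D v * artN D E u = 1 := artN_mul E D v u
    (fun j i d hd t => by simpa using hv j i 1 (E j).one_mem d hd t)
    (fun i j d hd t => by simpa using hu i j d hd 1 (E j).one_mem t) hvu
  obtain ⟨d, a, hd, ha⟩ := art_clear (artN D E u)
  obtain ⟨e, b, he, hb⟩ := art_clear (artN E D v)
  have ha' : a.map (Int.cast : ℤ → ℚ) = (d : ℚ) • artN D E u := by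
    ext x y
    rw [Matrix.map_apply, ha, Matrix.smul_apply, smul_eq_mul]
  have hb' : b.map (Int.cast : ℤ → ℚ) = (e : ℚ) • artN E D v := by
    ext x y
    rw [Matrix.map_apply, hb, Matrix.smul_apply, smul_eq_mul]
  have inj : ∀ {m : Type v} [Fintype m] [DecidableEq m] (c : Matrix m m ℤ),
      c.map (Int.cast : ℤ → ℚ) = ((d * e : ℕ) : ℚ) • 1 → c = ((d * e : ℕ) : ℤ) • 1 := by
    intro m _ _ c hc
    ext x y
    have h1 := congrFun (congrFun hc x) y
    rw [Matrix.map_apply, Matrix.smul_apply, smul_eq_mul] at h1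
    rw [Matrix.smul_apply, smul_eq_mul]
    have h2 : ((c x y : ℤ) : ℚ) = ((((d * e : ℕ) : ℤ) * (1 : Matrix m m ℤ) x y : ℤ) : ℚ) := by
      rw [h1]
      push_cast
      congr 1
      rw [Matrix.one_apply, Matrix.one_apply]
      split_ifs <;> simp
    exact_mod_cast h2
  refine ⟨a, b, d * e, Nat.mul_ne_zero hd he, ?_, ?_, ?_⟩
  · apply inj
    have : (a * b).map (Int.cast : ℤ → ℚ) = a.map (Int.cast : ℤ → ℚ) * b.map (Int.cast : ℤ → ℚ) :=
      Matrix.map_mul (f := Int.castRingHom ℚ)
    rw [this, ha', hb', Matrix.smul_mul, Matrix.mul_smul, hAB, smul_smul]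
    push_cast
    rfl
  · apply inj
    have : (b * a).map (Int.cast : ℤ → ℚ) = b.map (Int.cast : ℤ → ℚ) * a.map (Int.cast : ℤ → ℚ) :=
      Matrix.map_mul (f := Int.castRingHom ℚ)
    rw [this, ha', hb', Matrix.smul_mul, Matrix.mul_smul, hBA, smul_smul]
    push_cast
    rw [mul_comm (e : ℚ)]
  · intro g x y
    have h1 := artN_smul D E u hu g x y
    have h2 : ((a (g • x) (g • y) : ℤ) : ℚ) = ((a x y : ℤ) : ℚ) := by
      rw [ha, ha, h1]
    exact_mod_cast h2

end ArtRelAlg

private theorem art_count (F : Type v) [Group F] [Fintype F] :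
    ∃ (I J : Type) (_ : Fintype I) (_ : Fintype J) (D : I → Subgroup F) (E : J → Subgroup F),
      (∀ i, IsCyclic (D i)) ∧ (∀ j, IsCyclic (E j)) ∧
      ∀ χ : F → ℚ, ∑ h, χ h + ∑ i, artA (D i) χ = ∑ j, artA (E j) χ := by
  let s : Finset (Subgroup F) := Finset.univ.filter fun D => IsCyclic D
  obtain ⟨ν, hν⟩ := exists_nu s (fun _ => 1)
  let t : Fin s.card ≃ s := s.equivFin.symm
  have hcyc : ∀ k : Fin s.card, IsCyclic (t k : Subgroup F) := fun k =>
    (Finset.mem_filter.1 (t k).2).2
  let c : Subgroup F → ℤ := fun D => ν D * Nat.card D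
  refine ⟨Σ k : Fin s.card, Fin (-(c (t k))).toNat, Σ k : Fin s.card, Fin (c (t k)).toNat,
    inferInstance, inferInstance, fun x => t x.1, fun x => t x.1, fun x => hcyc x.1,
    fun x => hcyc x.1, ?_⟩
  intro χ
  have h1 : ∀ n : Fin s.card → ℕ, ∑ x : (Σ k : Fin s.card, Fin (n k)),
      artA (t x.1 : Subgroup F) χ = ∑ k, (n k : ℚ) * artA (t k : Subgroup F) χ := by
    intro n
    rw [Fintype.sum_sigma]
    apply Finset.sum_congr rfl
    intro k _
    change ∑ _y : Fin (n k), artA (t k : Subgroup F) χ = _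
    rw [Finset.sum_const, Finset.card_univ, Fintype.card_fin, nsmul_eq_mul]
  rw [h1, h1]
  have h2 : ∑ h, χ h = ∑ k, (c (t k) : ℚ) * artA (t k : Subgroup F) χ := by
    rw [Equiv.sum_comp t (fun D : s => (c D : ℚ) * artA (D : Subgroup F) χ),
      Finset.sum_coe_sort s (fun D => (c D : ℚ) * artA D χ)]
    have h3 : ∀ D ∈ s, (c D : ℚ) * artA D χ = ∑ h : F, if h ∈ D then (ν D : ℚ) * χ h else 0 := by
      intro D _
      have h4 : (Nat.card D : ℚ) ≠ 0 := by exact_mod_cast Nat.card_pos.ne'
      simp only [c, artA]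
      push_cast
      rw [mul_assoc, ← mul_assoc (Nat.card D : ℚ), mul_inv_cancel₀ h4, one_mul, Finset.mul_sum]
      apply Finset.sum_congr rfl
      intro h _
      split_ifs <;> simp
    rw [Finset.sum_congr rfl h3, Finset.sum_comm]
    apply Finset.sum_congr rfl
    intro h _
    rw [← Finset.sum_filter, ← Finset.sum_mul]
    have h5 : Subgroup.zpowers h ∈ s := Finset.mem_filter.2 ⟨Finset.mem_univ _, inferInstance⟩
    have h6 := hν _ h5
    have h7 : s.filter (fun D => Subgroup.zpowers h ≤ D) = s.filter (fun D => h ∈ D) := by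
      ext D
      simp only [Finset.mem_filter, Subgroup.zpowers_le]
    rw [h7] at h6
    have h8 : (∑ D ∈ s.filter (fun D => h ∈ D), (ν D : ℚ)) = 1 := by exact_mod_cast h6
    rw [h8, one_mul]
  rw [h2, ← Finset.sum_add_distrib]
  apply Finset.sum_congr rfl
  intro k _
  rw [← add_mul]
  congr 1
  have h9 : (c (t k) : ℤ) + ((-(c (t k))).toNat : ℤ) = ((c (t k)).toNat : ℤ) := by omega
  exact_mod_cast h9

private theorem smul_one_inst {m : Type v} (i1 i2 : DecidableEq m) (n : ℤ) :
    n • (@OfNat.ofNat (Matrix m m ℤ) 1 (@One.toOfNat1 _ (@Matrix.one m ℤ i1 _ _))) =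
      n • (@OfNat.ofNat (Matrix m m ℤ) 1 (@One.toOfNat1 _ (@Matrix.one m ℤ i2 _ _))) := by
  rw [Subsingleton.elim i1 i2]

theorem exists_artin_rel (F : Type v) [Group F] [Finite F] :
    ∃ (I J : Type) (_ : Fintype I) (_ : Fintype J) (D : I → Subgroup F) (E : J → Subgroup F)
      (_ : Fintype (Σ i : Fin (Nat.card F) ⊕ I, F ⧸ (Sum.elim (fun _ => ⊤) D i : Subgroup F)))
      (_ : Fintype (Σ j, F ⧸ E j))
      (a : Matrix (Σ i : Fin (Nat.card F) ⊕ I, F ⧸ (Sum.elim (fun _ => ⊤) D i : Subgroup F))
        (Σ j, F ⧸ E j) ℤ)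
      (b : Matrix (Σ j, F ⧸ E j)
        (Σ i : Fin (Nat.card F) ⊕ I, F ⧸ (Sum.elim (fun _ => ⊤) D i : Subgroup F)) ℤ) (n : ℕ),
      (∀ i, IsCyclic (D i)) ∧ (∀ j, IsCyclic (E j)) ∧ n ≠ 0 ∧
        a * b = (n : ℤ) • 1 ∧ b * a = (n : ℤ) • 1 ∧
        ∀ (h : F) x y, a (h • x) (h • y) = a x y := by
  have : Fintype F := Fintype.ofFinite F
  obtain ⟨I, J, _, _, D, E, hD, hE, hsum⟩ := art_count F
  have h1 : ∀ χ : F → ℚ, ∑ i : Fin (Nat.card F) ⊕ I,
      artA (Sum.elim (fun _ => ⊤) D i : Subgroup F) χ = ∑ j, artA (E j) χ := by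
    intro χ
    rw [← hsum, Fintype.sum_sum_type]
    congr 1
    simp only [Sum.elim_inl]
    rw [Finset.sum_const, Finset.card_univ, Fintype.card_fin, nsmul_eq_mul, artA, ← mul_assoc]
    have h2 : Nat.card (⊤ : Subgroup F) = Nat.card F := Subgroup.card_top
    have h3 : (Nat.card F : ℚ) ≠ 0 := by exact_mod_cast Nat.card_pos.ne'
    rw [h2, mul_inv_cancel₀ h3, one_mul]
    simp
  obtain ⟨k, hk⟩ := artM_equiv _ E h1
  have hk' : MatEquiv (artM (Sum.elim (fun _ : Fin (Nat.card F) => (⊤ : Subgroup F))
      (Sum.elim D (fun _ : Fin k => ⊥)))) (artM (Sum.elim E (fun _ : Fin k => ⊥))) := by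
    refine K0.matEquiv_trans (artM_idem _) (artM_idem _) ?_ hk
    have h4 : artM (Sum.elim (Sum.elim (fun _ : Fin (Nat.card F) => (⊤ : Subgroup F)) D)
        (fun _ : Fin k => ⊥)) = (artM (Sum.elim (fun _ : Fin (Nat.card F) => (⊤ : Subgroup F))
      (Sum.elim D (fun _ : Fin k => ⊥)))).submatrix (Equiv.sumAssoc _ _ _)
        (Equiv.sumAssoc _ _ _) := by
      ext x y : 1
      rcases x with (x | x) | x <;> rcases y with (y | y) | y <;>
        simp [artM, diagonal_apply]
    rw [h4]
    exact K0.matEquiv_symm (K0.matEquiv_submatrix _ (artM_idem _) _)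
  have f1 : Finite (Σ i : Fin (Nat.card F) ⊕ (I ⊕ Fin k), F ⧸ (Sum.elim (fun _ => ⊤)
      (Sum.elim D (fun _ : Fin k => ⊥)) i : Subgroup F)) := inferInstance
  have f2 : Finite (Σ j, F ⧸ (Sum.elim E (fun _ : Fin k => ⊥) j : Subgroup F)) := inferInstance
  let i1 := Fintype.ofFinite (Σ i : Fin (Nat.card F) ⊕ (I ⊕ Fin k), F ⧸ (Sum.elim (fun _ => ⊤)
      (Sum.elim D (fun _ : Fin k => ⊥)) i : Subgroup F))
  let i2 := Fintype.ofFinite (Σ j, F ⧸ (Sum.elim E (fun _ : Fin k => ⊥) j : Subgroup F))
  obtain ⟨a, b, n, hn, hab, hba, heq⟩ := art_int _ _ hk'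
  refine ⟨I ⊕ Fin k, J ⊕ Fin k, inferInstance, inferInstance, Sum.elim D (fun _ : Fin k => ⊥),
    Sum.elim E (fun _ : Fin k => ⊥), i1, i2, a, b, n, ?_, ?_, hn, ?_, ?_, heq⟩
  · rintro (i | i)
    · exact hD i
    · change IsCyclic (⊥ : Subgroup F)
      infer_instance
  · rintro (j | j)
    · exact hE j
    · change IsCyclic (⊥ : Subgroup F)
      infer_instance
  · exact hab.trans (smul_one_inst _ _ _)
  · exact hba.trans (smul_one_inst _ _ _)

end Pool.Agent.H95.WH

end

section

/-!
# Rationally isomorphic lattices modulo a prime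

Let `a : Matrix X Y ℤ`, `b : Matrix Y X ℤ`, `a b = n`, `b a = n`, `n ≠ 0`, and let `A h`, `B h` be matrices with
`A h * a = a * B h` for all `h`. Then in suitable `ℤ`-bases `A h` and `B h` are, modulo `p`, block upper and
block lower triangular with respect to a function `v`, with conjugate diagonal blocks.

## Paper proof

Smith normal form of `a` (`Submodule.exists_smith_normal_form_of_rank_eq` for the range of `a.mulVecLin` in
`X → ℤ`, which has full rank since `a b = n`; `a.mulVecLin` is injective since `b a = n`): there are invertible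
integral matrices `P` (`X × X`, inverse `P'`), `Q` (`Y × X`, inverse `Q'`) and integers `d i ≠ 0`, `i : X`, with
`P' a Q = diagonal d`. (Basis `β i` of `X → ℤ`, basis `γ i` of the range with `γ i = d i • β i`: `P` has the columns
`β i`; the columns of `Q` are the preimages of the `γ i` in `Y → ℤ`, a basis since `a.mulVecLin` is injective.)

Put `A' h = P' A h P`, `B' h = Q' B h Q`. From `A h a = a B h`: `A' h (diagonal d) = (diagonal d) B' h`, i.e.
`A' h i j * d j = d i * B' h i j`. Let `v i` be the exponent of `p` in `d i` (`padicValInt` or `multiplicity`),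
`d i = p ^ v i * u i`, `p ∤ u i`, and choose `u' i` with `u i u' i ≡ 1 mod p`.
- `v j < v i`: `A' h i j * u j = p ^ (v i - v j) * u i * B' h i j`, so `p ∣ A' h i j`.
- `v i < v j`: `A' h i j * p ^ (v j - v i) * u j = u i * B' h i j`, so `p ∣ B' h i j`.
- `v i = v j`: `A' h i j * u j = u i * B' h i j`; multiply by `u' j`.
-/

set_option autoImplicit false

open Matrix

universe u v w

namespace Pool.Agent.H95.WH

theorem exists_smn {X Y : Type v} [Fintype X] [Fintype Y] [DecidableEq X] [DecidableEq Y]
    (n : ℕ) (hn : n ≠ 0) (a : Matrix X Y ℤ) (b : Matrix Y X ℤ)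
    (hab : a * b = (n : ℤ) • (1 : Matrix X X ℤ)) (hba : b * a = (n : ℤ) • (1 : Matrix Y Y ℤ)) :
    ∃ (P P' : Matrix X X ℤ) (Q : Matrix Y X ℤ) (Q' : Matrix X Y ℤ) (d : X → ℤ),
      P * P' = 1 ∧ P' * P = 1 ∧ Q * Q' = 1 ∧ Q' * Q = 1 ∧ a * Q = P * diagonal d ∧
        ∀ i, d i ≠ 0 := by
  have hn' : (n : ℤ) ≠ 0 := by exact_mod_cast hn
  have hainj : Function.Injective a.mulVecLin := by
    rw [← LinearMap.ker_eq_bot, LinearMap.ker_eq_bot']
    intro y hy
    have h1 : b *ᵥ (a *ᵥ y) = 0 := by
      have : a *ᵥ y = 0 := hy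
      rw [this, mulVec_zero]
    rw [mulVec_mulVec, hba, smul_mulVec, one_mulVec] at h1
    exact (smul_eq_zero.1 h1).resolve_left hn'
  have hbinj : Function.Injective b.mulVecLin := by
    rw [← LinearMap.ker_eq_bot, LinearMap.ker_eq_bot']
    intro y hy
    have h1 : a *ᵥ (b *ᵥ y) = 0 := by
      have : b *ᵥ y = 0 := hy
      rw [this, mulVec_zero]
    rw [mulVec_mulVec, hab, smul_mulVec, one_mulVec] at h1
    exact (smul_eq_zero.1 h1).resolve_left hn'
  have hfr : Module.finrank ℤ (Y → ℤ) = Module.finrank ℤ (X → ℤ) :=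
    le_antisymm (LinearMap.finrank_le_finrank_of_injective hainj)
      (LinearMap.finrank_le_finrank_of_injective hbinj)
  have hfr' : Module.finrank ℤ (LinearMap.range a.mulVecLin) = Module.finrank ℤ (X → ℤ) := by
    rw [← hfr]
    exact (LinearEquiv.ofInjective a.mulVecLin hainj).finrank_eq.symm
  obtain ⟨β, d, γ, hγ⟩ := Submodule.exists_smith_normal_form_of_rank_eq (Pi.basisFun ℤ X) hfr'
  let c : Module.Basis X ℤ (Y → ℤ) := γ.map (LinearEquiv.ofInjective a.mulVecLin hainj).symm
  have hc : ∀ i, a *ᵥ (c i) = d i • β i := by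
    intro i
    rw [← hγ i]
    have h1 : LinearEquiv.ofInjective a.mulVecLin hainj (c i) = γ i := by
      rw [Module.Basis.map_apply, LinearEquiv.apply_symm_apply]
    rw [← h1]
    rfl
  refine ⟨(Pi.basisFun ℤ X).toMatrix β, β.toMatrix (Pi.basisFun ℤ X),
    (Pi.basisFun ℤ Y).toMatrix c, c.toMatrix (Pi.basisFun ℤ Y), d,
    Module.Basis.toMatrix_mul_toMatrix_flip _ _, Module.Basis.toMatrix_mul_toMatrix_flip _ _,
    Module.Basis.toMatrix_mul_toMatrix_flip _ _, Module.Basis.toMatrix_mul_toMatrix_flip _ _, ?_, ?_⟩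
  · ext x i
    have h1 := congrFun (hc i) x
    rw [mul_diagonal]
    have h2 : (a * (Pi.basisFun ℤ Y).toMatrix c) x i = (a *ᵥ (c i)) x := rfl
    rw [h2, h1]
    have h3 : ((Pi.basisFun ℤ X).toMatrix β) x i = β i x := rfl
    rw [h3, Pi.smul_apply, smul_eq_mul, mul_comm]
  · intro i hi
    apply γ.ne_zero i
    apply Subtype.ext
    rw [hγ i, hi, zero_smul]
    rfl

private theorem exists_val (p : ℕ) [Fact p.Prime] (d : ℤ) (hd : d ≠ 0) :
    ∃ (v : ℕ) (u u' : ℤ), d = (p : ℤ) ^ v * u ∧ ¬ (p : ℤ) ∣ u ∧ (p : ℤ) ∣ u * u' - 1 := by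
  have hp : Prime (p : ℤ) := Nat.prime_iff_prime_int.1 (Fact.out : p.Prime)
  have hfin : FiniteMultiplicity (p : ℤ) d := by
    rw [Int.finiteMultiplicity_iff]
    refine ⟨?_, hd⟩
    rw [Int.natAbs_natCast]
    exact (Fact.out : p.Prime).ne_one
  obtain ⟨u, h1, h2⟩ := hfin.exists_eq_pow_mul_and_not_dvd
  have hcop : IsCoprime (p : ℤ) u := (hp.irreducible.coprime_iff_not_dvd).2 h2
  obtain ⟨x, y, hxy⟩ := hcop
  refine ⟨_, u, y, h1, h2, -x, ?_⟩
  linear_combination hxy

theorem exists_modp (p : ℕ) [Fact p.Prime] {X Y : Type v} [Fintype X] [Fintype Y]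
    [DecidableEq X] [DecidableEq Y] (n : ℕ) (hn : n ≠ 0) (a : Matrix X Y ℤ) (b : Matrix Y X ℤ)
    (hab : a * b = (n : ℤ) • (1 : Matrix X X ℤ)) (hba : b * a = (n : ℤ) • (1 : Matrix Y Y ℤ))
    {H : Type w} (A : H → Matrix X X ℤ) (B : H → Matrix Y Y ℤ) (hAB : ∀ h, A h * a = a * B h) :
    ∃ (v : X → ℕ) (P P' : Matrix X X ℤ) (Q : Matrix Y X ℤ) (Q' : Matrix X Y ℤ) (u u' : X → ℤ),
      P * P' = 1 ∧ P' * P = 1 ∧ Q * Q' = 1 ∧ Q' * Q = 1 ∧ (∀ i, (p : ℤ) ∣ u i * u' i - 1) ∧
      (∀ h i j, v j < v i → (p : ℤ) ∣ (P' * A h * P) i j) ∧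
      (∀ h i j, v i < v j → (p : ℤ) ∣ (Q' * B h * Q) i j) ∧
      (∀ h i j, v i = v j →
        (p : ℤ) ∣ (P' * A h * P) i j - u i * (Q' * B h * Q) i j * u' j) := by
  have hp : Prime (p : ℤ) := Nat.prime_iff_prime_int.1 (Fact.out : p.Prime)
  have hp0 : (p : ℤ) ≠ 0 := hp.ne_zero
  obtain ⟨P, P', Q, Q', d, h1, h2, h3, h4, h5, hd⟩ := exists_smn n hn a b hab hba
  choose v u u' hv hu hu' using fun i => exists_val p (d i) (hd i)
  refine ⟨v, P, P', Q, Q', u, u', h1, h2, h3, h4, hu', ?_⟩
  have hPa : P' * a = diagonal d * Q' := by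
    have h6 : P' * (a * Q) * Q' = P' * a := by
      rw [Matrix.mul_assoc, Matrix.mul_assoc, h3, Matrix.mul_one]
    rw [← h6, h5, ← Matrix.mul_assoc P' P, h2, Matrix.one_mul]
  have key : ∀ h i j, (P' * A h * P) i j * d j = d i * (Q' * B h * Q) i j := by
    intro h i j
    have h7 : P' * A h * P * diagonal d = diagonal d * (Q' * B h * Q) := by
      calc P' * A h * P * diagonal d = P' * A h * (P * diagonal d) := Matrix.mul_assoc _ _ _
        _ = P' * (A h * a) * Q := by
            rw [← h5, ← Matrix.mul_assoc, Matrix.mul_assoc P' (A h) a]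
        _ = P' * a * B h * Q := by rw [hAB, ← Matrix.mul_assoc P' a]
        _ = diagonal d * (Q' * B h * Q) := by
            rw [hPa, Matrix.mul_assoc, Matrix.mul_assoc, Matrix.mul_assoc]
    have h8 := congrFun (congrFun h7 i) j
    rwa [mul_diagonal, diagonal_mul] at h8
  refine ⟨fun h i j hij => ?_, fun h i j hij => ?_, fun h i j hij => ?_⟩
  · obtain ⟨e, he⟩ := Nat.exists_eq_add_of_lt hij
    have h9 := key h i j
    rw [hv i, hv j, he, pow_add, pow_add, pow_one] at h9
    have h10 : (P' * A h * P) i j * u j = (p : ℤ) * ((p : ℤ) ^ e * u i * (Q' * B h * Q) i j) := by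
      apply mul_left_cancel₀ (pow_ne_zero (v j) hp0)
      linear_combination h9
    exact (hp.dvd_or_dvd (Dvd.intro _ h10.symm)).resolve_right (hu j)
  · obtain ⟨e, he⟩ := Nat.exists_eq_add_of_lt hij
    have h9 := key h i j
    rw [hv i, hv j, he, pow_add, pow_add, pow_one] at h9
    have h10 : u i * (Q' * B h * Q) i j = (p : ℤ) * ((p : ℤ) ^ e * u j * (P' * A h * P) i j) := by
      apply mul_left_cancel₀ (pow_ne_zero (v i) hp0)
      linear_combination -h9
    exact (hp.dvd_or_dvd (Dvd.intro _ h10.symm)).resolve_left (hu i)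
  · have h9 := key h i j
    rw [hv i, hv j, hij] at h9
    have h10 : (P' * A h * P) i j * u j = u i * (Q' * B h * Q) i j := by
      apply mul_left_cancel₀ (pow_ne_zero (v j) hp0)
      linear_combination h9
    obtain ⟨w, hw⟩ := hu' j
    refine ⟨-((P' * A h * P) i j * w), ?_⟩
    rw [← h10]
    linear_combination -(P' * A h * P) i j * hw

end Pool.Agent.H95.WH

end
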