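import Pool.Agent.H94.FJ.M03
import Pool.Agent.H94.FJ.M06

/-! The parts of this file: H95.KM.PropOne, H95.KM.Extract, H95.KM.Detect, H95.KM.Trans, H95.KM.LinAlg, H95.KF.Kres. -/

section

/-!
# Project KM, module PropOne: `p`-adic vanishing of traces of idempotents

`clsFun f : MonoidAlgebra A G →+ A` is the functional `∑ a_g g ↦ ∑ a_g f(g)`
(`Pool/Agent/H71/FJ/Cyc.lean`, with `clsFun_single`, `clsFun_comm`).

PROOF of `trace_zero`.  By `hA` it suffices to show that `(p : A) ^ N` divides the left hand side for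
every `N`; let `N = K + 1` (`N = 0` is trivial).  Work in the ring `Mat_n(A[G])`, `n = e.n`, with the
trace function `τ X = clsFun (cj A c) (trace X)` (`τ (X Y) = τ (Y X)`: `clsFun_comm` and the usual
computation, see `K0.tr` in `Pool/Agent/H71/FJ/K0.lean`).
Let `S ⊂ G` be a finite set containing the supports of the entries of `e.mat`, and
`x g = E_g · g` for `g ∈ S`, i.e. `x g i j = MonoidAlgebra.single g ((e.mat i j).coeff g)`, so
`∑_{g ∈ S} x g = e.mat`.  For a word `ω : Fin (p ^ K) → S` the product of the `x (ω i)` is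
`E_ω · h_ω` with `E_ω ∈ Mat_n(A)` (the product of the `E_{ω i}`) and `h_ω ∈ G` the product of the
`ω i`; its `q`-th power is `(E_ω)^q · h_ω^q`, with `τ`-value `tr((E_ω)^q)` if `h_ω ^ q ~ c` and `0`
otherwise.
Choose `m ≥ K` such that, with `q = p ^ (m - K)`, no `h_ω ^ q` is conjugate to `c`: if `h ^ q ~ c`
with `q = p ^ M` then `orderOf (h ^ q) = orderOf c > 0` is divisible by `p`, so `h` has finite
order and `orderOf h = q * orderOf c` (`orderOf_pow' / orderOf h = gcd * ..`: if `p` divides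
`orderOf h / gcd (orderOf h) (p ^ M)` then `gcd (orderOf h) (p ^ M) = p ^ M`), hence
`p ^ M ∣ orderOf h`, `p ^ M ≤ orderOf h`; so any `M` with `p ^ M > orderOf h_ω` for all the finitely
many `ω` works.
As `e.mat = e.mat ^ (p ^ m)` the lemma `words` gives `τ (e.mat) ∈ p ^ (K + 1) A`.
-/

set_option autoImplicit false

open Matrix

universe u v

namespace Pool.Agent.H95.KM

open Pool.Agent.H71.FJ

open Classical in
/-- The indicator function of the conjugacy class of `c`. -/
noncomputable def cj (B : Type u) [CommRing B] {G : Type v} [Group G] (c h : G) : B :=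
  if IsConj c h then 1 else 0

theorem cj_comm (B : Type u) [CommRing B] {G : Type v} [Group G] (c x y : G) :
    cj B c (x * y) = cj B c (y * x) := by
  have h : IsConj (x * y) (y * x) := isConj_iff.2 ⟨x⁻¹, by group⟩
  unfold cj
  by_cases h1 : IsConj c (x * y)
  · rw [if_pos h1, if_pos (h1.trans h)]
  · rw [if_neg h1, if_neg (fun h2 => h1 (h2.trans h.symm))]

/-- The matrix `E · g` over the group ring. -/
private noncomputable def po_sg {A : Type u} [CommRing A] {G : Type v} [Group G] {n : ℕ} (g : G)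
    (E : Matrix (Fin n) (Fin n) A) : Matrix (Fin n) (Fin n) (MonoidAlgebra A G) :=
  E.map (MonoidAlgebra.single g)

private theorem po_sg_mul {A : Type u} [CommRing A] {G : Type v} [Group G] {n : ℕ} (g h : G)
    (E F : Matrix (Fin n) (Fin n) A) : po_sg g E * po_sg h F = po_sg (g * h) (E * F) := by
  refine Matrix.ext fun i j => ?_
  rw [Matrix.mul_apply]
  simp only [po_sg, Matrix.map_apply, MonoidAlgebra.single_mul_single]
  rw [Matrix.mul_apply]
  exact (map_sum (MonoidAlgebra.singleAddHom (g * h) : A →+ MonoidAlgebra A G)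
    (fun k => E i k * F k j) Finset.univ).symm

private theorem po_sg_one {A : Type u} [CommRing A] {G : Type v} [Group G] {n : ℕ} :
    po_sg (1 : G) (1 : Matrix (Fin n) (Fin n) A) = 1 := by
  refine Matrix.ext fun i j => ?_
  by_cases hij : i = j
  · subst hij
    simp only [po_sg, Matrix.map_apply, Matrix.one_apply_eq]
    rfl
  · simp only [po_sg, Matrix.map_apply, Matrix.one_apply_ne hij]
    exact MonoidAlgebra.single_zero _

private theorem po_list {A : Type u} [CommRing A] {G : Type v} [Group G] {n : ℕ} {S : Type*}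
    (g : S → G) (E : S → Matrix (Fin n) (Fin n) A) (l : List S) :
    (l.map (fun s => po_sg (g s) (E s))).prod = po_sg (l.map g).prod (l.map E).prod := by
  induction l with
  | nil => simp only [List.map_nil, List.prod_nil]; exact po_sg_one.symm
  | cons a l ih =>
    simp only [List.map_cons, List.prod_cons]
    rw [ih, po_sg_mul]

private theorem po_pow {A : Type u} [CommRing A] {G : Type v} [Group G] {n : ℕ} (g : G)
    (E : Matrix (Fin n) (Fin n) A) (q : ℕ) : po_sg g E ^ q = po_sg (g ^ q) (E ^ q) := by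
  induction q with
  | zero => rw [pow_zero, pow_zero, pow_zero]; exact po_sg_one.symm
  | succ q ih => rw [pow_succ, ih, po_sg_mul, ← pow_succ, ← pow_succ]

private theorem po_trace {A : Type u} [CommRing A] {G : Type v} [Group G] {n : ℕ} (c g : G)
    (E : Matrix (Fin n) (Fin n) A) (h : ¬ IsConj c g) :
    clsFun (cj A c) (trace (po_sg g E)) = 0 := by
  have h1 : trace (po_sg g E) = MonoidAlgebra.single g (trace E) := by
    simp only [trace, diag, po_sg, Matrix.map_apply]
    exact (map_sum (MonoidAlgebra.singleAddHom g : A →+ MonoidAlgebra A G)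
      (fun k => E k k) Finset.univ).symm
  rw [h1, clsFun_single, cj, if_neg h, mul_zero]

/-- If `h ^ (p ^ M)` is conjugate to a `p`-singular element `c` of finite order then
`p ^ M ≤ orderOf h`. -/
private theorem po_order {G : Type v} [Group G] (p : ℕ) [hp : Fact p.Prime] (c h : G)
    (hc : 0 < orderOf c) (hpc : p ∣ orderOf c) (M : ℕ) (hh : IsConj c (h ^ (p ^ M))) :
    p ^ M ≤ orderOf h := by
  have hd : orderOf (h ^ (p ^ M)) = orderOf c := by
    obtain ⟨g, hg⟩ := isConj_iff.1 hh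
    rw [← hg]
    exact (orderOf_injective (MulAut.conj g).toMonoidHom (MulAut.conj g).injective c).symm ▸ rfl
  have hpM : p ^ M ≠ 0 := pow_ne_zero _ hp.out.ne_zero
  have h1 : orderOf h / Nat.gcd (orderOf h) (p ^ M) = orderOf c := by
    rw [← orderOf_pow' h hpM, hd]
  have ha : 0 < orderOf h := by
    rcases Nat.eq_zero_or_pos (orderOf h) with h0 | h0
    · rw [h0] at h1
      simp at h1
      omega
    · exact h0
  have hga : Nat.gcd (orderOf h) (p ^ M) ∣ orderOf h := Nat.gcd_dvd_left _ _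
  have hgp : Nat.gcd (orderOf h) (p ^ M) ∣ p ^ M := Nat.gcd_dvd_right _ _
  obtain ⟨j, hj, hgj⟩ := (Nat.dvd_prime_pow hp.out).1 hgp
  have hjM : j = M := by
    by_contra hne
    have hlt : j < M := lt_of_le_of_ne hj hne
    have h2 : p ^ (j + 1) ∣ orderOf h := by
      obtain ⟨k, hk⟩ := hpc
      rw [hk, hgj] at h1
      rw [hgj] at hga
      have h3 := Nat.div_mul_cancel hga
      rw [h1] at h3
      exact ⟨k, by rw [← h3, pow_succ]; ring⟩
    have h3 : p ^ (j + 1) ∣ p ^ M := pow_dvd_pow p hlt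
    have h4 : p ^ (j + 1) ∣ p ^ j := by
      rw [← hgj]
      exact Nat.dvd_gcd h2 h3
    have h5 := Nat.le_of_dvd (pow_pos hp.out.pos _) h4
    have h6 : p ^ j < p ^ (j + 1) := Nat.pow_lt_pow_right hp.out.one_lt (Nat.lt_succ_self j)
    omega
  rw [hjM] at hgj
  rw [hgj] at hga
  exact Nat.le_of_dvd ha hga

theorem trace_zero {A : Type u} [CommRing A] {G : Type v} [Group G] (p : ℕ) [Fact p.Prime]
    (hA : ∀ a : A, (∀ N : ℕ, (p : A) ^ N ∣ a) → a = 0) (c : G) (hc : 0 < orderOf c)
    (hpc : p ∣ orderOf c) (e : IdemMat (MonoidAlgebra A G)) :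
    clsFun (cj A c) (trace e.mat) = 0 := by
  classical
  apply hA
  intro N
  rcases N with _ | K
  · rw [pow_zero]
    exact one_dvd _
  set τ : Matrix (Fin e.n) (Fin e.n) (MonoidAlgebra A G) →+ A :=
    (clsFun (cj A c)).comp (traceAddMonoidHom (Fin e.n) (MonoidAlgebra A G)) with hτdef
  have hτapp : ∀ X, τ X = clsFun (cj A c) (trace X) := fun _ => rfl
  have hτ : ∀ a b, τ (a * b) = τ (b * a) := by
    intro a b
    rw [hτapp, hτapp]
    simp only [trace, diag, mul_apply, map_sum]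
    rw [Finset.sum_comm]
    refine Finset.sum_congr rfl fun i _ => Finset.sum_congr rfl fun j _ => ?_
    exact clsFun_comm _ (cj_comm A c) _ _
  set S : Finset G := Finset.univ.biUnion (fun i : Fin e.n => Finset.univ.biUnion
    (fun j : Fin e.n => (e.mat i j).coeff.support)) with hS
  set E : S → Matrix (Fin e.n) (Fin e.n) A :=
    fun s => Matrix.of fun i j => (e.mat i j).coeff s.1 with hE
  set x : S → Matrix (Fin e.n) (Fin e.n) (MonoidAlgebra A G) := fun s => po_sg s.1 (E s) with hx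
  have hsum : ∑ s, x s = e.mat := by
    refine Matrix.ext fun i j => ?_
    rw [Matrix.sum_apply]
    have h1 : ∀ s : S, x s i j = MonoidAlgebra.single s.1 ((e.mat i j).coeff s.1) := fun s => rfl
    simp only [h1]
    rw [Finset.sum_coe_sort S (fun g => MonoidAlgebra.single g ((e.mat i j).coeff g))]
    have hsub : (e.mat i j).coeff.support ⊆ S := by
      intro g hg
      rw [hS, Finset.mem_biUnion]
      exact ⟨i, Finset.mem_univ _, Finset.mem_biUnion.2 ⟨j, Finset.mem_univ _, hg⟩⟩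
    ext g
    simp only [MonoidAlgebra.coeff_sum, MonoidAlgebra.coeff_single, Finsupp.finsetSum_apply,
      Finsupp.single_apply]
    rw [Finset.sum_ite_eq' S g]
    split_ifs with hg
    · rfl
    · have : g ∉ (e.mat i j).coeff.support := fun hh => hg (hsub hh)
      exact (Finsupp.notMem_support_iff.1 this).symm
  have hidem : ∀ q : ℕ, 0 < q → e.mat ^ q = e.mat := by
    intro q hq
    obtain ⟨r, rfl⟩ : ∃ r, q = r + 1 := ⟨q - 1, by omega⟩
    clear hq
    induction r with
    | zero => rw [zero_add, pow_one]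
    | succ r ih => rw [pow_succ, ih, e.idem]
  set hh : (Fin (p ^ K) → S) → G := fun ω => ((List.ofFn ω).map (fun s => s.1)).prod with hhh
  set M : ℕ := ∑ ω : Fin (p ^ K) → S, orderOf (hh ω) with hM
  have hpp : p.Prime := Fact.out
  obtain ⟨y, hy⟩ := words τ hτ p x K (K + M) (Nat.le_add_right _ _)
  rw [hsum, hidem _ (pow_pos hpp.pos _), Nat.add_sub_cancel_left] at hy
  have hz : ∑ ω : Fin (p ^ K) → S, τ ((List.ofFn (fun i => x (ω i))).prod ^ (p ^ M)) = 0 := by
    refine Finset.sum_eq_zero fun ω _ => ?_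
    have h1 : List.ofFn (fun i => x (ω i)) = (List.ofFn ω).map x := by
      rw [List.map_ofFn]
      rfl
    rw [h1, hx, po_list (fun s : S => s.1) E, po_pow, hτapp]
    apply po_trace
    intro hcon
    have h2 := po_order p c (hh ω) hc hpc M hcon
    have h3 : orderOf (hh ω) ≤ M := Finset.single_le_sum (f := fun ω => orderOf (hh ω))
      (fun _ _ => Nat.zero_le _) (Finset.mem_univ ω)
    have h4 : M < p ^ M := Nat.lt_pow_self hpp.one_lt
    omega
  rw [hz, zero_add] at hy
  refine ⟨y, ?_⟩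
  rw [← hτapp, hy, nsmul_eq_mul, Nat.cast_pow]

end Pool.Agent.H95.KM

end

section

/-!
# Project KM, module Extract: vanishing in `K₋₁`

PROOF of `extract`.  `Km1.mk_eq_zero`, `Km1Rel` and `AddSubgroup.mem_sup` give
`[H] = map posHom α + map negHom β` with `α, β : K0 R[X]`.  By `exists_sub_one`
`α = [P] - [1_q]`, `β = [P'] - [1_{q'}]`.  Hence (`K0.map_cls`, `K0.cls_fromBlocks`)
`[H ⊕ 1_q ⊕ 1_{q'}] = [posHom P ⊕ negHom P']`.  By `exists_stab` there is `l` with
`H ⊕ 1_q ⊕ 1_{q'} ⊕ 1_l ≈ posHom P ⊕ negHom P' ⊕ 1_l ≈ (posHom P ⊕ 1_l) ⊕ negHom P'`.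
Take `k = q + q' + l`, `Xp = posHom P ⊕ 1_l` (reindexed to `Fin`), `Xn = negHom P'`.
`isPos_posHom`, `isNeg_negHom` give the positivity/negativity.
-/

set_option autoImplicit false

open Matrix
open scoped LaurentPolynomial

universe u v w

namespace Pool.Agent.H95.KM

open Pool.Agent.H71.FJ

variable {R : Type u} [Ring R]

theorem matEquiv_one_of_equiv {m n : Type*} [Fintype m] [DecidableEq m] [Fintype n]
    [DecidableEq n] (σ : m ≃ n) : MatEquiv (1 : Matrix m m R) (1 : Matrix n n R) := by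
  have h := K0.matEquiv_submatrix (1 : Matrix n n R) one_idem σ
  rwa [submatrix_one_equiv] at h

theorem matEquiv_assoc {m n p : Type*} [Fintype m] [DecidableEq m] [Fintype n]
    [DecidableEq n] [Fintype p] [DecidableEq p] {e : Matrix m m R} {f : Matrix n n R}
    {g : Matrix p p R} (he : e * e = e) (hf : f * f = f) (hg : g * g = g) :
    MatEquiv (fromBlocks (fromBlocks e 0 0 f) 0 0 g) (fromBlocks e 0 0 (fromBlocks f 0 0 g)) := by
  have h := K0.matEquiv_submatrix (fromBlocks e 0 0 (fromBlocks f 0 0 g))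
    (K0.fromBlocks_idem he (K0.fromBlocks_idem hf hg)) (Equiv.sumAssoc m n p)
  have h1 : (fromBlocks e 0 0 (fromBlocks f 0 0 g)).submatrix (Equiv.sumAssoc m n p)
      (Equiv.sumAssoc m n p) = fromBlocks (fromBlocks e 0 0 f) 0 0 g := by
    ext i j
    rcases i with (i | i) | i <;> rcases j with (j | j) | j <;> rfl
  rwa [h1] at h

theorem matEquiv_comm {m n : Type*} [Fintype m] [DecidableEq m] [Fintype n]
    [DecidableEq n] {e : Matrix m m R} {f : Matrix n n R} (he : e * e = e) (hf : f * f = f) :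
    MatEquiv (fromBlocks e 0 0 f) (fromBlocks f 0 0 e) := by
  have h := K0.matEquiv_submatrix (fromBlocks f 0 0 e)
    (K0.fromBlocks_idem hf he) (Equiv.sumComm m n)
  have h1 : (fromBlocks f 0 0 e).submatrix (Equiv.sumComm m n)
      (Equiv.sumComm m n) = fromBlocks e 0 0 f := by
    ext i j
    rcases i with i | i <;> rcases j with j | j <;> rfl
  rwa [h1] at h

theorem cls_one_add_one (a b : ℕ) :
    K0.cls (1 : Matrix (Fin a) (Fin a) R) one_idem + K0.cls (1 : Matrix (Fin b) (Fin b) R) one_idem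
      = K0.cls (1 : Matrix (Fin (a + b)) (Fin (a + b)) R) one_idem := by
  rw [← K0.cls_fromBlocks]
  apply K0.cls_congr
  rw [fromBlocks_one]
  exact matEquiv_one_of_equiv finSumFinEquiv

theorem map_cls_one {S : Type v} [Ring S] (f : R →+* S) (a : ℕ) :
    K0.map f (K0.cls (1 : Matrix (Fin a) (Fin a) R) one_idem) =
      K0.cls (1 : Matrix (Fin a) (Fin a) S) one_idem := by
  rw [K0.map_cls]
  congr 1
  exact Matrix.map_one f (map_zero f) (map_one f)

/-- If the class of `H` vanishes in `K₋₁(R)` then `H` is stably equivalent to a sum of an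
idempotent matrix over `R[t]` and one over `R[t⁻¹]`. -/
theorem extract {n : Type} [Fintype n] [DecidableEq n] (H : Matrix n n R[T;T⁻¹])
    (hH : H * H = H) (h : Km1.mk (K0.cls H hH) = 0) :
    ∃ (k r₁ r₂ : ℕ) (Xp : Matrix (Fin r₁) (Fin r₁) R[T;T⁻¹])
      (Xn : Matrix (Fin r₂) (Fin r₂) R[T;T⁻¹]), Xp * Xp = Xp ∧ Xn * Xn = Xn ∧
      (∀ i j, IsPos (Xp i j)) ∧ (∀ i j, IsNeg (Xn i j)) ∧
      MatEquiv (fromBlocks H 0 0 (1 : Matrix (Fin k) (Fin k) R[T;T⁻¹]))
        (fromBlocks Xp 0 0 Xn) := by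
  obtain ⟨_, ⟨α, rfl⟩, _, ⟨β, rfl⟩, hab⟩ := AddSubgroup.mem_sup.1 (Km1.mk_eq_zero.1 h)
  obtain ⟨p, q, P, hP, rfl⟩ := exists_sub_one α
  obtain ⟨p', q', P', hP', rfl⟩ := exists_sub_one β
  rw [map_sub, map_sub, map_cls_one, map_cls_one, K0.map_cls, K0.map_cls] at hab
  set Pp := P.map (posHom R) with hPp
  set Pn := P'.map (negHom R) with hPn
  have hPpi : Pp * Pp = Pp := K0.map_idem (posHom R) hP
  have hPni : Pn * Pn = Pn := K0.map_idem (negHom R) hP'
  have hI : ∀ a : ℕ, (1 : Matrix (Fin a) (Fin a) R[T;T⁻¹]) * 1 = 1 := fun a => one_idem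
  have hc : K0.cls (fromBlocks H 0 0 (1 : Matrix (Fin (q + q')) (Fin (q + q')) R[T;T⁻¹]))
      (K0.fromBlocks_idem hH (hI _)) =
      K0.cls (fromBlocks Pp 0 0 Pn) (K0.fromBlocks_idem hPpi hPni) := by
    rw [K0.cls_fromBlocks hH (hI _), K0.cls_fromBlocks hPpi hPni, ← cls_one_add_one, ← hab]
    abel
  obtain ⟨l, hl⟩ := exists_stab _ _ _ _ hc
  -- the left hand side
  have h1 : MatEquiv (fromBlocks H 0 0
      (1 : Matrix (Fin (q + q' + l)) (Fin (q + q' + l)) R[T;T⁻¹]))
      (fromBlocks (fromBlocks H 0 0 (1 : Matrix (Fin (q + q')) (Fin (q + q')) R[T;T⁻¹])) 0 0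
        (1 : Matrix (Fin l) (Fin l) R[T;T⁻¹])) := by
    refine K0.matEquiv_trans (K0.fromBlocks_idem hH (hI _))
      (K0.fromBlocks_idem (K0.fromBlocks_idem hH (hI _)) (hI _)) ?_
      (K0.matEquiv_symm (matEquiv_assoc hH (hI _) (hI _)))
    refine K0.matEquiv_fromBlocks (K0.matEquiv_refl hH) ?_
    rw [fromBlocks_one]
    exact matEquiv_one_of_equiv finSumFinEquiv.symm
  -- the right hand side
  have hB : fromBlocks Pp 0 0 (1 : Matrix (Fin l) (Fin l) R[T;T⁻¹]) *
      fromBlocks Pp 0 0 (1 : Matrix (Fin l) (Fin l) R[T;T⁻¹]) =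
      fromBlocks Pp 0 0 (1 : Matrix (Fin l) (Fin l) R[T;T⁻¹]) := K0.fromBlocks_idem hPpi (hI _)
  set Xp : Matrix (Fin (p + l)) (Fin (p + l)) R[T;T⁻¹] :=
    (fromBlocks Pp 0 0 (1 : Matrix (Fin l) (Fin l) R[T;T⁻¹])).submatrix finSumFinEquiv.symm
      finSumFinEquiv.symm with hXp
  have hXpi : Xp * Xp = Xp := by
    rw [hXp, submatrix_mul_equiv, hB]
  have h2 : MatEquiv (fromBlocks (fromBlocks Pp 0 0 Pn) 0 0
      (1 : Matrix (Fin l) (Fin l) R[T;T⁻¹])) (fromBlocks Xp 0 0 Pn) := by
    refine K0.matEquiv_trans (K0.fromBlocks_idem (K0.fromBlocks_idem hPpi hPni) (hI _))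
      (K0.fromBlocks_idem hXpi hPni) (matEquiv_assoc hPpi hPni (hI _)) ?_
    refine K0.matEquiv_trans (K0.fromBlocks_idem hPpi (K0.fromBlocks_idem hPni (hI _)))
      (K0.fromBlocks_idem hXpi hPni)
      (K0.matEquiv_fromBlocks (K0.matEquiv_refl hPpi) (matEquiv_comm hPni (hI _))) ?_
    refine K0.matEquiv_trans (K0.fromBlocks_idem hPpi (K0.fromBlocks_idem (hI _) hPni))
      (K0.fromBlocks_idem hXpi hPni) (K0.matEquiv_symm (matEquiv_assoc hPpi (hI _) hPni)) ?_
    exact K0.matEquiv_fromBlocks (K0.matEquiv_symm (K0.matEquiv_submatrix _ hB _))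
      (K0.matEquiv_refl hPni)
  refine ⟨q + q' + l, p + l, p', Xp, Pn, hXpi, hPni, ?_, ?_, ?_⟩
  · intro i j
    rw [hXp, submatrix_apply]
    rcases finSumFinEquiv.symm i with i | i <;> rcases finSumFinEquiv.symm j with j | j
    · exact isPos_posHom _
    · exact isPos_zero
    · exact isPos_zero
    · rw [fromBlocks_apply₂₂, Matrix.one_apply]
      split_ifs
      · exact isPos_single le_rfl 1
      · exact isPos_zero
  · intro i j
    exact isNeg_negHom _
  · exact K0.matEquiv_trans (K0.fromBlocks_idem hH (hI _)) (K0.fromBlocks_idem hXpi hPni) h1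
      (K0.matEquiv_trans (K0.fromBlocks_idem (K0.fromBlocks_idem hH (hI _)) (hI _))
        (K0.fromBlocks_idem hXpi hPni) hl h2)

end Pool.Agent.H95.KM

end

section

/-!
# Project KM, module Detect: trace invariants of classes vanishing in `K₋₁`

PROOF of `T0_change`.  `g` has inverse `g'`.
`T0 τ (∂(g x) · (y g')) = T0 τ (∂g · x y · g') + T0 τ (g · ∂x · y · g')
 = T0 τ (∂g · g') + T0 τ (∂x · y · g' g)` (`map_der_mul`, `T0_mul_comm`, `x y = 1`, `g' g = 1`).

PROOF of `detect`.  `extract` gives `k, Xp, Xn` and `u, v` with `u v = H ⊕ 1_k`, `v u = Xp ⊕ Xn`.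
Normalize: replace `u` by `(u v) u (v u)` and `v` by `(v u) v (u v)`; then
`(u v) u = u`, `u (v u) = u`, `(v u) v = v`, `v (u v) = v` (idempotency of `H ⊕ 1_k` and
`Xp ⊕ Xn`), and `u v = H ⊕ 1_k`, `v u = Xp ⊕ Xn` still hold.
Put `s = T0 (τ ∘ f) (∂u · v)`.  Let `Q, g, j, x, y` be as in the statement, `j ∘ g = f`.  Write
`u', v'` for the images of `u, v` over `Q[t, t⁻¹]`.  Put `X = (x ⊕ 1_k) u'` (index `m ⊕ k` times
`r₁ ⊕ r₂`) and `Y = v' (y ⊕ 1_k)`.  Then
`X Y = (x ⊕ 1)(H ⊕ 1)(y ⊕ 1) = (x y x y) ⊕ 1 = 1` and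
`Y X = v' (y x ⊕ 1) u' = v' (u' v') u' = v' u' = Xp ⊕ Xn` (over `Q`; `IsPos`, `IsNeg` are
preserved by `lau g`).  `window` with `τ ∘ j : Q →+ M` gives `d` and `q` with
`T0 (τ ∘ j) (∂X · Y) = (..) • τ (j 1) - τ (j (tr q)) = - τ (j (tr q))` since `τ 1 = 0`.
On the other hand
`T0 (∂X · Y) = T0 ((∂x ⊕ 0) u' v' (y ⊕ 1)) + T0 ((x ⊕ 1) ∂u' v' (y ⊕ 1))`.
First term: `u' v' (y ⊕ 1) = (y x y ⊕ 1) = y ⊕ 1`, so it is `T0 (∂x · y)`.
Second term: by `T0_mul_comm` it is `T0 (∂u' · v' · (y x ⊕ 1)) = T0 (∂u' · v' u' v')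
= T0 (∂u' · v') = s` (compare `T0_map_lau`, `map_lau_der`, `lau_comp`).
-/

set_option autoImplicit false

open Matrix
open scoped LaurentPolynomial

universe u v w

namespace Pool.Agent.H95.KM

open Pool.Agent.H71.FJ

theorem T0_change {R : Type u} [Ring R] {M : Type*} [AddCommGroup M] (τ : R →+ M)
    (hτ : ∀ x y, τ (x * y) = τ (y * x)) {m n : Type*} [Fintype m] [DecidableEq m] [Fintype n]
    (g g' : Matrix m m R[T;T⁻¹]) (hg : g' * g = 1)
    (x : Matrix m n R[T;T⁻¹]) (y : Matrix n m R[T;T⁻¹]) (hxy : x * y = 1) :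
    T0 τ ((g * x).map (der R) * (y * g')) =
      T0 τ (g.map (der R) * g') + T0 τ (x.map (der R) * y) := by
  rw [map_der_mul, Matrix.add_mul, T0_add]
  congr 1
  · congr 1
    rw [Matrix.mul_assoc, ← Matrix.mul_assoc x, hxy, Matrix.one_mul]
  · rw [Matrix.mul_assoc, T0_mul_comm τ hτ]
    congr 1
    rw [← Matrix.mul_assoc, Matrix.mul_assoc _ g' g, hg, Matrix.mul_one]

/-- normalized form of an equivalence of idempotent matrices -/
theorem matEquiv_normal {R : Type u} [Ring R] {m n : Type*} [Fintype m] [Fintype n]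
    {E : Matrix m m R} {F : Matrix n n R} (hE : E * E = E) (hF : F * F = F)
    (h : MatEquiv E F) : ∃ (u : Matrix m n R) (v : Matrix n m R), u * v = E ∧ v * u = F ∧
      E * u = u ∧ v * E = v := by
  obtain ⟨u, v, h1, h2⟩ := h
  refine ⟨E * u, v * E, ?_, ?_, ?_, ?_⟩
  · rw [Matrix.mul_assoc, ← Matrix.mul_assoc u, h1, hE, hE]
  · calc v * E * (E * u) = v * (E * E) * u := by simp only [Matrix.mul_assoc]
      _ = (v * u) * (v * u) := by rw [hE, ← h1]; simp only [Matrix.mul_assoc]
      _ = F := by rw [h2, hF]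
  · rw [← Matrix.mul_assoc, hE]
  · rw [Matrix.mul_assoc, hE]

theorem fromBlocks_one_idem {R : Type u} [Ring R] {m k : Type*} [Fintype m] [Fintype k]
    [DecidableEq k] {E : Matrix m m R} (hE : E * E = E) :
    fromBlocks E 0 0 (1 : Matrix k k R) * fromBlocks E 0 0 1 = fromBlocks E 0 0 1 := by
  rw [fromBlocks_multiply]
  simp [hE]

theorem detect {R A : Type u} [Ring R] [Ring A] (f : R →+* A) {M : Type*} [AddCommGroup M]
    (τ : A →+ M) (hτ : ∀ x y, τ (x * y) = τ (y * x)) (hτ1 : τ 1 = 0)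
    {n : Type} [Fintype n] [DecidableEq n] (H : Matrix n n R[T;T⁻¹]) (hH : H * H = H)
    (h : Km1.mk (K0.cls H hH) = 0) :
    ∃ s : M, ∀ (Q : Type u) [Ring Q] (g : R →+* Q) (j : Q →+* A), j.comp g = f →
      ∀ (m : Type) [Fintype m] [DecidableEq m] (x : Matrix m n Q[T;T⁻¹])
        (y : Matrix n m Q[T;T⁻¹]), x * y = 1 → y * x = H.map (lau g) →
      ∃ q : IdemMat Q, T0 τ ((x.map (der Q) * y).map (lau j)) + s = - τ (j (trace q.mat)) := by
  obtain ⟨k, r₁, r₂, Xp, Xn, hXp, hXn, hp, hn, hE⟩ := extract H hH h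
  obtain ⟨u, v, huv, hvu, hu, hv⟩ := matEquiv_normal (fromBlocks_one_idem hH)
    (K0.fromBlocks_idem hXp hXn) hE
  refine ⟨T0 (τ.comp f.toAddMonoidHom) (u.map (der R) * v), ?_⟩
  intro Q _ g j hjg m _ _ x y hxy hyx
  have hτj : ∀ a b : Q, (τ.comp j.toAddMonoidHom) (a * b) = (τ.comp j.toAddMonoidHom) (b * a) := by
    intro a b
    change τ (j (a * b)) = τ (j (b * a))
    rw [map_mul j, map_mul j, hτ]
  have huv' : u.map (lau g) * v.map (lau g) =
      fromBlocks (y * x) 0 0 (1 : Matrix (Fin k) (Fin k) Q[T;T⁻¹]) := by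
    rw [← Matrix.map_mul, huv, fromBlocks_map, hyx, Matrix.map_zero _ (map_zero _),
      Matrix.map_zero _ (map_zero _), Matrix.map_one _ (map_zero _) (map_one _)]
  have hvu' : v.map (lau g) * u.map (lau g) =
      fromBlocks (Xp.map (lau g)) 0 0 (Xn.map (lau g)) := by
    rw [← Matrix.map_mul, hvu, fromBlocks_map, Matrix.map_zero _ (map_zero _),
      Matrix.map_zero _ (map_zero _)]
  have hv' : v.map (lau g) * (u.map (lau g) * v.map (lau g)) = v.map (lau g) := by
    rw [← Matrix.map_mul, ← Matrix.map_mul, huv, hv]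
  obtain ⟨U, hU⟩ : ∃ U, U = u.map (lau g) := ⟨_, rfl⟩
  obtain ⟨V, hV⟩ : ∃ V, V = v.map (lau g) := ⟨_, rfl⟩
  rw [← hU, ← hV] at huv' hvu' hv'
  obtain ⟨x', hx'⟩ : ∃ x', x' = fromBlocks x 0 0 (1 : Matrix (Fin k) (Fin k) Q[T;T⁻¹]) := ⟨_, rfl⟩
  obtain ⟨y', hy'⟩ : ∃ y', y' = fromBlocks y 0 0 (1 : Matrix (Fin k) (Fin k) Q[T;T⁻¹]) := ⟨_, rfl⟩
  have hx'y' : x' * y' = 1 := by
    rw [hx', hy', fromBlocks_multiply]
    simp [hxy]
  have hy'x' : y' * x' = U * V := by
    rw [huv', hx', hy', fromBlocks_multiply]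
    simp
  have hXY : (x' * U) * (V * y') = 1 := by
    calc (x' * U) * (V * y') = x' * (U * V) * y' := by simp only [Matrix.mul_assoc]
      _ = (x' * y') * (x' * y') := by rw [← hy'x']; simp only [Matrix.mul_assoc]
      _ = 1 := by rw [hx'y', Matrix.one_mul]
  have hYX : (V * y') * (x' * U) = fromBlocks (Xp.map (lau g)) 0 0 (Xn.map (lau g)) := by
    calc (V * y') * (x' * U) = V * (y' * x') * U := by simp only [Matrix.mul_assoc]
      _ = V * (U * V) * U := by rw [hy'x']
      _ = V * U := by rw [hv']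
      _ = _ := hvu'
  obtain ⟨d, q, hq⟩ := window (τ.comp j.toAddMonoidHom) (x' * U) (V * y') (Xp.map (lau g))
    (Xn.map (lau g)) hXY hYX (fun i k l hl => by
      rw [Matrix.map_apply, lau_coeff, hp i k l hl, map_zero]) (fun i k l hl => by
      rw [Matrix.map_apply, lau_coeff, hn i k l hl, map_zero])
  refine ⟨q, ?_⟩
  have hτj1 : (τ.comp j.toAddMonoidHom) 1 = 0 := by
    change τ (j 1) = 0
    rw [map_one, hτ1]
  rw [hτj1, smul_zero, zero_sub] at hq
  have e0 : (τ.comp j.toAddMonoidHom) (trace q.mat) = τ (j (trace q.mat)) := rfl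
  rw [e0] at hq
  rw [← hq, T0_map_lau, map_der_mul, Matrix.add_mul, T0_add]
  congr 1
  · have e1 : x'.map (der Q) * U * (V * y') = fromBlocks (x.map (der Q) * y) 0 0 0 := by
      calc x'.map (der Q) * U * (V * y') = x'.map (der Q) * (U * V) * y' := by
            simp only [Matrix.mul_assoc]
        _ = x'.map (der Q) * y' * (x' * y') := by rw [← hy'x']; simp only [Matrix.mul_assoc]
        _ = x'.map (der Q) * y' := by rw [hx'y', Matrix.mul_one]
        _ = _ := by
          rw [hx', hy', fromBlocks_map, map_der_one, Matrix.map_zero _ (map_zero _),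
            Matrix.map_zero _ (map_zero _), fromBlocks_multiply]
          simp
    rw [e1, T0_fromBlocks, T0_zero, add_zero]
  · rw [Matrix.mul_assoc, T0_mul_comm _ hτj]
    have e2 : U.map (der Q) * (V * y') * x' = U.map (der Q) * V := by
      calc U.map (der Q) * (V * y') * x' = U.map (der Q) * (V * (y' * x')) := by
            simp only [Matrix.mul_assoc]
        _ = U.map (der Q) * V := by rw [hy'x', hv']
    rw [e2, hU, hV, map_lau_der, ← Matrix.map_mul, T0_map_lau]
    congr 1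
    ext a
    change τ (f a) = τ (j (g a))
    rw [← hjg]
    rfl

end Pool.Agent.H95.KM

end

section

/-!
# Project KM, module Trans: transfer from `O[H]` to `ℤ[H]`

`O` is a commutative ring which is free of finite rank `d > 0` as a `ℤ`-module.

PROOF.  Let `b` be a `ℤ`-basis of `O` (index `J = Fin d` or `Module.Free.ChooseBasisIndex`), and
`λ : O → Mat_J(ℤ)` the regular representation (`Algebra.leftMulMatrix b`).  For a group `H` it gives
`λ_H : O[H] → Mat_J(ℤ[H])`, `single h r ↦ (single h (λ r i j))_{ij}` and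
`λ'_H : O[H][t,t⁻¹] → Mat_J(ℤ[H][t,t⁻¹])`, `single k a ↦ (single k (λ_H a i j))_{ij}`, ring
homomorphisms.  (A general construction: for `φ : R → Mat_J(S)` there is
`φ' : R[T;T⁻¹] →+* Matrix J J S[T;T⁻¹]`, `single k r ↦ (single k (φ r i j))`, and similarly
`R[X] →+* Matrix J J S[X]`; compatible with `posHom`, `negHom`.)
`K0.push λ'_H : K₀(O[H][t,t⁻¹]) → K₀(ℤ[H][t,t⁻¹])` (`Pool/Agent/H71/FJ/K0.lean`: `push`, `push_map`,
`map_push`, `push_congr`) maps the images of `K₀(O[H][t])`, `K₀(O[H][t⁻¹])` to the corresponding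
images (`push_map`, `map_push`), so `Km1.lift` gives `res H : K₋₁(O[H]) →+ K₋₁(ℤ[H])`.
* `res (map x) = d • x`: the composite `ℤ[H][t,t⁻¹] → O[H][t,t⁻¹] → Mat_J(ℤ[H][t,t⁻¹])` is
  `a ↦ diagonal (fun _ => a)` (on `ℤ` the regular representation is scalar), and pushing along the
  diagonal homomorphism is multiplication by `|J|` (`flat` of a diagonal homomorphism is a block
  diagonal matrix, `|J|` copies of the matrix).
* naturality in `H`: `push_map` and `map_push` and the equality of the two ring homomorphisms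
  `O[H][t,t⁻¹] → Mat_J(ℤ[H'][t,t⁻¹])`.
-/

set_option autoImplicit false

open Matrix
open scoped LaurentPolynomial

universe u v w

namespace Pool.Agent.H95.KM

open Pool.Agent.H71.FJ

namespace Trans

section General

variable {R : Type u} [Ring R] {S : Type v} [Ring S] {T : Type w} [Ring T]
variable {J : Type} [Fintype J] [DecidableEq J]

/-- the homomorphism `R[t, t⁻¹] → Mat_J(S[t, t⁻¹])` -/
noncomputable def lm (φ : R →+* Matrix J J S) : R[T;T⁻¹] →+* Matrix J J S[T;T⁻¹] :=
  AddMonoidAlgebra.liftNCRingHom ((cst S).mapMatrix.comp φ)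
    (((Matrix.scalar J : S[T;T⁻¹] →+* Matrix J J S[T;T⁻¹]) : S[T;T⁻¹] →* Matrix J J S[T;T⁻¹]).comp
      (AddMonoidAlgebra.of S ℤ))
    (fun r k => by
      change (φ r).map (cst S) * Matrix.scalar J (AddMonoidAlgebra.single k.toAdd 1) =
        Matrix.scalar J (AddMonoidAlgebra.single k.toAdd 1) * (φ r).map (cst S)
      rw [Matrix.scalar_apply]
      ext1 i j
      rw [Matrix.mul_diagonal, Matrix.diagonal_mul, Matrix.map_apply, cst_apply,
        AddMonoidAlgebra.single_mul_single, AddMonoidAlgebra.single_mul_single, add_zero, zero_add,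
        one_mul, mul_one])

theorem lm_single (φ : R →+* Matrix J J S) (k : ℤ) (r : R) :
    lm φ (AddMonoidAlgebra.single k r) = Matrix.of fun i j => AddMonoidAlgebra.single k (φ r i j) := by
  change AddMonoidAlgebra.liftNC _ _ _ = _
  rw [AddMonoidAlgebra.liftNC_single]
  change (φ r).map (cst S) * Matrix.scalar J (AddMonoidAlgebra.single k 1) = _
  rw [Matrix.scalar_apply]
  ext1 i j
  rw [Matrix.mul_diagonal, Matrix.map_apply, cst_apply,
    AddMonoidAlgebra.single_mul_single, zero_add, mul_one, Matrix.of_apply]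

theorem lm_ext {M : Type*} [Ring M] {f g : R[T;T⁻¹] →+* M}
    (h : ∀ k r, f (AddMonoidAlgebra.single k r) = g (AddMonoidAlgebra.single k r)) : f = g := by
  apply RingHom.ext
  intro x
  induction x using AddMonoidAlgebra.induction_linear with
  | zero => rw [map_zero, map_zero]
  | add x y hx hy => rw [map_add, map_add, hx, hy]
  | single k r => exact h k r

theorem pm_ext {M : Type*} [Ring M] {f g : Polynomial R →+* M}
    (h : ∀ k r, f (Polynomial.monomial k r) = g (Polynomial.monomial k r)) : f = g := by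
  apply RingHom.ext
  intro p
  induction p using Polynomial.induction_on' with
  | add p q hp hq => rw [map_add, map_add, hp, hq]
  | monomial k r => exact h k r

theorem am_ext {H : Type*} [Group H] {M : Type*} [Ring M] {f g : MonoidAlgebra R H →+* M}
    (h : ∀ k r, f (MonoidAlgebra.single k r) = g (MonoidAlgebra.single k r)) : f = g := by
  apply RingHom.ext
  intro x
  induction x using MonoidAlgebra.induction_linear with
  | zero => rw [map_zero, map_zero]
  | add x y hx hy => rw [map_add, map_add, hx, hy]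
  | single k r => exact h k r

/-- the homomorphism `R[X] → Mat_J(S[X])` -/
noncomputable def pm (φ : R →+* Matrix J J S) : Polynomial R →+* Matrix J J (Polynomial S) :=
  Polynomial.eval₂RingHom' ((Polynomial.C : S →+* Polynomial S).mapMatrix.comp φ)
    (Matrix.scalar J Polynomial.X)
    (fun r => by
      change (φ r).map Polynomial.C * Matrix.scalar J Polynomial.X =
        Matrix.scalar J Polynomial.X * (φ r).map Polynomial.C
      rw [Matrix.scalar_apply]
      ext1 i j
      rw [Matrix.mul_diagonal, Matrix.diagonal_mul, Matrix.map_apply, Polynomial.X_mul_C])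

theorem pm_monomial (φ : R →+* Matrix J J S) (k : ℕ) (r : R) :
    pm φ (Polynomial.monomial k r) = Matrix.of fun i j => Polynomial.monomial k (φ r i j) := by
  change Polynomial.eval₂ _ _ _ = _
  rw [Polynomial.eval₂_monomial]
  change (φ r).map Polynomial.C * Matrix.scalar J Polynomial.X ^ k = _
  rw [← map_pow, Matrix.scalar_apply]
  ext1 i j
  rw [Matrix.mul_diagonal, Matrix.map_apply, Matrix.of_apply, Polynomial.C_mul_X_pow_eq_monomial]

theorem lm_posHom (φ : R →+* Matrix J J S) :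
    (lm φ).comp (posHom R) = (posHom S).mapMatrix.comp (pm φ) := by
  apply pm_ext
  intro k r
  rw [RingHom.comp_apply, RingHom.comp_apply, posHom_monomial, lm_single, pm_monomial]
  ext1 i j
  rw [RingHom.mapMatrix_apply, Matrix.map_apply, Matrix.of_apply, Matrix.of_apply, posHom_monomial]

theorem lm_negHom (φ : R →+* Matrix J J S) :
    (lm φ).comp (negHom R) = (negHom S).mapMatrix.comp (pm φ) := by
  apply pm_ext
  intro k r
  rw [RingHom.comp_apply, RingHom.comp_apply, negHom_monomial, lm_single, pm_monomial]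
  ext1 i j
  rw [RingHom.mapMatrix_apply, Matrix.map_apply, Matrix.of_apply, Matrix.of_apply, negHom_monomial]

theorem lm_lau (φ : S →+* Matrix J J T) (f : R →+* S) : (lm φ).comp (lau f) = lm (φ.comp f) := by
  apply lm_ext
  intro k r
  rw [RingHom.comp_apply, lau_single, lm_single, lm_single, RingHom.comp_apply]

theorem lau_lm (f : S →+* T) (φ : R →+* Matrix J J S) :
    (lau f).mapMatrix.comp (lm φ) = lm (f.mapMatrix.comp φ) := by
  apply lm_ext
  intro k r
  rw [RingHom.comp_apply, lm_single, lm_single]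
  ext1 i j
  rw [RingHom.mapMatrix_apply, Matrix.map_apply, Matrix.of_apply, Matrix.of_apply, lau_single]
  rfl

/-- the homomorphism `K₋₁(R) → K₋₁(S)` induced by `R → Mat_J(S)` -/
noncomputable def kres (φ : R →+* Matrix J J S) : Km1 R →+ Km1 S :=
  Km1.lift (Km1.mk.comp (K0.push (lm φ)))
    (fun x => by
      rw [AddMonoidHom.comp_apply, K0.push_map, lm_posHom, ← K0.map_push, Km1.mk_pos])
    (fun x => by
      rw [AddMonoidHom.comp_apply, K0.push_map, lm_negHom, ← K0.map_push, Km1.mk_neg])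

theorem kres_mk (φ : R →+* Matrix J J S) (x : K0 R[T;T⁻¹]) :
    kres φ (Km1.mk x) = Km1.mk (K0.push (lm φ) x) := rfl

theorem kres_map (φ : S →+* Matrix J J T) (f : R →+* S) (x : Km1 R) :
    kres φ (Km1.map f x) = kres (φ.comp f) x := by
  obtain ⟨y, rfl⟩ := Km1.mk_surjective x
  rw [Km1.map_mk, kres_mk, kres_mk, K0.push_map, lm_lau]

theorem map_kres (f : S →+* T) (φ : R →+* Matrix J J S) (x : Km1 R) :
    Km1.map f (kres φ x) = kres (f.mapMatrix.comp φ) x := by
  obtain ⟨y, rfl⟩ := Km1.mk_surjective x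
  rw [kres_mk, kres_mk, Km1.map_mk, K0.map_push, lau_lm]

/-- the homomorphism `R[H] → Mat_J(S[H])` -/
noncomputable def am (φ : R →+* Matrix J J S) (H : Type*) [Group H] :
    MonoidAlgebra R H →+* Matrix J J (MonoidAlgebra S H) :=
  MonoidAlgebra.liftNCRingHom
    ((MonoidAlgebra.singleOneRingHom : S →+* MonoidAlgebra S H).mapMatrix.comp φ)
    (((Matrix.scalar J : MonoidAlgebra S H →+* Matrix J J (MonoidAlgebra S H)) :
      MonoidAlgebra S H →* Matrix J J (MonoidAlgebra S H)).comp (MonoidAlgebra.of S H))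
    (fun r k => by
      change (φ r).map (MonoidAlgebra.single 1) * Matrix.scalar J (MonoidAlgebra.single k 1) =
        Matrix.scalar J (MonoidAlgebra.single k 1) * (φ r).map (MonoidAlgebra.single 1)
      rw [Matrix.scalar_apply]
      ext1 i j
      rw [Matrix.mul_diagonal, Matrix.diagonal_mul, Matrix.map_apply,
        MonoidAlgebra.single_mul_single, MonoidAlgebra.single_mul_single, mul_one, one_mul,
        one_mul, mul_one])

theorem am_single (φ : R →+* Matrix J J S) (H : Type*) [Group H] (k : H) (r : R) :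
    am φ H (MonoidAlgebra.single k r) =
      Matrix.of fun i j => MonoidAlgebra.single k (φ r i j) := by
  change MonoidAlgebra.liftNC _ _ _ = _
  rw [MonoidAlgebra.liftNC_single]
  change (φ r).map (MonoidAlgebra.single 1) * Matrix.scalar J (MonoidAlgebra.single k 1) = _
  rw [Matrix.scalar_apply]
  ext1 i j
  rw [Matrix.mul_diagonal, Matrix.map_apply, MonoidAlgebra.single_mul_single, one_mul, mul_one,
    Matrix.of_apply]

end General

section Diagonal

variable {R : Type u} [Ring R]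

/-- the block diagonal matrix -/
def bd {ι : Type*} (e : Matrix ι ι R) (n : ℕ) : Matrix (ι × Fin n) (ι × Fin n) R :=
  Matrix.of fun p q => if p.2 = q.2 then e p.1 q.1 else 0

theorem bd_idem {ι : Type*} [Fintype ι] {e : Matrix ι ι R} (he : e * e = e) (n : ℕ) :
    bd e n * bd e n = bd e n := by
  ext ⟨i, a⟩ ⟨j, b⟩
  have h := congrFun (congrFun he i) j
  simp only [Matrix.mul_apply] at h
  simp only [bd, Matrix.mul_apply, Matrix.of_apply, Fintype.sum_prod_type, mul_ite, ite_mul,
    zero_mul, mul_zero]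
  by_cases hab : a = b
  · subst hab
    simp [h]
  · simp [hab]

/-- the reindexing -/
noncomputable def bdEquiv (ι : Type*) (n : ℕ) : (ι × Fin n) ⊕ ι ≃ ι × Fin (n + 1) :=
  Equiv.ofBijective (Sum.elim (fun p => (p.1, p.2.castSucc)) (fun i => (i, Fin.last n))) (by
    constructor
    · rintro (⟨i, a⟩ | i) (⟨j, b⟩ | j) h
      · simpa using h
      · simp only [Sum.elim_inl, Sum.elim_inr, Prod.mk.injEq] at h
        exact absurd h.2 (Fin.castSucc_ne_last a)
      · simp only [Sum.elim_inl, Sum.elim_inr, Prod.mk.injEq] at h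
        exact absurd h.2.symm (Fin.castSucc_ne_last b)
      · simpa using h
    · rintro ⟨i, a⟩
      induction a using Fin.lastCases with
      | last => exact ⟨Sum.inr i, rfl⟩
      | cast a => exact ⟨Sum.inl (i, a), rfl⟩)

theorem cls_bd {ι : Type*} [Fintype ι] [DecidableEq ι] (e : Matrix ι ι R) (he : e * e = e)
    (n : ℕ) : K0.cls (bd e n) (bd_idem he n) = n • K0.cls e he := by
  induction n with
  | zero =>
    rw [zero_smul]
    have h : K0.cls (bd e 0) (bd_idem he 0) + K0.cls (bd e 0) (bd_idem he 0) =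
        K0.cls (bd e 0) (bd_idem he 0) := by
      rw [← K0.cls_fromBlocks]
      apply K0.cls_congr
      refine ⟨0, 0, ?_, ?_⟩
      · ext1 i j
        rcases i with ⟨_, i⟩ | ⟨_, i⟩ <;> exact i.elim0
      · ext1 i j
        exact i.2.elim0
    simpa using h
  | succ n ih =>
    rw [succ_nsmul, ← ih, ← K0.cls_fromBlocks]
    apply K0.cls_congr
    have h : fromBlocks (bd e n) 0 0 e =
        (bd e (n + 1)).submatrix (bdEquiv ι n) (bdEquiv ι n) := by
      ext1 i j
      rcases i with ⟨i, a⟩ | i <;> rcases j with ⟨j, b⟩ | j <;>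
        simp [bd, bdEquiv, Fin.castSucc_ne_last, (Fin.castSucc_ne_last _).symm]
    rw [h]
    exact K0.matEquiv_symm (K0.matEquiv_submatrix _ (bd_idem he _) _)

theorem push_scalar (n : ℕ) (x : K0 R) :
    K0.push (Matrix.scalar (Fin n) : R →+* Matrix (Fin n) (Fin n) R) x = n • x := by
  have : K0.push (Matrix.scalar (Fin n) : R →+* Matrix (Fin n) (Fin n) R) =
      n • AddMonoidHom.id (K0 R) := by
    apply K0.hom_ext
    intro a
    rw [K0.push_mk, AddMonoidHom.smul_apply, AddMonoidHom.id_apply, K0.mk_eq_cls a,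
      ← cls_bd a.mat a.idem n]
    apply K0.cls_congr
    rw [show K0.flat (Matrix.scalar (Fin n) : R →+* Matrix (Fin n) (Fin n) R) a.mat =
      bd a.mat n from rfl]
    exact K0.matEquiv_refl (bd_idem a.idem n)
  rw [this]
  rfl

theorem kres_scalar (n : ℕ) (x : Km1 R) :
    kres (Matrix.scalar (Fin n) : R →+* Matrix (Fin n) (Fin n) R) x = n • x := by
  obtain ⟨y, rfl⟩ := Km1.mk_surjective x
  rw [kres_mk, ← map_nsmul, ← push_scalar]
  congr 3
  apply lm_ext
  intro k r
  rw [lm_single]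
  ext1 i j
  simp only [Matrix.of_apply, Matrix.scalar_apply, Matrix.diagonal_apply]
  split_ifs
  · rfl
  · rw [AddMonoidAlgebra.single_zero]

end Diagonal

end Trans

open Pool.Agent.H95.KM.Trans in
theorem exists_transfer (O : Type) [CommRing O] [Nontrivial O] [Module.Free ℤ O]
    [Module.Finite ℤ O] :
    ∃ (d : ℕ) (res : ∀ (H : Type v) [Group H],
      Km1 (MonoidAlgebra O H) →+ Km1 (MonoidAlgebra ℤ H)), 0 < d ∧
      (∀ (H : Type v) [Group H] (x : Km1 (MonoidAlgebra ℤ H)),
        res H (Km1.map (MonoidAlgebra.mapRingHom H (Int.castRingHom O)) x) = d • x) ∧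
      (∀ (H H' : Type v) [Group H] [Group H'] (f : H →* H') (x : Km1 (MonoidAlgebra O H)),
        res H' (ind O f x) = ind ℤ f (res H x)) := by
  obtain ⟨d, b, hd⟩ : ∃ (d : ℕ) (_ : Module.Basis (Fin d) ℤ O), 0 < d := by
    refine ⟨_, Module.finBasis ℤ O, ?_⟩
    rw [Module.finrank_pos_iff]
    infer_instance
  let lam : O →+* Matrix (Fin d) (Fin d) ℤ := (Algebra.leftMulMatrix b : O →+* _)
  have hlam : ∀ n : ℤ, lam (n : O) = Matrix.scalar (Fin d) n := by
    intro n
    rw [map_intCast lam n]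
    exact (map_intCast (Matrix.scalar (Fin d) : ℤ →+* Matrix (Fin d) (Fin d) ℤ) n).symm
  refine ⟨d, fun H _ => kres (am lam H), hd, ?_, ?_⟩
  · intro H _ x
    rw [kres_map, ← kres_scalar]
    congr 2
    apply am_ext
    intro k r
    rw [RingHom.comp_apply, MonoidAlgebra.mapRingHom_single, am_single]
    ext1 i j
    have h1 := hlam r
    change _ = Matrix.scalar (Fin d) (MonoidAlgebra.single k r) i j
    rw [Matrix.of_apply]
    change MonoidAlgebra.single k (lam (r : O) i j) = _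
    rw [h1]
    simp only [Matrix.scalar_apply, Matrix.diagonal_apply]
    split_ifs
    · rfl
    · rw [MonoidAlgebra.single_zero]
  · intro H H' _ _ f x
    rw [ind, ind, kres_map, map_kres]
    congr 2
    apply am_ext
    intro k r
    rw [RingHom.comp_apply, RingHom.comp_apply, am_single]
    change am lam H' (MonoidAlgebra.mapDomain f (MonoidAlgebra.single k r)) = _
    rw [MonoidAlgebra.mapDomain_single, am_single]
    ext1 i j
    rw [RingHom.mapMatrix_apply, Matrix.map_apply, Matrix.of_apply, Matrix.of_apply]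
    change _ = MonoidAlgebra.mapDomain f (MonoidAlgebra.single k _)
    rw [MonoidAlgebra.mapDomain_single]

end Pool.Agent.H95.KM

end

section

/-!
# Project KM, module LinAlg: the linear algebra of the functionals `Θ`

Orthogonality relations (`sum_chi`, `sum_dual`, `card_dual`) in `Pool/Agent/H95/KM/Fou.lean`.

PROOF of `linalg`.  `V` is a `ℚ`-vector space, so it suffices that every `ℚ`-linear `l : V → ℚ`
kills the sum (`Module.exists_dual_forall_apply_eq_zero_iff`-type statement or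
`Module.forall_dual_apply_eq_zero_iff ℚ`).  Fix `l`.  For a good subgroup `D` (`D : Good`),
`m ∈ P`, `χ : D →* Oˣ` put `ℓ D m χ = l (Θ D (Pi.single χ (Pi.single m 1))) ∈ ℚ ⊂ L` and for `d ∈ D`
`h D m d = ∑_χ fL (χ d) * ℓ D m χ ∈ L`.
(i) `h` is invariant: if `D, D'` are good, `g ∈ G`, `d ∈ D`, `d' ∈ D'`, `g d g⁻¹ = d'` then
    `h D m d = h D' m d'`.  It suffices to compare both with `E = ⟨d⟩` (`Subgroup.zpowers (d : G)`,
    good: finite cyclic, its order divides that of `D`), using the inclusion `E → D` (conjugation by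
    `1`) and the conjugation `E → D'` by `g`.  So let `g E g⁻¹ ⊆ D'`, `h' = conjHom g E D'`.
    Naturality: `Θ D' (fun χ' m' => (δ_{(ψ,m)}) (χ'.comp h') m') = Θ E δ_{(ψ,m)}` and the
    function on the left is `∑_{χ' : χ'.comp h' = ψ} δ_{(χ', m)}`; hence
    `ℓ E m ψ = ∑_{χ' : χ'.comp h' = ψ} ℓ D' m χ'` and
    `h E m d = ∑_ψ fL (ψ d) ∑_{χ' ∘ h' = ψ} ℓ D' m χ' = ∑_{χ'} fL (χ' (h' d)) ℓ D' m χ' = h D' m (h' d)`.
(ii) `h D m d = 0` if `pr m ∤ orderOf d`: reduce to `E = ⟨d⟩` by (i); `hvan` gives `ℓ E m ψ = 0`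
    for all `ψ` (`Nat.card E = orderOf d`).
(iii) `∑_m h D m d = 0`: `∑_m δ_{(χ,m)}` is a function independent of `m`, so `hconst` gives
    `∑_m ℓ D m χ = 0`.
(iv) inversion: `ℓ D m χ = |D|⁻¹ ∑_{d ∈ D} fL (χ d)⁻¹ * h D m d` (`sum_chi` for `χ⁻¹ χ'`).
Conclusion: `l (∑_i Θ (C i) (n i)) = ∑_i ∑_χ ∑_m n i χ m * ℓ (C i) m χ` (additivity of `Θ`)
`= ∑_m ∑_i ∑_{d ∈ C i} F i m d * h (C i) m d` with
`F i m d = |C i|⁻¹ ∑_χ n i χ m * fL (χ d)⁻¹`.  Group the pairs `(i, d)` by the conjugacy class of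
`d` in `G` (finitely many classes occur; by (i) `h (C i) m d =: hh m γ` depends only on `m` and the
class `γ` of `d`): `= ∑_γ ∑_m hh m γ * ∑_i ∑_{d ∈ C i, d ∈ γ} F i m d`.  For `c ∈ γ` the inner
sum is the left hand side of `hs`, so it is `s c` whenever `pr m ∣ orderOf c`, and otherwise
`hh m γ = 0` by (ii).  So the total is `∑_γ s c_γ * ∑_m hh m γ = 0` by (iii).
-/

set_option autoImplicit false

open Matrix

universe u v w

namespace Pool.Agent.H95.KM

open Pool.Agent.H71.FJ

/-- finite cyclic subgroups of order dividing `N` -/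
abbrev Good (G : Type v) [Group G] (N : ℕ) : Type v :=
  {D : Subgroup G // (Finite D ∧ IsCyclic D) ∧ Nat.card D ∣ N}

section aux

set_option linter.unusedSectionVars false

variable {O : Type} [CommRing O] [IsDomain O] {N : ℕ} [NeZero N] [HasEnoughRootsOfUnity O N]
  {L : Type} [Field L] [CharZero L] (fL : O →+* L) {G : Type v} [Group G] {P : Type} [Fintype P]
  {V : Type w} [AddCommGroup V] [Module ℚ V]

private theorem good_comm (D : Good G N) (a b : D.1) : a * b = b * a := by
  have := D.2.1.2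
  exact IsCyclic.commGroup.mul_comm a b

private theorem good_finite (D : Good G N) : Finite D.1 := D.2.1.1

private theorem good_dual (O : Type) [CommRing O] [IsDomain O] [HasEnoughRootsOfUnity O N]
    (D : Good G N) : Finite (D.1 →* Oˣ) := by
  have := good_finite D
  exact finite_dual N (good_comm D) D.2.2

open Classical in
/-- the functional at a character -/
private noncomputable def el (Θ : ∀ D : Good G N, ((D.1 →* Oˣ) → P → ℤ) →+ V) (l : V →ₗ[ℚ] ℚ)
    (D : Good G N) (m : P) (χ : D.1 →* Oˣ) : ℚ :=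
  l (Θ D (Pi.single χ (Pi.single m 1)))

/-- the Fourier transform of the functional -/
private noncomputable def hl (Θ : ∀ D : Good G N, ((D.1 →* Oˣ) → P → ℤ) →+ V) (l : V →ₗ[ℚ] ℚ)
    (D : Good G N) (m : P) (d : D.1) : L :=
  ∑ᶠ χ : D.1 →* Oˣ, fL ((χ d : Oˣ) : O) * (el Θ l D m χ : L)

private theorem el_nat (Θ : ∀ D : Good G N, ((D.1 →* Oˣ) → P → ℤ) →+ V) (l : V →ₗ[ℚ] ℚ)
    (hnat : ∀ (D D' : Good G N) (g : G) (h : ∀ x ∈ D.1, g * x * g⁻¹ ∈ D'.1)
      (n : (D.1 →* Oˣ) → P → ℤ), Θ D' (fun χ m => n (χ.comp (conjHom g D.1 D'.1 h)) m) = Θ D n)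
    (E D : Good G N) (g : G) (h : ∀ x ∈ E.1, g * x * g⁻¹ ∈ D.1) (m : P) (ψ : E.1 →* Oˣ)
    [Fintype (D.1 →* Oˣ)] :
    open Classical in
    el Θ l E m ψ = ∑ χ : D.1 →* Oˣ, if χ.comp (conjHom g E.1 D.1 h) = ψ then el Θ l D m χ else 0 := by
  classical
  have h1 : (fun (χ : D.1 →* Oˣ) (m' : P) =>
      (Pi.single ψ (Pi.single m 1) : (E.1 →* Oˣ) → P → ℤ) (χ.comp (conjHom g E.1 D.1 h)) m')
      = ∑ χ : D.1 →* Oˣ, if χ.comp (conjHom g E.1 D.1 h) = ψ then
        (Pi.single χ (Pi.single m 1) : (D.1 →* Oˣ) → P → ℤ) else 0 := by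
    funext χ m'
    rw [Finset.sum_apply, Finset.sum_apply, Finset.sum_eq_single χ]
    · by_cases hc : χ.comp (conjHom g E.1 D.1 h) = ψ
      · rw [if_pos hc, hc, Pi.single_eq_same, Pi.single_eq_same]
      · rw [if_neg hc, Pi.single_eq_of_ne hc]
        rfl
    · intro χ' _ hne
      by_cases hc : χ'.comp (conjHom g E.1 D.1 h) = ψ
      · rw [if_pos hc, Pi.single_eq_of_ne (Ne.symm hne)]
        rfl
      · rw [if_neg hc]
        rfl
    · intro hno
      exact absurd (Finset.mem_univ χ) hno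
  unfold el
  rw [← hnat E D g h, h1, map_sum, map_sum]
  refine Finset.sum_congr rfl fun χ _ => ?_
  split_ifs
  · rfl
  · rw [map_zero, map_zero]

private theorem hl_nat (Θ : ∀ D : Good G N, ((D.1 →* Oˣ) → P → ℤ) →+ V) (l : V →ₗ[ℚ] ℚ)
    (hnat : ∀ (D D' : Good G N) (g : G) (h : ∀ x ∈ D.1, g * x * g⁻¹ ∈ D'.1)
      (n : (D.1 →* Oˣ) → P → ℤ), Θ D' (fun χ m => n (χ.comp (conjHom g D.1 D'.1 h)) m) = Θ D n)
    (E D : Good G N) (g : G) (h : ∀ x ∈ E.1, g * x * g⁻¹ ∈ D.1) (m : P) (e : E.1) :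
    hl fL Θ l E m e = hl fL Θ l D m (conjHom g E.1 D.1 h e) := by
  classical
  have := good_dual O E
  have := good_dual O D
  let _ : Fintype (E.1 →* Oˣ) := Fintype.ofFinite _
  let _ : Fintype (D.1 →* Oˣ) := Fintype.ofFinite _
  unfold hl
  rw [finsum_eq_sum_of_fintype, finsum_eq_sum_of_fintype]
  have h1 : ∀ ψ : E.1 →* Oˣ, fL ((ψ e : Oˣ) : O) * (el Θ l E m ψ : L) =
      ∑ χ : D.1 →* Oˣ, if χ.comp (conjHom g E.1 D.1 h) = ψ then
        fL ((ψ e : Oˣ) : O) * (el Θ l D m χ : L) else 0 := by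
    intro ψ
    rw [el_nat Θ l hnat E D g h m ψ, Rat.cast_sum, Finset.mul_sum]
    refine Finset.sum_congr rfl fun χ _ => ?_
    split_ifs
    · rfl
    · rw [Rat.cast_zero, mul_zero]
  rw [Finset.sum_congr rfl fun ψ _ => h1 ψ, Finset.sum_comm]
  refine Finset.sum_congr rfl fun χ _ => ?_
  rw [Finset.sum_ite_eq Finset.univ (χ.comp (conjHom g E.1 D.1 h))
    (fun ψ => fL ((ψ e : Oˣ) : O) * (el Θ l D m χ : L)), if_pos (Finset.mem_univ _)]
  rfl

/-- the cyclic subgroup generated by an element of a good subgroup -/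
private def gen (D : Good G N) (d : D.1) : Good G N :=
  ⟨Subgroup.zpowers (d : G), by
    have := good_finite D
    have hle : Subgroup.zpowers (d : G) ≤ D.1 := by
      rw [Subgroup.zpowers_le]; exact d.2
    refine ⟨⟨?_, inferInstance⟩, ?_⟩
    · exact Finite.of_injective (Subgroup.inclusion hle) (Subgroup.inclusion_injective hle)
    · exact (Subgroup.card_dvd_of_le hle).trans D.2.2⟩

private theorem gen_card (D : Good G N) (d : D.1) : Nat.card (gen D d).1 = orderOf (d : G) :=
  Nat.card_zpowers (d : G)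

private theorem hl_conj (Θ : ∀ D : Good G N, ((D.1 →* Oˣ) → P → ℤ) →+ V) (l : V →ₗ[ℚ] ℚ)
    (hnat : ∀ (D D' : Good G N) (g : G) (h : ∀ x ∈ D.1, g * x * g⁻¹ ∈ D'.1)
      (n : (D.1 →* Oˣ) → P → ℤ), Θ D' (fun χ m => n (χ.comp (conjHom g D.1 D'.1 h)) m) = Θ D n)
    (D D' : Good G N) (m : P) (d : D.1) (d' : D'.1) (hc : IsConj (d : G) (d' : G)) :
    hl fL Θ l D m d = hl fL Θ l D' m d' := by
  obtain ⟨g, hg⟩ := isConj_iff.1 hc
  have key : ∀ (F : Good G N) (f : F.1) (x : G), x * d * x⁻¹ = f →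
      hl fL Θ l (gen D d) m ⟨d, Subgroup.mem_zpowers (d : G)⟩ = hl fL Θ l F m f := by
    intro F f x hx
    have h : ∀ y ∈ (gen D d).1, x * y * x⁻¹ ∈ F.1 := by
      intro y hy
      obtain ⟨k, rfl⟩ := Subgroup.mem_zpowers_iff.1 hy
      have h1 : x * (d : G) ^ k * x⁻¹ = (x * d * x⁻¹) ^ k := by
        rw [conj_zpow]
      rw [h1, hx]
      exact F.1.zpow_mem f.2 k
    rw [hl_nat fL Θ l hnat (gen D d) F x h m]
    congr 1
    apply Subtype.ext
    exact hx
  rw [← key D d 1 (by simp), key D' d' g hg]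

private theorem hl_van (Θ : ∀ D : Good G N, ((D.1 →* Oˣ) → P → ℤ) →+ V) (l : V →ₗ[ℚ] ℚ)
    (pr : P → ℕ)
    (hnat : ∀ (D D' : Good G N) (g : G) (h : ∀ x ∈ D.1, g * x * g⁻¹ ∈ D'.1)
      (n : (D.1 →* Oˣ) → P → ℤ), Θ D' (fun χ m => n (χ.comp (conjHom g D.1 D'.1 h)) m) = Θ D n)
    (hvan : ∀ (D : Good G N) (n : (D.1 →* Oˣ) → P → ℤ),
      (∀ χ m, n χ m ≠ 0 → ¬ pr m ∣ Nat.card D.1) → Θ D n = 0)
    (D : Good G N) (m : P) (d : D.1) (hm : ¬ pr m ∣ orderOf (d : G)) :
    hl fL Θ l D m d = 0 := by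
  classical
  rw [hl_conj fL Θ l hnat D (gen D d) m d ⟨d, Subgroup.mem_zpowers (d : G)⟩ (IsConj.refl _)]
  unfold hl
  have h1 : ∀ χ : (gen D d).1 →* Oˣ, el Θ l (gen D d) m χ = 0 := by
    intro χ
    unfold el
    rw [hvan, map_zero]
    intro χ' m' hne
    have hm' : m' = m := by
      by_contra hmm
      apply hne
      by_cases hχ : χ' = χ
      · rw [hχ, Pi.single_eq_same, Pi.single_eq_of_ne hmm]
      · rw [Pi.single_eq_of_ne hχ]; rfl
    rw [hm', gen_card]
    exact hm
  simp only [h1, Rat.cast_zero, mul_zero, finsum_zero]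

private theorem hl_sum (Θ : ∀ D : Good G N, ((D.1 →* Oˣ) → P → ℤ) →+ V) (l : V →ₗ[ℚ] ℚ)
    (hconst : ∀ (D : Good G N) (k : (D.1 →* Oˣ) → ℤ), Θ D (fun χ _ => k χ) = 0)
    (D : Good G N) (d : D.1) : ∑ m : P, hl fL Θ l D m d = 0 := by
  classical
  have := good_dual O D
  let _ : Fintype (D.1 →* Oˣ) := Fintype.ofFinite _
  unfold hl
  simp only [finsum_eq_sum_of_fintype]
  rw [Finset.sum_comm]
  refine Finset.sum_eq_zero fun χ _ => ?_
  rw [← Finset.mul_sum, ← Rat.cast_sum]
  have h1 : ∑ m : P, el Θ l D m χ = 0 := by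
    unfold el
    rw [← map_sum, ← map_sum]
    have h2 : ∑ m : P, (Pi.single χ (Pi.single m 1) : (D.1 →* Oˣ) → P → ℤ)
        = fun χ' _ => if χ' = χ then 1 else 0 := by
      funext χ' m'
      rw [Finset.sum_apply, Finset.sum_apply]
      by_cases hχ : χ' = χ
      · subst hχ
        simp [Pi.single_apply]
      · simp [hχ]
    rw [h2, hconst, map_zero]
  rw [h1, Rat.cast_zero, mul_zero]

private theorem hl_inv (Θ : ∀ D : Good G N, ((D.1 →* Oˣ) → P → ℤ) →+ V) (l : V →ₗ[ℚ] ℚ)
    (D : Good G N) [Fintype D.1] (m : P) (χ : D.1 →* Oˣ) :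
    (el Θ l D m χ : L) = (Fintype.card D.1 : L)⁻¹ *
      ∑ d : D.1, fL (((χ d)⁻¹ : Oˣ) : O) * hl fL Θ l D m d := by
  classical
  have := good_dual O D
  let _ : Fintype (D.1 →* Oˣ) := Fintype.ofFinite _
  unfold hl
  simp only [finsum_eq_sum_of_fintype, Finset.mul_sum]
  rw [Finset.sum_comm]
  have h1 : ∀ χ' : D.1 →* Oˣ, ∑ d : D.1, (Fintype.card D.1 : L)⁻¹ *
      (fL (((χ d)⁻¹ : Oˣ) : O) * (fL ((χ' d : Oˣ) : O) * (el Θ l D m χ' : L))) =
      if χ = χ' then (el Θ l D m χ' : L) else 0 := by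
    intro χ'
    have h2 : ∀ d : D.1, (Fintype.card D.1 : L)⁻¹ *
      (fL (((χ d)⁻¹ : Oˣ) : O) * (fL ((χ' d : Oˣ) : O) * (el Θ l D m χ' : L))) =
      (Fintype.card D.1 : L)⁻¹ * (el Θ l D m χ' : L) * fL ((((χ⁻¹ * χ') d : Oˣ)) : O) := by
      intro d
      rw [MonoidHom.mul_apply, MonoidHom.inv_apply, Units.val_mul, map_mul]
      ring
    rw [Finset.sum_congr rfl fun d _ => h2 d, ← Finset.mul_sum, ← map_sum]
    by_cases hχ : χ = χ'
    · subst hχ
      have hone : χ⁻¹ * χ = 1 := inv_mul_cancel χ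
      rw [if_pos rfl, hone]
      simp only [MonoidHom.one_apply, Units.val_one, Finset.sum_const, Finset.card_univ,
        nsmul_eq_mul, mul_one, map_natCast]
      have hcard : (Fintype.card D.1 : L) ≠ 0 := by
        exact_mod_cast Fintype.card_ne_zero
      field_simp
    · rw [if_neg hχ, sum_chi, map_zero, mul_zero]
      intro h0
      apply hχ
      exact inv_mul_eq_one.1 h0
  rw [Finset.sum_congr rfl fun χ' _ => h1 χ', Finset.sum_ite_eq, if_pos (Finset.mem_univ _)]

private theorem l_expand (Θ : ∀ D : Good G N, ((D.1 →* Oˣ) → P → ℤ) →+ V) (l : V →ₗ[ℚ] ℚ)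
    (D : Good G N) [Fintype (D.1 →* Oˣ)] (n : (D.1 →* Oˣ) → P → ℤ) :
    ((l (Θ D n) : ℚ) : L) = ∑ χ : D.1 →* Oˣ, ∑ m : P, (n χ m : L) * (el Θ l D m χ : L) := by
  classical
  have h1 : n = ∑ χ : D.1 →* Oˣ, ∑ m : P,
      n χ m • (Pi.single χ (Pi.single m 1) : (D.1 →* Oˣ) → P → ℤ) := by
    funext χ m
    rw [Finset.sum_apply, Finset.sum_apply, Finset.sum_eq_single χ]
    · rw [Finset.sum_apply, Finset.sum_apply, Finset.sum_eq_single m]
      · simp
      · intro m' _ hm'
        rw [Pi.smul_apply, Pi.smul_apply, Pi.single_eq_same, Pi.single_eq_of_ne (Ne.symm hm'),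
          smul_zero]
      · intro h; exact absurd (Finset.mem_univ m) h
    · intro χ' _ hχ'
      rw [Finset.sum_apply, Finset.sum_apply]
      refine Finset.sum_eq_zero fun m' _ => ?_
      rw [Pi.smul_apply, Pi.smul_apply, Pi.single_eq_of_ne (Ne.symm hχ'), Pi.zero_apply, smul_zero]
    · intro h; exact absurd (Finset.mem_univ χ) h
  conv_lhs => rw [h1]
  simp only [map_sum, map_zsmul, Rat.cast_sum]
  refine Finset.sum_congr rfl fun χ _ => Finset.sum_congr rfl fun m _ => ?_
  rw [zsmul_eq_mul, Rat.cast_mul, Rat.cast_intCast]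
  rfl

end aux

open Classical in
theorem linalg {O : Type} [CommRing O] [IsDomain O] (N : ℕ) [NeZero N]
    [HasEnoughRootsOfUnity O N] {L : Type} [Field L] [CharZero L]
    (fL : O →+* L) (hfL : Function.Injective fL) {G : Type v} [Group G]
    {P : Type} [Fintype P] (pr : P → ℕ) {V : Type w} [AddCommGroup V] [Module ℚ V]
    (Θ : ∀ D : Good G N, ((D.1 →* Oˣ) → P → ℤ) →+ V)
    (hnat : ∀ (D D' : Good G N) (g : G) (h : ∀ x ∈ D.1, g * x * g⁻¹ ∈ D'.1)
      (n : (D.1 →* Oˣ) → P → ℤ), Θ D' (fun χ m => n (χ.comp (conjHom g D.1 D'.1 h)) m) = Θ D n)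
    (hconst : ∀ (D : Good G N) (k : (D.1 →* Oˣ) → ℤ), Θ D (fun χ _ => k χ) = 0)
    (hvan : ∀ (D : Good G N) (n : (D.1 →* Oˣ) → P → ℤ),
      (∀ χ m, n χ m ≠ 0 → ¬ pr m ∣ Nat.card D.1) → Θ D n = 0)
    {ι : Type} [Fintype ι] (C : ι → Good G N) [∀ i, Fintype (C i).1]
    [∀ i, Fintype ((C i).1 →* Oˣ)] (n : ∀ i, ((C i).1 →* Oˣ) → P → ℤ) (s : G → L)
    (hs : ∀ (m : P) (c : G), 0 < orderOf c → pr m ∣ orderOf c →
      ∑ i, ∑ χ : (C i).1 →* Oˣ, (n i χ m : L) * ((Fintype.card (C i).1 : L)⁻¹ *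
        ∑ d : (C i).1, if IsConj c (d : G) then fL (((χ d)⁻¹ : Oˣ) : O) else 0) = s c) :
    ∑ i, Θ (C i) (n i) = 0 := by
  rw [← Module.forall_dual_apply_eq_zero_iff ℚ]
  intro l
  have hcast : ((l (∑ i, Θ (C i) (n i)) : ℚ) : L) = 0 → l (∑ i, Θ (C i) (n i)) = 0 := by
    intro h
    exact_mod_cast h
  apply hcast
  -- the class function
  have hex : ∀ (m : P) (c : G), ∃ y : L, ∀ (D : Good G N) (d : D.1), IsConj c (d : G) →
      hl fL Θ l D m d = y := by
    intro m c
    by_cases h : ∃ (D : Good G N) (d : D.1), IsConj c (d : G)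
    · obtain ⟨D, d, hd⟩ := h
      exact ⟨hl fL Θ l D m d, fun D' d' hd' => hl_conj fL Θ l hnat D' D m d' d
        (hd'.symm.trans hd)⟩
    · exact ⟨0, fun D d hd => absurd ⟨D, d, hd⟩ h⟩
  choose hh hhh using hex
  -- the finite set of classes
  obtain ⟨Γ, hΓ⟩ : ∃ Γ : Finset (ConjClasses G), Γ = Finset.univ.biUnion fun i =>
      Finset.univ.image fun d : (C i).1 => ConjClasses.mk (d : G) := ⟨_, rfl⟩
  have hmemΓ : ∀ (i : ι) (d : (C i).1), ConjClasses.mk (d : G) ∈ Γ := by
    intro i d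
    rw [hΓ, Finset.mem_biUnion]
    exact ⟨i, Finset.mem_univ i, Finset.mem_image_of_mem _ (Finset.mem_univ d)⟩
  have hrep : ∀ γ : ConjClasses G, ∃ c : G, ConjClasses.mk c = γ := fun γ => γ.exists_rep
  choose rp hrp using hrep
  have hconj : ∀ (γ : ConjClasses G) (x : G), IsConj (rp γ) x ↔ γ = ConjClasses.mk x := by
    intro γ x
    rw [← ConjClasses.mk_eq_mk_iff_isConj, hrp]
  have hmain : ((l (∑ i, Θ (C i) (n i)) : ℚ) : L) = ∑ γ ∈ Γ, ∑ m : P, hh m (rp γ) *
      ∑ i, ∑ χ : (C i).1 →* Oˣ, (n i χ m : L) * ((Fintype.card (C i).1 : L)⁻¹ *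
        ∑ d : (C i).1, if IsConj (rp γ) (d : G) then fL (((χ d)⁻¹ : Oˣ) : O) else 0) := by
    rw [map_sum, Rat.cast_sum]
    have h1 : ∀ i, ((l (Θ (C i) (n i)) : ℚ) : L) = ∑ m : P, ∑ χ : (C i).1 →* Oˣ,
        ∑ γ ∈ Γ, hh m (rp γ) * ((n i χ m : L) * ((Fintype.card (C i).1 : L)⁻¹ *
        ∑ d : (C i).1, if IsConj (rp γ) (d : G) then fL (((χ d)⁻¹ : Oˣ) : O) else 0)) := by
      intro i
      rw [l_expand (L := L) Θ l (C i) (n i), Finset.sum_comm]
      refine Finset.sum_congr rfl fun m _ => Finset.sum_congr rfl fun χ _ => ?_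
      rw [hl_inv fL Θ l (C i) m χ]
      have h2 : ∑ d : (C i).1, fL (((χ d)⁻¹ : Oˣ) : O) * hl fL Θ l (C i) m d =
          ∑ γ ∈ Γ, hh m (rp γ) *
            ∑ d : (C i).1, if IsConj (rp γ) (d : G) then fL (((χ d)⁻¹ : Oˣ) : O) else 0 := by
        simp only [Finset.mul_sum]
        rw [Finset.sum_comm]
        refine Finset.sum_congr rfl fun d _ => ?_
        rw [Finset.sum_eq_single (ConjClasses.mk (d : G))]
        · have h3 : IsConj (rp (ConjClasses.mk (d : G))) (d : G) := (hconj _ _).2 rfl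
          rw [if_pos h3, hhh m _ (C i) d h3, mul_comm]
        · intro γ _ hγ
          rw [if_neg (fun h3 => hγ ((hconj _ _).1 h3)), mul_zero]
        · intro h3
          exact absurd (hmemΓ i d) h3
      rw [h2, Finset.mul_sum, Finset.mul_sum]
      refine Finset.sum_congr rfl fun γ _ => ?_
      ring
    rw [Finset.sum_congr rfl fun i _ => h1 i, Finset.sum_comm]
    simp only [Finset.mul_sum]
    rw [Finset.sum_comm (s := Γ)]
    refine Finset.sum_congr rfl fun m _ => ?_
    rw [Finset.sum_comm (s := Γ)]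
    refine Finset.sum_congr rfl fun i _ => ?_
    rw [Finset.sum_comm (s := Γ)]
  rw [hmain]
  refine Finset.sum_eq_zero fun γ hγ => ?_
  rw [hΓ, Finset.mem_biUnion] at hγ
  obtain ⟨i₀, -, hγ⟩ := hγ
  obtain ⟨d₀, -, hd₀⟩ := Finset.mem_image.1 hγ
  have hcd : IsConj (rp γ) (d₀ : G) := (hconj _ _).2 hd₀.symm
  have hord : orderOf (rp γ) = orderOf (d₀ : G) := by
    obtain ⟨g, hg⟩ := isConj_iff.1 hcd
    have h4 : SemiconjBy g (rp γ) (d₀ : G) := by
      unfold SemiconjBy
      rw [← hg]; group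
    exact h4.orderOf_eq
  have hpos : 0 < orderOf (rp γ) := by
    rw [hord, Subgroup.orderOf_coe]
    exact orderOf_pos d₀
  have hterm : ∀ m : P, hh m (rp γ) *
      ∑ i, ∑ χ : (C i).1 →* Oˣ, (n i χ m : L) * ((Fintype.card (C i).1 : L)⁻¹ *
        ∑ d : (C i).1, if IsConj (rp γ) (d : G) then fL (((χ d)⁻¹ : Oˣ) : O) else 0) =
      s (rp γ) * hl fL Θ l (C i₀) m d₀ := by
    intro m
    by_cases hm : pr m ∣ orderOf (rp γ)
    · rw [hs m (rp γ) hpos hm, ← hhh m (rp γ) (C i₀) d₀ hcd, mul_comm]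
    · have h0 : hl fL Θ l (C i₀) m d₀ = 0 := by
        apply hl_van fL Θ l pr hnat hvan
        rw [← hord]; exact hm
      rw [← hhh m (rp γ) (C i₀) d₀ hcd, h0, zero_mul, mul_zero]
  rw [Finset.sum_congr rfl fun m _ => hterm m, ← Finset.mul_sum, hl_sum fL Θ l hconst, mul_zero]

end Pool.Agent.H95.KM

end

section

/-!
# Project KF, module Kres: the homomorphisms of `K₋₁` induced by `R → Mat_J(S)`

## Paper proofs

All this is in `Pool/Agent/H95/KM/Trans.lean` (`lm`, `pm`, `kres`, `map_kres`) for index types `J : Type`; here `J` is in an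
arbitrary universe. Copy and generalise (`lm`, `lm_single`, `pm`, `lm_posHom`, `lm_negHom`, `kres`, `lau_lm`, `map_kres`).
`exists_kpush`: `klm φ` agrees with the homomorphism of the construction (equal on `single k r`, hence equal).
`kpush_congr`: `K0.push_congr` (`Pool/Agent/H71/FJ/K0.lean`) for `klm φ`, `klm ψ` and the matrices `U.map (cst S)`,
`V.map (cst S)`; the intertwining relation need only be checked on `single k r` (both sides are additive).
`kpush_blk`: on classes of idempotent matrices `e` over `R[t, t⁻¹]`: `flat (klm ψ) e` is, after reindexing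
`Fin n × (Σ i, X i) ≃ Σ i, Fin n × X i`, the block diagonal matrix of the `flat (klm (φ i)) e`; and the class of a
block diagonal matrix (over a finite index type `I`) is the sum of the classes: compare `K1.push_blk`, `cls_pushBd` in
`Pool/Agent/H95/WH/Push.lean`, which do the same for `K₁` (there by induction on the index type / on a finset).
`K0.cls_fromBlocks`, `K0.cls_congr`, `K0.matEquiv_submatrix` are in `Pool/Agent/H71/FJ/K0.lean`. The empty index type has
class `0` (see `Trans.cls_bd`, case `zero`).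
-/

set_option autoImplicit false

open Matrix
open scoped LaurentPolynomial Classical

universe u v w x

namespace Pool.Agent.H95.KF

open Pool.Agent.H71.FJ Pool.Agent.H95.KM

variable {R : Type u} [Ring R] {S : Type v} [Ring S] {T : Type w} [Ring T]
variable {J : Type x} [Fintype J] [DecidableEq J]

private theorem kl_ext {M : Type*} [Ring M] {f g : R[T;T⁻¹] →+* M}
    (h : ∀ k r, f (AddMonoidAlgebra.single k r) = g (AddMonoidAlgebra.single k r)) : f = g := by
  apply RingHom.ext
  intro x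
  induction x using AddMonoidAlgebra.induction_linear with
  | zero => rw [map_zero, map_zero]
  | add x y hx hy => rw [map_add, map_add, hx, hy]
  | single k r => exact h k r

private theorem kp_ext {M : Type*} [Ring M] {f g : Polynomial R →+* M}
    (h : ∀ k r, f (Polynomial.monomial k r) = g (Polynomial.monomial k r)) : f = g := by
  apply RingHom.ext
  intro p
  induction p using Polynomial.induction_on' with
  | add p q hp hq => rw [map_add, map_add, hp, hq]
  | monomial k r => exact h k r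

theorem exists_klm (φ : R →+* Matrix J J S) : ∃ ψ : R[T;T⁻¹] →+* Matrix J J S[T;T⁻¹],
    ∀ k r, ψ (AddMonoidAlgebra.single k r) =
      Matrix.of fun i j => AddMonoidAlgebra.single k (φ r i j) := by
  refine ⟨AddMonoidAlgebra.liftNCRingHom ((cst S).mapMatrix.comp φ)
    (((Matrix.scalar J : S[T;T⁻¹] →+* Matrix J J S[T;T⁻¹]) : S[T;T⁻¹] →* Matrix J J S[T;T⁻¹]).comp
      (AddMonoidAlgebra.of S ℤ))
    (fun r k => by
      change (φ r).map (cst S) * Matrix.scalar J (AddMonoidAlgebra.single k.toAdd 1) =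
        Matrix.scalar J (AddMonoidAlgebra.single k.toAdd 1) * (φ r).map (cst S)
      rw [Matrix.scalar_apply]
      ext1 i j
      rw [Matrix.mul_diagonal, Matrix.diagonal_mul, Matrix.map_apply, cst_apply,
        AddMonoidAlgebra.single_mul_single, AddMonoidAlgebra.single_mul_single, add_zero, zero_add,
        one_mul, mul_one]), fun k r => ?_⟩
  change AddMonoidAlgebra.liftNC _ _ _ = _
  rw [AddMonoidAlgebra.liftNC_single]
  change (φ r).map (cst S) * Matrix.scalar J (AddMonoidAlgebra.single k 1) = _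
  rw [Matrix.scalar_apply]
  ext1 i j
  rw [Matrix.mul_diagonal, Matrix.map_apply, cst_apply,
    AddMonoidAlgebra.single_mul_single, zero_add, mul_one, Matrix.of_apply]

/-- the homomorphism `R[t, t⁻¹] → Mat_J(S[t, t⁻¹])` -/
noncomputable def klm (φ : R →+* Matrix J J S) : R[T;T⁻¹] →+* Matrix J J S[T;T⁻¹] :=
  (exists_klm φ).choose

theorem klm_single (φ : R →+* Matrix J J S) (k : ℤ) (r : R) :
    klm φ (AddMonoidAlgebra.single k r) =
      Matrix.of fun i j => AddMonoidAlgebra.single k (φ r i j) :=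
  (exists_klm φ).choose_spec k r

/-- the homomorphism `R[X] → Mat_J(S[X])` -/
private noncomputable def kpm (φ : R →+* Matrix J J S) :
    Polynomial R →+* Matrix J J (Polynomial S) :=
  Polynomial.eval₂RingHom' ((Polynomial.C : S →+* Polynomial S).mapMatrix.comp φ)
    (Matrix.scalar J Polynomial.X)
    (fun r => by
      change (φ r).map Polynomial.C * Matrix.scalar J Polynomial.X =
        Matrix.scalar J Polynomial.X * (φ r).map Polynomial.C
      rw [Matrix.scalar_apply]
      ext1 i j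
      rw [Matrix.mul_diagonal, Matrix.diagonal_mul, Matrix.map_apply, Polynomial.X_mul_C])

private theorem kpm_monomial (φ : R →+* Matrix J J S) (k : ℕ) (r : R) :
    kpm φ (Polynomial.monomial k r) = Matrix.of fun i j => Polynomial.monomial k (φ r i j) := by
  change Polynomial.eval₂ _ _ _ = _
  rw [Polynomial.eval₂_monomial]
  change (φ r).map Polynomial.C * Matrix.scalar J Polynomial.X ^ k = _
  rw [← map_pow, Matrix.scalar_apply]
  ext1 i j
  rw [Matrix.mul_diagonal, Matrix.map_apply, Matrix.of_apply, Polynomial.C_mul_X_pow_eq_monomial]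

private theorem klm_posHom (φ : R →+* Matrix J J S) :
    (klm φ).comp (posHom R) = (posHom S).mapMatrix.comp (kpm φ) := by
  apply kp_ext
  intro k r
  rw [RingHom.comp_apply, RingHom.comp_apply, posHom_monomial, klm_single, kpm_monomial]
  ext1 i j
  rw [RingHom.mapMatrix_apply, Matrix.map_apply, Matrix.of_apply, Matrix.of_apply, posHom_monomial]

private theorem klm_negHom (φ : R →+* Matrix J J S) :
    (klm φ).comp (negHom R) = (negHom S).mapMatrix.comp (kpm φ) := by
  apply kp_ext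
  intro k r
  rw [RingHom.comp_apply, RingHom.comp_apply, negHom_monomial, klm_single, kpm_monomial]
  ext1 i j
  rw [RingHom.mapMatrix_apply, Matrix.map_apply, Matrix.of_apply, Matrix.of_apply, negHom_monomial]

private theorem lau_klm (f : S →+* T) (φ : R →+* Matrix J J S) :
    (lau f).mapMatrix.comp (klm φ) = klm (f.mapMatrix.comp φ) := by
  apply kl_ext
  intro k r
  rw [RingHom.comp_apply, klm_single, klm_single]
  ext1 i j
  rw [RingHom.mapMatrix_apply, Matrix.map_apply, Matrix.of_apply, Matrix.of_apply, lau_single]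
  rfl

theorem exists_kpush (φ : R →+* Matrix J J S) : ∃ f : Km1 R →+ Km1 S,
    ∀ x, f (Km1.mk x) = Km1.mk (K0.push (klm φ) x) :=
  ⟨Km1.lift (Km1.mk.comp (K0.push (klm φ)))
    (fun x => by
      rw [AddMonoidHom.comp_apply, K0.push_map, klm_posHom, ← K0.map_push, Km1.mk_pos])
    (fun x => by
      rw [AddMonoidHom.comp_apply, K0.push_map, klm_negHom, ← K0.map_push, Km1.mk_neg]),
    fun _ => rfl⟩

/-- the homomorphism `K₋₁(R) → K₋₁(S)` induced by `R → Mat_J(S)` -/
noncomputable def kpush (φ : R →+* Matrix J J S) : Km1 R →+ Km1 S := (exists_kpush φ).choose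

theorem kpush_mk (φ : R →+* Matrix J J S) (x : K0 R[T;T⁻¹]) :
    kpush φ (Km1.mk x) = Km1.mk (K0.push (klm φ) x) := (exists_kpush φ).choose_spec x

theorem map_kpush (f : S →+* T) (φ : R →+* Matrix J J S) (x : Km1 R) :
    Km1.map f (kpush φ x) = kpush (f.mapMatrix.comp φ) x := by
  obtain ⟨y, rfl⟩ := Km1.mk_surjective x
  rw [kpush_mk, kpush_mk, Km1.map_mk, K0.map_push, lau_klm]

private theorem cst_mul_single {ι κ l : Type*} [Fintype κ] (U : Matrix ι κ S) (M : Matrix κ l S)
    (k : ℤ) : U.map (cst S) * (Matrix.of fun i j => AddMonoidAlgebra.single k (M i j)) =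
      Matrix.of fun i j => AddMonoidAlgebra.single k ((U * M) i j) := by
  ext1 i j
  rw [Matrix.mul_apply, Matrix.of_apply, Matrix.mul_apply]
  change _ = AddMonoidAlgebra.singleAddHom k (∑ d, U i d * M d j)
  rw [map_sum]
  refine Finset.sum_congr rfl fun d _ => ?_
  rw [Matrix.map_apply, Matrix.of_apply, cst_apply, AddMonoidAlgebra.single_mul_single, zero_add]
  rfl

private theorem single_mul_cst {ι κ l : Type*} [Fintype κ] (M : Matrix ι κ S) (U : Matrix κ l S)
    (k : ℤ) : (Matrix.of fun i j => AddMonoidAlgebra.single k (M i j)) * U.map (cst S) =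
      Matrix.of fun i j => AddMonoidAlgebra.single k ((M * U) i j) := by
  ext1 i j
  rw [Matrix.mul_apply, Matrix.of_apply, Matrix.mul_apply]
  change _ = AddMonoidAlgebra.singleAddHom k (∑ d, M i d * U d j)
  rw [map_sum]
  refine Finset.sum_congr rfl fun d _ => ?_
  rw [Matrix.map_apply, Matrix.of_apply, cst_apply, AddMonoidAlgebra.single_mul_single, add_zero]
  rfl

theorem kpush_congr {J' : Type*} [Fintype J'] [DecidableEq J'] (φ : R →+* Matrix J J S)
    (ψ : R →+* Matrix J' J' S) (U : Matrix J J' S) (V : Matrix J' J S) (hUV : U * V = 1)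
    (hVU : V * U = 1) (h : ∀ r, φ r * U = U * ψ r) (x : Km1 R) : kpush φ x = kpush ψ x := by
  obtain ⟨y, rfl⟩ := Km1.mk_surjective x
  rw [kpush_mk, kpush_mk]
  congr 1
  refine K0.push_congr (klm φ) (klm ψ) (U.map (cst S)) (V.map (cst S)) ?_ ?_ ?_ y
  · rw [← Matrix.map_mul, hUV, Matrix.map_one _ (map_zero _) (map_one _)]
  · rw [← Matrix.map_mul, hVU, Matrix.map_one _ (map_zero _) (map_one _)]
  · intro r
    induction r using AddMonoidAlgebra.induction_linear with
    | zero => rw [map_zero, map_zero, Matrix.mul_zero, Matrix.zero_mul]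
    | add a b ha hb => rw [map_add, map_add, Matrix.mul_add, Matrix.add_mul, ha, hb]
    | single k r => rw [klm_single, klm_single, cst_mul_single, single_mul_cst, h]

/-! ### Block diagonal homomorphisms -/

private theorem kcls_zero {ι : Type*} [Fintype ι] [DecidableEq ι]
    (h : (0 : Matrix ι ι S) * 0 = 0) : K0.cls (0 : Matrix ι ι S) h = 0 := by
  have h2 : K0.cls (0 : Matrix ι ι S) h + K0.cls (0 : Matrix ι ι S) h = K0.cls 0 h := by
    rw [← K0.cls_fromBlocks]
    apply K0.cls_congr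
    refine ⟨0, 0, ?_, ?_⟩
    · rw [Matrix.zero_mul]
      exact Matrix.fromBlocks_zero.symm
    · rw [Matrix.zero_mul]
  simpa using h2

private theorem kcls_eq {ι : Type*} [Fintype ι] [DecidableEq ι] {e f : Matrix ι ι S}
    (he : e * e = e) (hf : f * f = f) (h : e = f) : K0.cls e he = K0.cls f hf := by
  subst h
  rfl

private theorem kadd_idem {ι : Type*} [Fintype ι] {e f : Matrix ι ι S} (he : e * e = e)
    (hf : f * f = f) (hef : e * f = 0) (hfe : f * e = 0) : (e + f) * (e + f) = e + f := by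
  rw [Matrix.add_mul, Matrix.mul_add, Matrix.mul_add, he, hf, hef, hfe, add_zero, zero_add]

/-- the class of a sum of two orthogonal idempotents -/
private theorem kcls_add {ι : Type*} [Fintype ι] [DecidableEq ι] {e f : Matrix ι ι S}
    (he : e * e = e) (hf : f * f = f) (hef : e * f = 0) (hfe : f * e = 0)
    (hs : (e + f) * (e + f) = e + f) : K0.cls (e + f) hs = K0.cls e he + K0.cls f hf := by
  rw [← K0.cls_fromBlocks]
  apply K0.cls_congr
  apply K0.matEquiv_symm
  refine ⟨Matrix.fromRows e f, Matrix.fromCols e f, ?_, ?_⟩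
  · rw [Matrix.fromRows_mul_fromCols, he, hf, hef, hfe]
  · rw [Matrix.fromCols_mul_fromRows, he, hf]

private theorem kcls_sum {ι I : Type*} [Fintype ι] [DecidableEq ι] [DecidableEq I]
    (P : I → Matrix ι ι S) (hP : ∀ i, P i * P i = P i) (hPP : ∀ i j, i ≠ j → P i * P j = 0)
    (s : Finset I) : ∃ h : (∑ i ∈ s, P i) * (∑ i ∈ s, P i) = ∑ i ∈ s, P i,
      K0.cls (∑ i ∈ s, P i) h = ∑ i ∈ s, K0.cls (P i) (hP i) := by
  induction s using Finset.induction_on with
  | empty =>
    refine ⟨by rw [Finset.sum_empty, Matrix.zero_mul], ?_⟩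
    rw [kcls_eq _ (Matrix.zero_mul 0) Finset.sum_empty, kcls_zero, Finset.sum_empty]
  | insert a s ha ih =>
    obtain ⟨h, ih⟩ := ih
    have h1 : P a * ∑ i ∈ s, P i = 0 := by
      rw [Finset.mul_sum]
      exact Finset.sum_eq_zero fun i hi => hPP a i (fun e => ha (e ▸ hi))
    have h2 : (∑ i ∈ s, P i) * P a = 0 := by
      rw [Finset.sum_mul]
      exact Finset.sum_eq_zero fun i hi => hPP i a (fun e => ha (e ▸ hi))
    have h3 := kadd_idem (hP a) h h1 h2
    have h4 : ∑ i ∈ insert a s, P i = P a + ∑ i ∈ s, P i := Finset.sum_insert ha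
    refine ⟨by rw [h4, h3], ?_⟩
    rw [kcls_eq _ h3 h4, kcls_add (hP a) h h1 h2, ih, Finset.sum_insert ha]

section Blk

variable {I : Type*} [Fintype I] [DecidableEq I] {X : I → Type*} [∀ i, Fintype (X i)]
  [∀ i, DecidableEq (X i)]

omit [∀ i, DecidableEq (X i)] in
private theorem kblk_single_mul (e : ∀ i, Matrix (X i) (X i) S) (he : ∀ i, e i * e i = e i)
    (i : I) : blockDiagonal' (Pi.single i (e i)) * blockDiagonal' (Pi.single i (e i)) =
      blockDiagonal' (Pi.single i (e i)) := by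
  rw [← Matrix.blockDiagonal'_mul]
  congr 1
  funext j
  by_cases hij : j = i
  · subst hij
    rw [Pi.single_eq_same, he]
  · rw [Pi.single_eq_of_ne hij, Matrix.zero_mul]

private theorem kcls_single (e : ∀ i, Matrix (X i) (X i) S) (he : ∀ i, e i * e i = e i) (i : I) :
    K0.cls (blockDiagonal' (Pi.single i (e i)) : Matrix (Σ i, X i) (Σ i, X i) S)
      (kblk_single_mul e he i) = K0.cls (e i) (he i) := by
  apply K0.cls_congr
  refine ⟨(blockDiagonal' (Pi.single i (e i))).submatrix id (fun b => (⟨i, b⟩ : Σ i, X i)),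
    (blockDiagonal' (Pi.single i (e i))).submatrix (fun b => (⟨i, b⟩ : Σ i, X i)) id, ?_, ?_⟩
  · ext1 ⟨j, a⟩ ⟨k, b⟩
    rw [Matrix.mul_apply]
    simp only [Matrix.submatrix_apply, id_eq]
    by_cases hj : j = i
    · subst hj
      by_cases hk : j = k
      · subst hk
        simp only [Matrix.blockDiagonal'_apply_eq, Pi.single_eq_same]
        have := congrFun (congrFun (he j) a) b
        rwa [Matrix.mul_apply] at this
      · simp only [Matrix.blockDiagonal'_apply_ne _ _ _ hk, mul_zero, Finset.sum_const_zero]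
    · simp only [Matrix.blockDiagonal'_apply_ne _ _ _ hj, zero_mul, Finset.sum_const_zero]
      by_cases hk : j = k
      · subst hk
        rw [Matrix.blockDiagonal'_apply_eq, Pi.single_eq_of_ne hj]
        rfl
      · rw [Matrix.blockDiagonal'_apply_ne _ _ _ hk]
  · ext1 a b
    rw [Matrix.mul_apply, Fintype.sum_sigma]
    simp only [Matrix.submatrix_apply, id_eq]
    rw [Finset.sum_eq_single i]
    · simp only [Matrix.blockDiagonal'_apply_eq, Pi.single_eq_same]
      have := congrFun (congrFun (he i) a) b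
      rwa [Matrix.mul_apply] at this
    · intro j _ hj
      simp only [Matrix.blockDiagonal'_apply_ne _ _ _ hj, mul_zero, Finset.sum_const_zero]
    · intro h
      exact absurd (Finset.mem_univ _) h

omit [∀ i, Fintype (X i)] [∀ i, DecidableEq (X i)] in
private theorem kblk_sum (e : ∀ i, Matrix (X i) (X i) S) :
    (∑ i, blockDiagonal' (Pi.single i (e i)) : Matrix (Σ i, X i) (Σ i, X i) S) =
      blockDiagonal' e := by
  ext1 ⟨j, a⟩ ⟨k, b⟩
  rw [Matrix.sum_apply]
  by_cases hk : j = k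
  · subst hk
    simp only [Matrix.blockDiagonal'_apply_eq]
    rw [Finset.sum_eq_single j]
    · rw [Pi.single_eq_same]
    · intro i _ hi
      rw [Pi.single_eq_of_ne hi.symm]
      rfl
    · intro h
      exact absurd (Finset.mem_univ _) h
  · simp only [Matrix.blockDiagonal'_apply_ne _ _ _ hk, Finset.sum_const_zero]

private theorem kcls_blk (e : ∀ i, Matrix (X i) (X i) S) (he : ∀ i, e i * e i = e i)
    (hb : (blockDiagonal' e : Matrix (Σ i, X i) (Σ i, X i) S) * blockDiagonal' e =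
      blockDiagonal' e) : K0.cls (blockDiagonal' e) hb = ∑ i, K0.cls (e i) (he i) := by
  obtain ⟨h, h2⟩ := kcls_sum
    (fun i => (blockDiagonal' (Pi.single i (e i)) : Matrix (Σ i, X i) (Σ i, X i) S))
    (fun i => kblk_single_mul e he i) (fun i j hij => by
      rw [← Matrix.blockDiagonal'_mul]
      refine Eq.trans (congrArg _ ?_) Matrix.blockDiagonal'_zero
      funext l
      by_cases hl : l = i
      · subst hl
        rw [Pi.single_eq_of_ne hij, Matrix.mul_zero]
        rfl
      · rw [Pi.single_eq_of_ne hl, Matrix.zero_mul]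
        rfl) Finset.univ
  rw [← kcls_eq h hb (kblk_sum e), h2]
  exact Finset.sum_congr rfl fun i _ => kcls_single e he i

omit [Fintype I] in
private theorem klm_blk [Fintype (Σ i, X i)] [DecidableEq (Σ i, X i)]
    (φ : ∀ i, R →+* Matrix (X i) (X i) S) (ψ : R →+* Matrix (Σ i, X i) (Σ i, X i) S)
    (h : ∀ r, ψ r = blockDiagonal' fun i => φ i r) (r : R[T;T⁻¹]) :
    klm ψ r = blockDiagonal' fun i => klm (φ i) r := by
  induction r using AddMonoidAlgebra.induction_linear with
  | zero =>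
    simp only [map_zero]
    exact (Matrix.blockDiagonal'_zero).symm
  | add a b ha hb =>
    simp only [map_add]
    rw [ha, hb]
    exact (Matrix.blockDiagonal'_add _ _).symm
  | single k r =>
    rw [klm_single]
    ext1 ⟨i, a⟩ ⟨j, b⟩
    rw [Matrix.of_apply, h]
    by_cases hij : i = j
    · subst hij
      rw [Matrix.blockDiagonal'_apply_eq, Matrix.blockDiagonal'_apply_eq, klm_single,
        Matrix.of_apply]
    · rw [Matrix.blockDiagonal'_apply_ne _ _ _ hij, Matrix.blockDiagonal'_apply_ne _ _ _ hij,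
        AddMonoidAlgebra.single_zero]

private theorem kpush_blk_aux [Fintype (Σ i, X i)] [DecidableEq (Σ i, X i)]
    (φ : ∀ i, R →+* Matrix (X i) (X i) S) (ψ : R →+* Matrix (Σ i, X i) (Σ i, X i) S)
    (h : ∀ r, ψ r = blockDiagonal' fun i => φ i r) (x : K0 R) :
    K0.push ψ x = ∑ i, K0.push (φ i) x := by
  have key : K0.push ψ = ∑ i, K0.push (φ i) := by
    apply K0.hom_ext
    intro a
    rw [AddMonoidHom.finsetSum_apply, K0.push_mk]
    simp only [K0.push_mk]
    have hidem : ∀ i, K0.flat (φ i) a.mat * K0.flat (φ i) a.mat = K0.flat (φ i) a.mat :=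
      fun i => K0.flat_idem (φ i) a.idem
    have hb : (blockDiagonal' (fun i => K0.flat (φ i) a.mat) :
        Matrix (Σ i, Fin a.n × X i) (Σ i, Fin a.n × X i) S) *
          blockDiagonal' (fun i => K0.flat (φ i) a.mat) =
          blockDiagonal' (fun i => K0.flat (φ i) a.mat) := by
      rw [← Matrix.blockDiagonal'_mul]
      exact congrArg _ (funext hidem)
    rw [← kcls_blk (X := fun i => Fin a.n × X i) (fun i => K0.flat (φ i) a.mat) hidem hb]
    let e : (Σ i, Fin a.n × X i) ≃ Fin a.n × (Σ i, X i) :=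
      { toFun := fun y => (y.2.1, ⟨y.1, y.2.2⟩)
        invFun := fun x => ⟨x.2.1, (x.1, x.2.2)⟩
        left_inv := fun x => rfl
        right_inv := fun x => rfl }
    have he : (blockDiagonal' (fun i => K0.flat (φ i) a.mat) :
        Matrix (Σ i, Fin a.n × X i) (Σ i, Fin a.n × X i) S) =
          (K0.flat ψ a.mat).submatrix e e := by
      ext1 ⟨i, p, c⟩ ⟨j, q, d⟩
      change _ = ψ (a.mat p q) ⟨i, c⟩ ⟨j, d⟩
      rw [h]
      by_cases hij : i = j
      · subst hij
        rw [Matrix.blockDiagonal'_apply_eq, Matrix.blockDiagonal'_apply_eq]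
        rfl
      · rw [Matrix.blockDiagonal'_apply_ne _ _ _ hij, Matrix.blockDiagonal'_apply_ne _ _ _ hij]
    apply K0.cls_congr
    apply K0.matEquiv_symm
    rw [he]
    exact K0.matEquiv_submatrix _ (K0.flat_idem ψ a.idem) e
  rw [key, AddMonoidHom.finsetSum_apply]

end Blk

theorem kpush_blk {I : Type*} [Fintype I] [DecidableEq I] {X : I → Type*} [∀ i, Fintype (X i)]
    [∀ i, DecidableEq (X i)] [Fintype (Σ i, X i)] [DecidableEq (Σ i, X i)]
    (φ : ∀ i, R →+* Matrix (X i) (X i) S) (ψ : R →+* Matrix (Σ i, X i) (Σ i, X i) S)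
    (h : ∀ r, ψ r = blockDiagonal' fun i => φ i r) (x : Km1 R) :
    kpush ψ x = ∑ i, kpush (φ i) x := by
  obtain ⟨y, rfl⟩ := Km1.mk_surjective x
  rw [kpush_mk, kpush_blk_aux (fun i => klm (φ i)) (klm ψ) (klm_blk φ ψ h), map_sum]
  exact Finset.sum_congr rfl fun i _ => (kpush_mk (φ i) y).symm

end Pool.Agent.H95.KF

end
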