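import Pool.Agent.H94.FJ.M03
import Pool.Agent.H94.FJ.M04

/-! The parts of this file: H95.KM.ThetaDefs, H95.KM.Loc, H95.KM.DetOne, H95.KM.Theta. -/

section

/-!
# Project KM: the classes `Θ(n) ∈ K₋₁(O[C])`

`Amod O N = O / N`, `Pr O N` is the set of its maximal ideals, `kappa O N m` (`m ∈ Pr O N`) a complete
family of orthogonal idempotents of `O / N` with `kappa m ∉ m`.

`sqC f N C : Sq R[C] ((C →* Oˣ) → R) ((C →* Oˣ) → R / N)` is the square of the Fourier transform
(`|C|` divides `N`).  For `n : (C →* Oˣ) → Pr O N → ℤ` the unit `un n` of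
`((C →* Oˣ) → O / N)[t, t⁻¹]` has the components `∑_m t^(n χ m) kappa m` and
`Θ(n) = DD (un n) ∈ K₋₁(O[C])`.
-/

set_option autoImplicit false

open Matrix
open scoped LaurentPolynomial

universe u v w

namespace Pool.Agent.H95.KM

open Pool.Agent.H71.FJ

/-- `R / N`. -/
abbrev Amod (R : Type) [CommRing R] (N : ℕ) : Type := R ⧸ Ideal.span {(N : R)}

/-- The maximal ideals of `O / N`. -/
abbrev Pr (O : Type) [CommRing O] (N : ℕ) : Type := MaximalSpectrum (Amod O N)

section kappa

variable (O : Type) [CommRing O] (N : ℕ) [Finite (Amod O N)]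

noncomputable instance instFintypePr : Fintype (Pr O N) := Fintype.ofFinite _

/-- A complete family of orthogonal idempotents indexed by the maximal ideals of `O / N`. -/
noncomputable def kappa : Pr O N → Amod O N := (exists_orth (Amod O N)).choose

theorem kappa_complete : CompleteOrthogonalIdempotents (kappa O N) :=
  (exists_orth (Amod O N)).choose_spec.1

theorem kappa_notMem (m : Pr O N) : kappa O N m ∉ m.asIdeal :=
  (exists_orth (Amod O N)).choose_spec.2 m

theorem kappa_mul (m m' : Pr O N) [Decidable (m = m')] :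
    kappa O N m * kappa O N m' = if m = m' then kappa O N m else 0 := by
  split_ifs with h
  · subst h
    exact (kappa_complete O N).idem m
  · exact (kappa_complete O N).ortho h

theorem sum_kappa : ∑ m, kappa O N m = 1 := (kappa_complete O N).complete

end kappa

section un

variable (O : Type) [CommRing O] (N : ℕ) [Finite (Amod O N)] (X : Type v)

/-- The element of `(O / N)[t, t⁻¹]` which is `t^(n m)` at the component `m`. -/
noncomputable def unComp {O : Type} [CommRing O] {N : ℕ} [Finite (Amod O N)]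
    (n : Pr O N → ℤ) : (Amod O N)[T;T⁻¹] := ∑ m, AddMonoidAlgebra.single (n m) (kappa O N m)

theorem unComp_mul {O : Type} [CommRing O] {N : ℕ} [Finite (Amod O N)]
    (n n' : Pr O N → ℤ) : unComp n * unComp n' = unComp (n + n') := by
  classical
  simp only [unComp, Finset.sum_mul_sum, AddMonoidAlgebra.single_mul_single, kappa_mul]
  apply Finset.sum_congr rfl
  intro m _
  rw [Finset.sum_eq_single m]
  · rw [if_pos rfl]
    rfl
  · intro b _ hb
    rw [if_neg (Ne.symm hb), AddMonoidAlgebra.single_zero]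
  · intro h
    exact absurd (Finset.mem_univ _) h

theorem unComp_zero {O : Type} [CommRing O] {N : ℕ} [Finite (Amod O N)] :
    unComp (0 : Pr O N → ℤ) = 1 := by
  simp only [unComp, Pi.zero_apply]
  have : ∀ m : Pr O N, (AddMonoidAlgebra.single 0 (kappa O N m) : (Amod O N)[T;T⁻¹]) =
      cst _ (kappa O N m) := fun m => rfl
  simp only [this]
  rw [← map_sum, sum_kappa, map_one]

variable {X}

/-- the component of a Laurent polynomial with coefficients in `X → R` -/
noncomputable def cmp {R : Type*} [Ring R] (χ : X) : (X → R)[T;T⁻¹] →+* R[T;T⁻¹] :=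
  lau (Pi.evalRingHom (fun _ : X => R) χ)

theorem cmp_coeff {R : Type*} [Ring R] (χ : X) (z : (X → R)[T;T⁻¹]) (k : ℤ) :
    (cmp χ z).coeff k = z.coeff k χ := lau_coeff _ _ _

theorem cmp_ext {R : Type*} [Ring R] {z z' : (X → R)[T;T⁻¹]}
    (h : ∀ χ : X, cmp χ z = cmp χ z') : z = z' := by
  apply ext_coeff
  intro k
  funext χ
  rw [← cmp_coeff, ← cmp_coeff, h]

theorem exists_cmp {R : Type*} [Ring R] [Finite X] (F : X → R[T;T⁻¹]) :
    ∃ z : (X → R)[T;T⁻¹], ∀ χ, cmp χ z = F χ := by
  classical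
  have : Fintype X := Fintype.ofFinite X
  refine ⟨∑ χ, ∑ k ∈ (F χ).coeff.support,
    AddMonoidAlgebra.single k (Pi.single χ ((F χ).coeff k)), ?_⟩
  intro ψ
  rw [map_sum, Finset.sum_eq_single ψ]
  · rw [map_sum]
    conv_rhs => rw [eq_sum_single (F ψ)]
    apply Finset.sum_congr rfl
    intro k _
    rw [cmp, lau_single, Pi.evalRingHom_apply, Pi.single_eq_same]
  · intro χ _ hχ
    rw [map_sum]
    apply Finset.sum_eq_zero
    intro k _
    rw [cmp, lau_single, Pi.evalRingHom_apply, Pi.single_eq_of_ne (Ne.symm hχ),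
      AddMonoidAlgebra.single_zero]
  · intro h
    exact absurd (Finset.mem_univ _) h

variable {O N}

/-- The element of `(X → O / N)[t, t⁻¹]` with components `∑_m t^(n χ m) kappa m`. -/
noncomputable def un [Finite X] (n : X → Pr O N → ℤ) : (X → Amod O N)[T;T⁻¹] :=
  (exists_cmp (fun χ => unComp (n χ))).choose

theorem cmp_un [Finite X] (n : X → Pr O N → ℤ) (χ : X) : cmp χ (un n) = unComp (n χ) :=
  (exists_cmp (fun χ => unComp (n χ))).choose_spec χ

theorem un_mul [Finite X] (n n' : X → Pr O N → ℤ) : un n * un n' = un (n + n') := by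
  apply cmp_ext
  intro χ
  rw [map_mul, cmp_un, cmp_un, cmp_un, unComp_mul]
  rfl

theorem un_zero [Finite X] : un (0 : X → Pr O N → ℤ) = 1 := by
  apply cmp_ext
  intro χ
  rw [map_one, cmp_un, Pi.zero_apply, unComp_zero]

/-- The `1 × 1` matrix `un n` as a unit. -/
noncomputable def uN [Finite X] (n : X → Pr O N → ℤ) :
    (Matrix Unit Unit (X → Amod O N)[T;T⁻¹])ˣ where
  val := Matrix.of fun _ _ => un n
  inv := Matrix.of fun _ _ => un (-n)
  val_inv := by
    ext i j : 1
    simp [Matrix.mul_apply, un_mul, un_zero, Matrix.one_apply, Subsingleton.elim i j]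
  inv_val := by
    ext i j : 1
    simp [Matrix.mul_apply, un_mul, un_zero, Matrix.one_apply, Subsingleton.elim i j]

end un

section sq

variable {O : Type} [CommRing O] [IsDomain O] {R : Type} [CommRing R] [IsDomain R] [CharZero R]
  (f : O →+* R) (N : ℕ) [NeZero N] [HasEnoughRootsOfUnity O N]
  (C : Type v) [Group C] [Finite C] (hC : ∀ a b : C, a * b = b * a) (hN : Nat.card C ∣ N)

/-- The square of the Fourier transform. -/
noncomputable def sqC : Sq (MonoidAlgebra R C) ((C →* Oˣ) → R) ((C →* Oˣ) → Amod R N) where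
  φ := fou f C
  π := RingHom.pi fun χ => (Ideal.Quotient.mk _).comp (Pi.evalRingHom (fun _ => R) χ)
  inj := by
    apply fou_injective f N hC hN
    intro r hr
    rcases mul_eq_zero.1 hr with h | h
    · exact absurd h (by exact_mod_cast Nat.card_pos.ne')
    · exact h
  surj := by
    intro y
    choose g hg using fun χ => Ideal.Quotient.mk_surjective (y χ)
    exact ⟨g, funext hg⟩
  ker := by
    intro z hz
    have := finite_dual (O := O) N hC hN
    obtain ⟨k, hk⟩ := hN
    have h1 : ∀ χ, ∃ r, z χ = (N : R) * r := by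
      intro χ
      have h2 : Ideal.Quotient.mk (Ideal.span {(N : R)}) (z χ) = 0 := congrFun hz χ
      rw [Ideal.Quotient.eq_zero_iff_mem, Ideal.mem_span_singleton] at h2
      exact h2
    choose r hr using h1
    obtain ⟨x, hx⟩ := exists_fou f (C := C) (fun χ => (k : R) * r χ)
    refine ⟨x, ?_⟩
    rw [hx]
    funext χ
    rw [hr, hk]
    push_cast
    ring

/-- The class `Θ(n) ∈ K₋₁(O[C])`. -/
noncomputable def Theta [CharZero O] [Finite (Amod O N)] (n : (C →* Oˣ) → Pr O N → ℤ) :
    Km1 (MonoidAlgebra O C) :=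
  haveI := finite_dual (O := O) N hC hN
  (sqC (RingHom.id O) N C hC hN).DD.D (uN n)

end sq

end Pool.Agent.H95.KM

end

section

/-!
# Project KM, module Loc: localization at a prime dividing `N`

PROOF.  Let `𝔭 = m.asIdeal.comap (Ideal.Quotient.mk _)`, a prime (maximal) ideal of `O` containing
`N`, `Om = Localization.AtPrime 𝔭`, `f = algebraMap O Om`,
`j = IsLocalization.lift` of `fL` (`fL s ≠ 0` for `s ∉ 𝔭`).  `j ∘ f = fL`; `j` is injective (an
element of `Om` is `a / s`, `j (a / s) = 0` gives `fL a = 0`, `a = 0`); hence `Om` is a domain of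
characteristic zero (subring of the field `L`, or `IsLocalization` lemmas).
Krull: `p ∈ m` means that the image of `p` in `Om` is in the maximal ideal; `Om` is a noetherian
local domain, so `⋂ (maximal ideal)^k = 0` (`Ideal.iInf_pow_eq_bot_of_isLocalRing` or so), and
`p ^ k ∣ a` for all `k` implies `a = 0`.
Last claim: for `r` with `r ≡ kappa m'` mod `N`.  If `m' ≠ m`: choose `r₀` with `r₀ ≡ kappa m`;
`r r₀ ∈ N O` (`kappa_mul`) and `r₀ ∉ 𝔭` (`kappa_notMem`), so `f r₀` is a unit and `f r ∈ N Om`.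
If `m' = m`: `r ∉ 𝔭`, `f r` is a unit and `r r - r ∈ N O`, so `f r - 1 ∈ N Om`.
-/

set_option autoImplicit false

open Matrix
open scoped LaurentPolynomial

universe u v w

namespace Pool.Agent.H95.KM

open Pool.Agent.H71.FJ

open Classical in
theorem exists_loc {O : Type} [CommRing O] [IsDomain O] [IsNoetherianRing O] [CharZero O] (N : ℕ)
    [NeZero N] [Finite (Amod O N)] {L : Type} [Field L] (fL : O →+* L)
    (hfL : Function.Injective fL) (m : Pr O N) :
    ∃ (Om : Type) (_ : CommRing Om) (_ : IsDomain Om) (_ : CharZero Om) (f : O →+* Om)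
      (j : Om →+* L), j.comp f = fL ∧ Function.Injective j ∧
      (∀ p : ℕ, (p : Amod O N) ∈ m.asIdeal → ∀ a : Om, (∀ k : ℕ, (p : Om) ^ k ∣ a) → a = 0) ∧
      (∀ (m' : Pr O N) (r : O), Ideal.Quotient.mk (Ideal.span {(N : O)}) r = kappa O N m' →
        Ideal.Quotient.mk (Ideal.span {(N : Om)}) (f r) = if m' = m then 1 else 0) := by
  set q : O →+* Amod O N := Ideal.Quotient.mk (Ideal.span {(N : O)}) with hq
  have hm : m.asIdeal.IsPrime := m.isMaximal.isPrime
  set 𝔭 : Ideal O := m.asIdeal.comap q with h𝔭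
  have hp : 𝔭.IsPrime := Ideal.comap_isPrime q m.asIdeal
  set Om : Type := Localization.AtPrime 𝔭 with hOm
  set f : O →+* Om := algebraMap O Om with hf
  have hu : ∀ y : 𝔭.primeCompl, IsUnit (fL y) := by
    intro y
    apply IsUnit.mk0
    intro h0
    have : (y : O) = 0 := hfL (by rw [h0, map_zero])
    exact y.2 (by rw [this]; exact 𝔭.zero_mem)
  set j : Om →+* L := IsLocalization.lift (M := 𝔭.primeCompl) (S := Om) (g := fL) hu with hj
  have hjf : j.comp f = fL := IsLocalization.lift_comp hu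
  have hjf' : ∀ a, j (f a) = fL a := fun a => RingHom.congr_fun hjf a
  have hfu : ∀ a : O, a ∉ 𝔭 → IsUnit (f a) := fun a ha =>
    IsLocalization.map_units Om (⟨a, ha⟩ : 𝔭.primeCompl)
  have hjinj : Function.Injective j := by
    rw [injective_iff_map_eq_zero]
    intro x hx
    obtain ⟨⟨a, s⟩, h⟩ := IsLocalization.surj 𝔭.primeCompl x
    simp only at h
    have h1 := congrArg j h
    rw [map_mul, hx, zero_mul] at h1
    have h2 : fL a = 0 := by
      rw [← hjf']
      exact h1.symm
    have h3 : a = 0 := hfL (by rw [h2, map_zero])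
    rw [h3, map_zero] at h
    exact ((hfu s s.2).mul_left_eq_zero).1 h
  have hfinj : Function.Injective f := by
    intro a b hab
    apply hfL
    rw [← hjf', ← hjf', hab]
  have hdom : IsDomain Om := hjinj.isDomain j
  have hchar : CharZero Om := charZero_of_injective_ringHom hfinj
  have hnoeth : IsNoetherianRing Om := IsLocalization.isNoetherianRing 𝔭.primeCompl Om inferInstance
  refine ⟨Om, inferInstance, hdom, hchar, f, j, hjf, hjinj, ?_, ?_⟩
  · intro p hpm a ha
    have h1 : ((p : ℕ) : O) ∈ 𝔭 := by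
      change q ((p : ℕ) : O) ∈ m.asIdeal
      rw [map_natCast]
      exact hpm
    have h2 : (p : Om) ∈ IsLocalRing.maximalIdeal Om := by
      have := (IsLocalization.AtPrime.to_map_mem_maximal_iff Om 𝔭 (p : O)).2 h1
      rwa [map_natCast] at this
    have h3 : a ∈ ⨅ k : ℕ, (IsLocalRing.maximalIdeal Om) ^ k := by
      rw [Ideal.mem_iInf]
      intro k
      exact Ideal.mem_of_dvd _ (ha k) (Ideal.pow_mem_pow h2 k)
    rw [Ideal.iInf_pow_eq_bot_of_isLocalRing _ (IsLocalRing.maximalIdeal.isMaximal Om).ne_top]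
      at h3
    exact h3
  · intro m' r hr
    have key : ∀ a b c : O, b ∉ 𝔭 → b * a = N * c →
        f a ∈ Ideal.span {(N : Om)} := by
      intro a b c hb habc
      rw [Ideal.mem_span_singleton]
      have h1 : f b * f a = N * f c := by
        rw [← map_mul, habc, map_mul, map_natCast]
      obtain ⟨u, hu⟩ := hfu b hb
      refine ⟨↑u⁻¹ * f c, ?_⟩
      rw [← hu] at h1
      calc f a = ↑u⁻¹ * (↑u * f a) := by rw [← mul_assoc, Units.inv_mul, one_mul]
        _ = ↑u⁻¹ * (N * f c) := by rw [h1]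
        _ = _ := by ring
    split_ifs with hmm
    · subst hmm
      have hr1 : r ∉ 𝔭 := by
        intro h
        apply kappa_notMem O N m'
        rw [← hr]
        exact h
      have h2 : q (r * (r - 1)) = 0 := by
        rw [map_mul, map_sub, map_one, hr, mul_sub, mul_one, kappa_mul, if_pos rfl, sub_self]
      rw [hq, Ideal.Quotient.eq_zero_iff_mem, Ideal.mem_span_singleton] at h2
      obtain ⟨c, hc⟩ := h2
      have h3 := key (r - 1) r c hr1 hc
      rw [map_sub, map_one] at h3
      rw [← sub_eq_zero, ← map_one (Ideal.Quotient.mk (Ideal.span {(N : Om)})), ← map_sub]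
      exact Ideal.Quotient.eq_zero_iff_mem.2 h3
    · obtain ⟨r₀, hr₀⟩ := Ideal.Quotient.mk_surjective (kappa O N m)
      have hr1 : r₀ ∉ 𝔭 := by
        intro h
        apply kappa_notMem O N m
        rw [← hr₀]
        exact h
      have h2 : q (r₀ * r) = 0 := by
        rw [map_mul, hr, hq, hr₀, kappa_mul, if_neg (Ne.symm hmm)]
      rw [hq, Ideal.Quotient.eq_zero_iff_mem, Ideal.mem_span_singleton] at h2
      obtain ⟨c, hc⟩ := h2
      exact Ideal.Quotient.eq_zero_iff_mem.2 (key r r₀ c hr1 hc)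

end Pool.Agent.H95.KM

end

section

/-!
# Project KM, module DetOne: local and rational trivializations for one cyclic group

Definitions in `Pool/Agent/H95/KM/ThetaDefs.lean`, `Pool/Agent/H95/KM/FouDefs.lean`,
`Pool/Agent/H95/KM/SqDefs.lean`.

`oneChi fL χ = |C|⁻¹ ∑_c χ(c)⁻¹ c ∈ L[C]`, `vL k = ∑_χ t^(k χ) oneChi χ ∈ L[C][t, t⁻¹]`.

* `fou fL C (oneChi fL χ) = Pi.single χ 1` (`fou_eChi`), and `fou fL C` is bijective
  (`fou_injective`, `exists_fou`; `|C| ≠ 0` in `L`).  So the `oneChi χ` are orthogonal idempotents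
  with sum `1`; `vL k * vL k' = vL (k + k')`, `vL 0 = 1`,
  `der (vL k) = ∑_χ single (k χ) (k χ • oneChi χ)`, hence
  `der (vL (-k)) * vL k = cst (- ∑_χ k χ • oneChi χ)`.  `cmp χ (lau fou (vL k)) = single (k χ) 1`.
* `loc_rep` (a general fact about squares): if `(x, y, H)` represents `g` in `Q` and `v ∈ GL_m(𝓜)`
  with `π(v) = g` then `v⁻¹ x = φ(xB)`, `y v = φ(yB)` for matrices `xB`, `yB` over `Γ`, and
  `xB yB = 1`, `yB xB = H`: `π(v⁻¹ x) = g⁻¹ g r(u) = r(u)`, `π(y v) = r(v') g⁻¹ g = r(v')`
  (`exists_map_of_pi`), and `φ` is injective.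
* `det_one`.  Let `(x, y, H)` represent `uN n` in `(sqC id N C).lauSq`.
  Rational part: `F = lau (fou fL C) : L[C][t,t⁻¹] → ((C →* Oˣ) → L)[t,t⁻¹]` is bijective; let
  `xA`, `yA` be the matrices with `F(xA) = image of x`, `F(yA) = image of y` under
  `((C →* Oˣ) → O)[t,t⁻¹] → ((C →* Oˣ) → L)[t,t⁻¹]`.  Then `xA yA = 1`.
  Local part: given `m`, `Om`, `f`, `j` as in `exists_loc`.  There is a morphism of squares
  `sqC id N C → sqC f N C` with `a = MonoidAlgebra.mapRingHom C f`, `b G = f ∘ G`, and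
  `c` induced by the map `O / N → Om / N` (`Ideal.quotientMap`); take Laurent polynomials
  (`lau` of the components) and the image of `(x, y, H)` (`IsRep.map` in
  `Pool/Agent/H95/KM/SqProp.lean`, add this import if you use it, or prove it directly): it
  represents `mapU (lau c) (uN n)`.  Its component at `χ` is
  `∑_{m'} single (n χ m') (c (kappa m')) = single (n χ m) 1` by the last property of `Om`.
  So it is `π(v)` for the `1 × 1` unit `v` over `((C →* Oˣ) → Om)[t,t⁻¹]` with components
  `single (n χ m) 1`.  `loc_rep` gives `xB`, `yB`.  Finally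
  `xB.map (lau (mapRingHom C j)) = vL (-n · m) • xA` because after applying the injective `F` both
  sides are the image of `v⁻¹ x` over `((C →* Oˣ) → L)[t,t⁻¹]` (`fou_mapRing`, `j ∘ f = fL`);
  similarly for `yB`.
-/

set_option autoImplicit false

open Matrix
open scoped LaurentPolynomial

universe u v w

namespace Pool.Agent.H95.KM

open Pool.Agent.H71.FJ

/-- The idempotent `1_χ = |C|⁻¹ ∑_c χ(c)⁻¹ c` of `L[C]`. -/
noncomputable def oneChi {O : Type} [CommRing O] {L : Type} [Field L] (fL : O →+* L)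
    {C : Type v} [Group C] [Fintype C] (χ : C →* Oˣ) : MonoidAlgebra L C :=
  ∑ c : C, MonoidAlgebra.single c ((Fintype.card C : L)⁻¹ * fL (((χ c)⁻¹ : Oˣ) : O))

/-- The unit `∑_χ t^(k χ) 1_χ` of `L[C][t, t⁻¹]`. -/
noncomputable def vL {O : Type} [CommRing O] {L : Type} [Field L] (fL : O →+* L)
    {C : Type v} [Group C] [Fintype C] [Fintype (C →* Oˣ)] (k : (C →* Oˣ) → ℤ) :
    (MonoidAlgebra L C)[T;T⁻¹] :=
  ∑ χ, AddMonoidAlgebra.single (k χ) (oneChi fL χ)

section DetOneAux

variable {X : Type v} [Fintype X] [DecidableEq X]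

/-- The Laurent polynomial with components `t^(k χ)`. -/
noncomputable def detOneW (R : Type*) [CommRing R] (k : X → ℤ) : (X → R)[T;T⁻¹] :=
  ∑ χ, AddMonoidAlgebra.single (k χ) (Pi.single χ 1)

theorem detOne_cmp_W {R : Type*} [CommRing R] (k : X → ℤ) (χ : X) :
    cmp χ (detOneW R k) = AddMonoidAlgebra.single (k χ) 1 := by
  unfold detOneW
  rw [map_sum, Finset.sum_eq_single χ]
  · rw [cmp, lau_single, Pi.evalRingHom_apply, Pi.single_eq_same]
  · intro ψ _ hψ
    rw [cmp, lau_single, Pi.evalRingHom_apply, Pi.single_eq_of_ne (Ne.symm hψ),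
      AddMonoidAlgebra.single_zero]
  · intro h
    exact absurd (Finset.mem_univ _) h

theorem detOne_W_mul {R : Type*} [CommRing R] (k k' : X → ℤ) :
    detOneW R k * detOneW R k' = detOneW R (k + k') := by
  apply cmp_ext
  intro χ
  rw [map_mul, detOne_cmp_W, detOne_cmp_W, detOne_cmp_W, AddMonoidAlgebra.single_mul_single, one_mul]
  rfl

theorem detOne_W_zero {R : Type*} [CommRing R] : detOneW R (0 : X → ℤ) = 1 := by
  apply cmp_ext
  intro χ
  rw [detOne_cmp_W, map_one]
  rfl

omit [Fintype X] [DecidableEq X] in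
theorem detOne_cmp_lau {R : Type*} [CommRing R] {R' : Type*} [CommRing R'] (f : R →+* R') (χ : X)
    (z : (X → R)[T;T⁻¹]) : cmp χ (lau (f.compLeft X) z) = lau f (cmp χ z) := by
  apply ext_coeff
  intro k
  rw [cmp_coeff, lau_coeff, lau_coeff, cmp_coeff]
  rfl

theorem detOne_lau_W {R : Type*} [CommRing R] {R' : Type*} [CommRing R'] (f : R →+* R') (k : X → ℤ) :
    lau (f.compLeft X) (detOneW R k) = detOneW R' k := by
  apply cmp_ext
  intro χ
  rw [detOne_cmp_lau, detOne_cmp_W, detOne_cmp_W, lau_single, map_one]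

end DetOneAux

section

variable {O : Type} [CommRing O] [IsDomain O] [CharZero O] {N : ℕ} [NeZero N]
  [HasEnoughRootsOfUnity O N] [Finite (Amod O N)] {L : Type} [Field L] [CharZero L]
  (fL : O →+* L) {C : Type v} [Group C] [Fintype C] [Fintype (C →* Oˣ)]
  (hC : ∀ a b : C, a * b = b * a) (hN : Nat.card C ∣ N)

omit [CharZero O] [Fintype (C →* Oˣ)] in
theorem detOne_fou_oneChi [DecidableEq (C →* Oˣ)] (χ : C →* Oˣ) :
    fou fL C (oneChi fL χ) = Pi.single χ 1 := by
  have h1 : oneChi fL χ = MonoidAlgebra.single 1 ((Fintype.card C : L)⁻¹) * eChi fL χ := by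
    unfold oneChi eChi
    rw [Finset.mul_sum]
    apply Finset.sum_congr rfl
    intro c _
    rw [MonoidAlgebra.single_mul_single, one_mul]
  have hcard : (Fintype.card C : L) ≠ 0 := by
    exact_mod_cast Fintype.card_ne_zero
  rw [h1, map_mul, fou_eChi]
  funext ψ
  rw [Pi.mul_apply, fou_single, map_one, Units.val_one, map_one, mul_one]
  by_cases h : ψ = χ
  · subst h
    rw [Pi.single_eq_same, Pi.single_eq_same, inv_mul_cancel₀ hcard]
  · rw [Pi.single_eq_of_ne h, Pi.single_eq_of_ne h, mul_zero]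

omit [CharZero O] in
theorem detOne_fou_vL [DecidableEq (C →* Oˣ)] (k : (C →* Oˣ) → ℤ) :
    lau (fou fL C) (vL fL k) = detOneW L k := by
  unfold vL detOneW
  rw [map_sum]
  apply Finset.sum_congr rfl
  intro χ _
  rw [lau_single, detOne_fou_oneChi]

include hC hN

omit [CharZero O] [Fintype (C →* Oˣ)] [Finite (Amod O N)] in
theorem detOne_inj : Function.Injective (fou fL C) := by
  apply fou_injective fL N hC hN
  intro r hr
  rcases mul_eq_zero.1 hr with h | h
  · exact absurd h (by exact_mod_cast Nat.card_pos.ne')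
  · exact h

omit [CharZero O] [Finite (Amod O N)] in
theorem vL_mul (k k' : (C →* Oˣ) → ℤ) : vL fL k * vL fL k' = vL fL (k + k') := by
  classical
  apply lau_injective (detOne_inj fL hC hN)
  rw [map_mul, detOne_fou_vL, detOne_fou_vL, detOne_fou_vL, detOne_W_mul]

omit [CharZero O] [Finite (Amod O N)] in
theorem vL_zero : vL fL (0 : (C →* Oˣ) → ℤ) = 1 := by
  classical
  apply lau_injective (detOne_inj fL hC hN)
  rw [map_one, detOne_fou_vL, detOne_W_zero]

omit [CharZero O] [Finite (Amod O N)] in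
theorem der_vL (k : (C →* Oˣ) → ℤ) :
    der _ (vL fL (-k)) * vL fL k = cst _ (- ∑ χ, k χ • oneChi fL χ) := by
  classical
  apply lau_injective (detOne_inj fL hC hN)
  rw [map_mul, lau_der, detOne_fou_vL, detOne_fou_vL]
  apply cmp_ext
  intro χ
  rw [map_mul, cmp, lau_der]
  have e1 : lau (Pi.evalRingHom (fun _ : (C →* Oˣ) => L) χ) (detOneW L (-k)) =
      AddMonoidAlgebra.single ((-k) χ) 1 := detOne_cmp_W (-k) χ
  have e2 : lau (Pi.evalRingHom (fun _ : (C →* Oˣ) => L) χ) (detOneW L k) =
      AddMonoidAlgebra.single (k χ) 1 := detOne_cmp_W k χ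
  rw [e1, e2, der_single, AddMonoidAlgebra.single_mul_single, mul_one, cst_apply, lau_single,
    lau_single, map_neg, map_sum, Pi.evalRingHom_apply, Pi.neg_apply, Pi.neg_apply, Finset.sum_apply]
  have e3 : ∑ ψ, (fou fL C) (k ψ • oneChi fL ψ) χ = k χ • (1 : L) := by
    rw [Finset.sum_eq_single χ]
    · rw [map_zsmul, detOne_fou_oneChi, Pi.smul_apply, Pi.single_eq_same]
    · intro ψ _ hψ
      rw [map_zsmul, detOne_fou_oneChi, Pi.smul_apply, Pi.single_eq_of_ne (Ne.symm hψ), smul_zero]
    · intro h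
      exact absurd (Finset.mem_univ _) h
  rw [e3, neg_add_cancel, neg_smul]

end

namespace Sq

variable {Γ : Type u} {𝓜 : Type v} {B : Type w} [Ring Γ] [Ring 𝓜] [Ring B] {Q : Sq Γ 𝓜 B}

theorem loc_rep {m n : Type} [Fintype m] [DecidableEq m] [Fintype n] [DecidableEq n]
    {g : (Matrix m m B)ˣ} {x : Matrix m n 𝓜} {y : Matrix n m 𝓜} {H : Matrix n n Γ}
    (h : Q.IsRep g x y H) (v v' : Matrix m m 𝓜) (hvv' : v * v' = 1) (hv'v : v' * v = 1)
    (hv : v.map Q.π = (g : Matrix m m B)) :
    ∃ (xB : Matrix m n Γ) (yB : Matrix n m Γ), xB.map Q.φ = v' * x ∧ yB.map Q.φ = y * v ∧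
      xB * yB = 1 ∧ yB * xB = H := by
  obtain ⟨h1, h2, ⟨u, hu⟩, ⟨w, hw⟩⟩ := h
  have e1 : v'.map Q.π * (g : Matrix m m B) = 1 := by
    rw [← hv, ← Matrix.map_mul, hv'v, Matrix.map_one _ (map_zero Q.π) (map_one Q.π)]
  obtain ⟨xB, hxB⟩ := exists_map_of_pi (Q := Q) (v' * x) ⟨u, by
    rw [Matrix.map_mul, hu, ← Matrix.mul_assoc, e1, Matrix.one_mul]⟩
  obtain ⟨yB, hyB⟩ := exists_map_of_pi (Q := Q) (y * v) ⟨w, by
    rw [Matrix.map_mul, hw, hv, Matrix.mul_assoc, Units.inv_mul, Matrix.mul_one]⟩
  refine ⟨xB, yB, hxB, hyB, ?_, ?_⟩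
  · apply matrix_map_injective Q.inj
    rw [Matrix.map_mul, hxB, hyB, Matrix.mul_assoc, ← Matrix.mul_assoc x, h1, Matrix.one_mul, hv'v,
      Matrix.map_one _ (map_zero Q.φ) (map_one Q.φ)]
  · apply matrix_map_injective Q.inj
    rw [Matrix.map_mul, hxB, hyB, Matrix.mul_assoc, ← Matrix.mul_assoc v, hvv', Matrix.one_mul, h2]

end Sq

theorem detOne_fou_comp {O : Type} [CommRing O] {R : Type} [CommRing R] {R' : Type} [CommRing R']
    (f : O →+* R) (g : R →+* R') (h : O →+* R') (hgf : g.comp f = h) (C : Type v) [Group C] :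
    (fou h C).comp (MonoidAlgebra.mapRingHom C g) = (g.compLeft (C →* Oˣ)).comp (fou f C) := by
  subst hgf
  apply RingHom.ext
  intro x
  funext χ
  exact fou_mapRing f g x χ

theorem detOne_N_le {O : Type} [CommRing O] (N : ℕ) {R : Type} [CommRing R] (f : O →+* R) :
    Ideal.span {(N : O)} ≤ (Ideal.span {(N : R)}).comap f := by
  rw [Ideal.span_singleton_le_iff_mem, Ideal.mem_comap, map_natCast]
  exact Ideal.mem_span_singleton_self _

/-- The morphism of squares given by a map of coefficient rings. -/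
noncomputable def detOneHom {O : Type} [CommRing O] [IsDomain O] [CharZero O] (N : ℕ) [NeZero N]
    [HasEnoughRootsOfUnity O N] {Om : Type} [CommRing Om] [IsDomain Om] [CharZero Om] (f : O →+* Om)
    (C : Type v) [Group C] [Finite C] (hC : ∀ a b : C, a * b = b * a) (hN : Nat.card C ∣ N) :
    SqHom (sqC (RingHom.id O) N C hC hN).lauSq (sqC f N C hC hN).lauSq where
  a := lau (MonoidAlgebra.mapRingHom C f)
  b := lau (f.compLeft (C →* Oˣ))
  c := lau ((Ideal.quotientMap (Ideal.span {(N : Om)}) f (detOne_N_le N f)).compLeft (C →* Oˣ))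
  hφ := by
    intro x
    change lau (f.compLeft (C →* Oˣ)) (lau (fou (RingHom.id O) C) x) =
      lau (fou f C) (lau (MonoidAlgebra.mapRingHom C f) x)
    rw [← RingHom.comp_apply, ← lau_comp, ← RingHom.comp_apply, ← lau_comp,
      detOne_fou_comp (RingHom.id O) f f (RingHom.comp_id f) C]
  hπ := by
    intro x
    change lau ((Ideal.quotientMap (Ideal.span {(N : Om)}) f (detOne_N_le N f)).compLeft (C →* Oˣ))
      (lau (sqC (RingHom.id O) N C hC hN).π x) = lau (sqC f N C hC hN).π (lau (f.compLeft (C →* Oˣ)) x)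
    rw [← RingHom.comp_apply, ← lau_comp, ← RingHom.comp_apply, ← lau_comp]
    congr 2

open Classical in
theorem det_one {O : Type} [CommRing O] [IsDomain O] [CharZero O] (N : ℕ) [NeZero N]
    [HasEnoughRootsOfUnity O N] [Finite (Amod O N)] {L : Type} [Field L] [CharZero L]
    (fL : O →+* L) (hfL : Function.Injective fL)
    (C : Type v) [Group C] [Fintype C] [Fintype (C →* Oˣ)] (hC : ∀ a b : C, a * b = b * a)
    (hN : Nat.card C ∣ N) (n : (C →* Oˣ) → Pr O N → ℤ) {ν : Type} [Fintype ν] [DecidableEq ν]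
    {x : Matrix Unit ν ((C →* Oˣ) → O)[T;T⁻¹]} {y : Matrix ν Unit ((C →* Oˣ) → O)[T;T⁻¹]}
    {H : Matrix ν ν (MonoidAlgebra O C)[T;T⁻¹]}
    (h : (sqC (RingHom.id O) N C hC hN).lauSq.IsRep (uN n) x y H) :
    ∃ (xA : Matrix Unit ν (MonoidAlgebra L C)[T;T⁻¹])
      (yA : Matrix ν Unit (MonoidAlgebra L C)[T;T⁻¹]), xA * yA = 1 ∧
      ∀ (m : Pr O N) (Om : Type) [CommRing Om] [IsDomain Om] [CharZero Om] (f : O →+* Om)
        (j : Om →+* L), j.comp f = fL → Function.Injective j →
        (∀ (m' : Pr O N) (r : O), Ideal.Quotient.mk (Ideal.span {(N : O)}) r = kappa O N m' →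
          Ideal.Quotient.mk (Ideal.span {(N : Om)}) (f r) = if m' = m then 1 else 0) →
        ∃ (xB : Matrix Unit ν (MonoidAlgebra Om C)[T;T⁻¹])
          (yB : Matrix ν Unit (MonoidAlgebra Om C)[T;T⁻¹]), xB * yB = 1 ∧
          yB * xB = H.map (lau (MonoidAlgebra.mapRingHom C f)) ∧
          (∀ i k, (xB.map (lau (MonoidAlgebra.mapRingHom C j))) i k =
            vL fL (fun χ => - n χ m) * xA i k) ∧
          (∀ k i, (yB.map (lau (MonoidAlgebra.mapRingHom C j))) k i =
            yA k i * vL fL (fun χ => n χ m)) := by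
  have hinj : Function.Injective (lau (fou fL C)) := lau_injective (detOne_inj fL hC hN)
  have hsurj : Function.Surjective (lau (fou fL C)) := by
    apply lau_surjective
    intro F
    obtain ⟨z, hz⟩ := exists_fou fL (C := C) (fun χ => (Nat.card C : L)⁻¹ * F χ)
    refine ⟨z, ?_⟩
    rw [hz]
    funext χ
    have hcard : (Nat.card C : L) ≠ 0 := by exact_mod_cast Nat.card_pos.ne'
    rw [mul_inv_cancel_left₀ hcard]
  obtain ⟨xA, hxA⟩ := exists_matrix_lift (lau (fou fL C)) (x.map (lau (fL.compLeft (C →* Oˣ))))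
    (fun i j => hsurj _)
  obtain ⟨yA, hyA⟩ := exists_matrix_lift (lau (fou fL C)) (y.map (lau (fL.compLeft (C →* Oˣ))))
    (fun i j => hsurj _)
  refine ⟨xA, yA, ?_, ?_⟩
  · apply matrix_map_injective hinj
    rw [Matrix.map_mul, hxA, hyA, ← Matrix.map_mul, h.1,
      Matrix.map_one _ (map_zero _) (map_one _), Matrix.map_one _ (map_zero _) (map_one _)]
  intro m Om _ _ _ f j hjf hj hκ
  have h' := Sq.IsRep.map (detOneHom N f C hC hN) h
  set k : (C →* Oˣ) → ℤ := fun χ => n χ m with hk
  have hk0 : k + -k = 0 := add_neg_cancel k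
  have hk1 : -k + k = 0 := neg_add_cancel k
  have hvv' : (Matrix.of fun _ _ : Unit => detOneW Om k) * (Matrix.of fun _ _ : Unit => detOneW Om (-k)) = 1 := by
    ext i l : 1
    simp [Matrix.mul_apply, detOne_W_mul, detOne_W_zero, Matrix.one_apply, Subsingleton.elim i l]
  have hv'v : (Matrix.of fun _ _ : Unit => detOneW Om (-k)) * (Matrix.of fun _ _ : Unit => detOneW Om k) = 1 := by
    ext i l : 1
    simp [Matrix.mul_apply, detOne_W_mul, detOne_W_zero, Matrix.one_apply, Subsingleton.elim i l]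
  have hv : (Matrix.of fun _ _ : Unit => detOneW Om k).map (sqC f N C hC hN).lauSq.π =
      ((mapU (detOneHom N f C hC hN).c (uN n) : (Matrix Unit Unit _)ˣ) : Matrix Unit Unit _) := by
    ext i l : 1
    change lau (sqC f N C hC hN).π (detOneW Om k) =
      lau ((Ideal.quotientMap (Ideal.span {(N : Om)}) f (detOne_N_le N f)).compLeft (C →* Oˣ)) (un n)
    apply cmp_ext
    intro χ
    rw [detOne_cmp_lau, cmp_un]
    have e1 : cmp χ (lau (sqC f N C hC hN).π (detOneW Om k)) =
        lau (Ideal.Quotient.mk (Ideal.span {(N : Om)})) (cmp χ (detOneW Om k)) := by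
      apply ext_coeff
      intro l
      rw [cmp_coeff, lau_coeff, lau_coeff, cmp_coeff]
      rfl
    rw [e1, detOne_cmp_W, lau_single, map_one]
    unfold unComp
    rw [map_sum, Finset.sum_eq_single m]
    · rw [lau_single]
      obtain ⟨r, hr⟩ := Ideal.Quotient.mk_surjective (kappa O N m)
      rw [← hr, Ideal.quotientMap_mk, hκ m r hr, if_pos rfl]
    · intro m' _ hm'
      rw [lau_single]
      obtain ⟨r, hr⟩ := Ideal.Quotient.mk_surjective (kappa O N m')
      rw [← hr, Ideal.quotientMap_mk, hκ m' r hr, if_neg hm', AddMonoidAlgebra.single_zero]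
    · intro hm
      exact absurd (Finset.mem_univ _) hm
  obtain ⟨xB, yB, hxB, hyB, hxy, hyx⟩ := Sq.loc_rep h' _ _ hvv' hv'v hv
  have hcomp : ∀ z : (MonoidAlgebra Om C)[T;T⁻¹], lau (fou fL C) (lau (MonoidAlgebra.mapRingHom C j) z) =
      lau (j.compLeft (C →* Oˣ)) (lau (fou f C) z) := by
    intro z
    rw [← RingHom.comp_apply, ← lau_comp, ← RingHom.comp_apply, ← lau_comp,
      detOne_fou_comp f j fL hjf C]
  have hfl : ∀ z : ((C →* Oˣ) → O)[T;T⁻¹], lau (j.compLeft (C →* Oˣ)) (lau (f.compLeft (C →* Oˣ)) z) =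
      lau (fL.compLeft (C →* Oˣ)) z := by
    intro z
    rw [← RingHom.comp_apply, ← lau_comp]
    congr 2
    rw [← hjf]
    rfl
  refine ⟨xB, yB, hxy, hyx, ?_, ?_⟩
  · intro i l
    apply hinj
    rw [Matrix.map_apply, hcomp, map_mul, show (fun χ => - n χ m) = -k from rfl, detOne_fou_vL]
    have e1 : lau (fou f C) (xB i l) = detOneW Om (-k) * lau (f.compLeft (C →* Oˣ)) (x i l) := by
      have t := congrFun (congrFun hxB i) l
      rw [Matrix.mul_apply, Finset.univ_unique, Finset.sum_singleton] at t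
      exact t
    have e2 : lau (fou fL C) (xA i l) = lau (fL.compLeft (C →* Oˣ)) (x i l) :=
      congrFun (congrFun hxA i) l
    rw [e1, e2, map_mul, detOne_lau_W, hfl]
  · intro l i
    apply hinj
    rw [Matrix.map_apply, hcomp, map_mul, detOne_fou_vL]
    have e1 : lau (fou f C) (yB l i) = lau (f.compLeft (C →* Oˣ)) (y l i) * detOneW Om k := by
      have t := congrFun (congrFun hyB l) i
      rw [Matrix.mul_apply, Finset.univ_unique, Finset.sum_singleton] at t
      exact t
    have e2 : lau (fou fL C) (yA l i) = lau (fL.compLeft (C →* Oˣ)) (y l i) :=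
      congrFun (congrFun hyA l) i
    rw [e1, e2, map_mul, detOne_lau_W, hfl]

end Pool.Agent.H95.KM

end

section

/-!
# Project KM, module Theta: properties of the classes `Θ(n)`

Definitions (`Theta`, `un`, `uN`, `unComp`, `cmp`, `cmp_ext`, `cmp_un`, `exists_cmp`, `kappa`,
`sqC`) in `Pool/Agent/H95/KM/ThetaDefs.lean`; `fou`, `fou_mapDomain`, `exists_fou` in
`Pool/Agent/H95/KM/FouDefs.lean`, `Pool/Agent/H95/KM/Fou.lean`; `Sq.DD`, `DD_lift`, `DD_base`,
`DD_map` in `Pool/Agent/H95/KM/SqLau.lean`.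

* `Theta_add`: `uN n * uN n' = uN (n + n')` (`un_mul`), `StabHom.map_mul`.
* `Theta_zero`: `uN 0 = 1`, `StabHom.map_one`.  `Theta_neg` follows.
* `Theta_map`: for `h : C →* C'` there is a morphism of squares `sqC id N C → sqC id N C'` with
  `a = mapDomainRingHom O h`, `b F χ' = F (χ'.comp h)`, `c F χ' = F (χ'.comp h)`
  (`hφ` is `fou_mapDomain`).  `mapU (lau c) (uN n) = uN (fun χ' m => n (χ'.comp h) m)` since the
  component at `χ'` of `lau c (un n)` is the component at `χ'.comp h` of `un n` (`lau_comp`,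
  `cmp_ext`).  Then `DD_map`.
* `Theta_const`: `n χ m = k χ` does not depend on `m`.  By `exists_cmp` there are `U`, `U'` in
  `((C →* Oˣ) → O)[T;T⁻¹]` with components `single (k χ) 1` and `single (-k χ) 1`; they are inverse
  to each other, and `lau π U = un n` because `∑_m single (k χ) (kappa m) = single (k χ) 1`.
  Use `DD_lift`.
* `Theta_vanish`: suppose `n χ m ≠ 0` only for `m` with `|C| ∉ m`.  Fix such an `m`: the element
  `|C| kappa m + (1 - kappa m)` of `A = O / N` is in no maximal ideal (`kappa m ∉ m`, `kappa m ∈ m'`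
  for `m' ≠ m` as `kappa m * kappa m' = 0`), hence is a unit (`isUnit_of_forall_notMem`), so there
  is `s` with `|C| s (kappa m) = kappa m`; let `r m ∈ O` be a lift of `s (kappa m)`, so
  `kappa m = |C| r m` in `O / N`.  For the `m` with `|C| ∈ m` put `r m = 0`.  Then
  `unComp (n χ) = 1 + ∑_m (t^(n χ m) - 1) kappa m` is the image of `1 + |C| F χ` with
  `F χ = ∑_m (single (n χ m) (r m) - single 0 (r m)) ∈ O[t, t⁻¹]`.  Coefficientwise `exists_fou`
  (via `exists_lau` for `fou`, applied to the element of `((C →* Oˣ) → O)[t,t⁻¹]` with components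
  `|C| F χ`) gives `V₀ ∈ O[C][t,t⁻¹]` with `cmp χ (lau fou V₀) = |C| F χ`.  So `V = 1 + V₀` maps to
  `un n`; similarly `V'` for `-n`.  Use `DD_base`.
-/

set_option autoImplicit false

open Matrix
open scoped LaurentPolynomial

universe u v w

namespace Pool.Agent.H95.KM

open Pool.Agent.H71.FJ

variable {O : Type} [CommRing O] [IsDomain O] [CharZero O] (N : ℕ) [NeZero N]
  [HasEnoughRootsOfUnity O N] [Finite (Amod O N)]
  (C : Type v) [Group C] [Finite C] (hC : ∀ a b : C, a * b = b * a) (hN : Nat.card C ∣ N)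

omit [IsDomain O] [CharZero O] [NeZero N] [HasEnoughRootsOfUnity O N] in
private theorem uN_mul_aux {X : Type v} [Finite X] (n n' : X → Pr O N → ℤ) :
    uN (O := O) (N := N) (n + n') = uN n * uN n' := by
  apply Units.ext
  ext i j : 1
  rw [Units.val_mul]
  simp [uN, Matrix.mul_apply, un_mul]

omit [IsDomain O] [CharZero O] [NeZero N] [HasEnoughRootsOfUnity O N] in
private theorem uN_zero_aux {X : Type v} [Finite X] :
    uN (O := O) (N := N) (0 : X → Pr O N → ℤ) = 1 := by
  apply Units.ext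
  ext i j : 1
  rw [Units.val_one]
  simp [uN, un_zero, Matrix.one_apply, Subsingleton.elim i j]

theorem Theta_add (n n' : (C →* Oˣ) → Pr O N → ℤ) :
    Theta N C hC hN (n + n') = Theta N C hC hN n + Theta N C hC hN n' := by
  have := finite_dual (O := O) N hC hN
  change (sqC (RingHom.id O) N C hC hN).DD.D (uN (n + n')) =
    (sqC (RingHom.id O) N C hC hN).DD.D (uN n) + (sqC (RingHom.id O) N C hC hN).DD.D (uN n')
  rw [uN_mul_aux, StabHom.map_mul]

theorem Theta_zero : Theta N C hC hN (0 : (C →* Oˣ) → Pr O N → ℤ) = 0 := by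
  have := finite_dual (O := O) N hC hN
  change (sqC (RingHom.id O) N C hC hN).DD.D (uN 0) = 0
  rw [uN_zero_aux, StabHom.map_one]

/-- The morphism of squares induced by a group homomorphism. -/
private noncomputable def sqC_hom (C' : Type v) [Group C'] [Finite C']
    (hC' : ∀ a b : C', a * b = b * a) (hN' : Nat.card C' ∣ N) (h : C →* C') :
    SqHom (sqC (RingHom.id O) N C hC hN) (sqC (RingHom.id O) N C' hC' hN') where
  a := MonoidAlgebra.mapDomainRingHom O h
  b := RingHom.pi fun χ' => Pi.evalRingHom (fun _ => O) (χ'.comp h)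
  c := RingHom.pi fun χ' => Pi.evalRingHom (fun _ => Amod O N) (χ'.comp h)
  hφ x := by
    funext χ'
    exact (fou_mapDomain (RingHom.id O) h x χ').symm
  hπ x := rfl

theorem Theta_map (C' : Type v) [Group C'] [Finite C'] (hC' : ∀ a b : C', a * b = b * a)
    (hN' : Nat.card C' ∣ N) (h : C →* C') (n : (C →* Oˣ) → Pr O N → ℤ) :
    Theta N C' hC' hN' (fun χ m => n (χ.comp h) m) = ind O h (Theta N C hC hN n) := by
  have := finite_dual (O := O) N hC hN
  have := finite_dual (O := O) N hC' hN'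
  have h1 := Sq.DD_map (sqC_hom N C hC hN C' hC' hN' h) (uN n)
  have h2 : mapU (lau (sqC_hom (O := O) N C hC hN C' hC' hN' h).c) (uN n) =
      uN (fun χ m => n (χ.comp h) m) := by
    apply Units.ext
    ext i j : 1
    change lau (sqC_hom (O := O) N C hC hN C' hC' hN' h).c (un n) =
      un (fun χ m => n (χ.comp h) m)
    apply cmp_ext
    intro χ
    rw [cmp_un, cmp, ← RingHom.comp_apply, ← lau_comp]
    exact cmp_un n (χ.comp h)
  rw [h2] at h1
  exact h1

omit [CharZero O] in
private theorem lau_pi_aux {X : Type v} (χ : X) (z : (X → O)[T;T⁻¹]) :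
    cmp χ (lau (RingHom.pi fun χ : X => (Ideal.Quotient.mk (Ideal.span {(N : O)})).comp
      (Pi.evalRingHom (fun _ => O) χ)) z) = lau (Ideal.Quotient.mk (Ideal.span {(N : O)}))
      (cmp χ z) := by
  rw [cmp, cmp, ← RingHom.comp_apply, ← RingHom.comp_apply, ← lau_comp, ← lau_comp]
  rfl

theorem Theta_const (k : (C →* Oˣ) → ℤ) :
    Theta N C hC hN (fun χ (_ : Pr O N) => k χ) = 0 := by
  have := finite_dual (O := O) N hC hN
  change (sqC (RingHom.id O) N C hC hN).DD.D (uN (fun χ (_ : Pr O N) => k χ)) = 0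
  obtain ⟨U, hU⟩ := exists_cmp (R := O)
    (fun χ : C →* Oˣ => (AddMonoidAlgebra.single (k χ) 1 : O[T;T⁻¹]))
  obtain ⟨U', hU'⟩ := exists_cmp (R := O)
    (fun χ : C →* Oˣ => (AddMonoidAlgebra.single (-k χ) 1 : O[T;T⁻¹]))
  have h1 : U * U' = 1 := by
    apply cmp_ext
    intro χ
    rw [map_mul, hU, hU', map_one, AddMonoidAlgebra.single_mul_single, mul_one, add_neg_cancel]
    rfl
  have h2 : U' * U = 1 := by
    apply cmp_ext
    intro χ
    rw [map_mul, hU, hU', map_one, AddMonoidAlgebra.single_mul_single, mul_one, neg_add_cancel]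
    rfl
  refine Sq.DD_lift (sqC (RingHom.id O) N C hC hN) (m := Unit)
    { val := Matrix.of fun _ _ => U
      inv := Matrix.of fun _ _ => U'
      val_inv := by
        ext i j : 1
        simp [Matrix.mul_apply, h1, Matrix.one_apply, Subsingleton.elim i j]
      inv_val := by
        ext i j : 1
        simp [Matrix.mul_apply, h2, Matrix.one_apply, Subsingleton.elim i j] } _ ?_
  ext i j : 1
  change un (fun χ (_ : Pr O N) => k χ) = lau (RingHom.pi fun χ : C →* Oˣ =>
    (Ideal.Quotient.mk (Ideal.span {(N : O)})).comp (Pi.evalRingHom (fun _ => O) χ)) U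
  apply cmp_ext
  intro χ
  rw [cmp_un, lau_pi_aux, hU, lau_single, map_one, unComp, ← sum_kappa O N]
  have h3 := map_sum (AddMonoidAlgebra.singleAddHom (R := Amod O N) (k χ)) (kappa O N) Finset.univ
  exact h3.symm

omit [IsDomain O] [CharZero O] [NeZero N] [HasEnoughRootsOfUnity O N] in
/-- A natural number not in `m` is invertible at the component of `m`. -/
private theorem exists_inv_aux (c : ℕ) (m : Pr O N) :
    ∃ r : O, (c : Amod O N) ∉ m.asIdeal →
      (c : Amod O N) * Ideal.Quotient.mk (Ideal.span {(N : O)}) r = kappa O N m := by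
  classical
  by_cases hc : (c : Amod O N) ∈ m.asIdeal
  · exact ⟨0, fun h => absurd hc h⟩
  have hid : kappa O N m * kappa O N m = kappa O N m := by rw [kappa_mul, if_pos rfl]
  have hunit : IsUnit ((c : Amod O N) * kappa O N m + (1 - kappa O N m)) := by
    apply isUnit_of_forall_notMem
    intro m' hm'
    have hp : m'.asIdeal.IsPrime := m'.isMaximal.isPrime
    by_cases hmm : m' = m
    · subst hmm
      have h1 : kappa O N m' * (1 - kappa O N m') ∈ m'.asIdeal := by
        rw [mul_sub, mul_one, hid, sub_self]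
        exact m'.asIdeal.zero_mem
      have h2 : 1 - kappa O N m' ∈ m'.asIdeal :=
        (hp.mem_or_mem h1).resolve_left (kappa_notMem O N m')
      have h3 : (c : Amod O N) * kappa O N m' ∈ m'.asIdeal := by
        have := m'.asIdeal.sub_mem hm' h2
        rwa [add_sub_cancel_right] at this
      rcases hp.mem_or_mem h3 with h4 | h4
      · exact hc h4
      · exact kappa_notMem O N m' h4
    · have h1 : kappa O N m * kappa O N m' ∈ m'.asIdeal := by
        rw [kappa_mul, if_neg (Ne.symm hmm)]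
        exact m'.asIdeal.zero_mem
      have h2 : kappa O N m ∈ m'.asIdeal :=
        (hp.mem_or_mem h1).resolve_right (kappa_notMem O N m')
      have h3 : (1 : Amod O N) ∈ m'.asIdeal := by
        have h4 := m'.asIdeal.sub_mem hm'
          (m'.asIdeal.mul_mem_left ((c : Amod O N) - 1) h2)
        have h5 : (c : Amod O N) * kappa O N m + (1 - kappa O N m) -
            ((c : Amod O N) - 1) * kappa O N m = 1 := by ring
        rwa [h5] at h4
      exact hp.ne_top ((Ideal.eq_top_iff_one _).2 h3)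
  obtain ⟨s, hs⟩ := hunit.exists_right_inv
  obtain ⟨r, hr⟩ := Ideal.Quotient.mk_surjective (s * kappa O N m)
  refine ⟨r, fun _ => ?_⟩
  rw [hr]
  calc (c : Amod O N) * (s * kappa O N m)
      = ((c : Amod O N) * (kappa O N m * kappa O N m) + (kappa O N m - kappa O N m *
          kappa O N m)) * s := by rw [hid]; ring
    _ = (((c : Amod O N) * kappa O N m + (1 - kappa O N m)) * s) * kappa O N m := by ring
    _ = kappa O N m := by rw [hs, one_mul]

/-- `un n` lifts to the group ring. -/
private theorem exists_base_aux (n : (C →* Oˣ) → Pr O N → ℤ)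
    (h : ∀ χ m, n χ m ≠ 0 → (Nat.card C : Amod O N) ∉ m.asIdeal)
    [Finite (C →* Oˣ)] :
    ∃ V : (MonoidAlgebra O C)[T;T⁻¹],
      ((lau (sqC (RingHom.id O) N C hC hN).π).comp (lau (sqC (RingHom.id O) N C hC hN).φ)) V =
        un n := by
  classical
  choose r hr using exists_inv_aux (O := O) N (Nat.card C)
  set F : (C →* Oˣ) → O[T;T⁻¹] := fun χ => ∑ m : Pr O N,
    (AddMonoidAlgebra.single (n χ m) (r m) - AddMonoidAlgebra.single 0 (r m)) with hF
  obtain ⟨z, hz⟩ := exists_cmp (R := O) (fun χ : C →* Oˣ => Nat.card C • F χ)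
  obtain ⟨V₀, hV₀⟩ := exists_lau (f := fou (RingHom.id O) C) z (by
    intro k
    obtain ⟨x, hx⟩ := exists_fou (RingHom.id O) (C := C) (fun χ => (F χ).coeff k)
    refine ⟨x, ?_⟩
    rw [hx]
    funext χ
    rw [← cmp_coeff, hz, AddMonoidAlgebra.coeff_smul, Finsupp.smul_apply, nsmul_eq_mul])
  refine ⟨1 + V₀, ?_⟩
  rw [RingHom.comp_apply]
  have h1 : lau (sqC (RingHom.id O) N C hC hN).φ (1 + V₀) = 1 + z := by
    rw [map_add, map_one]
    congr 1
  rw [h1, map_add, map_one]
  apply cmp_ext
  intro χ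
  rw [map_add, map_one]
  have h2 : cmp χ (lau (sqC (RingHom.id O) N C hC hN).π z) =
      lau (Ideal.Quotient.mk (Ideal.span {(N : O)})) (cmp χ z) := lau_pi_aux N χ z
  rw [h2, hz, cmp_un, map_nsmul, hF, map_sum]
  have h3 : ∀ m : Pr O N, Nat.card C • lau (Ideal.Quotient.mk (Ideal.span {(N : O)}))
      (AddMonoidAlgebra.single (n χ m) (r m) - AddMonoidAlgebra.single 0 (r m)) =
      AddMonoidAlgebra.single (n χ m) (kappa O N m) - cst _ (kappa O N m) := by
    intro m
    rw [map_sub, lau_single, lau_single]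
    by_cases hm : n χ m = 0
    · rw [hm, sub_self, smul_zero, cst_apply, sub_self]
    · have h4 := hr m (h χ m hm)
      rw [smul_sub, AddMonoidAlgebra.smul_single, AddMonoidAlgebra.smul_single, nsmul_eq_mul, h4]
      rfl
  rw [Finset.smul_sum]
  rw [Finset.sum_congr rfl (fun m _ => h3 m), Finset.sum_sub_distrib, ← map_sum, sum_kappa,
    map_one, unComp]
  abel

theorem Theta_vanish (n : (C →* Oˣ) → Pr O N → ℤ)
    (h : ∀ χ m, n χ m ≠ 0 → (Nat.card C : Amod O N) ∉ m.asIdeal) :
    Theta N C hC hN n = 0 := by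
  have := finite_dual (O := O) N hC hN
  change (sqC (RingHom.id O) N C hC hN).DD.D (uN n) = 0
  obtain ⟨V, hV⟩ := exists_base_aux N C hC hN n h
  obtain ⟨V', hV'⟩ := exists_base_aux N C hC hN (-n) (by
    intro χ m hm
    apply h χ m
    intro h0
    apply hm
    rw [Pi.neg_apply, Pi.neg_apply, h0, neg_zero])
  apply Sq.DD_base (sqC (RingHom.id O) N C hC hN) (Matrix.of fun _ _ => V)
    (Matrix.of fun _ _ => V')
  · ext i j : 1
    exact hV.symm
  · ext i j : 1
    exact hV'.symm

end Pool.Agent.H95.KM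

end
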