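import Pool.Agent.H94.FJ.M05
import Pool.Agent.H94.FJ.M07
import Pool.Agent.H94.FJ.M08

/-! The parts of this file: H95.KM.DetTwo, H95.KM.GenK0, H95.KM.Gen, H95.KM.Main. -/

section

/-!
# Project KM, module DetTwo: the relations forced by vanishing in `K₋₁(O[G])`

PROOF of `det_two`.  For `c = 1` there is nothing to prove (`p ∣ orderOf 1 = 1`, `p` prime), so fix
`c ≠ 1` (`s c` is chosen for each `c` separately, `choose`/`Classical`).  Let
`A = MonoidAlgebra L G`, `τ = clsFun (cj L c) : A →+ L`, a trace function (`clsFun_comm`, `cj_comm`)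
with `τ 1 = 0`.
* For each `i` let `(x i, y i, H i)` represent `uN (n i)` in `(sqC id N (C i)).lauSq`
  (`Sq.exists_isRep_repH` : index `ν = Unit ⊕ Unit`), so
  `Θ(n i) = Km1.mk (K0.cls (H i)) - Km1.mk [1] = Km1.mk (K0.cls (H i))` (`Sq.DD_eq`, `Sq.dl_eq`,
  `[1]` is a constant: `mk_cls_pos` or `mk_cst`).
* Let `ψ i : O[C i] → O[G]` be the inclusion (`MonoidAlgebra.mapDomainRingHom O (C i).subtype`) and
  `H = blockDiagonal (fun i => (H i).map (lau (ψ i)))` (index `ν × ι`), idempotent, with
  `Km1.mk (K0.cls H) = ∑ i, ind O (C i).subtype (Θ(n i)) = 0` (`K0_blockDiagonal` below).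
* `detect` (with `R = O[G]`, `f = MonoidAlgebra.mapRingHom G fL`) gives `s₀ ∈ L` such that for all
  `Q, g, j, x, y`: `T0 τ ((∂x * y).map (lau j)) + s₀ = - τ (j (trace q))` for some idempotent `q`
  over `Q`.
* `det_one` for each `i` gives `xA i, yA i` over `L[C i][t,t⁻¹]`.  Push them to `L[G][t,t⁻¹]` and let
  `XA = blockDiagonal`, `YA = blockDiagonal`; `XA * YA = 1`.
* Let `m, p, c` be as in the statement, `Om, f, j` from `exists_loc`.  `det_one` gives `xB i, yB i`;
  push to `Om[G]` and take block diagonals: `XB * YB = 1`, `YB * XB = H.map (lau ..)`.  Apply the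
  above with `Q = Om[G]`, `g = mapRingHom G f`, `j = mapRingHom G j`:
  `T0 τ ((∂XB * YB).map (lau ..)) = - s₀ - τ (j (trace q)) = - s₀`, because
  `τ (mapRingHom G j a) = j (clsFun (cj Om c) a)` and `clsFun (cj Om c) (trace q) = 0` by
  `trace_zero` (the third property of `Om`; `p ∣ orderOf c`).
* The image of `XB` over `L[G][t,t⁻¹]` is `V' * XA`, that of `YB` is `YA * V`, where `V`, `V'` are the
  block diagonal matrices of the images of `vL (n i · m)`, `vL (- n i · m)`, `V V' = V' V = 1`
  (`vL_mul`, `vL_zero`).  By `T0_change`, `map_lau_der`: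
  `T0 τ (∂(V' XA) * (YA V)) = T0 τ (∂V' * V) + T0 τ (∂XA * YA)` and, by `der_vL`,
  `T0 τ (∂V' * V) = - ∑ i, ∑ χ, n i χ m • τ (image of oneChi χ)
   = - ∑ i, ∑ χ, n i χ m * (|C i|⁻¹ ∑_{d ∈ C i, c ~ d} fL (χ d)⁻¹)`.
* So the left hand side of the claim is `T0 τ (∂XA * YA) + s₀ =: s c`, independent of `m`.
-/

set_option autoImplicit false

open Matrix
open scoped LaurentPolynomial

universe u v w

namespace Pool.Agent.H95.KM

open Pool.Agent.H71.FJ

theorem blockDiagonal_idem {R : Type u} [Ring R] {ν ι : Type} [Fintype ν] [DecidableEq ν]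
    [Fintype ι] [DecidableEq ι] (H : ι → Matrix ν ν R) (hH : ∀ i, H i * H i = H i) :
    blockDiagonal H * blockDiagonal H = blockDiagonal H := by
  rw [← blockDiagonal_mul]
  simp only [hH]

private theorem detTwo_cls_empty {R : Type u} [Ring R] {κ : Type} [Fintype κ] [DecidableEq κ]
    [IsEmpty κ] (e : Matrix κ κ R) (he : e * e = e) : K0.cls e he = 0 := by
  have h := K0.cls_fromBlocks he he
  have h2 : K0.cls (fromBlocks e 0 0 e) (K0.fromBlocks_idem he he) = K0.cls e he := by
    apply K0.cls_congr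
    exact ⟨0, 0, Matrix.ext fun i => i.elim (fun a => isEmptyElim a) (fun a => isEmptyElim a),
      Matrix.ext fun i => isEmptyElim i⟩
  rw [h2] at h
  simpa using h

/-- Splitting off the first block. -/
private def detTwo_sig (ν : Type) (n : ℕ) : ν ⊕ (ν × Fin n) ≃ ν × Fin (n + 1) where
  toFun := Sum.elim (fun v => (v, 0)) (fun p => (p.1, p.2.succ))
  invFun p := Fin.cases (Sum.inl p.1) (fun j => Sum.inr (p.1, j)) p.2
  left_inv := by
    rintro (v | ⟨v, j⟩)
    · rfl
    · rfl
  right_inv := by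
    rintro ⟨v, j⟩
    refine Fin.cases ?_ (fun j => ?_) j
    · rfl
    · rfl

private theorem detTwo_block {R : Type u} [Ring R] {ν : Type} [Fintype ν] [DecidableEq ν] :
    ∀ (n : ℕ) (H : Fin n → Matrix ν ν R) (hH : ∀ i, H i * H i = H i),
      K0.cls (blockDiagonal H) (blockDiagonal_idem H hH) = ∑ i, K0.cls (H i) (hH i)
  | 0, H, hH => by
    rw [detTwo_cls_empty]
    rfl
  | n + 1, H, hH => by
    rw [Fin.sum_univ_succ, ← detTwo_block n (fun j => H j.succ) (fun j => hH j.succ),
      ← K0.cls_fromBlocks]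
    symm
    have h : (blockDiagonal H).submatrix (detTwo_sig ν n) (detTwo_sig ν n) =
        fromBlocks (H 0) 0 0 (blockDiagonal fun j : Fin n => H j.succ) := by
      ext i j : 1
      rcases i with i | ⟨i, a⟩ <;> rcases j with j | ⟨j, b⟩
      · simp [detTwo_sig, blockDiagonal_apply]
      · simp [detTwo_sig, blockDiagonal_apply, (Fin.succ_ne_zero b).symm]
      · simp [detTwo_sig, blockDiagonal_apply]
      · simp [detTwo_sig, blockDiagonal_apply]
    apply K0.cls_congr
    rw [← h]
    exact K0.matEquiv_submatrix _ (blockDiagonal_idem H hH) _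

/-- The class of a block diagonal matrix (by induction on the index set, `K0.cls_fromBlocks`,
`K0.matEquiv_submatrix`). -/
theorem K0_blockDiagonal {R : Type u} [Ring R] {ν ι : Type} [Fintype ν] [DecidableEq ν]
    [Fintype ι] [DecidableEq ι] (H : ι → Matrix ν ν R) (hH : ∀ i, H i * H i = H i) :
    K0.cls (blockDiagonal H) (blockDiagonal_idem H hH) = ∑ i, K0.cls (H i) (hH i) := by
  let e := Fintype.equivFin ι
  have h1 := detTwo_block (Fintype.card ι) (fun j => H (e.symm j)) (fun j => hH (e.symm j))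
  rw [Equiv.sum_comp e.symm (fun i => K0.cls (H i) (hH i))] at h1
  rw [← h1]
  symm
  apply K0.cls_congr
  have h2 : (blockDiagonal H).submatrix ((Equiv.refl ν).prodCongr e.symm)
      ((Equiv.refl ν).prodCongr e.symm) = blockDiagonal fun j => H (e.symm j) := by
    ext ⟨i, a⟩ ⟨j, b⟩ : 1
    simp [blockDiagonal_apply]
  rw [← h2]
  exact K0.matEquiv_submatrix _ (blockDiagonal_idem H hH) _

section maps

variable {R : Type} [CommRing R] {S : Type} [CommRing S] {G : Type v} [Group G]

private theorem detTwo_comm {C : Type w} [Group C] (f : R →+* S) (φ : C →* G) :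
    (MonoidAlgebra.mapRingHom G f).comp (MonoidAlgebra.mapDomainRingHom R φ) =
      (MonoidAlgebra.mapDomainRingHom S φ).comp (MonoidAlgebra.mapRingHom C f) := by
  apply RingHom.ext
  intro x
  induction x using MonoidAlgebra.induction_linear with
  | zero => simp
  | add a b ha hb => rw [map_add, map_add, ha, hb]
  | single c r =>
    change MonoidAlgebra.mapRingHom G f (MonoidAlgebra.mapDomain φ (MonoidAlgebra.single c r)) =
      MonoidAlgebra.mapDomain φ (MonoidAlgebra.mapRingHom C f (MonoidAlgebra.single c r))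
    rw [MonoidAlgebra.mapDomain_single, MonoidAlgebra.mapRingHom_single,
      MonoidAlgebra.mapRingHom_single, MonoidAlgebra.mapDomain_single]

private theorem detTwo_mapRing_comp {T : Type} [CommRing T] (g : S →+* T) (f : R →+* S) :
    (MonoidAlgebra.mapRingHom G g).comp (MonoidAlgebra.mapRingHom G f) =
      MonoidAlgebra.mapRingHom G (g.comp f) := by
  apply RingHom.ext
  intro x
  induction x using MonoidAlgebra.induction_linear with
  | zero => simp
  | add a b ha hb => rw [map_add, map_add, ha, hb]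
  | single c r =>
    rw [RingHom.comp_apply, MonoidAlgebra.mapRingHom_single, MonoidAlgebra.mapRingHom_single,
      MonoidAlgebra.mapRingHom_single]
    rfl

private theorem detTwo_cls_map (j : R →+* S) (c : G) (a : MonoidAlgebra R G) :
    clsFun (cj S c) (MonoidAlgebra.mapRingHom G j a) = j (clsFun (cj R c) a) := by
  induction a using MonoidAlgebra.induction_linear with
  | zero => simp
  | add a b ha hb => rw [map_add, map_add, map_add, map_add, ha, hb]
  | single d r =>
    rw [MonoidAlgebra.mapRingHom_single, clsFun_single, clsFun_single, map_mul]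
    congr 1
    unfold cj
    split_ifs
    · rw [map_one]
    · rw [map_zero]

end maps

section one

variable {O : Type} [CommRing O] {L : Type} [Field L] (fL : O →+* L)

open Classical in
private theorem detTwo_oneChi {G : Type v} [Group G] {C : Type w} [Group C] [Fintype C] (φ : C →* G)
    (c : G) (χ : C →* Oˣ) :
    clsFun (cj L c) (MonoidAlgebra.mapDomainRingHom L φ (oneChi fL χ)) =
      (Fintype.card C : L)⁻¹ * ∑ d : C, if IsConj c (φ d) then fL (((χ d)⁻¹ : Oˣ) : O) else 0 := by
  have h : MonoidAlgebra.mapDomainRingHom L φ (oneChi fL χ) = ∑ d : C, MonoidAlgebra.single (φ d)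
      ((Fintype.card C : L)⁻¹ * fL (((χ d)⁻¹ : Oˣ) : O)) := by
    unfold oneChi
    rw [map_sum]
    refine Finset.sum_congr rfl fun d _ => ?_
    change MonoidAlgebra.mapDomain φ (MonoidAlgebra.single d _) = _
    rw [MonoidAlgebra.mapDomain_single]
  rw [h, map_sum, Finset.mul_sum]
  refine Finset.sum_congr rfl fun d _ => ?_
  rw [clsFun_single]
  unfold cj
  split_ifs
  · rw [mul_one]
  · rw [mul_zero, mul_zero]

end one

/-- Trace functional of a product of diagonal matrices. -/
private theorem detTwo_T0_diag {R : Type u} [Ring R] {M : Type*} [AddCommGroup M] (τ : R →+ M)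
    {κ : Type*} [Fintype κ] [DecidableEq κ] (a b : κ → R[T;T⁻¹]) :
    T0 τ ((diagonal a).map (der R) * diagonal b) = ∑ p, τ ((der R (a p) * b p).coeff 0) := by
  rw [diagonal_map (map_zero _), diagonal_mul_diagonal]
  simp only [T0, diagonal_apply_eq]

private theorem detTwo_blockMap {R : Type u} [Ring R] {S : Type v} [Ring S] {m n ι : Type}
    [DecidableEq ι] (M : ι → Matrix m n R) (f : R →+* S) :
    (blockDiagonal M).map f = blockDiagonal fun i => (M i).map f :=
  blockDiagonal_map M f (map_zero f)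

/-- Block diagonal matrices of the pushed matrices. -/
private noncomputable abbrev detTwo_push {R : Type} [CommRing R] {G : Type v} [Group G] {ι : Type}
    [DecidableEq ι] (C : ι → Subgroup G) {m n : Type}
    (x : ∀ i, Matrix m n (MonoidAlgebra R (C i))[T;T⁻¹]) :
    Matrix (m × ι) (n × ι) (MonoidAlgebra R G)[T;T⁻¹] :=
  blockDiagonal fun i => (x i).map (lau (MonoidAlgebra.mapDomainRingHom R (C i).subtype))

private theorem detTwo_push_mul {R : Type} [CommRing R] {G : Type v} [Group G] {ι : Type}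
    [Fintype ι] [DecidableEq ι] (C : ι → Subgroup G) {l m n : Type} [Fintype m]
    (x : ∀ i, Matrix l m (MonoidAlgebra R (C i))[T;T⁻¹])
    (y : ∀ i, Matrix m n (MonoidAlgebra R (C i))[T;T⁻¹]) :
    detTwo_push C x * detTwo_push C y = detTwo_push C fun i => x i * y i := by
  unfold detTwo_push
  rw [← blockDiagonal_mul]
  simp only [Matrix.map_mul]

private theorem detTwo_push_one {R : Type} [CommRing R] {G : Type v} [Group G] {ι : Type}
    [DecidableEq ι] (C : ι → Subgroup G) {m : Type} [DecidableEq m] :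
    detTwo_push (R := R) C (fun _ => (1 : Matrix m m _)) = 1 := by
  unfold detTwo_push
  simp only [Matrix.map_one _ (map_zero _) (map_one _)]
  exact blockDiagonal_one

private theorem detTwo_push_map {R : Type} [CommRing R] {S : Type} [CommRing S] {G : Type v}
    [Group G] {ι : Type} [DecidableEq ι] (C : ι → Subgroup G) {m n : Type} (f : R →+* S)
    (x : ∀ i, Matrix m n (MonoidAlgebra R (C i))[T;T⁻¹]) :
    (detTwo_push C x).map (lau (MonoidAlgebra.mapRingHom G f)) =
      detTwo_push C fun i => (x i).map (lau (MonoidAlgebra.mapRingHom (C i) f)) := by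
  unfold detTwo_push
  rw [detTwo_blockMap]
  congr 1
  funext i
  ext a b : 1
  simp only [Matrix.map_apply]
  have h := congrArg (fun g => g (x i a b)) (congrArg lau (detTwo_comm (G := G) f (C i).subtype))
  rw [lau_comp, lau_comp] at h
  exact h

private theorem detTwo_diag_mul {R : Type u} [Ring R] {m n ι : Type} [Fintype m] [Fintype ι]
    [DecidableEq m] [DecidableEq ι] (a : ι → R) (x x' : ι → Matrix m n R)
    (h : ∀ i k l, x' i k l = a i * x i k l) :
    blockDiagonal x' = diagonal (fun p : m × ι => a p.2) * blockDiagonal x := by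
  ext ⟨i, k⟩ ⟨j, l⟩ : 1
  rw [diagonal_mul, blockDiagonal_apply, blockDiagonal_apply]
  split_ifs with h1
  · exact h _ _ _
  · rw [mul_zero]

private theorem detTwo_mul_diag {R : Type u} [Ring R] {m n ι : Type} [Fintype n] [Fintype ι]
    [DecidableEq n] [DecidableEq ι] (a : ι → R) (x x' : ι → Matrix m n R)
    (h : ∀ i k l, x' i k l = x i k l * a i) :
    blockDiagonal x' = blockDiagonal x * diagonal (fun p : n × ι => a p.2) := by
  ext ⟨i, k⟩ ⟨j, l⟩ : 1
  rw [mul_diagonal, blockDiagonal_apply, blockDiagonal_apply]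
  split_ifs with h1
  · subst h1
    exact h _ _ _
  · rw [zero_mul]

open Classical in
theorem det_two {O : Type} [CommRing O] [IsDomain O] [IsNoetherianRing O] [CharZero O] (N : ℕ)
    [NeZero N] [HasEnoughRootsOfUnity O N] [Finite (Amod O N)] {L : Type} [Field L] [CharZero L]
    (fL : O →+* L) (hfL : Function.Injective fL) {G : Type v} [Group G]
    {ι : Type} [Fintype ι] (C : ι → Subgroup G) [∀ i, Fintype (C i)]
    [∀ i, Fintype (C i →* Oˣ)] (hC : ∀ i, ∀ a b : C i, a * b = b * a)
    (hN : ∀ i, Nat.card (C i) ∣ N) (n : ∀ i, (C i →* Oˣ) → Pr O N → ℤ)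
    (h : ∑ i, ind O (C i).subtype (Theta N (C i) (hC i) (hN i) (n i)) = 0) :
    ∃ s : G → L, ∀ (m : Pr O N) (p : ℕ), p.Prime → (p : Amod O N) ∈ m.asIdeal →
      ∀ c : G, 0 < orderOf c → p ∣ orderOf c →
      ∑ i, ∑ χ : C i →* Oˣ, (n i χ m : L) * ((Fintype.card (C i) : L)⁻¹ *
        ∑ d : C i, if IsConj c (d : G) then fL (((χ d)⁻¹ : Oˣ) : O) else 0) = s c := by
  choose x y hrep using fun i => (sqC (RingHom.id O) N (C i) (hC i) (hN i)).lauSq.exists_isRep_repH
    (uN (n i))
  set H : ∀ i, Matrix (Unit ⊕ Unit) (Unit ⊕ Unit) (MonoidAlgebra O (C i))[T;T⁻¹] :=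
    fun i => (sqC (RingHom.id O) N (C i) (hC i) (hN i)).lauSq.repH (uN (n i)) with hHdef
  have hHid : ∀ i, H i * H i = H i := fun i => (hrep i).idem
  -- the block diagonal idempotent matrix over `O[G]`
  have hpid : ∀ i, ((H i).map (lau (MonoidAlgebra.mapDomainRingHom O (C i).subtype))) *
      ((H i).map (lau (MonoidAlgebra.mapDomainRingHom O (C i).subtype))) =
      (H i).map (lau (MonoidAlgebra.mapDomainRingHom O (C i).subtype)) := by
    intro i
    rw [← Matrix.map_mul, hHid i]
  have hTh : ∀ i, ind O (C i).subtype (Theta N (C i) (hC i) (hN i) (n i)) =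
      Km1.mk (K0.cls _ (hpid i)) := by
    intro i
    have h1 : Theta N (C i) (hC i) (hN i) (n i) = Km1.mk (K0.cls (H i) (hHid i)) := by
      have h2 : Theta N (C i) (hC i) (hN i) (n i) =
          (sqC (RingHom.id O) N (C i) (hC i) (hN i)).DD.D (uN (n i)) := rfl
      rw [h2, Sq.DD_eq, Sq.dl_eq (hrep i), map_sub, mk_cls_pos (1 : Matrix Unit Unit _) one_idem,
        sub_zero]
      intro a b
      rw [Subsingleton.elim a b, Matrix.one_apply_eq]
      have := isPos_cst (1 : MonoidAlgebra O (C i))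
      rwa [map_one] at this
    rw [h1, ind, Km1.map_mk, K0.map_cls]
  have hzero : Km1.mk (K0.cls _ (blockDiagonal_idem _ hpid)) = 0 := by
    rw [K0_blockDiagonal _ hpid, map_sum, ← h]
    exact Finset.sum_congr rfl fun i _ => (hTh i).symm
  -- rational trivializations
  choose xA yA hxyA hloc using fun i => det_one N fL hfL (C i) (hC i) (hN i) (n i) (hrep i)
  have hXY : detTwo_push C xA * detTwo_push C yA = 1 := by
    rw [detTwo_push_mul]
    simp only [hxyA]
    exact detTwo_push_one C
  -- the constants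
  have key : ∀ c : G, ∃ s : L, ∀ (m : Pr O N) (p : ℕ), p.Prime → (p : Amod O N) ∈ m.asIdeal →
      0 < orderOf c → p ∣ orderOf c →
      ∑ i, ∑ χ : C i →* Oˣ, (n i χ m : L) * ((Fintype.card (C i) : L)⁻¹ *
        ∑ d : C i, if IsConj c (d : G) then fL (((χ d)⁻¹ : Oˣ) : O) else 0) = s := by
    intro c
    by_cases hc1 : c = 1
    · refine ⟨0, fun m p hp _ _ hpc => ?_⟩
      rw [hc1, orderOf_one] at hpc
      exact absurd (Nat.dvd_one.1 hpc) hp.one_lt.ne'
    have hτ : ∀ a b : MonoidAlgebra L G, clsFun (cj L c) (a * b) = clsFun (cj L c) (b * a) :=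
      clsFun_comm _ (cj_comm L c)
    have hτ1 : clsFun (cj L c) (1 : MonoidAlgebra L G) = 0 := by
      rw [MonoidAlgebra.one_def, clsFun_single]
      unfold cj
      rw [if_neg, mul_zero]
      intro h1
      exact hc1 (isConj_one_left.1 h1)
    obtain ⟨s0, hs0⟩ := detect (MonoidAlgebra.mapRingHom G fL) (clsFun (cj L c)) hτ hτ1 _
      (blockDiagonal_idem _ hpid) hzero
    refine ⟨T0 (clsFun (cj L c)) ((detTwo_push C xA).map (der _) * detTwo_push C yA) + s0,
      fun m p hp hpm hc0 hpc => ?_⟩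
    obtain ⟨Om, i1, i2, i3, f, j, hjf, hj, hkrull, hkap⟩ := exists_loc N fL hfL m
    choose xB yB hxyB hyxB hxBA hyBA using fun i => hloc i m Om f j hjf hj hkap
    have hXYB : detTwo_push C xB * detTwo_push C yB = 1 := by
      rw [detTwo_push_mul]
      simp only [hxyB]
      exact detTwo_push_one C
    have hYXB : detTwo_push C yB * detTwo_push C xB =
        (blockDiagonal fun i => (H i).map (lau (MonoidAlgebra.mapDomainRingHom O (C i).subtype))).map
          (lau (MonoidAlgebra.mapRingHom G f)) := by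
      rw [detTwo_push_mul]
      simp only [hyxB]
      exact (detTwo_push_map C f H).symm
    obtain ⟨q, hq⟩ := hs0 (MonoidAlgebra Om G) (MonoidAlgebra.mapRingHom G f)
      (MonoidAlgebra.mapRingHom G j) (by rw [detTwo_mapRing_comp, hjf]) _ _ _ hXYB hYXB
    have hfact : Fact p.Prime := ⟨hp⟩
    rw [detTwo_cls_map, trace_zero p (hkrull p hpm) c hc0 hpc q, map_zero, neg_zero, Matrix.map_mul,
      ← map_lau_der, detTwo_push_map, detTwo_push_map] at hq
    -- change of trivialization
    set v' : ι → (MonoidAlgebra L G)[T;T⁻¹] := fun i =>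
      lau (MonoidAlgebra.mapDomainRingHom L (C i).subtype) (vL fL (fun χ => - n i χ m)) with hv'
    set v : ι → (MonoidAlgebra L G)[T;T⁻¹] := fun i =>
      lau (MonoidAlgebra.mapDomainRingHom L (C i).subtype) (vL fL (fun χ => n i χ m)) with hv
    have hX : detTwo_push C (fun i => (xB i).map (lau (MonoidAlgebra.mapRingHom (C i) j))) =
        diagonal (fun p : Unit × ι => v' p.2) * detTwo_push C xA := by
      apply detTwo_diag_mul
      intro i k l
      have h1 := congrArg (lau (MonoidAlgebra.mapDomainRingHom L (C i).subtype)) (hxBA i k l)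
      rw [map_mul] at h1
      exact h1
    have hY : detTwo_push C (fun i => (yB i).map (lau (MonoidAlgebra.mapRingHom (C i) j))) =
        detTwo_push C yA * diagonal (fun p : Unit × ι => v p.2) := by
      apply detTwo_mul_diag
      intro i k l
      have h1 := congrArg (lau (MonoidAlgebra.mapDomainRingHom L (C i).subtype)) (hyBA i k l)
      rw [map_mul] at h1
      exact h1
    have hvv : diagonal (fun p : Unit × ι => v p.2) * diagonal (fun p : Unit × ι => v' p.2) = 1 := by
      rw [diagonal_mul_diagonal, ← diagonal_one]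
      congr 1
      funext p
      rw [hv, hv', ← map_mul, vL_mul fL (hC p.2) (hN p.2)]
      have h1 : ((fun χ => n p.2 χ m) + fun χ => - n p.2 χ m) = (0 : (C p.2 →* Oˣ) → ℤ) := by
        funext χ
        exact add_neg_cancel _
      rw [h1, vL_zero fL (hC p.2) (hN p.2), map_one]
    rw [hX, hY, T0_change _ hτ _ _ hvv _ _ hXY, detTwo_T0_diag] at hq
    have hterm : ∀ p : Unit × ι, clsFun (cj L c) ((der _ (v' p.2) * v p.2).coeff 0) =
        - ∑ χ : C p.2 →* Oˣ, (n p.2 χ m : L) * ((Fintype.card (C p.2) : L)⁻¹ *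
          ∑ d : C p.2, if IsConj c (d : G) then fL (((χ d)⁻¹ : Oˣ) : O) else 0) := by
      intro p
      have h1 : der _ (v' p.2) * v p.2 =
          lau (MonoidAlgebra.mapDomainRingHom L (C p.2).subtype)
            (cst _ (- ∑ χ, n p.2 χ m • oneChi fL χ)) := by
        rw [hv, hv', ← lau_der, ← map_mul]
        congr 1
        exact der_vL fL (hC p.2) (hN p.2) (fun χ => n p.2 χ m)
      rw [h1, lau_coeff, cst_apply, AddMonoidAlgebra.coeff_single, Finsupp.single_eq_same, map_neg,
        map_neg, map_sum, map_sum]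
      congr 1
      refine Finset.sum_congr rfl fun χ _ => ?_
      rw [map_zsmul, map_zsmul, detTwo_oneChi, zsmul_eq_mul]
      rfl
    simp only [hterm] at hq
    rw [Fintype.sum_prod_type, Fintype.sum_unique, Finset.sum_neg_distrib] at hq
    linear_combination -hq
  choose s hs using key
  exact ⟨s, fun m p hp hpm c hc0 hpc => hs c m p hp hpm hc0 hpc⟩

end Pool.Agent.H95.KM

end

section

/-!
# Project KM, module GenK0: generators of `K₀((X → O / N))`

PROOF.  For `(χ, m) ∈ X × Pr O N` let `p (χ, m) : (X → O / N) → (O / N) / m` be evaluation at `χ`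
followed by the residue map.  Together they are surjective with nilpotent kernel
(`resPi_surjective`, `resPi_nilKer` in `Pool/Agent/H95/KM/FinRing.lean`; for the nilpotent kernel
take the filtration `J j` of functions with all values in the `j`-th step of the filtration for
`O / N`).  The rings `(O / N) / m` are fields, so `K0.map (p (χ, m)) x = r χ m • [1]`
(`K0_pid` or `K0.eq_rk_smul_one`).  The `1 × 1` idempotent matrix `Pi.single χ (kappa m)` has image
`[1]` in `K₀` at `(χ, m)` and `0` at the other places (`kappa m ∉ m`, idempotent, so its image in the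
field `(O/N)/m` is `1`; `kappa m * kappa m' = 0` and `kappa m' ∉ m'` give `kappa m ∈ m'`).
Now `K0_joint` applied to `x - ∑ ...` gives the claim.
-/

set_option autoImplicit false

open Matrix
open scoped LaurentPolynomial

universe u v w

namespace Pool.Agent.H95.KM

open Pool.Agent.H71.FJ

/-- the `1 × 1` matrix with entry `kappa m` at the component `χ` -/
noncomputable def kapMat {O : Type} [CommRing O] {N : ℕ} [Finite (Amod O N)] {X : Type v}
    [DecidableEq X] (χ : X) (m : Pr O N) : Matrix Unit Unit (X → Amod O N) :=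
  Matrix.of fun _ _ => Pi.single χ (kappa O N m)

theorem kapMat_idem {O : Type} [CommRing O] {N : ℕ} [Finite (Amod O N)] {X : Type v}
    [DecidableEq X] (χ : X) (m : Pr O N) :
    (kapMat χ m : Matrix Unit Unit (X → Amod O N)) * kapMat χ m = kapMat χ m := by
  classical
  ext i j : 1
  simp only [kapMat, Matrix.mul_apply, Finset.univ_unique, Finset.sum_singleton, Matrix.of_apply,
    ← Pi.single_mul, kappa_mul, if_true]

private theorem genk0_cls_zero {R : Type*} [Ring R] {n : Type*} [Fintype n] [DecidableEq n]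
    (h : (0 : Matrix n n R) * 0 = 0) : K0.cls (0 : Matrix n n R) h = 0 := by
  have h0 := K0.cls_one_fin (R := R) 0
  rw [zero_smul] at h0
  rw [← h0]
  apply K0.cls_congr
  refine ⟨0, 0, ?_, ?_⟩
  · simp
  · ext i
    exact i.elim0

private theorem genk0_surj {O : Type} [CommRing O] {N : ℕ} [Finite (Amod O N)] {X : Type v} :
    Function.Surjective (RingHom.pi (fun i : X × Pr O N =>
      (Ideal.Quotient.mk i.2.asIdeal).comp (Pi.evalRingHom (fun _ : X => Amod O N) i.1)) :
      (X → Amod O N) →+* ∀ i : X × Pr O N, Amod O N ⧸ i.2.asIdeal) := by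
  intro y
  choose g hg using fun χ : X => resPi_surjective (Amod O N) (fun m => y (χ, m))
  refine ⟨g, ?_⟩
  funext i
  obtain ⟨χ, m⟩ := i
  exact congrFun (hg χ) m

private theorem genk0_nil {O : Type} [CommRing O] {N : ℕ} [Finite (Amod O N)] {X : Type v} :
    NilKer (RingHom.pi (fun i : X × Pr O N =>
      (Ideal.Quotient.mk i.2.asIdeal).comp (Pi.evalRingHom (fun _ : X => Amod O N) i.1)) :
      (X → Amod O N) →+* ∀ i : X × Pr O N, Amod O N ⧸ i.2.asIdeal) := by
  obtain ⟨k, J, h0, hN, hJ⟩ := resPi_nilKer (Amod O N)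
  refine ⟨k, fun j =>
    { carrier := {x | ∀ χ, x χ ∈ J j}
      add_mem' := fun {a b} ha hb i => (J j).add_mem (ha i) (hb i)
      zero_mem' := fun i => (J j).zero_mem
      neg_mem' := fun {a} ha i => (J j).neg_mem (ha i) }, ?_, ?_, ?_⟩
  · intro x χ
    exact h0 _
  · intro x hx
    funext χ
    exact hN _ (hx χ)
  · intro j x y hx hy χ
    refine hJ j (x χ) (y χ) ?_ (hy χ)
    funext m
    exact congrFun hx (χ, m)

private theorem genk0_map {O : Type} [CommRing O] {N : ℕ} [Finite (Amod O N)] {X : Type v}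
    [DecidableEq X] [DecidableEq (Pr O N)] (χ χ' : X) (m m' : Pr O N) :
    K0.map ((Ideal.Quotient.mk m'.asIdeal).comp (Pi.evalRingHom (fun _ : X => Amod O N) χ'))
      (K0.cls (kapMat χ m) (kapMat_idem χ m)) =
      if χ = χ' ∧ m = m' then K0.one (Amod O N ⧸ m'.asIdeal) else 0 := by
  have hmax := m'.isMaximal
  have hprime : m'.asIdeal.IsPrime := hmax.isPrime
  rw [K0.map_cls]
  split_ifs with h
  · obtain ⟨rfl, rfl⟩ := h
    have h1 : (kapMat χ m).map ((Ideal.Quotient.mk m.asIdeal).comp
        (Pi.evalRingHom (fun _ : X => Amod O N) χ)) = 1 := by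
      ext i j
      simp only [kapMat, Matrix.map_apply, Matrix.of_apply, RingHom.comp_apply,
        Pi.evalRingHom_apply, Pi.single_eq_same]
      rw [Subsingleton.elim i j, Matrix.one_apply_eq, ← map_one (Ideal.Quotient.mk m.asIdeal),
        Ideal.Quotient.eq]
      have h2 : kappa O N m * (kappa O N m - 1) ∈ m.asIdeal := by
        rw [mul_sub, kappa_mul, if_pos rfl, mul_one, sub_self]
        exact m.asIdeal.zero_mem
      exact (hprime.mem_or_mem h2).resolve_left (kappa_notMem O N m)
    rw [K0.one]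
    apply K0.cls_congr
    rw [h1]
    exact K0.matEquiv_one_one (Equiv.ofUnique Unit (Fin 1))
  · have h1 : (kapMat χ m).map ((Ideal.Quotient.mk m'.asIdeal).comp
        (Pi.evalRingHom (fun _ : X => Amod O N) χ')) = 0 := by
      ext i j
      simp only [kapMat, Matrix.map_apply, Matrix.of_apply, RingHom.comp_apply,
        Pi.evalRingHom_apply, Matrix.zero_apply]
      by_cases hχ : χ' = χ
      · subst hχ
        rw [Pi.single_eq_same, Ideal.Quotient.eq_zero_iff_mem]
        have hm : m ≠ m' := fun hm => h ⟨rfl, hm⟩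
        have h2 : kappa O N m * kappa O N m' ∈ m'.asIdeal := by
          rw [kappa_mul, if_neg hm]
          exact m'.asIdeal.zero_mem
        exact (hprime.mem_or_mem h2).resolve_right (kappa_notMem O N m')
      · rw [Pi.single_eq_of_ne hχ, map_zero]
    have h2 : ∀ (e : Matrix Unit Unit (Amod O N ⧸ m'.asIdeal)) (he : e * e = e), e = 0 →
        K0.cls e he = 0 := by
      rintro e he rfl
      exact genk0_cls_zero he
    exact h2 _ _ h1

private theorem genk0_field {A : Type*} [CommRing A] (I : Ideal A) (hI : I.IsMaximal)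
    (x : K0 (A ⧸ I)) : ∃ r : ℤ, x = r • K0.one (A ⧸ I) := by
  have h1 : IsDomain (A ⧸ I) := Ideal.Quotient.isDomain I
  have h2 : IsPrincipalIdealRing (A ⧸ I) := by
    have hf : IsField (A ⧸ I) := (Ideal.Quotient.maximal_ideal_iff_isField_quotient I).1 hI
    let _ := hf.toField
    infer_instance
  exact K0_pid x

theorem K0_gen {O : Type} [CommRing O] {N : ℕ} [Finite (Amod O N)] {X : Type v} [Fintype X]
    [DecidableEq X] (x : K0 (X → Amod O N)) :
    ∃ r : X → Pr O N → ℤ, x = ∑ χ, ∑ m, r χ m • K0.cls (kapMat χ m) (kapMat_idem χ m) := by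
  classical
  choose r hr using fun i : X × Pr O N => genk0_field i.2.asIdeal i.2.isMaximal
    (K0.map ((Ideal.Quotient.mk i.2.asIdeal).comp (Pi.evalRingHom (fun _ : X => Amod O N) i.1)) x)
  refine ⟨fun χ m => r (χ, m), ?_⟩
  rw [← sub_eq_zero]
  refine K0_joint (fun i : X × Pr O N =>
      (Ideal.Quotient.mk i.2.asIdeal).comp (Pi.evalRingHom (fun _ : X => Amod O N) i.1))
      genk0_surj genk0_nil _ ?_
  rintro ⟨χ', m'⟩
  rw [map_sub, hr (χ', m'), map_sum, sub_eq_zero, Finset.sum_eq_single χ']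
  · rw [map_sum, Finset.sum_eq_single m']
    · rw [map_zsmul, genk0_map, if_pos ⟨rfl, rfl⟩]
    · intro m _ hm
      rw [map_zsmul, genk0_map, if_neg (fun h => hm h.2), smul_zero]
    · intro h
      exact absurd (Finset.mem_univ _) h
  · intro χ _ hχ
    rw [map_sum]
    apply Finset.sum_eq_zero
    intro m _
    rw [map_zsmul, genk0_map, if_neg (fun h => hχ h.1), smul_zero]
  · intro h
    exact absurd (Finset.mem_univ _) h

end Pool.Agent.H95.KM

end

section

/-!
# Project KM, module Gen: every element of `K₋₁(O[C])` is some `Θ(n)`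

PROOF.  Let `Q = sqC (RingHom.id O) N C` (`Γ = O[C]`, `𝓜 = (C →* Oˣ) → O`,
`B = (C →* Oˣ) → O / N`, a finite commutative ring).
`X = Km1.mk y`.  Put `y₀ = y - K0.map cst (K0.map ev1 y)`; `Km1.mk y₀ = X` (`mk_cst`).
(1) `K0.map (lau Q.φ) y₀ = 0`: `Const 𝓜` (`const_pi`, `const_dedekind`) for
    `y' = K0.map (lau Q.φ) y` and naturality (`lau_cst`, `ev1_lau`, `K0.map_map`).
(2) Let `Gb = (Q.π.comp Q.φ).range`, a finite commutative ring (subring of `B`),
    `s = (Q.π.comp Q.φ).rangeRestrict`, `ι` the inclusion.  `K0.map (lau s) y₀ = 0` by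
    `const_finite`.
(3) `Sq.exact` for `Q.lauSq`, `lau s`, `lau ι` (`lau_surjective`, `lau_comp`): `y₀ = Q.lauSq.dl g`,
    so `X = Q.DD.D g`.
(4) `linearize` for `Q.DD` (`DD_pos`, `DD_neg`; `hT` by `DD_lift`: `tU 1 1` over `B` is the image of
    `tU 1 1` over `𝓜`): `X = Q.DD.D (tU 1 e)`.
(5) `exists_kap` (`hc` by `DD_pos`, `isPos_cst`) gives `κ : K₀(B) →+ K₋₁(Γ)`, `X = κ [e]`; by
    `K0_gen` `[e] = ∑ r χ m • [kapMat χ m]`, so `X = ∑ r χ m • Q.DD.D (tU 1 (kapMat χ m))`.
(6) `tU 1 (kapMat χ m) = uN (δ_{(χ, m)})` (compare components with `cmp_ext`, `cmp_un`: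
    at `χ`: `t kappa m + 1 - kappa m = ∑_{m'} t^{δ} kappa m'`, at the other components `1`), so
    `X = ∑ r χ m • Θ(δ_{(χ,m)}) = Θ(r)` by additivity (`Theta_add`, `Theta_zero`).
-/

set_option autoImplicit false

open Matrix
open scoped LaurentPolynomial

universe u v w

namespace Pool.Agent.H95.KM

open Pool.Agent.H71.FJ

theorem mk_sub_const {R : Type u} [Ring R] (y : K0 R[T;T⁻¹]) :
    Km1.mk (y - K0.map (cst R) (K0.map (ev1 R) y)) = Km1.mk y := by
  rw [map_sub, mk_cst, sub_zero]

theorem map_lau_sub_const {R : Type u} [Ring R] {S : Type v} [Ring S] (f : R →+* S)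
    (hS : Const S) (y : K0 R[T;T⁻¹]) :
    K0.map (lau f) (y - K0.map (cst R) (K0.map (ev1 R) y)) = 0 := by
  rw [map_sub, K0.map_map, lau_cst, ← K0.map_map, K0.map_map f, ← ev1_lau, ← K0.map_map,
    ← hS (K0.map (lau f) y), sub_self]

theorem mono_map_lau {R : Type u} [Ring R] {S : Type v} [Ring S] (f : R →+* S) (k : ℤ)
    {m n : Type*} (X : Matrix m n R) : (mono k X).map (lau f) = mono k (X.map f) := by
  ext i j : 1
  exact lau_single f k (X i j)

theorem DD_tU_one {Γ : Type u} {𝓜 : Type v} {B : Type w} [Ring Γ] [Ring 𝓜] [Ring B]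
    (Q : Sq Γ 𝓜 B) {m : Type} [Fintype m] [DecidableEq m] :
    Q.DD.D (tU 1 (1 : Matrix m m B) one_idem) = 0 := by
  apply Q.DD_lift (tU 1 (1 : Matrix m m 𝓜) one_idem)
  rw [tU_val, tU_val, sub_self, sub_self, mono_zero, mono_zero, add_zero, add_zero,
    mono_map_lau, Matrix.map_one _ (map_zero _) (map_one _)]

theorem DD_cst {Γ : Type u} {𝓜 : Type v} {B : Type w} [Ring Γ] [Ring 𝓜] [Ring B]
    (Q : Sq Γ 𝓜 B) {m : Type} [Fintype m] [DecidableEq m] (g : (Matrix m m B)ˣ) :
    Q.DD.D (mapU (cst B) g) = 0 :=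
  Q.DD_pos _ (fun _ _ => isPos_cst _) (fun _ _ => isPos_cst _)

theorem uN_single {O : Type} [CommRing O] {N : ℕ} [Finite (Amod O N)] {X : Type v} [Finite X]
    [DecidableEq X] [DecidableEq (Pr O N)] (χ : X) (m : Pr O N) :
    tU 1 (kapMat χ m) (kapMat_idem χ m) =
      uN (Pi.single χ (Pi.single m 1) : X → Pr O N → ℤ) := by
  apply Units.ext
  ext i j : 1
  change mono 1 (kapMat χ m) i j + mono 0 (1 - kapMat χ m) i j = un _
  have h1 : mono 1 (kapMat χ m : Matrix Unit Unit (X → Amod O N)) i j =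
      AddMonoidAlgebra.single 1 (Pi.single χ (kappa O N m)) := rfl
  have h0 : mono 0 (1 - kapMat χ m : Matrix Unit Unit (X → Amod O N)) i j =
      AddMonoidAlgebra.single 0 (1 - Pi.single χ (kappa O N m)) := by
    change AddMonoidAlgebra.single 0 ((1 : Matrix Unit Unit (X → Amod O N)) i j - _) = _
    rw [Subsingleton.elim i j, Matrix.one_apply_eq]
    rfl
  rw [h1, h0]
  apply cmp_ext
  intro ψ
  rw [cmp_un, map_add, cmp, lau_single, lau_single, Pi.evalRingHom_apply, Pi.evalRingHom_apply,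
    Pi.sub_apply, Pi.one_apply]
  by_cases hψ : ψ = χ
  · subst hψ
    rw [Pi.single_eq_same, Pi.single_eq_same, unComp, ← Finset.add_sum_erase _ _ (Finset.mem_univ m),
      Pi.single_eq_same]
    congr 1
    have h2 : (1 : Amod O N) - kappa O N m = ∑ m' ∈ Finset.univ.erase m, kappa O N m' := by
      rw [sub_eq_iff_eq_add', Finset.add_sum_erase _ _ (Finset.mem_univ m), sum_kappa]
    rw [h2]
    have h3 : (AddMonoidAlgebra.single 0 (∑ m' ∈ Finset.univ.erase m, kappa O N m') :
        (Amod O N)[T;T⁻¹]) = ∑ m' ∈ Finset.univ.erase m, AddMonoidAlgebra.single 0 (kappa O N m') :=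
      map_sum (AddMonoidAlgebra.singleAddHom 0) _ _
    rw [h3]
    apply Finset.sum_congr rfl
    intro m' hm'
    rw [Pi.single_eq_of_ne (Finset.ne_of_mem_erase hm')]
  · rw [Pi.single_eq_of_ne hψ, Pi.single_eq_of_ne hψ, unComp_zero, sub_zero,
      AddMonoidAlgebra.single_zero, zero_add]
    rfl

theorem Theta_sum_smul {O : Type} [CommRing O] [IsDomain O] [CharZero O] (N : ℕ) [NeZero N]
    [HasEnoughRootsOfUnity O N] [Finite (Amod O N)]
    (C : Type v) [Group C] [Finite C] (hC : ∀ a b : C, a * b = b * a) (hN : Nat.card C ∣ N) :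
    ∃ θ : ((C →* Oˣ) → Pr O N → ℤ) →+ Km1 (MonoidAlgebra O C), ∀ n, θ n = Theta N C hC hN n :=
  ⟨{ toFun := Theta N C hC hN
     map_zero' := Theta_zero N C hC hN
     map_add' := Theta_add N C hC hN }, fun _ => rfl⟩

theorem Theta_surj {O : Type} [CommRing O] [IsDedekindDomain O] [CharZero O] (N : ℕ) [NeZero N]
    [HasEnoughRootsOfUnity O N] [Finite (Amod O N)]
    (C : Type v) [Group C] [Finite C] (hC : ∀ a b : C, a * b = b * a) (hN : Nat.card C ∣ N)
    (X : Km1 (MonoidAlgebra O C)) : ∃ n, X = Theta N C hC hN n := by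
  classical
  have := finite_dual (O := O) N hC hN
  have : Fintype (C →* Oˣ) := Fintype.ofFinite _
  obtain ⟨y, rfl⟩ := Km1.mk_surjective X
  obtain ⟨Q, hQ⟩ : ∃ Q, Q = sqC (RingHom.id O) N C hC hN := ⟨_, rfl⟩
  -- the element `y₀`
  obtain ⟨y₀, hy₀⟩ : ∃ y₀, y₀ = y - K0.map (cst _) (K0.map (ev1 _) y) := ⟨_, rfl⟩
  have hmk : Km1.mk y₀ = Km1.mk y := by rw [hy₀, mk_sub_const]
  have hconst : Const ((C →* Oˣ) → O) := const_pi fun _ => const_dedekind O
  have h1 : K0.map (lau Q.φ) y₀ = 0 := by
    rw [hy₀]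
    exact map_lau_sub_const Q.φ hconst y
  have h2 : K0.map (lau (Q.π.comp Q.φ).rangeRestrict) y₀ = 0 := by
    rw [hy₀]
    exact map_lau_sub_const _ (const_finite _) y
  obtain ⟨k, g, hg⟩ := Sq.exact Q.lauSq (lau (Q.π.comp Q.φ).rangeRestrict)
    (lau (Q.π.comp Q.φ).range.subtype)
    (lau_surjective (Q.π.comp Q.φ).rangeRestrict_surjective)
    (by
      rw [← lau_comp]
      exact lau_comp Q.π Q.φ) y₀ h1 h2
  have hX : Km1.mk y = Q.DD.D g := by rw [← hmk, hg]; rfl
  obtain ⟨n', i1, i2, e, he, hge⟩ := linearize Q.DD (fun g => Q.DD_pos g) (fun g => Q.DD_neg g)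
    (DD_tU_one Q) g
  obtain ⟨κ, hκ⟩ := exists_kap Q.DD (DD_cst Q)
  obtain ⟨r, hr⟩ := K0_gen (O := O) (N := N) (X := C →* Oˣ) (K0.cls e he)
  obtain ⟨θ, hθ⟩ := Theta_sum_smul (O := O) N C hC hN
  refine ⟨r, ?_⟩
  rw [hX, hge, ← hκ, hr, ← hθ]
  have h3 : ∀ (χ : C →* Oˣ) (m : Pr O N), κ (K0.cls (kapMat χ m) (kapMat_idem χ m)) =
      θ (Pi.single χ (Pi.single m 1)) := by
    intro χ m
    rw [hκ, uN_single, hθ, hQ]
    rfl
  simp only [map_sum, map_zsmul, h3]
  simp only [← map_zsmul, ← map_sum]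
  congr 1
  funext χ m
  simp only [Finset.sum_apply, Pi.smul_apply]
  rw [Finset.sum_eq_single χ, Finset.sum_eq_single m]
  · rw [Pi.single_eq_same, Pi.single_eq_same, smul_eq_mul, mul_one]
  · intro m' _ hm'
    rw [Pi.single_eq_same, Pi.single_eq_of_ne (Ne.symm hm'), smul_zero]
  · intro h
    exact absurd (Finset.mem_univ _) h
  · intro χ' _ hχ'
    apply Finset.sum_eq_zero
    intro m' _
    rw [Pi.single_eq_of_ne (Ne.symm hχ'), Pi.zero_apply, smul_zero]
  · intro h
    exact absurd (Finset.mem_univ _) h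

end Pool.Agent.H95.KM

end

section

/-!
# Rational injectivity of the assembly map in degree `-1`, finite cyclic subgroups
-/

set_option autoImplicit false

open Matrix
open scoped LaurentPolynomial

universe u v w

namespace Pool.Agent.H95.KM

open Pool.Agent.H71.FJ

/-- The finite cyclic subgroups. -/
def FinCyc {G : Type v} [Group G] (F : Subgroup G) : Prop := Finite F ∧ IsCyclic F

theorem lTensor_injective {A B : Type*} [AddCommGroup A] [AddCommGroup B] (f : A →+ B)
    (hf : ∀ a, f a = 0 → ∃ m : ℤ, m ≠ 0 ∧ m • a = 0) :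
    Function.Injective (LinearMap.lTensor ℚ f.toIntLinearMap) := by
  rw [injective_iff_map_eq_zero]
  intro y hy
  obtain ⟨⟨z, m⟩, hz⟩ := IsLocalizedModule.surj (nonZeroDivisors ℤ)
    (TensorProduct.mk ℤ ℚ A 1) y
  have h1 : TensorProduct.mk ℤ ℚ B 1 (f z) = 0 := by
    have h2 : LinearMap.lTensor ℚ f.toIntLinearMap (TensorProduct.mk ℤ ℚ A 1 z) = 0 := by
      have h3 := congrArg (LinearMap.lTensor ℚ f.toIntLinearMap) hz
      rw [Submonoid.smul_def, map_smul, hy, smul_zero] at h3
      exact h3.symm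
    exact h2
  obtain ⟨M, hM⟩ := (IsLocalizedModule.eq_zero_iff (nonZeroDivisors ℤ)
    (TensorProduct.mk ℤ ℚ B 1)).1 h1
  obtain ⟨m', hm', h4⟩ := hf ((M : ℤ) • z) (by rw [map_zsmul]; exact hM)
  have h5 : TensorProduct.mk ℤ ℚ A 1 z = 0 :=
    (IsLocalizedModule.eq_zero_iff (nonZeroDivisors ℤ)
      (TensorProduct.mk ℤ ℚ A 1)).2
      ⟨⟨m' * M, mem_nonZeroDivisors_of_ne_zero
        (mul_ne_zero hm' (nonZeroDivisors.coe_ne_zero M))⟩, by
        rw [Submonoid.smul_def]
        change (m' * (M : ℤ)) • z = 0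
        rw [mul_smul, h4]⟩
  have h6 : m • y = m • 0 := by rw [hz, h5, smul_zero]
  exact IsLocalizedModule.smul_injective (TensorProduct.mk ℤ ℚ A 1) m h6

section Represent

variable (R : Type u) [Ring R] (G : Type v) [Group G] (𝓕 : Subgroup G → Prop)

theorem exists_list_repr (z : SumKm1 R G 𝓕) :
    ∃ l : List (Σ F : FamSub G 𝓕, Km1 (MonoidAlgebra R F.1)),
      z = (l.map fun p => inc R G 𝓕 p.1 p.2).sum := by
  classical
  induction z using DirectSum.induction_on with
  | zero => exact ⟨[], rfl⟩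
  | of F x =>
    refine ⟨[⟨F, x⟩], ?_⟩
    rw [List.map_singleton, List.sum_singleton, inc]
  | add x y hx hy =>
    obtain ⟨l, hl⟩ := hx
    obtain ⟨l', hl'⟩ := hy
    exact ⟨l ++ l', by rw [List.map_append, List.sum_append, ← hl, ← hl']⟩

/-- Every element of the colimit is a finite sum of classes. -/
theorem exists_repr (a : ColimKm1 R G 𝓕) : ∃ (k : ℕ) (F : Fin k → FamSub G 𝓕)
    (x : ∀ i, Km1 (MonoidAlgebra R (F i).1)), a = ∑ i, cl R G 𝓕 (F i) (x i) := by
  obtain ⟨z, rfl⟩ : ∃ z, QuotientAddGroup.mk' (colimRel R G 𝓕) z = a :=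
    QuotientAddGroup.mk_surjective a
  obtain ⟨l, hl⟩ := exists_list_repr R G 𝓕 z
  refine ⟨l.length, fun i => (l.get i).1, fun i => (l.get i).2, ?_⟩
  have h1 : ∑ i : Fin l.length, cl R G 𝓕 (l.get i).1 (l.get i).2 =
      (l.map fun p => cl R G 𝓕 p.1 p.2).sum := by
    rw [← List.sum_ofFn]
    congr 1
    apply List.ext_get
    · simp
    · intro n h1 h2
      simp
  rw [h1, hl, map_list_sum, List.map_map]
  rfl

end Represent

section Number

open NumberField

theorem enough_roots (N : ℕ) [NeZero N] :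
    HasEnoughRootsOfUnity (𝓞 (CyclotomicField N ℚ)) N := by
  have : IsCyclotomicExtension {N} ℚ (CyclotomicField N ℚ) :=
    CyclotomicField.isCyclotomicExtension N ℚ
  have h := IsCyclotomicExtension.zeta_spec N ℚ (CyclotomicField N ℚ)
  exact ⟨⟨h.toInteger, h.toInteger_isPrimitiveRoot⟩, inferInstance⟩

theorem finite_Amod (O : Type) [CommRing O] [IsDomain O] [CharZero O] [Module.Free ℤ O]
    [Module.Finite ℤ O] (N : ℕ) [NeZero N] : Finite (Amod O N) := by
  apply Ideal.finiteQuotientOfFreeOfNeBot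
  rw [Ne, Ideal.span_singleton_eq_bot]
  exact_mod_cast NeZero.ne N

end Number

section Kernel

variable {G : Type v} [Group G]

theorem comm_of_cyclic {D : Subgroup G} (h : IsCyclic D) (a b : D) : a * b = b * a := by
  have := h
  exact (IsCyclic.commGroup (α := D)).mul_comm a b

/-- extension of scalars commutes with induction -/
theorem ext_ind {O : Type} [CommRing O] {H H' : Type v} [Group H] [Group H'] (f : H →* H')
    (x : Km1 (MonoidAlgebra ℤ H)) :
    Km1.map (MonoidAlgebra.mapRingHom H' (Int.castRingHom O)) (ind ℤ f x) =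
      ind O f (Km1.map (MonoidAlgebra.mapRingHom H (Int.castRingHom O)) x) := by
  rw [ind, ind, Km1.map_map, Km1.map_map]
  congr 2
  apply RingHom.ext
  intro a
  induction a using MonoidAlgebra.induction_linear with
  | zero => simp
  | add a b ha hb => rw [map_add, map_add, ha, hb]
  | single g r =>
    change MonoidAlgebra.mapRingHom H' (Int.castRingHom O)
      (MonoidAlgebra.mapDomain f (MonoidAlgebra.single g r)) =
      MonoidAlgebra.mapDomain f (MonoidAlgebra.mapRingHom H (Int.castRingHom O)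
        (MonoidAlgebra.single g r))
    rw [MonoidAlgebra.mapDomain_single, MonoidAlgebra.mapRingHom_single,
      MonoidAlgebra.mapRingHom_single, MonoidAlgebra.mapDomain_single]

/-- The kernel of the assembly map is a torsion group. -/
theorem kernel_torsion (a : ColimKm1 ℤ G FinCyc) (ha : assembly ℤ G FinCyc a = 0) :
    ∃ m : ℤ, m ≠ 0 ∧ m • a = 0 := by
  classical
  obtain ⟨k, F, x, rfl⟩ := exists_repr ℤ G FinCyc a
  have hfin : ∀ i, Finite (F i).1 := fun i => (F i).2.1
  have hcyc : ∀ i, IsCyclic (F i).1 := fun i => (F i).2.2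
  obtain ⟨N, hN⟩ : ∃ N : ℕ, N = ∏ i, Nat.card (F i).1 := ⟨_, rfl⟩
  have hN0 : NeZero N := ⟨by
    rw [hN, Finset.prod_ne_zero_iff]
    intro i _
    exact Nat.card_pos.ne'⟩
  have hdvd : ∀ i, Nat.card (F i).1 ∣ N := fun i => by
    rw [hN]
    exact Finset.dvd_prod_of_mem _ (Finset.mem_univ i)
  let L := CyclotomicField N ℚ
  let O := NumberField.RingOfIntegers L
  have h1 : HasEnoughRootsOfUnity O N := enough_roots N
  have h2 : Finite (Amod O N) := finite_Amod O N
  let fL : O →+* L := algebraMap O L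
  have hfL : Function.Injective fL := FaithfulSMul.algebraMap_injective O L
  -- the transfer
  obtain ⟨d, res, hd, hres, hnat⟩ := exists_transfer.{v} O
  -- the target
  let V := TensorProduct ℤ ℚ (ColimKm1 ℤ G FinCyc)
  let t : ColimKm1 ℤ G FinCyc →+ V := (TensorProduct.mk ℤ ℚ (ColimKm1 ℤ G FinCyc) 1).toAddMonoidHom
  let Θ : ∀ D : Good G N, ((D.1 →* Oˣ) → Pr O N → ℤ) →+ V := fun D =>
    have := D.2.1.1
    AddMonoidHom.mk' (fun n => t (cl ℤ G FinCyc ⟨D.1, D.2.1⟩
      (res D.1 (Theta N D.1 (comm_of_cyclic D.2.1.2) D.2.2 n)))) (by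
        intro n n'
        rw [Theta_add, map_add, map_add, map_add])
  -- the elements
  have hsurj : ∀ i, ∃ n, Km1.map (MonoidAlgebra.mapRingHom (F i).1 (Int.castRingHom O)) (x i) =
      Theta N (F i).1 (comm_of_cyclic (hcyc i)) (hdvd i) n := fun i => Theta_surj N _ _ _ _
  choose n hn using hsurj
  have : ∀ i, Fintype (F i).1 := fun i => Fintype.ofFinite _
  have hdual : ∀ i, Finite ((F i).1 →* Oˣ) := fun i =>
    finite_dual (O := O) N (comm_of_cyclic (hcyc i)) (hdvd i)
  have : ∀ i, Fintype ((F i).1 →* Oˣ) := fun i => Fintype.ofFinite _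
  have hsum : ∑ i, ind O (F i).1.subtype
      (Theta N (F i).1 (comm_of_cyclic (hcyc i)) (hdvd i) (n i)) = 0 := by
    simp only [← hn, ← ext_ind]
    rw [← map_sum]
    rw [map_sum] at ha
    simp only [assembly_cl] at ha
    rw [ha, map_zero]
  obtain ⟨s, hs⟩ := det_two N fL hfL (fun i => (F i).1) (fun i => comm_of_cyclic (hcyc i)) hdvd n
    hsum
  have key := linalg N fL hfL (fun m : Pr O N => ringChar (Amod O N ⧸ m.asIdeal)) Θ ?_ ?_ ?_
    (fun i => ⟨(F i).1, (F i).2, hdvd i⟩) n s ?_
  · -- conclusion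
    have h3 : ∑ i, Θ ⟨(F i).1, (F i).2, hdvd i⟩ (n i) = d • t (∑ i, cl ℤ G FinCyc (F i) (x i)) := by
      rw [map_sum, Finset.smul_sum]
      apply Finset.sum_congr rfl
      intro i _
      change t (cl ℤ G FinCyc (F i) (res (F i).1 (Theta N (F i).1 _ _ (n i)))) = _
      rw [← hn i, hres, map_nsmul, map_nsmul]
    rw [h3] at key
    have h4 : t (∑ i, cl ℤ G FinCyc (F i) (x i)) = 0 := by
      have h5 : (d : ℚ) • t (∑ i, cl ℤ G FinCyc (F i) (x i)) = 0 := by
        rw [Nat.cast_smul_eq_nsmul]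
        exact key
      rcases smul_eq_zero.1 h5 with h6 | h6
      · exact absurd h6 (by exact_mod_cast hd.ne')
      · exact h6
    obtain ⟨M, hM⟩ := (IsLocalizedModule.eq_zero_iff (nonZeroDivisors ℤ)
      (TensorProduct.mk ℤ ℚ (ColimKm1 ℤ G FinCyc) 1)).1 h4
    exact ⟨M, nonZeroDivisors.coe_ne_zero M, hM⟩
  · -- naturality
    intro D D' g h n
    have := D.2.1.1
    have := D'.2.1.1
    change t (cl ℤ G FinCyc ⟨D'.1, D'.2.1⟩ (res D'.1 (Theta N D'.1 _ _ _))) =
      t (cl ℤ G FinCyc ⟨D.1, D.2.1⟩ (res D.1 (Theta N D.1 _ _ n)))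
    rw [Theta_map N D.1 (comm_of_cyclic D.2.1.2) D.2.2 D'.1, hnat]
    congr 1
    exact cl_conj ℤ G FinCyc ⟨D.1, D.2.1⟩ ⟨D'.1, D'.2.1⟩ g h _
  · -- constant functions
    intro D k
    have := D.2.1.1
    change t (cl ℤ G FinCyc ⟨D.1, D.2.1⟩ (res D.1 (Theta N D.1 _ _ _))) = 0
    rw [Theta_const, map_zero, map_zero, map_zero]
  · -- vanishing
    intro D n h
    have := D.2.1.1
    change t (cl ℤ G FinCyc ⟨D.1, D.2.1⟩ (res D.1 (Theta N D.1 _ _ _))) = 0
    rw [Theta_vanish, map_zero, map_zero, map_zero]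
    intro χ m hne hmem
    apply h χ m hne
    rw [← ringChar.spec, ← map_natCast (Ideal.Quotient.mk m.asIdeal)]
    exact Ideal.Quotient.eq_zero_iff_mem.2 hmem
  · -- the relations
    intro m c hc hmc
    have hmax := m.isMaximal
    have hp : (ringChar (Amod O N ⧸ m.asIdeal)).Prime := by
      have hfin : Finite (Amod O N ⧸ m.asIdeal) :=
        Finite.of_surjective _ Ideal.Quotient.mk_surjective
      have hne : ringChar (Amod O N ⧸ m.asIdeal) ≠ 0 := by
        intro h0
        rw [h0, zero_dvd_iff] at hmc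
        omega
      have : CharP (Amod O N ⧸ m.asIdeal) (ringChar (Amod O N ⧸ m.asIdeal)) := ringChar.charP _
      rcases CharP.char_is_prime_or_zero (Amod O N ⧸ m.asIdeal)
        (ringChar (Amod O N ⧸ m.asIdeal)) with h | h
      · exact h
      · exact absurd h hne
    refine hs m _ hp ?_ c hc hmc
    rw [← Ideal.Quotient.eq_zero_iff_mem, map_natCast]
    exact ringChar.Nat.cast_ringChar

end Kernel

end Pool.Agent.H95.KM

end
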