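import Pool.Agent.H94.FJ.M11

/-! The parts of this file: H71.WH.Mat, H71.WH.Gam2, H71.WH.Fun, H71.KP.Stab, H71.KP.Ring, H71.KP.Dlog, H71.KP.ResDat. -/

section

/-!
# The twisted trace on matrices over `ℤ[G × G]`
-/

set_option autoImplicit false
set_option linter.unusedSectionVars false

open Matrix

universe u v w

namespace Pool.Agent.H71.WH

section Emb

variable {R : Type u} [Ring R] {ι κ μ : Type*} [Fintype ι] [DecidableEq ι] [Fintype κ]
  [DecidableEq κ] [Fintype μ] [DecidableEq μ]

/-- the matrix of an injective map -/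
def vm (R : Type u) [Ring R] {ι κ : Type*} [DecidableEq κ] (ε : ι ↪ κ) : Matrix κ ι R :=
  Matrix.of fun a i => if a = ε i then 1 else 0

theorem vm_mul (ε : ι ↪ κ) : (vm R ε)ᵀ * vm R ε = 1 := by
  ext i k
  simp only [vm, Matrix.mul_apply, transpose_apply, of_apply]
  rw [Finset.sum_eq_single (ε i)]
  · rw [if_pos rfl, one_mul, Matrix.one_apply]
    simp only [EmbeddingLike.apply_eq_iff_eq]
  · intro b _ hb
    rw [if_neg hb, zero_mul]
  · intro h
    exact absurd (Finset.mem_univ _) h

/-- Extension of matrices by zero along an injective map of the index sets. -/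
def emb (ε : ι ↪ κ) : Matrix ι ι R →ₙ+* Matrix κ κ R where
  toFun w := vm R ε * w * (vm R ε)ᵀ
  map_zero' := by rw [Matrix.mul_zero, Matrix.zero_mul]
  map_add' w w' := by rw [Matrix.mul_add, Matrix.add_mul]
  map_mul' w w' := by
    calc vm R ε * (w * w') * (vm R ε)ᵀ =
        vm R ε * w * (1 : Matrix ι ι R) * w' * (vm R ε)ᵀ := by
          rw [Matrix.mul_one]; simp only [Matrix.mul_assoc]
      _ = _ := by rw [← vm_mul ε]; simp only [Matrix.mul_assoc]

theorem emb_apply (ε : ι ↪ κ) (w : Matrix ι ι R) (i k : ι) : emb ε w (ε i) (ε k) = w i k := by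
  change (vm R ε * w * (vm R ε)ᵀ) (ε i) (ε k) = _
  rw [Matrix.mul_apply, Finset.sum_eq_single k]
  · rw [Matrix.mul_apply, Finset.sum_eq_single i]
    · simp [vm]
    · intro b _ hb
      have : ε i ≠ ε b := fun h => hb (ε.injective h).symm
      simp [vm, this]
    · intro h
      exact absurd (Finset.mem_univ _) h
  · intro b _ hb
    have : ε k ≠ ε b := fun h => hb (ε.injective h).symm
    simp [vm, this]
  · intro h
    exact absurd (Finset.mem_univ _) h

theorem emb_zero_left (ε : ι ↪ κ) (w : Matrix ι ι R) {a : κ} (h : ∀ i, a ≠ ε i) (b : κ) :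
    emb ε w a b = 0 := by
  change (vm R ε * w * (vm R ε)ᵀ) a b = _
  rw [Matrix.mul_apply]
  apply Finset.sum_eq_zero
  intro k _
  rw [Matrix.mul_apply, Finset.sum_eq_zero, zero_mul]
  intro i _
  simp [vm, h i]

theorem emb_zero_right (ε : ι ↪ κ) (w : Matrix ι ι R) (a : κ) {b : κ} (h : ∀ i, b ≠ ε i) :
    emb ε w a b = 0 := by
  change (vm R ε * w * (vm R ε)ᵀ) a b = _
  rw [Matrix.mul_apply]
  apply Finset.sum_eq_zero
  intro k _
  simp [vm, h k]

/-- Matrices of the form `emb ε w` are determined by their entries. -/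
theorem eq_emb (ε : ι ↪ κ) (w : Matrix ι ι R) (F : Matrix κ κ R)
    (h1 : ∀ i k, F (ε i) (ε k) = w i k) (h2 : ∀ a b, (∀ i, a ≠ ε i) → F a b = 0)
    (h3 : ∀ a b, (∀ i, b ≠ ε i) → F a b = 0) : F = emb ε w := by
  ext a b
  by_cases ha : ∃ i, a = ε i
  · obtain ⟨i, rfl⟩ := ha
    by_cases hb : ∃ k, b = ε k
    · obtain ⟨k, rfl⟩ := hb
      rw [h1, emb_apply]
    · push Not at hb
      rw [h3 _ _ hb, emb_zero_right _ _ _ hb]
  · push Not at ha
    rw [h2 _ _ ha, emb_zero_left _ _ ha]

/-- A non-unital homomorphism extended to the units. -/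
def unitExt {S : Type v} [Ring S] (J : R →ₙ+* S) : Rˣ →* Sˣ where
  toFun u :=
    { val := J u + (1 - J 1)
      inv := J (u⁻¹ : Rˣ) + (1 - J 1)
      val_inv := by
        have he : ∀ x : R, J x * (1 - J 1) = 0 := by
          intro x
          rw [mul_sub, mul_one, ← map_mul, mul_one, sub_self]
        have he' : ∀ x : R, (1 - J 1) * J x = 0 := by
          intro x
          rw [sub_mul, one_mul, ← map_mul, one_mul, sub_self]
        rw [add_mul, mul_add, mul_add, ← map_mul, Units.mul_inv, he, he', mul_sub, mul_one,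
          he' 1]
        abel
      inv_val := by
        have he : ∀ x : R, J x * (1 - J 1) = 0 := by
          intro x
          rw [mul_sub, mul_one, ← map_mul, mul_one, sub_self]
        have he' : ∀ x : R, (1 - J 1) * J x = 0 := by
          intro x
          rw [sub_mul, one_mul, ← map_mul, one_mul, sub_self]
        rw [add_mul, mul_add, mul_add, ← map_mul, Units.inv_mul, he, he', mul_sub, mul_one,
          he' 1]
        abel }
  map_one' := by
    apply Units.ext
    change J ((1 : Rˣ) : R) + (1 - J 1) = 1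
    rw [Units.val_one]
    abel
  map_mul' u w := by
    apply Units.ext
    change J ((u * w : Rˣ) : R) + (1 - J 1) = (J u + (1 - J 1)) * (J w + (1 - J 1))
    have he : ∀ x : R, J x * (1 - J 1) = 0 := by
      intro x
      rw [mul_sub, mul_one, ← map_mul, mul_one, sub_self]
    have he' : ∀ x : R, (1 - J 1) * J x = 0 := by
      intro x
      rw [sub_mul, one_mul, ← map_mul, one_mul, sub_self]
    rw [add_mul, mul_add, mul_add, ← map_mul, Units.val_mul, he, he', mul_sub, mul_one,
      he' 1]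
    abel

theorem unitExt_val {S : Type v} [Ring S] (J : R →ₙ+* S) (u : Rˣ) :
    (unitExt J u : S) = J u + (1 - J 1) := rfl

end Emb

section Tw


end Tw

end Pool.Agent.H71.WH

end

section

/-!
# Naturality and stability of `Gam`
-/

set_option autoImplicit false
set_option linter.unusedSectionVars false

open Matrix

universe u v w

namespace Pool.Agent.H71.WH

theorem emb_map {R S : Type*} [Ring R] [Ring S] {ι κ : Type*} [Fintype ι] [DecidableEq ι]
    [Fintype κ] [DecidableEq κ] (g : R →+* S) (ε : ι ↪ κ) (w : Matrix ι ι R) :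
    (emb ε w).map g = emb ε (w.map g) := by
  apply eq_emb
  · intro i k
    rw [Matrix.map_apply, emb_apply, Matrix.map_apply]
  · intro a b h
    rw [Matrix.map_apply, emb_zero_left _ _ h, map_zero]
  · intro a b h
    rw [Matrix.map_apply, emb_zero_right _ _ _ h, map_zero]

theorem emb_comp {R : Type*} [Ring R] {ι κ μ : Type*} [Fintype ι] [DecidableEq ι]
    [Fintype κ] [DecidableEq κ] [Fintype μ] [DecidableEq μ] (ε : ι ↪ κ) (η : κ ↪ μ)
    (w : Matrix ι ι R) : emb η (emb ε w) = emb (ε.trans η) w := by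
  symm
  apply eq_emb
  · intro i k
    by_cases hi : ∃ a, i = ε a
    · obtain ⟨a, rfl⟩ := hi
      by_cases hk : ∃ b, k = ε b
      · obtain ⟨b, rfl⟩ := hk
        rw [emb_apply]
        exact emb_apply (ε.trans η) w a b
      · push Not at hk
        rw [emb_zero_right _ _ _ hk]
        apply emb_zero_right
        intro c hc
        exact hk c (η.injective hc)
    · push Not at hi
      rw [emb_zero_left _ _ hi]
      apply emb_zero_left
      intro c hc
      exact hi c (η.injective hc)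
  · intro a b h
    exact emb_zero_left _ _ (fun i => h (ε i)) _
  · intro a b h
    exact emb_zero_right _ _ _ (fun i => h (ε i))

section Nat

variable {G : Type u} [Group G] {H : Type w} [Group H] (φ : G →* H)

variable {ι : Type v} [Fintype ι] [DecidableEq ι]

end Nat

end Pool.Agent.H71.WH

end

section

/-!
# The functionals on the Whitehead group and on the colimit
-/

set_option autoImplicit false
set_option linter.unusedSectionVars false
set_option linter.unusedSimpArgs false

open Matrix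
open scoped Classical

universe u v w

namespace Pool.Agent.H71.WH

theorem blockOne_eq {R : Type u} [Ring R] {n : ℕ} (a : Matrix (Fin n) (Fin n) R) :
    blockOne a = emb (Fin.castAddEmb 1) a + (1 - emb (Fin.castAddEmb 1) 1) := by
  have hc : ∀ (j : Fin 1) (i : Fin n), Fin.natAdd n j ≠ Fin.castAddEmb 1 i := by
    intro j i h
    have := congrArg Fin.val h
    simp at this
    omega
  have hb : ∀ i j, blockOne a i j = (fromBlocks a 0 0 1) (finSumFinEquiv.symm i)
      (finSumFinEquiv.symm j) := fun _ _ => rfl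
  ext i j
  rw [hb, Matrix.add_apply, Matrix.sub_apply]
  refine Fin.addCases (fun i' => ?_) (fun i' => ?_) i
  · refine Fin.addCases (fun j' => ?_) (fun j' => ?_) j
    · rw [finSumFinEquiv_symm_apply_castAdd, finSumFinEquiv_symm_apply_castAdd,
        fromBlocks_apply₁₁]
      have h1 := emb_apply (R := R) (Fin.castAddEmb 1) a i' j'
      have h2 := emb_apply (R := R) (Fin.castAddEmb 1) 1 i' j'
      change emb (Fin.castAddEmb 1) a (Fin.castAdd 1 i') (Fin.castAdd 1 j') = _ at h1
      change emb (Fin.castAddEmb 1) 1 (Fin.castAdd 1 i') (Fin.castAdd 1 j') = _ at h2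
      rw [h1, h2]
      by_cases hij : i' = j'
      · subst hij
        rw [Matrix.one_apply_eq, Matrix.one_apply_eq, sub_self, add_zero]
      · rw [Matrix.one_apply_ne hij, Matrix.one_apply_ne, sub_self, add_zero]
        intro h
        exact hij (Fin.castAdd_injective _ _ h)
    · have h0 : (1 : Matrix (Fin (n + 1)) (Fin (n + 1)) R) (Fin.castAdd 1 i')
          (Fin.natAdd n j') = 0 := Matrix.one_apply_ne (fun h => hc j' i' h.symm)
      rw [finSumFinEquiv_symm_apply_castAdd, finSumFinEquiv_symm_apply_natAdd,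
        fromBlocks_apply₁₂, emb_zero_right _ _ _ (hc j'), emb_zero_right _ _ _ (hc j'), h0]
      simp
  · refine Fin.addCases (fun j' => ?_) (fun j' => ?_) j
    · have h0 : (1 : Matrix (Fin (n + 1)) (Fin (n + 1)) R) (Fin.natAdd n i')
          (Fin.castAdd 1 j') = 0 := Matrix.one_apply_ne (hc i' j')
      rw [finSumFinEquiv_symm_apply_castAdd, finSumFinEquiv_symm_apply_natAdd,
        fromBlocks_apply₂₁, emb_zero_left _ _ (hc i'), emb_zero_left _ _ (hc i'), h0]
      simp
    · rw [finSumFinEquiv_symm_apply_natAdd, finSumFinEquiv_symm_apply_natAdd,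
        fromBlocks_apply₂₂, emb_zero_left _ _ (hc i'), emb_zero_left _ _ (hc i')]
      have : i' = j' := Subsingleton.elim _ _
      subst this
      rw [Matrix.one_apply_eq, Matrix.one_apply_eq]
      simp

section G

variable {G : Type v} [Group G] (f : G → ℤ) (hf : ∀ x y, f (x * y) = f (y * x))

end G

end Pool.Agent.H71.WH

end

section

/-!
# Stabilisation, change of rings for `K₁`, and the functionals on `K₁(ℤ_[p][G])`
-/

set_option autoImplicit false
set_option linter.unusedSectionVars false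
set_option linter.unusedSimpArgs false

open Matrix Filter
open scoped Classical

universe u v w

namespace Pool.Agent.H71.KP

open Pool.Agent.H71.WH (emb emb_apply unitExt unitExt_val emb_comp emb_map blockOne_eq InvMat K1 K1.mk K1.unit K1Rel genK1 addOne oneByOne blockOne CycSub conjHom K1.mk_mul K1.unit_mul)

section Stab

variable {A : Type u} [Ring A] {n N : ℕ}

/-- stabilisation of invertible matrices -/
def stU (h : n ≤ N) : (Matrix (Fin n) (Fin n) A)ˣ →* (Matrix (Fin N) (Fin N) A)ˣ :=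
  unitExt (emb (Fin.castLEEmb h))

theorem stU_val (h : n ≤ N) (x : (Matrix (Fin n) (Fin n) A)ˣ) :
    (stU h x : Matrix (Fin N) (Fin N) A) =
      emb (Fin.castLEEmb h) (x : Matrix (Fin n) (Fin n) A) + (1 - emb (Fin.castLEEmb h) 1) := rfl

theorem stU_addOne (h : n + 1 ≤ N) (x : (Matrix (Fin n) (Fin n) A)ˣ) :
    stU h (addOne x) = stU ((Nat.le_succ n).trans h) x := by
  have h1 : (Fin.castAddEmb 1 : Fin n ↪ Fin (n + 1)).trans (Fin.castLEEmb h) =
      Fin.castLEEmb ((Nat.le_succ n).trans h) := by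
    ext i
    rfl
  apply Units.ext
  rw [stU_val, stU_val]
  change emb (Fin.castLEEmb h) (blockOne (x : Matrix (Fin n) (Fin n) A)) + _ = _
  rw [blockOne_eq, map_add, map_sub, emb_comp, emb_comp, h1]
  abel

variable {B : Type v} [Ring B] (φ : A →+* B)

/-- change of rings for invertible matrices -/
def mapGL (φ : A →+* B) (n : ℕ) : (Matrix (Fin n) (Fin n) A)ˣ →* (Matrix (Fin n) (Fin n) B)ˣ :=
  Units.map (RingHom.mapMatrix φ).toMonoidHom

theorem mapGL_val (x : (Matrix (Fin n) (Fin n) A)ˣ) :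
    (mapGL φ n x : Matrix (Fin n) (Fin n) B) = (x : Matrix (Fin n) (Fin n) A).map φ := rfl

theorem mapGL_stU (h : n ≤ N) (x : (Matrix (Fin n) (Fin n) A)ˣ) :
    mapGL φ N (stU h x) = stU h (mapGL φ n x) := by
  apply Units.ext
  rw [mapGL_val, stU_val, stU_val, mapGL_val, ← emb_map]
  have h1 : emb (R := B) (Fin.castLEEmb h) 1 =
      ((emb (R := A) (Fin.castLEEmb h) 1).map φ) := by
    rw [emb_map, Matrix.map_one φ (map_zero φ) (map_one φ)]
  rw [h1, Matrix.map_add φ (map_add φ), Matrix.map_sub φ (map_sub φ),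
    Matrix.map_one φ (map_zero φ) (map_one φ)]

theorem mapGL_addOne (x : (Matrix (Fin n) (Fin n) A)ˣ) :
    mapGL φ (n + 1) (addOne x) = addOne (mapGL φ n x) := by
  apply Units.ext
  change (blockOne (x : Matrix (Fin n) (Fin n) A)).map φ =
    blockOne ((x : Matrix (Fin n) (Fin n) A).map φ)
  rw [blockOne, blockOne, ← Matrix.submatrix_map, Matrix.fromBlocks_map,
    Matrix.map_one φ (map_zero φ) (map_one φ), Matrix.map_zero φ (map_zero φ),
    Matrix.map_zero φ (map_zero φ)]

theorem mapGL_oneByOne (x : Aˣ) : mapGL φ 1 (oneByOne x) = oneByOne (Units.map φ.toMonoidHom x) := by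
  apply Units.ext
  refine Matrix.ext fun i j => ?_
  have hij : i = j := Subsingleton.elim _ _
  subst hij
  rw [mapGL_val, Matrix.map_apply]
  change φ (Matrix.diagonal (fun _ => (x : A)) i i) = Matrix.diagonal (fun _ => φ (x : A)) i i
  rw [Matrix.diagonal_apply_eq, Matrix.diagonal_apply_eq]

/-- the map on the free abelian group -/
def K1mapFree (φ : A →+* B) : FreeAbelianGroup (InvMat A) →+ K1 B :=
  FreeAbelianGroup.lift fun a => K1.mk (mapGL φ a.n a.mat)

theorem K1.mk_addOne (x : (Matrix (Fin n) (Fin n) A)ˣ) : K1.mk (addOne x) = K1.mk x := by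
  rw [K1.mk, K1.mk, ← sub_eq_zero]
  exact (QuotientAddGroup.eq_zero_iff _).2 (AddSubgroup.subset_closure (Or.inr ⟨n, x, rfl⟩))

theorem K1mapFree_le (φ : A →+* B) : K1Rel A ≤ (K1mapFree φ).ker := by
  rw [K1Rel, AddSubgroup.closure_le]
  rintro z (⟨n, x, y, rfl⟩ | ⟨n, x, rfl⟩)
  · change K1mapFree φ (genK1 (x * y) - (genK1 x + genK1 y)) = 0
    rw [K1mapFree, map_sub, map_add, genK1, genK1, genK1, FreeAbelianGroup.lift_apply_of,
      FreeAbelianGroup.lift_apply_of, FreeAbelianGroup.lift_apply_of]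
    refine sub_eq_zero.2 ?_
    rw [← K1.mk_mul, ← map_mul]
  · change K1mapFree φ (genK1 (addOne x) - genK1 x) = 0
    rw [K1mapFree, map_sub, genK1, genK1, FreeAbelianGroup.lift_apply_of,
      FreeAbelianGroup.lift_apply_of]
    refine sub_eq_zero.2 ?_
    rw [← K1.mk_addOne (mapGL φ n x), ← mapGL_addOne]

/-- The map `K₁(A) → K₁(B)` induced by a ring homomorphism. -/
def K1map (φ : A →+* B) : K1 A →+ K1 B :=
  QuotientAddGroup.lift (K1Rel A) (K1mapFree φ) (K1mapFree_le φ)

theorem K1map_mk (x : (Matrix (Fin n) (Fin n) A)ˣ) :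
    K1map φ (K1.mk x) = K1.mk (mapGL φ n x) := FreeAbelianGroup.lift_apply_of _ _

theorem K1map_unit (x : Aˣ) : K1map φ (K1.unit x) = K1.unit (Units.map φ.toMonoidHom x) := by
  rw [K1.unit, K1map_mk, mapGL_oneByOne]
  rfl

end Stab

end Pool.Agent.H71.KP

end

section

/-!
# Change of rings for the colimit and the Whitehead groups
-/

set_option autoImplicit false
set_option linter.unusedSectionVars false

open Matrix

universe u v w t

namespace Pool.Agent.H71.KP

open Pool.Agent.H71.WH (K1 K1.mk K1.unit CycSub conjHom)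

theorem cyc_comm {D : Type w} [Group D] [IsCyclic D] (a b : D) : a * b = b * a := by
  obtain ⟨g, hg⟩ := IsCyclic.exists_generator (α := D)
  obtain ⟨m, rfl⟩ := Subgroup.mem_zpowers_iff.1 (hg a)
  obtain ⟨n, rfl⟩ := Subgroup.mem_zpowers_iff.1 (hg b)
  rw [← _root_.zpow_add, ← _root_.zpow_add, add_comm]

section Cl

variable {R : Type u} [CommRing R] {G : Type v} [Group G]

/-- the quotient map -/
def toColim (R : Type u) [CommRing R] (G : Type v) [Group G] :
    FreeAbelianGroup (CycUnit R G) →+ ColimU R G :=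
  QuotientAddGroup.mk' (colimRel R G)

/-- the class of a unit -/
def cl (C : CycSub G) (x : (MonoidAlgebra R C.1)ˣ) : ColimU R G :=
  toColim R G (gen C x)

theorem cl_mul (C : CycSub G) (x y : (MonoidAlgebra R C.1)ˣ) :
    cl C (x * y) = cl C x + cl C y := by
  rw [cl, cl, cl, ← sub_eq_zero, ← map_add, ← map_sub]
  exact (QuotientAddGroup.eq_zero_iff _).2 (AddSubgroup.subset_closure (Or.inl ⟨C, x, y, rfl⟩))

theorem cl_conj (C C' : CycSub G) (g : G) (h : ∀ a ∈ C.1, g * a * g⁻¹ ∈ C'.1)
    (x : (MonoidAlgebra R C.1)ˣ) : cl C' (unitsMap (conjHom g C.1 C'.1 h) x) = cl C x := by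
  rw [cl, cl, ← sub_eq_zero, ← map_sub]
  exact (QuotientAddGroup.eq_zero_iff _).2
    (AddSubgroup.subset_closure (Or.inr ⟨C, C', g, h, x, rfl⟩))

/-- the class as a homomorphism -/
noncomputable def clM (C : CycSub G) : (MonoidAlgebra R C.1)ˣ →* Multiplicative (ColimU R G) :=
  MonoidHom.mk' (fun x => Multiplicative.ofAdd (cl C x)) (cl_mul C)

theorem cl_one (C : CycSub G) : cl C (1 : (MonoidAlgebra R C.1)ˣ) = 0 := map_one (clM C)

theorem cl_pow (C : CycSub G) (x : (MonoidAlgebra R C.1)ˣ) (n : ℕ) :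
    cl C (x ^ n) = n • cl C x := map_pow (clM C) x n

theorem cl_inv (C : CycSub G) (x : (MonoidAlgebra R C.1)ˣ) :
    cl C x⁻¹ = -cl C x := map_inv (clM C) x

theorem cl_list (C : CycSub G) (l : List (MonoidAlgebra R C.1)ˣ) :
    cl C l.prod = (l.map (cl C)).sum := by
  induction l with
  | nil => exact cl_one C
  | cons a l ih => rw [List.prod_cons, cl_mul, ih, List.map_cons, List.sum_cons]

theorem assembly_cl (C : CycSub G) (x : (MonoidAlgebra R C.1)ˣ) :
    assembly R G (cl C x) = incWh C x := FreeAbelianGroup.lift_apply_of _ _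

theorem colim_induction {P : ColimU R G → Prop} (h0 : P 0)
    (h1 : ∀ (C : CycSub G) (x : (MonoidAlgebra R C.1)ˣ), P (cl C x))
    (h2 : ∀ a b, P a → P b → P (a + b)) (z : ColimU R G) : P z := by
  obtain ⟨y, rfl⟩ : ∃ y, toColim R G y = z := QuotientAddGroup.mk_surjective z
  induction y using FreeAbelianGroup.induction_on with
  | zero => rw [map_zero]; exact h0
  | of x => exact h1 x.C x.x
  | neg x _ =>
    rw [map_neg]
    change P (-cl x.C x.x)
    rw [← cl_inv]
    exact h1 _ _
  | add x y hx hy => rw [map_add]; exact h2 _ _ hx hy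

end Cl

section Lift

variable {R : Type u} [CommRing R] {G : Type v} [Group G] {A : Type w} [AddCommGroup A]

/-- Homomorphisms from the colimit. -/
theorem exists_lift (e : ∀ C : CycSub G, (MonoidAlgebra R C.1)ˣ → A)
    (hm : ∀ C x y, e C (x * y) = e C x + e C y)
    (hc : ∀ (C C' : CycSub G) (g : G) (h : ∀ a ∈ C.1, g * a * g⁻¹ ∈ C'.1) x,
      e C' (unitsMap (conjHom g C.1 C'.1 h) x) = e C x) :
    ∃ F : ColimU R G →+ A, ∀ C x, F (cl C x) = e C x := by
  let E : FreeAbelianGroup (CycUnit R G) →+ A := FreeAbelianGroup.lift fun a => e a.C a.x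
  have hE : colimRel R G ≤ E.ker := by
    rw [colimRel, AddSubgroup.closure_le]
    rintro z (⟨C, x, y, rfl⟩ | ⟨C, C', g, h, x, rfl⟩)
    · change E (gen C (x * y) - (gen C x + gen C y)) = 0
      rw [map_sub, map_add, gen, gen, gen, FreeAbelianGroup.lift_apply_of,
        FreeAbelianGroup.lift_apply_of, FreeAbelianGroup.lift_apply_of]
      exact sub_eq_zero.2 (hm C x y)
    · change E (gen C' (unitsMap (conjHom g C.1 C'.1 h) x) - gen C x) = 0
      rw [map_sub, gen, gen, FreeAbelianGroup.lift_apply_of, FreeAbelianGroup.lift_apply_of]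
      exact sub_eq_zero.2 (hc C C' g h x)
  exact ⟨QuotientAddGroup.lift (colimRel R G) E hE,
    fun C x => FreeAbelianGroup.lift_apply_of _ _⟩

end Lift

section Ring

variable {R : Type u} [CommRing R] {S : Type t} [CommRing S] (φ : R →+* S)

/-- change of rings for units of group rings -/
noncomputable def uMap (H : Type v) [Group H] : (MonoidAlgebra R H)ˣ →* (MonoidAlgebra S H)ˣ :=
  Units.map (MonoidAlgebra.mapRingHom H φ).toMonoidHom

theorem uMap_val (H : Type v) [Group H] (x : (MonoidAlgebra R H)ˣ) :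
    (uMap φ H x : MonoidAlgebra S H) = MonoidAlgebra.mapRingHom H φ (x : MonoidAlgebra R H) := rfl

theorem uMap_unitsMap {F : Type v} {F' : Type w} [Group F] [Group F'] (ψ : F →* F')
    (x : (MonoidAlgebra R F)ˣ) : uMap φ F' (unitsMap ψ x) = unitsMap ψ (uMap φ F x) := by
  apply Units.ext
  exact congrArg (fun g : MonoidAlgebra R F →+* MonoidAlgebra S F' => g x)
    (MonoidAlgebra.mapRingHom_comp_mapDomainRingHom φ ψ)

variable (G : Type v) [Group G]

theorem exists_ringMap : ∃ F : ColimU R G →+ ColimU S G,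
    ∀ C x, F (cl C x) = cl C (uMap φ C.1 x) := by
  refine exists_lift (fun C x => cl C (uMap φ C.1 x)) ?_ ?_
  · intro C x y
    rw [map_mul, cl_mul]
  · intro C C' g h x
    rw [uMap_unitsMap, cl_conj]

/-- change of rings for the colimit -/
noncomputable def colimMap : ColimU R G →+ ColimU S G := (exists_ringMap φ G).choose

theorem colimMap_cl (C : CycSub G) (x : (MonoidAlgebra R C.1)ˣ) :
    colimMap φ G (cl C x) = cl C (uMap φ C.1 x) := (exists_ringMap φ G).choose_spec C x

theorem K1map_trivial :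
    trivialK1 R G ≤ (trivialK1 S G).comap (K1map (MonoidAlgebra.mapRingHom G φ)) := by
  rw [trivialK1, AddSubgroup.closure_le]
  rintro z ⟨x, ⟨g, e, he, hx⟩, rfl⟩
  refine AddSubgroup.subset_closure ⟨uMap φ G x, ⟨g, φ e, ?_, ?_⟩, ?_⟩
  · rcases he with rfl | rfl
    · exact Or.inl (map_one φ)
    · exact Or.inr (by rw [map_neg, map_one])
  · rw [uMap_val, hx, MonoidAlgebra.mapRingHom_single]
  · exact (K1map_unit _ x).symm

/-- change of rings for `Wh` -/
noncomputable def whMap : Wh R G →+ Wh S G :=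
  QuotientAddGroup.map (trivialK1 R G) (trivialK1 S G) (K1map (MonoidAlgebra.mapRingHom G φ))
    (K1map_trivial φ G)

theorem whMap_unit (x : (MonoidAlgebra R G)ˣ) : whMap φ G (Wh.unit x) = Wh.unit (uMap φ G x) := by
  change (QuotientAddGroup.mk (K1map (MonoidAlgebra.mapRingHom G φ) (K1.unit x)) : Wh S G) = _
  rw [K1map_unit]
  rfl

theorem whMap_incWh (C : CycSub G) (x : (MonoidAlgebra R C.1)ˣ) :
    whMap φ G (incWh C x) = incWh C (uMap φ C.1 x) := by
  rw [incWh, whMap_unit, uMap_unitsMap]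
  rfl

theorem whMap_assembly (z : ColimU R G) :
    whMap φ G (assembly R G z) = assembly S G (colimMap φ G z) := by
  induction z using colim_induction with
  | h0 => rw [map_zero, map_zero, map_zero, map_zero]
  | h1 C x => rw [assembly_cl, whMap_incWh, colimMap_cl, assembly_cl]
  | h2 a b ha hb => rw [map_add, map_add, ha, hb, map_add, map_add]

end Ring

end Pool.Agent.H71.KP

end

section

/-!
# Logarithmic derivatives and traces
-/

set_option autoImplicit false

universe u v w t

namespace Pool.Agent.H71.KP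

/-- A derivation `D` of a ring `M` and a trace `τ` vanishing on the image of `D`. -/
structure DT (M : Type u) [Ring M] (B : Type v) [AddCommGroup B] where
  /-- the derivation -/
  D : M →+ M
  leib : ∀ x y, D (x * y) = D x * y + x * D y
  /-- the trace -/
  τ : M →+ B
  comm : ∀ x y, τ (x * y) = τ (y * x)
  τD : ∀ x, τ (D x) = 0

namespace DT

variable {M : Type u} [Ring M] {B : Type v} [AddCommGroup B] (t : DT M B)

/-- the logarithmic derivative -/
def dlog (u : Mˣ) : B := t.τ (((u⁻¹ : Mˣ) : M) * t.D (u : M))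

theorem dlog_mul (u v : Mˣ) : t.dlog (u * v) = t.dlog u + t.dlog v := by
  rw [dlog, dlog, dlog, Units.val_mul, t.leib, mul_inv_rev, Units.val_mul]
  have h1 : ((v⁻¹ : Mˣ) : M) * ((u⁻¹ : Mˣ) : M) * (t.D (u : M) * v + u * t.D (v : M)) =
      ((v⁻¹ : Mˣ) : M) * (((u⁻¹ : Mˣ) : M) * t.D (u : M) * v) +
        ((v⁻¹ : Mˣ) : M) * ((((u⁻¹ : Mˣ) : M) * u) * t.D (v : M)) := by
    noncomm_ring
  rw [h1, Units.inv_mul, one_mul, map_add, t.comm, mul_assoc, Units.mul_inv, mul_one]

theorem D_one : t.D 1 = 0 := by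
  have h := t.leib 1 1
  rw [mul_one, one_mul, mul_one] at h
  exact add_eq_left.1 h.symm

theorem τ_pow (a : M) (k j : ℕ) :
    t.τ (a ^ j * t.D (a ^ (k + 1))) = (k + 1) • t.τ (a ^ (j + k) * t.D a) := by
  induction k generalizing j with
  | zero => simp
  | succ k ih =>
    rw [pow_succ a (k + 1), t.leib, mul_add, map_add, ← mul_assoc, t.comm, ← mul_assoc, ← pow_succ',
      ih, ← mul_assoc, ← pow_add, add_smul, one_smul, add_smul, one_smul]
    have e1 : j + 1 + k = j + (k + 1) := by ring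
    rw [e1, add_smul, one_smul]

theorem succ_smul (a : M) (k : ℕ) : (k + 1) • t.τ (a ^ k * t.D a) = 0 := by
  have h := t.τ_pow a k 0
  rw [pow_zero, one_mul, t.τD, zero_add] at h
  exact h.symm

variable {p : ℕ} [hp : Fact p.Prime]

theorem pow_smul_eq_zero {n : ℕ} (hB : ∀ b : B, p ^ n • b = 0) (a : M) (k : ℕ) :
    p ^ (k + 1) • t.τ (a ^ k * t.D a) = 0 := by
  have h1 : addOrderOf (t.τ (a ^ k * t.D a)) ∣ p ^ n := addOrderOf_dvd_of_nsmul_eq_zero (hB _)
  have h2 : addOrderOf (t.τ (a ^ k * t.D a)) ∣ k + 1 :=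
    addOrderOf_dvd_of_nsmul_eq_zero (t.succ_smul a k)
  obtain ⟨j, _, hj⟩ := (Nat.dvd_prime_pow hp.out).1 h1
  rw [hj] at h2
  have h3 : j < p ^ j := Nat.lt_pow_self hp.out.one_lt
  have h4 : p ^ j ≤ k + 1 := Nat.le_of_dvd (Nat.succ_pos k) h2
  apply addOrderOf_dvd_iff_nsmul_eq_zero.1
  rw [hj]
  exact pow_dvd_pow p (by omega)

/-- The logarithmic derivative of units congruent to `1` modulo `p` vanishes. -/
theorem dlog_eq_zero {n : ℕ} (hB : ∀ b : B, p ^ n • b = 0) (hM : (p : M) ^ n = 0) (u : Mˣ) (a : M)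
    (hu : (u : M) = 1 + (p : M) * a) : t.dlog u = 0 := by
  have hcomm : ∀ (x : M) (i : ℕ), x * (p : M) ^ i = (p : M) ^ i * x := fun x i =>
    ((Nat.cast_commute p x).symm.pow_right i).eq
  have hpow : ∀ k, (-((p : M) * a)) ^ k = (-1) ^ k * ((p : M) ^ k * a ^ k) := by
    intro k
    rw [neg_pow, (Nat.cast_commute p a).mul_pow]
  have hinv : ((u⁻¹ : Mˣ) : M) = ∑ k ∈ Finset.range n, (-((p : M) * a)) ^ k := by
    have h1 : (u : M) * ∑ k ∈ Finset.range n, (-((p : M) * a)) ^ k = 1 := by
      have h2 := mul_neg_geom_sum (-((p : M) * a)) n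
      rw [sub_neg_eq_add] at h2
      rw [hu, h2, hpow, hM, zero_mul, mul_zero, sub_zero]
    calc ((u⁻¹ : Mˣ) : M) = ((u⁻¹ : Mˣ) : M) *
          ((u : M) * ∑ k ∈ Finset.range n, (-((p : M) * a)) ^ k) := by rw [h1, mul_one]
      _ = _ := by rw [← mul_assoc, Units.inv_mul, one_mul]
  have hD : t.D (u : M) = (p : M) * t.D a := by
    rw [hu, map_add, t.D_one, zero_add, ← nsmul_eq_mul, map_nsmul, nsmul_eq_mul]
  rw [dlog, hinv, hD, Finset.sum_mul, map_sum]
  apply Finset.sum_eq_zero
  intro k _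
  have h3 : (-((p : M) * a)) ^ k * ((p : M) * t.D a) =
      ((-1) ^ k : ℤ) • (p ^ (k + 1) • (a ^ k * t.D a)) := by
    rw [hpow, nsmul_eq_mul, zsmul_eq_mul]
    push_cast
    rw [pow_succ (p : M) k, mul_assoc ((-1) ^ k), mul_assoc ((p : M) ^ k), mul_assoc ((p : M) ^ k),
      ← mul_assoc (a ^ k), ← mul_assoc (p : M)]
    congr 3
    have := hcomm (a ^ k) 1
    rwa [pow_one] at this
  rw [h3, map_zsmul, map_nsmul, t.pow_smul_eq_zero hB, smul_zero]

end DT

/-- Naturality of the logarithmic derivative. -/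
theorem dlog_map {M : Type u} [Ring M] {M' : Type w} [Ring M'] {B : Type v} [AddCommGroup B]
    {B' : Type t} [AddCommGroup B'] (s : DT M B) (s' : DT M' B') (φ : M →+* M') (β : B →+ B')
    (hD : ∀ x, s'.D (φ x) = φ (s.D x)) (hτ : ∀ x, s'.τ (φ x) = β (s.τ x)) (u : Mˣ) :
    s'.dlog (Units.map φ.toMonoidHom u) = β (s.dlog u) := by
  rw [DT.dlog, DT.dlog, ← hτ, map_mul φ, ← hD, ← map_inv]
  rfl

end Pool.Agent.H71.KP

end

section

/-!
# The residue functionals on `K₁` in positive characteristic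
-/

set_option autoImplicit false
set_option linter.unusedSectionVars false
set_option linter.unusedSimpArgs false

open Matrix

universe u v w t

namespace Pool.Agent.H71.KP

open Pool.Agent.H71.WH (emb emb_apply unitExt unitExt_val emb_comp emb_map blockOne_eq InvMat K1 K1.mk K1.unit K1Rel genK1 addOne oneByOne blockOne CycSub conjHom K1.mk_mul K1.unit_mul emb_zero_left eq_emb emb_zero_right)

section Mat

variable {M : Type u} [Ring M] {B : Type v} [AddCommGroup B] (t : DT M B)

/-- the structure on matrices -/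
def DT.mat (ι : Type w) [Fintype ι] [DecidableEq ι] : DT (Matrix ι ι M) B where
  D :=
    { toFun := fun x => x.map t.D
      map_zero' := Matrix.map_zero _ (map_zero t.D)
      map_add' := fun x y => Matrix.map_add _ (map_add t.D) x y }
  leib x y := by
    refine Matrix.ext fun i j => ?_
    change t.D ((x * y) i j) = (x.map t.D * y + x * y.map t.D) i j
    rw [Matrix.mul_apply, map_sum, Matrix.add_apply, Matrix.mul_apply, Matrix.mul_apply,
      ← Finset.sum_add_distrib]
    exact Finset.sum_congr rfl fun k _ => t.leib _ _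
  τ :=
    { toFun := fun x => ∑ i, t.τ (x i i)
      map_zero' := by simp
      map_add' := fun x y => by simp [Finset.sum_add_distrib] }
  comm x y := by
    change ∑ i, t.τ ((x * y) i i) = ∑ i, t.τ ((y * x) i i)
    simp only [Matrix.mul_apply, map_sum]
    rw [Finset.sum_comm]
    exact Finset.sum_congr rfl fun i _ => Finset.sum_congr rfl fun k _ => t.comm _ _
  τD x := Finset.sum_eq_zero fun i _ => t.τD (x i i)

theorem DT.mat_D {ι : Type w} [Fintype ι] [DecidableEq ι] (x : Matrix ι ι M) :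
    (t.mat ι).D x = x.map t.D := rfl

theorem DT.mat_τ {ι : Type w} [Fintype ι] [DecidableEq ι] (x : Matrix ι ι M) :
    (t.mat ι).τ x = ∑ i, t.τ (x i i) := rfl

theorem emb_map_D {ι κ : Type*} [Fintype ι] [DecidableEq ι] [Fintype κ] [DecidableEq κ]
    (ε : ι ↪ κ) (w : Matrix ι ι M) : (emb ε w).map t.D = emb ε (w.map t.D) := by
  apply eq_emb
  · intro i k
    rw [Matrix.map_apply, emb_apply, Matrix.map_apply]
  · intro a b h
    rw [Matrix.map_apply, emb_zero_left _ _ h, map_zero]
  · intro a b h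
    rw [Matrix.map_apply, emb_zero_right _ _ _ h, map_zero]

theorem τ_emb {ι κ : Type*} [Fintype ι] [DecidableEq ι] [Fintype κ] [DecidableEq κ]
    (ε : ι ↪ κ) (w : Matrix ι ι M) : (t.mat κ).τ (emb ε w) = (t.mat ι).τ w := by
  rw [t.mat_τ, t.mat_τ]
  have h1 : ∑ i, t.τ (w i i) = ∑ i, t.τ (emb ε w (ε i) (ε i)) := by
    simp only [emb_apply]
  rw [h1, ← Finset.sum_map Finset.univ ε (fun j => t.τ (emb ε w j j))]
  symm
  apply Finset.sum_subset (Finset.subset_univ _)
  intro j _ hj
  rw [emb_zero_left, map_zero]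
  intro i hi
  exact hj (Finset.mem_map.2 ⟨i, Finset.mem_univ _, hi.symm⟩)

theorem dlog_addOne {n : ℕ} (x : (Matrix (Fin n) (Fin n) M)ˣ) :
    (t.mat (Fin (n + 1))).dlog (addOne x) = (t.mat (Fin n)).dlog x := by
  have h0 : (t.mat (Fin n)).D 1 = 0 := (t.mat (Fin n)).D_one
  have h1 : (t.mat (Fin (n + 1))).D (addOne x : Matrix (Fin (n + 1)) (Fin (n + 1)) M) =
      emb (Fin.castAddEmb 1) ((t.mat (Fin n)).D (x : Matrix (Fin n) (Fin n) M)) := by
    have e1 : (addOne x : Matrix (Fin (n + 1)) (Fin (n + 1)) M) =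
      emb (Fin.castAddEmb 1) (x : Matrix (Fin n) (Fin n) M) +
        (1 - emb (Fin.castAddEmb 1) 1) := blockOne_eq _
    rw [e1, map_add, map_sub, (t.mat (Fin (n + 1))).D_one, t.mat_D, t.mat_D, emb_map_D, emb_map_D,
      ← t.mat_D, ← t.mat_D, h0, map_zero, sub_zero, add_zero]
  have h2 : (((addOne x)⁻¹ : (Matrix (Fin (n + 1)) (Fin (n + 1)) M)ˣ) :
      Matrix (Fin (n + 1)) (Fin (n + 1)) M) =
      emb (Fin.castAddEmb 1) ((x⁻¹ : (Matrix (Fin n) (Fin n) M)ˣ) : Matrix (Fin n) (Fin n) M) +
        (1 - emb (Fin.castAddEmb 1) 1) := blockOne_eq _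
  rw [DT.dlog, DT.dlog, h1, h2, add_mul, sub_mul, one_mul, ← map_mul, ← map_mul, one_mul, sub_self,
    add_zero, τ_emb]

theorem dlog_oneByOne (x : Mˣ) : (t.mat (Fin 1)).dlog (oneByOne x) = t.dlog x := by
  refine dlog_map t (t.mat (Fin 1)) (scalar (Fin 1)) (AddMonoidHom.id B) ?_ ?_ x
  · intro x
    rw [t.mat_D]
    refine Matrix.ext fun i j => ?_
    have hij : i = j := Subsingleton.elim _ _
    subst hij
    rw [Matrix.map_apply]
    change t.D (Matrix.diagonal (fun _ => x) i i) = Matrix.diagonal (fun _ => t.D x) i i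
    rw [Matrix.diagonal_apply_eq, Matrix.diagonal_apply_eq]
  · intro x
    rw [t.mat_τ]
    simp

end Mat

section Lift

/-- Units lift along surjections with nilpotent kernel. -/
theorem exists_unit_lift_nil {A : Type u} {k : Type v} [Ring A] [Ring k] (φ : A →+* k)
    (hs : Function.Surjective φ) (hn : ∀ a, φ a = 0 → IsNilpotent a) (u : kˣ) :
    ∃ x : Aˣ, Units.map φ.toMonoidHom x = u := by
  obtain ⟨a, ha⟩ := hs (u : k)
  obtain ⟨b, hb⟩ := hs ((u⁻¹ : kˣ) : k)
  have h1 : IsUnit (a * b) := by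
    have h2 : IsNilpotent (a * b - 1) := hn _ (by
      rw [map_sub, map_mul, ha, hb, map_one, Units.mul_inv, sub_self])
    have := h2.isUnit_one_add
    rwa [add_sub_cancel] at this
  have h2 : IsUnit (b * a) := by
    have h2 : IsNilpotent (b * a - 1) := hn _ (by
      rw [map_sub, map_mul, ha, hb, map_one, Units.inv_mul, sub_self])
    have := h2.isUnit_one_add
    rwa [add_sub_cancel] at this
  obtain ⟨c, hc⟩ := h1
  obtain ⟨d, hd⟩ := h2
  have h3 : a * (b * ((c⁻¹ : Aˣ) : A)) = 1 := by rw [← mul_assoc, ← hc, Units.mul_inv]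
  have h4 : ((d⁻¹ : Aˣ) : A) * b * a = 1 := by rw [mul_assoc, ← hd, Units.inv_mul]
  have h5 : ((d⁻¹ : Aˣ) : A) * b = b * ((c⁻¹ : Aˣ) : A) := left_inv_eq_right_inv h4 h3
  refine ⟨⟨a, b * ((c⁻¹ : Aˣ) : A), h3, by rw [← h5, h4]⟩, ?_⟩
  apply Units.ext
  exact ha

end Lift

end Pool.Agent.H71.KP

end
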