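import Pool.Agent.H94.FJ.H71.WH.Formal
import Pool.Agent.H94.FJ.H71.WH.Log

/-! The parts of this file: H71.KP.Formal, H71.KP.Log, H71.KP.Log2, H71.KP.Skew. -/

section

/-!
# The formal identity behind the additivity of the trace of the logarithm (field valued traces)
-/

set_option autoImplicit false

open Polynomial
open Pool.Agent.H71.WH (Van geo van_pow van_geo_mul van_mul_geo derivative_pow_nc)

universe u v

namespace Pool.Agent.H71.KP

variable {R : Type u} [Ring R] {A : Type v} [Field A]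

theorem coeff_trace (τ : R →+ A) (hτ : ∀ a b, τ (a * b) = τ (b * a)) (P Q : R[X]) (n : ℕ) :
    τ ((P * Q).coeff n) = τ ((Q * P).coeff n) := by
  rw [coeff_mul, coeff_mul, map_sum, map_sum,
    ← Finset.Nat.sum_antidiagonal_swap (f := fun p => τ (Q.coeff p.1 * P.coeff p.2))]
  apply Finset.sum_congr rfl
  intro p _
  exact hτ _ _

theorem trace_derivative_pow (τ : R →+ A) (hτ : ∀ a b, τ (a * b) = τ (b * a)) (B : R[X])
    (k n : ℕ) : τ ((derivative (B ^ (k + 1))).coeff n) =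
      (k + 1) * τ ((B ^ k * derivative B).coeff n) := by
  rw [derivative_pow_nc, finsetSum_coeff, map_sum]
  have : ∀ i ∈ Finset.range (k + 1), τ ((B ^ i * derivative B * B ^ (k - i)).coeff n) =
      τ ((B ^ k * derivative B).coeff n) := by
    intro i hi
    have hik : i ≤ k := Nat.lt_succ_iff.1 (Finset.mem_range.1 hi)
    rw [coeff_trace τ hτ, ← mul_assoc, ← pow_add]
    congr 4
    omega
  rw [Finset.sum_congr rfl this, Finset.sum_const, Finset.card_range, nsmul_eq_mul]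
  push_cast
  ring

theorem formal_aux (τ : R →+ A) (hτ : ∀ a b, τ (a * b) = τ (b * a)) (x y : R) (n : ℕ) :
    ∑ j ∈ Finset.range (n + 1), (-1) ^ j *
      τ (((C x * X + C y * X + C (x * y) * X ^ 2) ^ j *
        derivative (C x * X + C y * X + C (x * y) * X ^ 2)).coeff n) =
    (-1) ^ n * (τ (x ^ (n + 1)) + τ (y ^ (n + 1))) := by
  set B : R[X] := C x * X + C y * X + C (x * y) * X ^ 2 with hA
  set P : R[X] := C x * X with hP
  set Q : R[X] := C y * X with hQ
  have hX : ∀ p : R[X], X * p = p * X := fun p => X_mul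
  have hPQ : 1 + B = (1 + P) * (1 + Q) := by
    rw [hA, hP, hQ, mul_add, add_mul, add_mul, one_mul, one_mul, mul_one]
    have : C x * X * (C y * X) = C (x * y) * X ^ 2 := by
      rw [mul_assoc, ← mul_assoc X (C y) X, hX (C y), C_mul, pow_two]
      simp only [mul_assoc]
    rw [this]
    abel
  have hDA : derivative B = C x * (1 + Q) + (1 + P) * C y := by
    rw [hA, hQ, hP, derivative_add, derivative_add, derivative_C_mul, derivative_C_mul,
      derivative_C_mul, derivative_X, derivative_X_pow, mul_add, add_mul, mul_one, one_mul]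
    have h1 : C x * X * C y = C (x * y) * X := by
      rw [mul_assoc, hX (C y), C_mul, mul_assoc]
    have h2 : C x * (C y * X) = C (x * y) * X := by rw [C_mul, mul_assoc]
    rw [h1, h2]
    simp only [Nat.cast_ofNat, Nat.add_one_sub_one, pow_one, mul_one]
    have h3 : C (x * y) * (C (2 : R) * X) = C (x * y) * X + C (x * y) * X := by
      rw [← mul_assoc, ← C_mul, mul_two, C_add, add_mul]
    rw [h3]
    abel
  have hP0 : P.coeff 0 = 0 := by simp [hP]
  have hQ0 : Q.coeff 0 = 0 := by simp [hQ]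
  have hA0 : B.coeff 0 = 0 := by simp [hA, hP0, hQ0]
  have hsum : ∑ j ∈ Finset.range (n + 1), (-1) ^ j * τ ((B ^ j * derivative B).coeff n) =
      τ ((geo n B * derivative B).coeff n) := by
    rw [geo, Finset.sum_mul, finsetSum_coeff, map_sum]
    apply Finset.sum_congr rfl
    intro j _
    rcases Nat.even_or_odd j with hj | hj
    · rw [hj.neg_one_pow, hj.neg_one_pow, one_mul, one_mul]
    · rw [hj.neg_one_pow, hj.neg_one_pow, neg_one_mul, neg_one_mul, neg_mul, coeff_neg, map_neg]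
  rw [hsum]
  -- `geo n B` agrees with `geo n Q * geo n P` up to degree `n`
  have hW : Van n (geo n B - geo n Q * geo n P) := by
    have e1 : Van n ((geo n B * (1 + B) - 1) * (geo n Q * geo n P)) :=
      (van_geo_mul n hA0).mul_right _
    have e2 : Van n (geo n B * ((1 + P) * ((1 + Q) * geo n Q - 1) * geo n P +
        ((1 + P) * geo n P - 1))) :=
      ((((van_mul_geo n hQ0).mul_left _).mul_right _).add (van_mul_geo n hP0)).mul_left _
    have e3 := e1.sub e2
    have e4 : (geo n B * (1 + B) - 1) * (geo n Q * geo n P) -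
        geo n B * ((1 + P) * ((1 + Q) * geo n Q - 1) * geo n P + ((1 + P) * geo n P - 1)) =
        geo n B - geo n Q * geo n P := by
      rw [hPQ]
      noncomm_ring
    rwa [e4] at e3
  have h1 : τ ((geo n B * derivative B).coeff n) =
      τ ((geo n Q * geo n P * derivative B).coeff n) := by
    have := (hW.mul_right (derivative B)) n le_rfl
    rw [sub_mul, coeff_sub, sub_eq_zero] at this
    rw [this]
  have h2 : τ ((geo n Q * geo n P * derivative B).coeff n) =
      τ ((geo n P * C x).coeff n) + τ ((geo n Q * C y).coeff n) := by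
    rw [hDA, mul_add, coeff_add, map_add]
    congr 1
    · rw [← mul_assoc, mul_assoc (geo n Q) (geo n P) (C x), mul_assoc (geo n Q),
        coeff_trace τ hτ, mul_assoc]
      have := ((van_mul_geo n hQ0).mul_left (geo n P * C x)) n le_rfl
      rw [mul_sub, mul_one, coeff_sub, sub_eq_zero] at this
      rw [this]
    · have := ((van_geo_mul n hP0).mul_left (geo n Q)).mul_right (C y) n le_rfl
      rw [mul_sub, mul_one, sub_mul, coeff_sub, sub_eq_zero] at this
      rw [← this]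
      simp only [mul_assoc]
  have h3 : ∀ z : R, (geo n (C z * X) * C z).coeff n = (-1) ^ n * z ^ (n + 1) := by
    intro z
    have hz : ∀ j : ℕ, (C z * X) ^ j = C (z ^ j) * X ^ j := by
      intro j
      rw [(Polynomial.commute_X (C z)).symm.mul_pow, C_pow]
    have : geo n (C z * X) * C z = ∑ j ∈ Finset.range (n + 1),
        C ((-1) ^ j * z ^ (j + 1)) * X ^ j := by
      rw [geo, Finset.sum_mul]
      apply Finset.sum_congr rfl
      intro j _
      have hC : (C ((-1 : R) ^ j) : R[X]) = (-1) ^ j := by rw [C_pow, C_neg, C_1]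
      rw [hz, mul_assoc, mul_assoc, X_pow_mul_C, pow_succ, C_mul, C_mul, hC]
      simp only [mul_assoc]
    rw [this, finsetSum_coeff, Finset.sum_eq_single n]
    · rw [coeff_C_mul, coeff_X_pow, if_pos rfl, mul_one]
    · intro j _ hj
      rw [coeff_C_mul, coeff_X_pow, if_neg (Ne.symm hj), mul_zero]
    · intro h
      exact absurd (Finset.mem_range.2 (Nat.lt_succ_self n)) h
  have h4 : ∀ z : R, τ ((-1) ^ n * z ^ (n + 1)) = (-1) ^ n * τ (z ^ (n + 1)) := by
    intro z
    rcases Nat.even_or_odd n with hj | hj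
    · rw [hj.neg_one_pow, hj.neg_one_pow, one_mul, one_mul]
    · rw [hj.neg_one_pow, hj.neg_one_pow, neg_one_mul, neg_one_mul, map_neg]
  rw [h1, h2, hP, hQ, h3, h3, h4, h4, mul_add]

/-- the formal identity -/
theorem formal_identity [CharZero A] (τ : R →+ A) (hτ : ∀ a b, τ (a * b) = τ (b * a)) (x y : R)
    (n : ℕ) :
    ∑ j ∈ Finset.range (n + 1), (-1 : A) ^ j *
      τ (((C x * X + C y * X + C (x * y) * X ^ 2) ^ (j + 1)).coeff (n + 1)) / (j + 1) =
    (-1) ^ n * (τ (x ^ (n + 1)) + τ (y ^ (n + 1))) / (n + 1) := by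
  have h := formal_aux τ hτ x y n
  have hn : ((n : A) + 1) ≠ 0 := by exact_mod_cast Nat.succ_ne_zero n
  rw [eq_div_iff hn, Finset.sum_mul]
  rw [← h]
  apply Finset.sum_congr rfl
  intro j _
  have h1 := trace_derivative_pow τ hτ (C x * X + C y * X + C (x * y) * X ^ 2) j n
  rw [coeff_derivative] at h1
  have h2 : ∀ z : R, τ (z * ((n : R) + 1)) = (n + 1) * τ z := by
    intro z
    have : z * ((n : R) + 1) = (n + 1) • z := by
      rw [nsmul_eq_mul, Nat.cast_add, Nat.cast_one]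
      exact (((Nat.cast_commute n z).add_left (Commute.one_left z)).eq).symm
    rw [this, map_nsmul, nsmul_eq_mul]
    push_cast
    ring
  rw [h2] at h1
  have hj : ((j : A) + 1) ≠ 0 := by exact_mod_cast Nat.succ_ne_zero j
  rw [div_mul_eq_mul_div, div_eq_iff hj, mul_assoc, mul_comm _ ((n : A) + 1), h1]
  ring

end Pool.Agent.H71.KP

end

section

/-!
# The trace of the `p`-adic logarithm

Let `c` be a central element of a ring `R` such that `c ^ (k + 1)` is a multiple of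
`p ^ (k / (p - 1))` for all `k`. For a homomorphism `τ : R → ℤ_[p]` and `x ∈ c R` let
`tl τ x = ∑ (-1)^k τ(x^(k+1)) / (k+1)`, the value of `τ` on `log (1 + x)`. If `τ` is a trace then
`tl τ (x + y + x y) = tl τ x + tl τ y`.
-/

set_option autoImplicit false
set_option linter.unusedSectionVars false

open Polynomial
open Pool.Agent.H71.WH (Van van_pow poly poly_zero)

universe u v

namespace Pool.Agent.H71.KP

variable {p : ℕ} [hp : Fact p.Prime]

theorem norm_inv_le (k : ℕ) : ‖((k : ℚ_[p]) + 1)⁻¹‖ ≤ p * ((k : ℝ) + 1) := by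
  have hp1 := hp.out.one_lt
  have hp0 : (0 : ℝ) < p := by exact_mod_cast hp.out.pos
  have h0 : ((k : ℚ_[p]) + 1) ≠ 0 := by exact_mod_cast Nat.succ_ne_zero k
  rw [norm_inv]
  have hlt : ((p : ℝ) ^ (Nat.log p (k + 1) + 1))⁻¹ < ‖((k : ℚ_[p]) + 1)‖ := by
    by_contra hcon
    push Not at hcon
    have h1 : ‖(((k + 1 : ℕ) : ℤ) : ℚ_[p])‖ ≤ (p : ℝ) ^ (-((Nat.log p (k + 1) + 1 : ℕ) : ℤ)) := by
      rw [zpow_neg, zpow_natCast]
      push_cast
      exact hcon
    rw [Padic.norm_int_le_pow_iff_dvd] at h1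
    have h2 : (p ^ (Nat.log p (k + 1) + 1) : ℕ) ∣ (k + 1) := by exact_mod_cast h1
    have h3 := Nat.le_of_dvd (Nat.succ_pos k) h2
    have h4 := Nat.lt_pow_succ_log_self (b := p) hp1 (k + 1)
    rw [Nat.succ_eq_add_one] at h4
    omega
  have hpos : (0 : ℝ) < ((p : ℝ) ^ (Nat.log p (k + 1) + 1))⁻¹ := by positivity
  have h5 : ‖((k : ℚ_[p]) + 1)‖⁻¹ ≤ (p : ℝ) ^ (Nat.log p (k + 1) + 1) := by
    rw [inv_le_comm₀ (lt_trans hpos hlt) (by positivity)]
    exact hlt.le
  refine h5.trans ?_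
  rw [pow_succ, mul_comm]
  have h6 : p ^ (Nat.log p (k + 1)) ≤ k + 1 := Nat.pow_log_le_self p (Nat.succ_ne_zero k)
  have h7 : ((p : ℝ) ^ (Nat.log p (k + 1))) ≤ (k : ℝ) + 1 := by exact_mod_cast h6
  exact mul_le_mul_of_nonneg_left h7 hp0.le

theorem norm_le_of_dvd {m : ℕ} {z : ℤ_[p]} (h : (p : ℤ_[p]) ^ m ∣ z) :
    ‖(z : ℚ_[p])‖ ≤ ((p : ℝ) ^ m)⁻¹ := by
  obtain ⟨w, rfl⟩ := h
  rw [PadicInt.coe_mul, PadicInt.coe_pow, PadicInt.coe_natCast, norm_mul, norm_pow,
    Padic.norm_p, inv_pow]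
  have h1 : ‖(w : ℚ_[p])‖ ≤ 1 := w.2
  have h2 : (0 : ℝ) ≤ ((p : ℝ) ^ m)⁻¹ := by positivity
  calc ((p : ℝ) ^ m)⁻¹ * ‖(w : ℚ_[p])‖ ≤ ((p : ℝ) ^ m)⁻¹ * 1 := mul_le_mul_of_nonneg_left h1 h2
    _ = _ := mul_one _

theorem norm_term_le {z : ℤ_[p]} {m k : ℕ} (h : (p : ℤ_[p]) ^ m ∣ z) :
    ‖(-1 : ℚ_[p]) ^ k * (z : ℚ_[p]) / (k + 1)‖ ≤ ((p : ℝ) ^ m)⁻¹ * (p * (k + 1)) := by
  rw [div_eq_mul_inv, norm_mul, norm_mul, norm_pow, norm_neg, norm_one, one_pow, one_mul]
  exact mul_le_mul (norm_le_of_dvd h) (norm_inv_le k) (norm_nonneg _) (by positivity)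

section Real

theorem exists_root (q : ℕ) (hq : 0 < q) : ∃ r : ℝ, 0 < r ∧ r < 1 ∧ r ^ (2 * q) = 1 / 2 := by
  refine ⟨(1 / 2 : ℝ) ^ ((1 : ℝ) / (2 * q : ℕ)), by positivity, ?_, ?_⟩
  · apply Real.rpow_lt_one (by norm_num) (by norm_num)
    have : (0 : ℝ) < ((2 * q : ℕ) : ℝ) := by exact_mod_cast (by omega : 0 < 2 * q)
    positivity
  · rw [← Real.rpow_natCast, ← Real.rpow_mul (by norm_num)]
    have : ((2 * q : ℕ) : ℝ) ≠ 0 := by exact_mod_cast (by omega : 2 * q ≠ 0)
    rw [one_div_mul_cancel this, Real.rpow_one]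

theorem pow_bound {q : ℕ} (hq : 0 < q) {r : ℝ} (h0 : 0 < r) (h1 : r < 1)
    (h : r ^ (2 * q) = 1 / 2) {b : ℝ} (hb : 2 ≤ b) (m : ℕ) :
    (b ^ (m / q))⁻¹ ≤ 2 * r ^ (2 * m) := by
  have e1 : (b ^ (m / q))⁻¹ ≤ ((2 : ℝ) ^ (m / q))⁻¹ := by
    apply inv_anti₀ (by positivity)
    exact pow_le_pow_left₀ (by norm_num) hb _
  refine e1.trans ?_
  have e2 : ((2 : ℝ) ^ (m / q))⁻¹ = r ^ (2 * (q * (m / q))) := by
    rw [← mul_assoc, pow_mul, h, one_div, inv_pow]
  have e3 : 2 * r ^ (2 * m) = r ^ (2 * (q * (m / q))) * (2 * r ^ (2 * (m % q))) := by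
    rw [mul_left_comm, ← pow_add, ← mul_add, Nat.div_add_mod]
  have e4 : (1 : ℝ) ≤ 2 * r ^ (2 * (m % q)) := by
    have : r ^ (2 * q) ≤ r ^ (2 * (m % q)) :=
      pow_le_pow_of_le_one h0.le h1.le (Nat.mul_le_mul_left 2 (Nat.mod_lt m hq).le)
    rw [h] at this
    linarith
  rw [e2, e3]
  exact le_mul_of_one_le_right (by positivity) e4

theorem summable_succ {r : ℝ} (h0 : 0 < r) (h1 : r < 1) :
    Summable fun k : ℕ => ((k : ℝ) + 1) * r ^ k := by
  have hr : ‖r‖ < 1 := by rw [Real.norm_of_nonneg h0.le]; exact h1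
  have s1 := summable_pow_mul_geometric_of_norm_lt_one (R := ℝ) 1 hr
  have s2 := summable_pow_mul_geometric_of_norm_lt_one (R := ℝ) 0 hr
  refine (s1.add s2).congr ?_
  intro k
  ring

end Real

variable {R : Type u} [Ring R]

/-- Central elements whose powers are highly divisible by `p`. -/
structure Cen (p : ℕ) (c : R) : Prop where
  comm : ∀ x, c * x = x * c
  pow : ∀ k, ∃ d, c ^ (k + 1) = (p : R) ^ (k / (p - 1)) * d

/-- a term of the series of the logarithm -/
noncomputable def tlTerm (τ : R →+ ℤ_[p]) (x : R) (k : ℕ) : ℚ_[p] :=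
  (-1) ^ k * (τ (x ^ (k + 1)) : ℚ_[p]) / (k + 1)

/-- `τ (log (1 + x))` -/
noncomputable def tl (τ : R →+ ℤ_[p]) (x : R) : ℚ_[p] := ∑' k, tlTerm τ x k

omit hp in
theorem p_comm (x : R) : (p : R) * x = x * p := (Nat.cast_commute p x).eq

omit hp in
theorem p_pow_comm (n : ℕ) (x : R) : (p : R) ^ n * x = x * (p : R) ^ n :=
  ((Nat.cast_commute p x).pow_left n).eq

theorem map_p_pow_mul (τ : R →+ ℤ_[p]) (n : ℕ) (x : R) :
    τ ((p : R) ^ n * x) = (p : ℤ_[p]) ^ n * τ x := by
  have : (p : R) ^ n * x = (p ^ n : ℕ) • x := by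
    rw [nsmul_eq_mul]
    push_cast
    rfl
  rw [this, map_nsmul, nsmul_eq_mul]
  push_cast
  rfl

theorem map_p_mul (τ : R →+ ℤ_[p]) (x : R) : τ ((p : R) * x) = (p : ℤ_[p]) * τ x := by
  have := map_p_pow_mul τ 1 x
  rwa [pow_one, pow_one] at this

theorem Cen.mul_pow {c : R} (hc : Cen p c) (x : R) (k : ℕ) : (c * x) ^ k = c ^ k * x ^ k :=
  (show Commute c x from hc.comm x).mul_pow k

theorem Cen.pow_comm {c : R} (hc : Cen p c) (x : R) (k : ℕ) : c ^ k * x = x * c ^ k :=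
  ((show Commute c x from hc.comm x).pow_left k).eq

theorem Cen.dvd {c : R} (hc : Cen p c) (τ : R →+ ℤ_[p]) (k : ℕ) (x : R) :
    (p : ℤ_[p]) ^ (k / (p - 1)) ∣ τ (c ^ (k + 1) * x) := by
  obtain ⟨d, hd⟩ := hc.pow k
  rw [hd, mul_assoc, map_p_pow_mul]
  exact dvd_mul_right _ _

/-- the number `p` itself -/
theorem cen_p : Cen p (p : R) where
  comm := p_comm
  pow k := by
    have h1 := hp.out.two_le
    have h : k / (p - 1) ≤ k + 1 := by
      calc k / (p - 1) ≤ k := Nat.div_le_self _ _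
        _ ≤ k + 1 := Nat.le_succ k
    exact ⟨(p : R) ^ (k + 1 - k / (p - 1)), by rw [← pow_add, Nat.add_sub_cancel' h]⟩

theorem tl_summable (τ : R →+ ℤ_[p]) {c : R} (hc : Cen p c) (x : R) :
    Summable (tlTerm τ (c * x)) := by
  have hp2 : (2 : ℝ) ≤ p := by exact_mod_cast hp.out.two_le
  have hq : 0 < p - 1 := Nat.sub_pos_of_lt hp.out.one_lt
  obtain ⟨r, h0, h1, hr⟩ := exists_root (p - 1) hq
  have hs : Summable fun k : ℕ => (2 * p : ℝ) * (((k : ℝ) + 1) * r ^ k) :=
    (summable_succ h0 h1).mul_left _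
  refine Summable.of_norm_bounded hs ?_
  intro k
  have e1 : ‖tlTerm τ (c * x) k‖ ≤ ((p : ℝ) ^ (k / (p - 1)))⁻¹ * (p * (k + 1)) := by
    apply norm_term_le
    rw [hc.mul_pow]
    exact hc.dvd τ k _
  refine e1.trans ?_
  have e2 := pow_bound hq h0 h1 hr hp2 k
  have e3 : r ^ (2 * k) ≤ r ^ k := pow_le_pow_of_le_one h0.le h1.le (by omega)
  calc ((p : ℝ) ^ (k / (p - 1)))⁻¹ * (p * (k + 1)) ≤ (2 * r ^ k) * (p * (k + 1)) := by
        apply mul_le_mul_of_nonneg_right _ (by positivity)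
        linarith
    _ = _ := by ring

/-- the double family -/
noncomputable def dbl (τ : R →+ ℤ_[p]) (c : R) (A : R[X]) (m : ℕ × ℕ) : ℚ_[p] :=
  (-1) ^ m.2 * (τ (c ^ (m.1 + 1) * (A ^ (m.2 + 1)).coeff (m.1 + 1)) : ℚ_[p]) / (m.2 + 1)

theorem dbl_zero (τ : R →+ ℤ_[p]) (c : R) {A : R[X]} (h : A.coeff 0 = 0) (m k : ℕ) (hk : m < k) :
    dbl τ c A (m, k) = 0 := by
  have : (A ^ (k + 1)).coeff (m + 1) = 0 := van_pow (n := k) h (m + 1) (by omega)
  simp [dbl, this]

theorem summable_dbl (τ : R →+ ℤ_[p]) {c : R} (hc : Cen p c) {A : R[X]} (h : A.coeff 0 = 0) :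
    Summable (dbl τ c A) := by
  have hp2 : (2 : ℝ) ≤ p := by exact_mod_cast hp.out.two_le
  have hq : 0 < p - 1 := Nat.sub_pos_of_lt hp.out.one_lt
  obtain ⟨r, h0, h1, hr⟩ := exists_root (p - 1) hq
  have h2 : Summable fun k : ℕ => r ^ k := summable_geometric_of_lt_one h0.le h1
  have h3 := ((summable_succ h0 h1).mul_left (2 * p : ℝ)).mul_of_nonneg h2
    (fun k => by positivity) (fun k => by positivity)
  refine Summable.of_norm_bounded h3 ?_
  rintro ⟨m, k⟩
  by_cases hk : m < k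
  · rw [dbl_zero τ c h m k hk, norm_zero]
    positivity
  · push Not at hk
    have hle := norm_term_le (z := τ (c ^ (m + 1) * (A ^ (k + 1)).coeff (m + 1)))
      (m := m / (p - 1)) (k := k) (hc.dvd τ m _)
    refine hle.trans ?_
    have e2 := pow_bound hq h0 h1 hr hp2 m
    have e3 : r ^ m ≤ r ^ k := pow_le_pow_of_le_one h0.le h1.le hk
    have e4 : ((k : ℝ) + 1) ≤ (m : ℝ) + 1 := by
      have : (k : ℝ) ≤ m := by exact_mod_cast hk
      linarith
    have e5 : r ^ (2 * m) ≤ r ^ m * r ^ k := by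
      rw [two_mul, pow_add]
      exact mul_le_mul_of_nonneg_left e3 (by positivity)
    calc ((p : ℝ) ^ (m / (p - 1)))⁻¹ * (p * (k + 1))
        ≤ (2 * (r ^ m * r ^ k)) * (p * (m + 1)) := by
          apply mul_le_mul _ _ (by positivity) (by positivity)
          · exact e2.trans (mul_le_mul_of_nonneg_left e5 (by norm_num))
          · exact mul_le_mul_of_nonneg_left e4 (by positivity)
      _ = 2 * p * (((m : ℝ) + 1) * r ^ m) * r ^ k := by ring

/-- evaluation at a central element -/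
noncomputable def ev {c : R} (hc : Cen p c) : R[X] →+* R :=
  eval₂RingHom' (RingHom.id R) c (fun a => (show Commute c a from hc.comm a).symm)

theorem ev_mul_pow {c : R} (hc : Cen p c) (z : R) (j : ℕ) : ev hc (C z * X ^ j) = z * c ^ j := by
  change eval₂ (RingHom.id R) c (C z * X ^ j) = _
  rw [eval₂_mul_noncomm, eval₂_C, eval₂_X_pow]
  · rfl
  · intro k
    exact (show Commute c _ from hc.comm _).symm

theorem ev_poly {c : R} (hc : Cen p c) (x y : R) :
    ev hc (poly x y) = c * x + c * y + c * x * (c * y) := by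
  have e2 := ev_mul_pow hc x 1
  have e3 := ev_mul_pow hc y 1
  have e4 := ev_mul_pow hc (x * y) 2
  simp only [pow_one] at e2 e3
  rw [poly, map_add, map_add, e2, e3, e4, ← hc.comm x, ← hc.comm y]
  have c3 : x * y * c ^ 2 = c * x * (c * y) := by
    rw [← hc.pow_comm, pow_two, mul_assoc, ← mul_assoc c x y, hc.comm x, mul_assoc x c y,
      ← mul_assoc c x, hc.comm x]
  rw [c3]

theorem inner_sum (τ : R →+ ℤ_[p]) {c : R} (hc : Cen p c) (x y : R) (k : ℕ) :
    ∑' m, dbl τ c (poly x y) (m, k) = tlTerm τ (c * x + c * y + c * x * (c * y)) k := by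
  rw [tlTerm, ← ev_poly hc, ← map_pow]
  have e1 : ev hc (poly x y ^ (k + 1)) =
      ∑ i ∈ Finset.range ((poly x y ^ (k + 1)).natDegree + 1),
        (poly x y ^ (k + 1)).coeff i * c ^ i := eval₂_eq_sum_range (RingHom.id R) c
  rw [Finset.sum_range_succ'] at e1
  have e2 : (poly x y ^ (k + 1)).coeff 0 = 0 := van_pow (n := k) (poly_zero x y) 0 (Nat.zero_le _)
  rw [e2, zero_mul, add_zero] at e1
  rw [e1, map_sum]
  rw [tsum_eq_sum (s := Finset.range (poly x y ^ (k + 1)).natDegree)]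
  · rw [PadicInt.coe_sum, Finset.mul_sum, Finset.sum_div]
    apply Finset.sum_congr rfl
    intro i _
    simp only [dbl]
    rw [hc.pow_comm]
  · intro m hm
    have : (poly x y ^ (k + 1)).coeff (m + 1) = 0 := by
      apply coeff_eq_zero_of_natDegree_lt
      have : ¬ m < (poly x y ^ (k + 1)).natDegree := fun h => hm (Finset.mem_range.2 h)
      omega
    simp [dbl, this]

/-- the functional `a ↦ τ (c ^ n a)` -/
noncomputable def twist (τ : R →+ ℤ_[p]) (c : R) (n : ℕ) : R →+ ℚ_[p] where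
  toFun a := (τ (c ^ n * a) : ℚ_[p])
  map_zero' := by simp
  map_add' a b := by rw [mul_add, map_add, PadicInt.coe_add]

theorem outer_sum (τ : R →+ ℤ_[p]) (hτ : ∀ a b, τ (a * b) = τ (b * a)) {c : R} (hc : Cen p c)
    (x y : R) (m : ℕ) :
    ∑' k, dbl τ c (poly x y) (m, k) = tlTerm τ (c * x) m + tlTerm τ (c * y) m := by
  rw [tsum_eq_sum (s := Finset.range (m + 1))]
  · have h := formal_identity (twist τ c (m + 1)) (by
      intro a b
      change ((τ (c ^ (m + 1) * (a * b)) : ℤ_[p]) : ℚ_[p]) = (τ (c ^ (m + 1) * (b * a)) : ℚ_[p])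
      rw [← mul_assoc, hτ, ← mul_assoc, ← hc.pow_comm, mul_assoc]) x y m
    have e1 : ∑ k ∈ Finset.range (m + 1), dbl τ c (poly x y) (m, k) =
        ∑ j ∈ Finset.range (m + 1), (-1 : ℚ_[p]) ^ j *
          twist τ c (m + 1) (((C x * X + C y * X + C (x * y) * X ^ 2) ^ (j + 1)).coeff (m + 1)) /
            (j + 1) := rfl
    rw [e1, h, tlTerm, tlTerm, hc.mul_pow, hc.mul_pow]
    change (-1) ^ m * ((τ (c ^ (m + 1) * x ^ (m + 1)) : ℚ_[p]) +
      (τ (c ^ (m + 1) * y ^ (m + 1)) : ℚ_[p])) / (m + 1) = _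
    ring
  · intro k hk
    apply dbl_zero τ c (poly_zero x y)
    have : ¬ k < m + 1 := fun h => hk (Finset.mem_range.2 h)
    omega

theorem tl_mul' (τ : R →+ ℤ_[p]) (hτ : ∀ a b, τ (a * b) = τ (b * a)) {c : R} (hc : Cen p c)
    (x y : R) : tl τ (c * x + c * y + c * x * (c * y)) = tl τ (c * x) + tl τ (c * y) := by
  have hs := summable_dbl τ hc (poly_zero x y)
  have hcomm : ∑' (k) (m), dbl τ c (poly x y) (m, k) = ∑' (m) (k), dbl τ c (poly x y) (m, k) :=
    hs.tsum_comm' (f := fun m k => dbl τ c (poly x y) (m, k))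
      (fun b => hs.comp_injective (Prod.mk_right_injective b))
      (fun c => hs.comp_injective (Prod.mk_left_injective c))
  simp only [inner_sum τ hc, outer_sum τ hτ hc] at hcomm
  rw [tl, tl, tl, hcomm, (tl_summable τ hc x).tsum_add (tl_summable τ hc y)]

end Pool.Agent.H71.KP

end

section

/-!
# Further properties of the trace of the logarithm
-/

set_option autoImplicit false
set_option linter.unusedSectionVars false

universe u v

namespace Pool.Agent.H71.KP

variable {p : ℕ} [hp : Fact p.Prime] {R : Type u} [Ring R]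

/-- `w` is congruent to `1` modulo `c` -/
def Cong (c w : R) : Prop := ∃ x : R, w = 1 + c * x

theorem Cong.one (c : R) : Cong c (1 : R) := ⟨0, by simp⟩

theorem Cong.mul {c w w' : R} (h : Cong c w) (h' : Cong c w') : Cong c (w * w') := by
  obtain ⟨x, rfl⟩ := h
  obtain ⟨y, rfl⟩ := h'
  refine ⟨x + y + x * (c * y), ?_⟩
  noncomm_ring

theorem Cong.of_mul_eq_one {c w w' : R} (hc : Cen p c) (h : Cong c w) (h' : w' * w = 1) :
    Cong c w' := by
  obtain ⟨x, rfl⟩ := h
  refine ⟨-(w' * x), ?_⟩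
  have : w' * (1 + c * x) = w' + c * (w' * x) := by
    rw [mul_add, mul_one, ← mul_assoc, ← hc.comm, mul_assoc]
  rw [this] at h'
  rw [mul_neg, ← h']
  abel

theorem Cong.conj {c w : R} (hc : Cen p c) (h : Cong c w) (g : Rˣ) :
    Cong c ((g⁻¹ : Rˣ) * w * g) := by
  obtain ⟨x, rfl⟩ := h
  refine ⟨(g⁻¹ : Rˣ) * x * g, ?_⟩
  have : ((g⁻¹ : Rˣ) : R) * (1 + c * x) * g = (g⁻¹ : Rˣ) * g + c * ((g⁻¹ : Rˣ) * x * g) := by
    rw [mul_add, mul_one, add_mul, ← mul_assoc, ← hc.comm]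
    simp only [mul_assoc]
  rw [this, Units.inv_mul]

/-- `τ (log w)` -/
noncomputable def L (τ : R →+ ℤ_[p]) (w : R) : ℚ_[p] := tl τ (w - 1)

theorem L_one_add (τ : R →+ ℤ_[p]) (x : R) : L τ (1 + x) = tl τ x := by
  rw [L, add_sub_cancel_left]

theorem L_mul (τ : R →+ ℤ_[p]) (hτ : ∀ a b, τ (a * b) = τ (b * a)) {c : R} (hc : Cen p c)
    {w w' : R} (h : Cong c w) (h' : Cong c w') : L τ (w * w') = L τ w + L τ w' := by
  obtain ⟨x, rfl⟩ := h
  obtain ⟨y, rfl⟩ := h'
  have e1 : (1 + c * x) * (1 + c * y) - 1 = c * x + c * y + c * x * (c * y) := by noncomm_ring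
  rw [L, L, L, e1, add_sub_cancel_left, add_sub_cancel_left, tl_mul' τ hτ hc]

theorem tl_zero (τ : R →+ ℤ_[p]) : tl τ 0 = 0 := by
  have : tlTerm τ (0 : R) = fun _ => 0 := by
    funext k
    simp [tlTerm]
  rw [tl, this, tsum_zero]

theorem L_one (τ : R →+ ℤ_[p]) : L τ 1 = 0 := by rw [L, sub_self, tl_zero]

theorem L_inv (τ : R →+ ℤ_[p]) (hτ : ∀ a b, τ (a * b) = τ (b * a)) {c : R} (hc : Cen p c)
    {w w' : R} (h : Cong c w) (h1 : w' * w = 1) : L τ w' = -L τ w := by
  have := L_mul τ hτ hc (h.of_mul_eq_one hc h1) h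
  rw [h1, L_one] at this
  exact (neg_eq_of_add_eq_zero_left this.symm).symm

theorem tl_congr {S : Type v} [Ring S] {τ : R →+ ℤ_[p]} {τ' : S →+ ℤ_[p]} {x : R} {x' : S}
    (h : ∀ k, τ (x ^ (k + 1)) = τ' (x' ^ (k + 1))) : tl τ x = tl τ' x' := by
  have : tlTerm τ x = tlTerm τ' x' := by
    funext k
    rw [tlTerm, tlTerm, h]
  rw [tl, tl, this]

theorem L_conj (τ : R →+ ℤ_[p]) (hτ : ∀ a b, τ (a * b) = τ (b * a)) (w : R) (g : Rˣ) :
    L τ ((g⁻¹ : Rˣ) * w * g) = L τ w := by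
  have e1 : ((g⁻¹ : Rˣ) : R) * w * g - 1 = (g⁻¹ : Rˣ) * (w - 1) * g := by
    rw [mul_sub, sub_mul, mul_one, Units.inv_mul]
  have e2 : ∀ k : ℕ, (((g⁻¹ : Rˣ) : R) * (w - 1) * g) ^ k = (g⁻¹ : Rˣ) * (w - 1) ^ k * g := by
    intro k
    induction k with
    | zero => simp
    | succ k ih =>
      rw [pow_succ, ih, pow_succ]
      calc ((g⁻¹ : Rˣ) : R) * (w - 1) ^ k * g * ((g⁻¹ : Rˣ) * (w - 1) * g)
          = (g⁻¹ : Rˣ) * (w - 1) ^ k * (g * (g⁻¹ : Rˣ)) * (w - 1) * g := by
            simp only [mul_assoc]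
        _ = _ := by rw [Units.mul_inv, mul_one]; simp only [mul_assoc]
  rw [L, L, e1]
  apply tl_congr
  intro k
  rw [e2, mul_assoc, hτ, mul_assoc, Units.mul_inv, mul_one]

theorem tl_mul_fun (τ τ' : R →+ ℤ_[p]) (x : R) (n : ℤ_[p]) (h : ∀ r, τ' r = n * τ r) :
    tl τ' x = n * tl τ x := by
  have : tlTerm τ' x = fun k => (n : ℚ_[p]) * tlTerm τ x k := by
    funext k
    simp only [tlTerm, h, PadicInt.coe_mul]
    ring
  rw [tl, tl, this, tsum_mul_left]

/-- Restriction of additive functions along a ring homomorphism. -/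
noncomputable def pull {S : Type v} [Ring S] (φ : R →+* S) (τ : S →+ ℤ_[p]) : R →+ ℤ_[p] :=
  τ.comp φ.toAddMonoidHom

theorem pull_apply {S : Type v} [Ring S] (φ : R →+* S) (τ : S →+ ℤ_[p]) (r : R) :
    pull φ τ r = τ (φ r) := rfl

theorem L_map {S : Type v} [Ring S] (φ : R →+* S) (τ : S →+ ℤ_[p]) (w : R) :
    L τ (φ w) = L (pull φ τ) w := by
  rw [L, L]
  apply tl_congr
  intro k
  rw [pull_apply, map_pow φ, map_sub φ, map_one φ]

theorem L_congr_fun {τ τ' : R →+ ℤ_[p]} (h : ∀ r, τ r = τ' r) (w : R) : L τ w = L τ' w := by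
  rw [L, L]
  apply tl_congr
  intro k
  rw [h]

theorem Cong.map {S : Type v} [Ring S] (φ : R →+* S) {c w : R} (h : Cong c w) :
    Cong (φ c) (φ w) := by
  obtain ⟨x, rfl⟩ := h
  refine ⟨φ x, ?_⟩
  rw [map_add, map_mul, map_one]

theorem nonUnital_pow {S : Type v} [Ring S] (J : R →ₙ+* S) (x : R) (k : ℕ) :
    J x ^ (k + 1) = J (x ^ (k + 1)) := by
  induction k with
  | zero => simp
  | succ k ih => rw [pow_succ, ih, pow_succ x (k + 1), map_mul]

theorem tl_nonUnital {S : Type v} [Ring S] (J : R →ₙ+* S) (τ : R →+ ℤ_[p])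
    (τ' : S →+ ℤ_[p]) (h : ∀ x, τ' (J x) = τ x) (x : R) : tl τ' (J x) = tl τ x := by
  apply tl_congr
  intro k
  rw [nonUnital_pow, h]

/-- additivity for elements of a subring on which the functional is a trace -/
theorem L_mul_sub (τ : R →+ ℤ_[p]) (S : Subring R) (hS : ∀ a ∈ S, ∀ b ∈ S, τ (a * b) = τ (b * a))
    {x y : R} (hx : x ∈ S) (hy : y ∈ S) :
    L τ ((1 + (p : R) * x) * (1 + (p : R) * y)) =
      L τ (1 + (p : R) * x) + L τ (1 + (p : R) * y) := by
  have key := L_mul (pull S.subtype τ) (fun a b => hS _ a.2 _ b.2) (cen_p (p := p) (R := S))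
    (w := 1 + (p : S) * ⟨x, hx⟩) (w' := 1 + (p : S) * ⟨y, hy⟩) ⟨_, rfl⟩ ⟨_, rfl⟩
  rw [← L_map, ← L_map, ← L_map] at key
  simpa using key

theorem succ_le_pow (j : ℕ) : j + 2 ≤ p ^ (j + 1) := by
  have h1 := Nat.lt_two_pow_self (n := j + 1)
  have h2 : 2 ^ (j + 1) ≤ p ^ (j + 1) := Nat.pow_le_pow_left hp.out.two_le _
  omega

theorem term_le_aux (τ : R →+ ℤ_[p]) (r : R) (n j : ℕ) :
    ‖tlTerm τ ((p : R) ^ (n + 1) * r) (j + 1)‖ ≤ ((p : ℝ) ^ (2 * n))⁻¹ := by
  have hp0 : (0 : ℝ) < p := by exact_mod_cast hp.out.pos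
  have h0 : τ (((p : R) ^ (n + 1) * r) ^ (j + 1 + 1)) =
      (p : ℤ_[p]) ^ ((n + 1) * (j + 2)) * τ (r ^ (j + 2)) := by
    rw [((Nat.cast_commute p r).pow_left (n + 1)).mul_pow, ← pow_mul, map_p_pow_mul]
  have h1 := norm_term_le (z := τ (((p : R) ^ (n + 1) * r) ^ (j + 1 + 1)))
    (m := (n + 1) * (j + 2)) (k := j + 1) (by rw [h0]; exact dvd_mul_right _ _)
  refine h1.trans ?_
  have h2 : p * (j + 2) * p ^ (2 * n) ≤ p ^ ((n + 1) * (j + 2)) := by
    calc p * (j + 2) * p ^ (2 * n) ≤ p * p ^ (j + 1) * p ^ (2 * n) :=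
          Nat.mul_le_mul_right _ (Nat.mul_le_mul_left _ (succ_le_pow j))
      _ = p ^ (j + 2 + 2 * n) := by rw [← pow_succ', ← pow_add]
      _ ≤ p ^ ((n + 1) * (j + 2)) := by
          apply Nat.pow_le_pow_right hp.out.pos
          nlinarith [Nat.zero_le (n * j)]
  have h3 : (p * ((j : ℝ) + 2)) * p ^ (2 * n) ≤ (p : ℝ) ^ ((n + 1) * (j + 2)) := by
    exact_mod_cast h2
  rw [← div_eq_inv_mul, div_le_iff₀ (by positivity), ← div_eq_inv_mul, le_div_iff₀ (by positivity)]
  push_cast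
  linarith

theorem tlTerm_zero (τ : R →+ ℤ_[p]) (r : R) (n : ℕ) :
    tlTerm τ ((p : R) ^ n * r) 0 = ((p ^ n * τ r : ℤ_[p]) : ℚ_[p]) := by
  rw [tlTerm, zero_add, pow_one, map_p_pow_mul]
  simp

theorem tl_summable_pow (τ : R →+ ℤ_[p]) (r : R) (n : ℕ) :
    Summable (tlTerm τ ((p : R) ^ (n + 1) * r)) := by
  have : (p : R) ^ (n + 1) * r = (p : R) * ((p : R) ^ n * r) := by rw [pow_succ', mul_assoc]
  rw [this]
  exact tl_summable τ cen_p _

theorem norm_tl_sub_le (τ : R →+ ℤ_[p]) (r : R) (n : ℕ) :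
    ‖tl τ ((p : R) ^ (n + 1) * r) - ((p ^ (n + 1) * τ r : ℤ_[p]) : ℚ_[p])‖ ≤
      ((p : ℝ) ^ (2 * n))⁻¹ := by
  rw [tl, (tl_summable_pow τ r n).tsum_eq_zero_add, tlTerm_zero, add_sub_cancel_left]
  exact IsUltrametricDist.norm_tsum_le_of_forall_le (fun j => term_le_aux τ r n j)

theorem dvd_of_norm_le {z : ℤ_[p]} {m : ℕ} (h : ‖(z : ℚ_[p])‖ ≤ ((p : ℝ) ^ m)⁻¹) :
    (p : ℤ_[p]) ^ m ∣ z := by
  have h1 : ‖z‖ ≤ (p : ℝ) ^ (-(m : ℤ)) := by
    rw [zpow_neg, zpow_natCast]
    exact h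
  rw [PadicInt.norm_le_pow_iff_mem_span_pow, Ideal.mem_span_singleton] at h1
  exact h1

theorem tl_ne_zero (τ : R →+ ℤ_[p]) (r : R) (a : ℕ) (ha : 3 ≤ a) (h : ¬ (p : ℤ_[p]) ∣ τ r) :
    tl τ ((p : R) ^ a * r) ≠ 0 := by
  obtain ⟨n, rfl⟩ : ∃ n, a = n + 1 := ⟨a - 1, by omega⟩
  intro h0
  have h1 := norm_tl_sub_le τ r n
  rw [h0, zero_sub, norm_neg] at h1
  have h3 := dvd_of_norm_le h1
  have h4 : (p : ℤ_[p]) ^ (n + 1 + 1) ∣ p ^ (n + 1) * τ r :=
    dvd_trans (pow_dvd_pow _ (by omega)) h3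
  rw [pow_succ] at h4
  have hp0 : (p : ℤ_[p]) ≠ 0 := by exact_mod_cast hp.out.ne_zero
  exact h ((mul_dvd_mul_iff_left (pow_ne_zero _ hp0)).1 h4)

end Pool.Agent.H71.KP

end

section

/-!
# The skew ring and the homomorphism `lam`

Let `C_p` act on a ring `M` and let `κ : M → ℤ_[p]` satisfy `κ (a b) = κ (b α(a))`, `α` the action of
the generator. The skew ring `M * C_p` is realised as a ring of matrices. The homomorphism
`θ(σ) = σ s` to the group ring `(M * C_p)[C_p]` gives the homomorphism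
`lam (v) = τ₁ (log (v⁻¹ θ(v)))` on the units of `M * C_p`.
-/

set_option autoImplicit false
set_option linter.unusedSectionVars false

open Matrix

universe u v

namespace Pool.Agent.H71.KP

section Central

variable {p : ℕ} [hp : Fact p.Prime] {R : Type u} [Ring R]

/-- `s - 1` for a central `s` with `s ^ p = 1` -/
theorem cen_sub_one {s : R} (hs : ∀ x, s * x = x * s) (h : s ^ p = 1) : Cen p (s - 1) := by
  have hcomm : ∀ x, (s - 1) * x = x * (s - 1) := by
    intro x
    rw [sub_mul, mul_sub, hs, one_mul, mul_one]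
  refine ⟨hcomm, ?_⟩
  obtain ⟨r, hr⟩ := Commute.exists_add_pow_prime_eq hp.out
    (show Commute (s - 1) 1 from Commute.one_right _)
  rw [sub_add_cancel, h, one_pow, mul_one] at hr
  set c := s - 1 with hc
  have h1 : c ^ p = (p : R) * (c * (-r)) := by
    have : c ^ p + (p : R) * c * r = 0 := by
      have e : c ^ p + 1 + (p : R) * c * r = 1 + (c ^ p + (p : R) * c * r) := by abel
      rw [e] at hr
      exact (add_eq_left.1 hr.symm)
    rw [mul_neg, mul_neg, ← mul_assoc]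
    exact eq_neg_of_add_eq_zero_left this
  have hq : 0 < p - 1 := Nat.sub_pos_of_lt hp.out.one_lt
  have h2 : ∀ q : ℕ, ∃ w, c ^ (q * (p - 1) + 1) = (p : R) ^ q * (c * w) := by
    intro q
    induction q with
    | zero => exact ⟨1, by simp⟩
    | succ q ih =>
      obtain ⟨w, hw⟩ := ih
      refine ⟨-r * w, ?_⟩
      have e1 : (q + 1) * (p - 1) + 1 = (p - 1) + (q * (p - 1) + 1) := by ring
      rw [e1, pow_add, hw, ← mul_assoc, ← p_pow_comm, mul_assoc, ← mul_assoc (c ^ (p - 1)),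
        ← pow_succ]
      have e2 : p - 1 + 1 = p := by omega
      rw [e2, h1, pow_succ]
      simp only [mul_assoc]
  intro k
  obtain ⟨w, hw⟩ := h2 (k / (p - 1))
  refine ⟨c * w * c ^ (k % (p - 1)), ?_⟩
  have e1 : k + 1 = (k / (p - 1)) * (p - 1) + 1 + k % (p - 1) := by
    have := Nat.div_add_mod k (p - 1)
    rw [mul_comm] at this
    omega
  conv_lhs => rw [e1]
  rw [pow_add, hw, mul_assoc]

end Central

/-- A ring with an action of `C_p` and a twisted trace. -/
structure TwTr (p : ℕ) [Fact p.Prime] (M : Type u) [Ring M] where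
  /-- the action -/
  act : ZMod p → M →+* M
  act_zero : ∀ a, act 0 a = a
  act_add : ∀ i j a, act (i + j) a = act i (act j a)
  /-- the twisted trace -/
  κ : M →+ ℤ_[p]
  tw : ∀ a b, κ (a * b) = κ (b * act 1 a)

namespace TwTr

variable {p : ℕ} [hp : Fact p.Prime] {M : Type u} [Ring M] (t : TwTr p M)

theorem κ_one (a : M) : t.κ (t.act 1 a) = t.κ a := by
  have := t.tw a 1
  rw [mul_one, one_mul] at this
  exact this.symm

theorem κ_act (i : ZMod p) (a : M) : t.κ (t.act i a) = t.κ a := by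
  have h : ∀ n : ℕ, t.κ (t.act (n : ZMod p) a) = t.κ a := by
    intro n
    induction n with
    | zero => rw [Nat.cast_zero, t.act_zero]
    | succ n ih => rw [Nat.cast_succ, add_comm, t.act_add, t.κ_one, ih]
  have := h i.val
  rwa [ZMod.natCast_zmod_val] at this

section Sk

variable {A : Type} [AddCommGroup A] [Fintype A] [DecidableEq A] (π : A →+ ZMod p)

/-- The skew ring as a ring of matrices. -/
def sk : Subring (Matrix A A M) where
  carrier := {V | ∀ a b l, V (a + l) (b + l) = t.act (π l) (V a b)}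
  mul_mem' := by
    intro V W hV hW a b l
    rw [Matrix.mul_apply, Matrix.mul_apply, map_sum,
      ← Equiv.sum_comp (Equiv.addRight l) (fun x => V (a + l) x * W x (b + l))]
    apply Finset.sum_congr rfl
    intro x _
    rw [Equiv.coe_addRight, hV, hW, map_mul]
  add_mem' := by
    intro V W hV hW a b l
    rw [Matrix.add_apply, Matrix.add_apply, hV, hW, map_add]
  neg_mem' := by
    intro V hV a b l
    rw [Matrix.neg_apply, Matrix.neg_apply, hV, map_neg]
  one_mem' := by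
    intro a b l
    rw [Matrix.one_apply, Matrix.one_apply]
    simp only [add_left_inj]
    split_ifs <;> simp
  zero_mem' := by
    intro a b l
    rw [Matrix.zero_apply, Matrix.zero_apply, map_zero]

/-- the trace -/
noncomputable def tr0 (x : A) : t.sk π →+ ℤ_[p] where
  toFun V := t.κ (V.1 0 x)
  map_zero' := by
    change t.κ (0 : M) = 0
    rw [map_zero]
  map_add' V W := by
    change t.κ (V.1 0 x + W.1 0 x) = _
    rw [map_add]

theorem tr0_comm {x : A} (hx : π x = 1) (V W : t.sk π) :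
    t.tr0 π x (V * W) = t.tr0 π x (W * V) := by
  change t.κ ((V.1 * W.1) 0 x) = t.κ ((W.1 * V.1) 0 x)
  rw [Matrix.mul_apply, Matrix.mul_apply, map_sum, map_sum]
  rw [← Equiv.sum_comp (Equiv.subLeft x) (fun y => t.κ (V.1 0 y * W.1 y x))]
  apply Finset.sum_congr rfl
  intro a _
  rw [Equiv.subLeft_apply]
  have h1 : W.1 x (a + x) = t.act 1 (W.1 0 a) := by
    have := W.2 0 a x
    rwa [zero_add, hx] at this
  have h2 : V.1 a x = t.act (π a) (V.1 0 (x - a)) := by
    have := V.2 0 (x - a) a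
    rwa [zero_add, sub_add_cancel] at this
  have h3 : W.1 x (a + x) = t.act (π a) (W.1 (x - a) x) := by
    have := W.2 (x - a) x a
    rwa [sub_add_cancel, add_comm x a] at this
  rw [t.tw (W.1 0 a), ← h1, h2, h3, ← map_mul, t.κ_act]

end Sk

/-- the skew ring -/
abbrev S : Subring (Matrix (ZMod p) (ZMod p) M) := t.sk (AddMonoidHom.id (ZMod p))

/-- the group ring of `C_p` over the skew ring -/
abbrev B : Subring (Matrix (ZMod p × ZMod p) (ZMod p × ZMod p) M) :=
  t.sk (AddMonoidHom.fst (ZMod p) (ZMod p))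

/-- the trace of the skew ring -/
noncomputable def τ : t.S →+ ℤ_[p] := t.tr0 _ 1

/-- the trace of the group ring -/
noncomputable def τ₁ : t.B →+ ℤ_[p] := t.tr0 _ (1, 1)

theorem τ₁_comm (V W : t.B) : t.τ₁ (V * W) = t.τ₁ (W * V) := t.tr0_comm _ rfl V W

/-- the inclusion -/
def ι : t.S →+* t.B where
  toFun V := ⟨Matrix.of fun a b => if b.2 = a.2 then V.1 a.1 b.1 else 0, by
    rintro a b l
    simp only [Matrix.of_apply, Prod.fst_add, Prod.snd_add, add_left_inj]
    split_ifs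
    · exact V.2 _ _ _
    · rw [map_zero]⟩
  map_one' := by
    apply Subtype.ext
    ext a b
    change (if b.2 = a.2 then (1 : Matrix (ZMod p) (ZMod p) M) a.1 b.1 else 0) =
      (1 : Matrix (ZMod p × ZMod p) (ZMod p × ZMod p) M) a b
    rw [Matrix.one_apply, Matrix.one_apply]
    by_cases h : a = b
    · subst h
      simp
    · by_cases h2 : b.2 = a.2
      · have h1 : a.1 ≠ b.1 := fun h1 => h (Prod.ext h1 h2.symm)
        simp [h, h1]
      · simp [h, h2]
  map_zero' := by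
    apply Subtype.ext
    ext a b
    change (if b.2 = a.2 then (0 : M) else 0) = 0
    split_ifs <;> rfl
  map_add' V W := by
    apply Subtype.ext
    ext a b
    change (if b.2 = a.2 then V.1 a.1 b.1 + W.1 a.1 b.1 else 0) =
      (if b.2 = a.2 then V.1 a.1 b.1 else 0) + (if b.2 = a.2 then W.1 a.1 b.1 else 0)
    split_ifs <;> simp
  map_mul' V W := by
    apply Subtype.ext
    ext a b
    change (if b.2 = a.2 then (V.1 * W.1) a.1 b.1 else 0) = ((Matrix.of fun a b =>
      if b.2 = a.2 then V.1 a.1 b.1 else 0) * (Matrix.of fun a b =>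
      if b.2 = a.2 then W.1 a.1 b.1 else 0) : Matrix (ZMod p × ZMod p) (ZMod p × ZMod p) M) a b
    rw [Matrix.mul_apply, Matrix.mul_apply, Fintype.sum_prod_type]
    split_ifs with h
    · apply Finset.sum_congr rfl
      intro x _
      rw [Finset.sum_eq_single a.2]
      · simp [h]
      · intro y _ hy
        simp [hy]
      · intro h1
        exact absurd (Finset.mem_univ _) h1
    · symm
      apply Finset.sum_eq_zero
      intro x _
      apply Finset.sum_eq_zero
      intro y _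
      simp only [Matrix.of_apply]
      by_cases h1 : y = a.2
      · subst h1
        simp [h]
      · simp [h1]

theorem ι_apply (V : t.S) (a b : ZMod p × ZMod p) :
    (t.ι V).1 a b = if b.2 = a.2 then V.1 a.1 b.1 else 0 := rfl

/-- the homomorphism `σ ↦ σ s` -/
def θ : t.S →+* t.B where
  toFun V := ⟨Matrix.of fun a b => if b.2 - a.2 = b.1 - a.1 then V.1 a.1 b.1 else 0, by
    rintro a b l
    simp only [Matrix.of_apply, Prod.fst_add, Prod.snd_add, add_sub_add_right_eq_sub]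
    split_ifs
    · exact V.2 _ _ _
    · rw [map_zero]⟩
  map_one' := by
    apply Subtype.ext
    ext a b
    change (if b.2 - a.2 = b.1 - a.1 then (1 : Matrix (ZMod p) (ZMod p) M) a.1 b.1 else 0) =
      (1 : Matrix (ZMod p × ZMod p) (ZMod p × ZMod p) M) a b
    rw [Matrix.one_apply, Matrix.one_apply]
    by_cases h : a = b
    · subst h
      simp
    · by_cases h1 : a.1 = b.1
      · have h2 : a.2 ≠ b.2 := fun h2 => h (Prod.ext h1 h2)
        have h3 : ¬ (b.2 - a.2 = b.1 - a.1) := by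
          rw [h1, sub_self, sub_eq_zero]
          exact fun h4 => h2 h4.symm
        simp [h, h3]
      · simp [h, h1]
  map_zero' := by
    apply Subtype.ext
    ext a b
    change (if b.2 - a.2 = b.1 - a.1 then (0 : M) else 0) = 0
    split_ifs <;> rfl
  map_add' V W := by
    apply Subtype.ext
    ext a b
    change (if b.2 - a.2 = b.1 - a.1 then V.1 a.1 b.1 + W.1 a.1 b.1 else 0) =
      (if b.2 - a.2 = b.1 - a.1 then V.1 a.1 b.1 else 0) +
      (if b.2 - a.2 = b.1 - a.1 then W.1 a.1 b.1 else 0)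
    split_ifs <;> simp
  map_mul' V W := by
    apply Subtype.ext
    ext a b
    change (if b.2 - a.2 = b.1 - a.1 then (V.1 * W.1) a.1 b.1 else 0) = ((Matrix.of fun a b =>
      if b.2 - a.2 = b.1 - a.1 then V.1 a.1 b.1 else 0) * (Matrix.of fun a b =>
      if b.2 - a.2 = b.1 - a.1 then W.1 a.1 b.1 else 0) :
      Matrix (ZMod p × ZMod p) (ZMod p × ZMod p) M) a b
    rw [Matrix.mul_apply, Matrix.mul_apply, Fintype.sum_prod_type]
    split_ifs with h
    · apply Finset.sum_congr rfl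
      intro x _
      rw [Finset.sum_eq_single (a.2 + (x - a.1))]
      · have h1 : b.2 - (a.2 + (x - a.1)) = b.1 - x := by
          linear_combination h
        simp [h1]
      · intro y _ hy
        have h1 : ¬ (y - a.2 = x - a.1) := by
          intro h1
          apply hy
          rw [← h1]
          ring
        simp [h1]
      · intro h1
        exact absurd (Finset.mem_univ _) h1
    · symm
      apply Finset.sum_eq_zero
      intro x _
      apply Finset.sum_eq_zero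
      intro y _
      simp only [Matrix.of_apply]
      by_cases h1 : y - a.2 = x - a.1
      · have h2 : ¬ (b.2 - y = b.1 - x) := by
          intro h2
          apply h
          linear_combination h1 + h2
        simp [h2]
      · simp [h1]

theorem θ_apply (V : t.S) (a b : ZMod p × ZMod p) :
    (t.θ V).1 a b = if b.2 - a.2 = b.1 - a.1 then V.1 a.1 b.1 else 0 := rfl

theorem τ₁_ι (V : t.S) : t.τ₁ (t.ι V) = 0 := by
  change t.κ ((t.ι V).1 0 (1, 1)) = 0
  rw [ι_apply, if_neg, map_zero]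
  exact one_ne_zero

theorem τ₁_θ (V : t.S) : t.τ₁ (t.θ V) = t.τ V := by
  change t.κ ((t.θ V).1 0 (1, 1)) = t.κ (V.1 0 1)
  rw [θ_apply, if_pos]
  · rfl
  · rfl

/-- the central element `s` -/
def s : t.B := ⟨Matrix.of fun a b => if b.1 = a.1 ∧ b.2 = a.2 + 1 then 1 else 0, by
  intro a b l
  simp only [Matrix.of_apply, Prod.fst_add, Prod.snd_add, add_left_inj]
  have : (b.2 + l.2 = a.2 + l.2 + 1) = (b.2 = a.2 + 1) := by
    rw [add_right_comm, add_left_inj]
  simp only [this]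
  split_ifs <;> simp⟩

theorem s_apply (a b : ZMod p × ZMod p) :
    (t.s).1 a b = if b.1 = a.1 ∧ b.2 = a.2 + 1 then 1 else 0 := rfl

theorem s_mul (V : t.B) (a b : ZMod p × ZMod p) : (t.s * V).1 a b = V.1 (a.1, a.2 + 1) b := by
  change ((t.s).1 * V.1) a b = _
  rw [Matrix.mul_apply, Finset.sum_eq_single (a.1, a.2 + 1)]
  · rw [s_apply, if_pos ⟨rfl, rfl⟩, one_mul]
  · intro x _ hx
    rw [s_apply, if_neg, zero_mul]
    rintro ⟨h1, h2⟩
    exact hx (Prod.ext h1 h2)
  · intro h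
    exact absurd (Finset.mem_univ _) h

theorem mul_s (V : t.B) (a b : ZMod p × ZMod p) : (V * t.s).1 a b = V.1 a (b.1, b.2 - 1) := by
  change (V.1 * (t.s).1) a b = _
  rw [Matrix.mul_apply, Finset.sum_eq_single (b.1, b.2 - 1)]
  · rw [s_apply, if_pos ⟨rfl, by ring⟩, mul_one]
  · intro x _ hx
    rw [s_apply, if_neg, mul_zero]
    rintro ⟨h1, h2⟩
    apply hx
    refine Prod.ext h1.symm ?_
    change x.2 = b.2 - 1
    rw [h2]
    ring
  · intro h
    exact absurd (Finset.mem_univ _) h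

theorem s_comm (V : t.B) : t.s * V = V * t.s := by
  apply Subtype.ext
  ext a b
  rw [s_mul, mul_s]
  have h := V.2 a (b.1, b.2 - 1) (0, 1)
  have h1 : (a + (0, 1) : ZMod p × ZMod p) = (a.1, a.2 + 1) := Prod.ext (add_zero _) rfl
  have h2 : ((b.1, b.2 - 1) + (0, 1) : ZMod p × ZMod p) = b :=
    Prod.ext (add_zero _) (sub_add_cancel _ _)
  rw [h1, h2] at h
  rw [h]
  exact t.act_zero _

theorem s_pow (n : ℕ) (a b : ZMod p × ZMod p) :
    (t.s ^ n).1 a b = if b.1 = a.1 ∧ b.2 = a.2 + n then 1 else 0 := by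
  induction n generalizing a b with
  | zero =>
    rw [pow_zero]
    change (1 : Matrix (ZMod p × ZMod p) (ZMod p × ZMod p) M) a b = _
    rw [Matrix.one_apply, Nat.cast_zero, add_zero]
    by_cases h : a = b
    · subst h
      simp
    · rw [if_neg h, if_neg]
      rintro ⟨h1, h2⟩
      exact h (Prod.ext h1.symm h2.symm)
  | succ n ih =>
    rw [pow_succ', s_mul, ih]
    have : a.2 + 1 + (n : ZMod p) = a.2 + ((n + 1 : ℕ) : ZMod p) := by
      push_cast
      ring
    simp only [this]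

theorem s_pow_p : t.s ^ p = 1 := by
  apply Subtype.ext
  ext a b
  rw [s_pow]
  change _ = (1 : Matrix (ZMod p × ZMod p) (ZMod p × ZMod p) M) a b
  rw [Matrix.one_apply, ZMod.natCast_self, add_zero]
  by_cases h : a = b
  · subst h
    simp
  · rw [if_neg h, if_neg]
    rintro ⟨h1, h2⟩
    exact h (Prod.ext h1.symm h2.symm)

/-- the central element `s - 1` -/
def c : t.B := t.s - 1

theorem cen_c : Cen p t.c := cen_sub_one t.s_comm t.s_pow_p

theorem val_sub_one {m : ZMod p} (hm : m ≠ 0) : (m - 1).val = m.val - 1 := by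
  have h1 : (1 : ZMod p).val = 1 := by
    have : Fact (1 < p) := ⟨hp.out.one_lt⟩
    exact ZMod.val_one p
  have h2 : 0 < m.val := Nat.pos_of_ne_zero (fun h => hm ((ZMod.val_eq_zero m).1 h))
  rw [ZMod.val_sub (by rw [h1]; omega), h1]

theorem val_neg_one' : ((0 : ZMod p) - 1).val = p - 1 := by
  have : (0 : ZMod p) - 1 = ((p - 1 : ℕ) : ZMod p) := by
    rw [Nat.cast_sub hp.out.one_le, ZMod.natCast_self, Nat.cast_one]
  rw [this, ZMod.val_natCast, Nat.mod_eq_of_lt]
  have := hp.out.pos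
  omega

theorem ite_aux (x : M) (m n : ZMod p) :
    (if (m - 1).val < n.val then x else 0) - (if m.val < n.val then x else 0) =
      (if m = n then x else 0) - (if m = 0 then x else 0) := by
  have hn := ZMod.val_lt n
  by_cases hm : m = 0
  · subst hm
    rw [val_neg_one', if_neg (by omega), if_pos (rfl : (0 : ZMod p) = 0), ZMod.val_zero]
    by_cases h : n = 0
    · subst h
      simp
    · have h2 : 0 < n.val := Nat.pos_of_ne_zero (fun h' => h ((ZMod.val_eq_zero n).1 h'))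
      rw [if_pos h2, if_neg (fun h' => h h'.symm)]
  · rw [val_sub_one hm, if_neg hm, sub_zero]
    have h2 : 0 < m.val := Nat.pos_of_ne_zero (fun h => hm ((ZMod.val_eq_zero m).1 h))
    by_cases h : m = n
    · subst h
      rw [if_pos (by omega), if_neg (lt_irrefl _), if_pos rfl, sub_zero]
    · have h3 : m.val ≠ n.val := fun h' => h (ZMod.val_injective p h')
      rw [if_neg h]
      by_cases h4 : m.val < n.val
      · rw [if_pos (by omega), if_pos h4, sub_self]
      · rw [if_neg (by omega), if_neg h4, sub_self]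

/-- the quotient of `θ V - ι V` by `c` -/
def quo (V : t.S) : t.B :=
  ⟨Matrix.of fun a b => if (b.2 - a.2).val < (b.1 - a.1).val then V.1 a.1 b.1 else 0, by
    intro a b l
    simp only [Matrix.of_apply, Prod.fst_add, Prod.snd_add, add_sub_add_right_eq_sub]
    split_ifs
    · exact V.2 _ _ _
    · rw [map_zero]⟩

theorem θ_sub_ι (V : t.S) : t.θ V - t.ι V = t.c * t.quo V := by
  rw [c, sub_mul, one_mul]
  apply Subtype.ext
  ext a b
  change (t.θ V).1 a b - (t.ι V).1 a b = (t.s * t.quo V).1 a b - (t.quo V).1 a b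
  rw [s_mul, θ_apply, ι_apply]
  change _ = (if (b.2 - (a.2 + 1)).val < (b.1 - a.1).val then V.1 a.1 b.1 else 0) -
    (if (b.2 - a.2).val < (b.1 - a.1).val then V.1 a.1 b.1 else 0)
  rw [← sub_sub, ite_aux]
  simp only [sub_eq_zero]

theorem cong_θ (v : t.Sˣ) : Cong t.c (((Units.map t.ι.toMonoidHom v)⁻¹ : t.Bˣ) * t.θ v) := by
  refine ⟨((Units.map t.ι.toMonoidHom v)⁻¹ : t.Bˣ) * t.quo v, ?_⟩
  have h1 : t.θ v = t.ι v + t.c * t.quo v := by rw [← θ_sub_ι]; abel
  have h2 : (((Units.map t.ι.toMonoidHom v)⁻¹ : t.Bˣ) : t.B) * t.ι v = 1 :=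
    Units.inv_mul (Units.map t.ι.toMonoidHom v)
  rw [h1, mul_add, h2, ← mul_assoc, ← t.cen_c.comm, mul_assoc]

/-- the homomorphism on the units of the skew ring -/
noncomputable def lam (v : t.Sˣ) : ℚ_[p] :=
  L t.τ₁ (((Units.map t.ι.toMonoidHom v)⁻¹ : t.Bˣ) * t.θ v)

theorem lam_mul (v w : t.Sˣ) : t.lam (v * w) = t.lam v + t.lam w := by
  set V := Units.map t.ι.toMonoidHom v
  set W := Units.map t.ι.toMonoidHom w
  have h1 : (((Units.map t.ι.toMonoidHom (v * w))⁻¹ : t.Bˣ) : t.B) * t.θ (v * w : t.Sˣ) =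
      ((W⁻¹ : t.Bˣ) * (((V⁻¹ : t.Bˣ) : t.B) * t.θ v) * W) *
        (((W⁻¹ : t.Bˣ) : t.B) * t.θ w) := by
    rw [map_mul, _root_.mul_inv_rev, Units.val_mul, Units.val_mul, map_mul]
    calc ((W⁻¹ : t.Bˣ) : t.B) * (V⁻¹ : t.Bˣ) * (t.θ v * t.θ w)
        = (W⁻¹ : t.Bˣ) * ((V⁻¹ : t.Bˣ) * t.θ v) * 1 * t.θ w := by
          rw [mul_one]; simp only [mul_assoc]
      _ = (W⁻¹ : t.Bˣ) * ((V⁻¹ : t.Bˣ) * t.θ v) * (W * (W⁻¹ : t.Bˣ)) * t.θ w := by
          rw [Units.mul_inv]
      _ = _ := by simp only [mul_assoc]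
  rw [lam, h1, L_mul t.τ₁ t.τ₁_comm t.cen_c ((t.cong_θ v).conj t.cen_c W) (t.cong_θ w),
    L_conj t.τ₁ t.τ₁_comm]
  rfl

theorem lam_one : t.lam 1 = 0 := by
  have := t.lam_mul 1 1
  rw [mul_one] at this
  exact (add_eq_left.1 this.symm)

theorem lam_conj (v w : t.Sˣ) : t.lam (w⁻¹ * v * w) = t.lam v := by
  have h1 : t.lam w⁻¹ + t.lam w = 0 := by rw [← lam_mul, inv_mul_cancel, lam_one]
  rw [lam_mul, lam_mul]
  linear_combination h1

/-- For units congruent to `1` modulo `p` the homomorphism `lam` is the logarithm. -/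
theorem lam_eq {v : t.Sˣ} (h : Cong (p : t.S) (v : t.S)) : t.lam v = L t.τ (v : t.S) := by
  have h1 : Cong (p : t.B) (t.ι v) := by
    have := h.map t.ι
    rwa [map_natCast] at this
  have h2 : Cong (p : t.B) (t.θ v) := by
    have := h.map t.θ
    rwa [map_natCast] at this
  have h3 : (((Units.map t.ι.toMonoidHom v)⁻¹ : t.Bˣ) : t.B) * t.ι v = 1 :=
    Units.inv_mul (Units.map t.ι.toMonoidHom v)
  have h4 : L t.τ₁ (t.ι v) = 0 := by
    rw [L_map]
    have : ∀ r, pull t.ι t.τ₁ r = (0 : t.S →+ ℤ_[p]) r := fun r => t.τ₁_ι r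
    rw [L_congr_fun this, L]
    have h5 : tlTerm (0 : t.S →+ ℤ_[p]) ((v : t.S) - 1) = fun _ => 0 := by
      funext k
      simp [tlTerm]
    rw [tl, h5, tsum_zero]
  rw [lam, L_mul t.τ₁ t.τ₁_comm cen_p (h1.of_mul_eq_one cen_p h3) h2,
    L_inv t.τ₁ t.τ₁_comm cen_p h1 h3, h4, neg_zero, zero_add, L_map]
  exact L_congr_fun (fun r => t.τ₁_θ r) _

end TwTr

end Pool.Agent.H71.KP

end
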