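import Pool.Agent.H94.FJ.M12
import Pool.Agent.H94.FJ.M13

/-! The parts of this file: H71.KP.Desc, H71.KP.Ten, H71.KP.LogDet. -/

section

/-!
# Descent of relations to finitely generated subrings
-/

set_option autoImplicit false
set_option linter.unusedSectionVars false

open Matrix Filter

universe u v w t

namespace Pool.Agent.H71.KP

open Pool.Agent.H71.WH (InvMat K1 K1.mk K1.unit K1Rel genK1 addOne oneByOne CycSub conjHom)

section FreeAb

/-- `FreeAbelianGroup.map` is injective for injective maps. -/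
theorem freeMap_injective {α : Type u} {β : Type v} {f : α → β} (hf : Function.Injective f) :
    Function.Injective (FreeAbelianGroup.map f) := by
  classical
  rcases isEmpty_or_nonempty α with hα | hα
  · intro x y _
    have h0 : ∀ z : FreeAbelianGroup α, z = 0 := by
      intro z
      induction z using FreeAbelianGroup.induction_on with
      | zero => rfl
      | of x => exact isEmptyElim x
      | neg x _ => exact isEmptyElim x
      | add x y hx hy => rw [hx, hy, add_zero]
    rw [h0 x, h0 y]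
  · obtain ⟨g, hg⟩ := hf.hasLeftInverse
    intro x y h
    have h1 : ∀ z : FreeAbelianGroup α, FreeAbelianGroup.map g (FreeAbelianGroup.map f z) = z := by
      intro z
      induction z using FreeAbelianGroup.induction_on with
      | zero => rw [map_zero, map_zero]
      | of x => rw [FreeAbelianGroup.map_of_apply, FreeAbelianGroup.map_of_apply, hg]
      | neg x hx => rw [map_neg, map_neg, hx]
      | add x y hx hy => rw [map_add, map_add, hx, hy]
    rw [← h1 x, h, h1 y]

end FreeAb

section Unit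

/-- Units lift along injective ring homomorphisms if they and their inverses are in the range. -/
theorem exists_unit_lift {A : Type u} {B : Type v} [Ring A] [Ring B] (φ : A →+* B)
    (hφ : Function.Injective φ) (y : Bˣ) (h1 : (y : B) ∈ φ.range)
    (h2 : ((y⁻¹ : Bˣ) : B) ∈ φ.range) : ∃ x : Aˣ, Units.map φ.toMonoidHom x = y := by
  obtain ⟨a, ha⟩ := h1
  obtain ⟨b, hb⟩ := h2
  refine ⟨⟨a, b, ?_, ?_⟩, ?_⟩
  · apply hφ
    rw [map_mul, ha, hb, map_one, Units.mul_inv]
  · apply hφ
    rw [map_mul, ha, hb, map_one, Units.inv_mul]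
  · apply Units.ext
    exact ha

end Unit

section Sub

variable {R : Type u} [CommRing R]

/-- the subring generated by a finite set -/
def sub (s : Finset R) : Subring R := Subring.closure (s : Set R)

/-- the inclusion -/
def incl (s : Finset R) : sub s →+* R := (sub s).subtype

theorem incl_injective (s : Finset R) : Function.Injective (incl s) := Subtype.val_injective

theorem eventually_mem (r : R) : ∀ᶠ s : Finset R in atTop, r ∈ (incl s).range := by
  classical
  filter_upwards [eventually_ge_atTop {r}] with s hs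
  exact ⟨⟨r, Subring.subset_closure (Finset.mem_coe.2 (hs (Finset.mem_singleton_self r)))⟩, rfl⟩

theorem eventually_ga {H : Type v} [Group H] (x : MonoidAlgebra R H) :
    ∀ᶠ s : Finset R in atTop, x ∈ (MonoidAlgebra.mapRingHom H (incl s)).range := by
  induction x using MonoidAlgebra.induction_linear with
  | zero => exact Eventually.of_forall fun s => (MonoidAlgebra.mapRingHom H (incl s)).range.zero_mem
  | add x y hx hy =>
    filter_upwards [hx, hy] with s h1 h2
    exact (MonoidAlgebra.mapRingHom H (incl s)).range.add_mem h1 h2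
  | single g r =>
    filter_upwards [eventually_mem r] with s hs
    obtain ⟨r', hr⟩ := hs
    exact ⟨MonoidAlgebra.single g r', by rw [MonoidAlgebra.mapRingHom_single, hr]⟩

theorem mapRingHom_injective {R' : Type w} [CommRing R'] {φ : R' →+* R}
    (hφ : Function.Injective φ) (H : Type v) [Group H] :
    Function.Injective (MonoidAlgebra.mapRingHom H φ) := by
  intro x y h
  ext a
  apply hφ
  have h1 := congrArg (fun z : MonoidAlgebra R H => z.coeff a) h
  simpa only [MonoidAlgebra.coeff_mapRingHom] using h1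

theorem eventually_uMap {H : Type v} [Group H] (x : (MonoidAlgebra R H)ˣ) :
    ∀ᶠ s : Finset R in atTop, ∃ x', uMap (incl s) H x' = x := by
  filter_upwards [eventually_ga (x : MonoidAlgebra R H),
    eventually_ga ((x⁻¹ : (MonoidAlgebra R H)ˣ) : MonoidAlgebra R H)] with s h1 h2
  exact exists_unit_lift _ (mapRingHom_injective (incl_injective s) H) x h1 h2

theorem eventually_mat {H : Type v} [Group H] {n : ℕ}
    (x : Matrix (Fin n) (Fin n) (MonoidAlgebra R H)) :
    ∀ᶠ s : Finset R in atTop,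
      x ∈ (RingHom.mapMatrix (m := Fin n) (MonoidAlgebra.mapRingHom H (incl s))).range := by
  have h : ∀ᶠ s : Finset R in atTop, ∀ i j,
      x i j ∈ (MonoidAlgebra.mapRingHom H (incl s)).range :=
    eventually_all.2 fun i => eventually_all.2 fun j => eventually_ga (x i j)
  filter_upwards [h] with s hs
  choose y hy using hs
  exact ⟨Matrix.of y, Matrix.ext fun i j => hy i j⟩

theorem mapMatrix_injective {A : Type u} {B : Type v} [Ring A] [Ring B] {φ : A →+* B}
    (hφ : Function.Injective φ) (n : ℕ) :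
    Function.Injective (RingHom.mapMatrix (m := Fin n) φ) := by
  intro x y h
  refine Matrix.ext fun i j => hφ ?_
  exact congrFun (congrFun h i) j

theorem eventually_mapGL {H : Type v} [Group H] {n : ℕ}
    (x : (Matrix (Fin n) (Fin n) (MonoidAlgebra R H))ˣ) :
    ∀ᶠ s : Finset R in atTop, ∃ x', mapGL (MonoidAlgebra.mapRingHom H (incl s)) n x' = x := by
  filter_upwards [eventually_mat (x : Matrix (Fin n) (Fin n) (MonoidAlgebra R H)),
    eventually_mat ((x⁻¹ : (Matrix (Fin n) (Fin n) (MonoidAlgebra R H))ˣ) :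
      Matrix (Fin n) (Fin n) (MonoidAlgebra R H))] with s h1 h2
  exact exists_unit_lift _ (mapMatrix_injective (mapRingHom_injective (incl_injective s) H) n)
    x h1 h2

end Sub

section Rel

/-- the map on invertible matrices -/
def invMap {A : Type u} {B : Type v} [Ring A] [Ring B] (φ : A →+* B) (a : InvMat A) : InvMat B :=
  ⟨a.n, mapGL φ a.n a.mat⟩

theorem mapGL_injective {A : Type u} {B : Type v} [Ring A] [Ring B] {φ : A →+* B}
    (hφ : Function.Injective φ) (n : ℕ) : Function.Injective (mapGL φ n) := by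
  intro x y h
  apply Units.ext
  exact mapMatrix_injective hφ n (congrArg Units.val h)

theorem invMap_injective {A : Type u} {B : Type v} [Ring A] [Ring B] {φ : A →+* B}
    (hφ : Function.Injective φ) : Function.Injective (invMap φ) := by
  rintro ⟨n, x⟩ ⟨m, y⟩ h
  rw [invMap, invMap] at h
  obtain ⟨h1, h2⟩ := InvMat.mk.inj h
  subst h1
  congr 1
  exact mapGL_injective hφ _ (eq_of_heq h2)

variable (R : Type u) [CommRing R] (G : Type v) [Group G]

/-- the relations of `Wh R G` on the free abelian group -/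
def WRel : AddSubgroup (FreeAbelianGroup (InvMat (MonoidAlgebra R G))) :=
  AddSubgroup.closure
    (({z | ∃ (n : ℕ) (x y : (Matrix (Fin n) (Fin n) (MonoidAlgebra R G))ˣ),
        z = genK1 (x * y) - (genK1 x + genK1 y)} ∪
      {z | ∃ (n : ℕ) (x : (Matrix (Fin n) (Fin n) (MonoidAlgebra R G))ˣ),
        z = genK1 (addOne x) - genK1 x}) ∪
      {z | ∃ x ∈ trivialUnits R G, z = genK1 (oneByOne x)})

/-- the projection to `K₁` -/
noncomputable def toK1 (A : Type u) [Ring A] : FreeAbelianGroup (InvMat A) →+ K1 A :=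
  QuotientAddGroup.mk' (K1Rel A)

theorem toK1_ker (A : Type u) [Ring A] : (toK1 A).ker = K1Rel A := QuotientAddGroup.ker_mk' _

/-- the projection -/
noncomputable def toWhF :
    FreeAbelianGroup (InvMat (MonoidAlgebra R G)) →+ Wh R G :=
  (QuotientAddGroup.mk' (trivialK1 R G)).comp (toK1 (MonoidAlgebra R G))

theorem toWhF_eq_zero (y : FreeAbelianGroup (InvMat (MonoidAlgebra R G))) :
    toWhF R G y = 0 ↔ y ∈ WRel R G := by
  have h1 : toWhF R G y = 0 ↔ toK1 (MonoidAlgebra R G) y ∈ trivialK1 R G :=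
    QuotientAddGroup.eq_zero_iff _
  have h2 : trivialK1 R G = (AddSubgroup.closure
      {z | ∃ x ∈ trivialUnits R G, z = genK1 (oneByOne x)}).map
      (toK1 (MonoidAlgebra R G)) := by
    rw [AddMonoidHom.map_closure, trivialK1]
    congr 1
    ext z
    constructor
    · rintro ⟨x, hx, rfl⟩
      exact ⟨_, ⟨x, hx, rfl⟩, rfl⟩
    · rintro ⟨_, ⟨x, hx, rfl⟩, rfl⟩
      exact ⟨x, hx, rfl⟩
  rw [h1, h2, ← AddSubgroup.mem_comap, AddSubgroup.comap_map_eq, toK1_ker, K1Rel,
    WRel, sup_comm, ← AddSubgroup.closure_union]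

end Rel

section Desc

variable {R : Type u} [CommRing R] {G : Type v} [Group G]

/-- the map on the free abelian groups -/
noncomputable def mapF {R : Type u} [CommRing R] (G : Type v) [Group G] (s : Finset R) :
    FreeAbelianGroup (InvMat (MonoidAlgebra (sub s) G)) →+
      FreeAbelianGroup (InvMat (MonoidAlgebra R G)) :=
  FreeAbelianGroup.map (invMap (MonoidAlgebra.mapRingHom G (incl s)))

theorem mapF_injective (s : Finset R) : Function.Injective (mapF G s) :=
  freeMap_injective (invMap_injective (mapRingHom_injective (incl_injective s) G))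

theorem mapF_gen (s : Finset R) {n : ℕ} (x : (Matrix (Fin n) (Fin n) (MonoidAlgebra (sub s) G))ˣ) :
    mapF G s (genK1 x) = genK1 (mapGL (MonoidAlgebra.mapRingHom G (incl s)) n x) :=
  FreeAbelianGroup.map_of_apply _

theorem eventually_rel {y : FreeAbelianGroup (InvMat (MonoidAlgebra R G))} (hy : y ∈ WRel R G) :
    ∀ᶠ s : Finset R in atTop, ∃ y' ∈ WRel (sub s) G, mapF G s y' = y := by
  classical
  induction hy using AddSubgroup.closure_induction with
  | zero => exact Eventually.of_forall fun s => ⟨0, AddSubgroup.zero_mem _, map_zero _⟩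
  | add a b _ _ ha hb =>
    filter_upwards [ha, hb] with s h1 h2
    obtain ⟨a', ha1, rfl⟩ := h1
    obtain ⟨b', hb1, rfl⟩ := h2
    exact ⟨a' + b', AddSubgroup.add_mem _ ha1 hb1, map_add _ _ _⟩
  | neg a _ ha =>
    filter_upwards [ha] with s h1
    obtain ⟨a', ha1, rfl⟩ := h1
    exact ⟨-a', AddSubgroup.neg_mem _ ha1, map_neg _ _⟩
  | mem z hz =>
    rcases hz with (⟨n, x, y, rfl⟩ | ⟨n, x, rfl⟩) | ⟨x, ⟨g, e, he, hx⟩, rfl⟩
    · filter_upwards [eventually_mapGL x, eventually_mapGL y] with s h1 h2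
      obtain ⟨x', rfl⟩ := h1
      obtain ⟨y', rfl⟩ := h2
      refine ⟨genK1 (x' * y') - (genK1 x' + genK1 y'),
        AddSubgroup.subset_closure (Or.inl (Or.inl ⟨n, x', y', rfl⟩)), ?_⟩
      rw [map_sub, map_add, mapF_gen, mapF_gen, mapF_gen, map_mul]
    · filter_upwards [eventually_mapGL x] with s h1
      obtain ⟨x', rfl⟩ := h1
      refine ⟨genK1 (addOne x') - genK1 x',
        AddSubgroup.subset_closure (Or.inl (Or.inr ⟨n, x', rfl⟩)), ?_⟩
      rw [map_sub, mapF_gen, mapF_gen, mapGL_addOne]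
    · filter_upwards [eventually_uMap x] with s h1
      obtain ⟨x', rfl⟩ := h1
      have hx' : x' ∈ trivialUnits (sub s) G := by
        rcases he with rfl | rfl
        · refine ⟨g, 1, Or.inl rfl, ?_⟩
          apply mapRingHom_injective (incl_injective s) G
          rw [MonoidAlgebra.mapRingHom_single, map_one]
          exact hx
        · refine ⟨g, -1, Or.inr rfl, ?_⟩
          apply mapRingHom_injective (incl_injective s) G
          rw [MonoidAlgebra.mapRingHom_single, map_neg, map_one]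
          exact hx
      refine ⟨genK1 (oneByOne x'), AddSubgroup.subset_closure (Or.inr ⟨x', hx', rfl⟩), ?_⟩
      rw [mapF_gen, mapGL_oneByOne]
      rfl

/-- the assembly map on free abelian groups -/
noncomputable def asmF (R : Type u) [CommRing R] (G : Type v) [Group G] :
    FreeAbelianGroup (CycUnit R G) →+ FreeAbelianGroup (InvMat (MonoidAlgebra R G)) :=
  FreeAbelianGroup.lift fun a => genK1 (oneByOne (unitsMap a.C.1.subtype a.x))

theorem toWhF_asmF (z : FreeAbelianGroup (CycUnit R G)) :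
    toWhF R G (asmF R G z) = assembly R G (toColim R G z) := by
  induction z using FreeAbelianGroup.induction_on with
  | zero => rw [map_zero, map_zero, map_zero, map_zero]
  | of x =>
    rw [asmF, FreeAbelianGroup.lift_apply_of]
    exact (assembly_cl x.C x.x).symm
  | neg x hx => rw [map_neg, map_neg, hx, map_neg, map_neg]
  | add x y hx hy => rw [map_add, map_add, hx, hy, map_add, map_add]

theorem eventually_free (z : FreeAbelianGroup (CycUnit R G)) :
    ∀ᶠ s : Finset R in atTop, ∃ z' : FreeAbelianGroup (CycUnit (sub s) G),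
      colimMap (incl s) G (toColim (sub s) G z') = toColim R G z ∧
        mapF G s (asmF (sub s) G z') = asmF R G z := by
  have hof : ∀ x : CycUnit R G, ∀ᶠ s : Finset R in atTop,
      ∃ z' : FreeAbelianGroup (CycUnit (sub s) G),
        colimMap (incl s) G (toColim (sub s) G z') = toColim R G (FreeAbelianGroup.of x) ∧
        mapF G s (asmF (sub s) G z') = asmF R G (FreeAbelianGroup.of x) := by
    rintro ⟨C, x⟩
    filter_upwards [eventually_uMap x] with s h1
    obtain ⟨x', rfl⟩ := h1
    refine ⟨gen C x', ?_, ?_⟩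
    · exact colimMap_cl (incl s) G C x'
    · rw [asmF, gen, FreeAbelianGroup.lift_apply_of, asmF, FreeAbelianGroup.lift_apply_of,
        mapF_gen, mapGL_oneByOne]
      change genK1 (oneByOne (uMap (incl s) G (unitsMap C.1.subtype x'))) = _
      rw [uMap_unitsMap]
  induction z using FreeAbelianGroup.induction_on with
  | zero => exact Eventually.of_forall fun s => ⟨0, by simp, by simp⟩
  | of x => exact hof x
  | neg x _ =>
    filter_upwards [hof x] with s h1
    obtain ⟨z', h2, h3⟩ := h1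
    refine ⟨-z', ?_, ?_⟩
    · rw [map_neg, map_neg, h2, map_neg]
    · rw [map_neg, map_neg, h3, map_neg]
  | add x y hx hy =>
    filter_upwards [hx, hy] with s h1 h2
    obtain ⟨a, ha1, ha2⟩ := h1
    obtain ⟨b, hb1, hb2⟩ := h2
    refine ⟨a + b, ?_, ?_⟩
    · rw [map_add, map_add, ha1, hb1, map_add]
    · rw [map_add, map_add, ha2, hb2, map_add]

/-- **Descent.** Elements of the kernel of the assembly map come from finitely generated
subrings. -/
theorem eventually_kernel (z : ColimU R G) (M : ℤ) (h : M • assembly R G z = 0) :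
    ∀ᶠ s : Finset R in atTop, ∃ z' : ColimU (sub s) G,
      colimMap (incl s) G z' = z ∧ M • assembly (sub s) G z' = 0 := by
  obtain ⟨y, rfl⟩ : ∃ y, toColim R G y = z := QuotientAddGroup.mk_surjective z
  have h1 : M • asmF R G y ∈ WRel R G := by
    rw [← toWhF_eq_zero, map_zsmul, toWhF_asmF, h]
  filter_upwards [eventually_free y, eventually_rel h1] with s h2 h3
  obtain ⟨z', hz1, hz2⟩ := h2
  obtain ⟨y', hy1, hy2⟩ := h3
  refine ⟨toColim (sub s) G z', hz1, ?_⟩
  have h4 : y' = M • asmF (sub s) G z' := by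
    apply mapF_injective s
    rw [hy2, map_zsmul, hz2]
  rw [← toWhF_asmF, ← map_zsmul, ← h4]
  exact (toWhF_eq_zero _ _ y').2 hy1

end Desc

end Pool.Agent.H71.KP

end

section

/-!
# The `p`-th tensor power of an algebra with a trace
-/

set_option autoImplicit false
set_option linter.unusedSectionVars false

open scoped TensorProduct

universe u v

namespace Pool.Agent.H71.KP

variable (p : ℕ) [hp : Fact p.Prime] (A : Type u) [Ring A] [Algebra ℤ_[p] A]

/-- the `p`-th tensor power -/
abbrev TP : Type u := PiTensorProduct ℤ_[p] (fun _ : ZMod p => A)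

variable {A}

/-- pure tensors -/
noncomputable abbrev tp (m : ZMod p → A) : TP p A := PiTensorProduct.tprod ℤ_[p] m

theorem tp_mul (m n : ZMod p → A) : tp p m * tp p n = tp p (fun i => m i * n i) :=
  PiTensorProduct.tprod_mul_tprod m n

/-- the cyclic shift -/
noncomputable def sh (i : ZMod p) : TP p A →ₐ[ℤ_[p]] TP p A :=
  PiTensorProduct.liftAlgHom
    ((PiTensorProduct.tprod ℤ_[p] (s := fun _ : ZMod p => A)).domDomCongr (Equiv.addRight i))
    rfl (by
      intro x y
      change tp p (fun j => x (j + i) * y (j + i)) =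
        tp p (fun j => x (j + i)) * tp p (fun j => y (j + i))
      rw [tp_mul])

theorem sh_tp (i : ZMod p) (m : ZMod p → A) : sh p i (tp p m) = tp p (fun j => m (j + i)) := by
  change PiTensorProduct.lift _ (PiTensorProduct.tprod ℤ_[p] m) = _
  rw [PiTensorProduct.lift.tprod]
  rfl

variable {p} in
theorem tp_induction {P : TP p A → Prop} (h1 : ∀ (r : ℤ_[p]) (m : ZMod p → A), P (r • tp p m))
    (h2 : ∀ x y, P x → P y → P (x + y)) (x : TP p A) : P x :=
  PiTensorProduct.induction_on x h1 h2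

theorem sh_zero (x : TP p A) : sh p 0 x = x := by
  induction x using tp_induction with
  | h1 r m =>
    rw [map_smul, sh_tp]
    simp
  | h2 x y hx hy => rw [map_add, hx, hy]

theorem sh_add (i j : ZMod p) (x : TP p A) : sh p (i + j) x = sh p i (sh p j x) := by
  induction x using tp_induction with
  | h1 r m =>
    rw [map_smul, map_smul, map_smul, sh_tp, sh_tp, sh_tp]
    simp only [add_assoc]
  | h2 x y hx hy => rw [map_add, map_add, map_add, hx, hy]

/-- the bijection of `Fin p` and `ZMod p` -/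
def fz : Fin p ≃ ZMod p where
  toFun i := ((i.val : ℕ) : ZMod p)
  invFun j := ⟨j.val, ZMod.val_lt j⟩
  left_inv i := Fin.ext (by
    change ((i.val : ℕ) : ZMod p).val = i.val
    rw [ZMod.val_natCast, Nat.mod_eq_of_lt i.2])
  right_inv j := ZMod.natCast_zmod_val j

/-- ordered products -/
def oprod (f : ℕ → A) (n : ℕ) : A := (List.ofFn (fun i : Fin n => f i.val)).prod

theorem oprod_zero (f : ℕ → A) : oprod f 0 = 1 := by simp [oprod]

theorem oprod_succ (f : ℕ → A) (n : ℕ) : oprod f (n + 1) = oprod f n * f n := by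
  rw [oprod, List.ofFn_succ_last, List.prod_append, List.prod_singleton, oprod]
  rfl

theorem oprod_pred (f : ℕ → A) {n : ℕ} (hn : 0 < n) :
    oprod f n = oprod f (n - 1) * f (n - 1) := by
  obtain ⟨q, rfl⟩ : ∃ q, n = q + 1 := ⟨n - 1, by omega⟩
  exact oprod_succ f q

theorem oprod_shift (a b : ℕ → A) (n : ℕ) :
    oprod (fun i => a i * b i) n * a n = a 0 * oprod (fun i => b i * a (i + 1)) n := by
  induction n with
  | zero => rw [oprod_zero, oprod_zero, one_mul, mul_one]
  | succ n ih =>
    rw [oprod_succ, oprod_succ, ← mul_assoc, ih]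
    simp only [mul_assoc]

theorem oprod_const (a : A) (n : ℕ) : oprod (fun _ => a) n = a ^ n := by
  induction n with
  | zero => rw [oprod_zero, pow_zero]
  | succ n ih => rw [oprod_succ, ih, pow_succ]

/-- the functional `a₀ ⊗ ... ⊗ a_{p-1} ↦ τ (a₀ ... a_{p-1})` -/
noncomputable def kap (τ : A →ₗ[ℤ_[p]] ℤ_[p]) : TP p A →ₗ[ℤ_[p]] ℤ_[p] :=
  PiTensorProduct.lift (τ.compMultilinearMap
    ((MultilinearMap.mkPiAlgebraFin ℤ_[p] p A).domDomCongr (fz p)))

theorem kap_tp (τ : A →ₗ[ℤ_[p]] ℤ_[p]) (m : ZMod p → A) :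
    kap p τ (tp p m) = τ (oprod (fun n => m n) p) := by
  rw [kap, PiTensorProduct.lift.tprod]
  rfl

theorem kap_tw (τ : A →ₗ[ℤ_[p]] ℤ_[p]) (hτ : ∀ a b, τ (a * b) = τ (b * a)) (x y : TP p A) :
    kap p τ (x * y) = kap p τ (y * sh p 1 x) := by
  induction x using tp_induction with
  | h1 r m =>
    induction y using tp_induction with
    | h1 s n =>
      rw [map_smul, smul_mul_assoc, smul_mul_assoc, mul_smul_comm, mul_smul_comm, map_smul,
        map_smul, map_smul, map_smul, sh_tp, tp_mul, tp_mul, kap_tp, kap_tp,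
        smul_comm r s]
      congr 2
      have e1 := oprod_shift (fun i => m (i : ZMod p)) (fun i => n (i : ZMod p)) (p - 1)
      have e2 : oprod (fun i => m (i : ZMod p) * n (i : ZMod p)) p =
          m 0 * (oprod (fun i => n (i : ZMod p) * m ((i + 1 : ℕ) : ZMod p)) (p - 1) *
            n ((p - 1 : ℕ) : ZMod p)) := by
        rw [oprod_pred _ hp.out.pos, ← mul_assoc, e1]
        simp only [Nat.cast_zero, mul_assoc]
      have e3 : oprod (fun i => n (i : ZMod p) * m ((i : ZMod p) + 1)) p =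
          oprod (fun i => n (i : ZMod p) * m ((i + 1 : ℕ) : ZMod p)) (p - 1) *
            n ((p - 1 : ℕ) : ZMod p) * m 0 := by
        rw [oprod_pred _ hp.out.pos]
        have : (((p - 1 : ℕ) : ZMod p) + 1) = 0 := by
          have h : ((p - 1 + 1 : ℕ) : ZMod p) = 0 := by
            rw [Nat.sub_add_cancel hp.out.pos]; exact ZMod.natCast_self p
          rwa [Nat.cast_succ] at h
        rw [this, mul_assoc]
        simp only [Nat.cast_succ]
      rw [e2, e3, hτ]
    | h2 y y' hy hy' => rw [mul_add, map_add, hy, hy', add_mul, map_add]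
  | h2 x x' hx hx' => rw [add_mul, map_add, hx, hx', map_add, mul_add, map_add]

/-- The structure on the tensor power. -/
noncomputable def tG (τ : A →ₗ[ℤ_[p]] ℤ_[p]) (hτ : ∀ a b, τ (a * b) = τ (b * a)) :
    TwTr p (TP p A) where
  act i := (sh p i).toRingHom
  act_zero := sh_zero p
  act_add := sh_add p
  κ := (kap p τ).toAddMonoidHom
  tw := kap_tw p τ hτ

theorem tG_act (τ : A →ₗ[ℤ_[p]] ℤ_[p]) (hτ : ∀ a b, τ (a * b) = τ (b * a)) (i : ZMod p)
    (x : TP p A) : (tG p τ hτ).act i x = sh p i x := rfl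

/-- `a ↦ a ⊗ ... ⊗ a` -/
noncomputable def TT (a : A) : TP p A := tp p (fun _ => a)

theorem TT_mul (a b : A) : TT p (a * b) = TT p a * TT p b := (tp_mul p _ _).symm

theorem TT_one : TT p (1 : A) = 1 := rfl

theorem sh_TT (i : ZMod p) (a : A) : sh p i (TT p a) = TT p a := sh_tp p i _

theorem TT_smul (r : ℤ_[p]) (a : A) : TT p (r • a) = r ^ p • TT p a := by
  have h := (PiTensorProduct.tprod ℤ_[p] (s := fun _ : ZMod p => A)).map_smul_univ
    (fun _ => r) (fun _ => a)
  rw [Finset.prod_const, Finset.card_univ, ZMod.card] at h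
  exact h

/-- `TT` on units -/
noncomputable def TU : Aˣ →* (TP p A)ˣ where
  toFun u :=
    { val := TT p (u : A)
      inv := TT p ((u⁻¹ : Aˣ) : A)
      val_inv := by rw [← TT_mul, Units.mul_inv, TT_one]
      inv_val := by rw [← TT_mul, Units.inv_mul, TT_one] }
  map_one' := Units.ext (TT_one p)
  map_mul' u w := Units.ext (TT_mul p _ _)

theorem TU_val (u : Aˣ) : (TU p u : TP p A) = TT p (u : A) := rfl

end Pool.Agent.H71.KP

end

section

/-!
# The logarithm of the determinant
-/

set_option autoImplicit false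
set_option linter.unusedSectionVars false

open Matrix

universe u v

namespace Pool.Agent.H71.KP

variable {p : ℕ} [hp : Fact p.Prime]

section

variable {B : Type u} [CommRing B] {ι : Type v} [Fintype ι] [DecidableEq ι] (τ : B →+ ℤ_[p])

/-- `τ ∘ tr` -/
noncomputable def ttr (τ : B →+ ℤ_[p]) (ι : Type v) [Fintype ι] : Matrix ι ι B →+ ℤ_[p] :=
  τ.comp (Matrix.traceAddMonoidHom ι B)

theorem ttr_apply (W : Matrix ι ι B) : ttr τ ι W = τ (trace W) := rfl

theorem ttr_comm (V W : Matrix ι ι B) : ttr τ ι (V * W) = ttr τ ι (W * V) := by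
  rw [ttr_apply, ttr_apply, trace_mul_comm]

omit hp in
theorem natCast_mul_eq_smul (n : ℕ) (X : Matrix ι ι B) : (n : Matrix ι ι B) * X = (n : B) • X := by
  rw [← nsmul_eq_mul, Nat.cast_smul_eq_nsmul]

omit hp in
theorem det_one_add_nat (n : ℕ) (X : Matrix ι ι B) :
    ∃ y : B, det (1 + (n : Matrix ι ι B) * X) = 1 + (n : B) * (trace X + (n : B) * y) := by
  have h := det_one_add_smul (n : B) X
  rw [natCast_mul_eq_smul]
  exact ⟨(det (1 + (Polynomial.X : Polynomial B) • X.map Polynomial.C)).divX.divX.eval (n : B),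
    by rw [h]; ring⟩

omit hp in
theorem det_cong_nat (n : ℕ) {W : Matrix ι ι B} (h : Cong (n : Matrix ι ι B) W) :
    Cong (n : B) (det W) := by
  obtain ⟨X, rfl⟩ := h
  obtain ⟨y, hy⟩ := det_one_add_nat n X
  exact ⟨_, hy⟩

/-- the defect -/
noncomputable def dd (W : Matrix ι ι B) : ℚ_[p] := L (ttr τ ι) W - L τ (det W)

theorem dd_mul {V W : Matrix ι ι B} (hV : Cong (p : Matrix ι ι B) V)
    (hW : Cong (p : Matrix ι ι B) W) : dd τ (V * W) = dd τ V + dd τ W := by
  rw [dd, dd, dd, det_mul, L_mul (ttr τ ι) (ttr_comm τ) cen_p hV hW,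
    L_mul τ (fun a b => by rw [mul_comm]) cen_p (det_cong_nat p hV) (det_cong_nat p hW)]
  ring

theorem dd_one : dd τ (1 : Matrix ι ι B) = 0 := by
  rw [dd, det_one, L_one, L_one, sub_zero]

theorem dd_pow {W : Matrix ι ι B} (hW : Cong (p : Matrix ι ι B) W) (k : ℕ) :
    Cong (p : Matrix ι ι B) (W ^ k) ∧ dd τ (W ^ k) = k * dd τ W := by
  induction k with
  | zero => exact ⟨by rw [pow_zero]; exact Cong.one _, by simp [dd_one]⟩
  | succ k ih =>
    rw [pow_succ]
    refine ⟨ih.1.mul hW, ?_⟩
    rw [dd_mul τ ih.1 hW, ih.2]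
    push_cast
    ring

end

theorem pow_form {R : Type u} [Ring R] (x : R) (k : ℕ) :
    ∃ y : R, (1 + (p : R) * x) ^ p ^ k = 1 + (p : R) ^ (k + 1) * y := by
  induction k with
  | zero => exact ⟨x, by simp⟩
  | succ k ih =>
    obtain ⟨y, hy⟩ := ih
    obtain ⟨r, hr⟩ := Commute.exists_add_pow_prime_eq hp.out
      (show Commute (1 : R) ((p : R) ^ (k + 1) * y) from Commute.one_left _)
    have e1 : ((p : R) ^ (k + 1) * y) ^ p = (p : R) ^ (k + 1 + 1) *
        ((p : R) ^ ((k + 1) * p - (k + 1 + 1)) * y ^ p) := by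
      have h2 := hp.out.two_le
      have h3 : k + 1 + 1 ≤ (k + 1) * p := by nlinarith
      rw [((Nat.cast_commute p y).pow_left (k + 1)).mul_pow, ← pow_mul, ← mul_assoc, ← pow_add,
        Nat.add_sub_cancel' h3]
    refine ⟨(p : R) ^ ((k + 1) * p - (k + 1 + 1)) * y ^ p + y * r, ?_⟩
    rw [pow_succ, pow_mul, hy, hr, one_pow, e1, mul_one, mul_add, pow_succ' (p : R) (k + 1),
      add_assoc]
    simp only [mul_assoc]

section

variable {B : Type u} [CommRing B] {ι : Type v} [Fintype ι] [DecidableEq ι] (τ : B →+ ℤ_[p])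

theorem norm_sub_max (a b : ℚ_[p]) : ‖a - b‖ ≤ max ‖a‖ ‖b‖ := by
  rw [sub_eq_add_neg, ← norm_neg b]
  exact IsUltrametricDist.norm_add_le_max _ _

theorem norm_dd_le (k : ℕ) (Y : Matrix ι ι B) :
    ‖dd τ (1 + (p : Matrix ι ι B) ^ (k + 1) * Y)‖ ≤ ((p : ℝ) ^ (2 * k))⁻¹ := by
  obtain ⟨y, hy⟩ := det_one_add_nat (p ^ (k + 1)) Y
  rw [Nat.cast_pow, Nat.cast_pow] at hy
  rw [dd, hy, L_one_add, L_one_add]
  have h1 := norm_tl_sub_le (ttr τ ι) Y k
  have h2 := norm_tl_sub_le τ (trace Y + (p : B) ^ (k + 1) * y) k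
  have h3 : ‖((p ^ (2 * k) * (p ^ 2 * τ y) : ℤ_[p]) : ℚ_[p])‖ ≤ ((p : ℝ) ^ (2 * k))⁻¹ :=
    norm_le_of_dvd (dvd_mul_right _ _)
  have e : tl (ttr τ ι) ((p : Matrix ι ι B) ^ (k + 1) * Y) -
      tl τ ((p : B) ^ (k + 1) * (trace Y + (p : B) ^ (k + 1) * y)) =
      ((tl (ttr τ ι) ((p : Matrix ι ι B) ^ (k + 1) * Y) -
        ((p ^ (k + 1) * ttr τ ι Y : ℤ_[p]) : ℚ_[p])) -
      (tl τ ((p : B) ^ (k + 1) * (trace Y + (p : B) ^ (k + 1) * y)) -
        ((p ^ (k + 1) * τ (trace Y + (p : B) ^ (k + 1) * y) : ℤ_[p]) : ℚ_[p]))) -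
      ((p ^ (2 * k) * (p ^ 2 * τ y) : ℤ_[p]) : ℚ_[p]) := by
    rw [map_add, map_p_pow_mul, ttr_apply]
    push_cast
    ring
  rw [e]
  refine (norm_sub_max _ _).trans (max_le ?_ h3)
  exact (norm_sub_max _ _).trans (max_le h1 h2)

theorem norm_p_pow (k : ℕ) : ‖(p : ℚ_[p]) ^ k‖ = ((p : ℝ) ^ k)⁻¹ := by
  rw [norm_pow, Padic.norm_p, inv_pow]

/-- `tr log = log det` -/
theorem dd_eq_zero {W : Matrix ι ι B} (hW : Cong (p : Matrix ι ι B) W) : dd τ W = 0 := by
  have hp2 : (2 : ℝ) ≤ p := by exact_mod_cast hp.out.two_le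
  have hp0 : (0 : ℝ) < p := by linarith
  rw [← norm_eq_zero]
  by_contra hne
  have hpos : 0 < ‖dd τ W‖ := lt_of_le_of_ne (norm_nonneg _) (Ne.symm hne)
  have h1 : ∀ k : ℕ, ‖dd τ W‖ ≤ ((1 : ℝ) / 2) ^ k := by
    intro k
    have h2 := (dd_pow τ hW (p ^ k)).2
    obtain ⟨X, rfl⟩ := hW
    obtain ⟨Y, hY⟩ := pow_form (p := p) X k
    have h3 := norm_dd_le τ k Y
    rw [← hY, h2, norm_mul, Nat.cast_pow, norm_p_pow] at h3
    have hp' : (0 : ℝ) < (p : ℝ) ^ k := by positivity
    have h4 : ((p : ℝ) ^ k) * (((p : ℝ) ^ k)⁻¹ * ‖dd τ (1 + (p : Matrix ι ι B) * X)‖) ≤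
        (p : ℝ) ^ k * (((p : ℝ) ^ (2 * k))⁻¹) := mul_le_mul_of_nonneg_left h3 hp'.le
    rw [← mul_assoc, mul_inv_cancel₀ hp'.ne', one_mul] at h4
    refine h4.trans ?_
    have e : (p : ℝ) ^ (2 * k) = p ^ k * p ^ k := by rw [two_mul, pow_add]
    rw [e, mul_inv, ← mul_assoc, mul_inv_cancel₀ hp'.ne', one_mul, one_div, inv_pow]
    exact inv_anti₀ (by positivity) (pow_le_pow_left₀ (by norm_num) hp2 k)
  obtain ⟨k, hk⟩ := exists_pow_lt_of_lt_one hpos (show (1 : ℝ) / 2 < 1 by norm_num)
  have := h1 k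
  linarith

theorem L_det {W : Matrix ι ι B} (hW : Cong (p : Matrix ι ι B) W) :
    L τ (det W) = L (ttr τ ι) W := by
  have := dd_eq_zero τ hW
  rw [dd] at this
  exact (sub_eq_zero.1 this).symm

end

end Pool.Agent.H71.KP

end
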