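import Pool.Agent.H94.FJ.H71.KP.Skew2
import Pool.Agent.H94.FJ.M14

/-! The parts of this file: H71.KP.Orb, H71.KP.Gam, H71.KP.GL, H71.KP.U. -/

section

/-!
# The diagonal power is additive modulo norms; its logarithm
-/

set_option autoImplicit false
set_option linter.unusedSectionVars false

open scoped TensorProduct

universe u v

namespace Pool.Agent.H71.KP

section Orbit

variable {p : ℕ} [hp : Fact p.Prime] {M : Type u} [Ring M] (t : TwTr p M)

theorem orbit_inj {X : Type v} (σ : ZMod p → X → X) (h0 : ∀ x, σ 0 x = x)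
    (hadd : ∀ i j x, σ (i + j) x = σ i (σ j x)) {x : X} (hx : σ 1 x ≠ x) :
    Function.Injective (fun i => σ i x) := by
  intro i j hij
  by_contra hne
  apply hx
  have hk : i - j ≠ 0 := sub_ne_zero.2 hne
  have h1 : σ (i - j) x = x := by
    have e1 : i - j = -j + i := by ring
    rw [e1, hadd]
    change σ (-j) ((fun i => σ i x) i) = x
    rw [hij]
    change σ (-j) (σ j x) = x
    rw [← hadd, neg_add_cancel, h0]
  have h2 : ∀ n : ℕ, σ ((n : ZMod p) * (i - j)) x = x := by
    intro n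
    induction n with
    | zero => rw [Nat.cast_zero, zero_mul, h0]
    | succ n ih => rw [Nat.cast_succ, add_mul, one_mul, hadd, h1, ih]
  have h3 := h2 ((i - j)⁻¹ : ZMod p).val
  rwa [ZMod.natCast_zmod_val, inv_mul_cancel₀ hk] at h3

theorem orbit_sum {X : Type v} [DecidableEq X] (σ : ZMod p → X → X) (h0 : ∀ x, σ 0 x = x)
    (hadd : ∀ i j x, σ (i + j) x = σ i (σ j x)) (f : X → M)
    (hf : ∀ i x, f (σ i x) = t.act i (f x)) (U : Finset X) :
    (∀ x ∈ U, ∀ i, σ i x ∈ U) → (∀ x ∈ U, σ 1 x ≠ x) → ∃ z, ∑ x ∈ U, f x = t.tr z := by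
  induction U using Finset.strongInduction with
  | H U ih =>
    intro hU hne
    by_cases hemp : U = ∅
    · subst hemp
      exact ⟨0, by simp⟩
    obtain ⟨x, hx⟩ := Finset.nonempty_iff_ne_empty.2 hemp
    let O : Finset X := Finset.univ.image (fun i => σ i x)
    have hinj := orbit_inj σ h0 hadd (hne x hx)
    have hO : O ⊆ U := by
      intro y hy
      obtain ⟨i, _, rfl⟩ := Finset.mem_image.1 hy
      exact hU x hx i
    have hxO : x ∈ O := Finset.mem_image.2 ⟨0, Finset.mem_univ _, h0 x⟩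
    have hss : U \ O ⊂ U := by
      refine ⟨Finset.sdiff_subset, fun h => ?_⟩
      have := h hx
      rw [Finset.mem_sdiff] at this
      exact this.2 hxO
    obtain ⟨z, hz⟩ := ih (U \ O) hss (by
      intro y hy i
      rw [Finset.mem_sdiff] at hy ⊢
      refine ⟨hU y hy.1 i, fun h => hy.2 ?_⟩
      obtain ⟨j, _, hj⟩ := Finset.mem_image.1 h
      refine Finset.mem_image.2 ⟨-i + j, Finset.mem_univ _, ?_⟩
      rw [hadd, show σ j x = σ i y from hj, ← hadd, neg_add_cancel, h0]) (by
      intro y hy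
      exact hne y (Finset.mem_sdiff.1 hy).1)
    refine ⟨z + f x, ?_⟩
    rw [map_add, ← hz, ← Finset.sum_sdiff hO]
    congr 1
    rw [Finset.sum_image (fun i _ j _ h => hinj h)]
    rw [TwTr.tr_apply]
    exact Finset.sum_congr rfl fun i _ => hf i x

end Orbit

variable (p : ℕ) [hp : Fact p.Prime] {A : Type u} [Ring A] [Algebra ℤ_[p] A]
  (τ : A →ₗ[ℤ_[p]] ℤ_[p]) (hτ : ∀ a b, τ (a * b) = τ (b * a))

/-- translation of subsets -/
def trans (i : ZMod p) (s : Finset (ZMod p)) : Finset (ZMod p) :=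
  Finset.univ.filter (fun j => j + i ∈ s)

theorem mem_trans {i j : ZMod p} {s : Finset (ZMod p)} : j ∈ trans p i s ↔ j + i ∈ s := by
  simp [trans]

theorem trans_zero (s : Finset (ZMod p)) : trans p 0 s = s := by
  ext j
  rw [mem_trans, add_zero]

theorem trans_add (i j : ZMod p) (s : Finset (ZMod p)) :
    trans p (i + j) s = trans p i (trans p j s) := by
  ext l
  rw [mem_trans, mem_trans, mem_trans, add_assoc]

theorem trans_fix {s : Finset (ZMod p)} (h : trans p 1 s = s) : s = ∅ ∨ s = Finset.univ := by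
  rw [or_iff_not_imp_left]
  intro hs
  obtain ⟨x, hx⟩ := Finset.nonempty_iff_ne_empty.2 hs
  have h1 : ∀ j, j ∈ s → j + 1 ∈ s := by
    intro j hj
    rw [← h] at hj
    exact (mem_trans p).1 hj
  have h2 : ∀ n : ℕ, x + n ∈ s := by
    intro n
    induction n with
    | zero => rwa [Nat.cast_zero, add_zero]
    | succ n ih => rw [Nat.cast_succ, ← add_assoc]; exact h1 _ ih
  rw [Finset.eq_univ_iff_forall]
  intro y
  have h3 := h2 (y - x).val
  rwa [ZMod.natCast_zmod_val, add_sub_cancel] at h3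

/-- the mixed tensors -/
noncomputable def mx (a b : A) (s : Finset (ZMod p)) : TP p A :=
  tp p (s.piecewise (fun _ => a) (fun _ => b))

theorem mx_trans (a b : A) (i : ZMod p) (s : Finset (ZMod p)) :
    mx p a b (trans p i s) = sh p i (mx p a b s) := by
  rw [mx, mx, sh_tp]
  congr 1
  funext j
  by_cases h : j + i ∈ s
  · rw [Finset.piecewise_eq_of_mem _ _ _ ((mem_trans p).2 h), Finset.piecewise_eq_of_mem _ _ _ h]
  · rw [Finset.piecewise_eq_of_notMem _ _ _ (fun h' => h ((mem_trans p).1 h')),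
      Finset.piecewise_eq_of_notMem _ _ _ h]

theorem TT_add (a b : A) : ∃ z, TT p (a + b) - (TT p a + TT p b) = (tG p τ hτ).tr z := by
  classical
  have h1 : TT p (a + b) = ∑ s, mx p a b s := by
    have := (PiTensorProduct.tprod ℤ_[p] (s := fun _ : ZMod p => A)).map_add_univ
      (fun _ => a) (fun _ => b)
    exact this
  obtain ⟨z, hz⟩ := orbit_sum (tG p τ hτ) (trans p) (trans_zero p) (trans_add p) (mx p a b)
    (fun i s => by rw [tG_act]; exact mx_trans p a b i s)
    (Finset.univ.filter (fun s => trans p 1 s ≠ s)) (by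
      intro s hs i
      rw [Finset.mem_filter] at hs ⊢
      refine ⟨Finset.mem_univ _, fun h => hs.2 ?_⟩
      rw [← trans_add, add_comm, trans_add] at h
      have h3 := congrArg (trans p (-i)) h
      rw [← trans_add p (-i) i, ← trans_add p (-i) i, neg_add_cancel, trans_zero, trans_zero] at h3
      exact h3) (by
      intro s hs
      exact (Finset.mem_filter.1 hs).2)
  refine ⟨z, ?_⟩
  have h2 : (Finset.univ.filter (fun s : Finset (ZMod p) => ¬ (trans p 1 s ≠ s))) =
      {∅, Finset.univ} := by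
    ext s
    rw [Finset.mem_filter, not_not, Finset.mem_insert, Finset.mem_singleton]
    constructor
    · rintro ⟨_, h⟩
      exact trans_fix p h
    · rintro (rfl | rfl)
      · refine ⟨Finset.mem_univ _, ?_⟩
        ext j
        simp [mem_trans]
      · refine ⟨Finset.mem_univ _, ?_⟩
        ext j
        simp [mem_trans]
  have h3 : (∅ : Finset (ZMod p)) ≠ Finset.univ := by
    intro h
    have := Finset.mem_univ (0 : ZMod p)
    rw [← h] at this
    exact absurd this (Finset.notMem_empty _)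
  rw [h1, ← Finset.sum_filter_add_sum_filter_not Finset.univ (fun s => trans p 1 s ≠ s), h2,
    Finset.sum_pair h3, hz]
  have h4 : mx p a b ∅ = TT p b := by rw [mx, Finset.piecewise_empty]; rfl
  have h5 : mx p a b Finset.univ = TT p a := by rw [mx, Finset.piecewise_univ]; rfl
  rw [h4, h5]
  abel

theorem dvd_pow_sub (r : ℤ_[p]) : (p : ℤ_[p]) ∣ r ^ p - r := by
  have h : PadicInt.toZMod (r ^ p - r) = 0 := by
    rw [map_sub, map_pow, ZMod.pow_card, sub_self]
  have h1 : r ^ p - r ∈ RingHom.ker (PadicInt.toZMod (p := p)) := h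
  rw [PadicInt.ker_toZMod, PadicInt.maximalIdeal_eq_span_p, Ideal.mem_span_singleton] at h1
  exact h1

theorem tr_smul (t : TwTr p (TP p A)) (ht : ∀ i x, t.act i x = sh p i x) (r : ℤ_[p])
    (x : TP p A) : t.tr (r • x) = r • t.tr x := by
  rw [TwTr.tr_apply, TwTr.tr_apply, Finset.smul_sum]
  apply Finset.sum_congr rfl
  intro i _
  rw [ht, ht, map_smul]

theorem TT_smul_sub (r : ℤ_[p]) (a : A) :
    ∃ z, TT p (r • a) - r • TT p a = (tG p τ hτ).tr z := by
  obtain ⟨s, hs⟩ := dvd_pow_sub p r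
  refine ⟨s • TT p a, ?_⟩
  rw [tr_smul p _ (fun _ _ => rfl), (tG p τ hτ).tr_fix (fun i => sh_TT p i a), TT_smul,
    ← sub_smul, hs, mul_comm (p : ℤ_[p]) s, mul_smul]
  congr 1
  rw [← nsmul_eq_mul, Nat.cast_smul_eq_nsmul]

/-- the inclusion of the `j`-th factor -/
noncomputable def kk (j : ZMod p) : A →+* TP p A :=
  (PiTensorProduct.singleAlgHom (R := ℤ_[p]) (A := fun _ : ZMod p => A) j).toRingHom

theorem kk_apply (j : ZMod p) (a : A) : kk p j a = tp p (Pi.mulSingle j a) := rfl

theorem kk_comm (i j : ZMod p) {a b : A} (h : a * b = b * a) : kk p i a * kk p j b = kk p j b * kk p i a := by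
  by_cases hij : i = j
  · subst hij
    rw [← map_mul, ← map_mul, h]
  · rw [kk_apply, kk_apply, tp_mul, tp_mul]
    congr 1
    funext l
    by_cases h1 : l = i
    · subst h1
      rw [Pi.mulSingle_eq_same, Pi.mulSingle_eq_of_ne hij, mul_one, one_mul]
    · rw [Pi.mulSingle_eq_of_ne h1, mul_one, one_mul]

include hτ in
theorem kap_sh (i : ZMod p) (x : TP p A) : kap p τ (sh p i x) = kap p τ x :=
  (tG p τ hτ).κ_act i x

include hτ in
theorem kap_kk (j : ZMod p) (a : A) : kap p τ (kk p j a) = τ a := by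
  have h1 : sh p j (kk p j a) = kk p 0 a := by
    rw [kk_apply, kk_apply, sh_tp]
    congr 1
    funext l
    by_cases h : l = 0
    · subst h
      rw [zero_add, Pi.mulSingle_eq_same, Pi.mulSingle_eq_same]
    · rw [Pi.mulSingle_eq_of_ne h, Pi.mulSingle_eq_of_ne (fun h' => h (by simpa using h'))]
  rw [← kap_sh p τ hτ j, h1, kk_apply, kap_tp]
  congr 1
  have h2 : ∀ n : ℕ, n < p → oprod (fun n => (Pi.mulSingle (0 : ZMod p) a : ZMod p → A) n)
      (n + 1) = a := by
    intro n
    induction n with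
    | zero =>
      intro _
      rw [oprod_succ, oprod_zero, one_mul, Nat.cast_zero, Pi.mulSingle_eq_same]
    | succ n ih =>
      intro hn
      rw [oprod_succ, ih (by omega), Pi.mulSingle_eq_of_ne, mul_one]
      intro h
      rw [ZMod.natCast_eq_zero_iff] at h
      exact absurd (Nat.le_of_dvd (Nat.succ_pos n) h) (by omega)
  have h3 := h2 (p - 1) (by have := hp.out.pos; omega)
  rwa [Nat.sub_add_cancel hp.out.pos] at h3

/-- `kap τ` as an additive map -/
noncomputable def kapA : TP p A →+ ℤ_[p] := (kap p τ).toAddMonoidHom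

/-- `τ` as an additive map -/
noncomputable def tauA : A →+ ℤ_[p] := τ.toAddMonoidHom

include hτ in
theorem L_TT (x : A) : L (kapA p τ) (TT p (1 + (p : A) * x)) =
    p * L (tauA p τ) (1 + (p : A) * x) := by
  classical
  set u := 1 + (p : A) * x with hu
  have hcl : ∀ y ∈ Set.range (fun j => kk p j x), ∀ z ∈ Set.range (fun j => kk p j x),
      y * z = z * y := by
    rintro _ ⟨i, rfl⟩ _ ⟨j, rfl⟩
    exact kk_comm p i j rfl
  let S : Subring (TP p A) := Subring.closure (Set.range (fun j => kk p j x))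
  have hS : ∀ a ∈ S, ∀ b ∈ S, a * b = b * a := by
    intro a ha b hb
    have := (Subring.isMulCommutative_closure hcl).is_comm.comm (⟨a, ha⟩ : S) ⟨b, hb⟩
    exact congrArg Subtype.val this
  have hk : ∀ j, kk p j u = 1 + (p : TP p A) * kk p j x := by
    intro j
    rw [hu, map_add, map_one, map_mul, map_natCast]
  have hL : ∀ j, L (kapA p τ) (kk p j u) = L (tauA p τ) u := by
    intro j
    rw [L_map]
    apply L_congr_fun
    intro a
    exact kap_kk p τ hτ j a
  have key : ∀ s : Finset (ZMod p), (∃ y ∈ S, mx p u 1 s = 1 + (p : TP p A) * y) ∧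
      L (kapA p τ) (mx p u 1 s) = s.card * L (tauA p τ) u := by
    intro s
    induction s using Finset.induction_on with
    | empty =>
      have h0 : mx p u 1 ∅ = 1 := by rw [mx, Finset.piecewise_empty]; rfl
      refine ⟨⟨0, S.zero_mem, ?_⟩, ?_⟩
      · rw [h0]; simp
      · rw [h0, L_one]; simp
    | insert j s hj ih =>
      obtain ⟨⟨y, hy, hy'⟩, ih2⟩ := ih
      have e1 : mx p u 1 (insert j s) = kk p j u * mx p u 1 s := by
        rw [mx, mx, kk_apply, tp_mul]
        congr 1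
        funext l
        by_cases h : l = j
        · subst h
          rw [Finset.piecewise_eq_of_mem _ _ _ (Finset.mem_insert_self _ _),
            Pi.mulSingle_eq_same, Finset.piecewise_eq_of_notMem _ _ _ hj, mul_one]
        · rw [Pi.mulSingle_eq_of_ne h, one_mul]
          by_cases h2 : l ∈ s
          · rw [Finset.piecewise_eq_of_mem _ _ _ (Finset.mem_insert_of_mem h2),
              Finset.piecewise_eq_of_mem _ _ _ h2]
          · rw [Finset.piecewise_eq_of_notMem _ _ _ (fun h3 => by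
              rcases Finset.mem_insert.1 h3 with h4 | h4
              · exact h h4
              · exact h2 h4), Finset.piecewise_eq_of_notMem _ _ _ h2]
      have hx : kk p j x ∈ S := Subring.subset_closure ⟨j, rfl⟩
      refine ⟨⟨kk p j x + y + (p : TP p A) * (kk p j x * y), ?_, ?_⟩, ?_⟩
      · exact S.add_mem (S.add_mem hx hy) (S.mul_mem (natCast_mem S p) (S.mul_mem hx hy))
      · rw [e1, hk, hy', add_mul, one_mul, mul_add, mul_one, mul_add, mul_add,
          mul_assoc (p : TP p A) (kk p j x), ← mul_assoc (kk p j x), ← p_comm (kk p j x)]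
        simp only [mul_assoc]
        abel
      · rw [e1, hk, hy', L_mul_sub (kapA p τ) S (fun a ha b hb => by rw [hS a ha b hb]) hx hy,
          ← hk, ← hy', ih2, hL, Finset.card_insert_of_notMem hj]
        push_cast
        ring
  have h1 := (key Finset.univ).2
  have h2 : mx p u 1 Finset.univ = TT p u := by rw [mx, Finset.piecewise_univ]; rfl
  rw [h2, Finset.card_univ, ZMod.card] at h1
  exact h1

section Free

variable [Module.Free ℤ_[p] A]

theorem smul_inj {n : ℕ} (hn : n ≠ 0) {x y : TP p A} (h : (n : TP p A) * x = (n : TP p A) * y) :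
    x = y := by
  let b := Module.Free.chooseBasis ℤ_[p] A
  let B := Basis.piTensorProduct (fun _ : ZMod p => b)
  apply B.repr.injective
  ext i
  have h1 := congrArg (fun z => B.repr z i) h
  have h2 : ∀ z : TP p A, B.repr ((n : TP p A) * z) i = n * B.repr z i := by
    intro z
    rw [← nsmul_eq_mul, map_nsmul, Finsupp.smul_apply, nsmul_eq_mul]
  simp only [h2] at h1
  have hn0 : (n : ℤ_[p]) ≠ 0 := by exact_mod_cast hn
  exact mul_left_cancel₀ hn0 h1

theorem fix_of_mul (t : TwTr p (TP p A)) {n : ℕ} (hn : n ≠ 0) {x : TP p A}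
    (h : t.Fix ((n : TP p A) * x)) : t.Fix x := by
  intro i
  apply smul_inj p hn
  have := h i
  rwa [map_mul, map_natCast] at this

end Free

end Pool.Agent.H71.KP

end

section

/-!
# The integral logarithm
-/

set_option autoImplicit false
set_option linter.unusedSectionVars false

open scoped TensorProduct
open Pool.Agent.H71.WH (unitExt unitExt_val)

universe u v w

namespace Pool.Agent.H71.KP

theorem grp_aux {H : Type u} [Group H] (a b c d : H) :
    (a * b)⁻¹ * (c * d) = (b⁻¹ * (a⁻¹ * c) * b) * (b⁻¹ * d) := by group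

namespace TwTr

variable {p : ℕ} [hp : Fact p.Prime] {M : Type u} [Ring M] (t : TwTr p M) {M' : Type v} [Ring M']
  (t' : TwTr p M') (j : M →+* M') (hact : ∀ i x, j (t.act i x) = t'.act i (j x))

/-- the induced map of skew rings -/
def skMap {A : Type} [AddCommGroup A] [Fintype A] [DecidableEq A] (π : A →+ ZMod p) :
    t.sk π →+* t'.sk π where
  toFun V := ⟨V.1.map j, by
    intro a b l
    change j (V.1 (a + l) (b + l)) = t'.act (π l) (j (V.1 a b))
    rw [V.2, hact]⟩
  map_one' := Subtype.ext (by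
    change (1 : Matrix A A M).map j = 1
    rw [Matrix.map_one _ (map_zero j) (map_one j)])
  map_zero' := Subtype.ext (by
    change (0 : Matrix A A M).map j = 0
    rw [Matrix.map_zero _ (map_zero j)])
  map_add' V W := Subtype.ext (Matrix.map_add j (map_add j) V.1 W.1)
  map_mul' V W := Subtype.ext (Matrix.map_mul (f := j))

theorem skMap_apply {A : Type} [AddCommGroup A] [Fintype A] [DecidableEq A] (π : A →+ ZMod p)
    (V : t.sk π) (a b : A) : (t.skMap t' j hact π V).1 a b = j (V.1 a b) := rfl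

include hact in
theorem lam_map (hκ : ∀ x, t'.κ (j x) = t.κ x) (v : t.Sˣ) :
    t'.lam (Units.map (t.skMap t' j hact _).toMonoidHom v) = t.lam v := by
  let JB : t.B →+* t'.B := t.skMap t' j hact _
  have h1 : ∀ V : t.S, t'.ι (t.skMap t' j hact _ V) = JB (t.ι V) := by
    intro V
    apply Subtype.ext
    ext a b
    rw [skMap_apply, ι_apply, ι_apply, skMap_apply]
    split_ifs
    · rfl
    · rw [map_zero]
  have h2 : ∀ V : t.S, t'.θ (t.skMap t' j hact _ V) = JB (t.θ V) := by
    intro V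
    apply Subtype.ext
    ext a b
    rw [skMap_apply, θ_apply, θ_apply, skMap_apply]
    split_ifs
    · rfl
    · rw [map_zero]
  have h3 : Units.map t'.ι.toMonoidHom (Units.map (t.skMap t' j hact _).toMonoidHom v) =
      Units.map JB.toMonoidHom (Units.map t.ι.toMonoidHom v) := Units.ext (h1 v)
  rw [lam, lam, h3, ← map_inv]
  have h4 : ((Units.map JB.toMonoidHom (Units.map t.ι.toMonoidHom v)⁻¹ : t'.Bˣ) : t'.B) *
      t'.θ (Units.map (t.skMap t' j hact _).toMonoidHom v : t'.Sˣ) =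
      JB (((Units.map t.ι.toMonoidHom v)⁻¹ : t.Bˣ) * t.θ v) := by
    rw [map_mul, ← h2]
    rfl
  rw [h4, L_map]
  apply L_congr_fun
  intro r
  change t'.κ (j (r.1 0 (1, 1))) = t.κ (r.1 0 (1, 1))
  rw [hκ]

include hact in
theorem Lam_map (hκ : ∀ x, t'.κ (j x) = t.κ x) {g : Mˣ} (hg : t.Adm g) :
    t'.Lam (Units.map j.toMonoidHom g) = t.Lam g := by
  obtain ⟨z, hz⟩ := hg
  have hz' : ((Units.map j.toMonoidHom g : M'ˣ) : M') = 1 + t'.tr (j z) := by
    change j g = _
    rw [hz, map_add, map_one, tr_apply, tr_apply, map_sum]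
    simp only [hact]
  rw [t'.Lam_eq hz', t.Lam_eq hz, ← t.lam_map t' j hact hκ]
  congr 1
  apply Units.ext
  apply Subtype.ext
  ext a b
  change (1 : Matrix (ZMod p) (ZMod p) M') a b + t'.act a (j z) =
    j ((1 : Matrix (ZMod p) (ZMod p) M) a b + t.act a z)
  rw [map_add, hact, Matrix.one_apply, Matrix.one_apply]
  split_ifs <;> simp

/-- the fixed subring -/
def fixSub : Subring M where
  carrier := {x | t.Fix x}
  mul_mem' hx hy := hx.mul t hy
  one_mem' := Fix.one t
  add_mem' hx hy := hx.add t hy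
  zero_mem' := fun i => map_zero _
  neg_mem' := by
    intro x hx i
    rw [map_neg, hx i]

theorem κ_fix_comm : ∀ a ∈ t.fixSub, ∀ b ∈ t.fixSub, t.κ (a * b) = t.κ (b * a) := by
  intro a ha b _
  rw [t.tw, ha 1]

end TwTr

/-- An algebra with a multiplicative lift of the diagonal power to the tensor power. -/
structure PowAlg (p : ℕ) [Fact p.Prime] (A : Type u) [Ring A] [Algebra ℤ_[p] A] where
  /-- the map -/
  Ψ : A →ₙ+* TP p A
  fix : ∀ i a, sh p i (Ψ a) = Ψ a
  cond : ∀ a, ∃ z, TT p a - Ψ a = ∑ i, sh p i z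

section

variable {p : ℕ} [hp : Fact p.Prime] {A : Type u} [Ring A] [Algebra ℤ_[p] A] (P : PowAlg p A)
  (τ : A →ₗ[ℤ_[p]] ℤ_[p]) (hτ : ∀ a b, τ (a * b) = τ (b * a))

/-- the extension to units -/
noncomputable def PowAlg.U : Aˣ →* (TP p A)ˣ := unitExt P.Ψ

theorem PowAlg.U_val (u : Aˣ) : (P.U u : TP p A) = P.Ψ u + (1 - P.Ψ 1) := rfl

/-- the quotient -/
noncomputable def PowAlg.gg (u : Aˣ) : (TP p A)ˣ := (P.U u)⁻¹ * TU p u

theorem PowAlg.gg_mul (u w : Aˣ) : P.gg (u * w) = ((P.U w)⁻¹ * P.gg u * P.U w) * P.gg w := by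
  rw [gg, gg, gg, map_mul, map_mul]
  exact grp_aux _ _ _ _

theorem PowAlg.fix_U (u : Aˣ) : (tG p τ hτ).Fix (P.U u : TP p A) := by
  intro i
  rw [P.U_val, map_add, map_sub, map_one, tG_act, tG_act, P.fix, P.fix]

theorem fix_TT (a : A) : (tG p τ hτ).Fix (TT p a) := fun i => sh_TT p i a

theorem PowAlg.gg_adm (u : Aˣ) : (tG p τ hτ).Adm (P.gg u) := by
  obtain ⟨z, hz⟩ := P.cond u
  obtain ⟨y, hy⟩ := P.cond 1
  refine ⟨((P.U u)⁻¹ : (TP p A)ˣ) * (z - y), ?_⟩
  have h1 : (tG p τ hτ).tr (z - y) = TT p (u : A) - P.U u := by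
    have e1 : (tG p τ hτ).tr z = TT p (u : A) - P.Ψ u := hz.symm
    have e2 : (tG p τ hτ).tr y = 1 - P.Ψ 1 := by rw [← TT_one p]; exact hy.symm
    rw [map_sub, e1, e2, P.U_val]
    abel
  rw [TwTr.tr_fix_mul _ _ (TwTr.Fix.inv _ (P.fix_U τ hτ u)), h1, mul_sub, Units.inv_mul,
    PowAlg.gg, Units.val_mul, TU_val]
  abel

/-- **The integral logarithm.** -/
noncomputable def PowAlg.Gam (u : Aˣ) : ℚ_[p] := (tG p τ hτ).Lam (P.gg u)

theorem PowAlg.Gam_mul (u w : Aˣ) : P.Gam τ hτ (u * w) = P.Gam τ hτ u + P.Gam τ hτ w := by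
  rw [Gam, P.gg_mul, TwTr.Lam_mul _ (TwTr.Adm.conj _ (P.gg_adm τ hτ u) (P.fix_U τ hτ w))
    (P.gg_adm τ hτ w), TwTr.Lam_conj _ (P.gg_adm τ hτ u) (P.fix_U τ hτ w)]
  rfl

theorem PowAlg.Gam_one : P.Gam τ hτ 1 = 0 := by
  have := P.Gam_mul τ hτ 1 1
  rw [mul_one] at this
  exact (add_eq_left.1 this.symm)

theorem PowAlg.Gam_pow (u : Aˣ) (k : ℕ) : P.Gam τ hτ (u ^ k) = k * P.Gam τ hτ u := by
  induction k with
  | zero => rw [pow_zero, P.Gam_one]; simp
  | succ k ih => rw [pow_succ, P.Gam_mul, ih]; push_cast; ring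

theorem exists_TT_eq (n : ℕ) (x : A) : ∃ Y : TP p A, TT p (1 + (n : A) * x) = 1 + (n : TP p A) * Y := by
  classical
  have h1 : TT p (1 + (n : A) * x) = ∑ s, mx p ((n : A) * x) 1 s := by
    rw [add_comm]
    exact (PiTensorProduct.tprod ℤ_[p] (s := fun _ : ZMod p => A)).map_add_univ
      (fun _ => (n : A) * x) (fun _ => 1)
  have h2 : ∀ s : Finset (ZMod p), mx p ((n : A) * x) 1 s = (n : ℤ_[p]) ^ s.card • mx p x 1 s := by
    intro s
    have h := (PiTensorProduct.tprod ℤ_[p] (s := fun _ : ZMod p => A)).map_piecewise_smul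
      (fun _ => (n : ℤ_[p])) (s.piecewise (fun _ => x) (fun _ => 1)) s
    rw [Finset.prod_const] at h
    rw [mx, mx, ← h]
    congr 1
    funext l
    by_cases hl : l ∈ s
    · rw [Finset.piecewise_eq_of_mem _ _ _ hl, Finset.piecewise_eq_of_mem _ _ _ hl,
        Finset.piecewise_eq_of_mem _ _ _ hl, Nat.cast_smul_eq_nsmul, nsmul_eq_mul]
    · rw [Finset.piecewise_eq_of_notMem _ _ _ hl, Finset.piecewise_eq_of_notMem _ _ _ hl,
        Finset.piecewise_eq_of_notMem _ _ _ hl]
  refine ⟨∑ s ∈ Finset.univ.erase ∅, (n : ℤ_[p]) ^ (s.card - 1) • mx p x 1 s, ?_⟩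
  have he : mx p ((n : A) * x) 1 ∅ = 1 := by
    rw [mx, Finset.piecewise_empty]
    rfl
  rw [h1, ← Finset.add_sum_erase _ _ (Finset.mem_univ ∅), he, Finset.mul_sum]
  refine congrArg (fun z => 1 + z) ?_
  apply Finset.sum_congr rfl
  intro s hs
  have hs' : 0 < s.card := Finset.card_pos.2
    (Finset.nonempty_iff_ne_empty.2 (Finset.mem_erase.1 hs).1)
  rw [h2, ← nsmul_eq_mul, ← Nat.cast_smul_eq_nsmul ℤ_[p], smul_smul, ← pow_succ']
  congr 2
  omega

/-- the functional `kap ∘ Ψ` -/
noncomputable def PowAlg.frob : A →+ ℤ_[p] := (kap p τ).toAddMonoidHom.comp P.Ψ.toAddMonoidHom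

theorem PowAlg.frob_apply (a : A) : P.frob τ a = kap p τ (P.Ψ a) := rfl

theorem PowAlg.map_nat_mul (n : ℕ) (x : A) : P.Ψ ((n : A) * x) = (n : TP p A) * P.Ψ x := by
  rw [← nsmul_eq_mul, ← nsmul_eq_mul]
  exact map_nsmul P.Ψ.toAddMonoidHom n x

/-- The value of the integral logarithm on units congruent to `1` modulo `p ^ 2`. -/
theorem PowAlg.Gam_sq [Module.Free ℤ_[p] A] {u : Aˣ} {x : A}
    (hu : (u : A) = 1 + ((p ^ 2 : ℕ) : A) * x) :
    p * P.Gam τ hτ u = p * L (tauA p τ) (u : A) - L (P.frob τ) (u : A) := by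
  set t := tG p τ hτ with ht
  have hp0 : p ≠ 0 := hp.out.ne_zero
  have hp2 : p ^ 2 ≠ 0 := pow_ne_zero _ hp0
  have hκ : t.κ = kapA p τ := rfl
  obtain ⟨Y, hY⟩ := exists_TT_eq (p := p) (p ^ 2) x
  have hU : (P.U u : TP p A) = 1 + ((p ^ 2 : ℕ) : TP p A) * P.Ψ x := by
    rw [P.U_val, hu, map_add, P.map_nat_mul]
    abel
  set Q := (((P.U u)⁻¹ : (TP p A)ˣ) : TP p A) with hQ
  have hQU : Q * (P.U u : TP p A) = 1 := by rw [hQ, Units.inv_mul]
  have fU : t.Fix (P.U u : TP p A) := P.fix_U τ hτ u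
  have fQ : t.Fix Q := TwTr.Fix.inv _ fU
  have hg : (P.gg u : TP p A) = Q * TT p (u : A) := by
    rw [PowAlg.gg, Units.val_mul, TU_val]
  have fT : t.Fix (TT p (u : A)) := fix_TT τ hτ _
  have hg2 : (P.gg u : TP p A) = 1 + (p : TP p A) ^ 2 * (Q * (Y - P.Ψ x)) := by
    have e1 : TT p (u : A) = P.U u + ((p ^ 2 : ℕ) : TP p A) * (Y - P.Ψ x) := by
      rw [hu, hY, hU, mul_sub]
      abel
    rw [hg, e1, mul_add, hQU, ← mul_assoc, ← (Nat.cast_commute (p ^ 2) Q).eq, mul_assoc,
      Nat.cast_pow]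
  have fX : t.Fix (Q * (Y - P.Ψ x)) := by
    apply fix_of_mul p t hp2
    have e1 : ((p ^ 2 : ℕ) : TP p A) * (Q * (Y - P.Ψ x)) = (P.gg u : TP p A) - 1 := by
      rw [hg2, Nat.cast_pow]
      abel
    rw [e1]
    exact TwTr.Fix.sub _ (by rw [hg]; exact TwTr.Fix.mul _ fQ fT) (TwTr.Fix.one _)
  have h1 := t.Lam_sq fX hg2
  have h2 : L t.κ (P.gg u : TP p A) = L t.κ Q + L t.κ (TT p (u : A)) ∧
      L t.κ Q + L t.κ (P.U u : TP p A) = 0 := by
    have eT : TT p (u : A) = 1 + (p : TP p A) * ((p : TP p A) * Y) := by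
      rw [hu, hY, Nat.cast_pow, pow_two, mul_assoc]
    have fY : t.Fix ((p : TP p A) * Y) := by
      apply fix_of_mul p t hp0
      have : (p : TP p A) * ((p : TP p A) * Y) = TT p (u : A) - 1 := by rw [eT]; abel
      rw [this]
      exact TwTr.Fix.sub _ fT (TwTr.Fix.one _)
    have eU : (P.U u : TP p A) = 1 + (p : TP p A) * ((p : TP p A) * P.Ψ x) := by
      rw [hU, Nat.cast_pow, pow_two, mul_assoc]
    have fPsi : t.Fix ((p : TP p A) * P.Ψ x) :=
      TwTr.Fix.mul _ (TwTr.Fix.natCast _ p) (fun i => P.fix i x)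
    have eQ : Q = 1 + (p : TP p A) * (-(Q * ((p : TP p A) * P.Ψ x))) := by
      have e2 : Q * (1 + (p : TP p A) * ((p : TP p A) * P.Ψ x)) = 1 := by rw [← eU, hQU]
      rw [mul_add, mul_one, ← mul_assoc Q, ← p_comm Q, mul_assoc] at e2
      rw [mul_neg, ← sub_eq_add_neg]
      exact eq_sub_of_add_eq e2
    have fq : t.Fix (-(Q * ((p : TP p A) * P.Ψ x))) := by
      intro i
      rw [map_neg, map_mul, fQ i, fPsi i]
    have m1 := L_mul_sub t.κ t.fixSub t.κ_fix_comm (x := -(Q * ((p : TP p A) * P.Ψ x)))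
      (y := (p : TP p A) * Y) fq fY
    have m2 := L_mul_sub t.κ t.fixSub t.κ_fix_comm (x := -(Q * ((p : TP p A) * P.Ψ x)))
      (y := (p : TP p A) * P.Ψ x) fq fPsi
    rw [← eQ, ← eT] at m1
    rw [← eQ, ← eU, hQU, L_one] at m2
    exact ⟨by rw [hg]; exact m1, m2.symm⟩
  have h3 : L t.κ (TT p (u : A)) = p * L (tauA p τ) (u : A) := by
    have e1 : (u : A) = 1 + (p : A) * ((p : A) * x) := by
      rw [hu, Nat.cast_pow, pow_two, mul_assoc]
    rw [hκ, e1]
    exact L_TT p τ hτ _
  have h4 : L t.κ (P.U u : TP p A) = L (P.frob τ) (u : A) := by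
    have e1 : (P.U u : TP p A) = 1 + P.Ψ (((p ^ 2 : ℕ) : A) * x) := by
      rw [hU, P.map_nat_mul]
    rw [e1, hu, L_one_add, L_one_add, hκ]
    exact tl_nonUnital P.Ψ (P.frob τ) (kapA p τ) (fun a => rfl) _
  have h5 : p * P.Gam τ hτ u = L t.κ (P.gg u : TP p A) := h1
  rw [h5, h2.1, h3, ← h4]
  linear_combination h2.2

section Nat

variable {A' : Type v} [Ring A'] [Algebra ℤ_[p] A'] (P' : PowAlg p A')
  (τ' : A' →ₗ[ℤ_[p]] ℤ_[p]) (hτ' : ∀ a b, τ' (a * b) = τ' (b * a)) (φ : A →ₐ[ℤ_[p]] A')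

/-- the induced map of tensor powers -/
noncomputable def tpMap : TP p A →ₐ[ℤ_[p]] TP p A' :=
  PiTensorProduct.liftAlgHom
    ((PiTensorProduct.tprod ℤ_[p] (s := fun _ : ZMod p => A')).compLinearMap
      (fun _ => φ.toLinearMap))
    (by
      change tp p (fun _ => φ 1) = 1
      rw [map_one]
      rfl) (by
      intro x y
      change tp p (fun j => φ (x j * y j)) = tp p (fun j => φ (x j)) * tp p (fun j => φ (y j))
      rw [tp_mul]
      simp only [map_mul])

theorem tpMap_tp (m : ZMod p → A) : tpMap φ (tp p m) = tp p (fun j => φ (m j)) := by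
  change PiTensorProduct.lift _ (PiTensorProduct.tprod ℤ_[p] m) = _
  rw [PiTensorProduct.lift.tprod]
  rfl

theorem tpMap_sh (i : ZMod p) (x : TP p A) : tpMap φ (sh p i x) = sh p i (tpMap φ x) := by
  induction x using tp_induction with
  | h1 r m => rw [map_smul, map_smul, map_smul, map_smul, sh_tp, tpMap_tp, tpMap_tp, sh_tp]
  | h2 x y hx hy => rw [map_add, map_add, map_add, map_add, hx, hy]

theorem oprod_map (φ : A →ₐ[ℤ_[p]] A') (f : ℕ → A) (n : ℕ) :
    φ (oprod f n) = oprod (fun i => φ (f i)) n := by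
  induction n with
  | zero => rw [oprod_zero, oprod_zero, map_one]
  | succ n ih => rw [oprod_succ, oprod_succ, map_mul, ih]

theorem kap_tpMap (h : ∀ a, τ' (φ a) = τ a) (x : TP p A) : kap p τ' (tpMap φ x) = kap p τ x := by
  induction x using tp_induction with
  | h1 r m =>
    rw [map_smul, map_smul, map_smul, tpMap_tp, kap_tp, kap_tp, ← h, oprod_map]
  | h2 x y hx hy => rw [map_add, map_add, map_add, hx, hy]

theorem PowAlg.Gam_map (hΨ : ∀ a, P'.Ψ (φ a) = tpMap φ (P.Ψ a)) (h : ∀ a, τ' (φ a) = τ a)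
    (u : Aˣ) : P'.Gam τ' hτ' (Units.map (φ : A →* A') u) = P.Gam τ hτ u := by
  have h1 : P'.gg (Units.map (φ : A →* A') u) =
      Units.map (tpMap φ : TP p A →+* TP p A').toMonoidHom (P.gg u) := by
    rw [PowAlg.gg, PowAlg.gg, map_mul, map_inv]
    congr 2
    · apply Units.ext
      change P'.Ψ (φ u) + (1 - P'.Ψ 1) = tpMap φ (P.Ψ u + (1 - P.Ψ 1))
      have e1 : tpMap φ (P.Ψ 1) = P'.Ψ 1 := by rw [← hΨ, map_one φ]
      rw [hΨ, map_add, map_sub, e1, map_one (tpMap φ)]
    · apply Units.ext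
      change TT p (φ u) = tpMap φ (TT p (u : A))
      rw [TT, TT, tpMap_tp]
  rw [PowAlg.Gam, PowAlg.Gam, h1]
  exact (tG p τ hτ).Lam_map (tG p τ' hτ') _ (fun i x => tpMap_sh φ i x)
    (fun x => kap_tpMap τ τ' φ h x) (P.gg_adm τ hτ u)

end Nat

end

end Pool.Agent.H71.KP

end

section

/-!
# The integral logarithm of matrices over `ℤ_[p][G]`
-/

set_option autoImplicit false
set_option linter.unusedSectionVars false

open scoped TensorProduct

universe u v w

namespace Pool.Agent.H71.KP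

variable (p : ℕ) [hp : Fact p.Prime]

section Fn

variable {G : Type u} [Group G]

variable {p}

/-- The functional `∑ a_g g ↦ ∑ a_g f(g)` on a group ring. -/
noncomputable def fn (f : G → ℤ_[p]) : MonoidAlgebra ℤ_[p] G →ₗ[ℤ_[p]] ℤ_[p] where
  toFun a := a.coeff.sum fun g b => b * f g
  map_add' x y := by
    classical
    rw [MonoidAlgebra.coeff_add, Finsupp.sum_add_index'] <;> simp [add_mul]
  map_smul' r x := by
    classical
    rw [MonoidAlgebra.coeff_smul, Finsupp.sum_smul_index' (by simp), RingHom.id_apply,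
      smul_eq_mul, Finsupp.mul_sum]
    apply Finsupp.sum_congr
    intro g _
    rw [smul_eq_mul, mul_assoc]

omit [Group G] in
theorem fn_single (f : G → ℤ_[p]) (g : G) (b : ℤ_[p]) :
    fn f (MonoidAlgebra.single g b) = b * f g := by
  change (MonoidAlgebra.single g b).coeff.sum (fun g b => b * f g) = _
  rw [MonoidAlgebra.coeff_single, Finsupp.sum_single_index (by simp)]

theorem fn_comm (f : G → ℤ_[p]) (hf : ∀ x y, f (x * y) = f (y * x))
    (x y : MonoidAlgebra ℤ_[p] G) : fn f (x * y) = fn f (y * x) := by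
  induction x using MonoidAlgebra.induction_linear with
  | zero => rw [zero_mul, mul_zero]
  | add x x' hx hx' => rw [add_mul, mul_add, map_add, map_add, hx, hx']
  | single g b =>
    induction y using MonoidAlgebra.induction_linear with
    | zero => rw [zero_mul, mul_zero]
    | add y y' hy hy' => rw [add_mul, mul_add, map_add, map_add, hy, hy']
    | single h c =>
      rw [MonoidAlgebra.single_mul_single, MonoidAlgebra.single_mul_single, fn_single,
        fn_single, hf, mul_comm b c]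

end Fn

section Mat

variable (G : Type u) [Group G] (n : ℕ)

/-- matrices over the group ring -/
abbrev MG : Type u := Matrix (Fin n) (Fin n) (MonoidAlgebra ℤ_[p] G)

variable {G n}

/-- basis elements -/
noncomputable def EE (i k : Fin n) (g : G) : MG p G n :=
  Matrix.single i k (MonoidAlgebra.single g 1)

theorem EE_mul (i k l m : Fin n) (g h : G) :
    EE p i k g * EE p l m h = if k = l then EE p i m (g * h) else 0 := by
  split_ifs with hk
  · subst hk
    rw [EE, EE, Matrix.single_mul_single_same, MonoidAlgebra.single_mul_single, one_mul]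
    rfl
  · rw [EE, EE, Matrix.single_mul_single_of_ne _ _ _ _ hk]

/-- the diagonal tensors -/
noncomputable def DD (i k : Fin n) (g : G) : TP p (MG p G n) := TT p (EE p i k g)

theorem TT_zero {A : Type u} [Ring A] [Algebra ℤ_[p] A] : TT p (0 : A) = 0 :=
  (PiTensorProduct.tprod ℤ_[p] (s := fun _ : ZMod p => A)).map_coord_zero 0 rfl

theorem DD_mul (i k l m : Fin n) (g h : G) :
    DD p i k g * DD p l m h = if k = l then DD p i m (g * h) else 0 := by
  rw [DD, DD, ← TT_mul, EE_mul]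
  split_ifs
  · rfl
  · exact TT_zero p

/-- the components of `Psi` -/
noncomputable def psiE (i k : Fin n) : MonoidAlgebra ℤ_[p] G →+ TP p (MG p G n) where
  toFun a := a.coeff.sum fun g r => r • DD p i k g
  map_zero' := by simp
  map_add' x y := by
    classical
    rw [MonoidAlgebra.coeff_add, Finsupp.sum_add_index'] <;> simp [add_smul]

theorem psiE_single (i k : Fin n) (g : G) (r : ℤ_[p]) :
    psiE p i k (MonoidAlgebra.single g r) = r • DD p i k g := by
  change (MonoidAlgebra.single g r).coeff.sum (fun g r => r • DD p i k g) = _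
  rw [MonoidAlgebra.coeff_single, Finsupp.sum_single_index (by simp)]

theorem psiE_mul (i k l m : Fin n) (a b : MonoidAlgebra ℤ_[p] G) :
    psiE p i k a * psiE p l m b = if k = l then psiE p i m (a * b) else 0 := by
  induction a using MonoidAlgebra.induction_linear with
  | zero => simp
  | add x y hx hy =>
    rw [map_add, add_mul, hx, hy]
    split_ifs
    · rw [add_mul, map_add]
    · rw [add_zero]
  | single g r =>
    induction b using MonoidAlgebra.induction_linear with
    | zero => simp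
    | add x y hx hy =>
      rw [map_add, mul_add, hx, hy]
      split_ifs
      · rw [mul_add, map_add]
      · rw [add_zero]
    | single h s =>
      rw [psiE_single, psiE_single, smul_mul_smul_comm, DD_mul]
      split_ifs
      · rw [MonoidAlgebra.single_mul_single, psiE_single]
      · rw [smul_zero]

/-- the map `Psi` -/
noncomputable def Psi (G : Type u) [Group G] (n : ℕ) : MG p G n →ₙ+* TP p (MG p G n) where
  toFun w := ∑ i, ∑ k, psiE p i k (w i k)
  map_zero' := by simp
  map_add' w w' := by simp [Finset.sum_add_distrib]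
  map_mul' w w' := by
    have h1 : ∀ i k, psiE p i k (w i k) * ∑ l, ∑ m, psiE p l m (w' l m) =
        ∑ m, psiE p i m (w i k * w' k m) := by
      intro i k
      rw [Finset.mul_sum, Finset.sum_eq_single k]
      · rw [Finset.mul_sum]
        apply Finset.sum_congr rfl
        intro m _
        rw [psiE_mul, if_pos rfl]
      · intro l _ hl
        rw [Finset.mul_sum]
        apply Finset.sum_eq_zero
        intro m _
        rw [psiE_mul, if_neg (Ne.symm hl)]
      · intro h
        exact absurd (Finset.mem_univ _) h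
    rw [Finset.sum_mul]
    apply Finset.sum_congr rfl
    intro i _
    rw [Finset.sum_mul]
    simp only [h1, Matrix.mul_apply, map_sum]
    exact Finset.sum_comm

theorem Psi_apply (w : MG p G n) : Psi p G n w = ∑ i, ∑ k, psiE p i k (w i k) := rfl

theorem Psi_single (i k : Fin n) (x : MonoidAlgebra ℤ_[p] G) :
    Psi p G n (Matrix.single i k x) = psiE p i k x := by
  rw [Psi_apply, Finset.sum_eq_single i]
  · rw [Finset.sum_eq_single k]
    · rw [Matrix.single_apply_same]
    · intro l _ hl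
      rw [Matrix.single_apply_of_ne _ _ _ _ _ (by simp [Ne.symm hl]), map_zero]
    · intro h
      exact absurd (Finset.mem_univ _) h
  · intro l _ hl
    apply Finset.sum_eq_zero
    intro m _
    rw [Matrix.single_apply_of_ne _ _ _ _ _ (by simp [Ne.symm hl]), map_zero]
  · intro h
    exact absurd (Finset.mem_univ _) h

/-- induction on matrices over the group ring -/
theorem MG_induction {P : MG p G n → Prop} (h0 : P 0) (ha : ∀ x y, P x → P y → P (x + y))
    (h1 : ∀ (r : ℤ_[p]) (i k : Fin n) (g : G), P (r • EE p i k g)) (w : MG p G n) : P w := by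
  induction w using Matrix.induction_on' with
  | h_zero => exact h0
  | h_add x y hx hy => exact ha x y hx hy
  | h_std_basis i k x =>
    induction x using MonoidAlgebra.induction_linear with
    | zero => rwa [Matrix.single_zero]
    | add x y hx hy =>
      rw [Matrix.single_add]
      exact ha _ _ hx hy
    | single g r =>
      have := h1 r i k g
      rwa [EE, Matrix.smul_single, MonoidAlgebra.smul_single, smul_eq_mul, mul_one] at this

theorem Psi_smul_EE (r : ℤ_[p]) (i k : Fin n) (g : G) :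
    Psi p G n (r • EE p i k g) = r • DD p i k g := by
  rw [EE, Matrix.smul_single, MonoidAlgebra.smul_single, smul_eq_mul, mul_one, Psi_single,
    psiE_single]

/-- the structure -/
noncomputable def PA (G : Type u) [Group G] (n : ℕ) : PowAlg p (MG p G n) where
  Ψ := Psi p G n
  fix := by
    intro i a
    induction a using MG_induction with
    | h0 => rw [map_zero, map_zero]
    | ha x y hx hy => rw [map_add, map_add, hx, hy]
    | h1 r j k g => rw [Psi_smul_EE, map_smul, DD, sh_TT]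
  cond := by
    intro a
    induction a using MG_induction with
    | h0 => exact ⟨0, by simp [TT_zero]⟩
    | ha x y hx hy =>
      obtain ⟨z, hz⟩ := hx
      obtain ⟨z', hz'⟩ := hy
      obtain ⟨z'', hz''⟩ := TT_add p (0 : MG p G n →ₗ[ℤ_[p]] ℤ_[p]) (fun _ _ => rfl) x y
      refine ⟨z'' + z + z', ?_⟩
      have e : ∀ y, (tG p (0 : MG p G n →ₗ[ℤ_[p]] ℤ_[p]) (fun _ _ => rfl)).tr y =
        ∑ i, sh p i y := fun _ => rfl
      rw [e] at hz''
      simp only [map_add, Finset.sum_add_distrib]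
      rw [← hz'', ← hz, ← hz']
      abel
    | h1 r i k g =>
      obtain ⟨z, hz⟩ := TT_smul_sub p (0 : MG p G n →ₗ[ℤ_[p]] ℤ_[p]) (fun _ _ => rfl) r
        (EE p i k g)
      refine ⟨z, ?_⟩
      rw [Psi_smul_EE]
      exact hz

/-- the trace followed by the functional of `f` -/
noncomputable def trf (f : G → ℤ_[p]) (n : ℕ) : MG p G n →ₗ[ℤ_[p]] ℤ_[p] :=
  (fn f).comp (Matrix.traceLinearMap (Fin n) ℤ_[p] (MonoidAlgebra ℤ_[p] G))

theorem trf_apply (f : G → ℤ_[p]) (w : MG p G n) : trf p f n w = ∑ i, fn f (w i i) := by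
  change fn f (Matrix.trace w) = _
  rw [Matrix.trace, map_sum]
  rfl

theorem trf_comm (f : G → ℤ_[p]) (hf : ∀ x y, f (x * y) = f (y * x)) (a b : MG p G n) :
    trf p f n (a * b) = trf p f n (b * a) := by
  rw [trf_apply, trf_apply]
  simp only [Matrix.mul_apply, map_sum]
  rw [Finset.sum_comm]
  apply Finset.sum_congr rfl
  intro i _
  apply Finset.sum_congr rfl
  intro k _
  rw [fn_comm f hf]

theorem trf_EE (f : G → ℤ_[p]) (i k : Fin n) (g : G) :
    trf p f n (EE p i k g) = if i = k then f g else 0 := by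
  rw [trf_apply, EE]
  split_ifs with h
  · subst h
    rw [Finset.sum_eq_single i]
    · rw [Matrix.single_apply_same, fn_single, one_mul]
    · intro l _ hl
      rw [Matrix.single_apply_of_ne _ _ _ _ _ (by simp [Ne.symm hl]), map_zero]
    · intro h
      exact absurd (Finset.mem_univ _) h
  · apply Finset.sum_eq_zero
    intro l _
    rw [Matrix.single_apply_of_ne, map_zero]
    rintro ⟨rfl, h2⟩
    exact h h2.symm

theorem EE_pow (i k : Fin n) (g : G) (m : ℕ) :
    EE p i k g ^ (m + 1) = if i = k ∨ m = 0 then EE p i k (g ^ (m + 1)) else 0 := by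
  induction m with
  | zero => simp
  | succ m ih =>
    rw [pow_succ, ih]
    by_cases h : i = k
    · subst h
      rw [if_pos (Or.inl rfl), if_pos (Or.inl rfl), EE_mul, if_pos rfl, ← pow_succ]
    · have h2 : ¬ (i = k ∨ m + 1 = 0) := by simp [h]
      rw [if_neg h2]
      split_ifs
      · rw [EE_mul, if_neg (Ne.symm h)]
      · rw [zero_mul]

theorem frob_eq (f : G → ℤ_[p]) (w : MG p G n) :
    (PA p G n).frob (trf p f n) w = trf p (fun g => f (g ^ p)) n w := by
  have hp1 := hp.out.one_lt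
  induction w using MG_induction with
  | h0 => rw [map_zero, map_zero]
  | ha x y hx hy => rw [map_add, map_add, hx, hy]
  | h1 r i k g =>
    rw [PowAlg.frob_apply, (trf p (fun g => f (g ^ p)) n).map_smul, trf_EE]
    change kap p _ (Psi p G n (r • EE p i k g)) = _
    rw [Psi_smul_EE, map_smul, DD, TT, kap_tp, oprod_const]
    obtain ⟨q, hq⟩ : ∃ q, p = q + 1 := ⟨p - 1, by omega⟩
    have hq0 : q ≠ 0 := by omega
    congr 1
    conv_lhs => rw [show (EE p i k g) ^ p = (EE p i k g) ^ (q + 1) by rw [← hq]]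
    rw [EE_pow]
    by_cases h : i = k
    · rw [if_pos (Or.inl h), trf_EE, if_pos h, if_pos h, ← hq]
    · rw [if_neg (by simp [h, hq0]), if_neg h, map_zero]

variable (f : G → ℤ_[p]) (hf : ∀ x y, f (x * y) = f (y * x))

/-- the integral logarithm on `GL_n(ℤ_[p][G])` -/
noncomputable def Gam (n : ℕ) (u : (MG p G n)ˣ) : ℚ_[p] :=
  (PA p G n).Gam (trf p f n) (trf_comm p f hf) u

theorem Gam_mul (u w : (MG p G n)ˣ) : Gam p f hf n (u * w) = Gam p f hf n u + Gam p f hf n w :=
  PowAlg.Gam_mul _ _ _ _ _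

theorem Gam_pow (u : (MG p G n)ˣ) (k : ℕ) : Gam p f hf n (u ^ k) = k * Gam p f hf n u :=
  PowAlg.Gam_pow _ _ _ _ _

/-- `trf` as an additive map -/
noncomputable def trA (f : G → ℤ_[p]) (n : ℕ) : MG p G n →+ ℤ_[p] := (trf p f n).toAddMonoidHom

theorem Gam_sq {u : (MG p G n)ˣ} {x : MG p G n}
    (hu : (u : MG p G n) = 1 + ((p ^ 2 : ℕ) : MG p G n) * x) :
    p * Gam p f hf n u = p * L (trA p f n) (u : MG p G n) -
      L (trA p (fun g => f (g ^ p)) n) (u : MG p G n) := by
  rw [Gam, PowAlg.Gam_sq _ _ _ hu]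
  congr 1
  exact L_congr_fun (fun r => frob_eq p f r) _

end Mat

section Nat

variable {G : Type u} [Group G] {H : Type v} [Group H] (φ : G →* H) (n : ℕ)

/-- the induced map on matrices -/
noncomputable def glA : MG p G n →ₐ[ℤ_[p]] MG p H n :=
  (MonoidAlgebra.mapDomainAlgHom ℤ_[p] ℤ_[p] φ).mapMatrix

theorem glA_EE (r : ℤ_[p]) (i k : Fin n) (g : G) :
    glA p φ n (r • EE p i k g) = r • EE p i k (φ g) := by
  rw [map_smul]
  congr 1
  refine Matrix.ext fun a b => ?_
  change MonoidAlgebra.mapDomain φ ((EE p i k g) a b) = (EE p i k (φ g)) a b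
  rw [EE, EE, Matrix.single_apply, Matrix.single_apply]
  split_ifs
  · rw [MonoidAlgebra.mapDomain_single]
  · simp

theorem Gam_map (f : H → ℤ_[p]) (hf : ∀ x y, f (x * y) = f (y * x)) (f' : G → ℤ_[p])
    (hf' : ∀ x y, f' (x * y) = f' (y * x)) (h : ∀ x, f (φ x) = f' x) (u : (MG p G n)ˣ) :
    Gam p f hf n (Units.map (glA p φ n : MG p G n →* MG p H n) u) = Gam p f' hf' n u := by
  apply PowAlg.Gam_map
  · intro a
    induction a using MG_induction with
    | h0 => rw [map_zero, map_zero, map_zero, map_zero]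
    | ha x y hx hy =>
      rw [map_add (glA p φ n), map_add, hx, hy, map_add (PA p G n).Ψ, map_add]
    | h1 r i k g =>
      rw [glA_EE]
      change Psi p H n _ = tpMap _ (Psi p G n _)
      rw [Psi_smul_EE, Psi_smul_EE, map_smul, DD, DD, TT, TT, tpMap_tp]
      have := glA_EE p φ n 1 i k g
      rw [one_smul, one_smul] at this
      rw [this]
  · intro a
    induction a using MG_induction with
    | h0 => rw [map_zero, map_zero, map_zero]
    | ha x y hx hy => rw [map_add, map_add, hx, hy, map_add]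
    | h1 r i k g =>
      rw [glA_EE, map_smul, map_smul, trf_EE, trf_EE, h]

end Nat

end Pool.Agent.H71.KP

end

section

/-!
# The logarithm on units of `ℤ_[p][H]` for finite groups `H`
-/

set_option autoImplicit false
set_option linter.unusedSectionVars false
set_option linter.unusedSimpArgs false

open Matrix
open scoped Classical

universe u v w

namespace Pool.Agent.H71.KP

variable {p : ℕ} [hp : Fact p.Prime]

section C3

variable {R : Type u} [Ring R]

/-- `w` is congruent to `1` modulo `p ^ 3` -/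
def C3 (p : ℕ) (w : R) : Prop := Cong ((p ^ 3 : ℕ) : R) w

theorem C3.cong {w : R} (h : C3 p w) : Cong (p : R) w := by
  obtain ⟨x, rfl⟩ := h
  exact ⟨(p : R) ^ 2 * x, by rw [← mul_assoc, ← pow_succ', Nat.cast_pow]⟩

theorem C3.sq {w : R} (h : C3 p w) : ∃ x, w = 1 + ((p ^ 2 : ℕ) : R) * x := by
  obtain ⟨x, rfl⟩ := h
  refine ⟨(p : R) * x, ?_⟩
  rw [← mul_assoc]
  congr 2
  push_cast
  rw [← pow_succ]

theorem C3.map {S : Type v} [Ring S] (φ : R →+* S) {w : R} (h : C3 p w) : C3 p (φ w) := by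
  have := Cong.map φ h
  rwa [map_natCast] at this

end C3

section Div

variable {C : Type u} [Group C]

/-- the coefficient at `c` -/
noncomputable def dlt (p : ℕ) [Fact p.Prime] (c g : C) : ℤ_[p] := if g = c then 1 else 0

theorem fn_dlt (c : C) (x : MonoidAlgebra ℤ_[p] C) : fn (dlt p c) x = x.coeff c := by
  induction x using MonoidAlgebra.induction_linear with
  | zero => simp
  | add x y hx hy => rw [map_add, hx, hy, MonoidAlgebra.coeff_add, Finsupp.add_apply]
  | single g n =>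
    rw [fn_single, MonoidAlgebra.coeff_single, Finsupp.single_apply, dlt]
    split_ifs <;> simp

theorem exists_eq_mul (n : ℤ_[p]) (x : MonoidAlgebra ℤ_[p] C) (h : ∀ c, n ∣ x.coeff c) :
    ∃ y : MonoidAlgebra ℤ_[p] C, x = n • y := by
  choose g hg using h
  refine ⟨MonoidAlgebra.ofCoeff (Finsupp.onFinset x.coeff.support
    (fun c => if x.coeff c = 0 then 0 else g c) ?_), ?_⟩
  · intro c hc
    rw [Finsupp.mem_support_iff]
    intro h0
    exact hc (if_pos h0)
  · ext c
    rw [MonoidAlgebra.coeff_smul, Finsupp.smul_apply, MonoidAlgebra.coeff_ofCoeff,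
      Finsupp.onFinset_apply, smul_eq_mul]
    split_ifs with h0
    · rw [h0, mul_zero]
    · exact hg c

/-- extraction of the power of `p` -/
theorem exists_p_pow {x : MonoidAlgebra ℤ_[p] C} (hx : x ≠ 0) :
    ∃ (m : ℕ) (r : MonoidAlgebra ℤ_[p] C) (c : C), x = (p : ℤ_[p]) ^ m • r ∧
      ¬ (p : ℤ_[p]) ∣ r.coeff c := by
  have hpp : Prime (p : ℤ_[p]) := PadicInt.prime_p
  obtain ⟨c0, hc0⟩ : ∃ c, x.coeff c ≠ 0 := by
    by_contra hcon
    push Not at hcon
    apply hx
    ext c
    rw [hcon c]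
    simp
  have hbd : ∃ m : ℕ, ¬ ∃ y : MonoidAlgebra ℤ_[p] C, x = (p : ℤ_[p]) ^ m • y := by
    obtain ⟨m, hm⟩ := (FiniteMultiplicity.of_not_isUnit hpp.not_isUnit hc0 :
      FiniteMultiplicity (p : ℤ_[p]) (x.coeff c0))
    refine ⟨m + 1, ?_⟩
    rintro ⟨y, hy⟩
    apply hm
    have h1 := congrArg (fun z : MonoidAlgebra ℤ_[p] C => z.coeff c0) hy
    simp only [MonoidAlgebra.coeff_smul, Finsupp.smul_apply, smul_eq_mul] at h1
    exact ⟨_, h1⟩
  have h0 : Nat.find hbd ≠ 0 := by
    intro h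
    have := Nat.find_spec hbd
    rw [h] at this
    exact this ⟨x, by rw [pow_zero, one_smul]⟩
  obtain ⟨m, hm⟩ := Nat.exists_eq_succ_of_ne_zero h0
  have h1 : ∃ y : MonoidAlgebra ℤ_[p] C, x = (p : ℤ_[p]) ^ m • y := by
    by_contra hcon
    have := Nat.find_min' hbd hcon
    omega
  obtain ⟨r, hr⟩ := h1
  have h2 : ¬ ∃ y : MonoidAlgebra ℤ_[p] C, x = (p : ℤ_[p]) ^ (m + 1) • y := by
    have := Nat.find_spec hbd
    rwa [hm] at this
  by_contra hcon
  push Not at hcon
  obtain ⟨y, hy⟩ := exists_eq_mul (p : ℤ_[p]) r (fun c => hcon m r c hr)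
  apply h2
  refine ⟨y, ?_⟩
  rw [hr, hy, pow_succ, mul_smul]

/-- the functional as an additive map -/
noncomputable def fnA (f : C → ℤ_[p]) : MonoidAlgebra ℤ_[p] C →+ ℤ_[p] := (fn f).toAddMonoidHom

theorem fnA_apply (f : C → ℤ_[p]) (x : MonoidAlgebra ℤ_[p] C) : fnA f x = fn f x := rfl

theorem fnA_comm (f : C → ℤ_[p]) (hf : ∀ x y, f (x * y) = f (y * x))
    (x y : MonoidAlgebra ℤ_[p] C) : fnA f (x * y) = fnA f (y * x) := fn_comm f hf x y

theorem pow_smul_eq {A : Type u} [Ring A] [Algebra ℤ_[p] A] (m : ℕ) (x : A) :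
    (p : ℤ_[p]) ^ m • x = (p : A) ^ m * x := by
  rw [← Nat.cast_pow, Nat.cast_smul_eq_nsmul, nsmul_eq_mul, Nat.cast_pow]

/-- A unit congruent to `1` modulo `p ^ 3` with vanishing logarithm is `1`. -/
theorem eq_one_of_L {w : MonoidAlgebra ℤ_[p] C} (hw : C3 p w)
    (h : ∀ c, L (fnA (dlt p c)) w = 0) : w = 1 := by
  obtain ⟨x, rfl⟩ := hw
  by_cases hx : x = 0
  · rw [hx, mul_zero, add_zero]
  exfalso
  obtain ⟨m, r, c, hr, hc⟩ := exists_p_pow hx
  have h1 := h c
  rw [L_one_add, hr, pow_smul_eq, Nat.cast_pow, ← mul_assoc, ← pow_add] at h1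
  refine tl_ne_zero _ r (3 + m) (by omega) ?_ h1
  rw [fnA_apply, fn_dlt]
  exact hc

end Div

section Pow

variable {C : Type u} [Group C]

/-- reduction modulo `p ^ 3` -/
noncomputable abbrev red3 (p : ℕ) [Fact p.Prime] (C : Type u) [Group C] :
    MonoidAlgebra ℤ_[p] C →+* MonoidAlgebra (ZMod (p ^ 3)) C :=
  MonoidAlgebra.mapRingHom C (PadicInt.toZModPow 3)

theorem C3_of_red {w : MonoidAlgebra ℤ_[p] C} (h : red3 p C w = 1) : C3 p w := by
  obtain ⟨y, hy⟩ := exists_eq_mul ((p : ℤ_[p]) ^ 3) (w - 1) (fun c => by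
    have h1 : red3 p C (w - 1) = 0 := by rw [map_sub, map_one, h, sub_self]
    have h2 : (red3 p C (w - 1)).coeff c = PadicInt.toZModPow 3 ((w - 1).coeff c) := by
      rfl
    rw [h1] at h2
    have h3 : (w - 1).coeff c ∈ RingHom.ker (PadicInt.toZModPow (p := p) 3) := h2.symm
    rw [PadicInt.ker_toZModPow, Ideal.mem_span_singleton] at h3
    exact h3)
  refine ⟨y, ?_⟩
  have h3 : w = 1 + (w - 1) := by abel
  rw [h3, hy, pow_smul_eq, Nat.cast_pow]

variable [Finite C]

theorem finite_red : Finite (MonoidAlgebra (ZMod (p ^ 3)) C) := by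
  have : NeZero (p ^ 3) := ⟨pow_ne_zero _ hp.out.ne_zero⟩
  apply Finite.of_injective (fun (x : MonoidAlgebra (ZMod (p ^ 3)) C) (c : C) => x.coeff c)
  intro x y h
  ext c
  exact congrFun h c

/-- an exponent for the units modulo `p ^ 3` -/
noncomputable def NP (p : ℕ) (C : Type u) [Group C] : ℕ :=
  Nat.card (MonoidAlgebra (ZMod (p ^ 3)) C)ˣ

theorem NP_ne_zero : NP p C ≠ 0 := by
  have := finite_red (p := p) (C := C)
  have : Finite (MonoidAlgebra (ZMod (p ^ 3)) C)ˣ := inferInstance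
  exact Nat.card_pos.ne'

theorem C3_pow_NP (δ : (MonoidAlgebra ℤ_[p] C)ˣ) :
    C3 p ((δ ^ NP p C : (MonoidAlgebra ℤ_[p] C)ˣ) : MonoidAlgebra ℤ_[p] C) := by
  have := finite_red (p := p) (C := C)
  apply C3_of_red
  have h1 : Units.map (red3 p C).toMonoidHom δ ^ NP p C = 1 := pow_card_eq_one'
  rw [← map_pow] at h1
  exact congrArg Units.val h1

end Pow

theorem L_pow {R : Type u} [Ring R] (τ : R →+ ℤ_[p]) (hτ : ∀ a b, τ (a * b) = τ (b * a)) {w : R}
    (h : Cong (p : R) w) (n : ℕ) : Cong (p : R) (w ^ n) ∧ L τ (w ^ n) = n * L τ w := by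
  induction n with
  | zero =>
    rw [pow_zero, L_one]
    exact ⟨Cong.one _, by simp⟩
  | succ n ih =>
    rw [pow_succ]
    refine ⟨ih.1.mul h, ?_⟩
    rw [L_mul τ hτ cen_p ih.1 h, ih.2]
    push_cast
    ring

section LU

variable {H : Type u} [Group H]

theorem ga_comm {R : Type v} [CommRing R] (hc : ∀ a b : H, a * b = b * a)
    (x y : MonoidAlgebra R H) : x * y = y * x := by
  induction x using MonoidAlgebra.induction_linear with
  | zero => rw [zero_mul, mul_zero]
  | add x x' hx hx' => rw [add_mul, mul_add, hx, hx']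
  | single g b =>
    induction y using MonoidAlgebra.induction_linear with
    | zero => rw [zero_mul, mul_zero]
    | add y y' hy hy' => rw [add_mul, mul_add, hy, hy']
    | single h c =>
      rw [MonoidAlgebra.single_mul_single, MonoidAlgebra.single_mul_single, hc, mul_comm b c]

theorem fn_sum [Fintype H] (f : H → ℤ_[p]) (y : MonoidAlgebra ℤ_[p] H) :
    fn f y = ∑ c, f c * fn (dlt p c) y := by
  induction y using MonoidAlgebra.induction_linear with
  | zero => simp
  | add x y hx hy =>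
    rw [map_add, hx, hy, ← Finset.sum_add_distrib]
    apply Finset.sum_congr rfl
    intro c _
    rw [map_add, mul_add]
  | single g n =>
    rw [fn_single, Finset.sum_eq_single g]
    · rw [fn_single, dlt, if_pos rfl]
      ring
    · intro c _ hc
      rw [fn_single, dlt, if_neg (Ne.symm hc)]
      ring
    · intro h
      exact absurd (Finset.mem_univ _) h

theorem L_sum [Fintype H] (f : H → ℤ_[p]) {w : MonoidAlgebra ℤ_[p] H}
    (h : Cong (p : MonoidAlgebra ℤ_[p] H) w) :
    L (fnA f) w = ∑ c, (f c : ℚ_[p]) * L (fnA (dlt p c)) w := by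
  obtain ⟨x, hx⟩ := h
  have h1 : ∀ τ : MonoidAlgebra ℤ_[p] H →+ ℤ_[p], L τ w = tl τ ((p : MonoidAlgebra ℤ_[p] H) * x) := by
    intro τ
    rw [hx, L_one_add]
  have h2 : tlTerm (fnA f) ((p : MonoidAlgebra ℤ_[p] H) * x) =
      fun k => ∑ c, (f c : ℚ_[p]) * tlTerm (fnA (dlt p c)) ((p : MonoidAlgebra ℤ_[p] H) * x) k := by
    funext k
    simp only [tlTerm, fnA_apply]
    rw [fn_sum f]
    rw [PadicInt.coe_sum, Finset.mul_sum, Finset.sum_div]
    apply Finset.sum_congr rfl
    intro c _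
    rw [PadicInt.coe_mul]
    ring
  have h3 : ∀ c ∈ (Finset.univ : Finset H), Summable (fun k =>
      (f c : ℚ_[p]) * tlTerm (fnA (dlt p c)) ((p : MonoidAlgebra ℤ_[p] H) * x) k) := by
    intro c _
    exact (tl_summable _ cen_p x).mul_left _
  rw [h1, tl, h2, Summable.tsum_finsetSum h3]
  apply Finset.sum_congr rfl
  intro c _
  rw [tsum_mul_left, h1, tl]

variable [Finite H]

/-- The logarithmic functional of `f` on units of `ℤ_[p][H]`. -/
noncomputable def LU (f : H → ℤ_[p]) (δ : (MonoidAlgebra ℤ_[p] H)ˣ) : ℚ_[p] :=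
  (NP p H : ℚ_[p])⁻¹ * L (fnA f) ((δ ^ NP p H : (MonoidAlgebra ℤ_[p] H)ˣ) : MonoidAlgebra ℤ_[p] H)

theorem LU_eq (f : H → ℤ_[p]) (hf : ∀ x y, f (x * y) = f (y * x))
    (δ : (MonoidAlgebra ℤ_[p] H)ˣ) (m : ℕ) (hm : m ≠ 0)
    (h : C3 p ((δ ^ m : (MonoidAlgebra ℤ_[p] H)ˣ) : MonoidAlgebra ℤ_[p] H)) :
    LU f δ = (m : ℚ_[p])⁻¹ *
      L (fnA f) ((δ ^ m : (MonoidAlgebra ℤ_[p] H)ˣ) : MonoidAlgebra ℤ_[p] H) := by
  have h1 := (L_pow (fnA f) (fnA_comm f hf) h.cong (NP p H)).2
  have h2 := (L_pow (fnA f) (fnA_comm f hf) (C3_pow_NP δ).cong m).2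
  have h3 : ((δ ^ m : (MonoidAlgebra ℤ_[p] H)ˣ) : MonoidAlgebra ℤ_[p] H) ^ NP p H =
      ((δ ^ NP p H : (MonoidAlgebra ℤ_[p] H)ˣ) : MonoidAlgebra ℤ_[p] H) ^ m := by
    rw [← Units.val_pow_eq_pow_val, ← Units.val_pow_eq_pow_val, ← pow_mul, ← pow_mul, mul_comm]
  rw [h3, h2] at h1
  have hN : (NP p H : ℚ_[p]) ≠ 0 := by exact_mod_cast NP_ne_zero (p := p) (C := H)
  have hm' : (m : ℚ_[p]) ≠ 0 := by exact_mod_cast hm
  rw [LU]
  field_simp
  linear_combination h1

theorem LU_mul (hc : ∀ a b : H, a * b = b * a) (f : H → ℤ_[p])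
    (δ δ' : (MonoidAlgebra ℤ_[p] H)ˣ) : LU f (δ * δ') = LU f δ + LU f δ' := by
  have hcm : Commute δ δ' := Units.ext (ga_comm hc _ _)
  rw [LU, LU, LU, hcm.mul_pow, Units.val_mul,
    L_mul (fnA f) (fnA_comm f (fun x y => by rw [hc])) cen_p (C3_pow_NP δ).cong
      (C3_pow_NP δ').cong]
  ring

theorem fn_gr {G : Type u} [Group G] {H' : Type v} [Group H'] (φ : G →* H') (f : H' → ℤ_[p])
    (a : MonoidAlgebra ℤ_[p] G) :
    fn f (MonoidAlgebra.mapDomainRingHom ℤ_[p] φ a) = fn (fun g => f (φ g)) a := by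
  induction a using MonoidAlgebra.induction_linear with
  | zero => simp
  | add x y hx hy => rw [map_add, map_add, map_add, hx, hy]
  | single g n =>
    change fn f (MonoidAlgebra.mapDomain φ (MonoidAlgebra.single g n)) = _
    rw [MonoidAlgebra.mapDomain_single, fn_single, fn_single]

theorem LU_map {H' : Type v} [Group H'] [Finite H'] (φ : H →* H') (f : H' → ℤ_[p])
    (hf : ∀ x y, f (x * y) = f (y * x)) (δ : (MonoidAlgebra ℤ_[p] H)ˣ) :
    LU f (Units.map (MonoidAlgebra.mapDomainRingHom ℤ_[p] φ).toMonoidHom δ) =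
      LU (fun x => f (φ x)) δ := by
  have h1 : ((Units.map (MonoidAlgebra.mapDomainRingHom ℤ_[p] φ).toMonoidHom δ ^ NP p H :
      (MonoidAlgebra ℤ_[p] H')ˣ) : MonoidAlgebra ℤ_[p] H') =
      MonoidAlgebra.mapDomainRingHom ℤ_[p] φ
        ((δ ^ NP p H : (MonoidAlgebra ℤ_[p] H)ˣ) : MonoidAlgebra ℤ_[p] H) := by
    rw [← map_pow]
    rfl
  rw [LU_eq f hf _ (NP p H) NP_ne_zero (by rw [h1]; exact (C3_pow_NP δ).map _), h1, LU, L_map]
  congr 1
  exact L_congr_fun (fun x => fn_gr φ f x) _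

theorem LU_sum [Fintype H] (f : H → ℤ_[p]) (δ : (MonoidAlgebra ℤ_[p] H)ˣ) :
    LU f δ = ∑ c, (f c : ℚ_[p]) * LU (dlt p c) δ := by
  rw [LU, L_sum f (C3_pow_NP δ).cong, Finset.mul_sum]
  apply Finset.sum_congr rfl
  intro c _
  rw [LU]
  ring

/-- Units with vanishing logarithm have finite order. -/
theorem LU_detect {x : (MonoidAlgebra ℤ_[p] H)ˣ} (h : ∀ c, LU (dlt p c) x = 0) :
    x ^ NP p H = 1 := by
  apply Units.ext
  rw [Units.val_one]
  apply eq_one_of_L (C3_pow_NP x)
  intro c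
  have h1 := h c
  rw [LU] at h1
  rcases mul_eq_zero.1 h1 with h2 | h2
  · exact absurd (inv_eq_zero.1 h2) (by exact_mod_cast NP_ne_zero (p := p) (C := H))
  · exact h2

end LU

end Pool.Agent.H71.KP

end
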