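import Pool.Agent.H94.FJ.M06
import Pool.Agent.H94.FJ.M14
import Pool.Agent.H94.FJ.M18
import Pool.Agent.H94.FJ.M19

/-! The parts of this file: H71.KP.Sys2, H71.KP.Jac, H71.KP.Witt, H71.KP.SysP, H71.KP.MainP, H95.WH.PushR. -/

section

/-!
# Sums of primitive classes with vanishing logarithms are torsion
-/

set_option autoImplicit false
set_option linter.unusedSectionVars false
set_option linter.unusedSimpArgs false

open Matrix
open scoped Classical

universe u v w t

namespace Pool.Agent.H71.KP

open Pool.Agent.H71.WH (exists_nu Sat Sat_of_smul mem_Sat CycSub conjHom mulAut_finite IsInd zpowers_aut sum_ind)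

namespace LogSys

variable {R : Type u} [CommRing R] {A : Type w} [AddCommGroup A] (S : LogSys.{u, v, w} R A)
  {G : Type v} [Group G]

section D

variable {D : Type v} [Group D] [Finite D] [IsCyclic D] (hg : S.good (Nat.card D))

theorem isPrim_one (hg : S.good (Nat.card D)) : S.IsPrim (1 : (MonoidAlgebra R D)ˣ) :=
  fun c _ => S.ell_one c hg

theorem isPrim_mul (hg : S.good (Nat.card D)) {x y : (MonoidAlgebra R D)ˣ}
    (hx : S.IsPrim x) (hy : S.IsPrim y) : S.IsPrim (x * y) := by
  intro c hc
  rw [S.ell_mul D c x y hg, hx c hc, hy c hc, add_zero]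

theorem isPrim_inv (hg : S.good (Nat.card D)) {x : (MonoidAlgebra R D)ˣ}
    (hx : S.IsPrim x) : S.IsPrim x⁻¹ := by
  intro c hc
  rw [S.ell_inv c hg, hx c hc, neg_zero]

theorem ell_aut (hg : S.good (Nat.card D)) (w : MulAut D) (c : D) (y : (MonoidAlgebra R D)ˣ) :
    S.ell D c (unitsMap w.toMonoidHom y) = S.ell D (w.symm c) y := by
  have h1 := S.ell_map D D w.toMonoidHom w.injective (w.symm c) y hg
  have h0 : w.toMonoidHom (w.symm c) = c := w.apply_symm_apply c
  rwa [h0] at h1

end D

theorem primSet_neg {z : ColimU R G} (hz : z ∈ S.PrimSet G) : -z ∈ S.PrimSet G := by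
  obtain ⟨D, i1, i2, y, hg, hy, rfl⟩ := hz
  exact ⟨D, i1, i2, y⁻¹, hg, S.isPrim_inv hg hy, (cl_inv D y).symm⟩

/-- The coefficient at the conjugacy class of `c`. -/
noncomputable def val (c : G) (D : Subgroup G) [Finite D] [IsCyclic D]
    (y : (MonoidAlgebra R D)ˣ) : A :=
  letI := Fintype.ofFinite D
  ∑ d ∈ Finset.univ.filter (fun d : D => IsConj c (d : G)), S.ell D d y

/-- A class from a cyclic subgroup `D₀`. -/
def Over (D₀ : CycSub G) (z : ColimU R G) : Prop :=
  ∃ (_ : Finite D₀.1) (_ : IsCyclic D₀.1) (y : (MonoidAlgebra R D₀.1)ˣ),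
    S.IsPrim y ∧ z = cl D₀ y

theorem over_of_conj (D₀ D : CycSub G) [Finite D₀.1] [IsCyclic D₀.1] [Finite D.1] [IsCyclic D.1]
    (hg : S.good (Nat.card D₀.1)) (c : D₀.1) (d : D.1)
    (hc : Subgroup.zpowers c = ⊤) (hd : Subgroup.zpowers d = ⊤) (h : IsConj (c : G) (d : G))
    (y : (MonoidAlgebra R D.1)ˣ) (hy : S.IsPrim y) : S.Over D₀ (cl D y) := by
  obtain ⟨g, hg'⟩ := isConj_iff.1 h
  have hg'' : g⁻¹ * (d : G) * g⁻¹⁻¹ = c := by rw [← hg']; group
  have h1 : ∀ x ∈ D₀.1, g * x * g⁻¹ ∈ D.1 := by
    intro x hx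
    have : (⟨x, hx⟩ : D₀.1) ∈ Subgroup.zpowers c := by rw [hc]; trivial
    obtain ⟨m, hm⟩ := Subgroup.mem_zpowers_iff.1 this
    have hm' : (c : G) ^ m = x := by
      rw [← Subgroup.coe_zpow, hm]
    rw [← hm', ← conj_zpow, hg']
    exact D.1.zpow_mem d.2 m
  have h2 : ∀ x ∈ D.1, g⁻¹ * x * g⁻¹⁻¹ ∈ D₀.1 := by
    intro x hx
    have : (⟨x, hx⟩ : D.1) ∈ Subgroup.zpowers d := by rw [hd]; trivial
    obtain ⟨m, hm⟩ := Subgroup.mem_zpowers_iff.1 this
    have hm' : (d : G) ^ m = x := by
      rw [← Subgroup.coe_zpow, hm]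
    rw [← hm', ← conj_zpow, hg'']
    exact D₀.1.zpow_mem c.2 m
  let e : D.1 ≃* D₀.1 :=
    { toFun := conjHom g⁻¹ D.1 D₀.1 h2
      invFun := conjHom g D₀.1 D.1 h1
      left_inv := by
        intro x
        apply Subtype.ext
        change g * (g⁻¹ * (x : G) * g⁻¹⁻¹) * g⁻¹ = x
        group
      right_inv := by
        intro x
        apply Subtype.ext
        change g⁻¹ * (g * (x : G) * g⁻¹) * g⁻¹⁻¹ = x
        group
      map_mul' := map_mul _ }
  refine ⟨inferInstance, inferInstance, unitsMap e.toMonoidHom y, S.isPrim_map e hg hy, ?_⟩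
  exact (cl_conj D D₀ g⁻¹ h2 y).symm

theorem val_not_over (D₀ D : CycSub G) [Finite D₀.1] [IsCyclic D₀.1] [Finite D.1] [IsCyclic D.1]
    (hg : S.good (Nat.card D₀.1)) (c : D₀.1) (hc : Subgroup.zpowers c = ⊤)
    (y : (MonoidAlgebra R D.1)ˣ) (hy : S.IsPrim y) (h : ¬ S.Over D₀ (cl D y)) :
    S.val (c : G) D.1 y = 0 := by
  rw [val]
  apply Finset.sum_eq_zero
  intro d hd
  apply hy
  intro hd'
  exact h (S.over_of_conj D₀ D hg c d hc hd' (Finset.mem_filter.1 hd).2 y hy)

theorem split_list (D₀ : CycSub G) [Finite D₀.1] [IsCyclic D₀.1] (hg : S.good (Nat.card D₀.1))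
    (l : List (ColimU R G)) (hl : ∀ z ∈ l, z ∈ S.PrimSet G) :
    ∃ y : (MonoidAlgebra R D₀.1)ˣ, S.IsPrim y ∧ ∃ l' : List (ColimU R G),
      (∀ z ∈ l', z ∈ S.PrimSet G ∧ ¬ S.Over D₀ z) ∧ l'.length ≤ l.length ∧
        l.sum = cl D₀ y + l'.sum := by
  induction l with
  | nil => exact ⟨1, S.isPrim_one hg, [], by simp, le_rfl, by rw [cl_one]; simp⟩
  | cons z l ih =>
    obtain ⟨y, hy, l', h1, h2, h3⟩ := ih (fun z hz => hl z (List.mem_cons_of_mem _ hz))
    by_cases hz : S.Over D₀ z
    · obtain ⟨_, _, y', hy', rfl⟩ := hz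
      refine ⟨y' * y, S.isPrim_mul hg hy' hy, l', h1, h2.trans (by simp), ?_⟩
      rw [List.sum_cons, h3, cl_mul, add_assoc]
    · refine ⟨y, hy, z :: l', ?_, by simpa using h2, ?_⟩
      · intro z' hz'
        rcases List.mem_cons.1 hz' with rfl | hz'
        · exact ⟨hl _ List.mem_cons_self, hz⟩
        · exact h1 _ hz'
      · rw [List.sum_cons, List.sum_cons, h3]
        abel

/-- If the coefficients at the conjugacy classes of the generators vanish on a primitive class of a
cyclic subgroup, then its class in the colimit is torsion. -/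
theorem torsion_of_vanish (D₀ : CycSub G) [Finite D₀.1] [IsCyclic D₀.1]
    (hg : S.good (Nat.card D₀.1)) (y : (MonoidAlgebra R D₀.1)ˣ) (hy : S.IsPrim y)
    (h : ∀ c : D₀.1, Subgroup.zpowers c = ⊤ → S.val (c : G) D₀.1 y = 0) :
    ∃ m : ℤ, m ≠ 0 ∧ m • cl D₀ y = 0 := by
  have : Fintype D₀.1 := Fintype.ofFinite D₀.1
  have := mulAut_finite D₀.1
  have : Fintype (MulAut D₀.1) := Fintype.ofFinite _
  let W := Finset.univ.filter (fun w : MulAut D₀.1 => IsInd D₀.1 w)
  let F : MulAut D₀.1 → (MonoidAlgebra R D₀.1)ˣ := fun w => unitsMap w.toMonoidHom y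
  obtain ⟨m, hm, h0⟩ := S.detect D₀.1 (W.toList.map F).prod hg (by
    intro c
    rw [S.ell_list c hg, List.map_map, Finset.sum_map_toList]
    have e1 : ∀ w : MulAut D₀.1, (S.ell D₀.1 c ∘ F) w = S.ell D₀.1 (w.symm c) y :=
      fun w => S.ell_aut hg w c y
    rw [Finset.sum_congr rfl (fun w _ => e1 w)]
    by_cases hc : Subgroup.zpowers c = ⊤
    · have e2 := h c hc
      rw [LogSys.val] at e2
      rw [← e2]
      refine (sum_ind D₀.1 c hc (fun d => S.ell D₀.1 d y)).trans ?_
      exact Finset.sum_congr (by ext; simp) (fun _ _ => rfl)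
    · apply Finset.sum_eq_zero
      intro w _
      exact hy _ (zpowers_aut w.symm c hc))
  have h1 : ∀ w ∈ W, (cl D₀ ∘ F) w = cl D₀ y := by
    intro w hw
    obtain ⟨g, hg⟩ := (Finset.mem_filter.1 hw).2
    have hr : ∀ x ∈ D₀.1, g * x * g⁻¹ ∈ D₀.1 := by
      intro x hx
      rw [← hg ⟨x, hx⟩]
      exact (w ⟨x, hx⟩).2
    have e1 : w.toMonoidHom = conjHom g D₀.1 D₀.1 hr := by
      apply MonoidHom.ext
      intro a
      exact Subtype.ext (hg a)
    change cl D₀ (unitsMap w.toMonoidHom y) = cl D₀ y
    rw [e1]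
    exact cl_conj D₀ D₀ g hr y
  have h2 : m • (W.card • cl D₀ y) = 0 := by
    have e1 := congrArg (cl D₀) h0
    rw [cl_pow, cl_one, cl_list, List.map_map, Finset.sum_map_toList,
      Finset.sum_congr rfl h1, Finset.sum_const] at e1
    exact e1
  refine ⟨(m * W.card : ℕ), ?_, ?_⟩
  · have : (1 : MulAut D₀.1) ∈ W := by
      rw [Finset.mem_filter]
      exact ⟨Finset.mem_univ _, 1, fun d => by simp⟩
    have h3 := (Finset.card_pos.2 ⟨_, this⟩).ne'
    have h4 : m * W.card ≠ 0 := Nat.mul_ne_zero hm h3
    exact_mod_cast h4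
  · rw [natCast_zsmul, mul_smul, h2]

section V

variable (V : G → ColimU R G →+ A) (hV : ∀ (c : G) (D : CycSub G) (_ : Finite D.1)
  (_ : IsCyclic D.1) (y : (MonoidAlgebra R D.1)ˣ), S.good (Nat.card D.1) →
  V c (cl D y) = S.val c D.1 y)

theorem val_congr (D : Subgroup G) [Finite D] [IsCyclic D] {c c' : G} (h : IsConj c c')
    (y : (MonoidAlgebra R D)ˣ) : S.val c D y = S.val c' D y := by
  rw [LogSys.val, LogSys.val]
  refine Finset.sum_congr ?_ (fun _ _ => rfl)
  ext d
  rw [Finset.mem_filter, Finset.mem_filter]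
  exact ⟨fun h1 => ⟨h1.1, h.symm.trans h1.2⟩, fun h1 => ⟨h1.1, h.trans h1.2⟩⟩

theorem val_eq_zero (D : Subgroup G) [Finite D] [IsCyclic D] (y : (MonoidAlgebra R D)ˣ)
    (hy : S.IsPrim y) (h : ∀ c : D, Subgroup.zpowers c = ⊤ → S.val (c : G) D y = 0) (c : G) :
    S.val c D y = 0 := by
  by_cases hc : ∃ d : D, Subgroup.zpowers d = ⊤ ∧ IsConj c (d : G)
  · obtain ⟨d, hd, h1⟩ := hc
    rw [S.val_congr D h1, h d hd]
  · push Not at hc
    rw [LogSys.val]
    apply Finset.sum_eq_zero
    intro d hd
    exact hy d fun hd' => hc d hd' (Finset.mem_filter.1 hd).2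

include hV in
/-- A sum of primitive classes with vanishing functionals is torsion. -/
theorem torsion_list (N : ℕ) : ∀ l : List (ColimU R G), l.length = N →
    (∀ z ∈ l, z ∈ S.PrimSet G) → (∀ c : G, V c l.sum = 0) →
    ∃ m : ℤ, m ≠ 0 ∧ m • l.sum = 0 := by
  induction N using Nat.strong_induction_on with
  | _ N ih =>
    intro l hN hl h
    rcases l with _ | ⟨z, l⟩
    · exact ⟨1, one_ne_zero, by simp⟩
    obtain ⟨D₀, i1, i2, y₀, hg, hy₀, rfl⟩ := hl z List.mem_cons_self
    obtain ⟨y₁, hy₁, l', h1, h2, h3⟩ := S.split_list D₀ hg l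
      (fun z hz => hl z (List.mem_cons_of_mem _ hz))
    have e1 : (cl D₀ y₀ :: l).sum = cl D₀ (y₀ * y₁) + l'.sum := by
      rw [List.sum_cons, h3, cl_mul, add_assoc]
    have hy : S.IsPrim (y₀ * y₁) := S.isPrim_mul hg hy₀ hy₁
    rw [e1] at h ⊢
    have hvan : ∀ c : D₀.1, Subgroup.zpowers c = ⊤ → V (c : G) l'.sum = 0 := by
      intro c hc
      rw [map_list_sum]
      apply List.sum_eq_zero
      intro x hx
      obtain ⟨z, hz, rfl⟩ := List.mem_map.1 hx
      obtain ⟨⟨D, j1, j2, y, hgD, hy, rfl⟩, hz2⟩ := h1 z hz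
      rw [hV (c : G) D j1 j2 y hgD]
      exact S.val_not_over D₀ D hg c hc y hy hz2
    have hval : ∀ c : D₀.1, Subgroup.zpowers c = ⊤ → S.val (c : G) D₀.1 (y₀ * y₁) = 0 := by
      intro c hc
      have e2 := h (c : G)
      rw [map_add, hvan c hc, add_zero, hV (c : G) D₀ i1 i2 _ hg] at e2
      exact e2
    obtain ⟨m, hm, hm'⟩ := S.torsion_of_vanish D₀ hg (y₀ * y₁) hy hval
    have h4 : ∀ c : G, V c l'.sum = 0 := by
      intro c
      have e2 := h c
      rw [map_add, hV c D₀ i1 i2 _ hg, S.val_eq_zero D₀.1 _ hy hval c, zero_add] at e2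
      exact e2
    obtain ⟨m', hm1, hm2⟩ := ih l'.length (by rw [← hN, List.length_cons]; omega) l' rfl
      (fun z hz => (h1 z hz).1) h4
    refine ⟨m * m', mul_ne_zero hm hm1, ?_⟩
    rw [smul_add, mul_smul m m' l'.sum, hm2, smul_zero, add_zero, mul_comm, mul_smul, hm',
      smul_zero]

/-- Elements of the subgroup generated by the primitive classes are sums of primitive classes. -/
theorem exists_list {z : ColimU R G} (hz : z ∈ AddSubgroup.closure (S.PrimSet G)) :
    ∃ l : List (ColimU R G), (∀ z ∈ l, z ∈ S.PrimSet G) ∧ l.sum = z := by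
  induction hz using AddSubgroup.closure_induction with
  | mem x hx => exact ⟨[x], by simpa using hx, by simp⟩
  | zero => exact ⟨[], by simp, rfl⟩
  | add x y _ _ hx hy =>
    obtain ⟨l, h1, rfl⟩ := hx
    obtain ⟨l', h1', rfl⟩ := hy
    refine ⟨l ++ l', ?_, List.sum_append⟩
    intro z hz
    rcases List.mem_append.1 hz with h | h
    · exact h1 z h
    · exact h1' z h
  | neg x _ hx =>
    obtain ⟨l, h1, rfl⟩ := hx
    refine ⟨l.map (- ·), ?_, ?_⟩
    · intro z hz
      obtain ⟨y, hy, rfl⟩ := List.mem_map.1 hz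
      exact S.primSet_neg (h1 y hy)
    · have hneg : ∀ l : List (ColimU R G), (l.map (- ·)).sum = - l.sum := by
        intro l
        induction l with
        | nil => simp
        | cons a l ih => rw [List.map_cons, List.sum_cons, List.sum_cons, ih, neg_add]
      exact hneg l

/-- The classes of units of good cyclic subgroups. -/
def GoodSet (G : Type v) [Group G] : Set (ColimU R G) :=
  {z | ∃ (D : CycSub G) (y : (MonoidAlgebra R D.1)ˣ), S.good (Nat.card D.1) ∧ z = cl D y}

include hV in
/-- Classes with vanishing functionals are torsion. -/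
theorem torsion_of_V (z : ColimU R G)
    (hz : z ∈ Sat (AddSubgroup.closure (S.GoodSet G))) (M : ℤ) (hM : M ≠ 0)
    (h : ∀ c, V c (M • z) = 0) : ∃ m : ℤ, m ≠ 0 ∧ m • z = 0 := by
  have h0 : AddSubgroup.closure (S.GoodSet G) ≤ Sat (AddSubgroup.closure (S.PrimSet G)) := by
    rw [AddSubgroup.closure_le]
    rintro z ⟨D, y, hg, rfl⟩
    exact S.mem_sat D hg y
  obtain ⟨m₀, hm₀, hz⟩ := hz
  obtain ⟨m, hm, hz⟩ := h0 hz
  obtain ⟨l, h1, hl'⟩ := S.exists_list (AddSubgroup.zsmul_mem _ hz M)
  have e1 : M • m • m₀ • z = (m * m₀) • (M • z) := by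
    rw [smul_smul, smul_smul, smul_smul]
    congr 1
    ring
  obtain ⟨m', hm', h2⟩ := S.torsion_list V hV l.length l rfl h1 (by
    intro c
    rw [hl', e1, map_zsmul, h c, smul_zero])
  exact ⟨m' * (M * (m * m₀)), mul_ne_zero hm' (mul_ne_zero hM (mul_ne_zero hm hm₀)),
    by rw [mul_smul, mul_smul, mul_smul, ← hl', h2]⟩

end V

end LogSys

end Pool.Agent.H71.KP

end

section

/-!
# Jacobi's formula and the residue functional of the restriction
-/

set_option autoImplicit false
set_option linter.unusedSectionVars false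
set_option linter.unusedSimpArgs false

open Matrix
open scoped Classical

universe u v w t

namespace Pool.Agent.H71.KP

open TrivSqZeroExt in
/-- The homomorphism to the dual numbers of a derivation. -/
noncomputable def toDual {C : Type u} [CommRing C] (D : C →+ C)
    (leib : ∀ x y, D (x * y) = D x * y + x * D y) : C →+* TrivSqZeroExt C C where
  toFun c := inl c + inr (D c)
  map_one' := by
    have h := leib 1 1
    rw [mul_one, one_mul, mul_one] at h
    rw [add_eq_left.1 h.symm, inr_zero, add_zero, inl_one]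
  map_zero' := by rw [map_zero, inl_zero, inr_zero, add_zero]
  map_add' a b := by rw [map_add, inl_add, inr_add]; abel
  map_mul' a b := by
    ext
    · simp
    · simp [leib, mul_comm, add_comm]

open TrivSqZeroExt in
/-- **Jacobi's formula** for derivations. -/
theorem D_det {C : Type u} [CommRing C] {ι : Type v} [Fintype ι] [DecidableEq ι] (D : C →+ C)
    (leib : ∀ x y, D (x * y) = D x * y + x * D y) (W V : Matrix ι ι C) (hV : W * V = 1) :
    D (det W) = det W * trace (V * W.map D) := by
  set E := toDual D leib with hE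
  let ε : TrivSqZeroExt C C := inr 1
  have hε : ε ^ 2 = 0 := by rw [pow_two]; exact inr_mul_inr _ _ _
  have h1 : W.map E = (W.map (inlHom C C)) * (1 + ε • (V * W.map D).map (inlHom C C)) := by
    have h2 : (W.map (inlHom C C)) * ((V * W.map D).map (inlHom C C)) =
        (W.map D).map (inlHom C C) := by
      rw [← Matrix.map_mul, ← mul_assoc, hV, one_mul]
    rw [mul_add, mul_one, Matrix.mul_smul, h2]
    refine Matrix.ext fun i j => ?_
    rw [Matrix.map_apply, Matrix.add_apply, Matrix.map_apply, Matrix.smul_apply, Matrix.map_apply,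
      Matrix.map_apply]
    change inl (W i j) + inr (D (W i j)) = inl (W i j) + inr 1 * inl (D (W i j))
    congr 1
    rw [inr_mul_inl]
    simp
  have h3 : E (det W) = det (W.map E) := RingHom.map_det E W
  have h4 : det (W.map (inlHom C C)) = inlHom C C (det W) := (RingHom.map_det _ W).symm
  have h5 : trace ((V * W.map D).map (inlHom C C)) = inlHom C C (trace (V * W.map D)) :=
    (AddMonoidHom.map_trace (inlHom C C).toAddMonoidHom _).symm
  rw [h1, det_mul, det_one_add_smul, hε, mul_zero, add_zero, h4, h5] at h3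
  have h6 := congrArg snd h3
  have h7 : snd (E (det W)) = D (det W) := by
    change snd (inl (det W) + inr (D (det W))) = _
    simp
  rw [h7] at h6
  rw [h6]
  change snd (inl (det W) * (1 + inl (trace (V * W.map D)) * inr 1)) = _
  simp

variable {M : Type u} [CommRing M] {B : Type v} [AddCommGroup B] (t : DT M B)

/-- The logarithmic derivative of the determinant. -/
theorem dlog_det {ι : Type w} [Fintype ι] [DecidableEq ι] (u : (Matrix ι ι M)ˣ) :
    t.dlog (Units.map (detMonoidHom : Matrix ι ι M →* M) u) = (t.mat ι).dlog u := by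
  have h1 := D_det t.D t.leib (u : Matrix ι ι M) ((u⁻¹ : (Matrix ι ι M)ˣ) : Matrix ι ι M)
    (Units.mul_inv u)
  rw [DT.dlog, DT.dlog, t.mat_τ, t.mat_D]
  have h2 : t.D ((Units.map (detMonoidHom : Matrix ι ι M →* M) u : Mˣ) : M) =
      ((Units.map (detMonoidHom : Matrix ι ι M →* M) u : Mˣ) : M) *
        trace (((u⁻¹ : (Matrix ι ι M)ˣ) : Matrix ι ι M) * (u : Matrix ι ι M).map t.D) := h1
  rw [h2, ← mul_assoc, Units.inv_mul, one_mul, trace, map_sum]
  rfl

namespace ResDat

variable {p : ℕ} [hp : Fact p.Prime] {k : Type u} [CommRing k] (d : ResDat p k)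

/-- the delta function -/
noncomputable def del {H : Type v} (d : ResDat p k) (c : H) : H → d.B :=
  fun a => if a = c then 1 else 0

variable {H : Type v} [CommGroup H]

theorem gD_resR (E : Subgroup H) [Fintype (H ⧸ E)] (x : MonoidAlgebra d.A H) :
    (resR d.A E x).map (d.gD E) = resR d.A E (d.gD H x) := by
  induction x using MonoidAlgebra.induction_linear with
  | zero => rw [map_zero, map_zero, map_zero]; exact Matrix.map_zero _ (map_zero _)
  | add x y hx hy => rw [map_add, map_add, map_add, ← hx, ← hy, Matrix.map_add _ (map_add _)]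
  | single h a =>
    refine Matrix.ext fun i j => ?_
    rw [gD_single, Matrix.map_apply]
    change d.gD E (resA d.A E (MonoidAlgebra.single h a) i j) =
      resA d.A E (MonoidAlgebra.single h (d.θ a)) i j
    rw [resA_single, resA_single]
    split_ifs
    · rw [gD_single]
    · rw [map_zero]

theorem gf_resR (E : Subgroup H) [Fintype (H ⧸ E)] (c : E) (x : MonoidAlgebra d.A H) :
    ∑ i, d.gf (d.del c) (resR d.A E x i i) =
      (Nat.card (H ⧸ E) : ℤ) • d.gf (d.del (c : H)) x := by
  induction x using MonoidAlgebra.induction_linear with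
  | zero => simp
  | add x y hx hy =>
    rw [map_add, map_add, smul_add, ← hx, ← hy, ← Finset.sum_add_distrib]
    exact Finset.sum_congr rfl fun i _ => by rw [Matrix.add_apply, map_add]
  | single h a =>
    rw [gf_single]
    have h1 : ∀ q : H ⧸ E, d.gf (d.del c) (resR d.A E (MonoidAlgebra.single h a) q q) =
        d.del (c : H) h * d.res a := by
      intro q
      change d.gf (d.del c) (resA d.A E (MonoidAlgebra.single h a) q q) = _
      rw [resA_single]
      have h2 : q.out⁻¹ * h * q.out = h := by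
        rw [mul_comm, ← mul_assoc, mul_inv_cancel, one_mul]
      by_cases hh : q.out⁻¹ * h * q.out ∈ E
      · rw [dif_pos hh, gf_single]
        congr 1
        unfold del
        congr 1
        rw [Subtype.ext_iff]
        change (q.out⁻¹ * h * q.out = (c : H)) = (h = (c : H))
        rw [h2]
      · rw [dif_neg hh, map_zero, del, if_neg, zero_mul]
        intro h3
        apply hh
        rw [h2, h3]
        exact c.2
    rw [Finset.sum_congr rfl (fun q _ => h1 q), Finset.sum_const, Finset.card_univ,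
      Nat.card_eq_fintype_card, natCast_zsmul]

theorem elp_res (E : Subgroup H) [Fintype (H ⧸ E)] (c : E) (x : (MonoidAlgebra k H)ˣ) :
    d.elp (d.del c) (fun a b => by rw [mul_comm]) (resU E x) =
      (Nat.card (H ⧸ E) : ℤ) • d.elp (d.del (c : H)) (fun a b => by rw [mul_comm]) x := by
  obtain ⟨x, rfl⟩ := d.exists_lift_unit x
  rw [← uMap_resU, elp_eq, elp_eq]
  change DT.dlog _ (Units.map (detMonoidHom : Matrix (H ⧸ E) (H ⧸ E) (MonoidAlgebra d.A E) →*
    MonoidAlgebra d.A E) (Units.map (resR d.A E).toMonoidHom x)) = _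
  rw [dlog_det]
  refine dlog_map (d.grp (d.del (c : H)) (fun a b => by rw [mul_comm]))
    ((d.grp (d.del c) (fun a b => by rw [mul_comm])).mat (H ⧸ E)) (resR d.A E)
    (zsmulAddGroupHom (Nat.card (H ⧸ E) : ℤ)) ?_ ?_ x
  · exact fun x => d.gD_resR E x
  · exact fun x => d.gf_resR E c x

end ResDat

end Pool.Agent.H71.KP

end

section

/-!
# Places and truncated Witt vectors
-/

set_option autoImplicit false
set_option linter.unusedSectionVars false
set_option linter.unusedSimpArgs false

open Matrix HahnSeries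
open scoped Classical

universe u v w t

namespace Pool.Agent.H71.KP

section WB

variable (p : ℕ) [hp : Fact p.Prime] (F : Type u) [Field F]

/-- Witt vectors modulo `p ^ (n + 1)` -/
abbrev WB (n : ℕ) : Type u := WittVector p F ⧸ Ideal.span {(p : WittVector p F) ^ (n + 1)}

variable [CharP F p]

/-- the projection -/
noncomputable def wπ (n : ℕ) : WB p F n →+* F :=
  Ideal.Quotient.lift _ (WittVector.constantCoeff : WittVector p F →+* F) (by
    intro a ha
    obtain ⟨c, rfl⟩ := Ideal.mem_span_singleton'.1 ha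
    rw [map_mul, map_pow, map_natCast, CharP.cast_eq_zero, zero_pow (Nat.succ_ne_zero n), mul_zero])

theorem wπ_mk (n : ℕ) (x : WittVector p F) :
    wπ p F n (Ideal.Quotient.mk _ x) = WittVector.constantCoeff x := Ideal.Quotient.lift_mk _ _ _

/-- the multiplicative section -/
noncomputable def wτ (n : ℕ) : F →* WB p F n :=
  ((Ideal.Quotient.mk (Ideal.span {(p : WittVector p F) ^ (n + 1)}) : WittVector p F →+* WB p F n) :
    WittVector p F →* WB p F n).comp (WittVector.teichmuller p)

theorem wπ_wτ (n : ℕ) (x : F) : wπ p F n (wτ p F n x) = x := by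
  change wπ p F n (Ideal.Quotient.mk _ (WittVector.teichmuller p x)) = x
  rw [wπ_mk]
  exact WittVector.teichmuller_coeff_zero p x

theorem wπ_surjective (n : ℕ) : Function.Surjective (wπ p F n) := fun x => ⟨_, wπ_wτ p F n x⟩

variable [PerfectRing F p]

theorem wπ_ker (n : ℕ) (b : WB p F n) (hb : wπ p F n b = 0) :
    ∃ c, b = (p : WB p F n) * c := by
  obtain ⟨w, rfl⟩ := Ideal.Quotient.mk_surjective b
  rw [wπ_mk] at hb
  have hw : w ∈ RingHom.ker (WittVector.constantCoeff : WittVector p F →+* F) := hb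
  rw [WittVector.ker_constantCoeff] at hw
  obtain ⟨c, rfl⟩ := Ideal.mem_span_singleton'.1 hw
  refine ⟨Ideal.Quotient.mk _ c, ?_⟩
  rw [map_mul, map_natCast, mul_comm]

omit [CharP F p] [PerfectRing F p] in
theorem w_nil (n : ℕ) : (p : WB p F n) ^ (n + 1) = 0 := by
  rw [← map_natCast (Ideal.Quotient.mk (Ideal.span {(p : WittVector p F) ^ (n + 1)})) p,
    ← map_pow]
  exact Ideal.Quotient.eq_zero_iff_mem.2 (Ideal.mem_span_singleton_self _)

theorem w_int (m : ℤ) (h : ∀ n, (m : WB p F n) = 0) : m = 0 := by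
  apply Pool.Agent.H71.FJ.witt_int p F m
  intro n
  have h1 := h n
  rw [← map_intCast (Ideal.Quotient.mk (Ideal.span {(p : WittVector p F) ^ (n + 1)})) m] at h1
  exact Ideal.mem_span_singleton.1 (Ideal.Quotient.eq_zero_iff_mem.1 h1)

/-- the residue data of Laurent series over a perfect field -/
noncomputable def wDat (n : ℕ) : ResDat p (LaurentSeries F) :=
  laurDat p (wπ p F n) (wπ_surjective p F n) (wπ_ker p F n) (n + 1) (w_nil p F n)

end WB

section Lin

variable {p : ℕ} [hp : Fact p.Prime] {k : Type u} [CommRing k] (d : ResDat p k)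
  {H : Type v} [Group H]

theorem ResDat.gf_del [Fintype H] (f : H → d.B) (x : MonoidAlgebra d.A H) :
    d.gf f x = ∑ c, f c * d.gf (d.del c) x := by
  induction x using MonoidAlgebra.induction_linear with
  | zero => simp
  | add x y hx hy =>
    rw [map_add, hx, hy, ← Finset.sum_add_distrib]
    exact Finset.sum_congr rfl fun c _ => by rw [map_add, mul_add]
  | single g a =>
    rw [d.gf_single, Finset.sum_eq_single g]
    · rw [d.gf_single, ResDat.del, if_pos rfl, one_mul]
    · intro c _ hc
      rw [d.gf_single, ResDat.del, if_neg (Ne.symm hc), zero_mul, mul_zero]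
    · intro h
      exact absurd (Finset.mem_univ _) h

theorem ResDat.elp_del [Fintype H] (hc : ∀ a b : H, a * b = b * a) (f : H → d.B)
    (x : (MonoidAlgebra k H)ˣ) :
    d.elp f (fun a b => by rw [hc]) x = ∑ c, f c * d.elp (d.del c) (fun a b => by rw [hc]) x := by
  obtain ⟨x, rfl⟩ := d.exists_lift_unit x
  rw [d.elp_eq]
  simp only [d.elp_eq]
  exact d.gf_del f _

/-- evaluation at a character -/
noncomputable def ResDat.evd (χ : H →* d.B) : MonoidAlgebra d.A H →+* d.A :=
  MonoidAlgebra.liftNCRingHom (RingHom.id d.A) ((d.ι : d.B →* d.A).comp χ)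
    (fun _ _ => Commute.all _ _)

theorem ResDat.evd_single (χ : H →* d.B) (h : H) (a : d.A) :
    d.evd χ (MonoidAlgebra.single h a) = a * d.ι (χ h) :=
  MonoidAlgebra.liftNCRingHom_single _ _ _ _ _

theorem ResDat.θ_evd (χ : H →* d.B) (x : MonoidAlgebra d.A H) :
    d.θ (d.evd χ x) = d.evd χ (d.gD H x) := by
  induction x using MonoidAlgebra.induction_linear with
  | zero => simp
  | add x y hx hy => rw [map_add, map_add, hx, hy, map_add, map_add]
  | single h a => rw [d.evd_single, d.leib, d.θι, mul_zero, add_zero, d.gD_single, d.evd_single]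

theorem ResDat.res_evd (χ : H →* d.B) (x : MonoidAlgebra d.A H) :
    d.res (d.evd χ x) = d.gf χ x := by
  induction x using MonoidAlgebra.induction_linear with
  | zero => simp
  | add x y hx hy => rw [map_add, map_add, hx, hy, map_add]
  | single h a => rw [d.evd_single, mul_comm, d.res_ι, d.gf_single]

theorem ResDat.base_evd [Finite H] (hc : ∀ a b : H, a * b = b * a) (χ : H →* d.B)
    (x : (MonoidAlgebra d.A H)ˣ)
    (h : ∀ c, d.elp (d.del c) (fun a b => by rw [hc]) (uMap d.π H x) = 0) :
    d.base.dlog (Units.map (d.evd χ).toMonoidHom x) = 0 := by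
  have := Fintype.ofFinite H
  have h1 := dlog_map (d.grp χ (fun a b => by rw [hc])) d.base (d.evd χ) (AddMonoidHom.id d.B)
    (fun x => d.θ_evd χ x) (fun x => d.res_evd χ x) x
  rw [h1]
  change (d.grp χ (fun a b => by rw [hc])).dlog x = 0
  rw [← d.elp_eq, d.elp_del hc]
  apply Finset.sum_eq_zero
  intro c _
  rw [h c, mul_zero]

end Lin

end Pool.Agent.H71.KP

end

section

/-!
# The system of valuations of a domain of characteristic `p`
-/

set_option autoImplicit false
set_option linter.unusedSectionVars false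
set_option linter.unusedSimpArgs false

open Matrix HahnSeries
open scoped Classical

universe u v w t

namespace Pool.Agent.H71.KP

open Pool.Agent.H71.WH (Sat mem_Sat CycSub conjHom)

/-- A place of `R`. -/
structure Pl (p : ℕ) (R : Type u) [CommRing R] where
  /-- the residue field -/
  F : Type u
  instF : Field F
  alg : IsAlgClosed F
  char : CharP F p
  /-- the map to the field of Laurent series -/
  φ : R →+* LaurentSeries F

attribute [instance] Pl.instF Pl.alg Pl.char

variable {p : ℕ} [hp : Fact p.Prime] {R : Type u} [CommRing R]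

instance (P : Pl p R) : PerfectRing P.F p := PerfectField.toPerfectRing p

/-- the residue data of a place -/
noncomputable def Pl.dat (P : Pl p R) (n : ℕ) : ResDat p (LaurentSeries P.F) := wDat p P.F n

/-- the group of values -/
abbrev PV (p : ℕ) [Fact p.Prime] (R : Type u) [CommRing R] : Type (u + 1) :=
  ∀ (P : Pl p R) (n : ℕ), (P.dat n).B

theorem mapL_evd {F : Type u} [Field F] [CharP F p] [PerfectRing F p] (φ : R →+* LaurentSeries F)
    (n : ℕ) {H : Type v} [Group H] (χ : H →* F) (y : MonoidAlgebra (wDat p F n).A H)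
    (x : MonoidAlgebra R H)
    (h : MonoidAlgebra.mapRingHom H (wDat p F n).π y = MonoidAlgebra.mapRingHom H φ x) :
    (wDat p F n).π ((wDat p F n).evd ((wτ p F n).comp χ) y) = evF φ χ x := by
  have h1 : ∀ y : MonoidAlgebra (wDat p F n).A H,
      (wDat p F n).π ((wDat p F n).evd ((wτ p F n).comp χ) y) =
      evF (RingHom.id (LaurentSeries F)) χ (MonoidAlgebra.mapRingHom H (wDat p F n).π y) := by
    intro y
    induction y using MonoidAlgebra.induction_linear with
    | zero => simp
    | add x y hx hy => rw [map_add, map_add, hx, hy, map_add, map_add]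
    | single h a =>
      rw [(wDat p F n).evd_single, MonoidAlgebra.mapRingHom_single, evF,
        MonoidAlgebra.liftNCRingHom_single, map_mul]
      congr 1
      change mapL (wπ p F n) (HahnSeries.C (wτ p F n (χ h))) = HahnSeries.C (χ h)
      ext i
      rw [mapL_coeff, HahnSeries.C_apply, HahnSeries.C_apply, HahnSeries.coeff_single,
        HahnSeries.coeff_single]
      split_ifs
      · rw [wπ_wτ]
      · rw [map_zero]
  have h2 : ∀ x : MonoidAlgebra R H, evF (RingHom.id (LaurentSeries F)) χ
      (MonoidAlgebra.mapRingHom H φ x) = evF φ χ x := by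
    intro x
    induction x using MonoidAlgebra.induction_linear with
    | zero => simp
    | add x y hx hy => rw [map_add, map_add, hx, hy, map_add]
    | single h a =>
      rw [MonoidAlgebra.mapRingHom_single, evF, MonoidAlgebra.liftNCRingHom_single, evF,
        MonoidAlgebra.liftNCRingHom_single]
      rfl
  rw [h1, h, h2]

/-- Vanishing of the functionals of a place means vanishing of the valuations. -/
theorem order_eq_zero {F : Type u} [Field F] [CharP F p] [PerfectRing F p]
    (φ : R →+* LaurentSeries F) {H : Type v} [Group H] [Finite H]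
    (hc : ∀ a b : H, a * b = b * a) (x : (MonoidAlgebra R H)ˣ)
    (h : ∀ n c, (wDat p F n).elp ((wDat p F n).del c) (fun a b => by rw [hc]) (uMap φ H x) = 0)
    (χ : H →* F) : (evF φ χ (x : MonoidAlgebra R H)).order = 0 := by
  apply w_int p F
  intro n
  obtain ⟨y, hy⟩ := (wDat p F n).exists_lift_unit (uMap φ H x)
  have h1 := (wDat p F n).base_evd hc ((wτ p F n).comp χ) y (by
    intro c
    rw [hy]
    exact h n c)
  have h2 := base_dlog p (wπ p F n) (wπ_surjective p F n) (wπ_ker p F n) (n + 1) (w_nil p F n)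
    (Units.map ((wDat p F n).evd ((wτ p F n).comp χ)).toMonoidHom y)
  have h3 : (wDat p F n).π ((wDat p F n).evd ((wτ p F n).comp χ) (y : MonoidAlgebra _ H)) =
      evF φ χ (x : MonoidAlgebra R H) :=
    mapL_evd φ n χ _ _ (congrArg Units.val hy)
  have h4 : (((evF φ χ (x : MonoidAlgebra R H)).order : ℤ) : WB p F n) = 0 := by
    rw [← h3]
    exact h2.symm.trans h1
  exact h4

theorem elp_zero {k : Type u} [CommRing k] (d : ResDat p k) {H : Type v} [Group H]
    (f : H → d.B) (hf : ∀ x y, f (x * y) = f (y * x)) (h0 : ∀ a, f a = 0)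
    (x : (MonoidAlgebra k H)ˣ) : d.elp f hf x = 0 := by
  obtain ⟨x, rfl⟩ := d.exists_lift_unit x
  rw [d.elp_eq]
  have h1 : ∀ y : MonoidAlgebra d.A H, d.gf f y = 0 := by
    intro y
    induction y using MonoidAlgebra.induction_linear with
    | zero => simp
    | add x y hx hy => rw [map_add, hx, hy, add_zero]
    | single h a => rw [d.gf_single, h0, zero_mul]
  exact h1 _

/-- The system of valuations. -/
noncomputable def logSysP (p : ℕ) [hp : Fact p.Prime] (R : Type u) [CommRing R] [IsDomain R]
    [CharP R p] [Algebra.FiniteType ℤ R] : LogSys.{u, v, u + 1} R (PV p R) where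
  good m := ¬ p ∣ m
  good_dvd h1 h2 h3 := h2 (h3.trans h1)
  ell H _ _ _ c x := fun P n =>
    (P.dat n).elp ((P.dat n).del c) (fun a b => by rw [cyc_comm]) (uMap P.φ H x)
  ell_mul H _ _ _ c x y _ := by
    funext P n
    rw [map_mul, ResDat.elp_mul]
    rfl
  ell_map H H' _ _ _ _ _ _ ψ hψ c x _ := by
    funext P n
    rw [uMap_unitsMap]
    apply ResDat.elp_map
    intro a
    unfold ResDat.del
    congr 1
    rw [eq_iff_iff]
    exact hψ.eq_iff
  ell_map_zero H H' _ _ _ _ _ _ ψ hψ c' hc x _ := by
    funext P n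
    rw [uMap_unitsMap]
    have h1 := ResDat.elp_map (P.dat n) ψ ((P.dat n).del c') (fun a b => by rw [cyc_comm])
      (fun _ => 0) (fun _ _ => rfl) (fun a => if_neg (hc a)) (uMap P.φ H x)
    rw [h1, elp_zero _ _ _ (fun _ => rfl)]
    rfl
  ell_res H _ _ _ E _ c x _ := by
    funext P n
    rw [uMap_resU]
    exact (P.dat n).elp_res E c (uMap P.φ H x)
  detect H _ _ _ x hg h := by
    refine torsion_of_places p hg x ?_
    intro F _ _ φ hφ χ
    have hp0 : (p : F) = 0 := by
      have h1 : (p : LaurentSeries F) = 0 := by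
        rw [← map_natCast φ, CharP.cast_eq_zero, map_zero]
      have h2 : (HahnSeries.C (p : F) : LaurentSeries F) = 0 := by
        rw [map_natCast, h1]
      exact (map_eq_zero (HahnSeries.C : F →+* LaurentSeries F)).1 h2
    have : CharP F p := (CharP.charP_iff_prime_eq_zero hp.out).2 hp0
    have : PerfectRing F p := PerfectField.toPerfectRing p
    let P : Pl p R := ⟨F, inferInstance, inferInstance, inferInstance, φ⟩
    refine order_eq_zero φ cyc_comm x ?_ χ
    intro n c
    exact congrFun (congrFun (h c) P) n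

end Pool.Agent.H71.KP

end

section

/-!
# The kernel of the assembly map is torsion for domains of characteristic `p`
-/

set_option autoImplicit false
set_option linter.unusedSectionVars false
set_option linter.unusedSimpArgs false

open Matrix HahnSeries Filter
open scoped Classical

universe u v w t

namespace Pool.Agent.H71.KP

open Pool.Agent.H71.WH (Sat mem_Sat Sat_of_smul CycSub conjHom)

variable {p : ℕ} [hp : Fact p.Prime] {R : Type u} [CommRing R]

theorem charP_ga [CharP R p] (H : Type v) [Group H] : CharP (MonoidAlgebra R H) p := by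
  have hinj : Function.Injective (MonoidAlgebra.singleOneRingHom : R →+* MonoidAlgebra R H) := by
    intro a b h
    have h1 := congrArg (fun z : MonoidAlgebra R H => z.coeff 1) h
    simpa using h1
  exact charP_of_injective_ringHom hinj p

theorem pow_mem_range [CharP R p] {H : Type v} [Group H] (hc : ∀ a b : H, a * b = b * a)
    (S : Subgroup H) (a : ℕ) (hS : ∀ h : H, h ^ p ^ a ∈ S) (x : MonoidAlgebra R H) :
    x ^ p ^ a ∈ (MonoidAlgebra.mapDomainRingHom R S.subtype).range := by
  have := charP_ga (p := p) (R := R) H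
  have hcomm : ∀ x y : MonoidAlgebra R H, Commute x y := by
    intro x y
    induction x using MonoidAlgebra.induction_linear with
    | zero => exact Commute.zero_left _
    | add x x' hx hx' => exact hx.add_left hx'
    | single g b =>
      induction y using MonoidAlgebra.induction_linear with
      | zero => exact Commute.zero_right _
      | add y y' hy hy' => exact hy.add_right hy'
      | single h c =>
        rw [Commute, SemiconjBy, MonoidAlgebra.single_mul_single, MonoidAlgebra.single_mul_single,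
          hc, mul_comm b c]
  induction x using MonoidAlgebra.induction_linear with
  | zero =>
    rw [zero_pow (pow_ne_zero _ hp.out.ne_zero)]
    exact Subring.zero_mem _
  | add x y hx hy =>
    rw [add_pow_char_pow_of_commute p a (hcomm x y)]
    exact Subring.add_mem _ hx hy
  | single h r =>
    rw [MonoidAlgebra.single_pow]
    refine ⟨MonoidAlgebra.single ⟨h ^ p ^ a, hS h⟩ (r ^ p ^ a), ?_⟩
    change MonoidAlgebra.mapDomain S.subtype _ = _
    rw [MonoidAlgebra.mapDomain_single]
    rfl

theorem mapDomainRingHom_injective {H : Type v} {H' : Type w} [Group H] [Group H'] (ψ : H →* H')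
    (hψ : Function.Injective ψ) : Function.Injective (MonoidAlgebra.mapDomainRingHom R ψ) :=
  MonoidAlgebra.mapDomain_injective hψ

theorem unit_pow_mem [CharP R p] {H : Type v} [Group H] (hc : ∀ a b : H, a * b = b * a)
    (S : Subgroup H) (a : ℕ) (hS : ∀ h : H, h ^ p ^ a ∈ S) (x : (MonoidAlgebra R H)ˣ) :
    ∃ y : (MonoidAlgebra R S)ˣ, unitsMap S.subtype y = x ^ p ^ a := by
  refine exists_unit_lift _ (mapDomainRingHom_injective S.subtype S.subtype_injective) _ ?_ ?_
  · rw [Units.val_pow_eq_pow_val]
    exact pow_mem_range hc S a hS _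
  · rw [← inv_pow, Units.val_pow_eq_pow_val]
    exact pow_mem_range hc S a hS _

/-- the subgroup of order prime to `p` -/
theorem exists_coprime_part (H : Type v) [Group H] [Finite H] [IsCyclic H] :
    ∃ (S : Subgroup H) (a : ℕ), (∀ h : H, h ^ p ^ a ∈ S) ∧ ¬ p ∣ Nat.card S := by
  obtain ⟨g, hg⟩ := IsCyclic.exists_generator (α := H)
  obtain ⟨a, m, hm, hcard⟩ := Nat.exists_eq_pow_mul_and_not_dvd (Nat.card_pos (α := H)).ne' p
    hp.out.ne_one
  refine ⟨Subgroup.zpowers (g ^ p ^ a), a, ?_, ?_⟩
  · intro h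
    obtain ⟨k, rfl⟩ := Subgroup.mem_zpowers_iff.1 (hg h)
    refine Subgroup.mem_zpowers_iff.2 ⟨k, ?_⟩
    rw [← _root_.zpow_natCast, ← _root_.zpow_natCast, ← _root_.zpow_mul, ← _root_.zpow_mul,
      mul_comm]
  · rw [Nat.card_zpowers, orderOf_pow, orderOf_eq_card_of_forall_mem_zpowers hg, hcard,
      Nat.gcd_eq_right (Dvd.intro _ rfl), Nat.mul_div_cancel_left _ (pow_pos hp.out.pos _)]
    exact hm

variable [IsDomain R] [CharP R p] [Algebra.FiniteType ℤ R] {G : Type v} [Group G]

theorem mem_sat_good (z : ColimU R G) :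
    z ∈ Sat (AddSubgroup.closure ((logSysP.{u, v} p R).GoodSet G)) := by
  induction z using colim_induction with
  | h0 => exact AddSubgroup.zero_mem _
  | h2 a b ha hb => exact AddSubgroup.add_mem _ ha hb
  | h1 C x =>
    have := C.2.1
    have := C.2.2
    obtain ⟨S, a, hS, hS'⟩ := exists_coprime_part (p := p) C.1
    obtain ⟨y, hy⟩ := unit_pow_mem cyc_comm S a hS x
    have h1 : ((p ^ a : ℕ) : ℤ) • cl C x = clh (C.1.subtype.comp S.subtype) y := by
      rw [natCast_zsmul, ← cl_pow, ← hy, ← clh_subtype]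
      exact clh_map (C.1.subtype.comp S.subtype) C.1.subtype S.subtype (fun _ => rfl) y
    refine Sat_of_smul (m := ((p ^ a : ℕ) : ℤ)) ?_ ?_
    · exact_mod_cast pow_ne_zero _ hp.out.ne_zero
    · rw [h1]
      apply mem_Sat
      apply AddSubgroup.subset_closure
      refine ⟨rangeSub (C.1.subtype.comp S.subtype),
        unitsMap (toRange (C.1.subtype.comp S.subtype)) y, ?_, rfl⟩
      have hinj : Function.Injective (C.1.subtype.comp S.subtype) :=
        C.1.subtype_injective.comp S.subtype_injective
      have h2 : Nat.card (rangeSub (C.1.subtype.comp S.subtype)).1 = Nat.card S :=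
        (Nat.card_congr (MonoidHom.ofInjective hinj).toEquiv).symm
      change ¬ p ∣ _
      rw [h2]
      exact hS'

/-- the indicator function of the conjugacy class of `c` -/
noncomputable def ResDat.cfd {k : Type u} [CommRing k] (d : ResDat p k) (c h : G) : d.B :=
  if IsConj c h then 1 else 0

omit [IsDomain R] [CharP R p] [Algebra.FiniteType ℤ R] in
theorem ResDat.cfd_comm {k : Type u} [CommRing k] (d : ResDat p k) (c x y : G) :
    d.cfd c (x * y) = d.cfd c (y * x) := by
  have h : IsConj (x * y) (y * x) := isConj_iff.2 ⟨x⁻¹, by group⟩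
  unfold ResDat.cfd
  by_cases h1 : IsConj c (x * y)
  · rw [if_pos h1, if_pos (h1.trans h)]
  · rw [if_neg h1, if_neg (fun h2 => h1 (h2.trans h.symm))]

omit [IsDomain R] [CharP R p] [Algebra.FiniteType ℤ R] in
/-- the functional on the Whitehead group -/
theorem exists_V (c : G) : ∃ V : Wh R G →+ PV p R, ∀ (D : CycSub G) (_ : Finite D.1)
    (_ : IsCyclic D.1) (y : (MonoidAlgebra R D.1)ˣ) (P : Pl p R) (n : ℕ),
    V (incWh D y) P n = letI := Fintype.ofFinite D.1
      ∑ d ∈ Finset.univ.filter (fun d : D.1 => IsConj c (d : G)),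
      (P.dat n).elp ((P.dat n).del d) (fun a b => by rw [cyc_comm]) (uMap P.φ D.1 y) := by
  refine ⟨AddMonoidHom.mk' (fun z => fun P n =>
    (P.dat n).lamWh ((P.dat n).cfd c) ((P.dat n).cfd_comm c) (whMap P.φ G z)) ?_, ?_⟩
  · intro a b
    funext P n
    rw [map_add, map_add]
    rfl
  · intro D _ _ y P n
    letI := Fintype.ofFinite D.1
    change (P.dat n).lamWh ((P.dat n).cfd c) ((P.dat n).cfd_comm c) (whMap P.φ G (incWh D y)) = _
    rw [whMap_incWh]
    change (P.dat n).lamWh _ _ (Wh.unit (unitsMap D.1.subtype (uMap P.φ D.1 y))) = _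
    rw [ResDat.lamWh_unit, ResDat.elp_map (P.dat n) D.1.subtype _ _
      (fun a : D.1 => (P.dat n).cfd c (a : G)) (fun a b => by rw [cyc_comm]) (fun a => rfl),
      (P.dat n).elp_del cyc_comm, Finset.sum_filter]
    apply Finset.sum_congr rfl
    intro d _
    unfold ResDat.cfd
    split_ifs
    · rw [one_mul]
    · rw [zero_mul]

/-- The kernel of the assembly map is a torsion group, for finitely generated domains of
characteristic `p`. -/
theorem kernel_torsion_fg (p : ℕ) [hp : Fact p.Prime] (R : Type u) [CommRing R] [IsDomain R]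
    [CharP R p] [Algebra.FiniteType ℤ R] {G : Type v} [Group G] (z : ColimU R G) (M : ℤ)
    (hM : M ≠ 0) (h : M • assembly R G z = 0) : ∃ m : ℤ, m ≠ 0 ∧ m • z = 0 := by
  choose V hV using fun c : G => exists_V (p := p) (R := R) c
  refine (logSysP.{u, v} p R).torsion_of_V (fun c => (V c).comp (assembly R G)) ?_ z
    (mem_sat_good z) M hM ?_
  · intro c D i1 i2 y _
    funext P n
    change V c (assembly R G (cl D y)) P n = _
    rw [assembly_cl, hV c D i1 i2 y P n, LogSys.val, Finset.sum_apply, Finset.sum_apply]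
    rfl
  · intro c
    change V c (assembly R G (M • z)) = 0
    rw [map_zsmul, h, map_zero]

end Pool.Agent.H71.KP

end

section

/-!
# The permutation representations and `K₁` of group rings over commutative rings
-/

set_option autoImplicit false

open Matrix
open scoped Classical

universe u v w

namespace Pool.Agent.H95.WH

open Pool.Agent.H71.FJ (lamR twR incl)
open Pool.Agent.H71.FJ (tw lam tw_single lam_single out_mem_iff)

variable {F : Type v} [Group F] (R : Type u) [CommRing R]

theorem push_tw_sigmaR {I : Type} [Fintype I] (D : I → Subgroup F) [∀ i, Fintype (F ⧸ D i)]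
    [Fintype (Σ i, F ⧸ D i)] [DecidableEq (Σ i, F ⧸ D i)] (x : K1 (MonoidAlgebra R F)) :
    K1.push (twR R (Σ i, F ⧸ D i)) x = ∑ i, K1.push (twR R (F ⧸ D i)) x := by
  apply K1.push_blk
  intro r
  induction r using MonoidAlgebra.induction_linear with
  | zero =>
    simp only [map_zero]
    exact (Matrix.blockDiagonal'_zero).symm
  | add a b ha hb =>
    simp only [map_add]
    rw [ha, hb]
    exact (Matrix.blockDiagonal'_add _ _).symm
  | single h r =>
    ext ⟨i, x⟩ ⟨j, y⟩ : 1
    change tw R (Σ i, F ⧸ D i) (MonoidAlgebra.single h r) ⟨i, x⟩ ⟨j, y⟩ = _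
    rw [tw_single]
    by_cases hij : i = j
    · subst hij
      rw [Matrix.blockDiagonal'_apply_eq]
      change _ = tw R (F ⧸ D i) (MonoidAlgebra.single h r) x y
      rw [tw_single]
      by_cases hxy : x = h • y
      · rw [if_pos hxy, if_pos]
        rw [hxy]
        rfl
      · rw [if_neg hxy, if_neg]
        intro e
        apply hxy
        have e2 : (⟨i, x⟩ : Σ i, F ⧸ D i) = ⟨i, h • y⟩ := e
        exact eq_of_heq (Sigma.mk.inj e2).2
    · rw [Matrix.blockDiagonal'_apply_ne _ _ _ hij, if_neg]
      intro e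
      exact hij (congrArg Sigma.fst e)

theorem push_tw_topR [Fintype (F ⧸ (⊤ : Subgroup F))] (x : K1 (MonoidAlgebra R F)) :
    K1.push (twR R (F ⧸ (⊤ : Subgroup F))) x = x := by
  have key : (K1.push (twR R (F ⧸ (⊤ : Subgroup F))) :
      K1 (MonoidAlgebra R F) →+ K1 (MonoidAlgebra R F)) = AddMonoidHom.id _ := by
    apply K1.hom_ext
    intro n U
    rw [K1.push_mk, AddMonoidHom.id_apply, ← K1.cls_mk]
    have hsub : Subsingleton (F ⧸ (⊤ : Subgroup F)) := QuotientGroup.subsingleton_quotient_top
    let u0 : F ⧸ (⊤ : Subgroup F) := ((1 : F) : F ⧸ (⊤ : Subgroup F))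
    let e : Fin n × (F ⧸ (⊤ : Subgroup F)) ≃ Fin n :=
      { toFun := Prod.fst
        invFun := fun i => (i, u0)
        left_inv := fun x => Prod.ext rfl (Subsingleton.elim _ _)
        right_inv := fun i => rfl }
    have hval : ∀ (r : MonoidAlgebra R F) (x y : F ⧸ (⊤ : Subgroup F)),
        twR R (F ⧸ (⊤ : Subgroup F)) r x y = r := by
      intro r x y
      induction r using MonoidAlgebra.induction_linear with
      | zero => rw [map_zero]; rfl
      | add a b ha hb => rw [map_add, Matrix.add_apply, ha, hb]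
      | single h r =>
        change tw R (F ⧸ (⊤ : Subgroup F)) (MonoidAlgebra.single h r) x y = _
        rw [tw_single, if_pos (Subsingleton.elim _ _)]
    rw [← K1.cls_reindex e]
    congr 1
    apply Units.ext
    rw [reU_val]
    refine Matrix.ext fun i j => ?_
    exact hval _ _ _
  rw [key]
  rfl

theorem ind_res1R (D : Subgroup F) [Fintype (F ⧸ D)] (x : K1 (MonoidAlgebra R F)) :
    K1.map (incl R D) (K1.push (lamR R D) x) = K1.push (twR R (F ⧸ D)) x := by
  rw [K1.map_push]
  symm
  refine K1.push_congr _ _ (diagonal fun x : F ⧸ D => MonoidAlgebra.single x.out (1 : R))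
    (diagonal fun x : F ⧸ D => MonoidAlgebra.single x.out⁻¹ (1 : R)) ?_ ?_ ?_ x
  · rw [diagonal_mul_diagonal]
    simp only [MonoidAlgebra.single_mul_single, mul_inv_cancel, one_mul, ← MonoidAlgebra.one_def]
    exact diagonal_one
  · rw [diagonal_mul_diagonal]
    simp only [MonoidAlgebra.single_mul_single, inv_mul_cancel, one_mul, ← MonoidAlgebra.one_def]
    exact diagonal_one
  · intro r
    induction r using MonoidAlgebra.induction_linear with
    | zero => simp
    | add a b ha hb => rw [map_add, map_add, Matrix.mul_add, Matrix.add_mul, ha, hb]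
    | single h r =>
      ext x y : 1
      rw [Matrix.diagonal_mul, Matrix.mul_diagonal]
      change tw R (F ⧸ D) (MonoidAlgebra.single h r) x y * _ =
        _ * (incl R D) (lam R D (MonoidAlgebra.single h r) x y)
      rw [lam_single, tw_single]
      by_cases hh : x.out⁻¹ * h * y.out ∈ D
      · rw [dif_pos hh, if_pos ((out_mem_iff D h x y).1 hh)]
        simp only [incl, MonoidAlgebra.mapDomainRingHom_apply, MonoidAlgebra.mapDomain_single,
          MonoidAlgebra.single_mul_single, Subgroup.coe_subtype, one_mul, mul_one]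
        congr 1
        group
      · rw [dif_neg hh, if_neg (fun h' => hh ((out_mem_iff D h x y).2 h')), map_zero, mul_zero,
          zero_mul]

end Pool.Agent.H95.WH

end
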