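import Pool.Agent.H94.FJ.H71.KP.Fun
import Pool.Agent.H94.FJ.H71.KP.ResP
import Pool.Agent.H94.FJ.M20

/-! The parts of this file: H71.KP.Col, H71.KP.Sys0, H71.KP.Main0, H71.KP.Main, H71.DO.Bridge. -/

section

/-!
# The functionals on the colimit vanish on the kernel of the assembly map
-/

set_option autoImplicit false
set_option linter.unusedSectionVars false
set_option linter.unusedSimpArgs false

open Matrix Filter
open scoped Classical

universe u v w

namespace Pool.Agent.H71.KP

open Pool.Agent.H71.WH (K1 K1.mk K1.unit CycSub conjHom)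

variable {p : ℕ} [hp : Fact p.Prime] {G : Type v} [Group G]

/-- class functions supported at the elements of finite order -/
def CF (p : ℕ) [Fact p.Prime] (G : Type v) [Group G] : Type v :=
  {f : G → ℤ_[p] // (∀ x y, f (x * y) = f (y * x)) ∧ ∀ g, f g ≠ 0 → IsOfFinOrder g}

theorem exists_LUc (f : CF p G) : ∃ F : ColimU ℤ_[p] G →+ ℚ_[p], ∀ (C : CycSub G) (_ : Finite C.1)
    (x : (MonoidAlgebra ℤ_[p] C.1)ˣ), F (cl C x) = LU (fun a : C.1 => f.1 a) x := by
  obtain ⟨F, hF⟩ := exists_lift (R := ℤ_[p]) (G := G)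
    (fun C x => letI : Finite C.1 := C.2.1; LU (fun a : C.1 => f.1 a) x) (by
      intro C x y
      have := C.2.1
      have := C.2.2
      exact LU_mul cyc_comm _ x y) (by
      intro C C' g h x
      have := C.2.1
      have := C'.2.1
      have h1 := LU_map (conjHom g C.1 C'.1 h) (fun x : C'.1 => f.1 x) (fun x y => f.2.1 x y) x
      refine h1.trans ?_
      congr 1
      funext a
      change f.1 (g * a * g⁻¹) = f.1 a
      rw [f.2.1]
      exact congrArg f.1 (by group))
  exact ⟨F, fun C _ x => hF C x⟩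

/-- the functional on the colimit -/
noncomputable def LUc (f : CF p G) : ColimU ℤ_[p] G →+ ℚ_[p] := (exists_LUc f).choose

theorem LUc_cl (f : CF p G) (C : CycSub G) [h : Finite C.1] (x : (MonoidAlgebra ℤ_[p] C.1)ˣ) :
    LUc f (cl C x) = LU (fun a : C.1 => f.1 a) x := (exists_LUc f).choose_spec C h x

theorem class_pow (f : CF p G) (x y : G) : f.1 ((x * y) ^ p) = f.1 ((y * x) ^ p) := by
  have h1 : (x * y) ^ p = x * (y * x) ^ p * x⁻¹ := by
    have h2 : x * y = x * (y * x) * x⁻¹ := by group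
    rw [h2, conj_pow]
  rw [h1, f.2.1]
  exact congrArg f.1 (by group)

/-- composition with the `p`-th power -/
def CF.fr (f : CF p G) : CF p G := ⟨fun x => f.1 (x ^ p), class_pow f, fun g hg =>
  (isOfFinOrder_pow.1 (f.2.2 _ hg)).resolve_right hp.out.ne_zero⟩

theorem CF.fr_iter (f : CF p G) (k : ℕ) (x : G) : (CF.fr^[k] f).1 x = f.1 (x ^ p ^ k) := by
  induction k generalizing f with
  | zero => simp
  | succ k ih =>
    rw [Function.iterate_succ_apply, ih]
    change f.1 ((x ^ p ^ k) ^ p) = _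
    rw [← pow_mul, pow_succ]

/-- the constant germ -/
noncomputable def cst (p : ℕ) [Fact p.Prime] : ℚ_[p] →+ Germ (atTop : Filter ℕ) ℚ_[p] where
  toFun a := (a : Germ (atTop : Filter ℕ) ℚ_[p])
  map_zero' := rfl
  map_add' _ _ := rfl

theorem cst_injective : Function.Injective (cst p) := fun a b h => by
  have h' : (a : Germ (atTop : Filter ℕ) ℚ_[p]) = b := h
  exact Germ.const_inj.1 h'

theorem GamWh_assembly (f : CF p G) (z : ColimU ℤ_[p] G) :
    GamWh f.1 f.2.1 f.2.2 (assembly ℤ_[p] G z) =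
      cst p (LUc f z - (p : ℚ_[p])⁻¹ * LUc f.fr z) := by
  induction z using colim_induction with
  | h0 => simp
  | h1 C x =>
    have := C.2.1
    rw [assembly_cl, LUc_cl, LUc_cl]
    exact GamWh_incWh f.1 f.2.1 f.2.2 C x _ (fun _ => rfl)
  | h2 a b ha hb =>
    rw [map_add, map_add, ha, hb, ← map_add, map_add (LUc f), map_add (LUc f.fr)]
    congr 1
    ring

theorem LUc_half (f : CF p G) {z : ColimU ℤ_[p] G} {M : ℤ} (hM : M ≠ 0)
    (h : M • assembly ℤ_[p] G z = 0) : LUc f z = (p : ℚ_[p])⁻¹ * LUc f.fr z := by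
  have h1 := congrArg (GamWh f.1 f.2.1 f.2.2) h
  rw [map_zsmul, map_zero, GamWh_assembly, ← map_zsmul, ← map_zero (cst p)] at h1
  have h2 := cst_injective h1
  rw [zsmul_eq_mul] at h2
  rcases mul_eq_zero.1 h2 with h2 | h2
  · exact absurd (by exact_mod_cast h2) hM
  · exact sub_eq_zero.1 h2

theorem LUc_iter (f : CF p G) {z : ColimU ℤ_[p] G} {M : ℤ} (hM : M ≠ 0)
    (h : M • assembly ℤ_[p] G z = 0) (n : ℕ) :
    LUc f z = (p : ℚ_[p])⁻¹ ^ n * LUc (CF.fr^[n] f) z := by
  induction n generalizing f with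
  | zero => simp
  | succ n ih =>
    rw [LUc_half f hM h, ih f.fr, Function.iterate_succ_apply, pow_succ]
    ring

/-- Eventual periodicity. -/
def Per (z : ColimU ℤ_[p] G) (k d : ℕ) : Prop :=
  ∀ f : CF p G, LUc (CF.fr^[k + d] f) z = LUc (CF.fr^[k] f) z

theorem Per.mul {z : ColimU ℤ_[p] G} {k d : ℕ} (h : Per z k d) (m : ℕ) : Per z k (m * d) := by
  induction m with
  | zero => intro f; rw [zero_mul, add_zero]
  | succ m ih =>
    intro f
    rw [← ih f]
    have h1 := h (CF.fr^[m * d] f)
    rw [← Function.iterate_add_apply, ← Function.iterate_add_apply] at h1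
    have e1 : k + (m + 1) * d = k + d + m * d := by ring
    rw [e1]
    exact h1

theorem Per.add {z : ColimU ℤ_[p] G} {k d : ℕ} (h : Per z k d) (j : ℕ) : Per z (k + j) d := by
  intro f
  have h1 := h (CF.fr^[j] f)
  rw [← Function.iterate_add_apply, ← Function.iterate_add_apply] at h1
  have e1 : k + j + d = k + d + j := by ring
  rw [e1]
  exact h1

theorem exists_per (z : ColimU ℤ_[p] G) : ∃ k d, 0 < d ∧ Per z k d := by
  induction z using colim_induction with
  | h0 => exact ⟨0, 1, one_pos, fun f => by rw [map_zero, map_zero]⟩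
  | h1 C x =>
    have := C.2.1
    obtain ⟨a, b, hab, h⟩ := Finite.exists_ne_map_eq_of_infinite
      (fun (k : ℕ) (c : C.1) => c ^ p ^ k)
    wlog hlt : a < b generalizing a b
    · exact this b a (Ne.symm hab) h.symm (lt_of_le_of_ne (not_lt.1 hlt) (Ne.symm hab))
    refine ⟨a, b - a, Nat.sub_pos_of_lt hlt, ?_⟩
    intro f
    rw [Nat.add_sub_cancel' hlt.le, LUc_cl, LUc_cl]
    congr 1
    funext c
    rw [CF.fr_iter, CF.fr_iter]
    have h1 : c ^ p ^ a = c ^ p ^ b := congrFun h c
    have h2 : (c : G) ^ p ^ a = (c : G) ^ p ^ b := by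
      rw [← Subgroup.coe_pow, h1, Subgroup.coe_pow]
    rw [h2]
  | h2 x y hx hy =>
    obtain ⟨k, d, hd, h⟩ := hx
    obtain ⟨k', d', hd', h'⟩ := hy
    refine ⟨k + k', d' * d, Nat.mul_pos hd' hd, ?_⟩
    intro f
    have e1 := (h.mul d').add k' f
    have e2 := (h'.mul d).add k f
    rw [mul_comm d d', add_comm k' k] at e2
    rw [map_add, map_add, e1, e2]

/-- The functionals vanish on the kernel of the assembly map. -/
theorem LUc_eq_zero (f : CF p G) {z : ColimU ℤ_[p] G} {M : ℤ} (hM : M ≠ 0)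
    (h : M • assembly ℤ_[p] G z = 0) : LUc f z = 0 := by
  obtain ⟨k, d, hd, hp'⟩ := exists_per z
  have h1 := LUc_iter f hM h k
  have h2 := LUc_iter f hM h (k + d)
  rw [hp' f] at h2
  rw [pow_add] at h2
  have h3 : LUc f z = (p : ℚ_[p])⁻¹ ^ d * LUc f z := by
    conv_rhs => rw [h1]
    rw [h2]
    ring
  have h4 : ((p : ℚ_[p])⁻¹) ^ d ≠ 1 := by
    intro h5
    have h6 : ((p : ℚ_[p])) ^ d = 1 := by
      rw [inv_pow] at h5
      exact inv_eq_one.1 h5
    have h7 : p ^ d = 1 := by exact_mod_cast h6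
    have h8 := Nat.one_lt_pow hd.ne' hp.out.one_lt
    omega
  have h5 : (1 - (p : ℚ_[p])⁻¹ ^ d) * LUc f z = 0 := by
    linear_combination h3
  rcases mul_eq_zero.1 h5 with h6 | h6
  · exact absurd (sub_eq_zero.1 h6).symm h4
  · exact h6

end Pool.Agent.H71.KP

end

section

/-!
# The system of logarithms of a subring of `ℤ_[p]`
-/

set_option autoImplicit false
set_option linter.unusedSectionVars false
set_option linter.unusedSimpArgs false

open Matrix Filter
open scoped Classical

universe u v w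

namespace Pool.Agent.H71.KP

open Pool.Agent.H71.WH (Sat mem_Sat CycSub conjHom)

variable {p : ℕ} [hp : Fact p.Prime]

theorem LU_zero_fun {H : Type w} [Group H] [Finite H] (x : (MonoidAlgebra ℤ_[p] H)ˣ)
    (f : H → ℤ_[p]) (hf : ∀ a, f a = 0) : LU f x = 0 := by
  have := Fintype.ofFinite H
  rw [LU_sum]
  apply Finset.sum_eq_zero
  intro c _
  rw [hf, PadicInt.coe_zero, zero_mul]

theorem uMap_injective {R : Type u} [CommRing R] {S : Type w} [CommRing S] {φ : R →+* S}
    (hφ : Function.Injective φ) (H : Type v) [Group H] : Function.Injective (uMap φ H) := by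
  intro x y h
  apply Units.ext
  ext a
  apply hφ
  have h1 := congrArg (fun z : (MonoidAlgebra S H)ˣ => (z : MonoidAlgebra S H).coeff a) h
  simpa only [uMap_val, MonoidAlgebra.coeff_mapRingHom] using h1

/-- The system of logarithms. -/
noncomputable def logSys0 {R : Type u} [CommRing R] (ρ : R →+* ℤ_[p])
    (hρ : Function.Injective ρ) : LogSys.{u, v, 0} R ℚ_[p] where
  good _ := True
  good_dvd _ _ := trivial
  ell H _ _ _ c x := LU (dlt p c) (uMap ρ H x)
  ell_mul H _ _ _ c x y _ := by
    rw [map_mul, LU_mul cyc_comm]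
  ell_map H H' _ _ _ _ _ _ φ hφ c x _ := by
    rw [uMap_unitsMap]
    refine (LU_map φ (dlt p (φ c)) (fun a b => by rw [cyc_comm]) (uMap ρ H x)).trans ?_
    congr 1
    funext a
    unfold dlt
    congr 1
    rw [eq_iff_iff]
    exact hφ.eq_iff
  ell_map_zero H H' _ _ _ _ _ _ φ hφ c' hc x _ := by
    rw [uMap_unitsMap]
    refine (LU_map φ (dlt p c') (fun a b => by rw [cyc_comm]) (uMap ρ H x)).trans ?_
    apply LU_zero_fun
    intro a
    exact if_neg (hc a)
  ell_res H _ _ _ E _ c x _ := by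
    rw [uMap_resU, LU_resU, zsmul_eq_mul, Int.cast_natCast]
  detect H _ _ _ x _ h := by
    refine ⟨NP p H, NP_ne_zero, ?_⟩
    apply uMap_injective hρ
    rw [map_pow, map_one]
    exact LU_detect h

/-- the indicator function of the conjugacy class of `c` -/
noncomputable def cf (p : ℕ) [Fact p.Prime] {G : Type v} [Group G] (c h : G) : ℤ_[p] :=
  if IsConj c h ∧ IsOfFinOrder h then 1 else 0

theorem cf_comm {G : Type v} [Group G] (c x y : G) : cf p c (x * y) = cf p c (y * x) := by
  have h : IsConj (x * y) (y * x) := isConj_iff.2 ⟨x⁻¹, by group⟩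
  have h2 : IsOfFinOrder (x * y) ↔ IsOfFinOrder (y * x) := by
    have e1 : y * x = x⁻¹ * (x * y) * x := by group
    rw [isOfFinOrder_iff_pow_eq_one, isOfFinOrder_iff_pow_eq_one]
    constructor
    · rintro ⟨n, hn, h⟩
      refine ⟨n, hn, ?_⟩
      have e2 : x⁻¹ * (x * y) * x = x⁻¹ * (x * y) * x⁻¹⁻¹ := by group
      rw [e1, e2, conj_pow, h]
      group
    · rintro ⟨n, hn, h⟩
      refine ⟨n, hn, ?_⟩
      have e2 : x * y = x * (y * x) * x⁻¹ := by group
      rw [e2, conj_pow, h]
      group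
  unfold cf
  by_cases h1 : IsConj c (x * y) ∧ IsOfFinOrder (x * y)
  · rw [if_pos h1, if_pos ⟨h1.1.trans h, h2.1 h1.2⟩]
  · rw [if_neg h1, if_neg (fun h3 => h1 ⟨h3.1.trans h.symm, h2.2 h3.2⟩)]

/-- the class function of `c` -/
noncomputable def cF (p : ℕ) [Fact p.Prime] {G : Type v} [Group G] (c : G) : CF p G :=
  ⟨cf p c, cf_comm c, fun g hg => by
    by_contra h
    exact hg (if_neg fun h' => h h'.2)⟩

variable {G : Type v} [Group G]

theorem LUc_cF (c : G) (D : CycSub G) [Fintype D.1] (y : (MonoidAlgebra ℤ_[p] D.1)ˣ) :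
    LUc (cF p c) (cl D y) =
      ∑ d ∈ Finset.univ.filter (fun d : D.1 => IsConj c (d : G)), LU (dlt p d) y := by
  rw [LUc_cl, LU_sum, Finset.sum_filter]
  apply Finset.sum_congr rfl
  intro d _
  change ((cf p c (d : G) : ℤ_[p]) : ℚ_[p]) * _ = _
  have hd : IsOfFinOrder (d : G) := D.1.subtype.isOfFinOrder (isOfFinOrder_of_finite d)
  unfold cf
  by_cases h : IsConj c (d : G)
  · rw [if_pos ⟨h, hd⟩, if_pos h, PadicInt.coe_one, one_mul]
  · rw [if_neg (fun h' => h h'.1), if_neg h, PadicInt.coe_zero, zero_mul]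

/-- The kernel of the assembly map is a torsion group, for subrings of `ℤ_[p]`. -/
theorem kernel_torsion_of_padic {R : Type u} [CommRing R] (ρ : R →+* ℤ_[p])
    (hρ : Function.Injective ρ) (z : ColimU R G) (M : ℤ) (hM : M ≠ 0)
    (h : M • assembly R G z = 0) : ∃ m : ℤ, m ≠ 0 ∧ m • z = 0 := by
  let S : LogSys.{u, v, 0} R ℚ_[p] := logSys0 ρ hρ
  refine S.torsion_of_V (fun c => (LUc (cF p c)).comp (colimMap ρ G)) ?_ z ?_ 1 one_ne_zero ?_
  · intro c D i1 i2 y _
    have := Fintype.ofFinite D.1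
    change LUc (cF p c) (colimMap ρ G (cl D y)) = _
    rw [colimMap_cl, LUc_cF, LogSys.val]
    exact Finset.sum_congr (by ext; simp) (fun _ _ => rfl)
  · apply mem_Sat
    have key : ∀ w : ColimU R G, w ∈ AddSubgroup.closure (S.GoodSet G) := by
      intro w
      induction w using colim_induction with
      | h0 => exact AddSubgroup.zero_mem _
      | h1 C x => exact AddSubgroup.subset_closure ⟨C, x, trivial, rfl⟩
      | h2 a b ha hb => exact AddSubgroup.add_mem _ ha hb
    exact key z
  · intro c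
    rw [one_smul]
    refine LUc_eq_zero (cF p c) hM ?_
    rw [← whMap_assembly, ← map_zsmul, h, map_zero]

end Pool.Agent.H71.KP

end

section

/-!
# The kernel of the assembly map is torsion for domains of characteristic zero
-/

set_option autoImplicit false

open Matrix Filter

universe u v w

namespace Pool.Agent.H71.KP

theorem finiteType_sub {R : Type u} [CommRing R] (s : Finset R) :
    Algebra.FiniteType ℤ (sub s) := by
  have h1 : Algebra.FiniteType ℤ (Algebra.adjoin ℤ (s : Set R)) :=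
    (Subalgebra.fg_iff_finiteType _).1 (Subalgebra.fg_adjoin_finset s)
  have h2 : ∀ x : R, x ∈ Algebra.adjoin ℤ (s : Set R) ↔ x ∈ sub s := by
    intro x
    rw [Algebra.adjoin_int]
    exact Iff.rfl
  let f : Algebra.adjoin ℤ (s : Set R) →+* sub s :=
    { toFun := fun x => ⟨x.1, (h2 x.1).1 x.2⟩
      map_one' := rfl
      map_mul' := fun _ _ => rfl
      map_zero' := rfl
      map_add' := fun _ _ => rfl }
  exact Algebra.FiniteType.of_surjective f.toIntAlgHom
    (fun x => ⟨⟨x.1, (h2 x.1).2 x.2⟩, rfl⟩)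

/-- **The kernel of the assembly map is a torsion group** for domains of characteristic zero. -/
theorem kernel_torsion {R : Type u} [CommRing R] [IsDomain R] [CharZero R] {G : Type v} [Group G]
    (z : ColimU R G) (M : ℤ) (hM : M ≠ 0) (h : M • assembly R G z = 0) :
    ∃ m : ℤ, m ≠ 0 ∧ m • z = 0 := by
  obtain ⟨s, z', hz, h'⟩ := (eventually_kernel z M h).exists
  have : CharZero (sub s) := ⟨fun a b hab => by
    have h1 := congrArg (incl s) hab
    rw [map_natCast, map_natCast] at h1
    exact Nat.cast_injective h1⟩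
  have := finiteType_sub s
  obtain ⟨p, hp, ρ, hρ⟩ := exists_padic_embedding (sub s)
  obtain ⟨m, hm, h1⟩ := kernel_torsion_of_padic ρ hρ z' M hM h'
  exact ⟨m, hm, by rw [← hz, ← map_zsmul, h1, map_zero]⟩

end Pool.Agent.H71.KP

end

section

/-!
# Rational injectivity of the assembly map for domains
-/

set_option autoImplicit false

open Matrix Filter

universe u v w

namespace Pool.Agent.H71.KP

/-- **The kernel of the assembly map is a torsion group** for all domains. -/
theorem kernel_torsion_domain {R : Type u} [CommRing R] [IsDomain R] {G : Type v} [Group G]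
    (z : ColimU R G) (M : ℤ) (hM : M ≠ 0) (h : M • assembly R G z = 0) :
    ∃ m : ℤ, m ≠ 0 ∧ m • z = 0 := by
  obtain ⟨p, hp⟩ := CharP.exists R
  rcases CharP.char_is_prime_or_zero R p with h1 | h1
  · have : Fact p.Prime := ⟨h1⟩
    obtain ⟨s, z', hz, h'⟩ := (eventually_kernel z M h).exists
    have : CharP (sub s) p := (RingHom.charP (incl s) (incl_injective s) p)
    have := finiteType_sub s
    obtain ⟨m, hm, h1⟩ := kernel_torsion_fg p (sub s) z' M hM h'
    exact ⟨m, hm, by rw [← hz, ← map_zsmul, h1, map_zero]⟩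
  · subst h1
    have : CharZero R := CharP.charP_to_charZero R
    exact kernel_torsion z M hM h

end Pool.Agent.H71.KP

end

section

/-!
# From units of finite cyclic subgroups to `K₁` of finite subgroups
-/

set_option autoImplicit false
set_option linter.unusedSectionVars false

open Matrix

universe u v w

namespace Pool.Agent.H71.DO

open Pool.Agent.H95.WH (K1 K1.mk K1.unit K1.map K1.map_unit K1.map_map K1_map_conj FamSub conjHom K1.lift K1.lift_mk FinSub K1.hom_ext K1.unit_mul)
open Pool.Agent.H71.WH (CycSub Sat Sat_of_smul mem_Sat)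

section K1

variable (A : Type u) [Ring A]

theorem stab_eq {n : ℕ} (U : (Matrix (Fin n) (Fin n) A)ˣ) :
    Pool.Agent.H95.WH.stab U = Pool.Agent.H71.WH.addOne U := Units.ext rfl

/-- the comparison of the two models of `K₁` -/
noncomputable def psi : K1 A →+ Pool.Agent.H71.WH.K1 A :=
  K1.lift (fun _ U => Pool.Agent.H71.WH.K1.mk U) (fun _ U V => Pool.Agent.H71.WH.K1.mk_mul U V)
    (fun n U => by rw [stab_eq, KP.K1.mk_addOne])

theorem psi_unit (u : Aˣ) : psi A (K1.unit u) = Pool.Agent.H71.WH.K1.unit u := by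
  rw [K1.unit, psi, K1.lift_mk]
  rfl

end K1

variable (R : Type u) [CommRing R] (G : Type v) [Group G]

theorem psi_le : WhRel R G ≤ (KP.trivialK1 R G).comap (psi (MonoidAlgebra R G)) := by
  rw [WhRel, AddSubgroup.closure_le]
  rintro z (hz | ⟨g, rfl⟩)
  · rw [Set.mem_singleton_iff] at hz
    rw [hz]
    refine AddSubgroup.subset_closure ⟨-1, ⟨1, -1, Or.inr rfl, ?_⟩, (psi_unit _ _).symm⟩
    rw [Units.val_neg, Units.val_one, MonoidAlgebra.one_def, ← MonoidAlgebra.single_neg]
  · exact AddSubgroup.subset_closure ⟨grpUnit R G g, ⟨g, 1, Or.inl rfl, rfl⟩,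
      (psi_unit _ _).symm⟩

/-- the comparison of the two models of `Wh` -/
noncomputable def psiW : Wh R G →+ KP.Wh R G :=
  QuotientAddGroup.map (WhRel R G) (KP.trivialK1 R G) (psi (MonoidAlgebra R G)) (psi_le R G)

theorem psiW_unit (u : (MonoidAlgebra R G)ˣ) :
    psiW R G (Wh.mk R G (K1.unit u)) = KP.Wh.unit u := by
  change (QuotientAddGroup.mk (psi (MonoidAlgebra R G) (K1.unit u)) : KP.Wh R G) = _
  rw [psi_unit]
  rfl

/-- a finite cyclic subgroup as a finite subgroup -/
def toFin (C : CycSub G) : FamSub G FinSub := ⟨C.1, C.2.1⟩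

/-- the class in the colimit of a unit -/
noncomputable def clF (F : FamSub G FinSub) (x : (MonoidAlgebra R F.1)ˣ) :
    ColimWh R G FinSub := cl R G FinSub F (Wh.mk R F.1 (K1.unit x))

theorem clF_mul (F : FamSub G FinSub) (x y : (MonoidAlgebra R F.1)ˣ) :
    clF R G F (x * y) = clF R G F x + clF R G F y := by
  rw [clF, clF, clF, K1.unit_mul, map_add, map_add]

theorem clF_conj (F F' : FamSub G FinSub) (g : G) (h : ∀ a ∈ F.1, g * a * g⁻¹ ∈ F'.1)
    (x : (MonoidAlgebra R F.1)ˣ) :
    clF R G F' (KP.unitsMap (Pool.Agent.H71.WH.conjHom g F.1 F'.1 h) x) = clF R G F x := by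
  rw [clF, clF, ← cl_conj R G FinSub F F' g h]
  congr 1
  rw [Wh.map_mk, ind, K1.map_unit]
  rfl

theorem assembly_clF (F : FamSub G FinSub) (x : (MonoidAlgebra R F.1)ˣ) :
    assembly R G FinSub (clF R G F x) =
      Wh.mk R G (K1.unit (KP.unitsMap F.1.subtype x)) := by
  rw [clF, assembly_cl, Wh.map_mk, ind, K1.map_unit]
  rfl

/-- the class in the colimit of a unit -/
noncomputable def clU (C : CycSub G) (x : (MonoidAlgebra R C.1)ˣ) : ColimWh R G FinSub :=
  clF R G (toFin G C) x

theorem exists_theta : ∃ Θ : KP.ColimU R G →+ ColimWh R G FinSub,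
    ∀ (C : CycSub G) (x : (MonoidAlgebra R C.1)ˣ), Θ (KP.cl C x) = clU R G C x := by
  refine KP.exists_lift (fun C x => clU R G C x) ?_ ?_
  · intro C x y
    exact clF_mul R G (toFin G C) x y
  · intro C C' g h x
    exact clF_conj R G (toFin G C) (toFin G C') g h x

/-- the comparison map -/
noncomputable def theta : KP.ColimU R G →+ ColimWh R G FinSub := (exists_theta R G).choose

theorem theta_cl (C : CycSub G) (x : (MonoidAlgebra R C.1)ˣ) :
    theta R G (KP.cl C x) = clU R G C x := (exists_theta R G).choose_spec C x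

theorem psiW_assembly (z : KP.ColimU R G) :
    psiW R G (assembly R G FinSub (theta R G z)) = KP.assembly R G z := by
  induction z using KP.colim_induction with
  | h0 => rw [map_zero, map_zero, map_zero, map_zero]
  | h1 C x =>
    rw [theta_cl, clU, assembly_clF, psiW_unit, KP.assembly_cl]
    rfl
  | h2 a b ha hb => rw [map_add, map_add, map_add, ha, hb, map_add]

/-- Artin induction for `K₁`. -/
def HArt : Prop := ∀ (F : Type v) [Group F] [Finite F] (x : K1 (MonoidAlgebra R F)),
  ∃ (m r : ℕ) (D : Fin r → Subgroup F) (y : ∀ i, K1 (MonoidAlgebra R (D i))),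
    0 < m ∧ (∀ i, IsCyclic (D i)) ∧ m • x = ∑ i, ind R (D i).subtype (y i)

/-- `K₁` of group rings of finite cyclic groups is generated by units up to torsion. -/
def HUnit : Prop := ∀ (C : Type v) [Group C] [Finite C] [IsCyclic C] (y : K1 (MonoidAlgebra R C)),
  ∃ (m : ℕ) (x : (MonoidAlgebra R C)ˣ), 0 < m ∧ m • y = K1.unit x

theorem colimWh_induction {𝓕 : Subgroup G → Prop} {P : ColimWh R G 𝓕 → Prop} (h0 : P 0)
    (h1 : ∀ (F : FamSub G 𝓕) (x : Wh R F.1), P (cl R G 𝓕 F x))
    (h2 : ∀ a b, P a → P b → P (a + b)) (z : ColimWh R G 𝓕) : P z := by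
  classical
  obtain ⟨y, rfl⟩ : ∃ y, QuotientAddGroup.mk' (colimRel R G 𝓕) y = z :=
    QuotientAddGroup.mk_surjective z
  induction y using DirectSum.induction_on with
  | zero => rw [map_zero]; exact h0
  | of F x =>
    have h := h1 F x
    change P (QuotientAddGroup.mk' (colimRel R G 𝓕) (inc R G 𝓕 F x)) at h
    rw [inc] at h
    convert! h
  | add x y hx hy => rw [map_add]; exact h2 _ _ hx hy

variable {R} in
theorem sat_theta (hA : HArt.{u, v} R) (hU : HUnit.{u, v} R) (z : ColimWh R G FinSub) :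
    z ∈ Sat (theta R G).range := by
  induction z using colimWh_induction with
  | h0 => exact AddSubgroup.zero_mem _
  | h2 a b ha hb => exact AddSubgroup.add_mem _ ha hb
  | h1 F x =>
    obtain ⟨x, rfl⟩ := Wh.mk_surjective R x
    have hF : Finite F.1 := F.2
    obtain ⟨m, r, D, y, hm, hD, hx⟩ := hA F.1 x
    have hm' : ((m : ℕ) : ℤ) ≠ 0 := by exact_mod_cast hm.ne'
    refine Sat_of_smul hm' ?_
    rw [natCast_zsmul, ← map_nsmul, ← map_nsmul, hx, map_sum, map_sum]
    refine AddSubgroup.sum_mem _ fun i _ => ?_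
    have hDi := hD i
    obtain ⟨m', u, hm1, hu⟩ := hU (D i) (y i)
    have hm1' : ((m' : ℕ) : ℤ) ≠ 0 := by exact_mod_cast hm1.ne'
    refine Sat_of_smul hm1' ?_
    rw [natCast_zsmul, ← map_nsmul, ← map_nsmul, ← map_nsmul, hu]
    apply mem_Sat
    have hinj : Function.Injective (F.1.subtype.comp (D i).subtype) :=
      F.1.subtype_injective.comp (D i).subtype_injective
    have hcyc : IsCyclic ((D i).map F.1.subtype) :=
      isCyclic_of_surjective ((D i).equivMapOfInjective F.1.subtype F.1.subtype_injective)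
        ((D i).equivMapOfInjective F.1.subtype F.1.subtype_injective).surjective
    have hfin : Finite ((D i).map F.1.subtype) :=
      Finite.of_equiv _ ((D i).equivMapOfInjective F.1.subtype F.1.subtype_injective).toEquiv
    let C : CycSub G := ⟨(D i).map F.1.subtype, hfin, hcyc⟩
    let e : D i →* C.1 :=
      ((D i).equivMapOfInjective F.1.subtype F.1.subtype_injective).toMonoidHom
    refine ⟨KP.cl C (KP.unitsMap e u), ?_⟩
    have h1 : ∀ a ∈ (toFin G C).1, (1 : G) * a * 1⁻¹ ∈ F.1 := by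
      intro a ha
      obtain ⟨b, _, rfl⟩ := ha
      rw [one_mul, inv_one, mul_one]
      exact b.2
    rw [theta_cl]
    refine (clF_conj R G (toFin G C) F 1 h1 (KP.unitsMap e u)).symm.trans ?_
    have h2 : KP.unitsMap (Pool.Agent.H71.WH.conjHom 1 (toFin G C).1 F.1 h1) (KP.unitsMap e u) =
        KP.unitsMap (D i).subtype u := by
      refine (KP.unitsMap_comp e (Pool.Agent.H71.WH.conjHom 1 (toFin G C).1 F.1 h1) u).trans ?_
      congr 2
      apply MonoidHom.ext
      intro a
      apply Subtype.ext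
      change (1 : G) * ((a : F.1) : G) * 1⁻¹ = ((a : F.1) : G)
      rw [one_mul, inv_one, mul_one]
    rw [h2, clF, ind, K1.map_unit]
    rfl

/-- The kernel of the assembly map is torsion. -/
theorem kernel_torsion_fin {R : Type u} [CommRing R] [IsDomain R] (hA : HArt.{u, v} R)
    (hU : HUnit.{u, v} R) (G : Type v) [Group G] (z : ColimWh R G FinSub) (M : ℤ) (hM : M ≠ 0)
    (h : M • assembly R G FinSub z = 0) : ∃ m : ℤ, m ≠ 0 ∧ m • z = 0 := by
  obtain ⟨m, hm, z', hz⟩ := sat_theta G hA hU z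
  have h1 : M • KP.assembly R G z' = 0 := by
    rw [← psiW_assembly, hz, ← map_zsmul, map_zsmul (assembly R G FinSub), smul_comm, h, smul_zero,
      map_zero]
  obtain ⟨m', hm', h2⟩ := KP.kernel_torsion_domain z' M hM h1
  exact ⟨m' * m, mul_ne_zero hm' hm, by rw [mul_smul, ← hz, ← map_zsmul, h2, map_zero]⟩

end Pool.Agent.H71.DO

end
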