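import Pool.Agent.H94.FJ.H71.DO.Semi
import Pool.Agent.H94.FJ.H71.DO.Units
import Pool.Agent.H94.FJ.M23

/-! The parts of this file: H71.DO.Main, H71.DO.Red. -/

section

/-!
# Rational injectivity of the assembly map in degree one
-/

set_option autoImplicit false

open Matrix

universe u v w

namespace Pool.Agent.H71.DO

open Pool.Agent.H95.WH (FinSub)

/-- Rational injectivity from Artin induction and generation by units. -/
theorem assembly_injective_of {R : Type u} [CommRing R] [IsDomain R] (hA : HArt.{u, v} R)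
    (hU : HUnit.{u, v} R) (G : Type v) [Group G] :
    Function.Injective (LinearMap.lTensor ℚ (assembly R G FinSub).toIntLinearMap) := by
  rw [injective_iff_map_eq_zero]
  intro y hy
  obtain ⟨⟨z, m⟩, hz⟩ := IsLocalizedModule.surj (nonZeroDivisors ℤ)
    (TensorProduct.mk ℤ ℚ (ColimWh R G FinSub) 1) y
  have h1 : TensorProduct.mk ℤ ℚ (Wh R G) 1 (assembly R G FinSub z) = 0 := by
    have h2 : LinearMap.lTensor ℚ (assembly R G FinSub).toIntLinearMap
        (TensorProduct.mk ℤ ℚ (ColimWh R G FinSub) 1 z) = 0 := by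
      have h3 := congrArg (LinearMap.lTensor ℚ (assembly R G FinSub).toIntLinearMap) hz
      rw [Submonoid.smul_def, map_smul, hy, smul_zero] at h3
      exact h3.symm
    exact h2
  obtain ⟨M, hM⟩ := (IsLocalizedModule.eq_zero_iff (nonZeroDivisors ℤ)
    (TensorProduct.mk ℤ ℚ (Wh R G) 1)).1 h1
  obtain ⟨m', hm', h4⟩ := kernel_torsion_fin hA hU G z M (nonZeroDivisors.coe_ne_zero M) hM
  have h5 : TensorProduct.mk ℤ ℚ (ColimWh R G FinSub) 1 z = 0 :=
    (IsLocalizedModule.eq_zero_iff (nonZeroDivisors ℤ)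
      (TensorProduct.mk ℤ ℚ (ColimWh R G FinSub) 1)).2
      ⟨⟨m', mem_nonZeroDivisors_of_ne_zero hm'⟩, h4⟩
  have h6 : m • y = m • 0 := by rw [hz, h5, smul_zero]
  exact IsLocalizedModule.smul_injective (TensorProduct.mk ℤ ℚ (ColimWh R G FinSub) 1) m h6

end Pool.Agent.H71.DO

end

section

/-!
# `SK₁` is torsion for rings with finite quotients

Let `A` be a commutative ring with an element `q` such that `A/qA` is finite and `A/aA` is finite for
every `a` which is a unit modulo `q`. Then for every invertible matrix `U` over `A` there is an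
`m > 0` with `m • [U] = m • [det U]` in `K₁(A)`. This is the argument of `Pool.Agent.H95.WH.Red`, which
treats the rings that are finitely generated free as abelian groups.
-/

set_option autoImplicit false

open Matrix

universe u v w

namespace Pool.Agent.H71.DO

open Pool.Agent.H95.WH (K1 K1.mk K1.unit K1.map K1.cls K1.cls_mk K1.cls_mul K1.cls_one K1.cls_diagonal K1.unit_mul detU detU_val red_op red_row red_corner red_one sr_row men_torsion sl2 FinSub)

variable {A : Type u} [CommRing A]

/-- The condition on `A`. -/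
def FinQ (A : Type u) [CommRing A] : Prop :=
  ∃ q : A, Finite (A ⧸ Ideal.span {q}) ∧
    ∀ a a' z : A, a * a' = 1 + q * z → Finite (A ⧸ Ideal.span {a})

theorem fq_fin1 (hA : FinQ A) {n : ℕ}
    (U : (Matrix (Fin (n + 1)) (Fin (n + 1)) A)ˣ) :
    ∃ V : (Matrix (Fin (n + 1)) (Fin (n + 1)) A)ˣ, K1.cls V = K1.cls U ∧ detU V = detU U ∧
      Finite (A ⧸ Ideal.span {V.val 0 0}) := by
  obtain ⟨q, hq, hA⟩ := hA
  let π := Ideal.Quotient.mk (Ideal.span {q})
  obtain ⟨t, ht⟩ := sr_row (fun j => π (U.val 0 j)) (fun j => π (U.inv j 0)) (by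
    rw [← map_one π, ← red_row U 0, map_sum]
    exact Finset.sum_congr rfl fun j _ => (map_mul π _ _).symm)
  choose s hs using fun i => Ideal.Quotient.mk_surjective (t i)
  obtain ⟨V, hV1, hV2, hV3⟩ := red_op U (fun j => j ≠ 0)
    (fun i j => if j = 0 then (Fin.cases 0 s i : A) else 0) (by
      intro i j h
      by_cases hj : j = 0
      · have hi : i = 0 := by
          by_contra hi
          exact h ⟨hi, fun h' => h' hj⟩
        simp [hi]
      · simp [hj])
  refine ⟨V, hV1, hV2, ?_⟩
  have h1 : V.val 0 0 = U.val 0 0 + ∑ i, s i * U.val 0 i.succ := by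
    rw [hV3, Fin.sum_univ_succ]
    simp [mul_comm]
  have h2 : IsUnit (π (V.val 0 0)) := by
    rw [h1, map_add, map_sum]
    convert ht using 4 with i
    rw [map_mul, ← hs]
  obtain ⟨b, hb⟩ := h2.exists_right_inv
  obtain ⟨b, rfl⟩ := Ideal.Quotient.mk_surjective b
  rw [← map_mul, ← map_one π, Ideal.Quotient.eq, Ideal.mem_span_singleton] at hb
  obtain ⟨z, hz⟩ := hb
  exact hA (V.val 0 0) b z (by rw [← hz]; ring)

/-- The case of `SL₂`, `a` with finite quotient. -/
theorem fq_two (hA : FinQ A) (U : (Matrix (Fin 2) (Fin 2) A)ˣ) :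
    ∃ m : ℕ, 0 < m ∧ m • K1.mk U = m • K1.unit (detU U) := by
  obtain ⟨V, hV1, hV2, hV3⟩ := fq_fin1 hA U
  rw [← K1.cls_mk, ← hV1, ← hV2]
  clear hV1 hV2 U
  let δ := detU V
  have hδ : V.val 0 0 * V.val 1 1 - V.val 0 1 * V.val 1 0 = δ := by
    rw [← Matrix.det_fin_two]
    rfl
  have hδ' : (δ : A) * ((δ⁻¹ : Aˣ) : A) = 1 := Units.mul_inv δ
  have hS : V.val 0 0 * ((δ⁻¹ : Aˣ) * V.val 1 1) - V.val 0 1 * ((δ⁻¹ : Aˣ) * V.val 1 0) = 1 := by
    rw [← hδ', ← hδ]
    ring
  let D : (Matrix (Fin 2) (Fin 2) A)ˣ :=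
    { val := Matrix.diagonal fun i => ((![1, δ] i : Aˣ) : A)
      inv := Matrix.diagonal fun i => (((![1, δ] i)⁻¹ : Aˣ) : A)
      val_inv := by
        rw [Matrix.diagonal_mul_diagonal]
        simp
      inv_val := by
        rw [Matrix.diagonal_mul_diagonal]
        simp }
  have hD : K1.cls D = K1.unit δ := by
    rw [K1.cls_diagonal ![1, δ] D rfl, Fin.sum_univ_two]
    have h1 : K1.unit (1 : Aˣ) = 0 := by
      have h := K1.unit_mul (1 : Aˣ) 1
      rw [one_mul] at h
      exact left_eq_add.1 h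
    change K1.unit 1 + K1.unit δ = _
    rw [h1, zero_add]
  have hVD : V = D * sl2 _ _ _ _ hS := by
    apply Units.ext
    rw [Units.val_mul]
    change V.val = Matrix.diagonal _ * !![_, _; _, _]
    refine Matrix.ext fun i j => ?_
    rw [Matrix.diagonal_mul]
    fin_cases i <;> fin_cases j
    · simp
    · simp
    · simp
    · simp
  have hb : ∃ m : ℕ, 0 < m ∧ V.val 0 0 ∣ V.val 0 1 ^ m - 1 := by
    let π := Ideal.Quotient.mk (Ideal.span {V.val 0 0})
    have hu : π (V.val 0 1) * π (-((δ⁻¹ : Aˣ) * V.val 1 0)) = 1 := by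
      rw [← map_mul, ← map_one π, Ideal.Quotient.eq, Ideal.mem_span_singleton]
      exact ⟨-((δ⁻¹ : Aˣ) * V.val 1 1), by linear_combination hS⟩
    let u : (A ⧸ Ideal.span {V.val 0 0})ˣ := Units.mkOfMulEqOne _ _ hu
    refine ⟨Nat.card (A ⧸ Ideal.span {V.val 0 0})ˣ, Nat.card_pos, ?_⟩
    have h1 : u ^ Nat.card (A ⧸ Ideal.span {V.val 0 0})ˣ = 1 := pow_card_eq_one'
    have h2 := congrArg Units.val h1
    rw [Units.val_pow_eq_pow_val, Units.val_one] at h2
    change π (V.val 0 1) ^ _ = 1 at h2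
    rw [← map_pow, ← map_one π, Ideal.Quotient.eq, Ideal.mem_span_singleton] at h2
    exact h2
  obtain ⟨m, hm, hdvd⟩ := hb
  refine ⟨m, hm, ?_⟩
  have h3 := men_torsion _ _ _ _ hS m hdvd
  have h4 : K1.cls V = K1.unit δ + K1.mk (sl2 _ _ _ _ hS) := by
    rw [← hD, ← K1.cls_mk, ← K1.cls_mul, ← hVD]
  rw [h4, smul_add, h3, add_zero]

/-- Reduction of the size. -/
theorem fq_succ (hA : FinQ A) {n : ℕ}
    (U : (Matrix (Fin (n + 3)) (Fin (n + 3)) A)ˣ) :
    ∃ V : (Matrix (Fin (n + 2)) (Fin (n + 2)) A)ˣ, K1.mk U = K1.mk V ∧ detU U = detU V := by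
  obtain ⟨V, hV1, hV2, hV3⟩ := fq_fin1 hA U
  let π := Ideal.Quotient.mk (Ideal.span {V.val 0 0})
  have hπ : π (V.val 0 0) = 0 :=
    Ideal.Quotient.eq_zero_iff_mem.2 (Ideal.mem_span_singleton_self _)
  obtain ⟨t, ht⟩ := sr_row (fun j : Fin (n + 2) => π (V.val 0 j.succ))
    (fun j => π (V.inv j.succ 0)) (by
    have h := red_row V 0
    rw [Fin.sum_univ_succ] at h
    rw [← map_one π, ← h, map_add, map_mul, hπ, mul_zero, zero_add, map_sum]
    exact Finset.sum_congr rfl fun j _ => (map_mul π _ _).symm)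
  choose s hs using fun i => Ideal.Quotient.mk_surjective (t i)
  obtain ⟨W, hW1, hW2, hW3⟩ := red_op V (fun j => j ≠ 1)
    (fun i j => if j = 1 then (Fin.cases 0 (Fin.cases 0 s) i : A) else 0) (by
      intro i j h
      by_cases hj : j = 1
      · have hi : i = 1 := by
          by_contra hi
          exact h ⟨hi, fun h' => h' hj⟩
        rw [if_pos hj, hi]
        rfl
      · rw [if_neg hj])
  have h0 : W.val 0 0 = V.val 0 0 := by
    rw [hW3]
    simp
  have h1 : W.val 0 1 = V.val 0 1 + ∑ i, s i * V.val 0 i.succ.succ := by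
    have e1 : ∑ i, s i * V.val 0 i.succ.succ =
        V.val 0 0 * 0 + (V.val 0 (Fin.succ 0) * 0 + ∑ i, V.val 0 i.succ.succ * s i) := by
      rw [mul_zero, mul_zero, zero_add, zero_add]
      exact Finset.sum_congr rfl fun i _ => mul_comm _ _
    rw [hW3, Fin.sum_univ_succ, Fin.sum_univ_succ, e1]
    rfl
  have h2 : IsUnit (π (W.val 0 1)) := by
    have e : π (W.val 0 1) =
        π (V.val 0 (Fin.succ 0)) + ∑ i, t i * π (V.val 0 i.succ.succ) := by
      rw [h1, map_add, map_sum]
      refine congrArg₂ (· + ·) rfl (Finset.sum_congr rfl fun i _ => ?_)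
      rw [map_mul, ← hs]
    rw [e]
    exact ht
  obtain ⟨b, hb⟩ := h2.exists_right_inv
  obtain ⟨b, rfl⟩ := Ideal.Quotient.mk_surjective b
  rw [← map_mul, ← map_one π, Ideal.Quotient.eq, Ideal.mem_span_singleton] at hb
  obtain ⟨z, hz⟩ := hb
  rw [← h0] at hz
  obtain ⟨c, hc⟩ : ∃ c : Fin (n + 3), c = (0 : Fin (n + 1)).succ.succ := ⟨_, rfl⟩
  have hc0 : c ≠ 0 := by rw [hc]; exact Fin.succ_ne_zero _
  have hc1 : c ≠ 1 := by
    rw [hc]
    exact (Fin.succ_injective _).ne (Fin.succ_ne_zero _)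
  obtain ⟨Z, hZ1, hZ2, hZ3⟩ := red_op W (fun j => j ≠ c)
    (fun i j => if j = c then (if i = 0 then (1 - W.val 0 c) * (-z) else
      if i = 1 then (1 - W.val 0 c) * b else 0) else 0) (by
      intro i j h
      by_cases hj : j = c
      · have hi : i = c := by
          by_contra hi
          exact h ⟨hi, fun h' => h' hj⟩
        rw [if_pos hj, hi, if_neg hc0, if_neg hc1]
      · rw [if_neg hj])
  have h4 : Z.val 0 c = 1 := by
    rw [hZ3, Fin.sum_univ_succ, Fin.sum_univ_succ, Finset.sum_eq_zero]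
    · have e1 : ((0 : Fin (n + 2)).succ : Fin (n + 3)) = 1 := rfl
      rw [e1, if_pos rfl, if_pos rfl, if_pos rfl, if_neg, if_pos rfl]
      · linear_combination (1 - W.val 0 c) * hz
      · intro h
        have := congrArg Fin.val h
        simp at this
    · intro i _
      have e1 : (i.succ.succ : Fin (n + 3)) ≠ 0 := Fin.succ_ne_zero _
      have e2 : (i.succ.succ : Fin (n + 3)) ≠ 1 :=
        (Fin.succ_injective _).ne (Fin.succ_ne_zero _)
      rw [if_neg e1, if_neg e2]
      simp
  obtain ⟨Y, hY1, hY2⟩ := red_one Z c hc0 h4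
  refine ⟨Y, ?_, ?_⟩
  · rw [← hY1, ← K1.cls_mk, ← K1.cls_mk, hZ1, hW1, hV1]
  · rw [← hY2, hZ2, hW2, hV2]

theorem fq_det_torsion (hA : FinQ A) {n : ℕ}
    (U : (Matrix (Fin n) (Fin n) A)ˣ) :
    ∃ m : ℕ, 0 < m ∧ m • K1.mk U = m • K1.unit (detU U) := by
  have hu1 : K1.unit (1 : Aˣ) = 0 := by
    have h := K1.unit_mul (1 : Aˣ) 1
    rw [one_mul] at h
    exact left_eq_add.1 h
  match n, U with
  | 0, U =>
    refine ⟨1, one_pos, ?_⟩
    have h1 : U = 1 := Units.ext (Subsingleton.elim _ _)
    rw [h1, map_one, hu1, ← K1.cls_mk, K1.cls_one]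
  | 1, U =>
    refine ⟨1, one_pos, ?_⟩
    rw [K1.unit]
    congr 2
    apply Units.ext
    refine Matrix.ext fun i j => ?_
    change U.val i j = (Matrix.scalar (Fin 1)) U.val.det i j
    rw [Matrix.det_fin_one, Matrix.scalar_apply, Subsingleton.elim i 0, Subsingleton.elim j 0,
      Matrix.diagonal_apply_eq]
  | 2, U => exact fq_two hA U
  | (n + 3), U =>
    obtain ⟨V, hV1, hV2⟩ := fq_succ hA U
    rw [hV1, hV2]
    exact fq_det_torsion hA V

/-- A domain in which all proper quotients are finite. -/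
def FNDomain (R : Type u) [CommRing R] : Prop :=
  ∀ r : R, r ≠ 0 → Finite (R ⧸ Ideal.span {r})

theorem norm_mul {R : Type u} [CommRing R] {A : Type v} [CommRing A] [Algebra R A] {ι : Type w}
    [Fintype ι] [DecidableEq ι] (b : Module.Basis ι R A) (a : A) :
    ∃ y : A, algebraMap R A (Algebra.norm R a) = a * y := by
  let M := Algebra.leftMulMatrix b a
  let v : ι → R := b.repr 1
  let y : A := b.repr.symm (Finsupp.equivFunOnFinite.symm (M.adjugate *ᵥ v))
  refine ⟨y, ?_⟩
  have hy : (b.repr y : ι → R) = M.adjugate *ᵥ v := by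
    simp only [y, LinearEquiv.apply_symm_apply]
    rfl
  apply b.repr.injective
  apply DFunLike.coe_injective
  rw [← Algebra.leftMulMatrix_mulVec_repr b a y, hy, Matrix.mulVec_mulVec, Matrix.mul_adjugate,
    Matrix.smul_mulVec, Matrix.one_mulVec, ← Algebra.norm_eq_matrix_det b a,
    Algebra.algebraMap_eq_smul_one, map_smul]
  rfl

theorem finite_quot_map {R : Type u} [CommRing R] {A : Type v} [CommRing A] [Algebra R A]
    [Module.Finite R A] (r : R) (h : Finite (R ⧸ Ideal.span {r})) :
    Finite (A ⧸ Ideal.span {algebraMap R A r}) := by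
  have h1 : Ideal.span {algebraMap R A r} = (Ideal.span {r}).map (algebraMap R A) := by
    rw [Ideal.map_span, Set.image_singleton]
  rw [h1]
  have h2 : Module.Finite R (A ⧸ (Ideal.span {r}).map (algebraMap R A)) :=
    Module.Finite.of_surjective
      (Ideal.Quotient.mkₐ R ((Ideal.span {r}).map (algebraMap R A))).toLinearMap
      Ideal.Quotient.mk_surjective
  have h3 : Module.Finite (R ⧸ Ideal.span {r}) (A ⧸ (Ideal.span {r}).map (algebraMap R A)) :=
    Module.Finite.of_restrictScalars_finite R _ _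
  exact Module.finite_of_finite (R ⧸ Ideal.span {r})

theorem finite_quot_of_mul {A : Type v} [CommRing A] (a y : A)
    (h : Finite (A ⧸ Ideal.span {a * y})) : Finite (A ⧸ Ideal.span {a}) := by
  have h1 : Ideal.span {a * y} ≤ Ideal.span {a} := by
    rw [Ideal.span_singleton_le_span_singleton]
    exact Dvd.intro _ rfl
  exact Finite.of_surjective _ (Ideal.Quotient.factor_surjective h1)

theorem finQ_of {R : Type u} [CommRing R] [IsDomain R] (hR : FNDomain R) (hf : ¬ IsField R)
    {A : Type v} [CommRing A] [Algebra R A] {ι : Type w} [Fintype ι] [DecidableEq ι]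
    (b : Module.Basis ι R A) : FinQ A := by
  obtain ⟨q, hq0, hq1⟩ : ∃ q : R, q ≠ 0 ∧ ¬ IsUnit q := by
    by_contra hcon
    apply hf
    refine ⟨exists_pair_ne R, mul_comm, fun {a} ha => ?_⟩
    have h1 : IsUnit a := by
      by_contra h2
      exact hcon ⟨a, ha, h2⟩
    exact h1.exists_right_inv
  have hfin : Module.Finite R A := Module.Finite.of_basis b
  have hfree : Module.Free R A := Module.Free.of_basis b
  refine ⟨algebraMap R A q, finite_quot_map q (hR q hq0), ?_⟩
  intro a a' z h
  obtain ⟨y, hy⟩ := norm_mul b a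
  apply finite_quot_of_mul a y
  rw [← hy]
  apply finite_quot_map _ (hR _ _)
  intro h0
  apply hq1
  have h1 : Algebra.norm R (1 + algebraMap R A q * z) = 0 := by
    rw [← h, map_mul, h0, zero_mul]
  have h2 : ∃ t : R, Algebra.norm R (1 + algebraMap R A q * z) = 1 + q * t := by
    rw [Algebra.norm_eq_matrix_det b, map_add, map_one, map_mul]
    have h3 : Algebra.leftMulMatrix b (algebraMap R A q) = q • (1 : Matrix ι ι R) := by
      rw [Algebra.algebraMap_eq_smul_one, map_smul, map_one]
    rw [h3, Matrix.smul_mul, Matrix.one_mul]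
    have h4 : (Ideal.Quotient.mk (Ideal.span {q})) (1 + q • Algebra.leftMulMatrix b z).det = 1 := by
      rw [RingHom.map_det]
      have h5 : (Ideal.Quotient.mk (Ideal.span {q})).mapMatrix
          (1 + q • Algebra.leftMulMatrix b z) = 1 := by
        refine Matrix.ext fun i j => ?_
        change (Ideal.Quotient.mk (Ideal.span {q})) ((1 : Matrix ι ι R) i j +
          q * Algebra.leftMulMatrix b z i j) = _
        rw [map_add, map_mul, Ideal.Quotient.eq_zero_iff_mem.2 (Ideal.mem_span_singleton_self q),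
          zero_mul, add_zero, Matrix.one_apply, Matrix.one_apply]
        split_ifs
        · exact map_one _
        · exact map_zero _
      rw [h5, Matrix.det_one]
    rw [← map_one (Ideal.Quotient.mk (Ideal.span {q})), Ideal.Quotient.eq,
      Ideal.mem_span_singleton] at h4
    obtain ⟨t, ht⟩ := h4
    exact ⟨t, by linear_combination ht⟩
  obtain ⟨t, ht⟩ := h2
  rw [h1] at ht
  exact IsUnit.of_mul_eq_one (-t) (by linear_combination ht)

theorem hUnit_fn (R : Type u) [CommRing R] [IsDomain R] (hR : FNDomain R) : HUnit.{u, v} R := by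
  by_cases hf : IsField R
  · let _ : Field R := hf.toField
    exact hUnit_field R
  intro C _ _ _
  let _ : CommGroup C := IsCyclic.commGroup
  apply unit_of_mk
  intro n U
  classical
  have := Fintype.ofFinite C
  obtain ⟨m, hm, h⟩ := fq_det_torsion (finQ_of hR hf (MonoidAlgebra.basis C R)) U
  exact ⟨m, detU U ^ m, hm, by rw [K1_unit_pow]; exact h⟩

theorem hArt_fn (R : Type u) [CommRing R] [IsDomain R] (hR : FNDomain R) : HArt.{u, v} R := by
  obtain ⟨p, hp⟩ := CharP.exists R
  rcases CharP.char_is_prime_or_zero R p with h1 | h1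
  · have : Fact p.Prime := ⟨h1⟩
    exact hArt_charP R p
  · subst h1
    have : CharZero R := CharP.charP_to_charZero R
    exact hArt_of R (fun n hn => hR (n : R) (Nat.cast_ne_zero.2 hn))

/-- The case of domains all of whose proper quotients are finite. -/
theorem injective_fn (R : Type u) [CommRing R] [IsDomain R] (hR : FNDomain R)
    (G : Type v) [Group G] :
    Function.Injective (LinearMap.lTensor ℚ (assembly R G FinSub).toIntLinearMap) :=
  assembly_injective_of (hArt_fn R hR) (hUnit_fn R hR) G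

end Pool.Agent.H71.DO

end
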