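import Pool.Agent.H94.FJ.M06

/-! The parts of this file: H71.FJ.CycLift, H71.FJ.Artin2. -/

section

/-!
# Lifting representations of cyclic groups; detection of classes by traces
-/

set_option autoImplicit false

open Matrix
open scoped Classical

universe u v w

namespace Pool.Agent.H71.FJ

section Root

open Polynomial

theorem root_exists {S : Type*} [CommRing S] {N : ℕ} (hN0 : N ≠ 0) (hN : IsUnit (N : S)) (Y : S)
    (h : IsNilpotent (Y ^ N - 1)) : ∃ r : S, IsNilpotent (Y - r) ∧ r ^ N = 1 := by
  have h1 : IsNilpotent (aeval Y (X ^ N - 1 : S[X])) := by simpa using h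
  have hYN : IsUnit (Y ^ N) := by
    have := h.isUnit_one_add
    rwa [add_sub_cancel] at this
  have hY : IsUnit Y := (isUnit_pow_iff hN0).1 hYN
  have h2 : IsUnit (aeval Y (derivative (X ^ N - 1 : S[X]))) := by
    rw [derivative_sub, derivative_one, sub_zero, derivative_X_pow, map_mul]
    simp only [map_natCast, map_pow, aeval_X]
    exact hN.mul (hY.pow _)
  obtain ⟨r, ⟨hr1, hr2⟩, _⟩ := existsUnique_nilpotent_sub_and_aeval_eq_zero h1 h2
  refine ⟨r, hr1, ?_⟩
  simpa [sub_eq_zero] using hr2

theorem root_unique {S : Type*} [CommRing S] {N : ℕ} (hN0 : N ≠ 0) (hN : IsUnit (N : S)) (Y Z : S)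
    (hY : Y ^ N = 1) (hZ : Z ^ N = 1) (h : IsNilpotent (Y - Z)) : Y = Z := by
  have h1 : IsNilpotent (aeval Y (X ^ N - 1 : S[X])) := by simp [hY]
  have hYu : IsUnit Y := (isUnit_pow_iff hN0).1 (by rw [hY]; exact isUnit_one)
  have h2 : IsUnit (aeval Y (derivative (X ^ N - 1 : S[X]))) := by
    rw [derivative_sub, derivative_one, sub_zero, derivative_X_pow, map_mul]
    simp only [map_natCast, map_pow, aeval_X]
    exact hN.mul (hYu.pow _)
  exact (existsUnique_nilpotent_sub_and_aeval_eq_zero h1 h2).unique
    ⟨by simp, by simp [hY]⟩ ⟨h, by simp [hZ]⟩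

end Root

/-- lifting roots of unity in matrix rings -/
theorem matrix_root_lift {B : Type u} [CommRing B] {K : Type v} [Field K] {φ : B →+* K}
    (hs : Function.Surjective φ) (hn : NilKer φ) {J : Type*} [Fintype J] [DecidableEq J] {N : ℕ}
    (hN0 : N ≠ 0) (hN : (N : K) ≠ 0) (X : Matrix J J K) (hX : X ^ N = 1) :
    ∃ Y : Matrix J J B, Y ^ N = 1 ∧ Y.map φ = X := by
  choose g hg using hs
  let Y₀ : Matrix J J B := X.map g
  have hY₀ : Y₀.map φ = X := by ext i j; simp [Y₀, hg]
  have hNB : IsUnit (N : B) := by
    obtain ⟨c, hc⟩ := IsUnit.exists_right_inv (IsUnit.mk0 _ hN)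
    obtain ⟨d, hd⟩ : ∃ d, φ d = c := ⟨g c, hg c⟩
    have h1 : IsNilpotent ((N : B) * d - 1) := by
      apply hn.isNilpotent
      rw [map_sub, map_mul, map_natCast, hd, hc, map_one, sub_self]
    have h2 := h1.isUnit_one_add
    rw [add_sub_cancel] at h2
    exact isUnit_of_mul_isUnit_left h2
  -- the commutative subalgebra generated by `Y₀`
  let S := Algebra.adjoin B ({Y₀} : Set (Matrix J J B))
  let _ : CommRing S := Algebra.adjoinCommRingOfComm B (by
    intro a ha b hb
    rw [Set.mem_singleton_iff] at ha hb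
    rw [ha, hb])
  let y : S := ⟨Y₀, Algebra.self_mem_adjoin_singleton B Y₀⟩
  have hker : (φ.mapMatrix : Matrix J J B →+* Matrix J J K) (Y₀ ^ N - 1) = 0 := by
    rw [map_sub, map_pow, map_one, RingHom.mapMatrix_apply, hY₀, hX, sub_self]
  have hnil : IsNilpotent (y ^ N - 1) := by
    obtain ⟨m, hm⟩ := (hn.matrix J).isNilpotent hker
    exact ⟨m, Subtype.ext hm⟩
  have hNS : IsUnit (N : S) := by
    have := hNB.map (algebraMap B S)
    rwa [map_natCast] at this
  obtain ⟨r, hr1, hr2⟩ := root_exists hN0 hNS y hnil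
  refine ⟨(r : Matrix J J B), congrArg Subtype.val hr2, ?_⟩
  -- uniqueness
  have hcomm : Y₀ * (r : Matrix J J B) = (r : Matrix J J B) * Y₀ :=
    congrArg Subtype.val (mul_comm y r)
  let Z : Matrix J J K := (r : Matrix J J B).map φ
  have hXZ : X * Z = Z * X := by
    have := congrArg (fun M : Matrix J J B => M.map φ) hcomm
    simp only [Matrix.map_mul, hY₀] at this
    exact this
  have hZN : Z ^ N = 1 := by
    have h1 : (r : Matrix J J B) ^ N = 1 := congrArg Subtype.val hr2
    have h2 := congrArg (φ.mapMatrix : Matrix J J B →+* Matrix J J K) h1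
    rw [map_pow, map_one] at h2
    exact h2
  have hXZn : IsNilpotent (X - Z) := by
    obtain ⟨m, hm⟩ := hr1
    refine ⟨m, ?_⟩
    have h1 : (Y₀ - (r : Matrix J J B)) ^ m = 0 := congrArg Subtype.val hm
    have h2 := congrArg (φ.mapMatrix : Matrix J J B →+* Matrix J J K) h1
    rw [map_pow, map_sub, map_zero, RingHom.mapMatrix_apply, RingHom.mapMatrix_apply, hY₀] at h2
    exact h2
  let S' := Algebra.adjoin K ({X, Z} : Set (Matrix J J K))
  let _ : CommRing S' := Algebra.adjoinCommRingOfComm K (by
    intro a ha b hb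
    rw [Set.mem_insert_iff, Set.mem_singleton_iff] at ha hb
    rcases ha with rfl | rfl <;> rcases hb with rfl | rfl
    · rfl
    · exact hXZ
    · exact hXZ.symm
    · rfl)
  let x' : S' := ⟨X, Algebra.subset_adjoin (by simp)⟩
  let z' : S' := ⟨Z, Algebra.subset_adjoin (by simp)⟩
  have hNS' : IsUnit (N : S') := by
    have := (IsUnit.mk0 _ hN).map (algebraMap K S')
    rwa [map_natCast] at this
  have := root_unique hN0 hNS' x' z' (Subtype.ext hX) (Subtype.ext hZN) (by
    obtain ⟨m, hm⟩ := hXZn
    exact ⟨m, Subtype.ext hm⟩)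
  exact (congrArg Subtype.val this).symm

/-- lifting representations of cyclic groups of invertible order -/
theorem exists_rep_lift {B : Type u} [CommRing B] {K : Type v} [Field K] {φ : B →+* K}
    (hs : Function.Surjective φ) (hn : NilKer φ) {J : Type*} [Fintype J] [DecidableEq J]
    {D : Type w} [Group D] [Finite D] [IsCyclic D] (hD : ∀ h : D, (orderOf h : K) ≠ 0)
    (ρ : D →* Matrix J J K) :
    ∃ ρ' : D →* Matrix J J B, ∀ h, (ρ' h).map φ = ρ h := by
  obtain ⟨g, hg⟩ := IsCyclic.exists_generator (α := D)
  have hord : ρ g ^ orderOf g = 1 := by rw [← map_pow, pow_orderOf_eq_one, map_one]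
  obtain ⟨Y, hY1, hY2⟩ := matrix_root_lift hs hn (orderOf_pos g).ne' (hD g) (ρ g) hord
  let U : (Matrix J J B)ˣ := Units.ofPowEqOne Y (orderOf g) hY1 (orderOf_pos g).ne'
  have hU : orderOf U ∣ orderOf g := by
    apply orderOf_dvd_of_pow_eq_one
    apply Units.ext
    rw [Units.val_pow_eq_pow_val, Units.val_one]
    exact hY1
  let ρ₀ : D →* (Matrix J J B)ˣ := monoidHomOfForallMemZpowers hg hU
  have hρ₀ : ρ₀ g = U := monoidHomOfForallMemZpowers_apply_gen hg hU
  refine ⟨(Units.coeHom _).comp ρ₀, ?_⟩
  intro h
  obtain ⟨n, rfl⟩ : ∃ n : ℕ, g ^ n = h := by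
    have := hg h
    rw [mem_zpowers_iff_mem_range_orderOf] at this
    simp only [Finset.mem_image] at this
    obtain ⟨n, _, hn⟩ := this
    exact ⟨n, hn⟩
  have h1 : ((Units.coeHom _).comp ρ₀) (g ^ n) = Y ^ n := by
    rw [map_pow]
    congr 1
    rw [MonoidHom.comp_apply, hρ₀]
    rfl
  rw [h1]
  have h2 : (Y ^ n).map φ = (φ.mapMatrix : Matrix J J B →+* Matrix J J K) (Y ^ n) := rfl
  rw [h2, map_pow, RingHom.mapMatrix_apply, hY2, map_pow]

section LT

variable {k : Type u} [Field k] {K : Type v} [Field K] (L : LiftSys K) (n : ℕ) (i : k →+* K)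

theorem mapRingHom_surj {B : Type*} [CommRing B] {K : Type*} [Field K] {φ : B →+* K}
    (hs : Function.Surjective φ) (G : Type*) [Group G] :
    Function.Surjective (MonoidAlgebra.mapRingHom G φ) := by
  intro a
  induction a using MonoidAlgebra.induction_linear with
  | zero => exact ⟨0, map_zero _⟩
  | add a b ha hb =>
    obtain ⟨a', rfl⟩ := ha
    obtain ⟨b', rfl⟩ := hb
    exact ⟨a' + b', map_add _ _ _⟩
  | single g r =>
    obtain ⟨r', rfl⟩ := hs r
    exact ⟨MonoidAlgebra.single g r', MonoidAlgebra.mapRingHom_single _ _ _⟩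

/-- The lift `K₀(k[G]) → K₀(B_n[G])`. -/
noncomputable def liftK (G : Type w) [Group G] :
    K0 (MonoidAlgebra k G) →+ K0 (MonoidAlgebra (L.B n) G) :=
  (K0.nilLift (mapRingHom_surj (L.surj n) G) ((L.nil n).monoidAlgebra G)).comp
    (K0.map (MonoidAlgebra.mapRingHom G i))

theorem map_liftK (G : Type w) [Group G] (x : K0 (MonoidAlgebra k G)) :
    K0.map (MonoidAlgebra.mapRingHom G (L.π n)) (liftK L n i G x) =
      K0.map (MonoidAlgebra.mapRingHom G i) x := by
  rw [liftK, AddMonoidHom.comp_apply, K0.map_nilLift]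

theorem liftK_map {G : Type w} [Group G] {H : Type*} [Group H] (ι : H →* G)
    (x : K0 (MonoidAlgebra k H)) :
    liftK L n i G (K0.map (MonoidAlgebra.mapDomainRingHom k ι) x) =
      K0.map (MonoidAlgebra.mapDomainRingHom (L.B n) ι) (liftK L n i H x) := by
  apply K0.map_injective (mapRingHom_surj (L.surj n) G) ((L.nil n).monoidAlgebra G)
  rw [map_liftK, K0.map_map, K0.map_map, MonoidAlgebra.mapRingHom_comp_mapDomainRingHom,
    MonoidAlgebra.mapRingHom_comp_mapDomainRingHom, ← K0.map_map, ← K0.map_map, map_liftK]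

/-- The lifted trace functional of a class function. -/
noncomputable def LT {G : Type w} [Group G] (f : G → L.B n) (hf : ∀ x y, f (x * y) = f (y * x)) :
    K0 (MonoidAlgebra k G) →+ L.B n := (T f hf).comp (liftK L n i G)

theorem LT_map {G : Type w} [Group G] {H : Type*} [Group H] (ι : H →* G) (f : G → L.B n)
    (hf : ∀ x y, f (x * y) = f (y * x)) (x : K0 (MonoidAlgebra k H)) :
    LT L n i f hf (K0.map (MonoidAlgebra.mapDomainRingHom k ι) x) =
      LT L n i (fun h => f (ι h)) (fun x y => by simp only [map_mul]; exact hf _ _) x := by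
  simp only [LT, AddMonoidHom.comp_apply]
  rw [liftK_map, T_mapDomain]

theorem LT_congr {G : Type w} [Group G] {f g : G → L.B n} (hf : ∀ x y, f (x * y) = f (y * x))
    (hg : ∀ x y, g (x * y) = g (y * x)) (h : ∀ a, f a = g a) (x : K0 (MonoidAlgebra k G)) :
    LT L n i f hf x = LT L n i g hg x := by
  simp only [LT, AddMonoidHom.comp_apply]
  exact T_congr hf hg h _

/-- On an abelian finite group every functional is a combination of coefficient functionals. -/
theorem LT_eq_sum {D : Type w} [Group D] [Fintype D] (hD : ∀ a b : D, a * b = b * a)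
    (f : D → L.B n) (hf : ∀ x y, f (x * y) = f (y * x)) (x : K0 (MonoidAlgebra k D)) :
    LT L n i f hf x = ∑ c : D, f c * LT L n i (dlt (L.B n) c) (fun a b => by rw [hD a b]) x := by
  simp only [LT, AddMonoidHom.comp_apply]
  have hsum : ∀ a : D, f a = ∑ c : D, f c * dlt (L.B n) c a := by
    intro a
    rw [Finset.sum_eq_single a]
    · rw [dlt_self, mul_one]
    · intro c _ hc
      rw [dlt_ne _ (Ne.symm hc), mul_zero]
    · intro h
      exact absurd (Finset.mem_univ _) h
  rw [T_congr hf (g := fun a => ∑ c : D, f c * dlt (L.B n) c a)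
      (fun a b => by rw [hD a b]) hsum,
    T_sum Finset.univ f (fun c => dlt (L.B n) c) (fun c a b => by rw [hD a b])]

theorem LT_rep {D : Type w} [Group D] {J : Type*} [Fintype J] [DecidableEq J]
    (ρ : MonoidAlgebra k D →ₐ[k] Matrix J J k) (ρ' : D →* Matrix J J (L.B n))
    (h : ∀ g, (ρ' g).map (L.π n) = (ρ (MonoidAlgebra.single g 1)).map i)
    (x : K0 (MonoidAlgebra k D)) :
    (K0.rk (K0.push (ρ : MonoidAlgebra k D →+* Matrix J J k) x) : L.B n) =
      LT L n i (fun g => trace (ρ' g)) (fun a b => by
        simp only [map_mul]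
        exact trace_mul_comm _ _) x := by
  let R' : MonoidAlgebra (L.B n) D →ₐ[L.B n] Matrix J J (L.B n) := MonoidAlgebra.lift _ _ D ρ'
  have hR' : ∀ g r, R' (MonoidAlgebra.single g r) = r • ρ' g :=
    fun g r => MonoidAlgebra.lift_single _ _ _
  rw [← K0.rk_map i, K0.map_push]
  have e1 : i.mapMatrix.comp (ρ : MonoidAlgebra k D →+* Matrix J J k) =
      (MonoidAlgebra.lift K (Matrix J J K) D
        ((i.mapMatrix : Matrix J J k →+* Matrix J J K).toMonoidHom.comp
          ((ρ : MonoidAlgebra k D →* Matrix J J k).comp (MonoidAlgebra.of k D)))).toRingHom.comp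
        (MonoidAlgebra.mapRingHom D i) := by
    apply RingHom.ext
    intro a
    induction a using MonoidAlgebra.induction_linear with
    | zero => simp
    | add a b ha hb => rw [map_add, map_add, ha, hb]
    | single g r =>
      rw [RingHom.comp_apply, RingHom.comp_apply, MonoidAlgebra.mapRingHom_single]
      change i.mapMatrix (ρ (MonoidAlgebra.single g r)) = MonoidAlgebra.lift K (Matrix J J K) D _
        (MonoidAlgebra.single g (i r))
      rw [MonoidAlgebra.lift_single]
      have : MonoidAlgebra.single g r = r • MonoidAlgebra.single g (1 : k) := by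
        rw [MonoidAlgebra.smul_single, smul_eq_mul, mul_one]
      rw [this, map_smul]
      ext a b
      simp [MonoidAlgebra.of_apply]
  have e2 : (MonoidAlgebra.lift K (Matrix J J K) D
        ((i.mapMatrix : Matrix J J k →+* Matrix J J K).toMonoidHom.comp
          ((ρ : MonoidAlgebra k D →* Matrix J J k).comp (MonoidAlgebra.of k D)))).toRingHom.comp
        (MonoidAlgebra.mapRingHom D (L.π n)) = (L.π n).mapMatrix.comp R'.toRingHom := by
    apply RingHom.ext
    intro a
    induction a using MonoidAlgebra.induction_linear with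
    | zero => simp
    | add a b ha hb => rw [map_add, map_add, ha, hb]
    | single g r =>
      rw [RingHom.comp_apply, RingHom.comp_apply, MonoidAlgebra.mapRingHom_single]
      change MonoidAlgebra.lift K (Matrix J J K) D _ (MonoidAlgebra.single g (L.π n r)) =
        (L.π n).mapMatrix (R' (MonoidAlgebra.single g r))
      rw [MonoidAlgebra.lift_single, hR']
      ext a b
      have := congrFun (congrFun (h g) a) b
      simp only [Matrix.map_apply] at this
      simp [MonoidAlgebra.of_apply, this]
  rw [e1, ← K0.push_map, ← map_liftK L n i, K0.push_map, e2, ← K0.map_push,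
    ← K0.tr_eq_rk (L.surj n) (L.nil n)]
  rw [show K0.push R'.toRingHom (liftK L n i D x) = K0.push (R' : MonoidAlgebra (L.B n) D →+*
    Matrix J J (L.B n)) (liftK L n i D x) from rfl, tr_push_rep _ R' (trace_rep_comm _ R')]
  simp only [LT, AddMonoidHom.comp_apply]
  apply T_congr
  intro g
  rw [hR', one_smul]

/-- For a finite cyclic group of order invertible in `k`, classes in `K₀(k[D])` are detected by the
lifted coefficient functionals. -/
theorem detect_cyclic {D : Type w} [Group D] [Fintype D] [IsCyclic D]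
    (hD : ∀ h : D, (orderOf h : k) ≠ 0) (hcomm : ∀ a b : D, a * b = b * a) (M : ℤ) (hM : M ≠ 0)
    (x : K0 (MonoidAlgebra k D))
    (hx : ∀ (n : ℕ) (c : D), (M : L.B n) *
      LT L n i (dlt (L.B n) c) (fun a b => by rw [hcomm a b]) x = 0) : x = 0 := by
  have : Module.Finite k (MonoidAlgebra k D) := inferInstance
  apply K0.eq_zero_of_rk_push (k := k)
  intro J _ _ ρ
  have key : M * K0.rk (K0.push (ρ : MonoidAlgebra k D →+* Matrix J J k) x) = 0 := by
    apply L.int
    intro n
    have hDK : ∀ h : D, (orderOf h : K) ≠ 0 := by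
      intro h h0
      apply hD h
      rw [← map_natCast i, map_eq_zero_iff _ i.injective] at h0
      exact h0
    obtain ⟨ρ', hρ'⟩ := exists_rep_lift (L.surj n) (L.nil n) (D := D) hDK
      ((i.mapMatrix : Matrix J J k →+* Matrix J J K).toMonoidHom.comp
          ((ρ : MonoidAlgebra k D →* Matrix J J k).comp (MonoidAlgebra.of k D)))
    rw [Int.cast_mul, LT_rep L n i ρ ρ' hρ' x, LT_eq_sum L n i hcomm, Finset.mul_sum]
    apply Finset.sum_eq_zero
    intro c _
    rw [mul_left_comm, hx n c, mul_zero]
  exact (mul_eq_zero.1 key).resolve_left hM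

end LT

end Pool.Agent.H71.FJ

end

section

/-!
# Artin type induction theorem for `K₀(k[F])`, `F` finite (conclusion)
-/

set_option autoImplicit false

open Matrix
open scoped Classical

universe u v w

namespace Pool.Agent.H71.FJ

variable {F : Type v} [Group F] [Fintype F]

theorem rank_identity' {k : Type w} [Field k]
    (s : Finset (Subgroup F)) (ν : Subgroup F → ℤ)
    (h1 : ∀ D ∈ s, ∀ h ∈ D, (orderOf h : k) ≠ 0)
    (h2 : ∀ h : F, (orderOf h : k) ≠ 0 → ∑ D ∈ s.filter (fun D => h ∈ D), ν D = 1)
    (x : K0 (MonoidAlgebra k F)) :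
    (Nat.card F : ℤ) * K0.rk (K0.map (aug k F).toRingHom x) =
      ∑ D ∈ s, ν D * Nat.card D * K0.rk (K0.push (permR k (F ⧸ D)) x) := by
  let K := AlgebraicClosure k
  obtain ⟨L⟩ := exists_liftSys K
  have hcast : ∀ n : ℕ, (n : K) ≠ 0 ↔ (n : k) ≠ 0 := by
    intro n
    rw [← map_natCast (algebraMap k K) n, ne_eq, ne_eq,
      map_eq_zero_iff _ (algebraMap k K).injective]
  have key := rank_identity L s ν (fun D hD h hh => (hcast _).2 (h1 D hD h hh))
    (fun h hh => h2 h ((hcast _).1 hh)) (K0.map (MonoidAlgebra.mapRingHom F (algebraMap k K)) x)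
  have e1 : K0.rk (K0.map (aug K F).toRingHom
      (K0.map (MonoidAlgebra.mapRingHom F (algebraMap k K)) x)) =
      K0.rk (K0.map (aug k F).toRingHom x) := by
    rw [K0.map_map, ← K0.rk_map (algebraMap k K) (K0.map (aug k F).toRingHom x), K0.map_map]
    congr 2
    have : (aug K F).toRingHom.comp (MonoidAlgebra.mapRingHom F (algebraMap k K)) =
        (algebraMap k K).comp (aug k F).toRingHom := by
      apply RingHom.ext
      intro a
      induction a using MonoidAlgebra.induction_linear with
      | zero => simp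
      | add a b ha hb => rw [map_add, map_add, ha, hb]
      | single g r =>
        change aug K F (MonoidAlgebra.mapRingHom F (algebraMap k K) (MonoidAlgebra.single g r)) =
          algebraMap k K (aug k F (MonoidAlgebra.single g r))
        rw [MonoidAlgebra.mapRingHom_single, aug_single, aug_single]
    rw [this]
  have e2 : ∀ D : Subgroup F, K0.rk (K0.push (permR K (F ⧸ D))
      (K0.map (MonoidAlgebra.mapRingHom F (algebraMap k K)) x)) =
      K0.rk (K0.push (permR k (F ⧸ D)) x) := by
    intro D
    rw [K0.push_map, ← K0.rk_map (algebraMap k K) (K0.push (permR k (F ⧸ D)) x), K0.map_push]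
    congr 2
    have : (permR K (F ⧸ D)).comp (MonoidAlgebra.mapRingHom F (algebraMap k K)) =
        (algebraMap k K).mapMatrix.comp (permR k (F ⧸ D)) := by
      apply RingHom.ext
      intro a
      induction a using MonoidAlgebra.induction_linear with
      | zero => simp
      | add a b ha hb => rw [map_add, map_add, ha, hb]
      | single g r =>
        ext p q : 1
        change perm K (F ⧸ D) (MonoidAlgebra.mapRingHom F (algebraMap k K)
          (MonoidAlgebra.single g r)) p q =
          algebraMap k K (perm k (F ⧸ D) (MonoidAlgebra.single g r) p q)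
        rw [MonoidAlgebra.mapRingHom_single, perm_single, perm_single]
        split_ifs <;> simp
    rw [this]
  rw [e1] at key
  simp only [e2] at key
  exact key

namespace K0

theorem push_reindex {R : Type u} [Ring R] {S : Type w} [Ring S] {J J' : Type*} [Fintype J]
    [DecidableEq J] [Fintype J'] [DecidableEq J'] (φ : R →+* Matrix J J S)
    (φ' : R →+* Matrix J' J' S) (σ : J ≃ J') (h : ∀ r a b, φ r a b = φ' r (σ a) (σ b))
    (x : K0 R) : push φ x = push φ' x := by
  have : push φ = push φ' := by
    apply hom_ext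
    intro a
    rw [push_mk, push_mk]
    apply cls_congr
    have h1 : flat φ a.mat = (flat φ' a.mat).submatrix ((Equiv.refl _).prodCongr σ)
        ((Equiv.refl _).prodCongr σ) := by
      ext ⟨i, p⟩ ⟨j, q⟩
      exact h _ _ _
    rw [h1]
    exact matEquiv_submatrix _ (flat_idem _ a.idem) _
  rw [this]

end K0

/-- The twist of a representation. -/
noncomputable def twRep {k : Type w} [Field k] {J : Type*} [Fintype J] [DecidableEq J]
    (ρ : MonoidAlgebra k F →ₐ[k] Matrix J J k) :
    MonoidAlgebra k F →ₐ[k] Matrix J J (MonoidAlgebra k F) :=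
  MonoidAlgebra.lift k _ F
    { toFun := fun h => Matrix.of fun a b =>
        MonoidAlgebra.single h (ρ (MonoidAlgebra.single h 1) a b)
      map_one' := by
        ext a b : 1
        rw [of_apply, Matrix.one_apply, ← MonoidAlgebra.one_def, map_one, Matrix.one_apply]
        split_ifs
        · rw [MonoidAlgebra.one_def]
        · rw [MonoidAlgebra.single_zero]
      map_mul' := by
        intro h h'
        ext a b : 1
        have e1 : MonoidAlgebra.single (h * h') (1 : k) = MonoidAlgebra.single h 1 *
          MonoidAlgebra.single h' 1 := by rw [MonoidAlgebra.single_mul_single, one_mul]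
        rw [Matrix.mul_apply, of_apply, e1, map_mul, Matrix.mul_apply]
        simp only [of_apply, MonoidAlgebra.single_mul_single]
        induction (Finset.univ : Finset J) using Finset.induction_on with
        | empty => simp
        | insert i t hi ih =>
          rw [Finset.sum_insert hi, Finset.sum_insert hi, MonoidAlgebra.single_add, ih] }

omit [Fintype F] in
theorem twRep_single {k : Type w} [Field k] {J : Type*} [Fintype J] [DecidableEq J]
    (ρ : MonoidAlgebra k F →ₐ[k] Matrix J J k) (h : F) (r : k) (a b : J) :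
    twRep ρ (MonoidAlgebra.single h r) a b =
      MonoidAlgebra.single h (r * ρ (MonoidAlgebra.single h 1) a b) := by
  rw [twRep, MonoidAlgebra.lift_single]
  change r • MonoidAlgebra.single h (ρ (MonoidAlgebra.single h 1) a b) = _
  rw [MonoidAlgebra.smul_single, smul_eq_mul]

omit [Fintype F] in
theorem rep_single {k : Type w} [Field k] {J : Type*} [Fintype J] [DecidableEq J]
    (ρ : MonoidAlgebra k F →ₐ[k] Matrix J J k) (h : F) (r : k) (a b : J) :
    ρ (MonoidAlgebra.single h r) a b = r * ρ (MonoidAlgebra.single h 1) a b := by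
  have : MonoidAlgebra.single h r = r • MonoidAlgebra.single h (1 : k) := by
    rw [MonoidAlgebra.smul_single, smul_eq_mul, mul_one]
  rw [this, map_smul]
  rfl

theorem artin_aux {k : Type w} [Field k]
    (s : Finset (Subgroup F)) (ν : Subgroup F → ℤ)
    (h1 : ∀ D ∈ s, ∀ h ∈ D, (orderOf h : k) ≠ 0)
    (h2 : ∀ h : F, (orderOf h : k) ≠ 0 → ∑ D ∈ s.filter (fun D => h ∈ D), ν D = 1)
    (x : K0 (MonoidAlgebra k F)) :
    (Nat.card F : ℤ) • x =
      ∑ D ∈ s, (ν D * Nat.card D) • K0.map (incl k D) (K0.push (lamR k D) x) := by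
  rw [← sub_eq_zero]
  apply K0.eq_zero_of_rk_push (k := k)
  intro J _ _ ρ
  rw [map_sub, map_sub, map_zsmul, map_zsmul, map_sum, map_sum]
  simp only [map_zsmul, ind_res]
  have key := rank_identity' s ν h1 h2 (K0.push (twRep ρ).toRingHom x)
  have e1 : K0.map (aug k F).toRingHom (K0.push (twRep ρ).toRingHom x) =
      K0.push (ρ : MonoidAlgebra k F →+* Matrix J J k) x := by
    rw [K0.map_push]
    have : (aug k F).toRingHom.mapMatrix.comp (twRep ρ).toRingHom =
        (ρ : MonoidAlgebra k F →+* Matrix J J k) := by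
      apply RingHom.ext
      intro a
      induction a using MonoidAlgebra.induction_linear with
      | zero => simp
      | add a b ha hb => rw [map_add, map_add, ha, hb]
      | single g r =>
        ext p q : 1
        change aug k F (twRep ρ (MonoidAlgebra.single g r) p q) = ρ (MonoidAlgebra.single g r) p q
        rw [twRep_single, aug_single]
        exact (rep_single ρ g r p q).symm
    rw [this]
  have e2 : ∀ D : Subgroup F, K0.push (permR k (F ⧸ D)) (K0.push (twRep ρ).toRingHom x) =
      K0.push (ρ : MonoidAlgebra k F →+* Matrix J J k) (K0.push (twR k (F ⧸ D)) x) := by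
    intro D
    rw [K0.push_push, K0.push_push]
    refine K0.push_reindex _ _ (Equiv.prodComm _ _) ?_ x
    intro r
    induction r using MonoidAlgebra.induction_linear with
    | zero =>
      intro a b
      rw [map_zero, map_zero]
      rfl
    | add a b ha hb =>
      intro p q
      rw [map_add, map_add, Matrix.add_apply, Matrix.add_apply, ha, hb]
    | single g r =>
      rintro ⟨a, p⟩ ⟨b, q⟩
      change perm k (F ⧸ D) (twRep ρ (MonoidAlgebra.single g r) a b) p q =
        ρ (tw k (F ⧸ D) (MonoidAlgebra.single g r) p q) a b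
      rw [twRep_single, perm_single, tw_single]
      split_ifs
      · rw [← rep_single]
      · rw [map_zero]
        rfl
  rw [e1] at key
  simp only [e2] at key
  simp only [smul_eq_mul]
  rw [key, sub_self]

theorem orderOf_dvd_ne {k : Type w} [Field k] {G : Type v} [Group G] {g h : G}
    (hg : (orderOf g : k) ≠ 0) (hd : orderOf h ∣ orderOf g) : (orderOf h : k) ≠ 0 := by
  obtain ⟨m, hm⟩ := hd
  intro h0
  apply hg
  rw [hm, Nat.cast_mul, h0, zero_mul]

/-- **Artin induction** for projective modules over `k[F]`, `F` finite: up to the factor `|F|`, every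
class is a combination of classes induced from cyclic subgroups of order invertible in `k`. -/
theorem exists_artin (k : Type w) [Field k] (F : Type v) [Group F] [Fintype F] :
    ∃ (s : Finset (Subgroup F)) (c : Subgroup F → ℤ),
      (∀ D ∈ s, IsCyclic D ∧ ∀ h ∈ D, (orderOf h : k) ≠ 0) ∧
      ∀ x : K0 (MonoidAlgebra k F), (Nat.card F : ℤ) • x =
        ∑ D ∈ s, c D • K0.map (incl k D) (K0.push (lamR k D) x) := by
  let s : Finset (Subgroup F) := Finset.univ.filter
    (fun D => IsCyclic D ∧ ∀ h ∈ D, (orderOf h : k) ≠ 0)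
  obtain ⟨ν, hν⟩ := exists_nu s (fun _ => 1)
  refine ⟨s, fun D => ν D * Nat.card D, fun D hD => (Finset.mem_filter.1 hD).2, fun x => ?_⟩
  apply artin_aux s ν
  · intro D hD
    exact (Finset.mem_filter.1 hD).2.2
  · intro h hh
    have hmem : Subgroup.zpowers h ∈ s := by
      rw [Finset.mem_filter]
      refine ⟨Finset.mem_univ _, inferInstance, ?_⟩
      intro g hg
      exact orderOf_dvd_ne hh (orderOf_dvd_of_mem_zpowers hg)
    rw [← hν _ hmem]
    apply Finset.sum_congr _ (fun _ _ => rfl)
    ext D
    simp only [Finset.mem_filter, Subgroup.zpowers_le]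

end Pool.Agent.H71.FJ

end
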