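import Pool.Agent.H94.FJ.M25
import Pool.Agent.H94.FJ.M26

/-! The parts of this file: H71.DB.Coc, H71.DB.Lift, H71.DB.Form, H71.DB.CocC. -/

section

/-!
# Conjugation cocycles and the Dennis trace

A cocycle is a function `L : G → G → S` with `L (f' f) y = L f' (f y f⁻¹) + L f y` and `L y y = 0`.
It defines the bilinear form `φ(∑ a_g g, ∑ b_h h) = ∑ a_g b_h L h (g h)` on `S[G]`, which satisfies
`φ(a b, c) + φ(c a, b) = φ(a, b c)`, and the homomorphism `U ↦ φ(U⁻¹, U)` on `K₁(S[G])`.
-/

set_option autoImplicit false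

open Matrix

universe u v w

namespace Pool.Agent.H71.DB

open Pool.Agent.H71.FJ (clsFun clsFun_single clsFun_add clsFun_comm)
open Pool.Agent.H95.WH (K1 K1.mk K1.unit K1.map K1.lift K1.lift_mk K1.map_mk stab stabMat)

/-- Conjugation cocycles. -/
structure Coc (G : Type v) [Group G] (S : Type u) [CommRing S] where
  /-- the function -/
  L : G → G → S
  mul : ∀ f f' y, L (f' * f) y = L f' (f * y * f⁻¹) + L f y
  self : ∀ y, L y y = 0

section

variable {G : Type v} [Group G] {S : Type u} [CommRing S]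

theorem Coc.one (l : Coc G S) (y : G) : l.L 1 y = 0 := by
  have h := l.mul 1 1 y
  rw [one_mul, one_mul, inv_one, mul_one] at h
  exact left_eq_add.1 h

/-- bilinear forms on a group ring -/
noncomputable def pairF (f : G → G → S) (a b : MonoidAlgebra S G) : S :=
  clsFun (fun h => clsFun (fun g => f g h) a) b

theorem pairF_single (f : G → G → S) (g h : G) (r s : S) :
    pairF f (MonoidAlgebra.single g r) (MonoidAlgebra.single h s) = s * (r * f g h) := by
  rw [pairF, clsFun_single, clsFun_single]

theorem pairF_add_right (f : G → G → S) (a b b' : MonoidAlgebra S G) :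
    pairF f a (b + b') = pairF f a b + pairF f a b' := by
  rw [pairF, map_add]
  rfl

theorem pairF_add_left (f : G → G → S) (a a' b : MonoidAlgebra S G) :
    pairF f (a + a') b = pairF f a b + pairF f a' b := by
  rw [pairF, pairF, pairF, ← clsFun_add]
  simp only [map_add]

theorem pairF_zero_right (f : G → G → S) (a : MonoidAlgebra S G) : pairF f a 0 = 0 := by
  rw [pairF, map_zero]

theorem pairF_zero_left (f : G → G → S) (b : MonoidAlgebra S G) : pairF f 0 b = 0 := by
  have h := pairF_add_left f 0 0 b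
  rw [add_zero] at h
  exact left_eq_add.1 h

/-- The bilinear form as a biadditive map. -/
noncomputable def pairH (f : G → G → S) : MonoidAlgebra S G →+ MonoidAlgebra S G →+ S where
  toFun a :=
    { toFun := fun b => pairF f a b
      map_zero' := pairF_zero_right f a
      map_add' := pairF_add_right f a }
  map_zero' := by
    ext1
    apply AddMonoidHom.ext
    intro b
    exact pairF_zero_left f _
  map_add' a a' := by
    apply AddMonoidHom.ext
    intro b
    exact pairF_add_left f a a' b

/-- The bilinear form of a cocycle. -/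
noncomputable def Coc.phi (l : Coc G S) : MonoidAlgebra S G →+ MonoidAlgebra S G →+ S :=
  pairH fun g h => l.L h (g * h)

theorem Coc.phi_single (l : Coc G S) (g h : G) (r s : S) :
    l.phi (MonoidAlgebra.single g r) (MonoidAlgebra.single h s) = s * (r * l.L h (g * h)) :=
  pairF_single _ g h r s

theorem Coc.phi_cocycle (l : Coc G S) (a b c : MonoidAlgebra S G) :
    l.phi (a * b) c + l.phi (c * a) b = l.phi a (b * c) := by
  induction a using MonoidAlgebra.induction_linear with
  | zero => simp
  | add a a' ha ha' =>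
    rw [add_mul, mul_add, map_add, map_add, map_add, AddMonoidHom.add_apply,
      AddMonoidHom.add_apply, AddMonoidHom.add_apply, ← ha, ← ha']
    ring
  | single g r =>
    induction b using MonoidAlgebra.induction_linear with
    | zero => simp
    | add b b' hb hb' =>
      rw [add_mul, mul_add, map_add, map_add, map_add, AddMonoidHom.add_apply, ← hb, ← hb']
      ring
    | single h s =>
      induction c using MonoidAlgebra.induction_linear with
      | zero => simp
      | add c c' hc hc' =>
        rw [add_mul, mul_add, map_add, map_add, map_add, AddMonoidHom.add_apply, ← hc, ← hc']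
        ring
      | single k t =>
        rw [MonoidAlgebra.single_mul_single, MonoidAlgebra.single_mul_single,
          MonoidAlgebra.single_mul_single, l.phi_single, l.phi_single, l.phi_single, l.mul k h]
        have e1 : k * (g * (h * k)) * k⁻¹ = k * g * h := by group
        rw [e1, ← mul_assoc g h k]
        ring

theorem Coc.phi_one_right (l : Coc G S) (a : MonoidAlgebra S G) : l.phi a 1 = 0 := by
  induction a using MonoidAlgebra.induction_linear with
  | zero => simp
  | add a a' ha ha' => rw [map_add, AddMonoidHom.add_apply, ha, ha', add_zero]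
  | single g r => rw [MonoidAlgebra.one_def, l.phi_single, l.one, mul_zero, mul_zero]

theorem Coc.phi_one_left (l : Coc G S) (b : MonoidAlgebra S G) : l.phi 1 b = 0 := by
  induction b using MonoidAlgebra.induction_linear with
  | zero => simp
  | add a a' ha ha' => rw [map_add, ha, ha', add_zero]
  | single g r => rw [MonoidAlgebra.one_def, l.phi_single, one_mul, one_mul, l.self, mul_zero]

variable {ι κ μ : Type*} [Fintype ι] [Fintype κ] [Fintype μ]

/-- The form on matrices. -/
noncomputable def Coc.Phi (l : Coc G S) (A : Matrix ι κ (MonoidAlgebra S G))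
    (B : Matrix κ ι (MonoidAlgebra S G)) : S := ∑ i, ∑ j, l.phi (A i j) (B j i)

theorem Coc.Phi_add_left (l : Coc G S) (A A' : Matrix ι κ (MonoidAlgebra S G))
    (B : Matrix κ ι (MonoidAlgebra S G)) : l.Phi (A + A') B = l.Phi A B + l.Phi A' B := by
  simp only [Coc.Phi, Matrix.add_apply, map_add, AddMonoidHom.add_apply, Finset.sum_add_distrib]

theorem Coc.Phi_add_right (l : Coc G S) (A : Matrix ι κ (MonoidAlgebra S G))
    (B B' : Matrix κ ι (MonoidAlgebra S G)) : l.Phi A (B + B') = l.Phi A B + l.Phi A B' := by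
  simp only [Coc.Phi, Matrix.add_apply, map_add, Finset.sum_add_distrib]

theorem Coc.Phi_zero_left (l : Coc G S) (B : Matrix κ ι (MonoidAlgebra S G)) :
    l.Phi (0 : Matrix ι κ (MonoidAlgebra S G)) B = 0 := by
  simp [Coc.Phi]

theorem Coc.Phi_cocycle (l : Coc G S) (A : Matrix ι κ (MonoidAlgebra S G))
    (B : Matrix κ μ (MonoidAlgebra S G)) (C : Matrix μ ι (MonoidAlgebra S G)) :
    l.Phi (A * B) C + l.Phi (C * A) B = l.Phi A (B * C) := by
  have h1 : l.Phi (A * B) C = ∑ i, ∑ k, ∑ m, l.phi (A i k * B k m) (C m i) := by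
    rw [Coc.Phi]
    refine Finset.sum_congr rfl fun i _ => ?_
    rw [Finset.sum_comm]
    refine Finset.sum_congr rfl fun m _ => ?_
    rw [Matrix.mul_apply, map_sum, AddMonoidHom.finsetSum_apply]
  have h2 : l.Phi (C * A) B = ∑ i, ∑ k, ∑ m, l.phi (C m i * A i k) (B k m) := by
    rw [Coc.Phi]
    have e : ∀ m, ∑ k, l.phi ((C * A) m k) (B k m) =
        ∑ i, ∑ k, l.phi (C m i * A i k) (B k m) := by
      intro m
      rw [Finset.sum_comm]
      refine Finset.sum_congr rfl fun k _ => ?_
      rw [Matrix.mul_apply, map_sum, AddMonoidHom.finsetSum_apply]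
    rw [Finset.sum_congr rfl fun m _ => e m, Finset.sum_comm]
    refine Finset.sum_congr rfl fun i _ => ?_
    rw [Finset.sum_comm]
  have h3 : l.Phi A (B * C) = ∑ i, ∑ k, ∑ m, l.phi (A i k) (B k m * C m i) := by
    rw [Coc.Phi]
    refine Finset.sum_congr rfl fun i _ => Finset.sum_congr rfl fun k _ => ?_
    rw [Matrix.mul_apply, map_sum]
  rw [h1, h2, h3, ← Finset.sum_add_distrib]
  refine Finset.sum_congr rfl fun i _ => ?_
  rw [← Finset.sum_add_distrib]
  refine Finset.sum_congr rfl fun k _ => ?_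
  rw [← Finset.sum_add_distrib]
  exact Finset.sum_congr rfl fun m _ => l.phi_cocycle _ _ _

variable [DecidableEq ι]

theorem Coc.Phi_one_left (l : Coc G S) (B : Matrix ι ι (MonoidAlgebra S G)) :
    l.Phi 1 B = 0 := by
  rw [Coc.Phi]
  refine Finset.sum_eq_zero fun i _ => Finset.sum_eq_zero fun j _ => ?_
  by_cases h : i = j
  · rw [h, Matrix.one_apply_eq, l.phi_one_left]
  · rw [Matrix.one_apply_ne h, map_zero, AddMonoidHom.zero_apply]

theorem Coc.Phi_one_right (l : Coc G S) (B : Matrix ι ι (MonoidAlgebra S G)) :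
    l.Phi B 1 = 0 := by
  rw [Coc.Phi]
  refine Finset.sum_eq_zero fun i _ => Finset.sum_eq_zero fun j _ => ?_
  by_cases h : j = i
  · rw [h, Matrix.one_apply_eq, l.phi_one_right]
  · rw [Matrix.one_apply_ne h, map_zero]

/-- The trace of an invertible matrix. -/
noncomputable def Coc.den (l : Coc G S) (U : (Matrix ι ι (MonoidAlgebra S G))ˣ) : S :=
  l.Phi U.inv U.val

theorem Coc.den_mul (l : Coc G S) (U V : (Matrix ι ι (MonoidAlgebra S G))ˣ) :
    l.den (U * V) = l.den U + l.den V := by
  have h := l.Phi_cocycle (V.inv * U.inv) U.val V.val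
  have e1 : V.inv * U.inv * U.val = V.inv := by rw [Matrix.mul_assoc, U.inv_val, Matrix.mul_one]
  have e2 : V.val * (V.inv * U.inv) = U.inv := by
    rw [← Matrix.mul_assoc, V.val_inv, Matrix.one_mul]
  rw [e1, e2] at h
  change l.Phi (V.inv * U.inv) (U.val * V.val) = _
  rw [← h, add_comm]
  rfl

theorem Coc.den_stab (l : Coc G S) {n : ℕ} (U : (Matrix (Fin n) (Fin n) (MonoidAlgebra S G))ˣ) :
    l.den (stab U) = l.den U := by
  have key : ∀ A B : Matrix (Fin n) (Fin n) (MonoidAlgebra S G),
      l.Phi (stabMat A) (stabMat B) = l.Phi A B := by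
    intro A B
    have h1 : l.Phi (stabMat A) (stabMat B) = l.Phi
        (Matrix.fromBlocks A 0 0 (1 : Matrix (Fin 1) (Fin 1) (MonoidAlgebra S G)))
        (Matrix.fromBlocks B 0 0 (1 : Matrix (Fin 1) (Fin 1) (MonoidAlgebra S G))) := by
      rw [Coc.Phi, Coc.Phi, ← finSumFinEquiv.sum_comp]
      refine Finset.sum_congr rfl fun i _ => ?_
      rw [← finSumFinEquiv.sum_comp]
      refine Finset.sum_congr rfl fun j _ => ?_
      simp [stabMat, Matrix.reindex_apply]
    rw [h1, Coc.Phi, Coc.Phi, Fintype.sum_sum_type]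
    simp only [Fintype.sum_sum_type, Matrix.fromBlocks_apply₁₁, Matrix.fromBlocks_apply₁₂,
      Matrix.fromBlocks_apply₂₁, Matrix.fromBlocks_apply₂₂, Matrix.zero_apply, map_zero,
      AddMonoidHom.zero_apply, Finset.sum_const_zero, add_zero, zero_add]
    have h2 : ∑ i : Fin 1, ∑ j : Fin 1, l.phi ((1 : Matrix (Fin 1) (Fin 1) (MonoidAlgebra S G)) i j)
        ((1 : Matrix (Fin 1) (Fin 1) (MonoidAlgebra S G)) j i) = 0 := by
      have := l.Phi_one_left (1 : Matrix (Fin 1) (Fin 1) (MonoidAlgebra S G))
      exact this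
    rw [h2, add_zero]
  exact key _ _

/-- The Dennis trace homomorphism on `K₁(S[G])`. -/
noncomputable def Coc.dt (l : Coc G S) : K1 (MonoidAlgebra S G) →+ S :=
  K1.lift (fun _ U => l.den U) (fun _ U V => l.den_mul U V) (fun _ U => l.den_stab U)

theorem Coc.dt_mk (l : Coc G S) {n : ℕ} (U : (Matrix (Fin n) (Fin n) (MonoidAlgebra S G))ˣ) :
    l.dt (K1.mk U) = l.den U := K1.lift_mk _ _ _ U

end

section Nat

variable {G : Type v} [Group G] {H : Type w} [Group H] {S : Type u} [CommRing S]

/-- Restriction of a cocycle along a homomorphism. -/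
def Coc.comap (l : Coc G S) (f : H →* G) : Coc H S where
  L a y := l.L (f a) (f y)
  mul a a' y := by
    rw [map_mul, l.mul]
    simp only [map_mul, map_inv]
  self y := l.self _

/-- Change of coefficients. -/
def Coc.mapS {T : Type*} [CommRing T] (l : Coc G S) (θ : S →+* T) : Coc G T where
  L a y := θ (l.L a y)
  mul a a' y := by rw [l.mul, map_add]
  self y := by rw [l.self, map_zero]

theorem Coc.phi_comap (l : Coc G S) (f : H →* G) (a b : MonoidAlgebra S H) :
    l.phi (MonoidAlgebra.mapDomainRingHom S f a) (MonoidAlgebra.mapDomainRingHom S f b) =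
      (l.comap f).phi a b := by
  induction a using MonoidAlgebra.induction_linear with
  | zero => simp
  | add a a' ha ha' =>
    rw [map_add, map_add, map_add, AddMonoidHom.add_apply, AddMonoidHom.add_apply, ha, ha']
  | single g r =>
    induction b using MonoidAlgebra.induction_linear with
    | zero => simp
    | add b b' hb hb' => rw [map_add, map_add, map_add, hb, hb']
    | single h s =>
      change l.phi (MonoidAlgebra.mapDomain f (MonoidAlgebra.single g r))
        (MonoidAlgebra.mapDomain f (MonoidAlgebra.single h s)) = _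
      rw [MonoidAlgebra.mapDomain_single, MonoidAlgebra.mapDomain_single, l.phi_single,
        Coc.phi_single]
      change _ = s * (r * l.L (f h) (f (g * h)))
      rw [map_mul]

theorem Coc.phi_mapS {T : Type*} [CommRing T] (l : Coc G S) (θ : S →+* T)
    (a b : MonoidAlgebra S G) :
    (l.mapS θ).phi (MonoidAlgebra.mapRingHom G θ a) (MonoidAlgebra.mapRingHom G θ b) =
      θ (l.phi a b) := by
  induction a using MonoidAlgebra.induction_linear with
  | zero => simp
  | add a a' ha ha' =>
    rw [map_add, map_add, map_add, AddMonoidHom.add_apply, AddMonoidHom.add_apply, ha, ha',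
      map_add]
  | single g r =>
    induction b using MonoidAlgebra.induction_linear with
    | zero => simp
    | add b b' hb hb' => rw [map_add, map_add, map_add, map_add, hb, hb']
    | single h s =>
      rw [MonoidAlgebra.mapRingHom_single, MonoidAlgebra.mapRingHom_single, l.phi_single,
        Coc.phi_single, map_mul, map_mul]
      rfl

variable {ι κ : Type*} [Fintype ι] [Fintype κ]

theorem Coc.Phi_comap (l : Coc G S) (f : H →* G) (A : Matrix ι κ (MonoidAlgebra S H))
    (B : Matrix κ ι (MonoidAlgebra S H)) :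
    l.Phi (A.map (MonoidAlgebra.mapDomainRingHom S f))
      (B.map (MonoidAlgebra.mapDomainRingHom S f)) = (l.comap f).Phi A B := by
  simp only [Coc.Phi, Matrix.map_apply, l.phi_comap]

theorem Coc.Phi_mapS {T : Type*} [CommRing T] (l : Coc G S) (θ : S →+* T)
    (A : Matrix ι κ (MonoidAlgebra S G)) (B : Matrix κ ι (MonoidAlgebra S G)) :
    (l.mapS θ).Phi (A.map (MonoidAlgebra.mapRingHom G θ)) (B.map (MonoidAlgebra.mapRingHom G θ)) =
      θ (l.Phi A B) := by
  simp only [Coc.Phi, Matrix.map_apply, l.phi_mapS, map_sum]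

/-- the function `∑_f L f y` -/
noncomputable def Coc.psi [Fintype H] (l : Coc H S) (y : H) : S := ∑ f : H, l.L f y

theorem Coc.psi_mul [Fintype H] (l : Coc H S) (g h : H) :
    l.psi (g * h) = l.psi (h * g) + (Fintype.card H : S) * l.L h (g * h) := by
  have e : ∀ f : H, l.L (f * h) (g * h) = l.L f (h * g) + l.L h (g * h) := by
    intro f
    rw [l.mul]
    congr 2
    group
  calc l.psi (g * h) = ∑ f : H, l.L (f * h) (g * h) :=
        (Equiv.sum_comp (Equiv.mulRight h) (fun f => l.L f (g * h))).symm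
    _ = ∑ f : H, (l.L f (h * g) + l.L h (g * h)) := Finset.sum_congr rfl fun f _ => e f
    _ = _ := by
      rw [Finset.sum_add_distrib, Finset.sum_const, Finset.card_univ, nsmul_eq_mul]
      rfl

theorem Coc.card_phi [Fintype H] (l : Coc H S) (a b : MonoidAlgebra S H) :
    (Fintype.card H : S) * l.phi a b = clsFun l.psi (a * b) - clsFun l.psi (b * a) := by
  induction a using MonoidAlgebra.induction_linear with
  | zero => simp
  | add a a' ha ha' =>
    rw [map_add, AddMonoidHom.add_apply, mul_add, ha, ha', add_mul, mul_add, map_add, map_add]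
    ring
  | single g r =>
    induction b using MonoidAlgebra.induction_linear with
    | zero => simp
    | add b b' hb hb' =>
      rw [map_add, mul_add, hb, hb', add_mul, mul_add, map_add, map_add]
      ring
    | single h s =>
      rw [l.phi_single, MonoidAlgebra.single_mul_single, MonoidAlgebra.single_mul_single,
        clsFun_single, clsFun_single, l.psi_mul g h]
      ring

theorem Coc.card_Phi [Fintype H] (l : Coc H S) (A : Matrix ι κ (MonoidAlgebra S H))
    (B : Matrix κ ι (MonoidAlgebra S H)) :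
    (Fintype.card H : S) * l.Phi A B =
      clsFun l.psi (trace (A * B)) - clsFun l.psi (trace (B * A)) := by
  simp only [Coc.Phi, Matrix.trace, Matrix.diag, Matrix.mul_apply, Finset.mul_sum, l.card_phi,
    map_sum, Finset.sum_sub_distrib]
  congr 1
  rw [Finset.sum_comm]

theorem Coc.card_den [Fintype H] [DecidableEq ι] (l : Coc H S)
    (U : (Matrix ι ι (MonoidAlgebra S H))ˣ) : (Fintype.card H : S) * l.den U = 0 := by
  rw [Coc.den, l.card_Phi, U.inv_val, U.val_inv, sub_self]

end Nat

end Pool.Agent.H71.DB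

end

section

/-!
# Lifting the Dennis trace

For a field `K` we use a torsion free ring `Λ` (`K` itself in characteristic zero, the Witt vectors
in characteristic `p`) and quotients `B n` of `Λ` with nilpotent kernel over `K`. A cocycle with
values in `Λ` defines homomorphisms `K₁(K[G]) → B n`.
-/

set_option autoImplicit false

open Matrix

universe u v w

namespace Pool.Agent.H71.DB

open Pool.Agent.H71.FJ (LiftSys liftSysZero liftSysP NilKer mapRingHom_surj)
open Pool.Agent.H95.WH (K1 K1.mk K1.unit K1.map K1.lift K1.lift_mk K1.map_mk stab stabMat K1.mapU K1.hom_ext)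

/-- A lifting system with a torsion free ring. -/
structure BLift (K : Type u) [Field K] where
  sys : LiftSys K
  /-- the ring -/
  Lam : Type u
  inst : CommRing Lam
  tf : ∀ (m : ℤ) (x : Lam), m ≠ 0 → (m : Lam) * x = 0 → x = 0
  /-- the projections -/
  th : ∀ n, Lam →+* sys.B n
  surj : ∀ n, Function.Surjective (th n)
  q : ℤ
  hker : ∀ (n : ℕ) (b : sys.B n), sys.π n b = 0 → ∃ b' : sys.B n, b = (q : sys.B n) * b'
  hq : ∀ n : ℕ, (q : sys.B n) ^ (n + 1) = 0
  joint : ∀ x : Lam, (∀ n, th n x = 0) → x = 0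

instance {K : Type u} [Field K] (L : BLift K) : CommRing L.Lam := L.inst

/-- Characteristic zero. -/
noncomputable def bLiftZero (K : Type u) [Field K] [CharZero K] : BLift K where
  sys := liftSysZero K
  Lam := K
  inst := inferInstance
  tf m x hm h := by
    rcases mul_eq_zero.1 h with h | h
    · exact absurd (by exact_mod_cast h) hm
    · exact h
  th _ := RingHom.id K
  surj _ := Function.surjective_id
  q := 0
  hker n b hb := ⟨0, by
    have h : b = 0 := hb
    rw [h, mul_zero]⟩
  hq n := by rw [Int.cast_zero, zero_pow (Nat.succ_ne_zero n)]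
  joint x h := h 0

section CharP

variable (p : ℕ) [hp : Fact p.Prime] (K : Type u) [Field K] [CharP K p] [PerfectRing K p]

/-- Characteristic `p`. -/
noncomputable def bLiftP : BLift K where
  sys := liftSysP p K
  Lam := WittVector p K
  inst := inferInstance
  tf m x hm h := by
    rcases mul_eq_zero.1 h with h | h
    · exfalso
      apply hm
      exact Pool.Agent.H71.FJ.witt_int p K m (fun n => by rw [h]; exact dvd_zero _)
    · exact h
  th n := Ideal.Quotient.mk _
  surj n := Ideal.Quotient.mk_surjective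
  q := p
  hker n b hb := by
    obtain ⟨w, rfl⟩ := Ideal.Quotient.mk_surjective b
    have hb' : WittVector.constantCoeff w = 0 := hb
    have hw : w ∈ RingHom.ker (WittVector.constantCoeff : WittVector p K →+* K) := hb'
    rw [WittVector.ker_constantCoeff] at hw
    obtain ⟨c, rfl⟩ := Ideal.mem_span_singleton'.1 hw
    refine ⟨Ideal.Quotient.mk _ c, ?_⟩
    rw [map_mul, map_natCast, Int.cast_natCast, mul_comm]
    rfl
  hq n := by
    have h : ((p : ℤ) : (liftSysP p K).B n) ^ (n + 1) =
        Ideal.Quotient.mk (Ideal.span {(p : WittVector p K) ^ (n + 1)})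
          ((p : WittVector p K) ^ (n + 1)) := by
      rw [map_pow, map_natCast, Int.cast_natCast]
      rfl
    rw [h]
    exact Ideal.Quotient.eq_zero_iff_mem.2 (Ideal.mem_span_singleton_self _)
  joint x h := by
    by_contra hx
    obtain ⟨m, b, hb0, hb⟩ := WittVector.exists_eq_pow_p_mul x hx
    have h1 : (p : WittVector p K) ^ (m + 1) ∣ x :=
      Ideal.mem_span_singleton.1 (Ideal.Quotient.eq_zero_iff_mem.1 (h m))
    obtain ⟨c, hc⟩ := h1
    have hp0 : (p : WittVector p K) ^ m ≠ 0 := pow_ne_zero m (WittVector.p_nonzero p K)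
    have h2 : b = (p : WittVector p K) * c := by
      apply mul_left_cancel₀ hp0
      rw [← hb, hc, pow_succ]
      ring
    apply hb0
    have h3 : WittVector.constantCoeff b = 0 := by
      rw [h2, map_mul, map_natCast, CharP.cast_eq_zero, zero_mul]
    exact h3

end CharP

section Unit

theorem exists_lift_unit {R : Type*} [Ring R] {S : Type*} [Ring S] {φ : R →+* S}
    (hs : Function.Surjective φ) (h : NilKer φ) (u : Sˣ) : ∃ v : Rˣ, φ v = u := by
  obtain ⟨a, ha⟩ := hs u
  obtain ⟨b, hb⟩ := hs ((u⁻¹ : Sˣ) : S)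
  have h1 : IsUnit (a * b) := by
    have h2 : IsNilpotent (1 - a * b) := by
      apply h.isNilpotent
      rw [map_sub, map_mul, map_one, ha, hb, Units.mul_inv, sub_self]
    have h3 := h2.isUnit_one_sub
    rwa [sub_sub_cancel] at h3
  have h1' : IsUnit (b * a) := by
    have h2 : IsNilpotent (1 - b * a) := by
      apply h.isNilpotent
      rw [map_sub, map_mul, map_one, ha, hb, Units.inv_mul, sub_self]
    have h3 := h2.isUnit_one_sub
    rwa [sub_sub_cancel] at h3
  obtain ⟨c, hc⟩ := h1
  obtain ⟨d, hd⟩ := h1'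
  have e1 : a * (b * ((c⁻¹ : Rˣ) : R)) = 1 := by rw [← mul_assoc, ← hc, Units.mul_inv]
  have e2 : ((d⁻¹ : Rˣ) : R) * b * a = 1 := by rw [mul_assoc, ← hd, Units.inv_mul]
  have e3 : ((d⁻¹ : Rˣ) : R) * b = b * ((c⁻¹ : Rˣ) : R) := by
    calc ((d⁻¹ : Rˣ) : R) * b = ((d⁻¹ : Rˣ) : R) * b * (a * (b * ((c⁻¹ : Rˣ) : R))) := by
          rw [e1, mul_one]
      _ = (((d⁻¹ : Rˣ) : R) * b * a) * (b * ((c⁻¹ : Rˣ) : R)) := by simp only [mul_assoc]
      _ = _ := by rw [e2, one_mul]
  refine ⟨⟨a, b * ((c⁻¹ : Rˣ) : R), e1, by rw [← e3]; exact e2⟩, ha⟩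

end Unit

section Den

variable {G : Type v} [Group G]

theorem Coc.phi_pow_aux {S : Type u} [CommRing S] (l : Coc G S) {ι : Type*} [Fintype ι]
    [DecidableEq ι] (X : Matrix ι ι (MonoidAlgebra S G)) (m : ℕ) :
    ∀ i : ℕ, l.Phi (X ^ i) (X ^ (m + 1)) = ((m + 1 : ℕ) : S) * l.Phi (X ^ (i + m)) X := by
  induction m with
  | zero =>
    intro i
    rw [zero_add, pow_one, add_zero, Nat.cast_one, one_mul]
  | succ m ih =>
    intro i
    have h := l.Phi_cocycle (X ^ i) (X ^ (m + 1)) X
    rw [← pow_succ X (m + 1), ← pow_add, ← pow_succ', ih (i + 1)] at h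
    rw [← h]
    have e : i + 1 + m = i + (m + 1) := by ring
    rw [e]
    push_cast
    ring

theorem Coc.phi_pow {S : Type u} [CommRing S] (l : Coc G S)
    (tf : ∀ (m : ℤ) (x : S), m ≠ 0 → (m : S) * x = 0 → x = 0) {ι : Type*} [Fintype ι]
    [DecidableEq ι] (X : Matrix ι ι (MonoidAlgebra S G)) (m : ℕ) : l.Phi (X ^ m) X = 0 := by
  have h := l.phi_pow_aux X m 0
  rw [pow_zero, l.Phi_one_left, zero_add] at h
  apply tf ((m + 1 : ℕ) : ℤ) _ (by exact_mod_cast Nat.succ_ne_zero m)
  rw [Int.cast_natCast]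
  exact h.symm

variable {K : Type u} [Field K] (L : BLift K)

theorem Coc.phi_pow_th (l : Coc G L.Lam) (n : ℕ) {ι : Type*} [Fintype ι] [DecidableEq ι]
    (X : Matrix ι ι (MonoidAlgebra (L.sys.B n) G)) (m : ℕ) :
    (l.mapS (L.th n)).Phi (X ^ m) X = 0 := by
  have hs : Function.Surjective (MonoidAlgebra.mapRingHom G (L.th n)) := by
    intro a
    induction a using MonoidAlgebra.induction_linear with
    | zero => exact ⟨0, map_zero _⟩
    | add a b ha hb =>
      obtain ⟨a', rfl⟩ := ha
      obtain ⟨b', rfl⟩ := hb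
      exact ⟨a' + b', map_add _ _ _⟩
    | single g r =>
      obtain ⟨r', rfl⟩ := L.surj n r
      exact ⟨MonoidAlgebra.single g r', MonoidAlgebra.mapRingHom_single _ _ _⟩
  choose s hs using hs
  have h1 : (X.map s).map (MonoidAlgebra.mapRingHom G (L.th n)) = X := by
    refine Matrix.ext fun i j => ?_
    rw [Matrix.map_apply, Matrix.map_apply, hs]
  have h2 : X ^ m = ((X.map s) ^ m).map (MonoidAlgebra.mapRingHom G (L.th n)) := by
    have e := map_pow (MonoidAlgebra.mapRingHom G (L.th n)).mapMatrix (X.map s) m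
    rw [RingHom.mapMatrix_apply, RingHom.mapMatrix_apply, h1] at e
    exact e.symm
  have h3 := l.Phi_mapS (L.th n) ((X.map s) ^ m) (X.map s)
  rw [h1, ← h2, l.phi_pow L.tf, map_zero] at h3
  exact h3

theorem exists_smul_of_map_zero (n : ℕ) (a : MonoidAlgebra (L.sys.B n) G)
    (h : MonoidAlgebra.mapRingHom G (L.sys.π n) a = 0) :
    ∃ a' : MonoidAlgebra (L.sys.B n) G, a = L.q • a' := by
  have h1 : ∀ g, ∃ b' : L.sys.B n, a.coeff g = (L.q : L.sys.B n) * b' := by
    intro g
    apply L.hker
    have h2 := congrArg (fun z => MonoidAlgebra.coeff z g) h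
    simpa using h2
  choose b hb using h1
  refine ⟨∑ g ∈ a.coeff.support, MonoidAlgebra.single g (b g), ?_⟩
  rw [Finset.smul_sum]
  conv_lhs => rw [← MonoidAlgebra.sum_coeff_single a]
  rw [Finsupp.sum]
  refine Finset.sum_congr rfl fun g _ => ?_
  rw [hb g]
  apply MonoidAlgebra.coeff_injective
  rw [MonoidAlgebra.coeff_smul, MonoidAlgebra.coeff_single, MonoidAlgebra.coeff_single,
    Finsupp.smul_single, zsmul_eq_mul]

theorem Coc.den_ker (l : Coc G L.Lam) (n : ℕ) {ι : Type*} [Fintype ι] [DecidableEq ι]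
    (W : (Matrix ι ι (MonoidAlgebra (L.sys.B n) G))ˣ)
    (hW : W.val.map (MonoidAlgebra.mapRingHom G (L.sys.π n)) = 1) :
    (l.mapS (L.th n)).den W = 0 := by
  obtain ⟨X, hX⟩ : ∃ X : Matrix ι ι (MonoidAlgebra (L.sys.B n) G), W.val = 1 + L.q • X := by
    have h1 : ∀ i j, ∃ a' : MonoidAlgebra (L.sys.B n) G, (W.val - 1) i j = L.q • a' := by
      intro i j
      apply exists_smul_of_map_zero
      have h2 := congrFun (congrFun hW i) j
      rw [Matrix.map_apply] at h2
      rw [Matrix.sub_apply, map_sub, h2]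
      by_cases hij : i = j
      · rw [hij, Matrix.one_apply_eq, Matrix.one_apply_eq, map_one, sub_self]
      · rw [Matrix.one_apply_ne hij, Matrix.one_apply_ne hij, map_zero, sub_self]
    choose X hX using h1
    refine ⟨Matrix.of X, ?_⟩
    rw [← sub_eq_iff_eq_add']
    refine Matrix.ext fun i j => ?_
    rw [hX]
    rfl
  have hq0 : ∀ Z : Matrix ι ι (MonoidAlgebra (L.sys.B n) G), (L.q ^ (n + 1)) • Z = 0 := by
    intro Z
    refine Matrix.ext fun i j => ?_
    rw [Matrix.smul_apply, Matrix.zero_apply]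
    apply MonoidAlgebra.coeff_injective
    ext g
    rw [MonoidAlgebra.coeff_smul, Finsupp.smul_apply, zsmul_eq_mul, Int.cast_pow, L.hq n,
      zero_mul]
    rfl
  have hgeom : ∀ m : ℕ, (∑ j ∈ Finset.range m, ((-L.q) ^ j) • X ^ j) * (1 + L.q • X) =
      1 - ((-L.q) ^ m) • X ^ m := by
    intro m
    induction m with
    | zero => simp
    | succ m ih =>
      rw [Finset.sum_range_succ, add_mul, ih, mul_add, mul_one, Matrix.smul_mul, Matrix.mul_smul,
        ← pow_succ X m, smul_smul, pow_succ (-L.q) m, mul_neg, neg_smul]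
      abel
  have hinv : W.inv = ∑ j ∈ Finset.range (n + 1), ((-L.q) ^ j) • X ^ j := by
    have h1 := hgeom (n + 1)
    rw [← hX] at h1
    have h2 : ((-L.q) ^ (n + 1)) • X ^ (n + 1) = 0 := by
      rw [neg_pow, mul_smul, hq0, smul_zero]
    rw [h2, sub_zero] at h1
    calc W.inv = (∑ j ∈ Finset.range (n + 1), ((-L.q) ^ j) • X ^ j) * W.val * W.inv := by
          rw [h1, one_mul]
      _ = _ := by rw [mul_assoc, W.val_inv, mul_one]
  have hsm : ∀ (m : ℤ) (A B : Matrix ι ι (MonoidAlgebra (L.sys.B n) G)),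
      (l.mapS (L.th n)).Phi A (m • B) = m • (l.mapS (L.th n)).Phi A B := by
    intro m A B
    simp only [Coc.Phi, Matrix.smul_apply, map_zsmul, Finset.smul_sum]
  have hsm' : ∀ (m : ℤ) (A B : Matrix ι ι (MonoidAlgebra (L.sys.B n) G)),
      (l.mapS (L.th n)).Phi (m • A) B = m • (l.mapS (L.th n)).Phi A B := by
    intro m A B
    simp only [Coc.Phi, Matrix.smul_apply, map_zsmul, Finset.smul_sum, AddMonoidHom.coe_smul,
      Pi.smul_apply]
  have hsum : ∀ m : ℕ, (l.mapS (L.th n)).Phi (∑ j ∈ Finset.range m, ((-L.q) ^ j) • X ^ j) X =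
      0 := by
    intro m
    induction m with
    | zero => rw [Finset.sum_range_zero, Coc.Phi_zero_left]
    | succ m ih =>
      rw [Finset.sum_range_succ, Coc.Phi_add_left, ih, hsm', l.phi_pow_th L n, smul_zero,
        add_zero]
  rw [Coc.den, hX, Coc.Phi_add_right, Coc.Phi_one_right, zero_add, hsm, hinv, hsum, smul_zero]

theorem Coc.den_congr (l : Coc G L.Lam) (n : ℕ) {ι : Type*} [Fintype ι] [DecidableEq ι]
    (U V : (Matrix ι ι (MonoidAlgebra (L.sys.B n) G))ˣ)
    (h : U.val.map (MonoidAlgebra.mapRingHom G (L.sys.π n)) =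
      V.val.map (MonoidAlgebra.mapRingHom G (L.sys.π n))) :
    (l.mapS (L.th n)).den U = (l.mapS (L.th n)).den V := by
  have h1 : (l.mapS (L.th n)).den (U⁻¹ * V) = 0 := by
    apply l.den_ker L n
    rw [Units.val_mul, Matrix.map_mul, ← h, ← Matrix.map_mul, Units.inv_mul,
      Matrix.map_one _ (map_zero _) (map_one _)]
  have h2 : (l.mapS (L.th n)).den (U * (U⁻¹ * V)) = (l.mapS (L.th n)).den U := by
    rw [Coc.den_mul, h1, add_zero]
  rw [← h2, mul_inv_cancel_left]

theorem exists_lift_GL (n : ℕ) {ι : Type*} [Fintype ι] [DecidableEq ι]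
    (U : (Matrix ι ι (MonoidAlgebra K G))ˣ) :
    ∃ V : (Matrix ι ι (MonoidAlgebra (L.sys.B n) G))ˣ,
      V.val.map (MonoidAlgebra.mapRingHom G (L.sys.π n)) = U.val := by
  have hs : Function.Surjective ((MonoidAlgebra.mapRingHom G (L.sys.π n)).mapMatrix :
      Matrix ι ι (MonoidAlgebra (L.sys.B n) G) →+* Matrix ι ι (MonoidAlgebra K G)) := by
    intro X
    choose g hg using mapRingHom_surj (L.sys.surj n) G
    exact ⟨X.map g, by ext i j : 2; simp [hg]⟩
  exact exists_lift_unit hs (((L.sys.nil n).monoidAlgebra G).matrix ι) U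

/-- a lift of an invertible matrix -/
noncomputable def liftGL (n : ℕ) {ι : Type*} [Fintype ι] [DecidableEq ι]
    (U : (Matrix ι ι (MonoidAlgebra K G))ˣ) : (Matrix ι ι (MonoidAlgebra (L.sys.B n) G))ˣ :=
  (exists_lift_GL L n U).choose

theorem liftGL_spec (n : ℕ) {ι : Type*} [Fintype ι] [DecidableEq ι]
    (U : (Matrix ι ι (MonoidAlgebra K G))ˣ) :
    (liftGL L n U).val.map (MonoidAlgebra.mapRingHom G (L.sys.π n)) = U.val :=
  (exists_lift_GL L n U).choose_spec

/-- The lifted Dennis trace `K₁(K[G]) → B n`. -/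
noncomputable def Coc.dn (l : Coc G L.Lam) (n : ℕ) : K1 (MonoidAlgebra K G) →+ L.sys.B n :=
  K1.lift (fun _ U => (l.mapS (L.th n)).den (liftGL L n U))
    (fun _ U V => by
      rw [← Coc.den_mul]
      apply l.den_congr L n
      rw [liftGL_spec, Units.val_mul, Units.val_mul, Matrix.map_mul, liftGL_spec, liftGL_spec])
    (fun m U => by
      rw [← Coc.den_stab _ (liftGL L n U)]
      apply l.den_congr L n
      rw [liftGL_spec]
      have h1 := Pool.Agent.H95.WH.K1.stab_mapU (MonoidAlgebra.mapRingHom G (L.sys.π n))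
        (liftGL L n U)
      have h2 := congrArg Units.val h1
      have h3 : K1.mapU (MonoidAlgebra.mapRingHom G (L.sys.π n)) (liftGL L n U) = U :=
        Units.ext (liftGL_spec L n U)
      rw [h3] at h2
      exact h2.symm)

theorem Coc.dn_map (l : Coc G L.Lam) (n : ℕ) (x : K1 (MonoidAlgebra (L.sys.B n) G)) :
    l.dn L n (K1.map (MonoidAlgebra.mapRingHom G (L.sys.π n)) x) = (l.mapS (L.th n)).dt x := by
  suffices H : (l.dn L n).comp (K1.map (MonoidAlgebra.mapRingHom G (L.sys.π n))) =
    (l.mapS (L.th n)).dt from DFunLike.congr_fun H x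
  apply K1.hom_ext
  intro m U
  rw [AddMonoidHom.comp_apply, K1.map_mk, Coc.dn, K1.lift_mk, Coc.dt_mk]
  apply l.den_congr L n
  rw [liftGL_spec]
  rfl

end Den

end Pool.Agent.H71.DB

end

section

/-!
# The Dennis trace of the elements of `K₁` coming from `K₀` of a finite group and a central element
-/

set_option autoImplicit false

open Matrix

universe u v w

namespace Pool.Agent.H71.DB

open Pool.Agent.H71.FJ (MatEquiv IdemMat K0 K0.mk K0.lift K0.lift_mk K0.hom_ext K0.map clsFun clsFun_single T K0.tr_mk LT liftK)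
open Pool.Agent.H95.WH (K1 K1.mk K1.map K1.map_mk)
open Pool.Agent.H71.DO (grpUnit)

section Formula

variable {S : Type u} [CommRing S] {H : Type v} [Group H] {G : Type w} [Group G]

/-- `L z` is invariant on the image of `f`. -/
theorem Coc.L_comm (l : Coc G S) (f : H →* G) (z : G) (h : ∀ a, f a * z = z * f a) (a b : H) :
    l.L z (f (a * b)) = l.L z (f (b * a)) := by
  have h1 := l.mul (f b) z (f (a * b))
  have h2 := l.mul z (f b) (f (a * b))
  have e1 : f b * f (a * b) * (f b)⁻¹ = f (b * a) := by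
    rw [map_mul, map_mul]
    group
  have e2 : z * f (a * b) * z⁻¹ = f (a * b) := by rw [← h, mul_inv_cancel_right]
  rw [e1] at h1
  rw [e2, h, h1] at h2
  rw [add_comm (l.L (f b) _)] at h2
  exact (add_right_cancel h2).symm

theorem infinite_mul {x z : G} (hx : IsOfFinOrder x) (hz : ¬ IsOfFinOrder z)
    (hc : Commute x z) : orderOf (x * z) = 0 := by
  rw [orderOf_eq_zero_iff]
  intro h
  apply hz
  have h1 : IsOfFinOrder (x⁻¹ * (x * z)) :=
    ((Commute.refl x).inv_left.mul_right hc.inv_left).isOfFinOrder_mul hx.inv h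
  rwa [inv_mul_cancel_left] at h1

theorem Coc.phi_bass (l : Coc G S) (hs : ∀ f y, orderOf y = 0 → l.L f y = 0) [Finite H]
    (f : H →* G) (z : G) (h : ∀ a, f a * z = z * f a) (hz : ¬ IsOfFinOrder z)
    (a b : MonoidAlgebra S H) :
    l.phi (MonoidAlgebra.mapDomainRingHom S f a *
        (((grpUnit S G z)⁻¹ : (MonoidAlgebra S G)ˣ) - 1 : MonoidAlgebra S G))
      (MonoidAlgebra.mapDomainRingHom S f b * ((grpUnit S G z : MonoidAlgebra S G) - 1)) =
      2 * (l.comap f).phi a b + clsFun (fun x => l.L z (f x)) (a * b) := by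
  have ginv : (((grpUnit S G z)⁻¹ : (MonoidAlgebra S G)ˣ) : MonoidAlgebra S G) =
      MonoidAlgebra.single z⁻¹ 1 := by
    rw [← map_inv]
    rfl
  rw [ginv, grpUnit_val]
  induction a using MonoidAlgebra.induction_linear with
  | zero => simp
  | add a a' ha ha' =>
    rw [map_add, add_mul, map_add, AddMonoidHom.add_apply, ha, ha', map_add,
      AddMonoidHom.add_apply, add_mul, map_add]
    ring
  | single g r =>
    induction b using MonoidAlgebra.induction_linear with
    | zero => simp
    | add b b' hb hb' =>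
      rw [map_add, add_mul, map_add, hb, hb', map_add, mul_add (MonoidAlgebra.single g r), map_add]
      ring
    | single k s =>
      change l.phi (MonoidAlgebra.mapDomain f (MonoidAlgebra.single g r) *
        (MonoidAlgebra.single z⁻¹ 1 - 1)) (MonoidAlgebra.mapDomain f (MonoidAlgebra.single k s) *
        (MonoidAlgebra.single z 1 - 1)) = _
      rw [MonoidAlgebra.mapDomain_single, MonoidAlgebra.mapDomain_single, mul_sub, mul_sub,
        mul_one, mul_one, MonoidAlgebra.single_mul_single, MonoidAlgebra.single_mul_single,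
        mul_one, mul_one]
      simp only [map_sub, AddMonoidHom.sub_apply]
      rw [l.phi_single, l.phi_single, l.phi_single, l.phi_single, Coc.phi_single,
        MonoidAlgebra.single_mul_single, clsFun_single]
      have hk := h k
      have e1 : f g * z⁻¹ * (f k * z) = f (g * k) := by
        rw [hk, map_mul]
        group
      have e2 : f g * z⁻¹ * f k = f (g * k) * z⁻¹ := by
        have e3 : z⁻¹ * f k = f k * z⁻¹ := ((show Commute (f k) z from hk).inv_right).symm
        rw [mul_assoc, e3, map_mul, mul_assoc]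
      have e3 : f g * (f k * z) = f (g * k) * z := by rw [map_mul, mul_assoc]
      have e4 : f g * f k = f (g * k) := (map_mul _ _ _).symm
      have hfin : IsOfFinOrder (f (g * k)) := f.isOfFinOrder (isOfFinOrder_of_finite (g * k))
      have hc : Commute (f (g * k)) z := h _
      rw [e1, e2, e3, e4, hs _ (f (g * k) * z⁻¹) (infinite_mul hfin (by
          rw [isOfFinOrder_inv_iff]; exact hz) hc.inv_right),
        hs _ (f (g * k) * z) (infinite_mul hfin hz hc), l.mul z (f k)]
      have e5 : z * f (g * k) * z⁻¹ = f (g * k) := by rw [← h, mul_inv_cancel_right]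
      rw [e5]
      change _ = 2 * (s * (r * l.L (f k) (f (g * k)))) + r * s * l.L z (f (g * k))
      ring

/-- The trace of `[1 + e (z - 1)]`. -/
theorem Coc.dt_gbass (l : Coc G S) (hs : ∀ f y, orderOf y = 0 → l.L f y = 0) [Fintype H]
    (f : H →* G) (z : G) (h : ∀ a, f a * z = z * f a) (hz : ¬ IsOfFinOrder z)
    (x : K0 (MonoidAlgebra S H)) :
    (Fintype.card H : S) * (l.dt (gbass S f z h x) -
      T (fun a => l.L z (f a)) (l.L_comm f z h) x) = 0 := by
  suffices H1 : (AddMonoidHom.mulLeft (Fintype.card H : S)).comp (l.dt.comp (gbass S f z h) -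
      T (fun a => l.L z (f a)) (l.L_comm f z h)) = 0 from DFunLike.congr_fun H1 x
  apply K0.hom_ext
  intro a
  change (Fintype.card H : S) * (l.dt (gbass S f z h (K0.mk a)) -
      T (fun a => l.L z (f a)) (l.L_comm f z h) (K0.mk a)) = 0
  rw [gbass, bass_mk, Coc.dt_mk, T, K0.tr_mk, Coc.den]
  change (Fintype.card H : S) * (l.Phi (bmat _ a.mat _) (bmat _ a.mat _) - _) = 0
  have h1 : l.Phi (bmat (MonoidAlgebra.mapDomainRingHom S f) a.mat
        (((grpUnit S G z)⁻¹ : (MonoidAlgebra S G)ˣ) : MonoidAlgebra S G))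
      (bmat (MonoidAlgebra.mapDomainRingHom S f) a.mat (grpUnit S G z : MonoidAlgebra S G)) =
      2 * (l.comap f).Phi a.mat a.mat + clsFun (fun a => l.L z (f a)) (trace a.mat) := by
    have h2 : clsFun (fun a => l.L z (f a)) (trace a.mat) =
        ∑ i, ∑ j, clsFun (fun a => l.L z (f a)) (a.mat i j * a.mat j i) := by
      conv_lhs => rw [← a.idem]
      simp only [Matrix.trace, Matrix.diag, Matrix.mul_apply, map_sum]
    rw [bmat, bmat, Coc.Phi_add_left, Coc.Phi_one_left, zero_add, Coc.Phi_add_right,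
      Coc.Phi_one_right, zero_add, h2, Coc.Phi, Coc.Phi, Finset.mul_sum,
      ← Finset.sum_add_distrib]
    refine Finset.sum_congr rfl fun i _ => ?_
    rw [Finset.mul_sum, ← Finset.sum_add_distrib]
    refine Finset.sum_congr rfl fun j _ => ?_
    rw [Matrix.map_apply, Matrix.map_apply]
    exact l.phi_bass hs f z h hz _ _
  rw [h1, add_sub_cancel_right]
  have h3 := (l.comap f).card_Phi a.mat a.mat
  rw [sub_self] at h3
  rw [mul_left_comm, h3, mul_zero]

end Formula

end Pool.Agent.H71.DB

end

section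

/-!
# The cocycle of an element of finite order and a homomorphism on its centralizer
-/

set_option autoImplicit false

open Matrix
open scoped Classical

universe t u v w

namespace Pool.Agent.H71.DB

open Pool.Agent.H71.FJ (IdemMat K0 K0.mk K0.map K0.map_map LT liftK map_liftK T T_zero T_congr)
open Pool.Agent.H95.WH (K1 K1.mk K1.map K1.map_mk K1.map_map)
open Pool.Agent.H71.DO (grpUnit)

section CocC

variable {G : Type v} [Group G] (c : G)

/-- an element conjugating `c` into `y` -/
noncomputable def xc (y : G) : G := if h : IsConj c y then (isConj_iff.1 h).choose else 1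

theorem xc_spec {y : G} (h : IsConj c y) : xc c y * c * (xc c y)⁻¹ = y := by
  rw [xc, dif_pos h]
  exact (isConj_iff.1 h).choose_spec

variable {Λ : Type u} [CommRing Λ] (lam : Subgroup.centralizer ({c} : Set G) →* Multiplicative Λ)

/-- the homomorphism `lam` as a function on `G` -/
noncomputable def lf (g : G) : Λ :=
  if h : g ∈ Subgroup.centralizer ({c} : Set G) then Multiplicative.toAdd (lam ⟨g, h⟩) else 0

theorem lf_mul {g g' : G} (h : g ∈ Subgroup.centralizer ({c} : Set G))
    (h' : g' ∈ Subgroup.centralizer ({c} : Set G)) :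
    lf c lam (g * g') = lf c lam g + lf c lam g' := by
  rw [lf, lf, lf, dif_pos h, dif_pos h', dif_pos (Subgroup.mul_mem _ h h'), ← toAdd_mul,
    ← map_mul]
  rfl

theorem lf_one : lf c lam 1 = 0 := by
  have h := lf_mul c lam (Subgroup.one_mem _) (Subgroup.one_mem _)
  rw [one_mul] at h
  exact left_eq_add.1 h

theorem lf_pow {g : G} (h : g ∈ Subgroup.centralizer ({c} : Set G)) (n : ℕ) :
    lf c lam (g ^ n) = (n : Λ) * lf c lam g := by
  induction n with
  | zero => rw [pow_zero, lf_one, Nat.cast_zero, zero_mul]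
  | succ n ih =>
    rw [pow_succ, lf_mul c lam (Subgroup.pow_mem _ h n) h, ih]
    push_cast
    ring

theorem lf_inv {g : G} (h : g ∈ Subgroup.centralizer ({c} : Set G)) :
    lf c lam g⁻¹ = -lf c lam g := by
  have h1 := lf_mul c lam h (Subgroup.inv_mem _ h)
  rw [mul_inv_cancel, lf_one] at h1
  exact eq_neg_of_add_eq_zero_right h1.symm

theorem lf_conj {g w : G} (h : g ∈ Subgroup.centralizer ({c} : Set G))
    (hw : w ∈ Subgroup.centralizer ({c} : Set G)) :
    lf c lam (w * g * w⁻¹) = lf c lam g := by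
  rw [lf_mul c lam (Subgroup.mul_mem _ hw h) (Subgroup.inv_mem _ hw), lf_mul c lam hw h,
    lf_inv c lam hw]
  ring

theorem mem_cent_iff {g : G} :
    g ∈ Subgroup.centralizer ({c} : Set G) ↔ g * c * g⁻¹ = c := by
  rw [Subgroup.mem_centralizer_singleton_iff, mul_inv_eq_iff_eq_mul]

theorem xc_mem {f y : G} (h : IsConj c y) :
    (xc c (f * y * f⁻¹))⁻¹ * f * xc c y ∈ Subgroup.centralizer ({c} : Set G) := by
  rw [mem_cent_iff]
  have h1 := xc_spec c h
  have h2 := xc_spec c (h.trans (isConj_iff.2 ⟨f, rfl⟩) : IsConj c (f * y * f⁻¹))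
  calc (xc c (f * y * f⁻¹))⁻¹ * f * xc c y * c * ((xc c (f * y * f⁻¹))⁻¹ * f * xc c y)⁻¹
      = (xc c (f * y * f⁻¹))⁻¹ * (f * (xc c y * c * (xc c y)⁻¹) * f⁻¹) * xc c (f * y * f⁻¹) := by
        group
    _ = (xc c (f * y * f⁻¹))⁻¹ * (xc c (f * y * f⁻¹) * c * (xc c (f * y * f⁻¹))⁻¹) *
          xc c (f * y * f⁻¹) := by rw [h1, h2]
    _ = c := by group

variable (tf : ∀ (m : ℤ) (x : Λ), m ≠ 0 → (m : Λ) * x = 0 → x = 0) (hc : IsOfFinOrder c)

/-- The cocycle of `c` and `lam`. -/
noncomputable def cocC : Coc G Λ where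
  L f y := if IsConj c y then lf c lam ((xc c (f * y * f⁻¹))⁻¹ * f * xc c y) else 0
  mul f f' y := by
    have hfy : IsConj y (f * y * f⁻¹) := isConj_iff.2 ⟨f, rfl⟩
    by_cases h : IsConj c y
    · rw [if_pos h, if_pos h, if_pos (h.trans hfy)]
      have h1 := xc_mem c (f := f) h
      have h2 := xc_mem c (f := f') (h.trans hfy)
      rw [← lf_mul c lam h2 h1]
      congr 1
      have e : f' * f * y * (f' * f)⁻¹ = f' * (f * y * f⁻¹) * f'⁻¹ := by group
      rw [e]
      group
    · rw [if_neg h, if_neg h, if_neg (fun h' => h (h'.trans hfy.symm)), add_zero]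
  self y := by
    by_cases h : IsConj c y
    · rw [if_pos h]
      have e1 : y * y * y⁻¹ = y := mul_inv_cancel_right y y
      rw [e1]
      have e2 : (xc c y)⁻¹ * y * xc c y = c := by
        conv_lhs => rw [← xc_spec c h]
        rw [xc_spec c h]
        nth_rewrite 2 [← xc_spec c h]
        group
      rw [e2]
      have hcc : c ∈ Subgroup.centralizer ({c} : Set G) := by
        rw [mem_cent_iff]
        group
      have h3 := lf_pow c lam hcc (orderOf c)
      rw [pow_orderOf_eq_one, lf_one] at h3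
      refine tf (orderOf c : ℕ) _ (by exact_mod_cast hc.orderOf_pos.ne') ?_
      rw [Int.cast_natCast]
      exact h3.symm
    · rw [if_neg h]

theorem cocC_supp (f y : G) (h : orderOf y = 0) : (cocC c lam tf hc).L f y = 0 := by
  change (if IsConj c y then _ else 0) = _
  rw [if_neg]
  intro h1
  obtain ⟨g, hg⟩ := isConj_iff.1 h1
  rw [orderOf_eq_zero_iff] at h
  apply h
  rw [← hg]
  exact (MulAut.conj g).toMonoidHom.isOfFinOrder hc

theorem cocC_eval {g y z : G} (hg : g * y * g⁻¹ = c) (hz : y * z = z * y) :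
    (cocC c lam tf hc).L z y = lf c lam (g * z * g⁻¹) := by
  have hconj : IsConj c y := (isConj_iff.2 ⟨g, hg⟩ : IsConj y c).symm
  change (if IsConj c y then _ else 0) = _
  rw [if_pos hconj]
  have e1 : z * y * z⁻¹ = y := by rw [← hz, mul_inv_cancel_right]
  have h1 := xc_mem c (f := z) hconj
  rw [e1] at h1 ⊢
  have h2 : g * xc c y ∈ Subgroup.centralizer ({c} : Set G) := by
    rw [mem_cent_iff]
    calc g * xc c y * c * (g * xc c y)⁻¹ = g * (xc c y * c * (xc c y)⁻¹) * g⁻¹ := by group
      _ = c := by rw [xc_spec c hconj, hg]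
  rw [← lf_conj c lam h1 h2]
  congr 1
  group

theorem cocC_not_conj {y z : G} (h : ¬ IsConj c y) : (cocC c lam tf hc).L z y = 0 :=
  if_neg h

end CocC

section DnG

variable {k : Type u} [Field k] {K : Type t} [Field K] (L : BLift K) (i : k →+* K)
  {G : Type v} [Group G] {H : Type w} [Group H]

theorem Coc.L_pow {S : Type u} [CommRing S] (l : Coc G S) {y z : G} (h : y * z = z * y) (n : ℕ) :
    l.L (z ^ n) y = (n : S) * l.L z y := by
  induction n with
  | zero => rw [pow_zero, l.one, Nat.cast_zero, zero_mul]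
  | succ n ih =>
    have e : z * y * z⁻¹ = y := by rw [← h, mul_inv_cancel_right]
    rw [pow_succ, l.mul, e, ih]
    push_cast
    ring

theorem T_eq_zero {S : Type u} [CommRing S] (f : H → S) (hf : ∀ x y, f (x * y) = f (y * x))
    (h : ∀ a, f a = 0) (x : K0 (MonoidAlgebra S H)) : T f hf x = 0 := by
  rw [T_congr hf (g := fun _ => (0 : S)) (fun _ _ => rfl) h]
  exact T_zero x _

/-- The value of the lifted Dennis trace on the elements from `K₀`, up to a multiple which does not
depend on `n` and the cocycle. -/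
theorem dn_gbass [Fintype H] (f : H →* G) (z : G) (h : ∀ a, f a * z = z * f a) :
    ∃ M : ℤ, M ≠ 0 ∧ ∀ (l : Coc G L.Lam), (∀ f y, orderOf y = 0 → l.L f y = 0) →
      ∀ (n : ℕ) (x : K0 (MonoidAlgebra k H)),
      (M : L.sys.B n) * (l.dn L n (K1.map (MonoidAlgebra.mapRingHom G i) (gbass k f z h x)) -
        LT L.sys n i (fun a => L.th n (l.L z (f a)))
          ((l.mapS (L.th n)).L_comm f z h) x) = 0 := by
  have key : ∀ (l : Coc G L.Lam) (n : ℕ) (x : K0 (MonoidAlgebra k H)),
      l.dn L n (K1.map (MonoidAlgebra.mapRingHom G i) (gbass k f z h x)) =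
        (l.mapS (L.th n)).dt (gbass (L.sys.B n) f z h (liftK L.sys n i H x)) := by
    intro l n x
    rw [map_gbass, ← map_liftK L.sys n i H x, ← map_gbass, l.dn_map L n]
  by_cases hz : IsOfFinOrder z
  · refine ⟨(orderOf z : ℕ), by exact_mod_cast hz.orderOf_pos.ne', fun l hl n x => ?_⟩
    rw [key, mul_sub, Int.cast_natCast]
    have h1 : ((orderOf z : ℕ) : L.sys.B n) *
        (l.mapS (L.th n)).dt (gbass (L.sys.B n) f z h (liftK L.sys n i H x)) = 0 := by
      rw [← nsmul_eq_mul, ← map_nsmul, ← gbass_pow,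
        gbass_congr _ f (pow_orderOf_eq_one z) _ (fun a => by rw [one_mul, mul_one]), gbass_one,
        map_zero]
    have h2 : ∀ a, L.th n (l.L z (f a)) = 0 := by
      intro a
      have h3 := l.L_pow (h a) (orderOf z)
      rw [pow_orderOf_eq_one, l.one] at h3
      have h4 : l.L z (f a) = 0 := by
        refine L.tf (orderOf z : ℕ) _ (by exact_mod_cast hz.orderOf_pos.ne') ?_
        rw [Int.cast_natCast]
        exact h3.symm
      rw [h4, map_zero]
    have h5 : LT L.sys n i (fun a => L.th n (l.L z (f a)))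
        ((l.mapS (L.th n)).L_comm f z h) x = 0 :=
      T_eq_zero _ ((l.mapS (L.th n)).L_comm f z h) h2 _
    rw [h1, h5, mul_zero, sub_zero]
  · refine ⟨(Fintype.card H : ℕ), by exact_mod_cast Fintype.card_ne_zero, fun l hl n x => ?_⟩
    rw [key, Int.cast_natCast]
    exact (l.mapS (L.th n)).dt_gbass (fun f y hy => by
      change L.th n (l.L f y) = 0
      rw [hl f y hy, map_zero]) f z h hz _

/-- The lifted Dennis trace kills the image of `K₁` of a finite group, up to its order. -/
theorem dn_finite [Fintype H] (f : H →* G) (l : Coc G L.Lam) (n : ℕ)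
    (x : K1 (MonoidAlgebra k H)) :
    ((Fintype.card H : ℤ) : L.sys.B n) * l.dn L n (K1.map (MonoidAlgebra.mapRingHom G i)
      (K1.map (MonoidAlgebra.mapDomainRingHom k f) x)) = 0 := by
  obtain ⟨m, U, rfl⟩ := Pool.Agent.H95.WH.K1.exists_mk x
  obtain ⟨V, hV⟩ := exists_lift_GL L n
    (Pool.Agent.H95.WH.K1.mapU (MonoidAlgebra.mapRingHom H i) U)
  have h1 : K1.map (MonoidAlgebra.mapRingHom H i) (K1.mk U) =
      K1.map (MonoidAlgebra.mapRingHom H (L.sys.π n)) (K1.mk V) := by
    rw [K1.map_mk, K1.map_mk]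
    congr 1
    exact Units.ext hV.symm
  have h2 : K1.map (MonoidAlgebra.mapRingHom G i)
      (K1.map (MonoidAlgebra.mapDomainRingHom k f) (K1.mk U)) =
      K1.map (MonoidAlgebra.mapRingHom G (L.sys.π n))
        (K1.map (MonoidAlgebra.mapDomainRingHom (L.sys.B n) f) (K1.mk V)) := by
    rw [K1.map_map, K1.map_map, MonoidAlgebra.mapRingHom_comp_mapDomainRingHom,
      MonoidAlgebra.mapRingHom_comp_mapDomainRingHom, ← K1.map_map, ← K1.map_map, h1]
  rw [h2, l.dn_map L n, K1.map_mk, Coc.dt_mk]
  have h3 : (l.mapS (L.th n)).den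
      (Pool.Agent.H95.WH.K1.mapU (MonoidAlgebra.mapDomainRingHom (L.sys.B n) f) V) =
      ((l.mapS (L.th n)).comap f).den V := (l.mapS (L.th n)).Phi_comap f V.inv V.val
  rw [h3, Int.cast_natCast]
  exact Coc.card_den _ V

end DnG

end Pool.Agent.H71.DB

end
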