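import Pool.Agent.H94.FJ.M25
import Pool.Agent.H94.FJ.M26

/-! The parts of this file: H71.FJ.Prim, H71.FJ.Prim2, H71.DB.Sym, H71.FJ.Main. -/

section

/-!
# Reduction to primitive classes of cyclic groups
-/

set_option autoImplicit false

open Matrix
open scoped Classical

universe u v w

namespace Pool.Agent.H71.FJ

section Cls

variable {k : Type u} [Field k] {G : Type v} [Group G]

/-- The class in the colimit. -/
noncomputable def cl (F : FinSub G) (x : K0 (MonoidAlgebra k F.1)) : ColimK0 k G :=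
  QuotientAddGroup.mk (DirectSum.of (fun F : FinSub G => K0 (MonoidAlgebra k F.1)) F x)

/-- The quotient map. -/
noncomputable def toColim (k : Type u) [Field k] (G : Type v) [Group G] :
    SumK0 k G →+ ColimK0 k G := QuotientAddGroup.mk' (colimRel k G)

theorem cl_eq (F : FinSub G) (x : K0 (MonoidAlgebra k F.1)) :
    cl F x = toColim k G (DirectSum.of (fun F : FinSub G => K0 (MonoidAlgebra k F.1)) F x) := rfl

/-- `cl` as a homomorphism -/
noncomputable def clHom (k : Type u) [Field k] {G : Type v} [Group G] (F : FinSub G) :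
    K0 (MonoidAlgebra k F.1) →+ ColimK0 k G :=
  (toColim k G).comp (DirectSum.of (fun F : FinSub G => K0 (MonoidAlgebra k F.1)) F)

theorem clHom_apply (F : FinSub G) (x : K0 (MonoidAlgebra k F.1)) : clHom k F x = cl F x := rfl

theorem cl_conj (F F' : FinSub G) (g : G) (h : ∀ x ∈ F.1, g * x * g⁻¹ ∈ F'.1)
    (x : K0 (MonoidAlgebra k F.1)) :
    cl F' (K0.map (MonoidAlgebra.mapDomainRingHom k (conjHom g F.1 F'.1 h)) x) = cl F x := by
  rw [← sub_eq_zero, cl_eq, cl_eq, ← map_sub]
  exact (QuotientAddGroup.eq_zero_iff _).2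
    (AddSubgroup.subset_closure ⟨F, F', g, h, x, rfl⟩)

theorem assembly_cl (F : FinSub G) (x : K0 (MonoidAlgebra k F.1)) :
    assembly k G (cl F x) = K0.map (MonoidAlgebra.mapDomainRingHom k F.1.subtype) x := by
  exact DirectSum.toAddMonoid_of (fun F : FinSub G =>
    K0.map (MonoidAlgebra.mapDomainRingHom k F.1.subtype)) F x

theorem colim_induction {P : ColimK0 k G → Prop} (h0 : P 0)
    (h1 : ∀ (F : FinSub G) (x : K0 (MonoidAlgebra k F.1)), P (cl F x))
    (h2 : ∀ a b, P a → P b → P (a + b)) (z : ColimK0 k G) : P z := by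
  obtain ⟨y, rfl⟩ : ∃ y, toColim k G y = z := QuotientAddGroup.mk_surjective z
  induction y using DirectSum.induction_on with
  | zero => rw [map_zero]; exact h0
  | of F x => exact h1 F x
  | add x y hx hy => rw [map_add]; exact h2 _ _ hx hy

/-- the finite subgroup that is the range of a homomorphism -/
def rangeSub {H : Type v} [Group H] [Finite H] (ι : H →* G) : FinSub G :=
  ⟨ι.range, Set.finite_range ι⟩

/-- `ι` as a homomorphism onto its range -/
def toRange {H : Type v} [Group H] [Finite H] (ι : H →* G) : H →* (rangeSub ι).1 :=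
  ι.rangeRestrict

/-- The class of an element of `K₀(k[H])` for a homomorphism from a finite group `H` to `G`. -/
noncomputable def clh {H : Type v} [Group H] [Finite H] (ι : H →* G) (x : K0 (MonoidAlgebra k H)) :
    ColimK0 k G :=
  cl (rangeSub ι) (K0.map (MonoidAlgebra.mapDomainRingHom k (toRange ι)) x)

/-- `clh` as a homomorphism -/
noncomputable def clhHom (k : Type u) [Field k] {G : Type v} [Group G] {H : Type v} [Group H]
    [Finite H] (ι : H →* G) : K0 (MonoidAlgebra k H) →+ ColimK0 k G :=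
  (clHom k (rangeSub ι)).comp (K0.map (MonoidAlgebra.mapDomainRingHom k (toRange ι)))

theorem clhHom_apply {H : Type v} [Group H] [Finite H] (ι : H →* G) (x : K0 (MonoidAlgebra k H)) :
    clhHom k ι x = clh ι x := rfl

theorem clh_map {H H' : Type v} [Group H] [Finite H] [Group H'] [Finite H'] (ι : H →* G)
    (ι' : H' →* G) (φ : H →* H') (g : G) (h : ∀ a, ι' (φ a) = g * ι a * g⁻¹)
    (x : K0 (MonoidAlgebra k H)) :
    clh ι' (K0.map (MonoidAlgebra.mapDomainRingHom k φ) x) = clh ι x := by
  have hr : ∀ y ∈ (rangeSub ι).1, g * y * g⁻¹ ∈ (rangeSub ι').1 := by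
    rintro y ⟨a, rfl⟩
    exact ⟨φ a, h a⟩
  have h1 := cl_conj (rangeSub ι) (rangeSub ι') g hr
    (K0.map (MonoidAlgebra.mapDomainRingHom k (toRange ι)) x)
  refine Eq.trans ?_ h1
  have h2 : (toRange ι').comp φ =
      (conjHom g (rangeSub ι).1 (rangeSub ι').1 hr).comp (toRange ι) := by
    apply MonoidHom.ext
    intro a
    exact Subtype.ext (h a)
  have h3 : K0.map (MonoidAlgebra.mapDomainRingHom k (toRange ι'))
      (K0.map (MonoidAlgebra.mapDomainRingHom k φ) x) =
      K0.map (MonoidAlgebra.mapDomainRingHom k (conjHom g (rangeSub ι).1 (rangeSub ι').1 hr))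
        (K0.map (MonoidAlgebra.mapDomainRingHom k (toRange ι)) x) := by
    rw [K0.map_map, K0.map_map, ← MonoidAlgebra.mapDomainRingHom_comp, h2,
      ← MonoidAlgebra.mapDomainRingHom_comp]
  exact congrArg (cl (rangeSub ι')) h3

theorem clh_subtype (F : FinSub G) [Finite F.1] (x : K0 (MonoidAlgebra k F.1)) :
    clh F.1.subtype x = cl F x := by
  have hr : ∀ y ∈ F.1, (1 : G) * y * 1⁻¹ ∈ (rangeSub F.1.subtype).1 := by
    intro y hy
    refine ⟨⟨y, hy⟩, ?_⟩
    rw [one_mul, inv_one, mul_one]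
    rfl
  have h2 : toRange F.1.subtype = conjHom 1 F.1 (rangeSub F.1.subtype).1 hr := by
    apply MonoidHom.ext
    intro a
    apply Subtype.ext
    change (a : G) = 1 * (a : G) * 1⁻¹
    rw [one_mul, inv_one, mul_one]
  have h3 := cl_conj (k := k) F (rangeSub F.1.subtype) 1 hr x
  rw [← h2] at h3
  exact h3

end Cls

section Prim

theorem cyc_comm {D : Type w} [Group D] [IsCyclic D] (a b : D) : a * b = b * a := by
  obtain ⟨g, hg⟩ := IsCyclic.exists_generator (α := D)
  obtain ⟨m, rfl⟩ := Subgroup.mem_zpowers_iff.1 (hg a)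
  obtain ⟨n, rfl⟩ := Subgroup.mem_zpowers_iff.1 (hg b)
  rw [← _root_.zpow_add, ← _root_.zpow_add, add_comm]

theorem dlt_comm {D : Type w} [Group D] [IsCyclic D] (B : Type*) [CommRing B] (c a b : D) :
    dlt B c (a * b) = dlt B c (b * a) := by rw [cyc_comm]

variable {k : Type u} [Field k] {K : Type v} [Field K] (L : LiftSys K) (i : k →+* K)

/-- Classes whose lifted traces vanish at all elements that do not generate the cyclic group. -/
def IsPrim {D : Type w} [Group D] [IsCyclic D] (y : K0 (MonoidAlgebra k D)) : Prop :=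
  ∀ (n : ℕ) (c : D), Subgroup.zpowers c ≠ ⊤ → LT L n i (dlt (L.B n) c) (dlt_comm _ c) y = 0

theorem isPrim_map {D D' : Type w} [Group D] [IsCyclic D] [Group D'] [IsCyclic D'] (φ : D ≃* D')
    {y : K0 (MonoidAlgebra k D)} (hy : IsPrim L i y) :
    IsPrim L i (K0.map (MonoidAlgebra.mapDomainRingHom k φ.toMonoidHom) y) := by
  intro n c hc
  rw [LT_map]
  have h1 : ∀ a : D, dlt (L.B n) c (φ.toMonoidHom a) = dlt (L.B n) (φ.symm c) a := by
    intro a
    by_cases ha : a = φ.symm c
    · subst ha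
      have : φ.toMonoidHom (φ.symm c) = c := φ.apply_symm_apply c
      rw [this, dlt_self, dlt_self]
    · rw [dlt_ne _ ha, dlt_ne]
      intro h
      apply ha
      rw [← h]
      exact (φ.symm_apply_apply a).symm
  rw [LT_congr L n i _ (dlt_comm _ _) h1]
  apply hy
  intro htop
  apply hc
  rw [eq_top_iff]
  intro d _
  have h2 : φ.symm d ∈ Subgroup.zpowers (φ.symm c) := by rw [htop]; trivial
  obtain ⟨m, hm⟩ := Subgroup.mem_zpowers_iff.1 h2
  refine Subgroup.mem_zpowers_iff.2 ⟨m, ?_⟩
  apply φ.symm.injective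
  rw [map_zpow, hm]

theorem map_tw {D : Type w} [Group D] {A : Type*} {A' : Type*} [CommRing A] [CommRing A']
    (f : A →+* A') (X : Type*) [Fintype X] [DecidableEq X] [MulAction D X]
    (z : K0 (MonoidAlgebra A D)) :
    K0.map (MonoidAlgebra.mapRingHom D f) (K0.push (twR A X) z) =
      K0.push (twR A' X) (K0.map (MonoidAlgebra.mapRingHom D f) z) := by
  rw [K0.map_push, K0.push_map]
  have : (MonoidAlgebra.mapRingHom D f).mapMatrix.comp (twR A X) =
      (twR A' X).comp (MonoidAlgebra.mapRingHom D f) := by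
    apply RingHom.ext
    intro a
    induction a using MonoidAlgebra.induction_linear with
    | zero => simp
    | add a b ha hb => rw [map_add, map_add, ha, hb]
    | single g r =>
      ext p q : 1
      change MonoidAlgebra.mapRingHom D f (tw A X (MonoidAlgebra.single g r) p q) =
        tw A' X (MonoidAlgebra.mapRingHom D f (MonoidAlgebra.single g r)) p q
      rw [MonoidAlgebra.mapRingHom_single, tw_single, tw_single]
      split_ifs
      · rw [MonoidAlgebra.mapRingHom_single]
      · rw [map_zero]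
  rw [this]

/-- lifting commutes with the twist -/
theorem liftK_tw {D : Type w} [Group D] (n : ℕ) (X : Type*) [Fintype X] [DecidableEq X]
    [MulAction D X] (x : K0 (MonoidAlgebra k D)) :
    liftK L n i D (K0.push (twR k X) x) = K0.push (twR (L.B n) X) (liftK L n i D x) := by
  apply K0.map_injective (mapRingHom_surj (L.surj n) D) ((L.nil n).monoidAlgebra D)
  rw [map_liftK, map_tw, map_tw, map_liftK]

end Prim

end Pool.Agent.H71.FJ

end

section

/-!
# Decomposition into primitive classes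
-/

set_option autoImplicit false

open Matrix
open scoped Classical

universe t u v w

namespace Pool.Agent.H71.FJ

/-- Elements with a nonzero multiple in `A`. -/
def Sat {M : Type u} [AddCommGroup M] (A : AddSubgroup M) : AddSubgroup M where
  carrier := {z | ∃ m : ℤ, m ≠ 0 ∧ m • z ∈ A}
  zero_mem' := ⟨1, one_ne_zero, by rw [smul_zero]; exact A.zero_mem⟩
  add_mem' := by
    rintro a b ⟨m, hm, h1⟩ ⟨n, hn, h2⟩
    refine ⟨m * n, mul_ne_zero hm hn, ?_⟩
    rw [smul_add]
    refine A.add_mem ?_ ?_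
    · rw [mul_comm, mul_smul]
      exact A.zsmul_mem h1 n
    · rw [mul_smul]
      exact A.zsmul_mem h2 m
  neg_mem' := by
    rintro a ⟨m, hm, h1⟩
    exact ⟨m, hm, by rw [smul_neg]; exact A.neg_mem h1⟩

theorem Sat_of_smul {M : Type u} [AddCommGroup M] {A : AddSubgroup M} {m : ℤ} (hm : m ≠ 0) {z : M}
    (h : m • z ∈ Sat A) : z ∈ Sat A := by
  obtain ⟨n, hn, h⟩ := h
  exact ⟨n * m, mul_ne_zero hn hm, by rwa [mul_smul]⟩

theorem mem_Sat {M : Type u} [AddCommGroup M] {A : AddSubgroup M} {z : M} (h : z ∈ A) :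
    z ∈ Sat A := ⟨1, one_ne_zero, by rwa [one_smul]⟩

section TTw

variable {B : Type u} [CommRing B] {D : Type w} [Group D] [Fintype D]

theorem fixN_comm (E : Subgroup D) (f : D → B) (hf : ∀ x y, f (x * y) = f (y * x)) (x y : D) :
    (fixN E (x * y) : B) * f (x * y) = fixN E (y * x) * f (y * x) := by
  rw [perm_comm E x y, hf]

theorem T_tw (E : Subgroup D) (f : D → B) (hf : ∀ x y, f (x * y) = f (y * x))
    (x : K0 (MonoidAlgebra B D)) :
    T f hf (K0.push (twR B (D ⧸ E)) x) =
      T (fun h => (fixN E h : B) * f h) (fixN_comm E f hf) x := by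
  rw [T, K0.tr_push]
  refine K0.tr_congr _ _ ?_ x
  ext h r
  simp only [AddMonoidHom.comp_apply, MonoidAlgebra.singleAddHom_apply]
  rw [clsFun_single]
  change clsFun f (trace (tw B (D ⧸ E) (MonoidAlgebra.single h r))) = _
  simp only [trace, diag, tw_single]
  rw [← Finset.sum_filter, Finset.sum_const, map_nsmul, clsFun_single, nsmul_eq_mul, fixN]
  ring

theorem fixN_cyc [IsCyclic D] (E : Subgroup D) (c : D) :
    Nat.card E * fixN E c = if c ∈ E then Nat.card D else 0 := by
  rw [card_mul_fixN]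
  have : ∀ y : D, y⁻¹ * c * y = c := by
    intro y
    rw [cyc_comm y⁻¹ c, mul_assoc, inv_mul_cancel, mul_one]
  simp only [this]
  split_ifs
  · rw [Finset.sum_const, Finset.card_univ, smul_eq_mul, mul_one, Nat.card_eq_fintype_card]
  · rw [Finset.sum_const_zero]

end TTw

section

variable {k : Type u} [Field k] {K : Type t} [Field K] (L : LiftSys K) (i : k →+* K)

theorem LT_tw {D : Type w} [Group D] [Fintype D] [IsCyclic D] (n : ℕ) (E : Subgroup D) (c : D)
    (x : K0 (MonoidAlgebra k D)) :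
    LT L n i (dlt (L.B n) c) (dlt_comm _ c) (K0.push (twR k (D ⧸ E)) x) =
      (fixN E c : L.B n) * LT L n i (dlt (L.B n) c) (dlt_comm _ c) x := by
  simp only [LT, AddMonoidHom.comp_apply]
  rw [liftK_tw, T_tw]
  have h1 : ∀ h : D, (fixN E h : L.B n) * dlt (L.B n) c h = (fixN E c : L.B n) * dlt (L.B n) c h := by
    intro h
    by_cases hh : h = c
    · rw [hh]
    · rw [dlt_ne _ hh, mul_zero, mul_zero]
  rw [T_congr _ (fun x y => by rw [dlt_comm _ c x y]) h1,
    T_mul _ _ (dlt_comm _ c)]

theorem exists_prim (D : Type w) [Group D] [Fintype D] [IsCyclic D] :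
    ∃ κ : Subgroup D → ℤ, ∀ x : K0 (MonoidAlgebra k D),
      IsPrim L i ((Nat.card D : ℤ) • x +
        ∑ E ∈ (Finset.univ : Finset (Subgroup D)).erase ⊤,
          (κ E * Nat.card E) • K0.push (twR k (D ⧸ E)) x) := by
  obtain ⟨κ, hκ⟩ := exists_nu ((Finset.univ : Finset (Subgroup D)).erase ⊤) (fun _ => -1)
  refine ⟨κ, fun x n c hc => ?_⟩
  have h0 := hκ (Subgroup.zpowers c) (Finset.mem_erase.2 ⟨hc, Finset.mem_univ _⟩)
  simp only [Subgroup.zpowers_le] at h0
  rw [map_add, map_zsmul, map_sum]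
  simp only [map_zsmul, LT_tw]
  have h1 : ∀ E : Subgroup D, (κ E * (Nat.card E : ℤ)) • ((fixN E c : L.B n) *
      LT L n i (dlt (L.B n) c) (dlt_comm _ c) x) =
      ((if c ∈ E then κ E else 0 : ℤ) * (Nat.card D : ℤ)) •
        LT L n i (dlt (L.B n) c) (dlt_comm _ c) x := by
    intro E
    have h2 := fixN_cyc E c
    have h3 : ((fixN E c : L.B n) * LT L n i (dlt (L.B n) c) (dlt_comm _ c) x) =
      (fixN E c : ℤ) • LT L n i (dlt (L.B n) c) (dlt_comm _ c) x := by
      rw [zsmul_eq_mul, Int.cast_natCast]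
    rw [h3, smul_smul]
    congr 1
    rw [mul_assoc, ← Nat.cast_mul, h2]
    split_ifs <;> simp
  rw [Finset.sum_congr rfl (fun E _ => h1 E), ← Finset.sum_smul, ← Finset.sum_mul,
    ← Finset.sum_filter, h0, ← add_smul]
  simp

/-- The classes in the colimit represented by primitive classes of finite cyclic subgroups of order
invertible in `k`. -/
def PrimSet (G : Type v) [Group G] : Set (ColimK0 k G) :=
  {z | ∃ (D : FinSub G) (_ : IsCyclic D.1), (∀ h : D.1, (orderOf h : k) ≠ 0) ∧
    ∃ y : K0 (MonoidAlgebra k D.1), IsPrim L i y ∧ z = cl D y}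

variable {G : Type v} [Group G]

theorem clh_prim {H : Type v} [Group H] [Finite H] [IsCyclic H]
    (hH : ∀ h : H, (orderOf h : k) ≠ 0) (ι : H →* G) (hι : Function.Injective ι)
    (y : K0 (MonoidAlgebra k H)) (hy : IsPrim L i y) : clh ι y ∈ PrimSet L i G := by
  let e : H ≃* (rangeSub ι).1 := MonoidHom.ofInjective hι
  have he : e.toMonoidHom = toRange ι := rfl
  have hcyc : IsCyclic (rangeSub ι).1 := isCyclic_of_surjective e e.surjective
  refine ⟨rangeSub ι, hcyc, ?_, K0.map (MonoidAlgebra.mapDomainRingHom k (toRange ι)) y, ?_, rfl⟩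
  · intro h
    obtain ⟨a, rfl⟩ := e.surjective h
    rw [MulEquiv.orderOf_eq]
    exact hH a
  · rw [← he]
    exact isPrim_map L i e hy

theorem prim_decomp (N : ℕ) : ∀ (H : Type v) [Group H] [Finite H] [IsCyclic H],
    Nat.card H = N → (∀ h : H, (orderOf h : k) ≠ 0) → ∀ ι : H →* G, Function.Injective ι →
    ∀ x : K0 (MonoidAlgebra k H), clh ι x ∈ Sat (AddSubgroup.closure (PrimSet L i G)) := by
  induction N using Nat.strong_induction_on with
  | _ N ih =>
    intro H _ _ _ hN hH ι hι x
    have : Fintype H := Fintype.ofFinite H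
    obtain ⟨κ, hκ⟩ := exists_prim L i H
    have h1 := clh_prim L i hH ι hι _ (hκ x)
    have h2 : ∀ E ∈ (Finset.univ : Finset (Subgroup H)).erase ⊤,
        clh ι (K0.push (twR k (H ⧸ E)) x) ∈ Sat (AddSubgroup.closure (PrimSet L i G)) := by
      intro E hE
      have hE' : E ≠ ⊤ := (Finset.mem_erase.1 hE).1
      rw [← ind_res, clh_map (ι.comp E.subtype) ι E.subtype 1 (by intro a; simp)]
      refine ih (Nat.card E) ?_ E rfl ?_ _ ?_ _
      · rw [← hN]
        refine lt_of_le_of_ne (Nat.le_of_dvd Nat.card_pos (Subgroup.card_subgroup_dvd_card E)) ?_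
        intro h
        exact hE' (Subgroup.eq_top_of_card_eq E h)
      · intro h
        rw [← Subgroup.orderOf_coe]
        exact hH _
      · exact hι.comp E.subtype_injective
    have hc : ((Nat.card H : ℕ) : ℤ) ≠ 0 := by exact_mod_cast Nat.card_pos.ne'
    refine Sat_of_smul hc ?_
    have h3 : (Nat.card H : ℤ) • clh ι x = clh ι ((Nat.card H : ℤ) • x +
        ∑ E ∈ (Finset.univ : Finset (Subgroup H)).erase ⊤,
          (κ E * Nat.card E) • K0.push (twR k (H ⧸ E)) x) -
        ∑ E ∈ (Finset.univ : Finset (Subgroup H)).erase ⊤,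
          (κ E * Nat.card E) • clh ι (K0.push (twR k (H ⧸ E)) x) := by
      simp only [← clhHom_apply]
      rw [map_add, map_zsmul, map_sum]
      simp only [map_zsmul]
      abel
    rw [h3]
    refine AddSubgroup.sub_mem _ (mem_Sat (AddSubgroup.subset_closure h1)) ?_
    exact AddSubgroup.sum_mem _ fun E hE => AddSubgroup.zsmul_mem _ (h2 E hE) _

/-- Every class has a nonzero multiple which is a sum of primitive classes. -/
theorem mem_sat (z : ColimK0 k G) : z ∈ Sat (AddSubgroup.closure (PrimSet L i G)) := by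
  induction z using colim_induction with
  | h0 => exact AddSubgroup.zero_mem _
  | h2 a b ha hb => exact AddSubgroup.add_mem _ ha hb
  | h1 F x =>
    have := F.2
    have : Fintype F.1 := Fintype.ofFinite F.1
    obtain ⟨s, c, h1, h2⟩ := exists_artin k F.1
    have hc : ((Nat.card F.1 : ℕ) : ℤ) ≠ 0 := by exact_mod_cast Nat.card_pos.ne'
    refine Sat_of_smul hc ?_
    rw [← clh_subtype, ← clhHom_apply, ← map_zsmul, h2, map_sum]
    refine AddSubgroup.sum_mem _ fun D hD => ?_
    rw [map_zsmul]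
    refine AddSubgroup.zsmul_mem _ ?_ _
    rw [clhHom_apply, clh_map (F.1.subtype.comp D.subtype) F.1.subtype D.subtype 1
      (by intro a; simp)]
    obtain ⟨h3, h4⟩ := h1 D hD
    refine prim_decomp L i (Nat.card D) D rfl ?_ _ ?_ _
    · intro h
      rw [← Subgroup.orderOf_coe]
      exact h4 _ h.2
    · exact F.1.subtype_injective.comp D.subtype_injective

end

end Pool.Agent.H71.FJ

end

section

/-!
# The symbols; reduction to primitive classes of cyclic groups
-/

set_option autoImplicit false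

open Matrix
open scoped Classical

universe t u v w

namespace Pool.Agent.H71.DB

open Pool.Agent.H71.FJ (IdemMat K0 K0.mk K0.map K0.map_map K0.push LiftSys IsPrim isPrim_map exists_prim Sat Sat_of_smul mem_Sat twR incl lamR ind_res exists_artin dlt dlt_comm cyc_comm LT)
open Pool.Agent.H95.WH (K1 K1.mk K1.map K1.map_mk FamSub conjHom FinSub)

section Sym

variable {k : Type u} [CommRing k] {G : Type v} [Group G]

/-- The projection. -/
noncomputable def toH (k : Type u) [CommRing k] (G : Type v) [Group G] :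
    FreeAbelianGroup (Sym k G) →+ H1K0 k G := QuotientAddGroup.mk' (SymRel k G)

/-- The symbol `[F, x, z]`. -/
noncomputable def sy (F : FamSub G FinSub) (x : K0 (MonoidAlgebra k F.1))
    (z : Subgroup.centralizer (F.1 : Set G)) : H1K0 k G :=
  QuotientAddGroup.mk (FreeAbelianGroup.of ⟨F, x, z⟩)

theorem toH_eq_zero {w : FreeAbelianGroup (Sym k G)} (h : w ∈ SymRel k G) : toH k G w = 0 :=
  (QuotientAddGroup.eq_zero_iff _).2 h

theorem sy_add (F : FamSub G FinSub) (x y : K0 (MonoidAlgebra k F.1))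
    (z : Subgroup.centralizer (F.1 : Set G)) : sy F (x + y) z = sy F x z + sy F y z := by
  have h : toH k G (symX k G F x y z) = 0 :=
    toH_eq_zero (AddSubgroup.subset_closure (Or.inl (Or.inl ⟨F, x, y, z, rfl⟩)))
  rw [symX, map_sub, map_add, sub_eq_zero] at h
  exact h

theorem sy_mul (F : FamSub G FinSub) (x : K0 (MonoidAlgebra k F.1))
    (z z' : Subgroup.centralizer (F.1 : Set G)) : sy F x (z * z') = sy F x z + sy F x z' := by
  have h : toH k G (symZ k G F x z z') = 0 :=
    toH_eq_zero (AddSubgroup.subset_closure (Or.inl (Or.inr ⟨F, x, z, z', rfl⟩)))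
  rw [symZ, map_sub, map_add, sub_eq_zero] at h
  exact h

theorem sy_conj (F F' : FamSub G FinSub) (g : G) (h : ∀ x ∈ F.1, g * x * g⁻¹ ∈ F'.1)
    (x : K0 (MonoidAlgebra k F.1)) (z : Subgroup.centralizer (F'.1 : Set G)) :
    sy F' (K0.map (MonoidAlgebra.mapDomainRingHom k (conjHom g F.1 F'.1 h)) x) z =
      sy F x (conjCent g F.1 F'.1 h z) := by
  have h' : toH k G (symC k G F F' g h x z) = 0 :=
    toH_eq_zero (AddSubgroup.subset_closure (Or.inr ⟨F, F', g, h, x, z, rfl⟩))
  rw [symC, map_sub, sub_eq_zero] at h'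
  exact h'

/-- The assembly map on the symbols with values in `K₁(k[G])`. -/
noncomputable def asmH (k : Type u) [CommRing k] (G : Type v) [Group G] :
    H1K0 k G →+ K1 (MonoidAlgebra k G) := assemblyH k G

theorem asmH_sy (F : FamSub G FinSub) (x : K0 (MonoidAlgebra k F.1))
    (z : Subgroup.centralizer (F.1 : Set G)) :
    asmH k G (sy F x z) = gbass k F.1.subtype (z : G) (cent_comm z) x := by
  have h : FreeAbelianGroup.lift (symVal k) (symOf k G F x z) = symVal k ⟨F, x, z⟩ :=
    FreeAbelianGroup.lift_apply_of _ _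
  exact h

/-- the symbol as a homomorphism in the `K₀`-variable -/
noncomputable def syH (F : FamSub G FinSub) (z : Subgroup.centralizer (F.1 : Set G)) :
    K0 (MonoidAlgebra k F.1) →+ H1K0 k G :=
  AddMonoidHom.mk' (fun x => sy F x z) (fun x y => sy_add F x y z)

theorem syH_apply (F : FamSub G FinSub) (x : K0 (MonoidAlgebra k F.1))
    (z : Subgroup.centralizer (F.1 : Set G)) : syH F z x = sy F x z := rfl

theorem h1k0_induction {P : H1K0 k G → Prop} (h0 : P 0)
    (h1 : ∀ (F : FamSub G FinSub) (x : K0 (MonoidAlgebra k F.1))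
      (z : Subgroup.centralizer (F.1 : Set G)), P (sy F x z))
    (h2 : ∀ a b, P a → P b → P (a + b)) (h3 : ∀ a, P a → P (-a)) (w : H1K0 k G) : P w := by
  obtain ⟨y, rfl⟩ : ∃ y, toH k G y = w := QuotientAddGroup.mk_surjective w
  induction y using FreeAbelianGroup.induction_on with
  | zero => rw [map_zero]; exact h0
  | of s => exact h1 s.F s.x s.z
  | neg s _ =>
    rw [map_neg]
    exact h3 _ (h1 s.F s.x s.z)
  | add x y hx hy => rw [map_add]; exact h2 _ _ hx hy

/-- the finite subgroup that is the range of a homomorphism -/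
def rangeSub {H : Type v} [Group H] [Finite H] (f : H →* G) : FamSub G FinSub :=
  ⟨f.range, Set.finite_range f⟩

/-- `f` as a homomorphism onto its range -/
def toRange {H : Type v} [Group H] [Finite H] (f : H →* G) : H →* (rangeSub f).1 :=
  f.rangeRestrict

theorem mem_cent_range {H : Type v} [Group H] [Finite H] (f : H →* G) (z : G)
    (hz : ∀ a, f a * z = z * f a) :
    z ∈ Subgroup.centralizer ((rangeSub f).1 : Set G) := by
  rw [Subgroup.mem_centralizer_iff]
  rintro _ ⟨a, rfl⟩
  exact hz a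

/-- The symbol for a homomorphism from a finite group. -/
noncomputable def syh {H : Type v} [Group H] [Finite H] (f : H →* G)
    (x : K0 (MonoidAlgebra k H)) (z : G) (hz : ∀ a, f a * z = z * f a) : H1K0 k G :=
  sy (rangeSub f) (K0.map (MonoidAlgebra.mapDomainRingHom k (toRange f)) x)
    ⟨z, mem_cent_range f z hz⟩

/-- `syh` as a homomorphism in the `K₀`-variable -/
noncomputable def syhH {H : Type v} [Group H] [Finite H] (f : H →* G) (z : G)
    (hz : ∀ a, f a * z = z * f a) : K0 (MonoidAlgebra k H) →+ H1K0 k G :=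
  (syH (rangeSub f) ⟨z, mem_cent_range f z hz⟩).comp
    (K0.map (MonoidAlgebra.mapDomainRingHom k (toRange f)))

theorem syhH_apply {H : Type v} [Group H] [Finite H] (f : H →* G)
    (x : K0 (MonoidAlgebra k H)) (z : G) (hz : ∀ a, f a * z = z * f a) :
    syhH f z hz x = syh f x z hz := rfl

theorem syh_map {H H' : Type v} [Group H] [Finite H] [Group H'] [Finite H'] (f : H →* G)
    (f' : H' →* G) (φ : H →* H') (g : G) (h : ∀ a, f' (φ a) = g * f a * g⁻¹)
    (x : K0 (MonoidAlgebra k H)) (z z' : G) (hz : ∀ a, f a * z = z * f a)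
    (hz' : ∀ a, f' a * z' = z' * f' a) (hzz : z = g⁻¹ * z' * g) :
    syh f' (K0.map (MonoidAlgebra.mapDomainRingHom k φ) x) z' hz' = syh f x z hz := by
  subst hzz
  have hr : ∀ y ∈ (rangeSub f).1, g * y * g⁻¹ ∈ (rangeSub f').1 := by
    rintro y ⟨a, rfl⟩
    exact ⟨φ a, h a⟩
  have h1 := sy_conj (rangeSub f) (rangeSub f') g hr
    (K0.map (MonoidAlgebra.mapDomainRingHom k (toRange f)) x) ⟨z', mem_cent_range f' z' hz'⟩
  refine Eq.trans ?_ h1
  have h2 : (toRange f').comp φ =
      (conjHom g (rangeSub f).1 (rangeSub f').1 hr).comp (toRange f) := by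
    apply MonoidHom.ext
    intro a
    exact Subtype.ext (h a)
  have h3 : K0.map (MonoidAlgebra.mapDomainRingHom k (toRange f'))
      (K0.map (MonoidAlgebra.mapDomainRingHom k φ) x) =
      K0.map (MonoidAlgebra.mapDomainRingHom k (conjHom g (rangeSub f).1 (rangeSub f').1 hr))
        (K0.map (MonoidAlgebra.mapDomainRingHom k (toRange f)) x) := by
    rw [K0.map_map, K0.map_map, ← MonoidAlgebra.mapDomainRingHom_comp, h2,
      ← MonoidAlgebra.mapDomainRingHom_comp]
  exact congrArg (fun y => sy (rangeSub f') y ⟨z', mem_cent_range f' z' hz'⟩) h3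

theorem syh_subtype (F : FamSub G FinSub) [Finite F.1] (x : K0 (MonoidAlgebra k F.1))
    (z : Subgroup.centralizer (F.1 : Set G)) :
    syh F.1.subtype x z (cent_comm z) = sy F x z := by
  have hr : ∀ y ∈ F.1, (1 : G) * y * 1⁻¹ ∈ (rangeSub F.1.subtype).1 := by
    intro y hy
    refine ⟨⟨y, hy⟩, ?_⟩
    rw [one_mul, inv_one, mul_one]
    rfl
  have h2 : toRange F.1.subtype = conjHom 1 F.1 (rangeSub F.1.subtype).1 hr := by
    apply MonoidHom.ext
    intro a
    apply Subtype.ext
    change (a : G) = 1 * (a : G) * 1⁻¹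
    rw [one_mul, inv_one, mul_one]
  have h3 := sy_conj (k := k) F (rangeSub F.1.subtype) 1 hr x
    ⟨z, mem_cent_range F.1.subtype z (cent_comm z)⟩
  rw [← h2] at h3
  have h4 : conjCent 1 F.1 (rangeSub F.1.subtype).1 hr
      ⟨z, mem_cent_range F.1.subtype z (cent_comm z)⟩ = z := by
    apply Subtype.ext
    change (1 : G)⁻¹ * (z : G) * 1 = z
    rw [inv_one, one_mul, mul_one]
  rw [h4] at h3
  exact h3

end Sym

section Prim

variable {k : Type u} [Field k] {K : Type t} [Field K] (L : LiftSys K) (i : k →+* K)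
  {G : Type v} [Group G]

/-- The symbols with primitive classes of finite cyclic subgroups of order invertible in `k`. -/
def PSet (G : Type v) [Group G] : Set (H1K0 k G) :=
  {w | ∃ (D : FamSub G FinSub) (_ : IsCyclic D.1), (∀ h : D.1, (orderOf h : k) ≠ 0) ∧
    ∃ y : K0 (MonoidAlgebra k D.1), IsPrim L i y ∧
      ∃ z : Subgroup.centralizer (D.1 : Set G), w = sy D y z}

theorem syh_prim {H : Type v} [Group H] [Finite H] [IsCyclic H]
    (hH : ∀ h : H, (orderOf h : k) ≠ 0) (f : H →* G) (hf : Function.Injective f)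
    (y : K0 (MonoidAlgebra k H)) (hy : IsPrim L i y) (z : G) (hz : ∀ a, f a * z = z * f a) :
    syh f y z hz ∈ PSet L i G := by
  let e : H ≃* (rangeSub f).1 := MonoidHom.ofInjective hf
  have he : e.toMonoidHom = toRange f := rfl
  have hcyc : IsCyclic (rangeSub f).1 := isCyclic_of_surjective e e.surjective
  refine ⟨rangeSub f, hcyc, ?_, K0.map (MonoidAlgebra.mapDomainRingHom k (toRange f)) y, ?_,
    ⟨z, mem_cent_range f z hz⟩, rfl⟩
  · intro h
    obtain ⟨a, rfl⟩ := e.surjective h
    rw [MulEquiv.orderOf_eq]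
    exact hH a
  · rw [← he]
    exact isPrim_map L i e hy

theorem prim_decomp (N : ℕ) : ∀ (H : Type v) [Group H] [Finite H] [IsCyclic H],
    Nat.card H = N → (∀ h : H, (orderOf h : k) ≠ 0) → ∀ f : H →* G, Function.Injective f →
    ∀ (x : K0 (MonoidAlgebra k H)) (z : G) (hz : ∀ a, f a * z = z * f a),
      syh f x z hz ∈ Sat (AddSubgroup.closure (PSet L i G)) := by
  induction N using Nat.strong_induction_on with
  | _ N ih =>
    intro H _ _ _ hN hH f hf x z hz
    have : Fintype H := Fintype.ofFinite H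
    obtain ⟨κ, hκ⟩ := exists_prim L i H
    have h1 := syh_prim L i hH f hf _ (hκ x) z hz
    have h2 : ∀ E ∈ (Finset.univ : Finset (Subgroup H)).erase ⊤,
        syh f (K0.push (twR k (H ⧸ E)) x) z hz ∈ Sat (AddSubgroup.closure (PSet L i G)) := by
      intro E hE
      have hE' : E ≠ ⊤ := (Finset.mem_erase.1 hE).1
      rw [← ind_res, syh_map (f.comp E.subtype) f E.subtype 1 (by intro a; simp) _ z z
        (fun a => hz _) hz (by simp)]
      refine ih (Nat.card E) ?_ E rfl ?_ _ ?_ _ _ _
      · rw [← hN]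
        refine lt_of_le_of_ne (Nat.le_of_dvd Nat.card_pos (Subgroup.card_subgroup_dvd_card E)) ?_
        intro h
        exact hE' (Subgroup.eq_top_of_card_eq E h)
      · intro h
        rw [← Subgroup.orderOf_coe]
        exact hH _
      · exact hf.comp E.subtype_injective
    have hc : ((Nat.card H : ℕ) : ℤ) ≠ 0 := by exact_mod_cast Nat.card_pos.ne'
    refine Sat_of_smul hc ?_
    have h3 : (Nat.card H : ℤ) • syh f x z hz = syh f ((Nat.card H : ℤ) • x +
        ∑ E ∈ (Finset.univ : Finset (Subgroup H)).erase ⊤,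
          (κ E * Nat.card E) • K0.push (twR k (H ⧸ E)) x) z hz -
        ∑ E ∈ (Finset.univ : Finset (Subgroup H)).erase ⊤,
          (κ E * Nat.card E) • syh f (K0.push (twR k (H ⧸ E)) x) z hz := by
      simp only [← syhH_apply]
      rw [map_add, map_zsmul, map_sum]
      simp only [map_zsmul]
      abel
    rw [h3]
    refine AddSubgroup.sub_mem _ (mem_Sat (AddSubgroup.subset_closure h1)) ?_
    exact AddSubgroup.sum_mem _ fun E hE => AddSubgroup.zsmul_mem _ (h2 E hE) _

/-- Every element has a nonzero multiple which is a combination of primitive symbols. -/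
theorem mem_sat (w : H1K0 k G) : w ∈ Sat (AddSubgroup.closure (PSet L i G)) := by
  induction w using h1k0_induction with
  | h0 => exact AddSubgroup.zero_mem _
  | h2 a b ha hb => exact AddSubgroup.add_mem _ ha hb
  | h3 a ha => exact AddSubgroup.neg_mem _ ha
  | h1 F x z =>
    have : Finite F.1 := F.2
    have : Fintype F.1 := Fintype.ofFinite F.1
    obtain ⟨s, c, h1, h2⟩ := exists_artin k F.1
    have hc : ((Nat.card F.1 : ℕ) : ℤ) ≠ 0 := by exact_mod_cast Nat.card_pos.ne'
    refine Sat_of_smul hc ?_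
    rw [← syh_subtype, ← syhH_apply, ← map_zsmul, h2, map_sum]
    refine AddSubgroup.sum_mem _ fun D hD => ?_
    rw [map_zsmul]
    refine AddSubgroup.zsmul_mem _ ?_ _
    rw [syhH_apply, incl, syh_map (F.1.subtype.comp D.subtype) F.1.subtype D.subtype 1
      (by intro a; simp) _ z z (fun a => cent_comm z _) (cent_comm z) (by simp)]
    obtain ⟨h3, h4⟩ := h1 D hD
    refine prim_decomp L i (Nat.card D) D rfl ?_ _ ?_ _ _ _
    · intro h
      rw [← Subgroup.orderOf_coe]
      exact h4 _ h.2
    · exact F.1.subtype_injective.comp D.subtype_injective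

end Prim

end Pool.Agent.H71.DB

end

section

/-!
# Rational injectivity of the degree zero assembly map
-/

set_option autoImplicit false

open Matrix
open scoped Classical

universe t u v w

namespace Pool.Agent.H71.FJ

section

variable {k : Type u} [Field k] {K : Type t} [Field K] (L : LiftSys K) (i : k →+* K)

theorem isPrim_zero {D : Type w} [Group D] [IsCyclic D] :
    IsPrim L i (0 : K0 (MonoidAlgebra k D)) := by
  intro n c _
  rw [map_zero]

theorem isPrim_add {D : Type w} [Group D] [IsCyclic D] {x y : K0 (MonoidAlgebra k D)}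
    (hx : IsPrim L i x) (hy : IsPrim L i y) : IsPrim L i (x + y) := by
  intro n c hc
  rw [map_add, hx n c hc, hy n c hc, add_zero]

theorem isPrim_neg {D : Type w} [Group D] [IsCyclic D] {x : K0 (MonoidAlgebra k D)}
    (hx : IsPrim L i x) : IsPrim L i (-x) := by
  intro n c hc
  rw [map_neg, hx n c hc, neg_zero]

variable {G : Type v} [Group G]

theorem primSet_neg {z : ColimK0 k G} (hz : z ∈ PrimSet L i G) : -z ∈ PrimSet L i G := by
  obtain ⟨D, hc, ho, y, hy, rfl⟩ := hz
  refine ⟨D, hc, ho, -y, isPrim_neg L i hy, ?_⟩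
  rw [← clHom_apply, ← clHom_apply, map_neg]

/-- the class function of the conjugacy class of `c` -/
noncomputable def cf (B : Type w) [CommRing B] (c h : G) : B := if IsConj c h then 1 else 0

theorem cf_comm (B : Type w) [CommRing B] (c x y : G) : cf B c (x * y) = cf B c (y * x) := by
  have h : IsConj (x * y) (y * x) := isConj_iff.2 ⟨x⁻¹, by group⟩
  unfold cf
  by_cases h1 : IsConj c (x * y)
  · rw [if_pos h1, if_pos (h1.trans h)]
  · rw [if_neg h1, if_neg (fun h2 => h1 (h2.trans h.symm))]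

/-- The trace functional of the conjugacy class of `c` on a class from a cyclic subgroup. -/
theorem LT_cf (n : ℕ) (c : G) (D : FinSub G) [Fintype D.1] [IsCyclic D.1]
    (y : K0 (MonoidAlgebra k D.1)) :
    LT L n i (cf (L.B n) c) (cf_comm _ c) (assembly k G (cl D y)) =
      ∑ d ∈ Finset.univ.filter (fun d : D.1 => IsConj c (d : G)),
        LT L n i (dlt (L.B n) d) (dlt_comm _ d) y := by
  rw [assembly_cl, LT_map, LT_eq_sum L n i cyc_comm, Finset.sum_filter]
  apply Finset.sum_congr rfl
  intro d _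
  change cf (L.B n) c (d : G) * _ = _
  unfold cf
  split_ifs
  · rw [one_mul]
  · rw [zero_mul]

/-- A class from a cyclic subgroup `D₀`. -/
def Over (D₀ : FinSub G) [IsCyclic D₀.1] (z : ColimK0 k G) : Prop :=
  ∃ y : K0 (MonoidAlgebra k D₀.1), IsPrim L i y ∧ z = cl D₀ y

theorem over_of_conj (D₀ D : FinSub G) [IsCyclic D₀.1] [IsCyclic D.1] (c : D₀.1) (d : D.1)
    (hc : Subgroup.zpowers c = ⊤) (hd : Subgroup.zpowers d = ⊤) (h : IsConj (c : G) (d : G))
    (y : K0 (MonoidAlgebra k D.1)) (hy : IsPrim L i y) : Over L i D₀ (cl D y) := by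
  obtain ⟨g, hg⟩ := isConj_iff.1 h
  have hg' : g⁻¹ * (d : G) * g⁻¹⁻¹ = c := by rw [← hg]; group
  have h1 : ∀ x ∈ D₀.1, g * x * g⁻¹ ∈ D.1 := by
    intro x hx
    have : (⟨x, hx⟩ : D₀.1) ∈ Subgroup.zpowers c := by rw [hc]; trivial
    obtain ⟨m, hm⟩ := Subgroup.mem_zpowers_iff.1 this
    have hm' : (c : G) ^ m = x := by
      rw [← Subgroup.coe_zpow, hm]
    rw [← hm', ← conj_zpow, hg]
    exact D.1.zpow_mem d.2 m
  have h2 : ∀ x ∈ D.1, g⁻¹ * x * g⁻¹⁻¹ ∈ D₀.1 := by
    intro x hx
    have : (⟨x, hx⟩ : D.1) ∈ Subgroup.zpowers d := by rw [hd]; trivial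
    obtain ⟨m, hm⟩ := Subgroup.mem_zpowers_iff.1 this
    have hm' : (d : G) ^ m = x := by
      rw [← Subgroup.coe_zpow, hm]
    rw [← hm', ← conj_zpow, hg']
    exact D₀.1.zpow_mem c.2 m
  let e : D.1 ≃* D₀.1 :=
    { toFun := conjHom g⁻¹ D.1 D₀.1 h2
      invFun := conjHom g D₀.1 D.1 h1
      left_inv := by
        intro x
        apply Subtype.ext
        change g * (g⁻¹ * (x : G) * g⁻¹⁻¹) * g⁻¹ = x
        group
      right_inv := by
        intro x
        apply Subtype.ext
        change g⁻¹ * (g * (x : G) * g⁻¹) * g⁻¹⁻¹ = x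
        group
      map_mul' := map_mul _ }
  refine ⟨K0.map (MonoidAlgebra.mapDomainRingHom k e.toMonoidHom) y, isPrim_map L i e hy, ?_⟩
  exact (cl_conj D D₀ g⁻¹ h2 y).symm

theorem LT_cf_not_over (n : ℕ) (D₀ D : FinSub G) [Fintype D.1] [IsCyclic D₀.1] [IsCyclic D.1]
    (c : D₀.1) (hc : Subgroup.zpowers c = ⊤) (y : K0 (MonoidAlgebra k D.1)) (hy : IsPrim L i y)
    (h : ¬ Over L i D₀ (cl D y)) :
    LT L n i (cf (L.B n) (c : G)) (cf_comm _ (c : G)) (assembly k G (cl D y)) = 0 := by
  rw [LT_cf]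
  apply Finset.sum_eq_zero
  intro d hd
  apply hy
  intro hd'
  exact h (over_of_conj L i D₀ D c d hc hd' (Finset.mem_filter.1 hd).2 y hy)

theorem split_list (D₀ : FinSub G) [IsCyclic D₀.1] (l : List (ColimK0 k G))
    (hl : ∀ z ∈ l, z ∈ PrimSet L i G) :
    ∃ y : K0 (MonoidAlgebra k D₀.1), IsPrim L i y ∧ ∃ l' : List (ColimK0 k G),
      (∀ z ∈ l', z ∈ PrimSet L i G ∧ ¬ Over L i D₀ z) ∧ l'.length ≤ l.length ∧
        l.sum = cl D₀ y + l'.sum := by
  induction l with
  | nil =>
    refine ⟨0, isPrim_zero L i, [], by simp, le_rfl, ?_⟩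
    rw [← clHom_apply, map_zero, zero_add]
  | cons z l ih =>
    obtain ⟨y, hy, l', h1, h2, h3⟩ := ih (fun z hz => hl z (List.mem_cons_of_mem _ hz))
    by_cases hz : Over L i D₀ z
    · obtain ⟨y', hy', rfl⟩ := hz
      refine ⟨y' + y, isPrim_add L i hy' hy, l', h1, h2.trans (by simp), ?_⟩
      rw [List.sum_cons, h3, ← clHom_apply, ← clHom_apply, ← clHom_apply, map_add, add_assoc]
    · refine ⟨y, hy, z :: l', ?_, by simpa using h2, ?_⟩
      · intro z' hz'
        rcases List.mem_cons.1 hz' with rfl | hz'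
        · exact ⟨hl _ List.mem_cons_self, hz⟩
        · exact h1 _ hz'
      · rw [List.sum_cons, List.sum_cons, h3]
        abel

theorem mulAut_finite (D : Type w) [Group D] [Finite D] : Finite (MulAut D) :=
  Finite.of_injective (fun f : MulAut D => (f : D → D)) (fun _ _ h => MulEquiv.ext (congrFun h))

theorem LT_aut {D : Type w} [Group D] [IsCyclic D] (n : ℕ) (w : MulAut D) (c : D)
    (y : K0 (MonoidAlgebra k D)) :
    LT L n i (dlt (L.B n) c) (dlt_comm _ c)
      (K0.map (MonoidAlgebra.mapDomainRingHom k w.toMonoidHom) y) =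
    LT L n i (dlt (L.B n) (w.symm c)) (dlt_comm _ _) y := by
  rw [LT_map]
  have h1 : ∀ a : D, dlt (L.B n) c (w.toMonoidHom a) = dlt (L.B n) (w.symm c) a := by
    intro a
    by_cases ha : a = w.symm c
    · subst ha
      have : w.toMonoidHom (w.symm c) = c := w.apply_symm_apply c
      rw [this, dlt_self, dlt_self]
    · rw [dlt_ne _ ha, dlt_ne]
      intro h
      apply ha
      rw [← h]
      exact (w.symm_apply_apply a).symm
  exact LT_congr L n i _ (dlt_comm _ _) h1 y

/-- Automorphisms of `D₀` induced by conjugations of `G`. -/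
def IsInd (D₀ : Subgroup G) (w : MulAut D₀) : Prop := ∃ g : G, ∀ d : D₀, (w d : G) = g * d * g⁻¹

theorem zpowers_aut {D : Type w} [Group D] (w : MulAut D) (c : D) (h : Subgroup.zpowers c ≠ ⊤) :
    Subgroup.zpowers (w c) ≠ ⊤ := by
  intro h'
  apply h
  rw [eq_top_iff]
  intro d _
  have h2 : w d ∈ Subgroup.zpowers (w c) := by rw [h']; trivial
  obtain ⟨m, hm⟩ := Subgroup.mem_zpowers_iff.1 h2
  refine Subgroup.mem_zpowers_iff.2 ⟨m, ?_⟩
  apply w.injective
  rw [map_zpow, hm]

theorem sum_ind {M : Type*} [AddCommMonoid M] (D₀ : Subgroup G) [Fintype D₀] [Fintype (MulAut D₀)]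
    (c : D₀) (hc : Subgroup.zpowers c = ⊤) (f : D₀ → M) :
    ∑ w ∈ Finset.univ.filter (fun w : MulAut D₀ => IsInd D₀ w), f (w.symm c) =
      ∑ d ∈ Finset.univ.filter (fun d : D₀ => IsConj (c : G) (d : G)), f d := by
  apply Finset.sum_bij (fun w _ => w.symm c)
  · intro w hw
    obtain ⟨g, hg⟩ := (Finset.mem_filter.1 hw).2
    rw [Finset.mem_filter]
    refine ⟨Finset.mem_univ _, ?_⟩
    have := hg (w.symm c)
    rw [w.apply_symm_apply] at this
    rw [isConj_comm]
    exact isConj_iff.2 ⟨g, this.symm⟩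
  · intro w1 _ w2 _ h
    have h' : w1.symm = w2.symm := by
      apply MulEquiv.ext
      intro d
      have : d ∈ Subgroup.zpowers c := by rw [hc]; trivial
      obtain ⟨m, rfl⟩ := Subgroup.mem_zpowers_iff.1 this
      rw [map_zpow, map_zpow]
      exact congrArg (· ^ m) h
    have h2 := congrArg MulEquiv.symm h'
    rwa [MulEquiv.symm_symm, MulEquiv.symm_symm] at h2
  · intro d hd
    obtain ⟨g, hg⟩ := isConj_iff.1 (Finset.mem_filter.1 hd).2
    have h1 : ∀ x ∈ D₀, g * x * g⁻¹ ∈ D₀ := by
      intro x hx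
      have : (⟨x, hx⟩ : D₀) ∈ Subgroup.zpowers c := by rw [hc]; trivial
      obtain ⟨m, hm⟩ := Subgroup.mem_zpowers_iff.1 this
      have hm' : (c : G) ^ m = x := by
        rw [← Subgroup.coe_zpow, hm]
      rw [← hm', ← conj_zpow, hg]
      exact D₀.zpow_mem d.2 m
    have hinj : Function.Injective (conjHom g D₀ D₀ h1) := by
      intro a b hab
      have := congrArg (fun x : D₀ => (x : G)) hab
      change g * (a : G) * g⁻¹ = g * (b : G) * g⁻¹ at this
      exact Subtype.ext (mul_left_cancel (mul_right_cancel this))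
    let e : MulAut D₀ := MulEquiv.ofBijective (conjHom g D₀ D₀ h1)
      (Finite.injective_iff_bijective.1 hinj)
    have he : ∀ x : D₀, ((e x : D₀) : G) = g * x * g⁻¹ := fun x => rfl
    refine ⟨e.symm, ?_, ?_⟩
    · rw [Finset.mem_filter]
      refine ⟨Finset.mem_univ _, g⁻¹, fun x => ?_⟩
      have := he (e.symm x)
      rw [e.apply_symm_apply] at this
      rw [this]
      group
    · rw [MulEquiv.symm_symm]
      apply Subtype.ext
      rw [he, hg]
  · intro w _
    rfl

/-- If the conjugacy class functionals of a primitive class of a cyclic subgroup vanish, then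
its class in the colimit is torsion. -/
theorem torsion_of_vanish (D₀ : FinSub G) [IsCyclic D₀.1] (ho : ∀ h : D₀.1, (orderOf h : k) ≠ 0)
    (y : K0 (MonoidAlgebra k D₀.1)) (hy : IsPrim L i y) (M : ℤ) (hM : M ≠ 0)
    (h : ∀ (n : ℕ) (c : D₀.1), Subgroup.zpowers c = ⊤ →
      (M : L.B n) * LT L n i (cf (L.B n) (c : G)) (cf_comm _ (c : G))
        (assembly k G (cl D₀ y)) = 0) :
    ∃ m : ℤ, m ≠ 0 ∧ m • cl D₀ y = 0 := by
  have := D₀.2
  have : Fintype D₀.1 := Fintype.ofFinite D₀.1
  have := mulAut_finite D₀.1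
  have : Fintype (MulAut D₀.1) := Fintype.ofFinite _
  let W := Finset.univ.filter (fun w : MulAut D₀.1 => IsInd D₀.1 w)
  have h0 : (∑ w ∈ W, K0.map (MonoidAlgebra.mapDomainRingHom k w.toMonoidHom) y) = 0 := by
    apply detect_cyclic L i ho cyc_comm M hM
    intro n c
    rw [map_sum]
    have e1 : ∀ w : MulAut D₀.1, LT L n i (dlt (L.B n) c) (dlt_comm _ c)
      (K0.map (MonoidAlgebra.mapDomainRingHom k w.toMonoidHom) y) =
        LT L n i (dlt (L.B n) (w.symm c)) (dlt_comm _ _) y := fun w => LT_aut L i n w c y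
    rw [Finset.sum_congr rfl (fun w _ => e1 w)]
    by_cases hc : Subgroup.zpowers c = ⊤
    · have e2 := h n c hc
      rw [LT_cf] at e2
      rw [← e2]
      congr 1
      exact sum_ind D₀.1 c hc (fun d => LT L n i (dlt (L.B n) d) (dlt_comm _ _) y)
    · rw [Finset.sum_eq_zero, mul_zero]
      intro w _
      exact hy n _ (zpowers_aut w.symm c hc)
  have h1 : ∀ w ∈ W, cl D₀ (K0.map (MonoidAlgebra.mapDomainRingHom k w.toMonoidHom) y) =
      cl D₀ y := by
    intro w hw
    obtain ⟨g, hg⟩ := (Finset.mem_filter.1 hw).2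
    have hr : ∀ x ∈ D₀.1, g * x * g⁻¹ ∈ D₀.1 := by
      intro x hx
      rw [← hg ⟨x, hx⟩]
      exact (w ⟨x, hx⟩).2
    have e1 : w.toMonoidHom = conjHom g D₀.1 D₀.1 hr := by
      apply MonoidHom.ext
      intro a
      exact Subtype.ext (hg a)
    rw [e1]
    exact cl_conj D₀ D₀ g hr y
  have h2 : (W.card : ℤ) • cl D₀ y = 0 := by
    have e1 := congrArg (clHom k D₀) h0
    rw [map_sum, map_zero] at e1
    simp only [clHom_apply] at e1
    rw [Finset.sum_congr rfl h1, Finset.sum_const] at e1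
    rw [natCast_zsmul]
    exact e1
  refine ⟨W.card, ?_, h2⟩
  have : (1 : MulAut D₀.1) ∈ W := by
    rw [Finset.mem_filter]
    exact ⟨Finset.mem_univ _, 1, fun d => by simp⟩
  exact_mod_cast (Finset.card_pos.2 ⟨_, this⟩).ne'

/-- A sum of primitive classes in the kernel of the assembly map (up to a nonzero factor) is
torsion. -/
theorem torsion_list (N : ℕ) : ∀ l : List (ColimK0 k G), l.length = N →
    (∀ z ∈ l, z ∈ PrimSet L i G) → ∀ M : ℤ, M ≠ 0 → M • assembly k G l.sum = 0 →
    ∃ m : ℤ, m ≠ 0 ∧ m • l.sum = 0 := by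
  induction N using Nat.strong_induction_on with
  | _ N ih =>
    intro l hN hl M hM h
    rcases l with _ | ⟨z, l⟩
    · exact ⟨1, one_ne_zero, by simp⟩
    obtain ⟨D₀, hcyc, ho, y₀, hy₀, rfl⟩ := hl z List.mem_cons_self
    obtain ⟨y₁, hy₁, l', h1, h2, h3⟩ := split_list L i D₀ l
      (fun z hz => hl z (List.mem_cons_of_mem _ hz))
    have e1 : (cl D₀ y₀ :: l).sum = cl D₀ (y₀ + y₁) + l'.sum := by
      rw [List.sum_cons, h3, ← clHom_apply, ← clHom_apply, ← clHom_apply, map_add, add_assoc]
    have hy : IsPrim L i (y₀ + y₁) := isPrim_add L i hy₀ hy₁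
    rw [e1] at h ⊢
    have hvan : ∀ (n : ℕ) (c : D₀.1), Subgroup.zpowers c = ⊤ →
        LT L n i (cf (L.B n) (c : G)) (cf_comm _ (c : G)) (assembly k G l'.sum) = 0 := by
      intro n c hc
      rw [map_list_sum, map_list_sum]
      apply List.sum_eq_zero
      intro x hx
      rw [List.map_map, List.mem_map] at hx
      obtain ⟨z, hz, rfl⟩ := hx
      obtain ⟨⟨D, hD, _, y, hy, rfl⟩, hz2⟩ := h1 z hz
      have := D.2
      have : Fintype D.1 := Fintype.ofFinite D.1
      exact LT_cf_not_over L i n D₀ D c hc y hy hz2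
    obtain ⟨m, hm, hm'⟩ := torsion_of_vanish L i D₀ ho (y₀ + y₁) hy M hM (by
      intro n c hc
      have e2 := congrArg (LT L n i (cf (L.B n) (c : G)) (cf_comm _ (c : G))) h
      rw [map_add, map_zsmul, map_add, hvan n c hc, add_zero, map_zero, zsmul_eq_mul] at e2
      exact e2)
    have e3 : (M * m) • assembly k G l'.sum = 0 := by
      have e4 : (M * m) • assembly k G (cl D₀ (y₀ + y₁) + l'.sum) = 0 := by
        rw [mul_comm, mul_smul, h, smul_zero]
      rw [map_add, smul_add, mul_smul M m (assembly k G (cl D₀ (y₀ + y₁))), ← map_zsmul, hm',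
        map_zero, smul_zero, zero_add] at e4
      exact e4
    obtain ⟨m', hm'', hm'''⟩ := ih l'.length (by rw [← hN, List.length_cons]; omega) l' rfl
      (fun z hz => (h1 z hz).1) (M * m) (mul_ne_zero hM hm) e3
    refine ⟨m * m', mul_ne_zero hm hm'', ?_⟩
    rw [smul_add, mul_smul m m' l'.sum, hm''', smul_zero, add_zero, mul_comm, mul_smul, hm',
      smul_zero]

/-- Elements of the subgroup generated by the primitive classes are sums of primitive classes. -/
theorem exists_list {z : ColimK0 k G} (hz : z ∈ AddSubgroup.closure (PrimSet L i G)) :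
    ∃ l : List (ColimK0 k G), (∀ z ∈ l, z ∈ PrimSet L i G) ∧ l.sum = z := by
  induction hz using AddSubgroup.closure_induction with
  | mem x hx => exact ⟨[x], by simpa using hx, by simp⟩
  | zero => exact ⟨[], by simp, rfl⟩
  | add x y _ _ hx hy =>
    obtain ⟨l, h1, rfl⟩ := hx
    obtain ⟨l', h1', rfl⟩ := hy
    refine ⟨l ++ l', ?_, List.sum_append⟩
    intro z hz
    rcases List.mem_append.1 hz with h | h
    · exact h1 z h
    · exact h1' z h
  | neg x _ hx =>
    obtain ⟨l, h1, rfl⟩ := hx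
    refine ⟨l.map (- ·), ?_, ?_⟩
    · intro z hz
      obtain ⟨y, hy, rfl⟩ := List.mem_map.1 hz
      exact primSet_neg L i (h1 y hy)
    · have hneg : ∀ l : List (ColimK0 k G), (l.map (- ·)).sum = - l.sum := by
        intro l
        induction l with
        | nil => simp
        | cons a l ih => rw [List.map_cons, List.sum_cons, List.sum_cons, ih, neg_add]
      exact hneg l

include L i in
theorem kernel_torsion_aux (z : ColimK0 k G) (M : ℤ) (hM : M ≠ 0)
    (h : M • assembly k G z = 0) : ∃ m : ℤ, m ≠ 0 ∧ m • z = 0 := by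
  obtain ⟨m, hm, hz⟩ := mem_sat L i z
  obtain ⟨l, h1, hl'⟩ := exists_list L i hz
  obtain ⟨m', hm', h2⟩ := torsion_list L i l.length l rfl h1 M hM (by
    rw [hl', map_zsmul, smul_comm, h, smul_zero])
  exact ⟨m' * m, mul_ne_zero hm' hm, by rw [mul_smul, ← hl', h2]⟩

end

/-- The kernel of the degree zero assembly map is a torsion group. -/
theorem kernel_torsion (k : Type u) [Field k] (G : Type v) [Group G] (z : ColimK0 k G) (M : ℤ)
    (hM : M ≠ 0) (h : M • assembly k G z = 0) : ∃ m : ℤ, m ≠ 0 ∧ m • z = 0 := by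
  obtain ⟨L⟩ := exists_liftSys (AlgebraicClosure k)
  exact kernel_torsion_aux L (algebraMap k (AlgebraicClosure k)) z M hM h

end Pool.Agent.H71.FJ

end
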