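import Pool.Agent.H94.FJ.M27
import Pool.Agent.H94.FJ.M28

/-! The parts of this file: H71.DB.Tors, H71.DB.Elim, H71.DB.Tors2. -/

section

/-!
# Vanishing of the Dennis traces implies torsion
-/

set_option autoImplicit false

open Matrix
open scoped Classical

universe t u v w

namespace Pool.Agent.H71.DB

open Pool.Agent.H71.FJ (IdemMat K0 K0.mk K0.map K0.map_map K0.push K0.rk LiftSys IsPrim isPrim_map LT LT_rep LT_eq_sum LT_aut exists_rep_lift dlt dlt_comm cyc_comm mulAut_finite IsInd zpowers_aut sum_ind isPrim_neg)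
open Pool.Agent.H95.WH (K1 K1.mk K1.map K1.map_mk FamSub conjHom FinSub)

section SyB

variable {k : Type u} [CommRing k] {G : Type v} [Group G]

/-- The centralizer made abelian. -/
abbrev CAb (F : Subgroup G) : Type v :=
  Additive (Abelianization (Subgroup.centralizer (F : Set G)))

/-- the class of an element of the centralizer -/
def cab {F : Subgroup G} (z : Subgroup.centralizer (F : Set G)) : CAb F :=
  Additive.ofMul (Abelianization.of z)

/-- The symbol as a biadditive map. -/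
noncomputable def syB (F : FamSub G FinSub) :
    K0 (MonoidAlgebra k F.1) →+ CAb F.1 →+ H1K0 k G :=
  AddMonoidHom.mk'
    (fun x => MonoidHom.toAdditiveLeft (Abelianization.lift
      ({ toFun := fun z => Multiplicative.ofAdd (sy F x z)
         map_one' := by
          have h := sy_mul F x 1 1
          rw [one_mul] at h
          rw [left_eq_add.1 h]
          rfl
         map_mul' := fun z z' => by rw [sy_mul]; rfl } :
        Subgroup.centralizer (F.1 : Set G) →* Multiplicative (H1K0 k G))))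
    (by
      intro x y
      ext z
      exact sy_add F x y z)

theorem syB_apply (F : FamSub G FinSub) (x : K0 (MonoidAlgebra k F.1))
    (z : Subgroup.centralizer (F.1 : Set G)) : syB F x (cab z) = sy F x z := rfl

end SyB

section Van

variable {k : Type u} [Field k] {K : Type t} [Field K] (L : BLift K) (i : k →+* K)
  {G : Type v} [Group G]

/-- The trace of an element for `c`, `lam` and `n`. -/
noncomputable def dtr (c : G) (hc : IsOfFinOrder c)
    (lam : Subgroup.centralizer ({c} : Set G) →* Multiplicative L.Lam) (n : ℕ) :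
    K1 (MonoidAlgebra k G) →+ L.sys.B n :=
  ((cocC c lam L.tf hc).dn L n).comp (K1.map (MonoidAlgebra.mapRingHom G i))

/-- Vanishing of a uniform multiple of all traces for the elements in `P`. -/
def VanOn (P : G → Prop) (x : K1 (MonoidAlgebra k G)) : Prop :=
  ∃ M : ℤ, M ≠ 0 ∧ ∀ c, P c → ∀ (hc : IsOfFinOrder c)
    (lam : Subgroup.centralizer ({c} : Set G) →* Multiplicative L.Lam) (n : ℕ),
    (M : L.sys.B n) * dtr L i c hc lam n x = 0

variable {L i} {P : G → Prop}

theorem VanOn.mono {Q : G → Prop} (hPQ : ∀ c, Q c → P c) {x : K1 (MonoidAlgebra k G)}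
    (h : VanOn L i P x) : VanOn L i Q x := by
  obtain ⟨M, hM, h⟩ := h
  exact ⟨M, hM, fun c hc => h c (hPQ c hc)⟩

theorem VanOn.zero : VanOn L i P (0 : K1 (MonoidAlgebra k G)) :=
  ⟨1, one_ne_zero, fun c _ hc lam n => by rw [map_zero, mul_zero]⟩

theorem VanOn.add {x y : K1 (MonoidAlgebra k G)} (hx : VanOn L i P x) (hy : VanOn L i P y) :
    VanOn L i P (x + y) := by
  obtain ⟨M, hM, h⟩ := hx
  obtain ⟨N, hN, h'⟩ := hy
  refine ⟨M * N, mul_ne_zero hM hN, fun c hP hc lam n => ?_⟩
  have h1 := h c hP hc lam n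
  have h2 := h' c hP hc lam n
  rw [map_add]
  push_cast
  calc (M : L.sys.B n) * N * (dtr L i c hc lam n x + dtr L i c hc lam n y)
      = N * (M * dtr L i c hc lam n x) + M * (N * dtr L i c hc lam n y) := by ring
    _ = 0 := by rw [h1, h2, mul_zero, mul_zero, add_zero]

theorem VanOn.neg {x : K1 (MonoidAlgebra k G)} (hx : VanOn L i P x) : VanOn L i P (-x) := by
  obtain ⟨M, hM, h⟩ := hx
  refine ⟨M, hM, fun c hP hc lam n => ?_⟩
  rw [map_neg, mul_neg, h c hP hc lam n, neg_zero]

theorem VanOn.sub {x y : K1 (MonoidAlgebra k G)} (hx : VanOn L i P x) (hy : VanOn L i P y) :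
    VanOn L i P (x - y) := by
  rw [sub_eq_add_neg]
  exact hx.add hy.neg

theorem VanOn.of_smul {x : K1 (MonoidAlgebra k G)} {m : ℤ} (hm : m ≠ 0)
    (hx : VanOn L i P (m • x)) : VanOn L i P x := by
  obtain ⟨M, hM, h⟩ := hx
  refine ⟨M * m, mul_ne_zero hM hm, fun c hP hc lam n => ?_⟩
  have h1 := h c hP hc lam n
  rw [map_zsmul, zsmul_eq_mul] at h1
  push_cast
  rw [mul_assoc]
  exact h1

theorem VanOn.list_sum (l : List (K1 (MonoidAlgebra k G))) (h : ∀ a ∈ l, VanOn L i P a) :
    VanOn L i P l.sum := by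
  induction l with
  | nil => rw [List.sum_nil]; exact VanOn.zero
  | cons a l ih =>
    rw [List.sum_cons]
    exact (h a List.mem_cons_self).add (ih fun b hb => h b (List.mem_cons_of_mem _ hb))

/-- Images of `K₁` of finite groups. -/
theorem vanOn_finite {H : Type w} [Group H] [Finite H] (f : H →* G)
    (x : K1 (MonoidAlgebra k H)) :
    VanOn L i P (K1.map (MonoidAlgebra.mapDomainRingHom k f) x) := by
  have : Fintype H := Fintype.ofFinite H
  exact ⟨(Fintype.card H : ℤ), by exact_mod_cast Fintype.card_ne_zero,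
    fun c _ hc lam n => dn_finite L i f _ n x⟩

variable (L i)

/-- The trace of a symbol up to a uniform multiple. -/
theorem dtr_sy (D : FamSub G FinSub) [Fintype D.1] [IsCyclic D.1]
    (z : Subgroup.centralizer (D.1 : Set G)) :
    ∃ M : ℤ, M ≠ 0 ∧ ∀ (c : G) (hc : IsOfFinOrder c)
      (lam : Subgroup.centralizer ({c} : Set G) →* Multiplicative L.Lam) (n : ℕ)
      (y : K0 (MonoidAlgebra k D.1)),
      (M : L.sys.B n) * (dtr L i c hc lam n (asmH k G (sy D y z)) -
        ∑ a : D.1, L.th n ((cocC c lam L.tf hc).L z (a : G)) *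
          LT L.sys n i (dlt (L.sys.B n) a) (dlt_comm _ a) y) = 0 := by
  obtain ⟨M, hM, h⟩ := dn_gbass L i D.1.subtype (z : G) (cent_comm z)
  refine ⟨M, hM, fun c hc lam n y => ?_⟩
  have h1 := h (cocC c lam L.tf hc) (cocC_supp c lam L.tf hc) n y
  rw [asmH_sy]
  refine Eq.trans ?_ h1
  exact congrArg (fun t => (M : L.sys.B n) * (dtr L i c hc lam n
    (gbass k D.1.subtype (z : G) (cent_comm z) y) - t))
    (LT_eq_sum L.sys n i cyc_comm
      (fun a : D.1 => L.th n ((cocC c lam L.tf hc).L (z : G) (D.1.subtype a)))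
      (((cocC c lam L.tf hc).mapS (L.th n)).L_comm D.1.subtype (z : G) (cent_comm z)) y).symm

/-- Symbols over a cyclic subgroup `D₀`. -/
noncomputable def OverS (D₀ : FamSub G FinSub) [IsCyclic D₀.1] : AddSubgroup (H1K0 k G) :=
  AddSubgroup.closure {w | ∃ y : K0 (MonoidAlgebra k D₀.1), IsPrim L.sys i y ∧
    ∃ z : Subgroup.centralizer (D₀.1 : Set G), w = sy D₀ y z}

theorem over_of_conj (D₀ D : FamSub G FinSub) [IsCyclic D₀.1] [IsCyclic D.1] (c : D₀.1) (d : D.1)
    (hc : Subgroup.zpowers c = ⊤) (hd : Subgroup.zpowers d = ⊤) (h : IsConj (c : G) (d : G))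
    (y : K0 (MonoidAlgebra k D.1)) (hy : IsPrim L.sys i y)
    (z : Subgroup.centralizer (D.1 : Set G)) : sy D y z ∈ OverS L i D₀ := by
  obtain ⟨g, hg⟩ := isConj_iff.1 h
  have hg' : g⁻¹ * (d : G) * g⁻¹⁻¹ = c := by rw [← hg]; group
  have h1 : ∀ x ∈ D₀.1, g * x * g⁻¹ ∈ D.1 := by
    intro x hx
    have : (⟨x, hx⟩ : D₀.1) ∈ Subgroup.zpowers c := by rw [hc]; trivial
    obtain ⟨m, hm⟩ := Subgroup.mem_zpowers_iff.1 this
    have hm' : (c : G) ^ m = x := by
      rw [← Subgroup.coe_zpow, hm]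
    rw [← hm', ← conj_zpow, hg]
    exact D.1.zpow_mem d.2 m
  have h2 : ∀ x ∈ D.1, g⁻¹ * x * g⁻¹⁻¹ ∈ D₀.1 := by
    intro x hx
    have : (⟨x, hx⟩ : D.1) ∈ Subgroup.zpowers d := by rw [hd]; trivial
    obtain ⟨m, hm⟩ := Subgroup.mem_zpowers_iff.1 this
    have hm' : (d : G) ^ m = x := by
      rw [← Subgroup.coe_zpow, hm]
    rw [← hm', ← conj_zpow, hg']
    exact D₀.1.zpow_mem c.2 m
  let e : D.1 ≃* D₀.1 :=
    { toFun := conjHom g⁻¹ D.1 D₀.1 h2
      invFun := conjHom g D₀.1 D.1 h1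
      left_inv := by
        intro x
        apply Subtype.ext
        change g * (g⁻¹ * (x : G) * g⁻¹⁻¹) * g⁻¹ = x
        group
      right_inv := by
        intro x
        apply Subtype.ext
        change g⁻¹ * (g * (x : G) * g⁻¹) * g⁻¹⁻¹ = x
        group
      map_mul' := map_mul _ }
  have hz' : z = conjCent g⁻¹ D.1 D₀.1 h2 (conjCent g D₀.1 D.1 h1 z) := by
    apply Subtype.ext
    change (z : G) = g⁻¹⁻¹ * (g⁻¹ * (z : G) * g) * g⁻¹
    group
  rw [hz']
  refine AddSubgroup.subset_closure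
    ⟨K0.map (MonoidAlgebra.mapDomainRingHom k e.toMonoidHom) y, isPrim_map L.sys i e hy,
      conjCent g D₀.1 D.1 h1 z, ?_⟩
  exact (sy_conj D D₀ g⁻¹ h2 y _).symm

/-- generators of `D₀` -/
def IsGen (D₀ : FamSub G FinSub) (c : G) : Prop := ∃ a : D₀.1, (a : G) = c ∧ Subgroup.zpowers a = ⊤

/-- Symbols over other cyclic groups. -/
theorem vanOn_not_over (D₀ D : FamSub G FinSub) [IsCyclic D₀.1] [IsCyclic D.1]
    (y : K0 (MonoidAlgebra k D.1)) (hy : IsPrim L.sys i y)
    (z : Subgroup.centralizer (D.1 : Set G)) (h : ¬ sy D y z ∈ OverS L i D₀) :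
    VanOn L i (IsGen D₀) (asmH k G (sy D y z)) := by
  have : Finite D.1 := D.2
  have : Fintype D.1 := Fintype.ofFinite D.1
  obtain ⟨M, hM, h1⟩ := dtr_sy L i D z
  refine ⟨M, hM, fun c hgen hc lam n => ?_⟩
  obtain ⟨c₀, hc₀, hgen⟩ := hgen
  have h2 := h1 c hc lam n y
  rw [Finset.sum_eq_zero, sub_zero] at h2
  · exact h2
  · intro a _
    by_cases ha : IsConj c (a : G)
    · have h3 : Subgroup.zpowers a ≠ ⊤ := by
        intro h4
        exact h (over_of_conj L i D₀ D c₀ a hgen h4 (by rw [hc₀]; exact ha) y hy z)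
      rw [hy n a h3, mul_zero]
    · rw [cocC_not_conj c lam L.tf hc ha, map_zero, zero_mul]

/-- Representation of the elements over `D₀`. -/
theorem exists_fam (D₀ : FamSub G FinSub) [IsCyclic D₀.1] {w : H1K0 k G}
    (hw : w ∈ OverS L i D₀) :
    ∃ (N : ℕ) (y : Fin N → K0 (MonoidAlgebra k D₀.1))
      (z : Fin N → Subgroup.centralizer (D₀.1 : Set G)),
      (∀ j, IsPrim L.sys i (y j)) ∧ w = ∑ j, sy D₀ (y j) (z j) := by
  induction hw using AddSubgroup.closure_induction with
  | mem x hx =>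
    obtain ⟨y, hy, z, rfl⟩ := hx
    exact ⟨1, fun _ => y, fun _ => z, fun _ => hy, by simp⟩
  | zero => exact ⟨0, Fin.elim0, Fin.elim0, fun j => j.elim0, by simp⟩
  | add a b _ _ ha hb =>
    obtain ⟨N, y, z, h1, rfl⟩ := ha
    obtain ⟨N', y', z', h1', rfl⟩ := hb
    refine ⟨N + N', Fin.append y y', Fin.append z z', ?_, ?_⟩
    · intro j
      refine Fin.addCases (fun j => ?_) (fun j => ?_) j
      · rw [Fin.append_left]; exact h1 j
      · rw [Fin.append_right]; exact h1' j
    · rw [Fin.sum_univ_add]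
      simp only [Fin.append_left, Fin.append_right]
  | neg a _ ha =>
    obtain ⟨N, y, z, h1, rfl⟩ := ha
    refine ⟨N, fun j => -y j, z, fun j => isPrim_neg L.sys i (h1 j), ?_⟩
    rw [← Finset.sum_neg_distrib]
    refine Finset.sum_congr rfl fun j _ => ?_
    rw [← syH_apply, ← syH_apply, map_neg]

end Van

end Pool.Agent.H71.DB

end

section

/-!
# Elimination: detecting torsion in tensor products
-/

set_option autoImplicit false

open Matrix
open scoped Classical

universe t u v w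

namespace Pool.Agent.H71.DB

open Pool.Agent.H71.FJ (IdemMat K0 K0.mk K0.map K0.map_map K0.push K0.rk LiftSys IsPrim isPrim_map LT LT_rep LT_eq_sum exists_rep_lift dlt dlt_comm cyc_comm)
open Pool.Agent.H95.WH (K1 K1.mk K1.map K1.map_mk FamSub conjHom FinSub)

section Sep

variable {B : Type u} [AddCommGroup B]

/-- Homomorphisms to `ℚ` detect elements of infinite order. -/
theorem exists_hom_rat (b : B) (hb : ∀ m : ℤ, m ≠ 0 → m • b ≠ 0) : ∃ μ : B →+ ℚ, μ b ≠ 0 := by
  by_contra hcon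
  push Not at hcon
  have h1 : ∀ f : Module.Dual ℚ (TensorProduct ℤ ℚ B), f (TensorProduct.mk ℤ ℚ B 1 b) = 0 := by
    intro f
    exact hcon (f.toAddMonoidHom.comp (TensorProduct.mk ℤ ℚ B 1).toAddMonoidHom)
  rw [Module.forall_dual_apply_eq_zero_iff ℚ] at h1
  obtain ⟨m, hm⟩ := (IsLocalizedModule.eq_zero_iff (nonZeroDivisors ℤ)
    (TensorProduct.mk ℤ ℚ B 1)).1 h1
  exact hb m (nonZeroDivisors.coe_ne_zero m) hm

end Sep

section Elim

variable {A : Type u} [AddCommGroup A] {B : Type v} [AddCommGroup B] {E : Type w}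
  [AddCommGroup E]

theorem exists_common_denom {N : ℕ} (q : Fin N → ℚ) :
    ∃ (m : ℤ) (a : Fin N → ℤ), m ≠ 0 ∧ ∀ j, (m : ℚ) * q j = a j := by
  refine ⟨((∏ j, (q j).den : ℕ) : ℤ), fun j => (∏ l ∈ Finset.univ.erase j, ((q l).den : ℤ)) *
    (q j).num, ?_, ?_⟩
  · have h : (∏ j, (q j).den : ℕ) ≠ 0 := Finset.prod_ne_zero_iff.2 fun j _ => (q j).den_nz
    exact_mod_cast h
  · intro j
    have h1 : (∏ l, ((q l).den : ℚ)) =
        (∏ l ∈ Finset.univ.erase j, ((q l).den : ℚ)) * (q j).den := by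
      rw [Finset.prod_erase_mul _ _ (Finset.mem_univ j)]
    have h2 : ((q j).den : ℚ) * q j = (q j).num := Rat.den_mul_eq_num (q j)
    push_cast
    rw [h1, mul_assoc, h2]

theorem elim (β : A →+ B →+ E) (N : ℕ) : ∀ (y : Fin N → A) (b : Fin N → B),
    (∀ (μ : B →+ ℚ) (m : ℤ) (a : Fin N → ℤ), m ≠ 0 → (∀ j, (m : ℚ) * μ (b j) = a j) →
      ∃ m' : ℤ, m' ≠ 0 ∧ m' • ∑ j, a j • y j = 0) →
    ∃ m : ℤ, m ≠ 0 ∧ m • ∑ j, β (y j) (b j) = 0 := by
  induction N with
  | zero => exact fun y b _ => ⟨1, one_ne_zero, by simp⟩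
  | succ N ih =>
    intro y b h
    by_cases hb : ∀ m : ℤ, m ≠ 0 → m • b 0 ≠ 0
    · obtain ⟨μ0, hμ0⟩ := exists_hom_rat (b 0) hb
      obtain ⟨m0, a, hm0, ha⟩ := exists_common_denom (fun j => μ0 (b j))
      have ha0 : a 0 ≠ 0 := by
        intro h0
        have h1 := ha 0
        rw [h0, Int.cast_zero] at h1
        rcases mul_eq_zero.1 h1 with h2 | h2
        · exact hm0 (by exact_mod_cast h2)
        · exact hμ0 h2
      obtain ⟨m', hm', h1⟩ := h μ0 m0 a hm0 ha
      obtain ⟨m, hm, h2⟩ := ih (fun j => y j.succ) (fun j => a 0 • b j.succ - a j.succ • b 0) (by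
        intro μ m a' hm ha'
        let μ' : B →+ ℚ := a 0 • μ - (AddMonoidHom.mulLeft ((m0 : ℚ) * μ (b 0))).comp μ0
        have hμ' : ∀ x, μ' x = (a 0 : ℚ) * μ x - (m0 : ℚ) * μ (b 0) * μ0 x := by
          intro x
          change a 0 • μ x - _ = _
          rw [zsmul_eq_mul]
          rfl
        obtain ⟨m'', hm'', h3⟩ := h μ' m (Fin.cons 0 a') hm (by
          intro j
          refine Fin.cases ?_ (fun j => ?_) j
          · rw [Fin.cons_zero, hμ', Int.cast_zero, ← ha 0]
            ring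
          · rw [Fin.cons_succ, ← ha' j, hμ', map_sub, map_zsmul, map_zsmul, zsmul_eq_mul,
              zsmul_eq_mul, ← ha j.succ]
            ring)
        refine ⟨m'', hm'', ?_⟩
        rw [Fin.sum_univ_succ] at h3
        simpa using h3)
      refine ⟨m * (m' * a 0), mul_ne_zero hm (mul_ne_zero hm' ha0), ?_⟩
      have h4 : m' • (∑ j : Fin N, β (y j.succ) (a 0 • b j.succ - a j.succ • b 0)) =
          (m' * a 0) • ∑ j, β (y j) (b j) := by
        have h5 : ∑ j : Fin N, β (y j.succ) (a 0 • b j.succ - a j.succ • b 0) =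
            a 0 • ∑ j : Fin N, β (y j.succ) (b j.succ) -
              β (∑ j : Fin N, a j.succ • y j.succ) (b 0) := by
          rw [Finset.smul_sum, map_sum, AddMonoidHom.finsetSum_apply, ← Finset.sum_sub_distrib]
          refine Finset.sum_congr rfl fun j _ => ?_
          rw [map_sub, map_zsmul, map_zsmul, map_zsmul, AddMonoidHom.coe_smul, Pi.smul_apply]
        have h6 : m' • β (∑ j : Fin N, a j.succ • y j.succ) (b 0) =
            -((m' * a 0) • β (y 0) (b 0)) := by
          have h7 := congrArg (fun x => β x (b 0)) h1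
          simp only [map_zero, AddMonoidHom.zero_apply] at h7
          rw [Fin.sum_univ_succ, smul_add, map_add, AddMonoidHom.add_apply, map_zsmul, map_zsmul,
            AddMonoidHom.coe_smul, Pi.smul_apply, map_zsmul, AddMonoidHom.coe_smul,
            Pi.smul_apply, smul_smul, AddMonoidHom.coe_smul, Pi.smul_apply] at h7
          exact eq_neg_of_add_eq_zero_right h7
        rw [h5, smul_sub, h6, sub_neg_eq_add, smul_smul, Fin.sum_univ_succ, smul_add]
        abel
      rw [mul_smul, ← h4, smul_comm, h2, smul_zero]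
    · push Not at hb
      obtain ⟨r, hr, hrb⟩ := hb
      obtain ⟨m, hm, h2⟩ := ih (fun j => y j.succ) (fun j => b j.succ) (by
        intro μ m a' hm ha'
        have hμ0 : μ (b 0) = 0 := by
          have h1 := congrArg μ hrb
          rw [map_zsmul, map_zero, zsmul_eq_mul] at h1
          rcases mul_eq_zero.1 h1 with h2 | h2
          · exact absurd (by exact_mod_cast h2) hr
          · exact h2
        obtain ⟨m'', hm'', h3⟩ := h μ m (Fin.cons 0 a') hm (by
          intro j
          refine Fin.cases ?_ (fun j => ?_) j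
          · rw [Fin.cons_zero, hμ0, mul_zero, Int.cast_zero]
          · rw [Fin.cons_succ, ← ha' j])
        refine ⟨m'', hm'', ?_⟩
        rw [Fin.sum_univ_succ] at h3
        simpa using h3)
      refine ⟨m * r, mul_ne_zero hm hr, ?_⟩
      rw [Fin.sum_univ_succ, smul_add, mul_smul, mul_comm m r, mul_smul r m, h2, smul_zero,
        add_zero, ← map_zsmul, hrb, map_zero, smul_zero]

/-- The same for families indexed by a finite type. -/
theorem elim' (β : A →+ B →+ E) {ι : Type*} [Fintype ι] (y : ι → A) (b : ι → B)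
    (h : ∀ (μ : B →+ ℚ) (m : ℤ) (a : ι → ℤ), m ≠ 0 → (∀ j, (m : ℚ) * μ (b j) = a j) →
      ∃ m' : ℤ, m' ≠ 0 ∧ m' • ∑ j, a j • y j = 0) :
    ∃ m : ℤ, m ≠ 0 ∧ m • ∑ j, β (y j) (b j) = 0 := by
  let e := Fintype.equivFin ι
  obtain ⟨m, hm, h1⟩ := elim β (Fintype.card ι) (fun j => y (e.symm j)) (fun j => b (e.symm j)) (by
    intro μ m a hm ha
    obtain ⟨m', hm', h2⟩ := h μ m (fun j => a (e j)) hm (fun j => by
      have := ha (e j)
      rwa [e.symm_apply_apply] at this)
    refine ⟨m', hm', ?_⟩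
    rw [← h2]
    congr 1
    rw [← e.sum_comp]
    exact Finset.sum_congr rfl fun j _ => by rw [e.symm_apply_apply])
  refine ⟨m, hm, ?_⟩
  rw [← h1]
  congr 1
  rw [← e.symm.sum_comp]

end Elim

section Det

variable {k : Type u} [Field k] {K : Type t} [Field K] (L : BLift K) (i : k →+* K)
  {D : Type w} [Group D] [Fintype D] [IsCyclic D] {B : Type v} [AddCommGroup B] {E : Type*}
  [AddCommGroup E]

/-- Detection of torsion in `K₀(k[D]) ⊗ B`. -/
theorem det_tensor (hD : ∀ h : D, (orderOf h : k) ≠ 0)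
    (hsep : ∀ b : B, (∀ ν : B →+ L.Lam, ν b = 0) → ∃ m : ℤ, m ≠ 0 ∧ m • b = 0)
    (β : K0 (MonoidAlgebra k D) →+ B →+ E) {ι : Type*} [Fintype ι]
    (y : ι → K0 (MonoidAlgebra k D)) (b : ι → B) (M : ℤ) (hM : M ≠ 0)
    (h : ∀ (n : ℕ) (c : D) (ν : B →+ L.Lam), (M : L.sys.B n) *
      ∑ j, L.th n (ν (b j)) * LT L.sys n i (dlt (L.sys.B n) c) (dlt_comm _ c) (y j) = 0) :
    ∃ m : ℤ, m ≠ 0 ∧ m • ∑ j, β (y j) (b j) = 0 := by
  have : Module.Finite k (MonoidAlgebra k D) := inferInstance
  apply elim' β y b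
  intro μ m a hm ha
  refine ⟨1, one_ne_zero, ?_⟩
  rw [one_smul]
  apply K0.eq_zero_of_rk_push (k := k)
  intro J _ _ ρ
  let R : ι → ℤ := fun j => K0.rk (K0.push (ρ : MonoidAlgebra k D →+* Matrix J J k) (y j))
  have hR : K0.rk (K0.push (ρ : MonoidAlgebra k D →+* Matrix J J k) (∑ j, a j • y j)) =
      ∑ j, a j * R j := by
    rw [map_sum, map_sum]
    refine Finset.sum_congr rfl fun j _ => ?_
    rw [map_zsmul, map_zsmul, smul_eq_mul]
  rw [hR]
  have h1 : ∀ ν : B →+ L.Lam, ν (∑ j, R j • b j) = 0 := by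
    intro ν
    apply L.tf M _ hM
    apply L.joint
    intro n
    have hDK : ∀ h : D, (orderOf h : K) ≠ 0 := by
      intro h h0
      apply hD h
      rw [← map_natCast i, map_eq_zero_iff _ i.injective] at h0
      exact h0
    obtain ⟨ρ', hρ'⟩ := exists_rep_lift (L.sys.surj n) (L.sys.nil n) (D := D) hDK
      ((i.mapMatrix : Matrix J J k →+* Matrix J J K).toMonoidHom.comp
          ((ρ : MonoidAlgebra k D →* Matrix J J k).comp (MonoidAlgebra.of k D)))
    have h2 : ∀ j, (R j : L.sys.B n) = ∑ c : D, trace (ρ' c) *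
        LT L.sys n i (dlt (L.sys.B n) c) (dlt_comm _ c) (y j) := by
      intro j
      rw [← LT_eq_sum L.sys n i cyc_comm (fun c => trace (ρ' c)) (fun a b => by
        simp only [map_mul]
        exact trace_mul_comm _ _) (y j)]
      exact LT_rep L.sys n i ρ ρ' hρ' (y j)
    rw [map_mul, map_intCast, map_sum, map_sum]
    have h3 : ∑ j, L.th n (ν (R j • b j)) = ∑ c : D, trace (ρ' c) *
        ∑ j, L.th n (ν (b j)) * LT L.sys n i (dlt (L.sys.B n) c) (dlt_comm _ c) (y j) := by
      have e1 : ∀ j, L.th n (ν (R j • b j)) = ∑ c : D, trace (ρ' c) * (L.th n (ν (b j)) *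
          LT L.sys n i (dlt (L.sys.B n) c) (dlt_comm _ c) (y j)) := by
        intro j
        rw [map_zsmul, zsmul_eq_mul, map_mul, map_intCast, h2, Finset.sum_mul]
        refine Finset.sum_congr rfl fun c _ => ?_
        ring
      rw [Finset.sum_congr rfl fun j _ => e1 j, Finset.sum_comm]
      refine Finset.sum_congr rfl fun c _ => ?_
      rw [Finset.mul_sum]
    rw [h3, Finset.mul_sum]
    refine Finset.sum_eq_zero fun c _ => ?_
    rw [mul_left_comm, h n c ν, mul_zero]
  obtain ⟨m', hm', h2⟩ := hsep _ h1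
  have h3 : μ (∑ j, R j • b j) = 0 := by
    have h4 := congrArg μ h2
    rw [map_zsmul, map_zero, zsmul_eq_mul] at h4
    rcases mul_eq_zero.1 h4 with h5 | h5
    · exact absurd (by exact_mod_cast h5) hm'
    · exact h5
  have h4 : ((∑ j, a j * R j : ℤ) : ℚ) = 0 := by
    rw [map_sum] at h3
    push_cast
    have h5 : ∑ j, (a j : ℚ) * (R j : ℚ) = (m : ℚ) * ∑ j, μ (R j • b j) := by
      rw [Finset.mul_sum]
      refine Finset.sum_congr rfl fun j _ => ?_
      rw [map_zsmul, zsmul_eq_mul, ← ha j]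
      ring
    rw [h5, h3, mul_zero]
  exact_mod_cast h4

end Det

end Pool.Agent.H71.DB

end

section

/-!
# Vanishing of the Dennis traces implies torsion (conclusion)
-/

set_option autoImplicit false

open Matrix
open scoped Classical

universe t u v w

namespace Pool.Agent.H71.DB

open Pool.Agent.H71.FJ (IdemMat K0 K0.mk K0.map K0.map_map K0.push K0.rk LiftSys IsPrim isPrim_map LT LT_rep LT_eq_sum LT_aut exists_rep_lift dlt dlt_comm cyc_comm mulAut_finite IsInd zpowers_aut sum_ind isPrim_neg)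
open Pool.Agent.H95.WH (K1 K1.mk K1.map K1.map_mk FamSub conjHom FinSub)

section

variable {k : Type u} [Field k] {K : Type t} [Field K] (L : BLift K) (i : k →+* K)
  {G : Type v} [Group G]

theorem cent_of_gen {D : Subgroup G} (c : D) (hc : Subgroup.zpowers c = ⊤) {x : G}
    (hx : x ∈ Subgroup.centralizer ({(c : G)} : Set G)) :
    x ∈ Subgroup.centralizer (D : Set G) := by
  rw [Subgroup.mem_centralizer_iff]
  intro a ha
  have h1 : (⟨a, ha⟩ : D) ∈ Subgroup.zpowers c := by rw [hc]; trivial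
  obtain ⟨m, hm⟩ := Subgroup.mem_zpowers_iff.1 h1
  have hm' : (c : G) ^ m = a := by rw [← Subgroup.coe_zpow, hm]
  rw [← hm']
  have h2 : Commute (c : G) x := Subgroup.mem_centralizer_iff.1 hx c (Set.mem_singleton _)
  exact h2.zpow_left m

/-- the homomorphism on the centralizer of a generator -/
def genHom {Λ : Type w} [AddCommGroup Λ] {D : Subgroup G} (c : D)
    (hc : Subgroup.zpowers c = ⊤) (ν : CAb D →+ Λ) :
    Subgroup.centralizer ({(c : G)} : Set G) →* Multiplicative Λ where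
  toFun x := Multiplicative.ofAdd (ν (cab ⟨x, cent_of_gen c hc x.2⟩))
  map_one' := by
    have h : cab (⟨(1 : Subgroup.centralizer ({(c : G)} : Set G)), cent_of_gen c hc (1 :
        Subgroup.centralizer ({(c : G)} : Set G)).2⟩ : Subgroup.centralizer (D : Set G)) = 0 := by
      change Additive.ofMul (Abelianization.of (1 : Subgroup.centralizer (D : Set G))) = 0
      rw [map_one]
      rfl
    rw [h, map_zero]
    rfl
  map_mul' x y := by
    rw [← ofAdd_add, ← map_add]
    rfl

theorem conj_cent {D : Subgroup G} {w : MulAut D} {g : G}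
    (hg : ∀ d : D, (w d : G) = g * d * g⁻¹) (z : Subgroup.centralizer (D : Set G)) :
    g * z * g⁻¹ ∈ Subgroup.centralizer (D : Set G) := by
  rw [Subgroup.mem_centralizer_iff]
  intro a ha
  have h1 : a = g * (w.symm ⟨a, ha⟩ : D) * g⁻¹ := by
    rw [← hg, w.apply_symm_apply]
  have h2 := Subgroup.mem_centralizer_iff.1 z.2 (w.symm ⟨a, ha⟩ : D) (w.symm ⟨a, ha⟩ : D).2
  calc a * (g * z * g⁻¹) = g * ((w.symm ⟨a, ha⟩ : D) * z) * g⁻¹ := by
        conv_lhs => rw [h1]
        group
    _ = g * (z * (w.symm ⟨a, ha⟩ : D)) * g⁻¹ := by rw [h2]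
    _ = g * z * g⁻¹ * a := by
        conv_rhs => rw [h1]
        group

theorem sy_ind (D₀ : FamSub G FinSub) (w : MulAut D₀.1) (g : G)
    (hg : ∀ d : D₀.1, (w d : G) = g * d * g⁻¹) (y : K0 (MonoidAlgebra k D₀.1))
    (z : Subgroup.centralizer (D₀.1 : Set G)) :
    sy D₀ (K0.map (MonoidAlgebra.mapDomainRingHom k w.toMonoidHom) y)
      ⟨g * z * g⁻¹, conj_cent hg z⟩ = sy D₀ y z := by
  have h1 : ∀ x ∈ D₀.1, g * x * g⁻¹ ∈ D₀.1 := by
    intro x hx
    rw [← hg ⟨x, hx⟩]
    exact (w ⟨x, hx⟩).2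
  have h2 : w.toMonoidHom = conjHom g D₀.1 D₀.1 h1 := by
    apply MonoidHom.ext
    intro a
    exact Subtype.ext (hg a)
  rw [h2, sy_conj]
  congr 1
  apply Subtype.ext
  change g⁻¹ * (g * (z : G) * g⁻¹) * g = z
  group

theorem torsion_over (D₀ : FamSub G FinSub) [IsCyclic D₀.1]
    (ho : ∀ h : D₀.1, (orderOf h : k) ≠ 0)
    (hsep : ∀ b : CAb D₀.1, (∀ ν : CAb D₀.1 →+ L.Lam, ν b = 0) → ∃ m : ℤ, m ≠ 0 ∧ m • b = 0)
    (N : ℕ) (y : Fin N → K0 (MonoidAlgebra k D₀.1)) (hy : ∀ j, IsPrim L.sys i (y j))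
    (z : Fin N → Subgroup.centralizer (D₀.1 : Set G))
    (hv : VanOn L i (IsGen D₀) (asmH k G (∑ j, sy D₀ (y j) (z j)))) :
    ∃ m : ℤ, m ≠ 0 ∧ m • ∑ j, sy D₀ (y j) (z j) = 0 := by
  have : Finite D₀.1 := D₀.2
  have : Fintype D₀.1 := Fintype.ofFinite D₀.1
  have := mulAut_finite D₀.1
  have : Fintype (MulAut D₀.1) := Fintype.ofFinite _
  obtain ⟨M, hM, hv⟩ := hv
  choose M1 hM1 hS using fun j => dtr_sy (k := k) L i D₀ (z j)
  obtain ⟨M', hM'def⟩ : ∃ M' : ℤ, M' = M * ∏ j, M1 j := ⟨_, rfl⟩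
  have hM' : M' ≠ 0 := by
    rw [hM'def]
    exact mul_ne_zero hM (Finset.prod_ne_zero_iff.2 fun j _ => hM1 j)
  have hS' : ∀ c : G, IsGen D₀ c → ∀ (hc : IsOfFinOrder c)
      (lam : Subgroup.centralizer ({c} : Set G) →* Multiplicative L.Lam) (n : ℕ),
      (M' : L.sys.B n) * ∑ j, ∑ a : D₀.1, L.th n ((cocC c lam L.tf hc).L (z j : G) (a : G)) *
        LT L.sys n i (dlt (L.sys.B n) a) (dlt_comm _ a) (y j) = 0 := by
    intro c hgen hc lam n
    have h1 := hv c hgen hc lam n
    rw [map_sum, map_sum] at h1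
    have h2 : ∀ j, (M' : L.sys.B n) * (dtr L i c hc lam n (asmH k G (sy D₀ (y j) (z j))) -
        ∑ a : D₀.1, L.th n ((cocC c lam L.tf hc).L (z j : G) (a : G)) *
          LT L.sys n i (dlt (L.sys.B n) a) (dlt_comm _ a) (y j)) = 0 := by
      intro j
      have h3 := hS j c hc lam n (y j)
      have h4 : (M' : L.sys.B n) = (M : L.sys.B n) *
          (∏ l ∈ Finset.univ.erase j, (M1 l : L.sys.B n)) * (M1 j : L.sys.B n) := by
        rw [hM'def, mul_assoc, Finset.prod_erase_mul _ _ (Finset.mem_univ j)]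
        push_cast
        rfl
      rw [h4, mul_assoc, h3, mul_zero]
    have h5 : (M' : L.sys.B n) * ∑ j, dtr L i c hc lam n (asmH k G (sy D₀ (y j) (z j))) =
        0 := by
      rw [hM'def]
      push_cast
      rw [mul_assoc, mul_left_comm, h1, mul_zero]
    have h6 : (M' : L.sys.B n) * ∑ j, (dtr L i c hc lam n (asmH k G (sy D₀ (y j) (z j))) -
        ∑ a : D₀.1, L.th n ((cocC c lam L.tf hc).L (z j : G) (a : G)) *
          LT L.sys n i (dlt (L.sys.B n) a) (dlt_comm _ a) (y j)) = 0 := by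
      rw [Finset.mul_sum]
      exact Finset.sum_eq_zero fun j _ => h2 j
    rw [Finset.sum_sub_distrib, mul_sub, h5, zero_sub, neg_eq_zero] at h6
    exact h6
  let ι := {w : MulAut D₀.1 // IsInd D₀.1 w}
  have : Fintype ι := Fintype.ofFinite _
  choose g hg using fun w : ι => w.2
  obtain ⟨m, hm, h⟩ := det_tensor L i ho hsep (syB (k := k) D₀)
    (fun p : ι × Fin N => K0.map (MonoidAlgebra.mapDomainRingHom k p.1.1.toMonoidHom) (y p.2))
    (fun p : ι × Fin N => cab ⟨g p.1 * z p.2 * (g p.1)⁻¹, conj_cent (hg p.1) (z p.2)⟩) M' hM' (by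
      intro n c ν
      by_cases hc : Subgroup.zpowers c = ⊤
      · have hcfin : IsOfFinOrder (c : G) := D₀.1.subtype.isOfFinOrder (isOfFinOrder_of_finite c)
        rw [← hS' (c : G) ⟨c, rfl, hc⟩ hcfin (genHom c hc ν) n]
        congr 1
        rw [Fintype.sum_prod_type_right]
        refine Finset.sum_congr rfl fun j _ => ?_
        have h1 : ∑ a : D₀.1, L.th n ((cocC (c : G) (genHom c hc ν) L.tf hcfin).L (z j : G)
            (a : G)) * LT L.sys n i (dlt (L.sys.B n) a) (dlt_comm _ a) (y j) =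
            ∑ a ∈ Finset.univ.filter (fun d : D₀.1 => IsConj (c : G) (d : G)),
              L.th n ((cocC (c : G) (genHom c hc ν) L.tf hcfin).L (z j : G) (a : G)) *
                LT L.sys n i (dlt (L.sys.B n) a) (dlt_comm _ a) (y j) := by
          rw [Finset.sum_filter]
          refine Finset.sum_congr rfl fun a _ => ?_
          by_cases ha : IsConj (c : G) (a : G)
          · rw [if_pos ha]
          · rw [if_neg ha, cocC_not_conj _ _ L.tf hcfin ha, map_zero, zero_mul]
        rw [h1, ← sum_ind D₀.1 c hc (fun a => L.th n ((cocC (c : G) (genHom c hc ν) L.tf hcfin).L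
          (z j : G) (a : G)) * LT L.sys n i (dlt (L.sys.B n) a) (dlt_comm _ a) (y j))]
        have h2 : ∀ w : ι, L.th n (ν (cab ⟨g w * z j * (g w)⁻¹, conj_cent (hg w) (z j)⟩)) *
            LT L.sys n i (dlt (L.sys.B n) c) (dlt_comm _ c)
              (K0.map (MonoidAlgebra.mapDomainRingHom k w.1.toMonoidHom) (y j)) =
            L.th n ((cocC (c : G) (genHom c hc ν) L.tf hcfin).L (z j : G)
              ((w.1.symm c : D₀.1) : G)) *
              LT L.sys n i (dlt (L.sys.B n) (w.1.symm c)) (dlt_comm _ (w.1.symm c)) (y j) := by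
          intro w
          rw [LT_aut L.sys i n w.1 c (y j)]
          congr 2
          have h3 : g w * ((w.1.symm c : D₀.1) : G) * (g w)⁻¹ = (c : G) := by
            rw [← hg w, w.1.apply_symm_apply]
          have h4 : ((w.1.symm c : D₀.1) : G) * (z j : G) = (z j : G) * (w.1.symm c : D₀.1) :=
            Subgroup.mem_centralizer_iff.1 (z j).2 _ (w.1.symm c : D₀.1).2
          rw [cocC_eval (c : G) (genHom c hc ν) L.tf hcfin h3 h4, lf, dif_pos]
          · rfl
          · rw [Subgroup.mem_centralizer_iff]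
            intro a ha
            rw [Set.mem_singleton_iff] at ha
            rw [ha]
            exact Subgroup.mem_centralizer_iff.1 (conj_cent (hg w) (z j)) c c.2
        rw [Finset.sum_congr rfl fun w _ => h2 w]
        exact (Finset.sum_subtype _ (fun w => by simp)
          (fun w : MulAut D₀.1 => L.th n ((cocC (c : G) (genHom c hc ν) L.tf hcfin).L (z j : G)
              ((w.symm c : D₀.1) : G)) *
              LT L.sys n i (dlt (L.sys.B n) (w.symm c)) (dlt_comm _ (w.symm c)) (y j))).symm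
      · rw [Finset.sum_eq_zero, mul_zero]
        intro p _
        rw [LT_aut L.sys i n p.1.1 c (y p.2), hy p.2 n _ (zpowers_aut p.1.1.symm c hc), mul_zero])
  have h7 : ∑ p : ι × Fin N, syB D₀
      (K0.map (MonoidAlgebra.mapDomainRingHom k p.1.1.toMonoidHom) (y p.2))
      (cab ⟨g p.1 * z p.2 * (g p.1)⁻¹, conj_cent (hg p.1) (z p.2)⟩) =
      (Fintype.card ι : ℤ) • ∑ j, sy D₀ (y j) (z j) := by
    rw [Fintype.sum_prod_type]
    have h8 : ∀ w : ι, ∑ j : Fin N, syB D₀
        (K0.map (MonoidAlgebra.mapDomainRingHom k w.1.toMonoidHom) (y j))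
        (cab ⟨g w * z j * (g w)⁻¹, conj_cent (hg w) (z j)⟩) = ∑ j, sy D₀ (y j) (z j) := by
      intro w
      refine Finset.sum_congr rfl fun j _ => ?_
      rw [syB_apply]
      exact sy_ind D₀ w.1 (g w) (hg w) (y j) (z j)
    rw [Finset.sum_congr rfl fun w _ => h8 w, Finset.sum_const, Finset.card_univ, natCast_zsmul]
  rw [h7, smul_smul] at h
  have hne : Nonempty ι := ⟨⟨1, 1, fun d => by simp⟩⟩
  exact ⟨m * Fintype.card ι, mul_ne_zero hm (by exact_mod_cast Fintype.card_ne_zero), h⟩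

/-- Sums of primitive symbols. -/
theorem split_list (D₀ : FamSub G FinSub) [IsCyclic D₀.1] (l : List (H1K0 k G))
    (hl : ∀ w ∈ l, w ∈ PSet L.sys i G) :
    ∃ w₀ ∈ OverS L i D₀, ∃ l' : List (H1K0 k G),
      (∀ w ∈ l', w ∈ PSet L.sys i G ∧ w ∉ OverS L i D₀) ∧ l'.length ≤ l.length ∧
        l.sum = w₀ + l'.sum := by
  induction l with
  | nil => exact ⟨0, AddSubgroup.zero_mem _, [], by simp, le_rfl, by simp⟩
  | cons w l ih =>
    obtain ⟨w₀, hw₀, l', h1, h2, h3⟩ := ih (fun w hw => hl w (List.mem_cons_of_mem _ hw))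
    by_cases hw : w ∈ OverS L i D₀
    · refine ⟨w + w₀, AddSubgroup.add_mem _ hw hw₀, l', h1, h2.trans (by simp), ?_⟩
      rw [List.sum_cons, h3, add_assoc]
    · refine ⟨w₀, hw₀, w :: l', ?_, by simpa using h2, ?_⟩
      · intro w' hw'
        rcases List.mem_cons.1 hw' with rfl | hw'
        · exact ⟨hl _ List.mem_cons_self, hw⟩
        · exact h1 w' hw'
      · rw [List.sum_cons, List.sum_cons, h3]
        abel

variable (hsep : ∀ D : FamSub G FinSub, IsCyclic D.1 → (∀ h : D.1, (orderOf h : k) ≠ 0) →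
  ∀ b : CAb D.1, (∀ ν : CAb D.1 →+ L.Lam, ν b = 0) → ∃ m : ℤ, m ≠ 0 ∧ m • b = 0)

include hsep in
theorem torsion_list (N : ℕ) : ∀ l : List (H1K0 k G), l.length = N →
    (∀ w ∈ l, w ∈ PSet L.sys i G) → VanOn L i (fun _ => True) (asmH k G l.sum) →
    ∃ m : ℤ, m ≠ 0 ∧ m • l.sum = 0 := by
  induction N using Nat.strong_induction_on with
  | _ N ih =>
    intro l hN hl hv
    match l, hN, hl, hv with
    | [], _, _, _ => exact ⟨1, one_ne_zero, by simp⟩
    | w :: l, hN, hl, hv =>
      obtain ⟨D₀, hD₀, ho, y₀, hy₀, z₀, hw⟩ := hl w List.mem_cons_self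
      have hwO : w ∈ OverS L i D₀ := by
        rw [hw]
        exact AddSubgroup.subset_closure ⟨y₀, hy₀, z₀, rfl⟩
      obtain ⟨w₁, hw₁, l', h1, h2, h3⟩ := split_list L i D₀ l
        (fun w hw => hl w (List.mem_cons_of_mem _ hw))
      obtain ⟨n, y, z, hy, hfam⟩ := exists_fam L i D₀ (AddSubgroup.add_mem _ hwO hw₁)
      have e1 : (w :: l).sum = (w + w₁) + l'.sum := by rw [List.sum_cons, h3, add_assoc]
      have hrest : VanOn L i (IsGen D₀) (asmH k G l'.sum) := by
        rw [map_list_sum]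
        apply VanOn.list_sum
        intro a ha
        obtain ⟨w', hw', rfl⟩ := List.mem_map.1 ha
        obtain ⟨⟨D, hD, _, y', hy', z', rfl⟩, hno⟩ := h1 w' hw'
        exact vanOn_not_over L i D₀ D y' hy' z' hno
      have hv0 : VanOn L i (IsGen D₀) (asmH k G (w + w₁)) := by
        have e2 : asmH k G (w + w₁) = asmH k G (w :: l).sum - asmH k G l'.sum := by
          rw [e1, map_add (asmH k G) (w + w₁), add_sub_cancel_right]
        rw [e2]
        exact (hv.mono fun _ _ => trivial).sub hrest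
      rw [hfam] at hv0
      obtain ⟨m, hm, hm0⟩ := torsion_over L i D₀ ho (hsep D₀ hD₀ ho) n y hy z hv0
      rw [← hfam] at hm0
      have hv1 : VanOn L i (fun _ => True) (asmH k G l'.sum) := by
        apply VanOn.of_smul hm
        have e3 : m • asmH k G l'.sum = m • asmH k G (w :: l).sum := by
          rw [e1, map_add (asmH k G) (w + w₁), smul_add, ← map_zsmul (asmH k G) m
            (w + w₁), hm0, map_zero, zero_add]
        rw [e3]
        obtain ⟨M, hM, hv⟩ := hv
        refine ⟨M, hM, fun c hP hc lam n => ?_⟩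
        rw [map_zsmul, zsmul_eq_mul, mul_left_comm, hv c hP hc lam n, mul_zero]
      obtain ⟨m', hm', h4⟩ := ih l'.length (by rw [← hN, List.length_cons]; omega) l' rfl
        (fun w hw => (h1 w hw).1) hv1
      refine ⟨m * m', mul_ne_zero hm hm', ?_⟩
      rw [e1, smul_add, mul_smul m m' l'.sum, h4, smul_zero, add_zero, mul_comm, mul_smul, hm0,
        smul_zero]

theorem pSet_neg {w : H1K0 k G} (hw : w ∈ PSet L.sys i G) : -w ∈ PSet L.sys i G := by
  obtain ⟨D, hD, ho, y, hy, z, rfl⟩ := hw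
  refine ⟨D, hD, ho, -y, isPrim_neg L.sys i hy, z, ?_⟩
  rw [← syH_apply, ← syH_apply, map_neg]

theorem exists_list {w : H1K0 k G} (hw : w ∈ AddSubgroup.closure (PSet L.sys i G)) :
    ∃ l : List (H1K0 k G), (∀ w ∈ l, w ∈ PSet L.sys i G) ∧ l.sum = w := by
  induction hw using AddSubgroup.closure_induction with
  | mem x hx => exact ⟨[x], by simpa using hx, by simp⟩
  | zero => exact ⟨[], by simp, rfl⟩
  | add x y _ _ hx hy =>
    obtain ⟨l, h1, rfl⟩ := hx
    obtain ⟨l', h1', rfl⟩ := hy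
    refine ⟨l ++ l', ?_, List.sum_append⟩
    intro z hz
    rcases List.mem_append.1 hz with h | h
    · exact h1 z h
    · exact h1' z h
  | neg x _ hx =>
    obtain ⟨l, h1, rfl⟩ := hx
    refine ⟨l.map (- ·), ?_, ?_⟩
    · intro z hz
      obtain ⟨y, hy, rfl⟩ := List.mem_map.1 hz
      exact pSet_neg L i (h1 y hy)
    · have hneg : ∀ l : List (H1K0 k G), (l.map (- ·)).sum = - l.sum := by
        intro l
        induction l with
        | nil => simp
        | cons a l ih => rw [List.map_cons, List.sum_cons, List.sum_cons, ih, neg_add]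
      exact hneg l

include hsep in
/-- If all traces of `asmH w` vanish up to a uniform multiple then `w` is torsion. -/
theorem torsion_of_vanOn (w : H1K0 k G) (hv : VanOn L i (fun _ => True) (asmH k G w)) :
    ∃ m : ℤ, m ≠ 0 ∧ m • w = 0 := by
  obtain ⟨m, hm, hw⟩ := mem_sat L.sys i w
  obtain ⟨l, h1, hl⟩ := exists_list L i hw
  obtain ⟨m', hm', h2⟩ := torsion_list L i hsep l.length l rfl h1 (by
    rw [hl, map_zsmul]
    obtain ⟨M, hM, hv⟩ := hv
    refine ⟨M, hM, fun c hP hc lam n => ?_⟩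
    rw [map_zsmul, zsmul_eq_mul, mul_left_comm, hv c hP hc lam n, mul_zero])
  exact ⟨m' * m, mul_ne_zero hm' hm, by rw [mul_smul, ← hl, h2]⟩

end

end Pool.Agent.H71.DB

end
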